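import Pool.Agent.Lib.MP_7e5527_ag.EA.AF

/-! Intersection theorem, curve selection, amalgams. -/

open MvPowerSeries

noncomputable section

namespace Pool.Agent.E7

variable {σ k : Type} [Finite σ] [Field k]

/-! Part 1. -/

theorem kr {D : Type} [CommRing D] [IsDomain D] [IsNoetherianRing D] (m : Ideal D) {s x : D}
    (hs : ∀ n : ℕ, s ^ n ∉ m) (h : ∀ M : ℕ, ∃ n : ℕ, s ^ n * x ∈ m ^ M) : x = 0 := by
  have h0 : Submonoid.powers s ≤ nonZeroDivisors D := powers_le_nonZeroDivisors_of_noZeroDivisors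
    fun e => hs 1 (by simp [e])
  have := IsLocalization.isDomain_localization h0
  refine IsLocalization.injective (Localization.Away s) h0 ?_
  rw [map_zero, ← Ideal.mem_bot, ← (m.map (algebraMap D _)).iInf_pow_eq_bot_of_isDomain
    ((IsLocalization.map_algebraMap_ne_top_iff_disjoint (Submonoid.powers s) _ m).2
      (Set.disjoint_left.2 fun _ ⟨n, e⟩ => e ▸ hs n)), Ideal.mem_iInf]
  intro M
  obtain ⟨n, hn⟩ := h M
  have h1 := Ideal.mem_map_of_mem (algebraMap D (Localization.Away s)) hn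
  rwa [Ideal.map_pow, map_mul, Ideal.unit_mul_mem_iff_mem _
    (IsLocalization.map_units _ (⟨_, n, rfl⟩ : Submonoid.powers s))] at h1

private theorem ak1_lift {S : Type} [CommRing S] (a : σ → k) (π : MvPolynomial σ k →+* S)
    (h : ∀ i, IsNilpotent (π (MvPolynomial.X i - MvPolynomial.C (a i)))) : ∃ E : PS σ k →+* S,
      ∀ P, E (MvPolynomial.aeval (fun i => (C (a i) + X i : PS σ k)) P) = π P := by
  obtain ⟨E, e1, e2⟩ := (ev_nil h).exists (π.comp MvPolynomial.C)
  exact ⟨E, DFunLike.congr_fun (MvPolynomial.ringHom_ext (f := E.comp (MvPolynomial.aeval _ :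
    MvPolynomial σ k →ₐ[k] PS σ k).toRingHom)
    (fun c => (congrArg E (MvPolynomial.aeval_C _ c)).trans (e1 c)) fun i => by simp [e1, e2])⟩

/-- A branch of a variety at a rational point. -/
theorem krull (a : σ → k) (q : Ideal (MvPolynomial σ k)) [q.IsPrime]
    (h : ∀ P ∈ q, MvPolynomial.eval a P = 0) : ∃ 𝔓 : Ideal (PS σ k), 𝔓.IsPrime ∧
      ∀ P, MvPolynomial.aeval (fun i => (C (a i) + X i : PS σ k)) P ∈ 𝔓 ↔ P ∈ q := by
  set φ := (MvPolynomial.aeval fun i => (C (a i) + X i : PS σ k) :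
    MvPolynomial σ k →ₐ[k] PS σ k).toRingHom
  obtain ⟨𝔓, h1, h2, h3⟩ := Ideal.exists_ideal_comap_le_prime (f := φ) q (q.map φ) fun P hP => by
    set m := RingHom.ker (MvPolynomial.eval a)
    refine Ideal.Quotient.eq_zero_iff_mem.1
      (kr (m.map (Ideal.Quotient.mk q)) (s := 1) (fun n e => ?_) fun M => ⟨0, ?_⟩)
    · rw [one_pow, ← map_one (Ideal.Quotient.mk q), Ideal.mem_quotient_iff_mem h] at e
      simp [m] at e
    · obtain ⟨E, e⟩ := ak1_lift a (Ideal.Quotient.mk (m ^ M ⊔ q)) fun i => ⟨M,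
        Ideal.Quotient.eq_zero_iff_mem.2
          (Ideal.mem_sup_left (Ideal.pow_mem_pow (by simp [m]) M))⟩
      have e4 : q.map φ ≤ RingHom.ker E := Ideal.map_le_iff_le_comap.2 fun Q hQ =>
        (e Q).trans (Ideal.Quotient.eq_zero_iff_mem.2 (Ideal.mem_sup_right hQ))
      rw [pow_zero, one_mul, ← Ideal.map_pow, Ideal.mem_quotient_iff_mem_sup]
      exact Ideal.Quotient.eq_zero_iff_mem.1 ((e P).symm.trans (e4 hP))
  exact ⟨𝔓, h2, fun P => ⟨fun e => h3 e, fun e => h1 (Ideal.mem_map_of_mem φ e)⟩⟩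

omit [Finite σ] in
private theorem ak1_max {G : PS σ k} (h0 : constantCoeff G = 0) :
    G ∈ IsLocalRing.maximalIdeal (PS σ k) := fun e => by
  simpa [h0] using isUnit_iff_constantCoeff.1 e

/-- A prime that is maximal among the primes avoiding `G` has dimension one (principal ideal
theorem, prime avoidance). -/
theorem arc_prime (𝔓 : Ideal (PS σ k)) [𝔓.IsPrime] {G : PS σ k} (h : G ∉ 𝔓)
    (h0 : constantCoeff G = 0) : ∃ 𝔔 : Ideal (PS σ k), 𝔔.IsPrime ∧ 𝔓 ≤ 𝔔 ∧ G ∉ 𝔔 ∧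
      ∃ N : ℕ, ∀ i, X i ^ N ∈ 𝔔 ⊔ Ideal.span {G} := by
  obtain ⟨𝔔, ⟨h1, h2, h3⟩, h4⟩ := set_has_maximal_iff_noetherian.2
    (inferInstance : IsNoetherianRing (PS σ k)) {I | Ideal.IsPrime I ∧ 𝔓 ≤ I ∧ G ∉ I}
    ⟨𝔓, ‹_›, le_rfl, h⟩
  have hQ := IsLocalRing.le_maximalIdeal h1.ne_top
  obtain ⟨p₀, h5, h6⟩ := (Ideal.subset_union_prime_finite
    (Ideal.finite_minimalPrimes_of_isNoetherianRing _ (𝔔 ⊔ Ideal.span {G})) (f := id) ⊥ ⊥
    (fun p hp _ _ => hp.isPrime) (I := IsLocalRing.maximalIdeal _)).1 fun x hx => by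
      simp only [Set.mem_iUnion, id, exists_prop]
      by_cases hx' : x ∈ 𝔔
      · obtain ⟨p, hp, -⟩ := Ideal.exists_minimalPrimes_le
          (sup_le hQ ((Ideal.span_singleton_le_iff_mem _).2 (ak1_max h0)))
        exact ⟨p, hp, hp.le (Ideal.mem_sup_left hx')⟩
      obtain ⟨p, hp, -⟩ := Ideal.exists_minimalPrimes_le (I := Ideal.span (insert x 𝔔))
        (Ideal.span_le.2 (Set.insert_subset hx hQ))
      have := hp.isPrime
      obtain ⟨a1, a2⟩ := Set.insert_subset_iff.1 (Ideal.span_le.1 hp.le)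
      obtain ⟨p', hp', a3⟩ := Ideal.exists_minimalPrimes_le (I := 𝔔 ⊔ Ideal.span {G}) (J := p)
        (sup_le a2 ((Ideal.span_singleton_le_iff_mem _).2 (by_contra fun a4 =>
          h4 p ⟨this, h2.trans a2, a4⟩ (lt_of_le_of_ne a2 fun e => hx' (e ▸ a1)))))
      have := hp'.isPrime
      refine ⟨p', hp', a3.eq_or_lt.elim (fun e => e ▸ a1) fun a4 => (h3 ?_).elim⟩
      have a5 := Ideal.mem_minimalPrimes_span_of_mem_minimalPrimes_span_insert a4 x _ hp 𝔔
        (fun _ hy => hp'.le (Ideal.mem_sup_left hy)) fun y hy =>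
          Ideal.le_radical (Ideal.subset_span (Set.mem_insert_of_mem _ hy))
      rw [Ideal.span_eq] at a5
      exact a5.2 ⟨h1, le_rfl⟩ a5.le
        (hp'.le (Ideal.mem_sup_right (Ideal.mem_span_singleton_self G)))
  obtain ⟨N, hN⟩ := Ideal.exists_pow_le_of_le_radical_of_fg (J := 𝔔 ⊔ Ideal.span {G})
    ((le_sInf fun p hp => h6.trans (h5.2 hp.1 ((IsLocalRing.le_maximalIdeal
      hp.isPrime.ne_top).trans h6))).trans_eq Ideal.sInf_minimalPrimes)
    (IsNoetherian.noetherian (IsLocalRing.maximalIdeal _))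
  exact ⟨𝔔, h1, h2, h3, N, fun i => hN (Ideal.pow_mem_pow (ak1_max (constantCoeff_X i)) N)⟩

/-- Generators modulo the variable generate. -/
private theorem ak1_fin {A ι : Type} [CommRing A] (ψ : PS Unit k →+* A) (s : Finset ι) (b : ι → A)
    (h : ∀ y, ∃ c : ι → k, ψ (X ()) ∣ y - ∑ i ∈ s, ψ (C (c i)) * b i)
    (hs : ∀ y, (∀ n : ℕ, ψ (X ()) ^ n ∣ y) → y = 0) : ψ.Finite := by
  choose c r hr using h
  obtain ⟨S, hS⟩ : ∃ S : A → ι → PS Unit k, ∀ y i, S y i = X () * S (r y) i + C (c y i) :=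
    ⟨fun y i => PowerSeries.mk fun n => c (r^[n] y) i, fun y i =>
      (PowerSeries.eq_X_mul_shift_add_const _).trans (by simp; rfl)⟩
  have h1 : ∀ n y, ψ (X ()) ^ n ∣ y - ∑ i ∈ s, ψ (S y i) * b i := fun n => by
    induction n with
    | zero => simp
    | succ n ih =>
      intro y
      have e : y - ∑ i ∈ s, ψ (S y i) * b i = ψ (X ()) * (r y - ∑ i ∈ s, ψ (S (r y) i) * b i) := by
        simp only [hS y, map_add, map_mul, add_mul, Finset.sum_add_distrib, mul_assoc,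
          ← Finset.mul_sum]
        linear_combination hr y
      rw [e, pow_succ']
      exact mul_dvd_mul_left _ (ih _)
  let _ := ψ.toAlgebra
  refine ⟨Submodule.fg_def.2 ⟨b '' s, s.finite_toSet.image b, eq_top_iff.2 fun y _ => ?_⟩⟩
  rw [sub_eq_zero.1 (hs _ fun n => h1 n y)]
  exact sum_mem fun i hi => Submodule.smul_mem _ (S y i) (Submodule.subset_span ⟨i, hi, rfl⟩)

theorem arc_finite (𝔔 : Ideal (PS σ k)) [𝔔.IsPrime] {G : PS σ k} (h : G ∉ 𝔔)
    (h0 : constantCoeff G = 0) {N : ℕ} (hN : ∀ i, X i ^ N ∈ 𝔔 ⊔ Ideal.span {G}) :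
    Function.Injective ((Ideal.Quotient.mk 𝔔).comp (sb fun _ : Unit => G)) ∧
      ((Ideal.Quotient.mk 𝔔).comp (sb fun _ : Unit => G)).Finite := by
  have hE : Ev fun _ : Unit => G := C0.ev fun _ => h0
  set ψ := (Ideal.Quotient.mk 𝔔).comp (sb fun _ : Unit => G)
  have e1 : ψ (X ()) = Ideal.Quotient.mk 𝔔 G := congrArg _ (evx_X hE ())
  have e2 : ∀ c, ψ (C c) = Ideal.Quotient.mk 𝔔 (C c) := fun c => congrArg _ (evx_C hE c)
  refine ⟨(injective_iff_map_eq_zero ψ).2 fun f hf => by_contra fun h1 => h ?_, ?_⟩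
  · obtain ⟨n, hn⟩ := IsDiscreteValuationRing.associated_pow_irreducible (R := PowerSeries k) h1
      PowerSeries.X_irreducible
    have h2 : Associated (ψ f) (ψ (X () ^ n)) := hn.map ψ
    rw [hf, map_pow, e1] at h2
    exact Ideal.Quotient.eq_zero_iff_mem.1
      (pow_eq_zero_iff' .. |>.1 ((associated_zero_iff_eq_zero _).1 h2.symm)).1
  obtain ⟨M, hM⟩ := Ideal.exists_pow_le_of_le_radical_of_fg (J := 𝔔 ⊔ Ideal.span {G})
    (I := Ideal.span (Set.range X)) (Ideal.span_le.2 (by rintro _ ⟨i, rfl⟩; exact ⟨N, hN i⟩))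
    (IsNoetherian.noetherian _)
  classical
  refine ak1_fin ψ (Finsupp.finite_of_degree_lt (σ := σ) M).toFinset
    (fun ν => Ideal.Quotient.mk 𝔔 (monomial ν 1)) (fun y => ?_) fun y hy =>
      kr (Ideal.span {ψ (X ())}) (s := 1) (fun n e => ?_) fun n => ⟨0, ?_⟩
  · obtain ⟨f, rfl⟩ := Ideal.Quotient.mk_surjective y
    refine ⟨fun ν => coeff ν f, ?_⟩
    simp only [e1, e2, ← map_mul, ← map_sum, ← map_sub]
    rw [← Ideal.mem_span_singleton, ← Set.image_singleton, ← Ideal.map_span,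
      Ideal.mem_quotient_iff_mem_sup, sup_comm]
    refine hM (mem_X_pow.2 fun ν hν => ?_)
    simp [coeff_monomial, hν]
  · rw [one_pow, e1, ← Set.image_singleton, ← Ideal.map_span, ← map_one (Ideal.Quotient.mk 𝔔),
      Ideal.mem_quotient_iff_mem_sup] at e
    exact (IsLocalRing.maximalIdeal.isMaximal _).ne_top ((Ideal.eq_top_iff_one _).2
      (sup_le ((Ideal.span_singleton_le_iff_mem _).2 (ak1_max h0))
        (IsLocalRing.le_maximalIdeal (Ideal.IsPrime.ne_top ‹_›)) e))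
  · rw [pow_zero, one_mul, Ideal.span_singleton_pow, Ideal.mem_span_singleton]
    exact hy n

/-! Part 2. -/

private theorem ak2_res [IsAlgClosed k] {V : Type} [CommRing V] [IsDomain V] [IsLocalRing V]
    (f : PowerSeries k →+* V) (hf : Function.Injective f) (ht : ¬IsUnit (f .X)) {d : ℕ}
    (hd : ∀ y : V, ∃ a : Fin d → PowerSeries k, ∑ i, f (a i) * y ^ (i : ℕ) = 0 ∧ ∃ i, a i ≠ 0)
    (y : V) : ∃ c, ¬IsUnit (y - f (.C c)) := by
  let _ := ((IsLocalRing.residue V).comp (f.comp PowerSeries.C)).toAlgebra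
  have e : ∀ a, IsLocalRing.residue V (f a) = algebraMap k _ (PowerSeries.constantCoeff a) :=
    fun a => by
      conv_lhs => rw [a.eq_X_mul_shift_add_const]
      rw [map_add, map_add, map_mul, map_mul, (IsLocalRing.residue_eq_zero_iff _).2 ht, zero_mul,
        zero_add]
      rfl
  have : Algebra.IsAlgebraic k (IsLocalRing.ResidueField V) := ⟨fun z => by
    obtain ⟨y, rfl⟩ := IsLocalRing.residue_surjective z
    obtain ⟨a, h1, i, h2⟩ := hd y
    have : Nonempty (Fin d) := ⟨i⟩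
    obtain ⟨j, hj⟩ := Finite.exists_min fun i => IsDiscreteValuationRing.addVal _ (a i)
    choose b hb using fun i => IsDiscreteValuationRing.addVal_le_iff_dvd.1 (hj i)
    have h3 : a j ≠ 0 := fun e => h2 (by rw [hb i, e, zero_mul])
    have h4 : ∑ i, f (b i) * y ^ (i : ℕ) = 0 :=
      (mul_eq_zero.1 (by rw [← h1, Finset.mul_sum]; congr with i; rw [hb i, map_mul, mul_assoc])
        ).resolve_left ((map_ne_zero_iff f hf).2 h3)
    refine ⟨∑ i : Fin d, .monomial i (PowerSeries.constantCoeff (b i)), fun h => ?_, ?_⟩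
    · simpa [Polynomial.coeff_monomial, Fin.val_inj, (mul_eq_left₀ h3).1 (hb j).symm] using
        congrArg (·.coeff j) h
    · simpa [e] using congrArg (IsLocalRing.residue V) h4⟩
  obtain ⟨c, hc⟩ := (IsAlgClosed.algebraMap_bijective_of_isIntegral (k := k)).2
    (IsLocalRing.residue V y)
  exact ⟨c, (IsLocalRing.residue_eq_zero_iff _).1 (by rw [map_sub, ← hc]; exact sub_self _)⟩

private theorem ak2_disc {V Γ : Type} [CommRing V] [IsDomain V]
    [LinearOrderedCommGroupWithZero Γ] (v : Valuation V Γ) (hv : ∀ x y, v x ≤ v y ↔ y ∣ x)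
    (f : PowerSeries k →+* V) (hf : Function.Injective f) (ht : ¬IsUnit (f .X)) {d : ℕ}
    (hd : ∀ y : V, ∃ a : Fin d → PowerSeries k, ∑ i, f (a i) * y ^ (i : ℕ) = 0 ∧ ∃ i, a i ≠ 0) :
    ∃ w : V, w ≠ 0 ∧ ¬IsUnit w ∧ (∀ y, ¬IsUnit y → w ∣ y) ∧ ∀ y, (∀ n : ℕ, w ^ n ∣ y) → y = 0 := by
  have h0 : ∀ {x}, x ≠ 0 → 0 < v x := fun hx =>
    not_le.1 fun h => hx (zero_dvd_iff.1 ((hv _ 0).1 (by rwa [map_zero])))
  have hu : ∀ {x}, ¬IsUnit x → v x < 1 := fun hx =>
    not_le.1 fun h => hx (isUnit_of_dvd_one ((hv 1 _).1 (by rwa [map_one])))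
  have hX : f .X ≠ 0 := (map_ne_zero_iff f hf).2 PowerSeries.X_ne_zero
  have hA : ∀ a, v (f a) ≠ 0 → ∃ n, v (f a) = v (f .X) ^ n := fun a ha => by
    obtain ⟨n, hn⟩ := IsDiscreteValuationRing.associated_pow_irreducible
      (x := a) (fun e => ha (by simp [e])) PowerSeries.X_irreducible
    simp only [← map_pow]
    exact ⟨n, le_antisymm ((hv _ _).2 (hn.map f).symm.dvd) ((hv _ _).2 (hn.map f).dvd)⟩
  have hN : ∀ y, y ≠ 0 → ∃ m, v y ^ d.factorial = v (f .X) ^ m := fun y hy => by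
    obtain ⟨a, h1, i, h2⟩ := hd y
    have key : ∀ i j : Fin d, i < j → v (f (a i) * y ^ (i : ℕ)) = v (f (a j) * y ^ (j : ℕ)) →
        v (f (a j) * y ^ (j : ℕ)) ≠ 0 → ∃ m, v y ^ d.factorial = v (f .X) ^ m := fun i j l e n => by
      obtain ⟨r, hr⟩ := Nat.exists_eq_add_of_lt (show (i : ℕ) < j from l)
      obtain ⟨c, hc⟩ := Nat.dvd_factorial r.succ_pos (show r + 1 ≤ d by omega)
      obtain ⟨p, hp⟩ := hA (a i) (left_ne_zero_of_mul (map_mul v _ _ ▸ e ▸ n))
      obtain ⟨q, hq⟩ := hA (a j) (left_ne_zero_of_mul (map_mul v _ _ ▸ n))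
      rw [map_mul, map_mul, map_pow, map_pow, hp, hq, hr, add_assoc, pow_add, mul_left_comm,
        mul_comm, mul_right_inj' (pow_pos (h0 hy) _).ne'] at e
      obtain ⟨m, rfl⟩ := Nat.exists_eq_add_of_le ((pow_le_pow_iff_right_of_lt_one₀ (h0 hX)
        (hu ht)).1 (e.trans_le (mul_le_of_le_one_right' (pow_le_one'
          (((hv y 1).2 (one_dvd y)).trans_eq (map_one v)) _))))
      rw [pow_add, mul_right_inj' (pow_pos (h0 hX) _).ne'] at e
      exact ⟨m * c, by rw [hc, pow_mul, pow_mul, e]⟩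
    have : Nonempty (Fin d) := ⟨i⟩
    obtain ⟨j, hj⟩ := Finite.exists_max fun i => v (f (a i) * y ^ (i : ℕ))
    have h3 := ((h0 (mul_ne_zero ((map_ne_zero_iff f hf).2 h2) (pow_ne_zero _ hy))).trans_le
      (hj i)).ne'
    by_contra h
    refine h3 ((v.map_sum_eq_of_lt (Finset.mem_univ j) fun l hl => (hj l).lt_of_ne fun e =>
      h ?_).symm.trans (by rw [h1, map_zero]))
    rcases lt_or_gt_of_ne (show l ≠ j by simpa using hl) with h4 | h4
    exacts [key l j h4 e h3, key j l h4 e.symm (e ▸ h3)]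
  have hex : ∃ m, ∃ w, w ≠ 0 ∧ ¬IsUnit w ∧ v w ^ d.factorial = v (f .X) ^ m :=
    ⟨_, _, hX, ht, rfl⟩
  classical
  obtain ⟨w, w0, w1, w2⟩ := Nat.find_spec hex
  refine ⟨w, w0, w1, fun y hy => ?_, fun y hy => by_contra fun y0 => ?_⟩
  · rcases eq_or_ne y 0 with rfl | y0
    · exact dvd_zero w
    obtain ⟨m, hm⟩ := hN y y0
    rw [← hv, ← pow_le_pow_iff_left₀ zero_le zero_le d.factorial_ne_zero, hm, w2]
    exact pow_le_pow_right_of_le_one' (hu ht).le (Nat.find_min' hex ⟨y, y0, hy, hm⟩)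
  · obtain ⟨m, hm⟩ := hN y y0
    have h1 := pow_le_pow_left' ((hv _ _).2 (hy (m + 1))) d.factorial
    rw [hm, map_pow, ← pow_mul, mul_comm, pow_mul, w2, ← pow_mul,
      pow_le_pow_iff_right_of_lt_one₀ (h0 hX) (hu ht)] at h1
    have h2 : Nat.find hex ≠ 0 := fun e =>
      (pow_lt_one' (hu w1) d.factorial_ne_zero).ne (by rw [w2, e, pow_zero])
    nlinarith [Nat.pos_of_ne_zero h2]

/-- A valuation ring of the fraction field that dominates the power series is discrete and has the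
residue field `k`. -/
theorem exists_dvr [IsAlgClosed k] {B : Type} [CommRing B] [IsDomain B] (ψ : PS Unit k →+* B)
    (hi : Function.Injective ψ) (hf : ψ.Finite) : ∃ (V : Type) (_ : CommRing V) (_ : IsDomain V)
      (g : B →+* V) (w : V), Function.Injective g ∧ w ≠ 0 ∧ ¬ IsUnit w ∧ w ∣ g (ψ (X ())) ∧
        (∀ y, ∃ c : k, w ∣ y - g (ψ (C c))) ∧ ∀ y, (∀ n : ℕ, w ^ n ∣ y) → y = 0 := by
  let _ := ψ.toAlgebra
  have : Module.Finite (PS Unit k) B := hf
  have hB := IsFractionRing.injective B (FractionRing B)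
  have := hf.to_isIntegral.isLocalHom hi
  obtain ⟨V, h1, h2⟩ := Ideal.image_subset_nonunits_valuationSubring
    (A := (algebraMap B (FractionRing B)).range)
    (Ideal.span {(algebraMap B _).rangeRestrict (ψ (X ()))}) (Ideal.span_singleton_ne_top fun h =>
      ak1_max (constantCoeff_X ()) (isUnit_of_map_unit ψ _ ((isUnit_map_iff (RingEquiv.ofBijective _
        ⟨fun _ _ e => hB (congrArg Subtype.val e), RingHom.rangeRestrict_surjective _⟩) _).1 h)))
  let g : B →+* V := (algebraMap B (FractionRing B)).codRestrict V.toSubring fun b => h1 ⟨b, rfl⟩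
  have hg : Function.Injective g := fun _ _ e => hB (congrArg Subtype.val e)
  have ht : ¬IsUnit (g (ψ (X ()))) :=
    V.coe_mem_nonunits_iff.1 (h2 ⟨_, Ideal.mem_span_singleton_self _, rfl⟩)
  have hd : ∀ y : V, ∃ a : Fin (Module.finrank (PS Unit k) B + 1) → PowerSeries k,
      ∑ i, (g.comp ψ) (a i) * y ^ (i : ℕ) = 0 ∧ ∃ i, a i ≠ 0 := fun y => by
    obtain ⟨b, c, hc, e⟩ := IsFractionRing.div_surjective B y.1
    have c0 : g c ≠ 0 := (map_ne_zero_iff g hg).2 (nonZeroDivisors.ne_zero hc)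
    have e1 : g b = y * g c := Subtype.ext ((div_eq_iff fun h => c0 (Subtype.ext h)).1 e)
    obtain ⟨a, a1, a2⟩ := Fintype.not_linearIndependent_iff.1 fun h : LinearIndependent (PS Unit k)
        fun i : Fin (Module.finrank (PS Unit k) B + 1) => b ^ (i : ℕ) * c ^ (i.rev : ℕ) => by
      simpa using h.fintype_card_le_finrank
    refine ⟨a, (mul_eq_zero.1 ?_).resolve_right (pow_ne_zero (Module.finrank (PS Unit k) B) c0), a2⟩
    rw [← map_zero g, ← a1, map_sum, Finset.sum_mul]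
    refine Finset.sum_congr rfl fun i _ => ?_
    rw [Algebra.smul_def, map_mul, map_mul, map_pow, map_pow, e1, mul_pow, mul_assoc, mul_assoc,
      ← pow_add, Fin.val_rev, Nat.add_sub_add_right, Nat.add_sub_cancel' (Nat.lt_succ_iff.1 i.2)]
    rfl
  obtain ⟨w, w0, w1, w2, w3⟩ := ak2_disc (V.valuation.comap (algebraMap V _))
    (fun x y => (V.valuation_le_iff _ _).trans ⟨fun ⟨a, e⟩ => ⟨a, Subtype.ext (e.symm.trans
      (mul_comm _ _))⟩, fun ⟨a, e⟩ => ⟨a, (mul_comm _ _).trans (congrArg Subtype.val e).symm⟩⟩)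
    (g.comp ψ) (hg.comp hi) ht hd
  exact ⟨V, inferInstance, inferInstance, g, w, hg, w0, w1, w2 _ ht, fun y =>
    (ak2_res (g.comp ψ) (hg.comp hi) ht hd y).imp fun c => w2 _, w3⟩

/-! Part 3. -/

theorem dvr_expand {V : Type} [CommRing V] [IsDomain V] (c0 : k →+* V) {w : V} (h0 : w ≠ 0)
    (h1 : ¬ IsUnit w) (h2 : ∀ y, ∃ c : k, w ∣ y - c0 c) (h3 : ∀ y, (∀ n : ℕ, w ^ n ∣ y) → y = 0) :
    ∃ ε : V →+* PS Unit k, Function.Injective ε ∧ ε w = X () ∧ ∀ c, ε (c0 c) = C c := by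
  choose c r hr using h2
  obtain ⟨S, hS⟩ : ∃ S : V → PS Unit k, ∀ y, S y = X () * S (r y) + C (c y) :=
    ⟨fun y => PowerSeries.mk fun n => c (r^[n] y), fun y =>
      (PowerSeries.eq_X_mul_shift_add_const _).trans (by simp; rfl)⟩
  choose E e1 e2 using fun N : ℕ => (ev_nil (x := fun _ : Unit =>
    Ideal.Quotient.mk (Ideal.span {w ^ N}) w) fun _ => ⟨N, Ideal.Quotient.eq_zero_iff_mem.2
      (Ideal.mem_span_singleton_self _)⟩).exists ((Ideal.Quotient.mk _).comp c0)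
  have e3 : ∀ N y, E N (S y) = Ideal.Quotient.mk _ y := fun N y => by
    have h : ∀ (n : ℕ) y,
        Ideal.Quotient.mk _ (w ^ n) ∣ E N (S y) - Ideal.Quotient.mk _ y := fun n => by
      induction n with
      | zero => simp
      | succ n ih =>
        intro y
        obtain ⟨z, hz⟩ := ih (r y)
        refine ⟨z, ?_⟩
        rw [hS y, map_add, map_mul, e1, e2, pow_succ', map_mul, mul_assoc, ← hz, mul_sub,
          ← map_mul, ← hr y, map_sub, RingHom.comp_apply]
        ring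
    simpa [sub_eq_zero] using h N y
  have e4 : ∀ f g, (∀ N, E N f = E N g) → f = g := fun f g h => by_contra fun h5 => by
    obtain ⟨n, hn⟩ := IsDiscreteValuationRing.associated_pow_irreducible (R := PowerSeries k)
      (sub_ne_zero.2 h5) PowerSeries.X_irreducible
    have h6 : Associated (E (n + 1) (f - g)) (E (n + 1) (X () ^ n)) := hn.map _
    rw [map_sub, h, sub_self, map_pow, e2, ← map_pow] at h6
    have h7 := Ideal.mem_span_singleton.1 (Ideal.Quotient.eq_zero_iff_mem.1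
      ((associated_zero_iff_eq_zero _).1 h6.symm))
    exact h1 (isUnit_of_dvd_one ((mul_dvd_mul_iff_left (pow_ne_zero n h0)).1
      (by rwa [mul_one, ← pow_succ])))
  refine ⟨⟨⟨⟨S, e4 _ _ fun N => ?_⟩, fun x y => e4 _ _ fun N => ?_⟩, e4 _ _ fun N => ?_,
    fun x y => e4 _ _ fun N => ?_⟩, (injective_iff_map_eq_zero _).2 fun y hy => h3 y fun N =>
      Ideal.mem_span_singleton.1 (Ideal.Quotient.eq_zero_iff_mem.1 ((e3 N y).symm.trans
        ((congrArg (E N) hy).trans (map_zero _)))),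
    e4 _ _ fun N => (e3 N w).trans (e2 N ()).symm, fun a => e4 _ _ fun N =>
      (e3 N _).trans (e1 N a).symm⟩
  all_goals simp only [e3, map_one, map_mul, map_zero, map_add]

/-- Curve selection. -/
theorem arc [IsAlgClosed k] (𝔓 : Ideal (PS σ k)) [𝔓.IsPrime] {G : PS σ k} (h : G ∉ 𝔓)
    (h0 : constantCoeff G = 0) :
    ∃ y : σ → PS Unit k, C0 y ∧ (∀ f ∈ 𝔓, sb y f = 0) ∧ sb y G ≠ 0 := by
  obtain ⟨𝔔, h1, h2, h3, N, hN⟩ := arc_prime 𝔓 h h0
  obtain ⟨hi, hf⟩ := arc_finite 𝔔 h3 h0 hN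
  obtain ⟨V, _, _, g, w, hg, w0, w1, w2, w3, w4⟩ := exists_dvr _ hi hf
  obtain ⟨ε, hε, e1, e2⟩ := dvr_expand
    (g.comp (((Ideal.Quotient.mk 𝔔).comp (sb fun _ : Unit => G)).comp C)) w0 w1 w3 w4
  have hE : Ev fun _ : Unit => G := C0.ev fun _ => h0
  obtain ⟨ρ, hρ⟩ : ∃ ρ : PS σ k →+* PS Unit k, ∀ f, ρ f = ε (g (Ideal.Quotient.mk 𝔔 f)) :=
    ⟨ε.comp (g.comp (Ideal.Quotient.mk 𝔔)), fun _ => rfl⟩
  have h4 : ∀ f, ρ f = 0 ↔ f ∈ 𝔔 := fun f => by
    rw [hρ, map_eq_zero_iff ε hε, map_eq_zero_iff g hg, Ideal.Quotient.eq_zero_iff_mem]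
  have h5 : 𝔔 ⊔ Ideal.span {G} ≤ RingHom.ker (constantCoeff.comp ρ) := sup_le
    (fun f hf => by simp [(h4 f).2 hf]) ((Ideal.span_singleton_le_iff_mem _).2 (by
      obtain ⟨z, hz⟩ := w2
      rw [RingHom.comp_apply, evx_X hE] at hz
      simp [hρ, hz, e1]))
  have h6 : C0 fun i => ρ (X i) := fun i => by
    have := h5 (hN i)
    rw [RingHom.mem_ker, map_pow] at this
    exact (pow_eq_zero_iff'.1 this).1
  have h7 := eq_evx (φ := C) h6.ev (E := ρ)
    (fun c => by rw [hρ, ← e2 c, ← evx_C (φ := C) hE c]; rfl) fun _ => rfl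
  exact ⟨_, h6, fun f hf => (h7 f).symm.trans ((h4 f).2 (h2 hf)),
    fun e => h3 ((h4 G).1 ((h7 G).trans e))⟩

open Algebra in
private theorem ak3_emb {D O Ω ι : Type} [CommRing D] [IsDomain D] [CommRing O] [IsDomain O]
    [Field Ω] [IsAlgClosed Ω] [Algebra D O] [Algebra D Ω] {x : ι → O}
    (hx : IsTranscendenceBasis D x) {t : ι → Ω} (ht : AlgebraicIndependent D t) :
    ∃ j : O →+* Ω, Function.Injective j ∧ (∀ a, j (algebraMap D O a) = algebraMap D Ω a) ∧
      ∀ b : Ω, IsAlgebraic j.range b → IsAlgebraic (adjoin D (Set.range t)) b := by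
  let e := hx.1.aevalEquiv.symm.trans ht.aevalEquiv
  let _ : Algebra (adjoin D (Set.range x)) Ω :=
    ((adjoin D (Set.range t)).val.comp e.toAlgHom).toRingHom.toAlgebra
  have hi : Function.Injective (algebraMap (adjoin D (Set.range x)) Ω) :=
    Subtype.val_injective.comp e.injective
  have := Module.isTorsionFree_iff_algebraMap_injective.2 hi
  have := hx.isAlgebraic
  let j : O →ₐ[adjoin D (Set.range x)] Ω := IsAlgClosed.lift
  refine ⟨j, (injective_iff_map_eq_zero _).2 fun z hz => by_contra fun z0 =>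
    Ideal.comap_ne_bot_of_algebraic_mem (I := RingHom.ker j) z0 hz (this.isAlgebraic z)
      (eq_bot_iff.2 fun a ha => hi ((j.commutes a).symm.trans (ha.trans (map_zero _).symm))),
    fun a => (j.commutes (algebraMap D _ a)).trans (congrArg Subtype.val (e.commutes a)),
    fun b hb => IsAlgebraic.adjoin_of_forall_isAlgebraic (s := Set.range j) ?_ ?_⟩
  · rintro _ ⟨⟨z, rfl⟩, -⟩
    exact (this.isAlgebraic z).ringHom_of_comp_eq e j e.injective
      (RingHom.ext fun a => (j.commutes a).symm)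
  · exact hb.ringHom_of_comp_eq (Subring.inclusion (T := (adjoin D (Set.range j)).toSubring)
      fun _ h => subset_adjoin h) (RingHom.id Ω) (Subring.inclusion_injective _) rfl

/-- The free amalgam: send transcendence bases to distinct variables, use the matroid closure. -/
theorem amalg {D : Type} [CommRing D] [IsDomain D] (O : ℕ → Type) [∀ n, CommRing (O n)]
    [∀ n, IsDomain (O n)] (f : ∀ n, D →+* O n) (hf : ∀ n, Function.Injective (f n)) :
    ∃ (Ω : Type) (_ : Field Ω) (_ : IsAlgClosed Ω) (g : D →+* Ω) (j : ∀ n, O n →+* Ω),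
      Function.Injective g ∧ (∀ n, Function.Injective (j n)) ∧ (∀ n a, j n (f n a) = g a) ∧
      ∀ n m (b : Ω), n ≠ m → IsAlgebraic (j n).range b → IsAlgebraic (j m).range b →
        IsAlgebraic g.range b := by
  let _ := fun n => (f n).toAlgebra
  have := fun n => (faithfulSMul_iff_algebraMap_injective D (O n)).2 (hf n)
  choose ι x hx using fun n => exists_isTranscendenceBasis' D (O n)
  obtain ⟨Ω, _, _, _, t, ht⟩ : ∃ (Ω : Type) (_ : Field Ω) (_ : IsAlgClosed Ω) (_ : Algebra D Ω)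
      (t : (Σ n, ι n) → Ω), AlgebraicIndependent D t :=
    ⟨AlgebraicClosure (FractionRing (MvPolynomial (Σ n, ι n) D)), _, inferInstance, inferInstance,
      _, (MvPolynomial.algebraicIndependent_X _ D).map' (f := IsScalarTower.toAlgHom D _ _)
        ((algebraMap (FractionRing (MvPolynomial (Σ n, ι n) D)) _).injective.comp
          (IsFractionRing.injective _ _))⟩
  choose j h1 h2 h3 using fun n => ak3_emb (hx n) (ht.comp (Sigma.mk n) sigma_mk_injective)
  refine ⟨Ω, _, ‹_›, algebraMap D Ω, j, ht.algebraMap_injective, h1, h2, fun n m b e bn bm => ?_⟩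
  have := (faithfulSMul_iff_algebraMap_injective D Ω).2 ht.algebraMap_injective
  have h4 : ∀ s : Set Ω, b ∈ (AlgebraicIndependent.matroid D Ω).closure s ↔
      IsAlgebraic (Algebra.adjoin D s) b := fun s => by
    rw [AlgebraicIndependent.matroid_closure_eq]
    rfl
  have h5 := (Matroid.Indep.closure_inter_eq_inter_closure
    (AlgebraicIndependent.matroid_indep_iff.2 (ht.to_subtype_range.mono (Set.union_subset
      (Set.range_comp_subset_range _ _) (Set.range_comp_subset_range _ _))))).ge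
    ⟨(h4 _).2 (h3 n b bn), (h4 _).2 (h3 m b bm)⟩
  refine ((h4 _).1 h5).ringHom_of_comp_eq (Subring.inclusion (T := (algebraMap D Ω).range)
    (S := (Algebra.adjoin D _).toSubring) fun y hy => Algebra.mem_bot.1 (Algebra.adjoin_le ?_ hy))
    (RingHom.id Ω) (Subring.inclusion_injective _) rfl
  rintro _ ⟨⟨a, rfl⟩, b, h⟩
  exact absurd (congrArg Sigma.fst (ht.injective h)).symm e

end Pool.Agent.E7
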