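import Mathlib

/-! Transcendence degree, derivations, constants. -/

open Matrix

noncomputable section

namespace Pool.Agent.E7

/-- Any `r + 1` members of the family are algebraically dependent. -/
def Dep (k : Type) {B α : Type} [CommRing k] [CommRing B] [Algebra k B] (r : ℕ) (x : α → B) :
    Prop := ∀ s : Fin (r + 1) → α, ¬ AlgebraicIndependent k fun i => x (s i)

variable {k B B' α β : Type} [Field k] [CommRing B] [IsDomain B] [Algebra k B] [CommRing B']

/-- The elements that are algebraic over the algebra generated by `x`. -/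
def algS (k : Type) {B α : Type} [Field k] [CommRing B] [IsDomain B] [Algebra k B] (x : α → B) :
    Subalgebra k B where
  carrier := {y | IsAlgebraic (Algebra.adjoin k (Set.range x)) y}
  mul_mem' := fun h h' => h.mul h'
  add_mem' := fun h h' => h.add h'
  algebraMap_mem' c := isAlgebraic_algebraMap
    (⟨algebraMap k B c, Subalgebra.algebraMap_mem _ c⟩ : Algebra.adjoin k (Set.range x))

theorem mem_algS {x : α → B} {y : B} :
    y ∈ algS k x ↔ IsAlgebraic (Algebra.adjoin k (Set.range x)) y := Iff.rfl

variable {x : α → B} {y : β → B} {r d : ℕ}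

/-! Part 1. -/

theorem ad1_mem {v : B} :
    v ∈ algS k x ↔ v ∈ (AlgebraicIndependent.matroid k B).closure (Set.range x) := by
  rw [AlgebraicIndependent.matroid_closure_eq, SetLike.mem_coe, Subalgebra.mem_algebraicClosure,
    mem_algS]

theorem self_mem_algS (a : α) : x a ∈ algS k x :=
  isAlgebraic_algebraMap (⟨x a, Algebra.subset_adjoin ⟨a, rfl⟩⟩ : Algebra.adjoin k (Set.range x))

theorem algS_le (h : ∀ b, y b ∈ algS k x) : algS k y ≤ algS k x := fun _ hv =>
  ad1_mem.2 (Matroid.closure_subset_closure_of_subset_closure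
    (Set.range_subset_iff.2 fun b => ad1_mem.1 (h b)) (ad1_mem.1 hv))

theorem algS_div {u v : B} (hu : u ∈ algS k x) (h0 : u ≠ 0) (h : u * v ∈ algS k x) :
    v ∈ algS k x := IsAlgebraic.of_mul (mem_nonZeroDivisors_of_ne_zero h0) hu h

theorem ad1_poly {v : B} : v ∈ algS k x ↔ ∃ P : Polynomial (MvPolynomial α k),
    P.map (MvPolynomial.aeval x : MvPolynomial α k →ₐ[k] B).toRingHom ≠ 0 ∧
      P.eval₂ (MvPolynomial.aeval x : MvPolynomial α k →ₐ[k] B).toRingHom v = 0 := by
  have hr := Algebra.adjoin_range_eq_range_aeval k x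
  let φ : MvPolynomial α k →+* Algebra.adjoin k (Set.range x) :=
    (MvPolynomial.aeval x : MvPolynomial α k →ₐ[k] B).toRingHom.codRestrict _ fun p =>
      hr ▸ ⟨p, rfl⟩
  have hs : Function.Surjective φ := fun z => by
    obtain ⟨p, hp⟩ : z.1 ∈ (MvPolynomial.aeval x : MvPolynomial α k →ₐ[k] B).range := hr ▸ z.2
    exact ⟨p, Subtype.ext hp⟩
  have e : (MvPolynomial.aeval x : MvPolynomial α k →ₐ[k] B).toRingHom =
    (algebraMap (Algebra.adjoin k (Set.range x)) B).comp φ := rfl
  simp only [e, ← Polynomial.map_map, ← Polynomial.eval₂_map]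
  constructor
  · rintro ⟨p, h1, h2⟩
    obtain ⟨P, rfl⟩ := Polynomial.map_surjective φ hs p
    exact ⟨P, (Polynomial.map_ne_zero_iff Subtype.val_injective).2 h1, h2⟩
  · rintro ⟨P, h1, h2⟩
    exact ⟨P.map φ, fun h => h1 (by rw [h, Polynomial.map_zero]), h2⟩

theorem algS_root {v : B} {P : Polynomial (MvPolynomial α k)}
    (h0 : P.map (MvPolynomial.aeval x : MvPolynomial α k →ₐ[k] B).toRingHom ≠ 0)
    (h : P.eval₂ (MvPolynomial.aeval x : MvPolynomial α k →ₐ[k] B).toRingHom v = 0) :
    v ∈ algS k x := ad1_poly.2 ⟨P, h0, h⟩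

theorem algS_map {k' : Type} [Field k'] [IsDomain B'] [Algebra k' B'] (σ : k →+* k')
    (φ : B →+* B') (hφ : ∀ c, φ (algebraMap k B c) = algebraMap k' B' (σ c))
    (hi : Function.Injective φ) {v : B} (h : v ∈ algS k x) :
    φ v ∈ algS k' fun a => φ (x a) := by
  obtain ⟨P, h1, h2⟩ := ad1_poly.1 h
  have e : (MvPolynomial.aeval fun a => φ (x a) : MvPolynomial α k' →ₐ[k'] B').toRingHom.comp
      (MvPolynomial.map σ) =
      φ.comp (MvPolynomial.aeval x : MvPolynomial α k →ₐ[k] B).toRingHom :=
    MvPolynomial.ringHom_ext (fun c => by simp [hφ]) fun a => by simp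
  refine algS_root (P := P.map (MvPolynomial.map σ)) ?_ ?_
  · rw [Polynomial.map_map, e, ← Polynomial.map_map]
    exact (Polynomial.map_ne_zero_iff hi).2 h1
  · rw [Polynomial.eval₂_map, e, ← Polynomial.hom_eval₂, h2, map_zero]

theorem dep_iff : Dep k r x ↔ ∀ s : Fin (r + 1) → α, ∃ P : MvPolynomial (Fin (r + 1)) k,
    P ≠ 0 ∧ MvPolynomial.aeval (fun i => x (s i)) P = 0 := by
  refine forall_congr' fun s => ?_
  rw [algebraicIndependent_iff]
  push Not
  exact exists_congr fun _ => and_comm

theorem ad1_enum {I : Set B} (h : I ⊆ Set.range x) (hI : AlgebraicIndepOn k id I) {t : ℕ}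
    (ht : I.encard = t) : ∃ s : Fin t → α, Function.Injective s ∧
      (AlgebraicIndependent k fun i => x (s i)) ∧ (Set.range fun i => x (s i)) = I := by
  have hf : I.Finite := Set.finite_of_encard_eq_coe ht
  have := hf.fintype
  have hc : Fintype.card I = t := by
    rw [← Set.toFinset_card, ← Nat.cast_inj (R := ℕ∞), ← ht, Set.encard_eq_coe_toFinset_card]
  let e := (Fintype.equivFinOfCardEq hc).symm
  choose g hg using fun i : Fin t => h (e i).2
  have h1 : AlgebraicIndependent k fun i => x (g i) := by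
    simp only [hg]
    exact AlgebraicIndependent.comp hI e e.injective
  refine ⟨g, fun i j hij => h1.injective (congrArg x hij), h1, ?_⟩
  simp only [hg]
  exact (e.surjective.range_comp Subtype.val).trans Subtype.range_coe

theorem ad1_rk : Dep k r x ↔ (AlgebraicIndependent.matroid k B).eRk (Set.range x) ≤ r := by
  constructor
  · intro h
    by_contra hr
    obtain ⟨I, h1, h2, h3⟩ := Matroid.le_eRk_iff.1 (Order.add_one_le_of_lt (not_le.1 hr))
    obtain ⟨s, -, h4, -⟩ := ad1_enum h1 h2 (t := r + 1) (by rw [h3, Nat.cast_add_one])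
    exact h s h4
  · intro h s hs
    have h1 := Matroid.eRk_le_iff.1 h (Set.range_comp_subset_range s x) hs.to_subtype_range
    have h2 := (Function.Injective.encard_range hs.injective).trans h1
    rw [ENat.card_eq_coe_fintype_card, Fintype.card_fin, Nat.cast_le] at h2
    omega

theorem Dep.basis (h : Dep k r x) : ∃ t ≤ r, ∃ s : Fin t → α, Function.Injective s ∧
    (AlgebraicIndependent k fun i => x (s i)) ∧ ∀ a, x a ∈ algS k fun i => x (s i) := by
  obtain ⟨I, hI⟩ := (AlgebraicIndependent.matroid k B).exists_isBasis (Set.range x)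
  have h1 := hI.encard_eq_eRk.trans_le (ad1_rk.1 h)
  obtain ⟨t, ht⟩ := ENat.ne_top_iff_exists.1 (ne_top_of_le_ne_top (ENat.natCast_ne_top r) h1)
  obtain ⟨s, h2, h3, h4⟩ := ad1_enum hI.subset hI.indep ht.symm
  exact ⟨t, Nat.cast_le.1 (ht.trans_le h1), s, h2, h3, fun a =>
    ad1_mem.2 (h4 ▸ hI.subset_closure ⟨a, rfl⟩)⟩

theorem Dep.alg (h : Dep k r x) (hy : ∀ b, y b ∈ algS k x) : Dep k r y :=
  ad1_rk.2 (((Matroid.eRk_mono _ (Set.range_subset_iff.2 fun b => ad1_mem.1 (hy b))).trans_eq
    (Matroid.eRk_closure_eq _ _)).trans (ad1_rk.1 h))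

theorem Dep.mono (h : Dep k r x) (hd : r ≤ d) : Dep k d x :=
  ad1_rk.2 ((ad1_rk.1 h).trans (Nat.cast_le.2 hd))

theorem dep_card [Fintype α] (x : α → B) : Dep k (Fintype.card α) x := fun s hs => by
  have := Fintype.card_le_of_injective s fun i j h => hs.injective (congrArg x h)
  simp at this

theorem Dep.sum (h : Dep k r x) (h' : Dep k d y) : Dep k (r + d) (Sum.elim x y) := by
  rw [ad1_rk] at h h' ⊢
  rw [Set.Sum.elim_range, Nat.cast_add]
  exact (Matroid.eRk_union_le_eRk_add_eRk _ _ _).trans (add_le_add h h')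

theorem Dep.pi {m : ℕ} {z : Fin m → α → B} (h : ∀ i, Dep k d (z i)) :
    Dep k (m * d) fun q : Fin m × α => z q.1 q.2 := by
  induction m with
  | zero => exact fun s _ => (s 0).1.elim0
  | succ m ih =>
    rw [add_mul, one_mul]
    refine ((ih fun i => h i.succ).sum (h 0)).alg fun q => ?_
    obtain ⟨i, a⟩ := q
    induction i using Fin.cases with
    | zero => exact self_mem_algS (Sum.inr a)
    | succ i => exact self_mem_algS (Sum.inl (i, a))

theorem Dep.map {k' : Type} [Field k'] [Algebra k' B'] (σ : k →+* k') (φ : B →+* B')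
    (hφ : ∀ c, φ (algebraMap k B c) = algebraMap k' B' (σ c)) (h : Dep k r x) :
    Dep k' r fun a => φ (x a) := fun s hs =>
  h s (AlgebraicIndependent.of_ringHom_of_comp_eq σ φ hs σ.injective
    (RingHom.ext fun c => (hφ c).symm))

theorem Dep.of_map [Algebra k B'] (φ : B →ₐ[k] B') (hi : Function.Injective φ)
    (h : Dep k r fun a => φ (x a)) : Dep k r x := fun s hs => h s (hs.map' hi)

theorem Dep.poly [Fintype α] (h : Dep k r x) (hr : r < Fintype.card α) :
    ∃ Q : MvPolynomial α k, Q ≠ 0 ∧ MvPolynomial.aeval x Q = 0 := by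
  obtain ⟨e⟩ : Nonempty (Fin (r + 1) ↪ α) :=
    Function.Embedding.nonempty_of_card_le (by rw [Fintype.card_fin]; omega)
  by_contra hn
  exact h e (AlgebraicIndependent.comp (algebraicIndependent_iff.2 fun p hp =>
    by_contra fun h0 => hn ⟨p, h0, hp⟩) e e.injective)

theorem ad1_eval (v : B) (Q : MvPolynomial (Option α) k) :
    (MvPolynomial.optionEquivLeft k α Q).eval₂
      (MvPolynomial.aeval x : MvPolynomial α k →ₐ[k] B).toRingHom v =
      MvPolynomial.aeval (fun o => o.elim v x) Q := by
  induction Q using MvPolynomial.induction_on with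
  | C c => simp
  | add p q hp hq => rw [map_add, Polynomial.eval₂_add, hp, hq, map_add]
  | mul_X p o hp =>
    rw [map_mul, Polynomial.eval₂_mul, hp, map_mul]
    cases o <;> simp

theorem ad1_der (Q : MvPolynomial (Option α) k) :
    MvPolynomial.optionEquivLeft k α (MvPolynomial.pderiv none Q) =
      Polynomial.derivative (MvPolynomial.optionEquivLeft k α Q) := by
  induction Q using MvPolynomial.induction_on with
  | C c => simp
  | add p q hp hq => simp only [map_add, hp, hq]
  | mul_X p o hp =>
    rw [Derivation.leibniz, map_add, smul_eq_mul, smul_eq_mul, map_mul, map_mul, map_mul, hp,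
      Polynomial.derivative_mul]
    cases o <;> simp [mul_comm, add_comm]

/-- The minimal polynomial over an independent family. -/
theorem exists_minp [CharZero k] (h : AlgebraicIndependent k x) {v : B} (hv : v ∈ algS k x) :
    ∃ P : MvPolynomial (Option α) k, MvPolynomial.aeval (fun o => o.elim v x) P = 0 ∧
      MvPolynomial.aeval (fun o => o.elim v x) (MvPolynomial.pderiv none P) ≠ 0 := by
  have _ := h
  have : CharZero B := charZero_of_injective_algebraMap (algebraMap k B).injective
  obtain ⟨P, h1, h2⟩ := ad1_poly.1 hv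
  induction hn : P.natDegree using Nat.strong_induction_on generalizing P with
  | _ n ih =>
    have hc : Polynomial.derivative
        (P.map (MvPolynomial.aeval x : MvPolynomial α k →ₐ[k] B).toRingHom) ≠ 0 := fun h0 => by
      have e := Polynomial.eq_C_of_derivative_eq_zero h0
      rw [Polynomial.eval₂_eq_eval_map, e, Polynomial.eval_C] at h2
      exact h1 (by rw [e, h2, map_zero])
    rw [Polynomial.derivative_map] at hc
    by_cases h3 : P.derivative.eval₂
        (MvPolynomial.aeval x : MvPolynomial α k →ₐ[k] B).toRingHom v = 0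
    · refine ih _ (hn ▸ Polynomial.natDegree_derivative_lt fun h0 => hc ?_) _ hc h3 rfl
      rw [Polynomial.derivative_of_natDegree_zero h0, Polynomial.map_zero]
    · refine ⟨(MvPolynomial.optionEquivLeft k α).symm P, ?_, ?_⟩
      · rw [← ad1_eval, AlgEquiv.apply_symm_apply, h2]
      · rwa [← ad1_eval, ad1_der, AlgEquiv.apply_symm_apply]

/-! Part 2. -/

variable [CharZero k]

theorem ad2_min (R : Subalgebra k B) {v : B} (hv : IsAlgebraic R v) :
    ∃ P : Polynomial R, Polynomial.aeval v P = 0 ∧ Polynomial.aeval v P.derivative ≠ 0 := by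
  have : CharZero R := charZero_of_injective_algebraMap (algebraMap k R).injective
  obtain ⟨P, h0, h1⟩ := hv
  induction hn : P.natDegree using Nat.strong_induction_on generalizing P with
  | _ n ih =>
    by_cases h2 : Polynomial.aeval v P.derivative = 0
    swap
    · exact ⟨P, h1, h2⟩
    have h3 : P.natDegree ≠ 0 := fun e => by
      rw [Polynomial.eq_C_of_natDegree_eq_zero e, Polynomial.aeval_C] at h1
      rw [Polynomial.eq_C_of_natDegree_eq_zero e, (Subtype.ext h1 : P.coeff 0 = 0)] at h0
      exact h0 (map_zero _)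
    exact ih _ (hn ▸ Polynomial.natDegree_derivative_lt h3) _
      (fun e => h3 (Polynomial.derivative_eq_zero.1 e)) h2 rfl

omit [IsDomain B] [CharZero k] in
theorem ad2_der (D : Derivation k B B) (R : Subalgebra k B) (M : AddSubgroup B) {v : B}
    (hM : ∀ n : ℕ, ∀ r ∈ R, v ^ n * D r ∈ M) (P : Polynomial R) :
    D (Polynomial.aeval v P) - Polynomial.aeval v P.derivative * D v ∈ M := by
  induction P using Polynomial.induction_on' with
  | add p q hp hq =>
    simp only [map_add, add_mul]
    rw [add_sub_add_comm]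
    exact M.add_mem hp hq
  | monomial n a =>
    have e : D (Polynomial.aeval v (Polynomial.monomial n a)) -
        Polynomial.aeval v (Polynomial.monomial n a).derivative * D v = v ^ n * D a := by
      rw [Polynomial.derivative_monomial, Polynomial.aeval_monomial, Polynomial.aeval_monomial,
        Derivation.leibniz, Derivation.leibniz_pow, map_mul, map_natCast]
      simp only [smul_eq_mul, nsmul_eq_mul, Subalgebra.algebraMap_apply]
      ring
    rw [e]
    exact hM n a a.2

omit [IsDomain B] [CharZero k] in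
theorem ad2_adj (D : Derivation k B B) (S : Subalgebra k B) (M : Submodule S B)
    (hS : ∀ a, x a ∈ S) (h : ∀ a, D (x a) ∈ M) {r : B}
    (hr : r ∈ Algebra.adjoin k (Set.range x)) : D r ∈ M := by
  have hle : Algebra.adjoin k (Set.range x) ≤ S := Algebra.adjoin_le (Set.range_subset_iff.2 hS)
  induction hr using Algebra.adjoin_induction with
  | mem y hy =>
    obtain ⟨a, rfl⟩ := hy
    exact h a
  | algebraMap c =>
    rw [Derivation.map_algebraMap]
    exact M.zero_mem
  | add y z _ _ hy hz =>
    rw [map_add]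
    exact M.add_mem hy hz
  | mul y z hy' hz' hy hz =>
    rw [Derivation.leibniz]
    exact M.add_mem (M.smul_mem (⟨y, hle hy'⟩ : S) hz) (M.smul_mem (⟨z, hle hz'⟩ : S) hy)

theorem der_alg (D : Derivation k B B) (h : ∀ a, D (x a) = 0) {v : B} (hv : v ∈ algS k x) :
    D v = 0 := by
  obtain ⟨P, h1, h2⟩ := ad2_min _ (mem_algS.1 hv)
  have h3 := ad2_der D _ ⊥ (v := v) (fun n r hr => by
    have h4 : D r = 0 := ad2_adj D ⊤ ⊥ (fun _ => trivial) h hr
    rw [h4, mul_zero]
    exact zero_mem _) P
  rw [h1, map_zero, zero_sub, AddSubgroup.mem_bot, neg_eq_zero] at h3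
  exact (mul_eq_zero.1 h3).resolve_left h2

theorem der_mem (D : Derivation k B B) (h : ∀ a, D (x a) ∈ algS k x) {v : B} (hv : v ∈ algS k x) :
    D v ∈ algS k x := by
  obtain ⟨P, h1, h2⟩ := ad2_min _ (mem_algS.1 hv)
  have hle : Algebra.adjoin k (Set.range x) ≤ algS k x :=
    Algebra.adjoin_le (Set.range_subset_iff.2 self_mem_algS)
  have h3 := ad2_der D _ (algS k x).toSubring.toAddSubgroup (v := v) (fun n r hr => by
    obtain ⟨s, hs⟩ := Submodule.mem_one.1 (ad2_adj D (algS k x) 1 self_mem_algS
      (fun a => Submodule.mem_one.2 ⟨⟨_, h a⟩, rfl⟩) hr)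
    rw [← hs]
    exact (algS k x).mul_mem (pow_mem hv n) s.2) P
  rw [h1, map_zero, zero_sub] at h3
  refine algS_div ?_ h2 (neg_mem_iff.1 h3)
  rw [Polynomial.aeval_eq_sum_range]
  exact sum_mem fun i _ => mul_mem (hle (P.derivative.coeff i).2) (pow_mem hv i)

variable {F : Type} [Field F] [Algebra k F]

open scoped IntermediateField.algebraAdjoinAdjoin in
theorem ad2_ext {t : β → F} (ht : IsTranscendenceBasis k t) (w : β → F) :
    ∃ D : Derivation k F F, ∀ j, D (t j) = w j := by
  let R := Algebra.adjoin k (Set.range t)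
  let K := IntermediateField.adjoin k (Set.range t)
  have h1 : Algebra.FormallyEtale R K := .of_isLocalization (nonZeroDivisors _)
  have h2 : Algebra.IsAlgebraic K F := ht.isAlgebraic_field
  have h0 : CharZero K := charZero_of_injective_algebraMap (algebraMap k K).injective
  have h3 : Algebra.FormallyEtale K F := .of_isSeparable _ _
  have h4 : Algebra.FormallyEtale R F := .comp R K F
  let _ : Algebra (MvPolynomial β k) R := ht.1.aevalEquiv.toAlgHom.toRingHom.toAlgebra
  let _ : Algebra (MvPolynomial β k) F :=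
    (MvPolynomial.aeval t : MvPolynomial β k →ₐ[k] F).toRingHom.toAlgebra
  have h7 : IsScalarTower (MvPolynomial β k) R F := .of_algebraMap_eq fun _ => rfl
  have h8 : IsScalarTower k (MvPolynomial β k) F := .of_algebraMap_eq fun c =>
    ((MvPolynomial.aeval t : MvPolynomial β k →ₐ[k] F).commutes c).symm
  have h5 : Algebra.FormallyEtale (MvPolynomial β k) R :=
    .of_equiv (AlgEquiv.ofBijective (Algebra.ofId _ R) ht.1.aevalEquiv.bijective)
  have h6 := Algebra.FormallyEtale.comp (MvPolynomial β k) R F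
  have hb := KaehlerDifferential.isBaseChange_of_formallyEtale k (MvPolynomial β k) F
  refine ⟨(hb.lift (MvPolynomial.mkDerivation k w).liftKaehlerDifferential).compDer
    (KaehlerDifferential.D k F), fun j => ?_⟩
  have e : t j = algebraMap (MvPolynomial β k) F (MvPolynomial.X j) :=
    (MvPolynomial.aeval_X t j).symm
  change hb.lift _ (KaehlerDifferential.D k F (t j)) = w j
  rw [e, ← KaehlerDifferential.map_D k k, hb.lift_eq, Derivation.liftKaehlerDifferential_comp_D,
    MvPolynomial.mkDerivation_X]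

theorem ad2_set {b : α → F} (h : AlgebraicIndependent k b) :
    ∃ s : Set F, (∀ a, b a ∈ s) ∧ (∀ w : F → F, ∃ D : Derivation k F F, ∀ z ∈ s, D z = w z) ∧
      ∀ D : Derivation k F F, (∀ z ∈ s, D z = 0) → ∀ v, D v = 0 := by
  obtain ⟨s, h1, h2⟩ := exists_isTranscendenceBasis_superset (R := k) (s := Set.range b)
    h.to_subtype_range
  refine ⟨s, fun a => h1 ⟨a, rfl⟩, fun w => ?_, fun D hD v => ?_⟩
  · obtain ⟨D, hD⟩ := ad2_ext h2 fun z => w z
    exact ⟨D, fun z hz => hD ⟨z, hz⟩⟩
  · exact der_alg (x := ((↑) : s → F)) D (fun z => hD z z.2) (h2.isAlgebraic.isAlgebraic v)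

theorem exists_drv {b : α → F} (h : AlgebraicIndependent k b) (v : α → F) :
    ∃ D : Derivation k F F, ∀ a, D (b a) = v a := by
  obtain ⟨s, h1, h2, -⟩ := ad2_set h
  obtain ⟨D, hD⟩ := h2 (Function.extend b v 0)
  exact ⟨D, fun a => (hD _ (h1 a)).trans (h.injective.extend_apply _ _ a)⟩

theorem exists_der_comm [DecidableEq α] {b : α → F} (h : AlgebraicIndependent k b) :
    ∃ D : α → Derivation k F F, (∀ i j, D i (b j) = if i = j then 1 else 0) ∧
      ∀ i j v, D i (D j v) = D j (D i v) := by
  classical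
  obtain ⟨s, h1, h2, h3⟩ := ad2_set h
  choose D hD using fun i => h2 fun z => if z = b i then 1 else 0
  refine ⟨D, fun i j => ?_, fun i j v => ?_⟩
  · rw [hD i _ (h1 j)]
    exact if_congr (h.injective.eq_iff.trans eq_comm) rfl rfl
  · have h4 := h3 ⁅D i, D j⁆ (fun z hz => by
      rw [Derivation.commutator_apply, hD i z hz, hD j z hz]
      split_ifs <;> simp) v
    rwa [Derivation.commutator_apply, sub_eq_zero] at h4

theorem alg_of_der {z : α → F} {v : F}
    (h : ∀ D : Derivation k F F, (∀ a, D (z a) = 0) → D v = 0) : v ∈ algS k z := by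
  by_contra hv
  obtain ⟨s, hs⟩ := (AlgebraicIndependent.matroid k F).exists_isBasis (Set.range z)
  obtain ⟨h1, -, h2⟩ := AlgebraicIndependent.matroid_isBasis_iff.1 hs
  have h3 : AlgebraicIndependent k ((↑) : s → F) := h1
  have h4 : Transcendental (Algebra.adjoin k (Set.range ((↑) : s → F))) v := by
    rw [Subtype.range_coe]
    exact fun h5 =>
      hv ((AlgebraicIndependent.isAlgebraic_adjoin_iff_of_matroid_isBasis hs).1 h5)
  obtain ⟨D, hD⟩ := exists_drv ((h3.option_iff_transcendental v).2 h4)
    fun o => o.elim 1 fun _ => 0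
  have h6 : D v = 0 := h D fun a => der_alg (x := ((↑) : s → F)) D (fun y => hD (some y)) (by
    rw [mem_algS, Subtype.range_coe]
    exact h2 _ ⟨a, rfl⟩)
  exact one_ne_zero ((hD none).symm.trans h6)

/-! Part 3. -/

/-- A subspace that is stable under derivations is spanned by its constant vectors. -/
theorem const_span {κ : Type} [Finite κ] (𝒟 : Set (Derivation k F F)) (H : Submodule F (κ → F))
    (h : ∀ D ∈ 𝒟, ∀ v ∈ H, (fun i => D (v i)) ∈ H) :
    H ≤ Submodule.span F {v | v ∈ H ∧ ∀ D ∈ 𝒟, ∀ i, D (v i) = 0} := by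
  have key : ∀ (n : ℕ) (v : κ → F), v ∈ H → (Function.support v).ncard = n →
      v ∈ Submodule.span F {v | v ∈ H ∧ ∀ D ∈ 𝒟, ∀ i, D (v i) = 0} := by
    intro n
    induction n using Nat.strong_induction_on with
    | _ n ih =>
      have aux : ∀ v ∈ H, (Function.support v).ncard = n → ∀ i, v i = 1 →
          v ∈ Submodule.span F {v | v ∈ H ∧ ∀ D ∈ 𝒟, ∀ i, D (v i) = 0} := by
        intro v hv hn i hi
        have lt : ∀ u ∈ H, (∀ l, v l = 0 → u l = 0) → ∀ l, v l ≠ 0 → u l = 0 →
            u ∈ Submodule.span F {v | v ∈ H ∧ ∀ D ∈ 𝒟, ∀ i, D (v i) = 0} := fun u hu h1 l h2 h3 =>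
          ih _ (hn ▸ Set.ncard_lt_ncard ⟨fun m hm h0 => hm (h1 m h0), fun h4 => h4 h2 h3⟩
            (Set.toFinite _)) u hu rfl
        by_cases hc : ∀ D ∈ 𝒟, ∀ l, D (v l) = 0
        · exact Submodule.subset_span ⟨hv, hc⟩
        · push Not at hc
          obtain ⟨D, hD, j, hj⟩ := hc
          have h1 : ∀ l, v l = 0 → D (v l) = 0 := fun l hl => by rw [hl, map_zero]
          have h2 := lt _ (h D hD v hv) h1 i (by rw [hi]; exact one_ne_zero)
            (by rw [hi]; exact D.map_one_eq_zero)
          have h3 := lt (v - (v j / D (v j)) • fun l => D (v l))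
            (H.sub_mem hv (H.smul_mem _ (h D hD v hv))) (fun l hl => by simp [hl]) j
            (fun h0 => hj (h1 j h0)) (by simp [div_mul_cancel₀ _ hj])
          have h4 := Submodule.add_mem _ h3 (Submodule.smul_mem _ (v j / D (v j)) h2)
          rwa [sub_add_cancel] at h4
      intro v hv hn
      by_cases h0 : v = 0
      · rw [h0]
        exact Submodule.zero_mem _
      · obtain ⟨i, hi⟩ := Function.ne_iff.1 h0
        replace hi : v i ≠ 0 := hi
        have h1 := aux ((v i)⁻¹ • v) (H.smul_mem _ hv)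
          (by rw [Function.support_const_smul_of_ne_zero _ _ (inv_ne_zero hi), hn]) i
          (inv_mul_cancel₀ hi)
        have h2 := Submodule.smul_mem _ (v i) h1
        rwa [smul_inv_smul₀ hi] at h2
  exact fun v hv => key _ v hv rfl

/-- The rank count. -/
theorem exists_ann {κ : Type} [Fintype κ] {z : α → F} {t : ℕ} (hz : Dep k t z)
    (ht : t ≤ Fintype.card κ) (μ : Derivation k F F →ₗ[F] κ → F)
    (h : ∀ D : Derivation k F F, (∀ a, D (z a) = 0) → μ D = 0) (δ : Derivation k F F)
    (h0 : μ δ = 0) (h1 : ∃ a, δ (z a) ≠ 0) : ∃ ω : κ → F, ω ≠ 0 ∧ ∀ D, ω ⬝ᵥ μ D = 0 := by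
  classical
  obtain ⟨t', ht', s, -, -, hs⟩ := hz.basis
  have h2 : ∀ D : Derivation k F F, (∀ i, D (z (s i)) = 0) → ∀ a, D (z a) = 0 := fun D hD a =>
    der_alg (x := fun i => z (s i)) D hD (hs a)
  by_contra hn
  have hsur : LinearMap.range μ = ⊤ := by
    by_contra hr
    obtain ⟨f, hf, hle⟩ := Submodule.exists_le_ker_of_lt_top _ (lt_top_iff_ne_top.2 hr)
    have e : ∀ v : κ → F, (fun i => f (Pi.single i 1)) ⬝ᵥ v = f v := fun v => by
      conv_rhs => rw [pi_eq_sum_univ' v, map_sum]
      exact Finset.sum_congr rfl fun i _ => by rw [map_smul, smul_eq_mul, mul_comm]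
    refine hn ⟨fun i => f (Pi.single i 1), fun h0 => hf (LinearMap.ext fun v => ?_), fun D => ?_⟩
    · rw [← e, h0, zero_dotProduct, LinearMap.zero_apply]
    · rw [e]
      exact hle ⟨D, rfl⟩
  choose E hE using fun j : κ => LinearMap.range_eq_top.1 hsur (Pi.single j 1)
  have hli : LinearIndependent F fun (o : Option κ) (i : Fin t') => (o.elim δ E) (z (s i)) := by
    refine Fintype.linearIndependent_iff.2 fun c hc => ?_
    have h3 : ∀ a, (∑ o : Option κ, c o • o.elim δ E) (z a) = 0 := h2 _ fun i => by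
      have h4 := congrFun hc i
      rw [Finset.sum_apply] at h4
      exact (congrFun (map_sum (Derivation.coeFnAddMonoidHom (R := k) (A := F) (M := F)) _ _)
        _).trans ((Finset.sum_apply _ _ _).trans h4)
    have h4 := h _ h3
    rw [map_sum, Fintype.sum_option] at h4
    simp only [Option.elim, map_smul, h0, smul_zero, zero_add, hE] at h4
    have h5 : ∀ j, c (some j) = 0 := fun j => by
      simpa [Pi.single_apply] using congrFun h4 j
    rintro (_ | j)
    · obtain ⟨a, ha⟩ := h1
      have h6 := h3 a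
      rw [Fintype.sum_option] at h6
      simpa [h5, ha] using h6
    · exact h5 j
  have h7 := hli.fintype_card_le_finrank
  rw [Fintype.card_option, Module.finrank_fin_fun] at h7
  omega

omit [CharZero k] in
/-- Derivations extend to the fraction field. -/
theorem ad3_ext {A K : Type} [CommRing A] [Field K] [Algebra k A] [Algebra A K] [Algebra k K]
    [IsScalarTower k A K] [IsFractionRing A K] (D : Derivation k A A) :
    ∃ δ : Derivation k K K, ∀ a, δ (algebraMap A K a) = algebraMap A K (D a) := by
  let φ : A →+* TrivSqZeroExt K K :=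
    { toFun := fun a => (algebraMap A K a, algebraMap A K (D a))
      map_one' := TrivSqZeroExt.ext (map_one (algebraMap A K)) (by
        rw [TrivSqZeroExt.snd_mk, D.map_one_eq_zero, map_zero, TrivSqZeroExt.snd_one])
      map_mul' := fun a b => TrivSqZeroExt.ext (map_mul (algebraMap A K) a b) (by
        change algebraMap A K (D (a * b)) = algebraMap A K a * algebraMap A K (D b) +
          algebraMap A K (D a) * algebraMap A K b
        rw [D.leibniz, smul_eq_mul, smul_eq_mul, map_add, map_mul, map_mul,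
          mul_comm (algebraMap A K b)])
      map_zero' := TrivSqZeroExt.ext (map_zero (algebraMap A K)) (by
        rw [TrivSqZeroExt.snd_mk, map_zero, map_zero, TrivSqZeroExt.snd_zero])
      map_add' := fun a b => TrivSqZeroExt.ext (map_add (algebraMap A K) a b) (by
        change algebraMap A K (D (a + b)) = algebraMap A K (D a) + algebraMap A K (D b)
        rw [map_add, map_add]) }
  have h1 : ∀ a, (φ a).fst = algebraMap A K a := fun a => rfl
  have h2 : ∀ a, (φ a).snd = algebraMap A K (D a) := fun a => rfl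
  have hu : ∀ y : nonZeroDivisors A, IsUnit (φ y) := fun y => by
    rw [TrivSqZeroExt.isUnit_iff_isUnit_fst, h1]
    exact IsLocalization.map_units K y
  let ψ : K →+* TrivSqZeroExt K K := IsLocalization.lift hu
  have h3 : ∀ a, ψ (algebraMap A K a) = φ a := IsLocalization.lift_eq hu
  have h4 : ∀ x, (ψ x).fst = x := fun x =>
    RingHom.congr_fun (IsLocalization.ringHom_ext (nonZeroDivisors A)
      (j := (TrivSqZeroExt.fstHom K K K).toRingHom.comp ψ) (k := RingHom.id K)
      (RingHom.ext fun a => by simp [h3, h1])) x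
  have h5 : ∀ x y, (ψ (x * y)).snd = x * (ψ y).snd + y * (ψ x).snd := fun x y => by
    rw [map_mul, TrivSqZeroExt.snd_mul, h4, h4, smul_eq_mul, op_smul_eq_mul, mul_comm _ y]
  refine ⟨Derivation.mk' ⟨⟨fun x => (ψ x).snd, fun x y => by
    rw [map_add, TrivSqZeroExt.snd_add]⟩, fun c x => ?_⟩ h5,
    fun a => (congrArg _ (h3 a)).trans (h2 a)⟩
  change (ψ (c • x)).snd = c • (ψ x).snd
  rw [Algebra.smul_def, h5, IsScalarTower.algebraMap_apply k A K, h3, h2, D.map_algebraMap,
    map_zero, mul_zero, add_zero, Algebra.smul_def,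
    IsScalarTower.algebraMap_apply k A K]

/-- The derivation of the field of Laurent series. -/
theorem exists_lau (k : Type) [Field k] [CharZero k] :
    ∃ δ : Derivation k (FractionRing (MvPowerSeries Unit k)) (FractionRing (MvPowerSeries Unit k)),
      (∀ f : MvPowerSeries Unit k, δ (algebraMap _ _ f) =
        algebraMap (MvPowerSeries Unit k) _ (MvPowerSeries.pderiv k () f)) ∧
      ∀ v, δ v = 0 → ∃ c : k, v = algebraMap k _ c := by
  obtain ⟨δ, hδ⟩ := ad3_ext (K := FractionRing (MvPowerSeries Unit k)) (MvPowerSeries.pderiv k ())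
  have hv : ValuationRing (MvPowerSeries Unit k) := inferInstanceAs (ValuationRing (PowerSeries k))
  have key : ∀ v, δ v = 0 → IsLocalization.IsInteger (MvPowerSeries Unit k) v →
      ∃ c : k, v = algebraMap k _ c := by
    rintro _ h ⟨f, rfl⟩
    rw [hδ, map_eq_zero_iff _ (IsFractionRing.injective _ _)] at h
    refine ⟨MvPowerSeries.constantCoeff f, ?_⟩
    rw [IsScalarTower.algebraMap_apply k (MvPowerSeries Unit k)]
    refine congrArg _ (MvPowerSeries.pderiv.ext (fun _ => ?_) ?_)
    · rw [h, Derivation.map_algebraMap]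
    · rw [← MvPowerSeries.c_eq_algebraMap, MvPowerSeries.constantCoeff_C]
  refine ⟨δ, hδ, fun v h => ?_⟩
  rcases ValuationRing.isInteger_or_isInteger (MvPowerSeries Unit k) v with h1 | h1
  · exact key v h h1
  · obtain ⟨c, hc⟩ := key _ (by rw [Derivation.leibniz_inv, h, smul_zero]) h1
    exact ⟨c⁻¹, by rw [map_inv₀, ← hc, inv_inv]⟩

/-- A series with coefficients in a span lies in the span over the series. -/
theorem span_coeff {κ σ : Type} [Finite κ] (s : Set (κ → F)) (v : κ → MvPowerSeries σ F)
    (h : ∀ ν, (fun i => MvPowerSeries.coeff ν (v i)) ∈ Submodule.span F s) :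
    v ∈ Submodule.span (MvPowerSeries σ F)
      ((fun w i => (MvPowerSeries.C (w i) : MvPowerSeries σ F)) '' s) := by
  have key : ∀ w ∈ Submodule.span F s, (fun i => (MvPowerSeries.C (w i) : MvPowerSeries σ F)) ∈
      Submodule.span (MvPowerSeries σ F)
        ((fun w i => (MvPowerSeries.C (w i) : MvPowerSeries σ F)) '' s) := fun w hw => by
    induction hw using Submodule.span_induction with
    | mem w hw => exact Submodule.subset_span ⟨w, hw, rfl⟩
    | zero =>
      simp only [Pi.zero_apply, map_zero]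
      exact Submodule.zero_mem _
    | add a b _ _ ha hb =>
      simp only [Pi.add_apply, map_add]
      exact Submodule.add_mem _ ha hb
    | smul c a _ ha =>
      simp only [Pi.smul_apply, smul_eq_mul, map_mul]
      exact Submodule.smul_mem _ (MvPowerSeries.C c) ha
  let b := Module.finBasis F (Submodule.span F s)
  let f : Fin _ → MvPowerSeries σ F := fun j ν => b.repr ⟨_, h ν⟩ j
  have e : v = ∑ j, f j • fun i => (MvPowerSeries.C ((b j).1 i) : MvPowerSeries σ F) := by
    funext i
    ext ν
    have h1 := congrFun (congrArg Subtype.val (b.sum_repr ⟨_, h ν⟩)) i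
    rw [Finset.sum_apply, map_sum]
    simp only [Submodule.coe_sum, Finset.sum_apply] at h1
    refine h1.symm.trans (Finset.sum_congr rfl fun j _ => ?_)
    rw [Pi.smul_apply, smul_eq_mul, MvPowerSeries.coeff_mul_C]
    rfl
  rw [e]
  exact Submodule.sum_mem _ fun j _ => Submodule.smul_mem _ _ (key _ (b j).2)

end Pool.Agent.E7
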