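import Mathlib

/-! Filtrations and evaluation of power series. -/

open MvPowerSeries

noncomputable section

namespace Pool.Agent.E7

/-- Power series. -/
abbrev PS (σ A : Type) : Type := MvPowerSeries σ A

/-- A complete separated multiplicative filtration. -/
structure Fil (S : Type) [CommRing S] where
  J : ℕ → Ideal S
  top : J 0 = ⊤
  anti : Antitone J
  mul : ∀ a b, ∀ x ∈ J a, ∀ y ∈ J b, x * y ∈ J (a + b)
  sep : ∀ x, (∀ N, x ∈ J N) → x = 0
  lim : ∀ f : ℕ → S, (∀ N, f (N + 1) - f N ∈ J N) → ∃ y, ∀ N, y - f N ∈ J N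

/-- Power series can be evaluated at `x`. -/
def Ev {σ S : Type} [CommRing S] (x : σ → S) : Prop := ∃ Φ : Fil S, ∀ i, x i ∈ (Φ.J 1).radical

/-- `p`-adically complete rings. -/
abbrev PC (p : ℕ) (A : Type) [CommRing A] : Prop := IsAdicComplete (Ideal.span {(p : A)}) A

/-- Nilpotent modulo `p`. -/
def PN (p : ℕ) {A : Type} [CommRing A] (x : A) : Prop := x ∈ (Ideal.span {(p : A)}).radical

open Classical in
/-- The evaluation of power series at `x`, with coefficients seen through `φ`. -/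
def evx {σ A S : Type} [CommRing A] [CommRing S] (φ : A →+* S) (x : σ → S) : PS σ A →+* S :=
  if h : ∃ E : PS σ A →+* S, (∀ a, E (C a) = φ a) ∧ ∀ i, E (X i) = x i then h.choose
  else φ.comp constantCoeff

/-- Substitution. -/
abbrev sb {σ τ A : Type} [CommRing A] (b : σ → PS τ A) : PS σ A →+* PS τ A := evx C b

/-- No constant terms. -/
def C0 {σ τ A : Type} [CommRing A] (b : σ → PS τ A) : Prop := ∀ i, constantCoeff (b i) = 0

variable {σ τ A A' S S' : Type} [CommRing A] [CommRing A'] [CommRing S] [CommRing S']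

/-! Part 1. -/

private theorem af1_mem (a x : A) (k : ℕ) : x ∈ Ideal.span {a} ^ k ↔ a ^ k ∣ x := by
  rw [Ideal.span_singleton_pow, Ideal.mem_span_singleton]

private theorem af1_smod (a x y : A) (k : ℕ) :
    x ≡ y [SMOD (Ideal.span {a} ^ k • ⊤ : Submodule A A)] ↔ a ^ k ∣ x - y := by
  rw [SModEq.sub_mem, smul_eq_mul, Ideal.mul_top, af1_mem]

private theorem af1_tel {a : A} {f : ℕ → A} (h : ∀ k, a ^ k ∣ f (k + 1) - f k) {m n : ℕ}
    (hmn : m ≤ n) : a ^ m ∣ f m - f n := by
  induction n, hmn using Nat.le_induction with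
  | base => simp
  | succ n hn ih =>
    have := ih.sub ((pow_dvd_pow a hn).trans (h n))
    rwa [sub_sub_sub_comm, sub_self, sub_zero] at this

private theorem af1_sep (p : ℕ) [PC p A] {y : A} (h : ∀ k, (p : A) ^ k ∣ y) : y = 0 :=
  IsHausdorff.haus (I := Ideal.span {(p : A)}) inferInstance y fun k =>
    (af1_smod _ _ _ _).2 (by rw [sub_zero]; exact h k)

private theorem af1_lim (p : ℕ) [PC p A] (f : ℕ → A) (h : ∀ k, (p : A) ^ k ∣ f (k + 1) - f k) :
    ∃ y, ∀ k, (p : A) ^ k ∣ y - f k := by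
  obtain ⟨y, hy⟩ := IsPrecomplete.prec (I := Ideal.span {(p : A)}) inferInstance (f := f)
    fun hmn => (af1_smod _ _ _ _).2 (af1_tel h hmn)
  exact ⟨y, fun k => dvd_sub_comm.1 ((af1_smod _ _ _ _).1 (hy k))⟩

private theorem af1_of (p : ℕ) (h1 : ∀ y : A, (∀ k, (p : A) ^ k ∣ y) → y = 0)
    (h2 : ∀ f : ℕ → A, (∀ k, (p : A) ^ k ∣ f (k + 1) - f k) → ∃ y, ∀ k, (p : A) ^ k ∣ y - f k) :
    PC p A where
  haus' y hy := h1 y fun k => by simpa using (af1_smod _ _ _ _).1 (hy k)
  prec' f hf := by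
    obtain ⟨y, hy⟩ := h2 f fun k => dvd_sub_comm.1 ((af1_smod _ _ _ _).1 (hf (Nat.le_succ k)))
    exact ⟨y, fun k => (af1_smod _ _ _ _).2 (dvd_sub_comm.1 (hy k))⟩

private theorem af1_dvd {a : A} {f : PS σ A} : C a ∣ f ↔ ∀ ν, a ∣ coeff ν f := by
  constructor
  · rintro ⟨g, rfl⟩ ν
    rw [coeff_C_mul]
    exact dvd_mul_right _ _
  · intro h
    choose g hg using h
    refine ⟨g, MvPowerSeries.ext fun ν => ?_⟩
    rw [coeff_C_mul, hg]
    rfl

private theorem af1_pow (Φ : Fil S) (N : ℕ) : Φ.J 1 ^ N ≤ Φ.J N := by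
  induction N with
  | zero => rw [Φ.top]; exact le_top
  | succ n ih =>
    rw [pow_succ]
    exact Ideal.mul_le.2 fun x hx y hy => Φ.mul n 1 x (ih hx) y hy

private theorem af1_mul (Φ : Fil S) {a b : ℕ} {f g : PS τ S}
    (hf : ∀ ν : τ →₀ ℕ, coeff ν f ∈ Φ.J (a - ν.degree))
    (hg : ∀ ν : τ →₀ ℕ, coeff ν g ∈ Φ.J (b - ν.degree)) (ν : τ →₀ ℕ) :
    coeff ν (f * g) ∈ Φ.J (a + b - ν.degree) := by
  classical
  rw [coeff_mul]
  refine Ideal.sum_mem _ fun q hq => ?_
  have h1 : ν.degree = q.1.degree + q.2.degree := by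
    rw [← Finset.HasAntidiagonal.mem_antidiagonal.1 hq, map_add]
  exact Φ.anti (by omega) (Φ.mul _ _ _ (hf q.1) _ (hg q.2))

private def af1_J (Φ : Fil S) (τ : Type) (N : ℕ) : Ideal (PS τ S) where
  carrier := {f | ∀ ν : τ →₀ ℕ, coeff ν f ∈ Φ.J (N - ν.degree)}
  add_mem' hf hg ν := by
    rw [map_add]
    exact add_mem (hf ν) (hg ν)
  zero_mem' ν := by
    rw [map_zero]
    exact zero_mem _
  smul_mem' c f hf ν := by
    have := af1_mul Φ (a := 0) (f := c) (fun ν => by rw [Nat.zero_sub, Φ.top]; trivial) hf ν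
    rwa [zero_add] at this

/-- The `p`-adic filtration: `J N = span {p} ^ N`. -/
theorem exists_fil_pad (p : ℕ) [PC p A] : ∃ Φ : Fil A, ∀ N, Φ.J N = Ideal.span {(p : A)} ^ N :=
  ⟨{ J := fun N => Ideal.span {(p : A)} ^ N
     top := by rw [pow_zero, Ideal.one_eq_top]
     anti := fun _ _ h => Ideal.pow_le_pow_right h
     mul := fun a b x hx y hy => by rw [pow_add]; exact Ideal.mul_mem_mul hx hy
     sep := fun x hx => af1_sep p fun k => (af1_mem _ _ _).1 (hx k)
     lim := fun f hf => by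
       obtain ⟨y, hy⟩ := af1_lim p f fun k => (af1_mem _ _ _).1 (hf k)
       exact ⟨y, fun k => (af1_mem _ _ _).2 (hy k)⟩ }, fun _ => rfl⟩

/-- The filtration of the power series. -/
theorem Fil.exists_ps (Φ : Fil S) (τ : Type) : ∃ Ψ : Fil (PS τ S), ∀ N f,
    f ∈ Ψ.J N ↔ ∀ ν : τ →₀ ℕ, coeff ν f ∈ Φ.J (N - ν.degree) :=
  ⟨{ J := af1_J Φ τ
     top := eq_top_iff.2 fun f _ ν => by rw [Nat.zero_sub, Φ.top]; trivial
     anti := fun a b h f hf ν => Φ.anti (Nat.sub_le_sub_right h _) (hf ν)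
     mul := fun a b x hx y hy => af1_mul Φ hx hy
     sep := fun f hf => MvPowerSeries.ext fun ν => Φ.sep _ fun N => by
       have := hf (N + ν.degree) ν
       rwa [Nat.add_sub_cancel] at this
     lim := fun f hf => by
       have h1 : ∀ ν : τ →₀ ℕ, ∃ y, ∀ N, y - coeff ν (f (N + ν.degree)) ∈ Φ.J N := fun ν =>
         Φ.lim (fun N => coeff ν (f (N + ν.degree))) fun N => by
           have := hf (N + ν.degree) ν
           rwa [Nat.add_sub_cancel, map_sub, add_right_comm] at this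
       choose y hy using h1
       refine ⟨y, fun N ν => ?_⟩
       rcases le_total ν.degree N with h | h
       · have := hy ν (N - ν.degree)
         rw [Nat.sub_add_cancel h] at this
         rw [map_sub]
         exact this
       · rw [Nat.sub_eq_zero_of_le h, Φ.top]
         trivial }, fun _ _ => Iff.rfl⟩

theorem ev_pad (p : ℕ) [PC p A] {x : σ → A} (h : ∀ i, PN p (x i)) : Ev x := by
  obtain ⟨Φ, hΦ⟩ := exists_fil_pad (A := A) p
  exact ⟨Φ, fun i => by rw [hΦ, pow_one]; exact h i⟩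

theorem Ev.ps {x : σ → PS τ S} (h : Ev fun i => constantCoeff (x i)) : Ev x := by
  obtain ⟨Φ, hΦ⟩ := h
  obtain ⟨Ψ, hΨ⟩ := Φ.exists_ps τ
  refine ⟨Ψ, fun i => ?_⟩
  obtain ⟨k, hk⟩ := hΦ i
  refine ⟨k, (hΨ _ _).2 fun ν => ?_⟩
  rcases eq_or_ne ν 0 with rfl | h0
  · rw [coeff_zero_eq_constantCoeff_apply, map_pow, map_zero]
    exact hk
  · have : ν.degree ≠ 0 := fun h => h0 ((Finsupp.degree_eq_zero_iff ν).1 h)
    rw [Nat.sub_eq_zero_of_le (by omega), Φ.top]
    trivial

/-- The filtration `⊤, ⊥, ⊥, ...`. -/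
theorem ev_nil {x : σ → S} (h : ∀ i, IsNilpotent (x i)) : Ev x :=
  ⟨{ J := fun N => (⊥ : Ideal S) ^ N
     top := by rw [pow_zero, Ideal.one_eq_top]
     anti := fun _ _ h => Ideal.pow_le_pow_right h
     mul := fun a b x hx y hy => by rw [pow_add]; exact Ideal.mul_mem_mul hx hy
     sep := fun x hx => by simpa using hx 1
     lim := fun f hf => by
       have h1 : ∀ N, f (N + 1) = f 1 := fun N => by
         induction N with
         | zero => rfl
         | succ n ih =>
           rw [← ih, ← sub_eq_zero]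
           exact Ideal.pow_le_self (Nat.succ_ne_zero n) (hf (n + 1))
       refine ⟨f 1, fun N => ?_⟩
       rcases N with _ | N
       · rw [pow_zero, Ideal.one_eq_top]
         trivial
       · rw [h1 N, sub_self]
         exact zero_mem _ }, fun i => by
    obtain ⟨k, hk⟩ := h i
    exact ⟨k, by rw [hk]; exact zero_mem _⟩⟩

theorem C0.ev {b : σ → PS τ A} (h : C0 b) : Ev b :=
  Ev.ps (ev_nil fun i => by rw [h i]; exact IsNilpotent.zero)

theorem ev_ps (p : ℕ) [PC p A] {x : σ → PS τ A} (h : ∀ i, PN p (constantCoeff (x i))) : Ev x :=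
  Ev.ps (ev_pad p h)

theorem Ev.span {x : σ → S} (h : Ev x) {y : τ → S}
    (hy : ∀ j, y j ∈ (Ideal.span (Set.range x)).radical) : Ev y := by
  obtain ⟨Φ, hΦ⟩ := h
  refine ⟨Φ, fun j => ?_⟩
  have h1 : Ideal.span (Set.range x) ≤ (Φ.J 1).radical :=
    Ideal.span_le.2 (Set.range_subset_iff.2 hΦ)
  exact (Ideal.radical_le_radical_iff.2 h1) (hy j)

theorem Ev.sep [Finite σ] {x : σ → S} (h : Ev x) {y : S}
    (hy : ∀ N, y ∈ Ideal.span (Set.range x) ^ N) : y = 0 := by
  obtain ⟨Φ, hΦ⟩ := h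
  have h1 : Ideal.span (Set.range x) ≤ (Φ.J 1).radical :=
    Ideal.span_le.2 (Set.range_subset_iff.2 hΦ)
  obtain ⟨k, hk⟩ := Ideal.exists_pow_le_of_le_radical_of_fg h1
    (Submodule.fg_span (Set.finite_range x))
  refine Φ.sep y fun N => af1_pow Φ N (Ideal.pow_right_mono hk N ?_)
  rw [← pow_mul]
  exact hy _

theorem c0_X : C0 (X : σ → PS σ A) := fun _ => constantCoeff_X _

instance pc_ps (p : ℕ) [PC p A] : PC p (PS σ A) := by
  have e : ∀ k, ((p : ℕ) : PS σ A) ^ k = C ((p : A) ^ k) := fun k => by rw [map_pow, map_natCast]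
  refine af1_of p (fun y hy => MvPowerSeries.ext fun ν => af1_sep p fun k => ?_) fun f hf => ?_
  · exact af1_dvd.1 (e k ▸ hy k) ν
  · have h1 : ∀ ν, ∃ y, ∀ k, (p : A) ^ k ∣ y - coeff ν (f k) := fun ν =>
      af1_lim p (fun k => coeff ν (f k)) fun k => by
        rw [← map_sub]
        exact af1_dvd.1 (e k ▸ hf k) ν
    choose y hy using h1
    refine ⟨y, fun k => ?_⟩
    rw [e]
    refine af1_dvd.2 fun ν => ?_
    rw [map_sub]
    exact hy ν k

theorem pc_char (p : ℕ) [CharP A p] : PC p A := by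
  refine af1_of p (fun y hy => by simpa using hy 1) fun f hf => ⟨f 1, fun k => ?_⟩
  rcases k with _ | k
  · simp
  · have h1 := af1_tel hf (Nat.le_add_left 1 k)
    rw [pow_one, CharP.cast_eq_zero, zero_dvd_iff] at h1
    rw [h1]
    exact dvd_zero _

theorem pc_sep (p : ℕ) [PC p A] {y : A} (h : ∀ k, (p : A) ^ k ∣ y) : y = 0 := af1_sep p h

theorem pc_lim (p : ℕ) [PC p A] (f : ℕ → A) (h : ∀ k, (p : A) ^ k ∣ f (k + 1) - f k) :
    ∃ y, ∀ k, (p : A) ^ k ∣ y - f k := af1_lim p f h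

theorem pc_of (p : ℕ) (h1 : ∀ y : A, (∀ k, (p : A) ^ k ∣ y) → y = 0)
    (h2 : ∀ f : ℕ → A, (∀ k, (p : A) ^ k ∣ f (k + 1) - f k) → ∃ y, ∀ k, (p : A) ^ k ∣ y - f k) :
    PC p A := af1_of p h1 h2

theorem PN.map {p : ℕ} {x : A} (h : PN p x) (ρ : A →+* A') : PN p (ρ x) := by
  obtain ⟨k, hk⟩ := h
  refine ⟨k, ?_⟩
  rw [Ideal.mem_span_singleton] at hk ⊢
  simpa using map_dvd ρ hk

theorem ps_dvd {a : A} {f : PS σ A} : C a ∣ f ↔ ∀ ν, a ∣ coeff ν f := af1_dvd

/-- An element that is a unit modulo `p` is a unit. -/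
theorem pc_unit (p : ℕ) [PC p A] {a b : A} (ha : IsUnit a) (h : PN p (b - a)) : IsUnit b := by
  obtain ⟨u, rfl⟩ := ha
  have h1 : b - u ∈ Ideal.jacobson (⊥ : Ideal A) :=
    (Ideal.isRadical_jacobson _).radical_le_iff.2 (IsAdicComplete.le_jacobson_bot _) h
  have h2 : IsUnit (u⁻¹.1 * b) := by
    refine Ideal.isUnit_of_sub_one_mem_jacobson_bot _ ?_
    have := Ideal.mul_mem_left _ u⁻¹.1 h1
    rwa [mul_sub, Units.inv_mul] at this
  exact isUnit_of_mul_isUnit_right h2

/-! Part 2. -/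

variable [Finite σ] [Finite τ]

omit [Finite σ] in
theorem af2_map_pow (E : S →+* S') {x : σ → S} {y : S} {N : ℕ}
    (hy : y ∈ Ideal.span (Set.range x) ^ N) :
    E y ∈ Ideal.span (Set.range fun i => E (x i)) ^ N := by
  have h := Ideal.mem_map_of_mem E hy
  rwa [Ideal.map_pow, Ideal.map_span, ← Set.range_comp] at h

theorem af2_mem {f : PS σ A} {N : ℕ} (h : ∀ ν : σ →₀ ℕ, ν.degree < N → coeff ν f = 0) :
    f ∈ Ideal.span (Set.range (X : σ → PS σ A)) ^ N := by
  classical
  choose! μ hμ using fun ν : σ →₀ ℕ => ν.exists_le_degree_eq N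
  let g : (σ →₀ ℕ) → PS σ A := fun m κ => if μ (m + κ) = m then coeff (m + κ) f else 0
  have hf : f = ∑ m ∈ (Finsupp.finite_of_degree_eq (σ := σ) N).toFinset, monomial m 1 * g m := by
    ext ν
    have hc : ∀ m ∈ (Finsupp.finite_of_degree_eq (σ := σ) N).toFinset,
        coeff ν (monomial m 1 * g m) = if μ ν = m then coeff ν f else 0 := fun m hm => by
      rw [coeff_monomial_mul]
      by_cases hle : m ≤ ν
      · rw [if_pos hle, one_mul]
        change (if μ (m + (ν - m)) = m then coeff (m + (ν - m)) f else 0) = _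
        rw [add_tsub_cancel_of_le hle]
      · rw [if_neg hle]
        split_ifs with he
        · exact (h ν (not_le.1 fun hN => hle (he ▸ (hμ ν hN).1))).symm
        · rfl
    rw [map_sum, Finset.sum_congr rfl hc, Finset.sum_ite_eq]
    split_ifs with hm
    · rfl
    · exact h ν (not_le.1 fun hN => hm ((Set.Finite.mem_toFinset _).2 (hμ ν hN).2))
  rw [hf]
  refine Ideal.sum_mem _ fun m hm => Ideal.mul_mem_right _ _ ?_
  have h1 : MvPolynomial.monomial m (1 : A) ∈ MvPolynomial.idealOfVars σ A ^ N := by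
    rw [MvPolynomial.pow_idealOfVars_eq_span]
    exact Ideal.subset_span ⟨m, (Set.Finite.mem_toFinset _).1 hm, rfl⟩
  have h2 := af2_map_pow MvPolynomial.coeToMvPowerSeries.ringHom h1
  simpa only [MvPolynomial.coeToMvPowerSeries.ringHom_apply, MvPolynomial.coe_X,
    MvPolynomial.coe_monomial] using h2

theorem af2_trunc_coe (N : ℕ) (P : MvPolynomial σ A) :
    truncTotalAlgHom σ A N P = Ideal.Quotient.mk _ P := by
  rw [truncTotalAlgHom_apply]
  refine Ideal.Quotient.eq.2 ((MvPolynomial.mem_pow_idealOfVars_iff' _ _).2 fun ν hν => ?_)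
  rw [MvPolynomial.coeff_sub, coeff_truncTotal _ hν, MvPolynomial.coeff_coe, sub_self]

theorem sub_trunc_mem (f : PS σ A) (N : ℕ) :
    f - (truncTotal N f : MvPolynomial σ A) ∈ Ideal.span (Set.range (X : σ → PS σ A)) ^ N :=
  af2_mem fun ν hν => by
    rw [map_sub, MvPolynomial.coeff_coe, coeff_truncTotal _ hν, sub_self]

theorem mem_X_pow {f : PS σ A} {N : ℕ} : f ∈ Ideal.span (Set.range (X : σ → PS σ A)) ^ N ↔
    ∀ ν : σ →₀ ℕ, ν.degree < N → coeff ν f = 0 := by
  refine ⟨fun h ν hν => ?_, af2_mem⟩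
  have h1 := af2_map_pow (truncTotalAlgHom σ A N).toRingHom h
  have h2 : (fun i => (truncTotalAlgHom σ A N).toRingHom (X i)) =
      Ideal.Quotient.mk (MvPolynomial.idealOfVars σ A ^ N) ∘ MvPolynomial.X := funext fun i => by
    rw [← MvPolynomial.coe_X]
    exact af2_trunc_coe N _
  rw [h2, Set.range_comp, ← Ideal.map_span, ← Ideal.map_pow, Ideal.map_quotient_self,
    Ideal.mem_bot] at h1
  rw [← coeff_truncTotal f hν]
  exact (MvPolynomial.mem_pow_idealOfVars_iff' _ _).1 (Ideal.Quotient.eq_zero_iff_mem.1 h1) ν hν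

theorem hom_coe (E : PS σ A →+* S) (P : MvPolynomial σ A) :
    E P = MvPolynomial.eval₂ (E.comp C) (fun i => E (X i)) P := by
  induction P using MvPolynomial.induction_on with
  | C a => rw [MvPolynomial.coe_C, MvPolynomial.eval₂_C, RingHom.comp_apply]
  | add P Q hP hQ => rw [MvPolynomial.coe_add, map_add, MvPolynomial.eval₂_add, hP, hQ]
  | mul_X P i hP =>
    rw [MvPolynomial.coe_mul, map_mul, MvPolynomial.eval₂_mul, hP, MvPolynomial.coe_X,
      MvPolynomial.eval₂_X]

theorem hom_trunc (E : PS σ A →+* S) (f : PS σ A) (N : ℕ) :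
    E f - MvPolynomial.eval₂ (E.comp C) (fun i => E (X i)) (truncTotal N f) ∈
      Ideal.span (Set.range fun i => E (X i)) ^ N := by
  rw [← hom_coe, ← map_sub]
  exact af2_map_pow E (sub_trunc_mem f N)

theorem Ev.ext {x : σ → S} (h : Ev x) {α β : PS σ A →+* S} (hC : ∀ a, α (C a) = β (C a))
    (hα : ∀ i, α (X i) = x i) (hβ : ∀ i, β (X i) = x i) : α = β := by
  refine RingHom.ext fun f => sub_eq_zero.1 (h.sep fun N => ?_)
  have h1 := hom_trunc α f N
  have h2 := hom_trunc β f N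
  rw [funext hα, show α.comp C = β.comp C from RingHom.ext hC] at h1
  rw [funext hβ] at h2
  have h3 := Ideal.sub_mem _ h1 h2
  rwa [sub_sub_sub_cancel_right] at h3

theorem Ev.exists {x : σ → S} (h : Ev x) (φ : A →+* S) :
    ∃ E : PS σ A →+* S, (∀ a, E (C a) = φ a) ∧ ∀ i, E (X i) = x i := by
  obtain ⟨Φ, hΦ⟩ := h
  obtain ⟨M, hM⟩ := Ideal.exists_pow_le_of_le_radical_of_fg (I := Ideal.span (Set.range x))
    (J := Φ.J 1) (Ideal.span_le.2 (Set.range_subset_iff.2 hΦ))
    (Submodule.fg_span (Set.finite_range x))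
  have hJ : ∀ k, Φ.J 1 ^ k ≤ Φ.J k := fun k => by
    induction k with
    | zero => rw [Φ.top]; exact le_top
    | succ k ih =>
      rw [pow_succ]
      exact Ideal.mul_le.2 fun a ha b hb => Φ.mul k 1 a (ih ha) b hb
  have hle : ∀ k, MvPolynomial.idealOfVars σ A ^ (M * k) ≤
      (Φ.J k).comap (MvPolynomial.eval₂Hom φ x) := fun k P hP => by
    have h1 := af2_map_pow (MvPolynomial.eval₂Hom φ x) hP
    simp only [MvPolynomial.eval₂Hom_X'] at h1
    rw [pow_mul] at h1
    exact hJ k (Ideal.pow_right_mono hM k h1)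
  choose E hE using fun f : PS σ A =>
    Φ.lim (fun k => MvPolynomial.eval₂Hom φ x (truncTotal (M * k) f)) fun k => by
      rw [← map_sub]
      exact hle k (truncTotal_sub_truncTotal_mem_pow_idealOfVars
        (Nat.mul_le_mul_left M k.le_succ) le_rfl f)
  let T : ∀ k, PS σ A →+* S ⧸ Φ.J k := fun k =>
    (Ideal.quotientMap (Φ.J k) (MvPolynomial.eval₂Hom φ x) (hle k)).comp
      (truncTotalAlgHom σ A (M * k)).toRingHom
  have hT : ∀ k f, Ideal.Quotient.mk (Φ.J k) (E f) = T k f := fun k f =>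
    Ideal.Quotient.eq.2 (hE f k)
  have hs : ∀ a b : S, (∀ k, Ideal.Quotient.mk (Φ.J k) a = Ideal.Quotient.mk (Φ.J k) b) → a = b :=
    fun a b hab => sub_eq_zero.1 (Φ.sep _ fun k => Ideal.Quotient.eq.1 (hab k))
  have hP : ∀ P : MvPolynomial σ A, E P = MvPolynomial.eval₂Hom φ x P := fun P =>
    hs _ _ fun k => (hT k P).trans
      (congrArg (Ideal.quotientMap (Φ.J k) (MvPolynomial.eval₂Hom φ x) (hle k))
        (af2_trunc_coe (M * k) P))
  refine ⟨{ toFun := E
            map_one' := hs _ _ fun k => by rw [hT, map_one, map_one]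
            map_mul' := fun f g => hs _ _ fun k => by rw [map_mul, hT, hT, hT, map_mul]
            map_zero' := hs _ _ fun k => by rw [hT, map_zero, map_zero]
            map_add' := fun f g => hs _ _ fun k => by rw [map_add, hT, hT, hT, map_add] },
    fun a => ?_, fun i => ?_⟩
  · change E (C a) = φ a
    rw [← MvPolynomial.coe_C, hP, MvPolynomial.eval₂Hom_C]
  · change E (X i) = x i
    rw [← MvPolynomial.coe_X, hP, MvPolynomial.eval₂Hom_X']

variable {φ : A →+* S} {x : σ → S}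

theorem evx_C (h : Ev x) (a : A) : evx φ x (C a) = φ a := by
  rw [evx, dif_pos (h.exists φ)]
  exact (h.exists φ).choose_spec.1 a

theorem evx_X (h : Ev x) (i : σ) : evx φ x (X i) = x i := by
  rw [evx, dif_pos (h.exists φ)]
  exact (h.exists φ).choose_spec.2 i

theorem evx_coe (h : Ev x) (P : MvPolynomial σ A) : evx φ x P = MvPolynomial.eval₂ φ x P := by
  rw [hom_coe, funext (evx_X h), show (evx φ x).comp C = φ from RingHom.ext (evx_C h)]

theorem eq_evx (h : Ev x) {E : PS σ A →+* S} (hC : ∀ a, E (C a) = φ a) (hX : ∀ i, E (X i) = x i)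
    (f : PS σ A) : E f = evx φ x f :=
  DFunLike.congr_fun (h.ext (fun a => (hC a).trans (evx_C h a).symm) hX (evx_X h)) f

theorem evx_comp (h : Ev x) (ρ : S →+* S') (h' : Ev fun i => ρ (x i)) (f : PS σ A) :
    ρ (evx φ x f) = evx (ρ.comp φ) (fun i => ρ (x i)) f :=
  eq_evx h' (E := ρ.comp (evx φ x)) (fun a => congrArg ρ (evx_C h a))
    (fun i => congrArg ρ (evx_X h i)) f

theorem evx_map (h : Ev x) (ψ : A' →+* A) (f : PS σ A') :
    evx φ x (map ψ f) = evx (φ.comp ψ) x f :=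
  eq_evx h (E := (evx φ x).comp (map ψ))
    (fun a => by rw [RingHom.comp_apply, map_C, evx_C h, RingHom.comp_apply])
    (fun i => by rw [RingHom.comp_apply, map_X, evx_X h]) f

theorem af2_c0 {f : PS σ A} (h : constantCoeff f = 0) :
    f ∈ Ideal.span (Set.range (X : σ → PS σ A)) ^ 1 :=
  af2_mem fun ν hν => by
    rw [(Finsupp.degree_eq_zero_iff ν).1 (Nat.lt_one_iff.1 hν), coeff_zero_eq_constantCoeff_apply, h]

theorem evx_sub_const (h : Ev x) (f : PS σ A) :
    evx φ x f - φ (constantCoeff f) ∈ Ideal.span (Set.range x) := by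
  have h1 : f - C (constantCoeff f) ∈ Ideal.span (Set.range (X : σ → PS σ A)) ^ 1 :=
    af2_c0 (by rw [map_sub, constantCoeff_C, sub_self])
  have h2 := af2_map_pow (evx φ x) h1
  rwa [pow_one, funext (evx_X h), map_sub, evx_C h] at h2

theorem Ev.evx (h : Ev x) {b : τ → PS σ A} (hb : C0 b) : Ev fun j => evx φ x (b j) :=
  h.span fun j => Ideal.le_radical (by
    have h1 := evx_sub_const (φ := φ) h (b j)
    rwa [hb j, map_zero, sub_zero] at h1)

theorem evx_sb (h : Ev x) {b : τ → PS σ A} (hb : Ev b) (h' : Ev fun j => evx φ x (b j))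
    (f : PS τ A) : evx φ x (sb b f) = evx φ (fun j => evx φ x (b j)) f := by
  rw [evx_comp hb (evx φ x) h' f, show (evx φ x).comp C = φ from RingHom.ext (evx_C h)]

theorem evx_zero (f : PS σ A) : evx φ (fun _ : σ => (0 : S)) f = φ (constantCoeff f) :=
  (eq_evx (ev_nil fun _ => IsNilpotent.zero) (E := φ.comp constantCoeff)
    (fun a => by rw [RingHom.comp_apply, constantCoeff_C])
    (fun i => by rw [RingHom.comp_apply, constantCoeff_X, map_zero]) f).symm

theorem sb_X (f : PS σ A) : sb X f = f :=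
  (eq_evx c0_X.ev (E := RingHom.id _) (fun _ => rfl) (fun _ => rfl) f).symm

theorem const_sb {b : σ → PS τ A} (hb : C0 b) (f : PS σ A) :
    constantCoeff (sb b f) = constantCoeff f := by
  have h : (fun i => constantCoeff (b i)) = fun _ => 0 := funext hb
  rw [evx_comp hb.ev constantCoeff (h ▸ ev_nil fun _ => IsNilpotent.zero) f, h, evx_zero,
    RingHom.comp_apply, constantCoeff_C]

theorem map_sb {b : σ → PS τ A} (hb : C0 b) (ρ : A →+* A') (f : PS σ A) :
    map ρ (sb b f) = sb (fun i => map ρ (b i)) (map ρ f) := by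
  have h : C0 fun i => map ρ (b i) := fun i => by rw [constantCoeff_map, hb i, map_zero]
  rw [evx_comp hb.ev (map ρ) h.ev f, evx_map h.ev,
    show (map ρ).comp C = C.comp ρ from RingHom.ext (map_C ρ)]

theorem rename_eq_sb (g : σ → τ) (f : PS σ A) : rename g f = sb (fun i => X (g i)) f :=
  eq_evx (C0.ev fun i => constantCoeff_X (g i)) (E := (rename g).toRingHom) (rename_C g)
    (rename_X g) f

theorem af2_pderiv (i : σ) {f : PS σ A} {N : ℕ}
    (h : f ∈ Ideal.span (Set.range (X : σ → PS σ A)) ^ (N + 1)) :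
    pderiv A i f ∈ Ideal.span (Set.range (X : σ → PS σ A)) ^ N :=
  af2_mem fun ν hν => by
    rw [coeff_pderiv, mem_X_pow.1 h _ (by rw [map_add, Finsupp.degree_single]; omega), zero_mul]

/-- The chain rule. -/
theorem pderiv_sb [Fintype σ] {b : σ → PS τ A} (hb : C0 b) (l : τ) (f : PS σ A) :
    pderiv A l (sb b f) = ∑ i, sb b (pderiv A i f) * pderiv A l (b i) := by
  classical
  have hP : ∀ P : MvPolynomial σ A, pderiv A l (sb b P) =
      ∑ i, sb b (pderiv A i P) * pderiv A l (b i) := fun P => by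
    induction P using MvPolynomial.induction_on with
    | C a => simp only [MvPolynomial.coe_C, evx_C hb.ev, pderiv_C, map_zero, zero_mul,
        Finset.sum_const_zero]
    | add P Q hP hQ =>
      simp only [MvPolynomial.coe_add, map_add, hP, hQ, add_mul, Finset.sum_add_distrib]
    | mul_X P j hP =>
      have h1 : ∀ i, sb b (pderiv A i (X j)) * pderiv A l (b i) =
          if j = i then pderiv A l (b j) else 0 := fun i => by
        split_ifs with hji
        · rw [hji, pderiv_X_self, map_one, one_mul]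
        · rw [pderiv_X_of_ne hji, map_zero, zero_mul]
      simp only [MvPolynomial.coe_mul, MvPolynomial.coe_X, map_mul, evx_X hb.ev,
        Derivation.leibniz, smul_eq_mul, map_add, add_mul, Finset.sum_add_distrib, mul_assoc, h1,
        ← Finset.mul_sum, hP, Finset.sum_ite_eq, Finset.mem_univ, if_true]
  have hsb : ∀ (N : ℕ) (r : PS σ A), r ∈ Ideal.span (Set.range (X : σ → PS σ A)) ^ N →
      sb b r ∈ Ideal.span (Set.range (X : τ → PS τ A)) ^ N := fun N r hr => by
    have h1 := af2_map_pow (sb b) hr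
    rw [funext (evx_X hb.ev)] at h1
    refine Ideal.pow_right_mono (Ideal.span_le.2 (Set.range_subset_iff.2 fun i => ?_)) N h1
    have h2 := af2_c0 (hb i)
    rwa [pow_one] at h2
  refine sub_eq_zero.1 (c0_X.ev.sep fun N => ?_)
  have hr := sub_trunc_mem f (N + 1)
  generalize truncTotal (N + 1) f = P at hr
  obtain ⟨r, rfl⟩ : ∃ r, f = P + r := ⟨f - P, (add_sub_cancel _ _).symm⟩
  rw [add_sub_cancel_left] at hr
  simp only [map_add, add_mul, Finset.sum_add_distrib, hP, add_sub_add_left_eq_sub]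
  exact Ideal.sub_mem _ (af2_pderiv l (hsb _ r hr)) (Ideal.sum_mem _ fun i _ =>
    Ideal.mul_mem_right _ _ (hsb _ _ (af2_pderiv i hr)))

theorem pderiv_map' (ρ : A →+* A') (l : σ) (f : PS σ A) :
    pderiv A' l (map ρ f) = map ρ (pderiv A l f) := by
  ext ν
  rw [coeff_pderiv, coeff_map, coeff_map, coeff_pderiv, map_mul, map_add, map_natCast, map_one]

theorem pderiv_comm' (i j : σ) (f : PS σ A) :
    pderiv A i (pderiv A j f) = pderiv A j (pderiv A i f) := by
  ext ν
  rw [coeff_pderiv, coeff_pderiv, coeff_pderiv, coeff_pderiv]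
  by_cases h : i = j
  · rw [h]
  · rw [add_right_comm, Finsupp.add_apply, Finsupp.add_apply, Finsupp.single_eq_of_ne h,
      Finsupp.single_eq_of_ne' h, add_zero, add_zero, mul_right_comm]

end Pool.Agent.E7
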