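import Pool.Agent.Lib.MP_7e5527_ag.EA.AV

/-! Torsion points and scales. -/

open MvPowerSeries Filter Topology

noncomputable section

namespace Pool.Agent.E7

variable {p : ℕ} [Fact p.Prime] {ι : Type} [Fintype ι] [DecidableEq ι]

/-- A parametrisation of the roots of unity of `p`-power order. -/
structure Chq (E : ℚ_[p] → OC p) : Prop where
  add : ∀ x y, E (x + y) = E x * E y
  one : ∀ x, E x = 1 ↔ ‖x‖ ≤ 1
  near : ∀ x, ‖(E x : ℂ_[p]) - 1‖ < 1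
  surj : ∀ (ζ : OC p) (j : ℕ), ζ ^ p ^ j = 1 → ∃ x, E x = ζ
  zpw : ∀ x (z : ℤ_[p]), zpw (E x) z = E (z * x)

/-- The coordinates in `ρ` are large with separated scales. -/
structure Scl (U : Ultrafilter ℕ) (ρ : Finset ι) (x : ℕ → ι → ℚ_[p]) : Prop where
  big : ∀ i ∈ ρ, Tendsto (fun n => ‖x n i‖) U atTop
  sep : ∀ i ∈ ρ, ∀ l ∈ ρ, i ≠ l → Tendsto (fun n => ‖x n i‖ / ‖x n l‖) U (𝓝 0) ∨
    Tendsto (fun n => ‖x n l‖ / ‖x n i‖) U (𝓝 0)

/-- The action of an integral matrix. -/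
def zmv (γ : Matrix ι ι ℤ_[p]) (x : ι → ℚ_[p]) : ι → ℚ_[p] :=
  (γ.map fun z => (z : ℚ_[p])).mulVec x

/-! Part 1. -/

theorem ag1_near {ζ : OC p} {j : ℕ} (h : ζ ^ p ^ j = 1) : ‖(ζ : ℂ_[p]) - 1‖ < 1 := by
  have h1 : red p (ζ - 1) ^ p ^ j = 0 := by
    rw [map_sub, map_one, sub_pow_char_pow, ← map_pow, h, map_one, one_pow, sub_self]
  exact red_eq_zero.1 (eq_zero_of_pow_eq_zero h1)

theorem ag1_e1 {ζ : OC p} (h : ‖(ζ : ℂ_[p]) - 1‖ < 1) : E1 fun _ : Unit => ζ :=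
  N1.e1 fun _ => h

theorem ag1_appr (z : ℤ_[p]) (j : ℕ) : ∃ m : ℕ, (p : ℤ_[p]) ^ j ∣ z - m :=
  ⟨z.appr j, Ideal.mem_span_singleton.1 (PadicInt.appr_spec j z)⟩

theorem ag1_int (x : ℚ_[p]) : ∀ᶠ j in atTop, ∃ z : ℤ_[p], (z : ℚ_[p]) = (p : ℚ_[p]) ^ j * x := by
  have h := (tendsto_pow_atTop_nhds_zero_of_norm_lt_one (Padic.norm_p_lt_one (p := p))).mul_const x
  rw [zero_mul] at h
  filter_upwards [h.norm.eventually (eventually_le_nhds (by simp : ‖(0 : ℚ_[p])‖ < 1))] with j hj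
  exact ⟨⟨_, hj⟩, rfl⟩

theorem ag1_le {w : ℂ_[p]} {n : ℕ} (hn : n ≠ 0) (h : ‖w ^ n‖ ≤ 1) : w ∈ 𝓞_ℂ_[p] :=
  mem_OC.2 ((pow_le_one_iff_of_nonneg (norm_nonneg w) hn).1 (norm_pow w n ▸ h))

theorem ag1_sys (p : ℕ) [Fact p.Prime] : ∃ ν : ℕ → OC p, (∀ j, ν (j + 1) ^ p = ν j) ∧
    ∀ j, IsPrimitiveRoot (ν j) (p ^ j) := by
  have hp : p.Prime := Fact.out
  have h1 : ∀ y : OC p, ∃ w : OC p, w ^ p = y := fun y => by
    obtain ⟨w, hw⟩ := IsAlgClosed.exists_pow_nat_eq (y : ℂ_[p]) hp.pos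
    exact ⟨⟨w, ag1_le hp.ne_zero (hw ▸ oc_le y)⟩, Subtype.ext hw⟩
  choose f hf using h1
  have : NeZero p := ⟨hp.ne_zero⟩
  have : NeZero (p : ℂ_[p]) := ⟨by exact_mod_cast hp.ne_zero⟩
  obtain ⟨μ, hμ⟩ := HasEnoughRootsOfUnity.exists_primitiveRoot ℂ_[p] p
  let μ' : OC p := ⟨μ, ag1_le hp.ne_zero (by rw [hμ.pow_eq_one, norm_one])⟩
  have h2 : ∀ j, f^[j] μ' ^ p ^ j = μ' := fun j => by
    induction j with
    | zero => simp
    | succ j ih => rw [Function.iterate_succ_apply', pow_succ', pow_mul, hf, ih]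
  have h3 : μ' ^ p = 1 := Subtype.ext hμ.pow_eq_one
  refine ⟨fun j => f^[j] μ' ^ p, fun j => by simp only [Function.iterate_succ_apply', hf],
    fun j => ?_⟩
  have h4 : IsPrimitiveRoot (f^[j] μ') (p ^ (j + 1)) := by
    rw [IsPrimitiveRoot.iff_orderOf]
    refine orderOf_eq_prime_pow ?_ (by rw [pow_succ, pow_mul, h2, h3])
    rw [h2]
    exact fun e => hμ.ne_one hp.one_lt (congrArg Subtype.val e)
  exact h4.pow (pow_pos hp.pos _) (pow_succ' p j)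

theorem exists_chq (p : ℕ) [Fact p.Prime] : ∃ E : ℚ_[p] → OC p, Chq E := by
  have hp : p.Prime := Fact.out
  have p0 : (p : ℚ_[p]) ≠ 0 := Nat.cast_ne_zero.2 hp.ne_zero
  obtain ⟨ν, h1, h2⟩ := ag1_sys p
  have h3 : ∀ j, E1 fun _ : Unit => ν j := fun j => ag1_e1 (ag1_near (h2 j).pow_eq_one)
  have h4 : ∀ j k z, zpw (ν (j + k)) ((p : ℤ_[p]) ^ k * z) = zpw (ν j) z := fun j k z => by
    induction k with
    | zero => simp
    | succ k ih => rw [pow_succ', mul_assoc, ← zpw_zpw (h3 _), zpw_nat (h3 _), ← add_assoc, h1, ih]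
  have h5 : ∀ x : ℚ_[p], ∃ e, ∀ (j : ℕ) (z : ℤ_[p]), (z : ℚ_[p]) = (p : ℚ_[p]) ^ j * x →
      e = zpw (ν j) z := fun x => by
    obtain ⟨k, y, hy⟩ := (ag1_int x).exists
    refine ⟨zpw (ν k) y, fun j z hz => ?_⟩
    rw [← h4 k j, ← h4 j k, add_comm]
    congr 1
    apply Subtype.val_injective
    push_cast
    rw [hy, hz, mul_left_comm]
  choose E hE using h5
  refine ⟨E, fun x y => ?_, fun x => ?_, fun x => ?_, fun ζ j h => ?_, fun x z => ?_⟩
  · obtain ⟨j, ⟨a, ha⟩, b, hb⟩ := ((ag1_int x).and (ag1_int y)).exists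
    rw [hE x j a ha, hE y j b hb, ← zpw_add (h3 j)]
    exact hE _ j _ (by rw [mul_add, ← ha, ← hb, PadicInt.coe_add])
  · obtain ⟨j, a, ha⟩ := (ag1_int x).exists
    obtain ⟨m, hm⟩ := ag1_appr a j
    rw [hE x j a ha, zpw_tors (h3 j) (h2 j).pow_eq_one hm, (h2 j).pow_eq_one_iff_dvd,
      ← Int.natCast_dvd_natCast, Nat.cast_pow, ← PadicInt.pow_p_dvd_int_iff, Int.cast_natCast,
      ← dvd_iff_dvd_of_dvd_sub hm]
    refine ⟨fun ⟨c, hc⟩ => ?_, fun hx => ⟨⟨x, hx⟩, Subtype.val_injective ha⟩⟩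
    have e : x = c := mul_left_cancel₀ (pow_ne_zero j p0) (ha.symm.trans (by rw [hc]; simp))
    exact e ▸ c.2
  · obtain ⟨j, a, ha⟩ := (ag1_int x).exists
    obtain ⟨m, hm⟩ := ag1_appr a j
    rw [hE x j a ha, zpw_tors (h3 j) (h2 j).pow_eq_one hm]
    exact ag1_near (j := j) (by rw [pow_right_comm, (h2 j).pow_eq_one, one_pow])
  · have : NeZero (p ^ j) := ⟨pow_ne_zero _ hp.ne_zero⟩
    obtain ⟨m, -, rfl⟩ := (h2 j).eq_pow_of_pow_eq_one h
    refine ⟨m / p ^ j, (hE _ j m ?_).trans (zpw_nat (h3 j) m)⟩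
    rw [mul_div_cancel₀ _ (pow_ne_zero j p0), PadicInt.coe_natCast]
  · obtain ⟨j, a, ha⟩ := (ag1_int x).exists
    rw [hE x j a ha, zpw_zpw (h3 j)]
    exact (hE _ j _ (by rw [PadicInt.coe_mul, ha]; ring)).symm

theorem Chq.ag1_sum {E : ℚ_[p] → OC p} (h : Chq E) {α : Type} (s : Finset α) (f : α → ℚ_[p]) :
    E (∑ a ∈ s, f a) = ∏ a ∈ s, E (f a) := by
  classical
  induction s using Finset.induction_on with
  | empty => exact (h.one 0).2 (by simp)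
  | insert a s ha ih => rw [Finset.sum_insert ha, Finset.prod_insert ha, h.add, ih]

theorem Chq.mpw {E : ℚ_[p] → OC p} (h : Chq E) (x : ι → ℚ_[p]) (γ : Matrix ι ι ℤ_[p]) :
    mpw (fun i => E (x i)) γ = fun i => E (zmv γ x i) :=
  funext fun i => (Finset.prod_congr rfl fun l _ => h.zpw (x l) (γ i l)).trans
    (h.ag1_sum _ _).symm

theorem Chq.ag1_tors {E : ℚ_[p] → OC p} (h : Chq E) (x : ℚ_[p]) :
    ∀ᶠ j in atTop, E x ^ p ^ j = 1 := by
  filter_upwards [ag1_int x] with j ⟨z, hz⟩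
  rw [← zpw_nat (p := p) (ag1_e1 (h.near x)), h.zpw, h.one, PadicInt.coe_natCast, Nat.cast_pow, ← hz]
  exact z.2

theorem Chq.ag1_cyc {E : ℚ_[p] → OC p} (h : Chq E) (τ : ℂ_[p] →+* ℂ_[p]) :
    ∃ a : ℤ_[p], IsUnit a ∧ ∀ x, τ (E x) = E (a * x) := by
  obtain ⟨a, h1, h2⟩ := exists_cyc τ
  refine ⟨a, PadicInt.isUnit_iff.2 h1, fun x => ?_⟩
  obtain ⟨j, hj⟩ := (h.ag1_tors x).exists
  obtain ⟨m, hm⟩ := ag1_appr a j
  rw [← h.zpw, zpw_tors (ag1_e1 (h.near x)) hj hm,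
    h2 j (E x) m (congrArg Subtype.val hj) ?_, zpow_natCast]
  · rfl
  rw [Int.cast_natCast, ← map_natCast (UAP.zp p), ← map_sub, UAP.norm_zp, norm_sub_rev,
    ← zpow_natCast, ← zpow_neg, PadicInt.norm_le_pow_iff_mem_span_pow, Ideal.mem_span_singleton]
  exact hm

/-- The cocycle takes its values in a group. -/
theorem Chq.grp {E : ℚ_[p] → OC p} (h : Chq E) {K : Subfield ℂ_[p]}
    (hK : ∀ ξ : ℂ_[p], ξ ^ p ^ 2 = 1 → ξ ∈ K) {v : ι → OC p} (hv : N1 v) {c : ℕ}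
    (hc : ∀ i, (v i : ℂ_[p]) ^ p ^ c ∈ K) : ∃ H : Submodule ℤ_[p] (ι → ℚ_[p]),
      (∀ x, x ∈ H ↔ ∃ τ : ℂ_[p] →+* ℂ_[p], UAP.Iso τ ∧ (∀ a ∈ K, τ a = a) ∧
        ∀ i, τ (v i) = v i * E (x i)) ∧
      ∀ τ : ℂ_[p] →+* ℂ_[p], UAP.Iso τ → (∀ a ∈ K, τ a = a) →
        ∃ x ∈ H, ∀ i, τ (v i) = v i * E (x i) := by
  let P : (ι → ℚ_[p]) → Prop := fun x => ∃ τ : ℂ_[p] →+* ℂ_[p], UAP.Iso τ ∧ (∀ a ∈ K, τ a = a) ∧
    ∀ i, τ (v i) = v i * E (x i)
  have h1 : ∀ (z : ℤ_[p]) x, P x → P (z • x) := by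
    rintro z x ⟨τ, h1, h2, h3⟩
    obtain ⟨j, hj⟩ := (eventually_all.2 fun i => h.ag1_tors (x i)).exists
    obtain ⟨m, hm⟩ := ag1_appr z j
    obtain ⟨k, hk⟩ := geom_orbit (σ := τ) (fun ξ e => h2 ξ (hK ξ e)) (c := fun i => E (x i))
      (fun i => congrArg Subtype.val (hj i)) m
    have h4 : ∀ i n, (τ ^ n) (v i) = v i * ∏ l ∈ Finset.range n, (τ ^ l) (E (x i)) := fun i n => by
      induction n with
      | zero => simp
      | succ n ih =>
        rw [pow_succ, RingHom.mul_def, RingHom.comp_apply, h3, map_mul, ih, Finset.prod_range_succ,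
          mul_assoc]
    refine ⟨τ ^ k, h1.iterate k, fun a ha => pow_fix (h2 a ha) k, fun i => ?_⟩
    rw [h4, hk]
    exact congrArg (fun y : OC p => (v i : ℂ_[p]) * y)
      ((zpw_tors (ag1_e1 (h.near _)) (hj i) hm).symm.trans (h.zpw _ _))
  have h2 : ∀ x y, P x → P y → P (x + y) := by
    rintro x y ⟨τ, h2, h3, h4⟩ hy
    obtain ⟨a, ha, h5⟩ := h.ag1_cyc τ
    obtain ⟨b, hb⟩ := ha.exists_right_inv
    obtain ⟨σ, h6, h7, h8⟩ := h1 b y hy
    refine ⟨τ.comp σ, fun z => (h2 _).trans (h6 z), fun a ha => by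
      rw [RingHom.comp_apply, h7 a ha, h3 a ha], fun i => ?_⟩
    have e : (a : ℚ_[p]) * (b • y) i = y i := by
      change (a : ℚ_[p]) * (b * y i) = y i
      rw [← mul_assoc, ← PadicInt.coe_mul, hb, PadicInt.coe_one, one_mul]
    rw [RingHom.comp_apply, h8, map_mul, h4, h5, e, Pi.add_apply, h.add, mul_assoc]
    rfl
  have h3 : P 0 := ⟨RingHom.id _, fun _ => rfl, fun _ _ => rfl, fun i => by
    rw [Pi.zero_apply, (h.one 0).2 (by simp)]
    simp⟩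
  refine ⟨⟨⟨⟨{x | P x}, fun {x y} => h2 x y⟩, h3⟩, h1⟩, fun _ => Iff.rfl, fun τ h4 h5 => ?_⟩
  have h6 : ∀ i, ∃ x, τ (v i) = v i * E x := fun i => by
    have h0 : (v i : ℂ_[p]) ≠ 0 := fun e => by simpa [e] using hv i
    have h7 : (τ (v i) / v i) ^ p ^ c = 1 := by
      rw [div_pow, ← map_pow, h5 _ (hc i), div_self (pow_ne_zero _ h0)]
    obtain ⟨x, hx⟩ := h.surj ⟨_, ag1_le (pow_ne_zero c (Fact.out : p.Prime).ne_zero)
      (by rw [h7, norm_one])⟩ c (Subtype.ext h7)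
    exact ⟨x, by rw [hx, mul_div_cancel₀ _ h0]⟩
  choose x hx using h6
  exact ⟨x, ⟨τ, h4, h5, hx⟩, hx⟩

theorem ag1_rho (p : ℕ) [Fact p.Prime] {r : ℝ} (hr : r < 1) (b : ℕ) : ∃ ρ : ℝ, 0 ≤ ρ ∧ ρ < 1 ∧
    ∀ u : OC p, ‖(u : ℂ_[p]) ^ p ^ b - 1‖ ≤ r → ‖(u : ℂ_[p]) - 1‖ ≤ ρ := by
  have hp : p.Prime := Fact.out
  have h0 : (0 : ℝ) < (p ^ b : ℕ) := Nat.cast_pos.2 (pow_pos hp.pos b)
  have h1 : 0 < (1 - max r (p : ℝ)⁻¹) / (p ^ b : ℕ) :=
    div_pos (sub_pos.2 (max_lt hr (plg_lt p).2)) h0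
  refine ⟨max 0 (1 - (1 - max r (p : ℝ)⁻¹) / (p ^ b : ℕ)), le_max_left _ _,
    max_lt one_pos (by linarith), fun u hu => le_max_of_le_right ?_⟩
  obtain ⟨s, hs⟩ := exists_add_pow_prime_pow_eq hp (u - 1) 1 b
  have h2 : ((u : ℂ_[p]) - 1) ^ p ^ b = (u ^ p ^ b - 1) + -(p * ((u - 1) * s : OC p)) := by
    have := congrArg (ov p) hs
    simp only [map_add, map_mul, map_pow, map_sub, map_one, map_natCast] at this
    change ((u : ℂ_[p]) - 1 + 1) ^ p ^ b = (u - 1) ^ p ^ b + 1 ^ p ^ b + p * (u - 1) * 1 * s at this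
    change _ = _ + -((p : ℂ_[p]) * ((u - 1) * s))
    rw [sub_add_cancel, one_pow] at this
    linear_combination -this
  have h3 : ‖(u : ℂ_[p]) - 1‖ ^ p ^ b ≤ max r (p : ℝ)⁻¹ := by
    rw [← norm_pow, h2]
    refine (IsUltrametricDist.norm_add_le_max _ _).trans (max_le_max hu ?_)
    rw [norm_neg, norm_mul, UAP.norm_p_eq]
    exact mul_le_of_le_one_right (plg_lt p).1.le (oc_le _)
  have h4 := one_add_mul_sub_le_pow (neg_one_lt_zero.le.trans (norm_nonneg ((u : ℂ_[p]) - 1)))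
    (p ^ b)
  rw [le_sub_comm, div_le_iff₀ h0]
  linarith

theorem ag1_basis (V : Submodule ℚ_[p] ℂ_[p]) [FiniteDimensional ℚ_[p] V] :
    ∃ (t : ℕ) (l : Fin t → OC p) (g : Fin t → ℂ_[p] →ₗ[ℚ_[p]] ℚ_[p]),
      LinearIndependent ℚ_[p] (fun k => (l k : ℂ_[p])) ∧ (∀ k, (l k : ℂ_[p]) ∈ V) ∧
        ∀ y ∈ V, ∑ k, g k y • (l k : ℂ_[p]) = y := by
  let b := Module.finBasis ℚ_[p] V
  have h1 : ∀ k, ∃ c : ℚ_[p]ˣ, ‖((c • b k : V) : ℂ_[p])‖ ≤ 1 := fun k => by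
    obtain ⟨c, h1, h2⟩ := NormedField.exists_norm_lt ℚ_[p]
      (inv_pos.2 (add_pos_of_nonneg_of_pos (norm_nonneg (b k : ℂ_[p])) one_pos))
    refine ⟨Units.mk0 c (norm_pos_iff.1 h1), ?_⟩
    change ‖c • (b k : ℂ_[p])‖ ≤ 1
    rw [norm_smul]
    rw [← one_div, lt_div_iff₀ (by positivity)] at h2
    linarith
  choose c hc using h1
  let b' := b.unitsSMul c
  choose g hg using fun k => LinearMap.exists_extend (b'.coord k)
  refine ⟨_, fun k => ⟨b' k, mem_OC.2 (b.unitsSMul_apply k ▸ hc k)⟩, g,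
    b'.linearIndependent.map' V.subtype V.ker_subtype, fun k => (b' k).2, fun y hy => ?_⟩
  have h2 := congrArg V.subtype (b'.sum_repr ⟨y, hy⟩)
  rw [map_sum] at h2
  refine (Finset.sum_congr rfl fun k _ => ?_).trans h2
  rw [map_smul, ← b'.coord_apply, ← hg]
  rfl

theorem ag1_lim (U : Ultrafilter ℕ) {V : Set ℂ_[p]} (hV : V.Finite) {u : ℕ → OC p} {ρ : ℝ}
    (h0 : 0 ≤ ρ) (hρ : ρ < 1) (h1 : ∀ᶠ n in (U : Filter ℕ), ‖(u n : ℂ_[p]) - 1‖ ≤ ρ ∧
      lg p (u n : ℂ_[p]) ∈ Submodule.span ℚ_[p] V) :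
    ∃ w : OC p, ‖(w : ℂ_[p]) - 1‖ < 1 ∧ Tendsto (fun n => (u n : ℂ_[p])) U (𝓝 w) := by
  classical
  let a : ℕ → ℂ_[p] := fun n => if ‖(u n : ℂ_[p]) - 1‖ ≤ ρ ∧
    lg p (u n : ℂ_[p]) ∈ Submodule.span ℚ_[p] V then u n else 1
  have h2 : ∀ n, ‖a n - 1‖ ≤ ρ ∧ lg p (a n) ∈ Submodule.span ℚ_[p] V := fun n => by
    simp only [a]
    split_ifs with h
    · exact h
    · simp [h0, lg_one]
  obtain ⟨B, hB⟩ := lg_bound p hρ
  obtain ⟨z, hz⟩ := conv_of_span U hV.toFinset ⟨B, fun n => hB _ (h2 n).1⟩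
    fun n => by simpa using (h2 n).2
  obtain ⟨c, h3, h4⟩ := conv_of_lg U hρ (fun n => (h2 n).1) hz
  have h5 : Tendsto (fun n => (u n : ℂ_[p])) U (𝓝 c) :=
    h4.congr' (h1.mono fun n hn => if_pos hn)
  exact ⟨⟨c, mem_OC.2 (le_of_tendsto' h5.norm fun n => oc_le _)⟩, h3, h5⟩

theorem ag1_lg {F : Filter ℕ} {q : ℕ → ℂ_[p]} (h : Tendsto q F (𝓝 1)) :
    (∀ᶠ n in F, ‖q n - 1‖ ≤ ((p : ℝ) ^ 2)⁻¹) ∧ Tendsto (fun n => lg p (q n)) F (𝓝 0) := by
  have h1 := tendsto_sub_nhds_zero_iff.2 h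
  have h2 : ∀ᶠ n in F, ‖q n - 1‖ ≤ ((p : ℝ) ^ 2)⁻¹ :=
    h1.norm.eventually (eventually_le_nhds (by simpa using pow_pos (plg_lt p).1 2))
  have h3 := (h1.norm.pow 2).const_mul (p : ℝ)
  rw [norm_zero, zero_pow two_ne_zero, mul_zero] at h3
  simpa using And.intro h2 ((squeeze_zero_norm' (h2.mono fun n hn => lg_near hn) h3).add h1)

/-- Parameters for a bounded sequence in a space of finite dimension. -/
theorem par (U : Ultrafilter ℕ) {κ : Type} [Finite κ] (L : κ → ℂ_[p]) {u : ℕ → ι → OC p}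
    (_hu : ∀ n, N1 (u n)) {r : ℝ} (hr : r < 1) {b : ℕ}
    (h1 : ∀ᶠ n in (U : Filter ℕ), ∀ i, ‖(u n i : ℂ_[p]) ^ p ^ b - 1‖ ≤ r)
    (h2 : ∀ᶠ n in (U : Filter ℕ), ∀ i, lgo (u n) i ∈ Submodule.span ℚ_[p] (Set.range L)) :
    ∃ (t : ℕ) (l : Fin t → OC p) (w : ι → OC p) (a : ℕ → ι × Fin t → ℤ_[p])
      (f : Fin t → ℂ_[p] →ₗ[ℚ_[p]] ℚ_[p]), LinearIndependent ℚ_[p] (fun k => (l k : ℂ_[p])) ∧
      (∀ k, (l k : ℂ_[p]) ∈ Submodule.span ℚ_[p] (Set.range L)) ∧ N1 w ∧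
      (∀ i, lgo w i ∈ Submodule.span ℚ_[p] (Set.range L)) ∧ (∀ n q, (p : ℤ_[p]) ∣ a n q) ∧
      ∀ᶠ n in (U : Filter ℕ), ∀ i, u n i = w i * exo p (∑ k, zc p _ (a n (i, k)) * l k) ∧
        ∀ k, (a n (i, k) : ℚ_[p]) = f k (lgo (u n) i - lgo w i) := by
  classical
  obtain ⟨ρ, r0, r1, hρ⟩ := ag1_rho p hr b
  choose w hw h3 using fun i => ag1_lim U (Set.finite_range L) (u := fun n => u n i) r0 r1
    ((h1.and h2).mono fun n hn => ⟨hρ _ (hn.1 i), hn.2 i⟩)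
  have := FiniteDimensional.span_of_finite ℚ_[p] (Set.finite_range L)
  set V := Submodule.span ℚ_[p] (Set.range L)
  obtain ⟨t, l, g, h4, h5, h6⟩ := ag1_basis V
  have w1 : ∀ i, IsUnit (w i) := fun i => oc_unit.2 (by
    simpa using IsUltrametricDist.norm_add_eq_max_of_norm_ne_norm (x := (w i : ℂ_[p]) - 1) (y := 1)
      (by simpa using (hw i).ne) |>.trans (max_eq_right (by simpa using (hw i).le)))
  choose w' hw' using fun i => (w1 i).exists_right_inv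
  have h7 : ∀ n i, u n i = w i * (w' i * u n i) := fun n i => by rw [← mul_assoc, hw', one_mul]
  have h8 := fun i => ag1_lg (p := p) (F := U) (q := fun n => (w' i * u n i : OC p)) (by
    have := (h3 i).const_mul (w' i : ℂ_[p])
    rwa [mul_comm, show (w i : ℂ_[p]) * w' i = 1 from congrArg Subtype.val (hw' i)] at this)
  have p1 : ((p : ℝ) ^ 2)⁻¹ < 1 := inv_pow (p : ℝ) 2 ▸ pow_lt_one₀ (plg_lt p).1.le (plg_lt p).2
    two_ne_zero
  have h9 : ∀ i, ∀ᶠ n in (U : Filter ℕ),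
      lg p ((w' i * u n i : OC p) : ℂ_[p]) = lgo (u n) i - lgo w i := fun i =>
    (h8 i).1.mono fun n hn => by
      rw [eq_sub_iff_add_eq', lgo, ← lg_mul (hw i) (hn.trans_lt p1)]
      exact congrArg (lg p) (congrArg Subtype.val (h7 n i).symm)
  have k1 := fun i => (h8 i).2.congr' (h9 i)
  have k2 : ∀ i, lgo w i ∈ V := fun i => V.closed_of_finiteDimensional.mem_of_tendsto
    (tendsto_sub_nhds_zero_iff.1 (k1 i)) (h2.mono fun n hn => hn i)
  have k3 : ∀ i, ∀ᶠ n in (U : Filter ℕ), lgo (u n) i - lgo w i ∈ V := fun i =>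
    h2.mono fun n hn => sub_mem (hn i) (k2 i)
  let f := fun k => ((p : ℚ_[p]) ^ 2)⁻¹ • g k
  have k4 : ∀ i k, ∀ᶠ n in (U : Filter ℕ), ‖f k (lgo (u n) i - lgo w i)‖ < 1 := fun i k => by
    have k5 : ContinuousOn (f k) V := continuousOn_iff_continuous_domRestrict.2
      ((f k).comp V.subtype).continuous_of_finiteDimensional
    exact ((k5 0 V.zero_mem).tendsto.comp
      (tendsto_nhdsWithin_iff.2 ⟨k1 i, k3 i⟩)).norm.eventually (eventually_lt_nhds (by simp))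
  let a : ℕ → ι × Fin t → ℤ_[p] := fun n q =>
    if h : ‖f q.2 (lgo (u n) q.1 - lgo w q.1)‖ < 1 then ⟨_, h.le⟩ else 0
  have k5 : ∀ n q, (p : ℤ_[p]) ∣ a n q := fun n q => by
    simp only [a]
    split_ifs with h
    · exact (PadicInt.norm_lt_one_iff_dvd _).1 h
    · exact dvd_zero _
  refine ⟨t, l, w, a, f, h4, h5, hw, k2, k5, eventually_all.2 fun i => ?_⟩
  filter_upwards [(h8 i).1, h9 i, k3 i, eventually_all.2 (k4 i)] with n e1 e2 e3 e4
  have k6 : ∀ k, (a n (i, k) : ℚ_[p]) = f k (lgo (u n) i - lgo w i) := fun k => by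
    simp only [a, dif_pos (e4 k)]
  refine ⟨(h7 n i).trans (congrArg _ (eq_exo ?_ e1 ?_)), k6⟩
  · refine (oc_dvd.1 (Finset.dvd_sum fun k _ => Dvd.dvd.mul_right
      (map_natCast (zc p (OC p)) p ▸ map_dvd _ (k5 n (i, k))) _)).trans_lt ?_
    exact (UAP.norm_p_eq p).trans_lt (plg_lt p).2
  · rw [e2, ← h6 _ e3]
    refine Eq.trans ?_ (congrArg _ (map_sum (ov p) _ _).symm)
    rw [Finset.mul_sum]
    refine Finset.sum_congr rfl fun k _ => ?_
    have e5 : g k (lgo (u n) i - lgo w i) = (p : ℚ_[p]) ^ 2 * a n (i, k) := by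
      rw [k6, LinearMap.smul_apply, smul_eq_mul,
        mul_inv_cancel_left₀ (pow_ne_zero 2 (Nat.cast_ne_zero.2 (Fact.out : p.Prime).ne_zero))]
    rw [e5, map_mul, Algebra.smul_def, map_mul, map_pow, map_natCast, mul_assoc]
    exact congrArg (fun y => (p : ℂ_[p]) ^ 2 * (y * l k)) (zc_oc _).symm

/-! Part 2. -/

section ag2

open Asymptotics

omit [DecidableEq ι] in
theorem ag2_mul (γ δ : Matrix ι ι ℤ_[p]) (y : ι → ℚ_[p]) : zmv (γ * δ) y = zmv γ (zmv δ y) := by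
  rw [zmv, zmv, zmv, Matrix.mulVec_mulVec]
  exact congrArg (Matrix.mulVec · y) (Matrix.map_mul (L := γ) (M := δ) (f := PadicInt.Coe.ringHom))

theorem ag2_one (y : ι → ℚ_[p]) : zmv 1 y = y := by
  rw [zmv, Matrix.map_one _ rfl rfl, Matrix.one_mulVec]

theorem ag2_unb {U : Ultrafilter ℕ} {a : ℕ → ℚ_[p]} (h : ¬ a =O[U] fun _ => (1 : ℝ)) :
    Tendsto (fun n => ‖a n‖) U atTop := tendsto_atTop.2 fun b =>
  (U.em _).resolve_right fun e => h (IsBigO.of_bound b (e.mono fun n hn => by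
    simpa using (not_le.1 hn).le))

theorem ag2_irr {U : Ultrafilter ℕ} {a : ℕ → ℚ_[p]} (h : Tendsto (fun n => ‖a n‖) U atTop) :
    ¬ a =o[U] a :=
  isLittleO_irrefl' ((h.eventually_gt_atTop 0).mono fun _ hn => hn.ne').frequently

omit [Fintype ι] [DecidableEq ι] in
theorem ag2_max (U : Ultrafilter ℕ) (x : ℕ → ι → ℚ_[p]) {s : Finset ι} (hs : s.Nonempty) :
    ∃ i ∈ s, ∀ᶠ n in (U : Filter ℕ), ∀ j ∈ s, ‖x n j‖ ≤ ‖x n i‖ :=
  (U.eventually_exists_mem_iff s.finite_toSet).1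
    (Eventually.of_forall fun n => s.exists_max_image (fun j => ‖x n j‖) hs)

theorem ag2_lim (U : Ultrafilter ℕ) {a b : ℕ → ℚ_[p]} (h : ∀ᶠ n in (U : Filter ℕ), ‖a n‖ ≤ ‖b n‖) :
    ∃ c : ℤ_[p], (fun n => a n - c * b n) =o[U] b := by
  obtain ⟨c, hc, h1⟩ := (isCompact_closedBall (0 : ℚ_[p]) 1).ultrafilter_le_nhds
    (U.map fun n => a n / b n) (le_principal_iff.2 (h.mono fun n hn => by
      simpa using div_le_one_of_le₀ hn (norm_nonneg _)))
  have h2 : Tendsto (fun n => a n / b n - c) U (𝓝 0) := tendsto_sub_nhds_zero_iff.2 h1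
  refine ⟨⟨c, by simpa using hc⟩, (((isLittleO_one_iff ℚ_[p]).2 h2).mul_isBigO
    (isBigO_refl b _)).congr' (h.mono fun n hn => ?_) (by simp)⟩
  by_cases hb : b n = 0
  · simp [hb, show a n = 0 by simpa [hb] using hn]
  · simp only [sub_mul, div_mul_cancel₀ _ hb]

theorem ag2_ind (U : Ultrafilter ℕ) (s : Finset ι) : ∀ x : ℕ → ι → ℚ_[p],
    ∃ (γ : Matrix ι ι ℤ_[p]) (ρ : Finset ι) (B : ℝ), IsUnit γ.det ∧ ρ ⊆ s ∧
      (∀ y, ∀ i ∉ s, zmv γ y i = y i) ∧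
      (∀ y M, (∀ j ∈ s, ‖y j‖ ≤ M) → ∀ i ∈ s, ‖zmv γ y i‖ ≤ M) ∧ (Scl U ρ fun n => zmv γ (x n)) ∧
      ∀ᶠ n in (U : Filter ℕ), ∀ i ∈ s, i ∉ ρ → ‖zmv γ (x n) i‖ ≤ B := by
  induction s using Finset.strongInduction with
  | H s ih =>
    intro x
    rcases s.eq_empty_or_nonempty with rfl | hs
    · exact ⟨1, ∅, 0, by simp, by simp, by simp [ag2_one], by simp, ⟨by simp, by simp⟩, by simp⟩
    obtain ⟨i₀, hi₀, h1⟩ := ag2_max U x hs
    by_cases hb : (fun n => x n i₀) =O[U] fun _ => (1 : ℝ)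
    · obtain ⟨B, hB⟩ := hb.bound
      refine ⟨1, ∅, B, by simp, by simp, by simp [ag2_one], by simp [ag2_one], ⟨by simp, by simp⟩,
        (h1.and hB).mono fun n hn i hi _ => ?_⟩
      rw [ag2_one]
      simpa using (hn.1 i hi).trans hn.2
    have h2 : ∀ j, ∃ c : ℤ_[p], (j ∉ s.erase i₀ → c = 0) ∧
        (j ∈ s.erase i₀ → (fun n => x n j - c * x n i₀) =o[U] fun n => x n i₀) := fun j => by
      by_cases hj : j ∈ s.erase i₀
      · obtain ⟨c, hc⟩ := ag2_lim U (h1.mono fun n hn => hn j (Finset.mem_of_mem_erase hj))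
        exact ⟨c, fun e => (e hj).elim, fun _ => hc⟩
      · exact ⟨0, fun _ => rfl, fun e => (hj e).elim⟩
    choose c hc0 hc using h2
    have hci : c i₀ = 0 := hc0 _ (Finset.notMem_erase _ _)
    let N : Matrix ι ι ℤ_[p] := Matrix.of fun i j => if j = i₀ then c i else 0
    have hN : N * N = 0 := by
      ext i j
      simp [N, Matrix.mul_apply, hci]
    have hu : IsUnit (1 - N).det := Matrix.isUnit_det_of_right_inverse (B := 1 + N) (by
      rw [sub_mul, mul_add, mul_add, hN]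
      simp)
    have h3 : ∀ (y : ι → ℚ_[p]) i, zmv (1 - N) y i = y i - c i * y i₀ := fun y i => by
      simp [zmv, N, Matrix.mulVec, dotProduct, Matrix.one_apply, sub_mul,
        apply_ite (fun z : ℤ_[p] => (z : ℚ_[p])), Finset.sum_sub_distrib]
    obtain ⟨γ, ρ, B, k1, k2, k3, k4, k5, k6⟩ := ih _ (Finset.erase_ssubset hi₀)
      fun n => zmv (1 - N) (x n)
    have h4 : ∀ y, zmv γ (zmv (1 - N) y) i₀ = y i₀ := fun y => by
      rw [k3 _ _ (Finset.notMem_erase _ _), h3, hci]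
      simp
    have h5 : ∀ i ∈ ρ, Tendsto (fun n => ‖zmv γ (zmv (1 - N) (x n)) i‖ /
        ‖zmv γ (zmv (1 - N) (x n)) i₀‖) U (𝓝 0) := fun i hi => by
      simp only [h4]
      refine (isLittleO_norm_norm.2 (isLittleO_iff.2 fun ε hε => ?_)).tendsto_div_nhds_zero
      exact ((eventually_all_finset _).2 fun j hj => isLittleO_iff.1 (hc j hj) hε).mono
        fun n hn => k4 _ _ (fun j hj => by rw [h3]; exact hn j hj) i (k2 hi)
    refine ⟨γ * (1 - N), insert i₀ ρ, B, by rw [Matrix.det_mul]; exact k1.mul hu,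
      Finset.insert_subset hi₀ (k2.trans (Finset.erase_subset _ _)), fun y i hi => ?_,
      fun y M hM i hi => ?_, ⟨fun i hi => ?_, fun i hi l hl hil => ?_⟩, k6.mono fun n hn i hi e => ?_⟩
    · have h6 : i ∉ s.erase i₀ := fun e => hi (Finset.mem_of_mem_erase e)
      rw [ag2_mul, k3 _ _ h6, h3, hc0 _ h6]
      simp
    · rw [ag2_mul]
      by_cases e : i = i₀
      · rw [e, h4]
        exact hM _ hi₀
      refine k4 _ _ (fun j hj => ?_) i (Finset.mem_erase.2 ⟨e, hi⟩)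
      rw [h3, sub_eq_add_neg]
      refine (IsUltrametricDist.norm_add_le_max _ _).trans
        (max_le (hM j (Finset.mem_of_mem_erase hj)) ?_)
      rw [norm_neg, norm_mul]
      exact (mul_le_of_le_one_left (norm_nonneg _) (c j).2).trans (hM _ hi₀)
    · simp only [ag2_mul]
      rcases Finset.mem_insert.1 hi with rfl | hi
      · simpa only [h4] using ag2_unb hb
      · exact k5.big i hi
    · simp only [ag2_mul]
      rcases Finset.mem_insert.1 hi with e | e <;> rcases Finset.mem_insert.1 hl with f | f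
      · exact (hil (e.trans f.symm)).elim
      · exact Or.inr (e ▸ h5 l f)
      · exact Or.inl (f ▸ h5 i e)
      · exact k5.sep i e l f hil
    · rw [Finset.mem_insert, not_or] at e
      rw [ag2_mul]
      exact hn i (Finset.mem_erase.2 ⟨e.1, hi⟩) e.2

end ag2

/-- Normal form of one sequence: eliminate with the limits of the ratios. -/
theorem scale_one (U : Ultrafilter ℕ) (x : ℕ → ι → ℚ_[p]) :
    ∃ (γ : Matrix ι ι ℤ_[p]) (ρ : Finset ι) (B : ℝ), IsUnit γ.det ∧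
      (Scl U ρ fun n => zmv γ (x n)) ∧ ∀ᶠ n in (U : Filter ℕ), ∀ i ∉ ρ, ‖zmv γ (x n) i‖ ≤ B := by
  obtain ⟨γ, ρ, B, h1, -, -, -, h2, h3⟩ := ag2_ind U Finset.univ x
  exact ⟨γ, ρ, B, h1, h2, h3.mono fun n hn i => hn i (Finset.mem_univ i)⟩

section ag2'

open Asymptotics

/-- The linear forms that stay bounded on a sequence. -/
def ag2K (U : Ultrafilter ℕ) (x : ℕ → ι → ℚ_[p]) : Submodule ℚ_[p] (ι → ℚ_[p]) where
  carrier := {k | (fun n => k ⬝ᵥ x n) =O[U] fun _ => (1 : ℝ)}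
  add_mem' := fun h h' => by simpa [add_dotProduct] using IsBigO.add h h'
  zero_mem' := by simpa using isBigO_zero (E' := ℚ_[p]) (fun _ => (1 : ℝ)) _
  smul_mem' := fun c k h => by simpa using IsBigO.const_mul_left h c

omit [DecidableEq ι] in
theorem ag2_mem {U : Ultrafilter ℕ} {x : ℕ → ι → ℚ_[p]} {k : ι → ℚ_[p]} :
    k ∈ ag2K U x ↔ (fun n => k ⬝ᵥ x n) =O[U] fun _ => (1 : ℝ) := Iff.rfl

theorem ag2_fs (U : Ultrafilter ℕ) (x : ℕ → ι → ℚ_[p]) : ∃ y : ι → ℕ → ℚ_[p],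
    ∀ k ∉ ag2K U x, ∃ i, (fun n => k ⬝ᵥ x n) =Θ[U] y i := by
  classical
  obtain ⟨γ, ρ, B, h1, h2, h3⟩ := scale_one U x
  refine ⟨fun i n => zmv γ (x n) i, fun k hk => ?_⟩
  obtain ⟨q, hq⟩ : ∃ q : ι → ℚ_[p], ∀ v, k ⬝ᵥ v = ∑ l, q l * zmv γ v l := ⟨_, fun v => by
    conv_lhs => rw [← ag2_one v, ← Matrix.nonsing_inv_mul γ h1, ag2_mul, zmv,
      Matrix.dotProduct_mulVec]
    rfl⟩
  have h4 : ∀ l ∉ ρ, (fun n => q l * zmv γ (x n) l) =O[U] fun _ => (1 : ℝ) := fun l hl =>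
    (IsBigO.of_bound B (h3.mono fun n hn => by simpa using hn l hl)).const_mul_left _
  rcases (ρ.filter fun l => q l ≠ 0).eq_empty_or_nonempty with h5 | h5
  · refine (hk ?_).elim
    change (fun n => k ⬝ᵥ x n) =O[U] _
    simp only [hq]
    refine IsBigO.fun_sum fun l _ => ?_
    by_cases hl : l ∈ ρ
    · simpa [not_not.1 (Finset.filter_eq_empty_iff.1 h5 hl)] using
        isBigO_zero (E' := ℚ_[p]) (fun _ => (1 : ℝ)) _
    · exact h4 l hl
  obtain ⟨i, hi, h6⟩ := ag2_max U (fun n => zmv γ (x n)) h5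
  obtain ⟨h7, h8⟩ := Finset.mem_filter.1 hi
  have h9 : ∀ {i l}, l ∈ ρ → Tendsto (fun n => ‖zmv γ (x n) i‖ / ‖zmv γ (x n) l‖) U (𝓝 0) →
      (fun n => zmv γ (x n) i) =o[U] fun n => zmv γ (x n) l := fun hl h =>
    isLittleO_norm_norm.1 (isLittleO_of_tendsto' (((h2.big _ hl).eventually_gt_atTop 0).mono
      fun n hn e => (hn.ne' e).elim) h)
  refine ⟨i, ?_⟩
  simp only [hq, ← Finset.add_sum_erase _ _ (Finset.mem_univ i)]
  refine ((isTheta_refl _ _).const_mul_left h8).add_isLittleO (IsLittleO.fun_sum fun l hl => ?_)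
  by_cases h10 : l ∈ ρ
  · by_cases h11 : q l = 0
    · simp [h11]
    refine IsLittleO.const_mul_left (((h2.sep l h10 i h7 (Finset.ne_of_mem_erase hl)).imp (h9 h7)
      (h9 h10)).resolve_right fun e => ag2_irr (h2.big i h7) (e.trans_isBigO ?_)) _
    exact IsBigO.of_bound' (h6.mono fun n hn => hn l (Finset.mem_filter.2 ⟨h10, h11⟩))
  · exact (h4 l h10).trans_isLittleO ((isLittleO_one_left_iff ℝ).2 (h2.big i h7))

theorem ag2_diag {U : Ultrafilter ℕ} (hU : (U : Filter ℕ) ≤ cofinite) {P : ℕ → ℕ → Prop}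
    (h : ∀ b, ∀ᶠ n in (U : Filter ℕ), P b n) :
    ∃ l : ℕ → ℕ, Tendsto l U atTop ∧ ∀ᶠ n in (U : Filter ℕ), P (l n) n := by
  classical
  rw [Nat.cofinite_eq_atTop] at hU
  exact ⟨fun n => Nat.findGreatest (P · n) n, tendsto_atTop.2 fun b =>
    (((eventually_ge_atTop b).filter_mono hU).and (h b)).mono fun n hn => Nat.le_findGreatest hn.1 hn.2,
    (h 0).mono fun n hn => Nat.findGreatest_spec (P := (P · n)) n.zero_le hn⟩

theorem ag2_pow {U : Ultrafilter ℕ} {l : ℕ → ℕ} (h : Tendsto l U atTop) :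
    Tendsto (fun n => (p : ℝ) ^ l n) U atTop :=
  (tendsto_pow_atTop_atTop_of_one_lt (by exact_mod_cast (Fact.out : p.Prime).one_lt)).comp h

theorem ag2_nrm (j : ℕ) : ‖(p : ℚ_[p]) ^ j‖ = ((p : ℝ) ^ j)⁻¹ := by
  rw [norm_pow, Padic.norm_p, inv_pow]

theorem ag2_key {U : Ultrafilter ℕ} {l : ℕ → ℕ} (h1 : Tendsto l U atTop) {a b : ℕ → ℚ_[p]}
    (ha : Tendsto (fun n => ‖a n‖) U atTop) {m m' : ℕ} (hlt : m < m')
    (h : (fun n => (p : ℚ_[p]) ^ (m * l n) * b n) =Θ[U] a) :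
    ¬ (fun n => (p : ℚ_[p]) ^ (m' * l n) * b n) =Θ[U] a := fun h' => by
  obtain ⟨d, rfl⟩ := Nat.exists_eq_add_of_lt hlt
  have h7 : (fun n => (p : ℚ_[p]) ^ ((d + 1) * l n)) =o[U] fun _ => (1 : ℚ_[p]) := by
    rw [isLittleO_one_iff, tendsto_zero_iff_norm_tendsto_zero]
    simp only [ag2_nrm]
    exact (ag2_pow (h1.const_mul_atTop' d.succ_pos)).inv_tendsto_atTop
  refine ag2_irr ha (h'.symm.trans_isLittleO ((h7.mul_isBigO h.isBigO).congr (fun n => ?_)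
    fun n => one_mul _))
  ring

omit [DecidableEq ι] in
theorem ag2_ex {U : Ultrafilter ℕ} {x g : ℕ → ι → ℚ_[p]} {k : ι → ℚ_[p]} (hk : k ∈ ag2K U x)
    {l j : ℕ → ℕ} (h1 : Tendsto l U atTop)
    (h2 : ∀ᶠ n in (U : Filter ℕ), (p : ℝ) ^ (j n + l n) ≤ ‖k ⬝ᵥ g n‖)
    (h : ¬ ag2K U (fun n => x n + (p : ℚ_[p]) ^ j n • g n) < ag2K U x) : ∃ q, q ∉ ag2K U x ∧
      (fun n => q ⬝ᵥ x n + (p : ℚ_[p]) ^ j n * q ⬝ᵥ g n) =O[U] fun _ => (1 : ℝ) := by
  have hp : (0 : ℝ) < p := by exact_mod_cast (Fact.out : p.Prime).pos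
  by_contra h4
  refine h (lt_of_le_of_ne (fun q hq => by_contra fun e => h4 ⟨q, e, ?_⟩) fun e => ?_)
  · simpa only [ag2_mem, dotProduct_add, dotProduct_smul, smul_eq_mul] using hq
  · have h5 := hk
    rw [← e, ag2_mem] at h5
    obtain ⟨B, hB⟩ := (h5.sub (ag2_mem.1 hk)).bound
    obtain ⟨n, h6, h7, h8⟩ := (hB.and (h2.and ((ag2_pow (p := p) h1).eventually_gt_atTop B))).exists
    rw [dotProduct_add, add_sub_cancel_left, dotProduct_smul, norm_smul, ag2_nrm, norm_one, mul_one,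
      inv_mul_le_iff₀ (by positivity)] at h6
    rw [pow_add] at h7
    exact absurd (h7.trans h6) (not_le.2 (mul_lt_mul_of_pos_left h8 (by positivity)))

theorem ag2_min {U : Ultrafilter ℕ} (hU : (U : Filter ℕ) ≤ cofinite) {x g : ℕ → ι → ℚ_[p]}
    (h : ∀ l : ℕ → ℕ, ¬ ag2K U (fun n => x n + (p : ℚ_[p]) ^ l n • g n) < ag2K U x) :
    ag2K U x ≤ ag2K U g := by
  intro k hk
  by_contra hg
  have hp1 : (1 : ℝ) ≤ p := by exact_mod_cast (Fact.out : p.Prime).one_le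
  obtain ⟨R, hR⟩ : ∃ R, R = Fintype.card (ι × ι) := ⟨_, rfl⟩
  obtain ⟨l, h1, h2⟩ := ag2_diag hU (P := fun b n => (p : ℝ) ^ ((R + 1) * b) ≤ ‖k ⬝ᵥ g n‖)
    fun b => (ag2_unb (mt ag2_mem.2 hg)).eventually_ge_atTop _
  have h0 : ∀ j : ℕ → ℕ, (fun n => (p : ℚ_[p]) ^ j n) =O[U] fun _ => (1 : ℝ) := fun j =>
    IsBigO.of_bound' (Eventually.of_forall fun n => by
      rw [ag2_nrm, norm_one]
      exact inv_le_one_of_one_le₀ (one_le_pow₀ hp1))
  choose q hq hb using fun m : Fin (R + 1) => ag2_ex hk (j := fun n => m * l n) h1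
    (h2.mono fun n hn => (pow_le_pow_right₀ hp1 (by
      rw [← Nat.succ_mul]
      exact Nat.mul_le_mul_right _ m.2)).trans hn) (h _)
  obtain ⟨a, ha⟩ := ag2_fs U x
  obtain ⟨b, hb'⟩ := ag2_fs U g
  choose i hi using fun m => ha _ (hq m)
  choose j hj using fun m => hb' (q m) fun e => hq m (ag2_mem.2
    (((hb m).sub (((h0 fun n => m * l n).mul (ag2_mem.1 e)).congr_right fun _ => one_mul _)).congr_left
      fun _ => add_sub_cancel_right _ _))
  have h5 := fun m => ag2_unb (mt ag2_mem.2 (hq m))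
  have h6 : ∀ m : Fin (R + 1), (fun n => (p : ℚ_[p]) ^ (m * l n) * b (j m) n) =Θ[U] a (i m) :=
    fun m => by
      have h7 : (fun n => -(q m ⬝ᵥ x n)) =Θ[U] fun n => q m ⬝ᵥ x n :=
        ⟨(isBigO_refl _ _).neg_left, (isBigO_refl _ _).neg_right⟩
      have h8 := h7.add_isLittleO ((hb m).trans_isLittleO ((isLittleO_one_left_iff ℝ).2 (h5 m)))
      refine (((isTheta_refl _ _).mul (hj m)).symm.trans ?_).trans (hi m)
      simpa only [Pi.add_def, neg_add_cancel_left] using h8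
  have key : ∀ m m' : Fin (R + 1), m < m' → (i m, j m) ≠ (i m', j m') := fun m m' hlt e => by
    obtain ⟨e1, e2⟩ := Prod.mk.inj e
    refine ag2_key h1 ((isLittleO_one_left_iff ℝ).1 (((isLittleO_one_left_iff ℝ).2
      (h5 m)).trans_isTheta (hi m))) hlt (h6 m) ?_
    rw [e1, e2]
    exact h6 m'
  obtain ⟨m, m', hne, e⟩ := Fintype.exists_ne_map_eq_of_card_lt (fun m => (i m, j m)) (by simp [hR])
  rcases lt_or_gt_of_ne hne with h7 | h7
  · exact key _ _ h7 e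
  · exact key _ _ h7 e.symm

end ag2'

/-- Take a sequence with `ρ` as large as possible. -/
theorem scale (U : Ultrafilter ℕ) (hU : (U : Filter ℕ) ≤ cofinite)
    (H : ℕ → Submodule ℤ_[p] (ι → ℚ_[p])) :
    ∃ (γ : Matrix ι ι ℤ_[p]) (ρ : Finset ι) (b : ℕ) (x : ℕ → ι → ℚ_[p]), IsUnit γ.det ∧
      (∀ n, x n ∈ H n) ∧ (Scl U ρ fun n => zmv γ (x n)) ∧
      ∀ᶠ n in (U : Filter ℕ), ∀ i ∉ ρ, ‖zmv γ (x n) i‖ ≤ 1 ∧
        ∀ g ∈ H n, ‖zmv γ g i‖ ≤ (p : ℝ) ^ b := by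
  have hp1 : (1 : ℝ) < p := by exact_mod_cast (Fact.out : p.Prime).one_lt
  have hs : ∀ n j, ∀ g ∈ H n, (p : ℚ_[p]) ^ j • g ∈ H n := fun n j g hg => by
    have := (H n).smul_mem ((p : ℤ_[p]) ^ j) hg
    rwa [← IsScalarTower.algebraMap_smul ℚ_[p], map_pow, map_natCast] at this
  obtain ⟨x, hx, hmin⟩ := (measure fun x => Module.finrank ℚ_[p] (ag2K U x)).wf.has_min
    {x : ℕ → ι → ℚ_[p] | ∀ n, x n ∈ H n} ⟨0, fun n => zero_mem _⟩
  obtain ⟨γ, ρ, B, h1, h2, h3⟩ := scale_one U x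
  have h4 : ∀ i, ∃ b : ℕ, i ∉ ρ → ∀ᶠ n in (U : Filter ℕ), ∀ g ∈ H n,
      ‖zmv γ g i‖ ≤ (p : ℝ) ^ b := fun i => by
    by_contra! h5
    obtain ⟨l, h6, h7⟩ := ag2_diag hU (P := fun b n => ∃ g ∈ H n, (p : ℝ) ^ b < ‖zmv γ g i‖)
      fun b => (h5 b).2
    have h8 : ∀ n, ∃ g ∈ H n, (∃ g ∈ H n, (p : ℝ) ^ l n < ‖zmv γ g i‖) →
        (p : ℝ) ^ l n < ‖zmv γ g i‖ := fun n => by
      by_cases h9 : ∃ g ∈ H n, (p : ℝ) ^ l n < ‖zmv γ g i‖
      · obtain ⟨g, h10, h11⟩ := h9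
        exact ⟨g, h10, fun _ => h11⟩
      · exact ⟨0, zero_mem _, fun e => (h9 e).elim⟩
    choose g hg hg' using h8
    obtain ⟨C, hC⟩ := Asymptotics.IsBigO.bound (ag2_min hU (g := g) (fun l e =>
      hmin _ (fun n => add_mem (hx n) (hs n _ _ (hg n))) (Submodule.finrank_lt_finrank_of_lt e))
      (show (γ.map fun z => (z : ℚ_[p])) i ∈ ag2K U x from Asymptotics.IsBigO.of_bound B
        (h3.mono fun n hn => by rw [norm_one, mul_one]; exact hn i (h5 0).1)))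
    obtain ⟨n, k1, k2, k3⟩ := (hC.and (h7.and ((ag2_pow (p := p) h6).eventually_gt_atTop C))).exists
    rw [norm_one, mul_one] at k1
    exact absurd (k3.trans (hg' n k2)) (not_lt.2 k1)
  choose b hb using h4
  obtain ⟨m, hm⟩ := pow_unbounded_of_one_lt B hp1
  have h5 : ∀ y i, ‖zmv γ ((p : ℚ_[p]) ^ m • y) i‖ = ((p : ℝ) ^ m)⁻¹ * ‖zmv γ y i‖ := fun y i => by
    rw [zmv, Matrix.mulVec_smul, Pi.smul_apply, norm_smul, norm_pow, Padic.norm_p, inv_pow, zmv]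
  have h6 : (0 : ℝ) < ((p : ℝ) ^ m)⁻¹ := by positivity
  refine ⟨γ, ρ, Finset.univ.sup b, fun n => (p : ℚ_[p]) ^ m • x n, h1, fun n => hs n _ _ (hx n),
    ⟨fun i hi => ?_, fun i hi l hl hil => ?_⟩, ?_⟩
  · simpa only [h5] using (h2.big i hi).const_mul_atTop h6
  · simpa only [h5, mul_div_mul_left _ _ h6.ne'] using h2.sep i hi l hl hil
  · refine (h3.and (eventually_all.2 fun i => eventually_imp_distrib_left.2 (hb i))).mono
      fun n hn i hi => ⟨?_, fun g hg => (hn.2 i hi g hg).trans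
        (pow_le_pow_right₀ hp1.le (Finset.le_sup (Finset.mem_univ i)))⟩
    rw [h5, inv_mul_le_iff₀ (by positivity), mul_one]
    exact (hn.1 i hi).trans hm.le

/-! Part 3. -/

omit [Fintype ι] [DecidableEq ι] in
theorem ag3_lex [Finite ι] {f : ι → ℝ} (hf : Function.Injective f) {S : Set (ι →₀ ℕ)}
    (hS : S.Nonempty) :
    ∃ R0 ∈ S, ∀ R ∈ S, R ≠ R0 → ∃ i, (∀ j, f j < f i → R0 j = R j) ∧ R0 i < R i := by
  letI : LinearOrder ι := LinearOrder.lift' f hf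
  obtain ⟨R0, h0, h⟩ := (wellFounded_lt (α := Lex (ι →₀ ℕ))).has_min (ofLex ⁻¹' S) hS
  exact ⟨ofLex R0, h0, fun R hR hne =>
    lt_of_le_of_ne (not_lt.1 (h (toLex R) hR)) fun e => hne (congrArg ofLex e).symm⟩

theorem ag3_wt {W : ι → ℝ} (hW : ∀ i, 0 < W i) {R0 R : ι →₀ ℕ} {i : ι} (hi : R0 i < R i)
    (h : ∀ j, R0 j = R j ∨ j = i ∨ (∑ l, (R0 l : ℝ) + 1) * W j < W i) :
    ∑ j, R0 j * W j < ∑ j, R j * W j := by
  have hN : (0 : ℝ) < ∑ l, (R0 l : ℝ) + 1 := by positivity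
  have h1 : ∀ j, (∑ l, (R0 l : ℝ) + 1) * (R0 j * W j) + (if j = i then (∑ l, (R0 l : ℝ) + 1) * W i
      else 0) ≤ (∑ l, (R0 l : ℝ) + 1) * (R j * W j) + R0 j * W i := fun j => by
    have a0 : (0 : ℝ) ≤ R0 j := Nat.cast_nonneg _
    have a1 : (0 : ℝ) ≤ R j := Nat.cast_nonneg _
    have a2 := mul_nonneg a0 (hW i).le
    split_ifs with e
    · subst e
      have : (R0 j : ℝ) + 1 ≤ R j := by exact_mod_cast hi
      nlinarith [mul_le_mul_of_nonneg_right this (mul_pos hN (hW j)).le]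
    · rcases h j with e' | e' | e'
      · rw [← e']; linarith
      · exact absurd e' e
      · nlinarith [mul_le_mul_of_nonneg_left e'.le a0, mul_nonneg hN.le (mul_nonneg a1 (hW j).le)]
  have h2 := Finset.sum_le_sum fun j (_ : j ∈ Finset.univ) => h1 j
  simp only [Finset.sum_add_distrib, ← Finset.mul_sum, ← Finset.sum_mul, Finset.sum_ite_eq',
    Finset.mem_univ, if_true] at h2
  exact lt_of_mul_lt_mul_left (by nlinarith [hW i]) hN.le

omit [DecidableEq ι] in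
theorem ag3_coeff {k : Type} [Field k] (G : PS ι k) {d : ι → ℕ} (hd : ∀ i, 0 < d i)
    {z : ι → PowerSeries k} (hz : ∀ i, PowerSeries.constantCoeff (z i) ≠ 0) {R0 : ι →₀ ℕ}
    (h0 : coeff R0 G ≠ 0)
    (h : ∀ R, coeff R G ≠ 0 → R ≠ R0 → ∑ j, R0 j * d j < ∑ j, R j * d j) :
    PowerSeries.coeff (∑ j, R0 j * d j)
      (sb (τ := Unit) (fun i => PowerSeries.X ^ d i * z i) G) ≠ 0 := by
  set w := ∑ j, R0 j * d j with hw
  set y : ι → PS Unit k := fun i => PowerSeries.X ^ d i * z i with hy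
  have ev : Ev y := C0.ev fun i => by
    show PowerSeries.constantCoeff (PowerSeries.X ^ d i * z i) = 0
    simp [(hd i).ne']
  have h1 := hom_trunc (sb y) G (w + R0.degree + 1)
  have h2 : Ideal.span (Set.range fun i => sb y (X i)) ≤
      Ideal.span (Set.range (X : Unit → PS Unit k)) := Ideal.span_le.2 (by
    rintro _ ⟨i, rfl⟩
    simp only [evx_X ev]
    exact Ideal.mul_mem_right _ _ (Ideal.pow_mem_of_mem _ (Ideal.subset_span (Set.mem_range_self ())) _ (hd i)))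
  have h3 := mem_X_pow.1 (Ideal.pow_right_mono h2 _ h1)
    (Finsupp.single () w) (by rw [Finsupp.degree_single]; omega)
  change PowerSeries.coeff (R := k) w _ = 0 at h3
  have h4 : ∀ R : ι →₀ ℕ, ∀ a : k, ((sb y).comp C a * ∏ i, sb y (X i) ^ R i : PS Unit k) =
      (PowerSeries.X ^ (∑ j, R j * d j) * (PowerSeries.C a * ∏ i, z i ^ R i) : PowerSeries k) := by
    intro R a
    simp only [RingHom.comp_apply, evx_C ev, evx_X ev]
    show (PowerSeries.C a * ∏ i, (PowerSeries.X ^ d i * z i) ^ R i : PowerSeries k) = _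
    simp only [mul_pow, Finset.prod_mul_distrib, ← pow_mul, Finset.prod_pow_eq_pow_sum,
      mul_comm (d _)]
    exact mul_left_comm _ _ _
  have h5 : MvPolynomial.coeff R0 (truncTotal (w + R0.degree + 1) G) = coeff R0 G :=
    coeff_truncTotal _ (by omega)
  rw [map_sub, sub_eq_zero, MvPolynomial.eval₂_eq', map_sum,
    Finset.sum_eq_single_of_mem R0 (MvPolynomial.mem_support_iff.2 (h5 ▸ h0)) fun R hR e => by
      rw [h4, PowerSeries.coeff_X_pow_mul', if_neg (not_le.2 (h R (fun e' =>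
        MvPolynomial.mem_support_iff.1 hR (by rw [coeff_truncTotal_eq_ite, e', ite_self])) e))],
    h4, PowerSeries.coeff_X_pow_mul', if_pos le_rfl, Nat.sub_self, h5] at h3
  rw [h3]
  simpa [h0, Finset.prod_eq_zero_iff] using fun i e => absurd e (hz i)

theorem ag3_red (e : ℕ) (u : ℤ_[p]ˣ) : ∃ z : PowerSeries (RF p), PowerSeries.constantCoeff z ≠ 0 ∧
    zpw (1 + X () : PS Unit (RF p)) ((u : ℤ_[p]) * (p : ℤ_[p]) ^ e) - 1 =
      PowerSeries.X ^ p ^ e * z := by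
  have e1 : E1 fun _ : Unit => (1 + X () : PS Unit (RF p)) := e1_X
  have ev : Ev fun _ : Unit => (X () ^ p ^ e : PS Unit (RF p)) := C0.ev fun _ => by
    simp [(Fact.out : p.Prime).ne_zero]
  haveI : CharP (PS Unit (RF p)) p := ps_char
  rw [mul_comm, ← zpw_zpw e1, ← Nat.cast_pow, zpw_nat e1, add_pow_char_pow, one_pow, zpw,
    add_sub_cancel_left, bz, PowerSeries.eq_X_mul_shift_add_const (PowerSeries.binomialSeries _ _),
    PowerSeries.binomialSeries_constantCoeff, map_one, map_add, map_one, add_sub_cancel_right,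
    map_mul]
  refine ⟨_, ?_, congrArg (· * _) (evx_X ev ())⟩
  have h := evx_comp (φ := zc p (PS Unit (RF p))) ev constantCoeff (ev_nil fun _ => by
    simp [(Fact.out : p.Prime).ne_zero]) (PowerSeries.mk fun n =>
      PowerSeries.coeff (n + 1) (PowerSeries.binomialSeries ℤ_[p] (u : ℤ_[p])))
  have h' : (fun _ : Unit => constantCoeff (X () ^ p ^ e : PS Unit (RF p))) = fun _ => 0 := by
    simp [(Fact.out : p.Prime).ne_zero]
  rw [h', evx_zero] at h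
  refine h.trans_ne (IsUnit.ne_zero (IsUnit.map _ ?_))
  show IsUnit (PowerSeries.constantCoeff (PowerSeries.mk _))
  simp

theorem ag3_nat {j : ℕ} (hj : 0 < j) : 1 ≤ j * ‖(j : ℚ_[p])‖ := by
  have hp : p.Prime := Fact.out
  obtain ⟨e, m, hm, rfl⟩ := Nat.exists_eq_pow_mul_and_not_dvd hj.ne' p hp.ne_one
  have h0 : (0 : ℝ) < p := by exact_mod_cast hp.pos
  have h1 : (1 : ℝ) ≤ m := by exact_mod_cast Nat.pos_of_mul_pos_left hj
  rw [Nat.cast_mul (α := ℚ_[p]), norm_mul, Nat.cast_pow, Padic.norm_p_pow,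
    Padic.norm_natCast_eq_one_iff.2 (hp.coprime_iff_not_dvd.2 hm), zpow_neg, zpow_natCast]
  push_cast
  field_simp
  exact h1

theorem ag3_main {E : ℚ_[p] → OC p} (h : Chq E) (a : ℚ_[p]) (e : ι → ℕ) (u : ι → ℤ_[p]ˣ)
    {G : PS ι (OC p)} {v : ι → OC p} (hv : N1 v) {R0 : ι →₀ ℕ} (h0 : red p (coeff R0 G) ≠ 0)
    (hw : ∀ R, red p (coeff R G) ≠ 0 → R ≠ R0 → ∑ j, R0 j * p ^ e j < ∑ j, R j * p ^ e j)
    (ha : ((∑ j, R0 j * p ^ e j : ℕ) : ℝ) < ‖a‖) : ∃ k : ℕ, evx (RingHom.id _)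
      (fun i => v i * E (((u i * (p : ℤ_[p]) ^ e i : ℤ_[p]) : ℚ_[p]) * (k * a)) - 1) G ≠ 0 := by
  classical
  by_contra! H
  set w := ∑ j, R0 j * p ^ e j
  have e1 : ∀ {A : Type} [CommRing A] [PC p A], E1 fun _ : Unit => (1 + X () : PS Unit A) := e1_X
  set b : ι → PS Unit (OC p) := fun i =>
    C (v i) * zpw (1 + X ()) ((u i : ℤ_[p]) * (p : ℤ_[p]) ^ e i) - 1 with hb
  have evb : Ev b := ev_ps p fun i => pn_iff.2 (by
    rw [hb, map_sub, map_mul, zpw_map e1 _ (ev_nil fun _ => by simp)]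
    simpa [one_zpw] using hv i)
  have inj : ∀ k l : ℕ, k < l → l ≤ w → E (k * a) ≠ E (l * a) := fun k l hkl hl e => by
    obtain ⟨j, rfl⟩ := Nat.exists_eq_add_of_lt hkl
    have n0 : E (k * a) ≠ 0 := fun e0 => by simpa [e0] using h.near (k * a)
    rw [add_assoc, Nat.cast_add, add_mul, h.add, left_eq_mul₀ n0, h.one, norm_mul] at e
    have h1 := ag3_nat (p := p) j.succ_pos
    have h2 : ((j + 1 : ℕ) : ℝ) ≤ w := by exact_mod_cast (by omega)
    have h3 : 0 < ‖((j + 1 : ℕ) : ℚ_[p])‖ := norm_pos_iff.2 (by exact_mod_cast j.succ_ne_zero)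
    nlinarith [mul_lt_mul_of_pos_right (h2.trans_lt ha) h3]
  have := wei (sb b G) ((Finset.range (w + 1)).image fun k : ℕ => E (k * a) - 1)
    (by simpa using fun (k : ℕ) _ => h.near (k * a)) (fun c hc => ?_) (r := w) (by
      rw [Finset.card_image_of_injOn, Finset.card_range]
      · omega
      intro k hk l hl e
      have hk := Finset.mem_range.1 hk
      have hl := Finset.mem_range.1 hl
      rcases lt_trichotomy k l with c | c | c
      exacts [absurd (sub_left_injective e) (inj k l c (by omega)), c,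
        absurd (sub_left_injective e).symm (inj l k c (by omega))])
  · choose z hz hz' using fun i => ag3_red (e i) (u i)
    have hm : (fun i => map (red p) (b i)) = fun i => PowerSeries.X ^ p ^ e i * z i := by
      funext i
      have : red p (v i) = 1 := by
        rw [← sub_eq_zero, ← map_one (red p), ← map_sub]; exact red_eq_zero.2 (hv i)
      rw [hb, map_sub, map_mul, zpw_map e1 _ (by simpa using e1), ← hz' i]
      simp [this]
    have ev : Ev fun i => map (red p) (b i) := hm ▸ C0.ev fun i => by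
      show PowerSeries.constantCoeff (PowerSeries.X ^ p ^ e i * z i) = 0
      simp [(Fact.out : p.Prime).ne_zero]
    rw [← coeff_map, evx_comp evb _ ev, show (MvPowerSeries.map (σ := Unit) (red p)).comp C =
      C.comp (red p) from RingHom.ext fun c => map_C (red p) c, ← evx_map ev, hm] at this
    exact ag3_coeff _ (fun i => pow_pos (Fact.out : p.Prime).pos _) hz (by rwa [coeff_map])
      (by simpa only [coeff_map] using hw) this
  · obtain ⟨k, -, rfl⟩ := Finset.mem_image.1 hc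
    have ev : Ev fun _ : Unit => E (k * a) - 1 := Sm.ev fun _ => h.near _
    have hm : (fun i => evx (RingHom.id _) (fun _ : Unit => E (k * a) - 1) (b i)) =
        fun i => v i * E (((u i * (p : ℤ_[p]) ^ e i : ℤ_[p]) : ℚ_[p]) * (k * a)) - 1 := by
      funext i
      rw [hb, map_sub, map_mul, zpw_map e1 _ (by simpa [E1, evx_X ev] using ev), map_add, map_one,
        evx_X ev, evx_C ev, add_sub_cancel, h.zpw, RingHom.id_apply]
    rw [evx_sb ev evb (hm ▸ Sm.ev fun i => N1.mul hv (v := fun _ => E _) (fun _ => h.near _) i), hm]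
    exact H k

/-- The exponent of least weight survives. -/
theorem Chq.ex {E : ℚ_[p] → OC p} (h : Chq E) {U : Ultrafilter ℕ} {x : ℕ → ι → ℚ_[p]}
    (hx : Scl U Finset.univ x) {S : Set (ι →₀ ℕ)} (hS : S.Nonempty) : ∃ R0 ∈ S,
      ∀ᶠ n in (U : Filter ℕ), ∀ (G : PS ι (OC p)) (v : ι → OC p), N1 v →
        (∀ R, red p (coeff R G) ≠ 0 → R ∈ S) → red p (coeff R0 G) ≠ 0 →
        ∃ k : ℕ, evx (RingHom.id _) (fun i => v i * E (k * x n i) - 1) G ≠ 0 := by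
  have hp : (0 : ℝ) < p := by exact_mod_cast (Fact.out : p.Prime).pos
  have big : ∀ c : ℝ, ∀ᶠ n in (U : Filter ℕ), ∀ i, c < ‖x n i‖ := fun c =>
    eventually_all.2 fun i => (hx.big i (Finset.mem_univ i)).eventually_gt_atTop c
  have sm : ∀ c : ℝ, 0 < c → ∀ᶠ n in (U : Filter ℕ), ∀ i l,
      Tendsto (fun n => ‖x n i‖ / ‖x n l‖) U (𝓝 0) → c * ‖x n i‖ < ‖x n l‖ := fun c hc =>
    eventually_all.2 fun i => eventually_all.2 fun l => eventually_imp_distrib_left.2 fun t => by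
      filter_upwards [t.eventually (gt_mem_nhds (inv_pos.2 hc)), big 0] with n h1 h2
      rwa [div_lt_iff₀ (h2 l), lt_inv_mul_iff₀ hc] at h1
  obtain ⟨m, hm⟩ := (sm 1 one_pos).exists
  simp only [one_mul] at hm
  have sep := fun i l => hx.sep i (Finset.mem_univ i) l (Finset.mem_univ l)
  have inj : Function.Injective fun i => ‖x m i‖ := fun i l e => by_contra fun c =>
    (sep i l c).elim (fun t => (hm i l t).ne e) fun t => (hm l i t).ne' e
  obtain ⟨R0, h0, hR⟩ := ag3_lex inj hS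
  refine ⟨R0, h0, ?_⟩
  filter_upwards [big (∑ l, (R0 l : ℝ)), sm (∑ l, (R0 l : ℝ) + 1) (by positivity)]
    with n h1 h2 G v hv hG hG0
  rcases isEmpty_or_nonempty ι with hι | hι
  · refine ⟨0, ?_⟩
    rw [Subsingleton.elim (fun i => v i * E _ - 1) fun _ => 0, evx_zero]
    rw [Subsingleton.elim R0 0] at hG0
    exact fun e => hG0 (by rw [coeff_zero_eq_constantCoeff_apply, show constantCoeff G = 0 from e,
      map_zero])
  obtain ⟨t, -, ht⟩ := Finset.exists_max_image Finset.univ (fun i => ‖x n i‖) Finset.univ_nonempty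
  have pos : ∀ i, 0 < ‖x n i‖ := fun i => lt_of_le_of_lt (by positivity) (h1 i)
  have ex : ∀ i, ∃ (e : ℕ) (u : ℤ_[p]ˣ), ((u * (p : ℤ_[p]) ^ e : ℤ_[p]) : ℚ_[p]) * x n t = x n i ∧
      ((p ^ e : ℕ) : ℝ) = ‖x n t‖ / ‖x n i‖ := fun i => by
    let c : ℤ_[p] := ⟨x n i / x n t, by
      rw [norm_div]; exact (div_le_one (pos t)).2 (ht i (Finset.mem_univ i))⟩
    have c0 : c ≠ 0 := fun e => div_ne_zero (norm_pos_iff.1 (pos i)) (norm_pos_iff.1 (pos t))
      (congrArg Subtype.val e)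
    have e1 : (c : ℚ_[p]) * x n t = x n i := div_mul_cancel₀ _ (norm_pos_iff.1 (pos t))
    refine ⟨c.valuation, PadicInt.unitCoeff c0, by rw [← PadicInt.unitCoeff_spec, e1], ?_⟩
    rw [← e1, norm_mul, PadicInt.padic_norm_e_of_padicInt, PadicInt.norm_eq_zpow_neg_valuation c0,
      zpow_neg, zpow_natCast]
    have := pos t
    push_cast
    field_simp
  choose e u hu he using ex
  have cast : ∀ R : ι →₀ ℕ, ((∑ j, R j * p ^ e j : ℕ) : ℝ) = ∑ j, R j * (‖x n t‖ / ‖x n j‖) :=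
    fun R => by simp only [Nat.cast_sum, Nat.cast_mul, he]
  refine (ag3_main h (x n t) e u hv hG0 (fun R c c' => ?_) ?_).imp fun k hk => by
    simpa only [mul_left_comm _ (k : ℚ_[p]), hu] using hk
  · obtain ⟨i, hi, hi'⟩ := hR R (hG R c) c'
    refine (Nat.cast_lt (α := ℝ)).1 ?_
    rw [cast, cast]
    refine ag3_wt (fun j => div_pos (pos t) (pos j)) hi' fun j => ?_
    by_cases c : j = i
    · exact Or.inr (Or.inl c)
    refine (sep j i c).imp (fun t => hi j (hm j i t)) fun g => Or.inr ?_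
    rw [← mul_div_assoc, div_lt_div_iff₀ (pos j) (pos i)]
    nlinarith [mul_lt_mul_of_pos_left (h2 i j g) (pos t)]
  · obtain ⟨s, -, hs⟩ := Finset.exists_min_image Finset.univ (fun i => ‖x n i‖) Finset.univ_nonempty
    rw [cast]
    calc _ ≤ ∑ j, R0 j * (‖x n t‖ / ‖x n s‖) := Finset.sum_le_sum fun j _ => by
          have := pos s
          gcongr
          exact hs j (Finset.mem_univ j)
      _ < ‖x n s‖ * (‖x n t‖ / ‖x n s‖) := by
          rw [← Finset.sum_mul]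
          exact mul_lt_mul_of_pos_right (h1 s) (div_pos (pos t) (pos s))
      _ = _ := mul_div_cancel₀ _ (pos s).ne'

end Pool.Agent.E7
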