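import Pool.Agent.Lib.MP_7e5527_ag.EA.AD

/-! Dependence along an ultrafilter. -/

open Filter

noncomputable section

namespace Pool.Agent.E7

variable {k α β : Type} [Field k] {U : Ultrafilter ℕ} {r : ℕ}

/-- Any `r + 1` coordinates satisfy a relation at most indices. -/
def UDep (U : Ultrafilter ℕ) (r : ℕ) (g : ℕ → α → k) : Prop :=
  ∀ s : Fin (r + 1) → α, ∃ P : MvPolynomial (Fin (r + 1)) k, P ≠ 0 ∧
    ∀ᶠ n in (U : Filter ℕ), MvPolynomial.eval (fun a => g n (s a)) P = 0

/-- Sequences that vanish at most indices. -/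
def ahI (k : Type) [Field k] (U : Ultrafilter ℕ) : Ideal (ℕ → k) where
  carrier := {f | ∀ᶠ n in (U : Filter ℕ), f n = 0}
  add_mem' := fun h h' => (h.and h').mono fun n hn => by simp [hn.1, hn.2]
  zero_mem' := Eventually.of_forall fun _ => rfl
  smul_mem' := fun _ _ h => h.mono fun n hn => by simp [hn]

theorem ah_zero {f : ℕ → k} :
    Ideal.Quotient.mk (ahI k U) f = 0 ↔ ∀ᶠ n in (U : Filter ℕ), f n = 0 :=
  Ideal.Quotient.eq_zero_iff_mem

theorem ah_prime : (ahI k U).IsPrime := by
  refine ⟨(Ideal.ne_top_iff_one _).2 fun h => ?_, fun {f g} h => ?_⟩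
  · obtain ⟨n, hn⟩ := Eventually.exists (f := (U : Filter ℕ)) h
    exact one_ne_zero hn
  · exact Ultrafilter.eventually_or.1 (Eventually.mono h fun n hn => mul_eq_zero.1 hn)

theorem ah_hom (g : ℕ → α → k) :
    (MvPolynomial.aeval fun a => Ideal.Quotient.mk (ahI k U) fun n => g n a :
      MvPolynomial α k →ₐ[k] _).toRingHom =
      (Ideal.Quotient.mk (ahI k U)).comp (RingHom.pi fun n => MvPolynomial.eval (g n)) := by
  refine MvPolynomial.ringHom_ext (fun c => ?_) fun a => ?_
  · simp only [AlgHom.toRingHom_eq_coe, RingHom.coe_coe, MvPolynomial.aeval_C, RingHom.comp_apply]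
    exact congrArg (Ideal.Quotient.mk (ahI k U)) (funext fun n => by simp)
  · simp only [AlgHom.toRingHom_eq_coe, RingHom.coe_coe, MvPolynomial.aeval_X, RingHom.comp_apply]
    exact congrArg (Ideal.Quotient.mk (ahI k U)) (funext fun n => by simp)

theorem ah_aeval (g : ℕ → α → k) (Q : MvPolynomial α k) :
    MvPolynomial.aeval (fun a => Ideal.Quotient.mk (ahI k U) fun n => g n a) Q =
      Ideal.Quotient.mk (ahI k U) fun n => MvPolynomial.eval (g n) Q :=
  RingHom.congr_fun (ah_hom g) Q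

theorem ah_iff (g : ℕ → α → k) :
    UDep U r g ↔ Dep k r fun a => Ideal.Quotient.mk (ahI k U) fun n => g n a := by
  have := ah_prime (k := k) (U := U)
  rw [dep_iff]
  refine forall_congr' fun s => exists_congr fun P => and_congr_right fun _ => ?_
  rw [ah_aeval (fun n a => g n (s a)), ah_zero]

/-- `Dep.alg` in the ring of germs. -/
theorem UDep.alg {g : ℕ → α → k} (h : UDep U r g) {b : ℕ → β → k}
    (hb : ∀ j, ∃ P : Polynomial (MvPolynomial α k), ∀ᶠ n in (U : Filter ℕ),
      P.map (MvPolynomial.eval (g n)) ≠ 0 ∧ P.eval₂ (MvPolynomial.eval (g n)) (b n j) = 0) :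
    UDep U r b := by
  have := ah_prime (k := k) (U := U)
  rw [ah_iff] at h ⊢
  refine h.alg fun j => ?_
  obtain ⟨P, hP⟩ := hb j
  refine algS_root (P := P) (fun h0 => ?_) ?_
  · have h1 : ∀ᶠ n in (U : Filter ℕ), ∀ i ∈ P.support,
        MvPolynomial.eval (g n) (P.coeff i) = 0 := (eventually_all_finset _).2 fun i _ => by
      have h2 := congrArg (fun Q => Polynomial.coeff Q i) h0
      simp only [Polynomial.coeff_map, Polynomial.coeff_zero] at h2
      exact ah_zero.1 ((ah_aeval g _).symm.trans h2)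
    obtain ⟨n, h2, h3⟩ := (h1.and hP).exists
    refine h3.1 (Polynomial.ext fun i => ?_)
    rw [Polynomial.coeff_map, Polynomial.coeff_zero]
    by_cases hi : i ∈ P.support
    · exact h2 i hi
    · rw [Polynomial.notMem_support_iff.1 hi, map_zero]
  · rw [ah_hom, ← Polynomial.hom_eval₂, ah_zero]
    refine hP.mono fun n hn => ?_
    exact (Polynomial.hom_eval₂ P _ (Pi.evalRingHom (fun _ => k) n) _).trans hn.2

theorem UDep.poly {g : ℕ → α → k} (h : UDep U r g) {b : ℕ → β → k}
    (hb : ∀ j, ∃ Q : MvPolynomial α k, ∀ᶠ n in (U : Filter ℕ), b n j = MvPolynomial.eval (g n) Q) :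
    UDep U r b :=
  h.alg fun j => by
    obtain ⟨Q, hQ⟩ := hb j
    refine ⟨Polynomial.X - Polynomial.C Q, hQ.mono fun n hn => ⟨?_, ?_⟩⟩
    · rw [Polynomial.map_sub, Polynomial.map_X, Polynomial.map_C]
      exact Polynomial.X_sub_C_ne_zero _
    · simp [hn]

end Pool.Agent.E7
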