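import Pool.Agent.Lib.MP_7e5527_ag.EA.AZ
import Pool.Agent.Lib.MP_7e5527_ag.EO.TLg
import Pool.Agent.Lib.MP_7e5527_ag.EO.TRb
import Pool.Agent.Lib.MP_7e5527_ag.EO.BG

/-! The ring of integers of the completed algebraic closure. -/

open MvPowerSeries Filter Topology

noncomputable section

namespace Pool.Agent.E7

variable {p : ℕ} [Fact p.Prime]

/-- The ring of integers. -/
abbrev OC (p : ℕ) [Fact p.Prime] : Type := 𝓞_ℂ_[p]

/-- The residue field. -/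
abbrev RF (p : ℕ) [Fact p.Prime] : Type := IsLocalRing.ResidueField (OC p)

/-- The reduction. -/
abbrev red (p : ℕ) [Fact p.Prime] : OC p →+* RF p := IsLocalRing.residue (OC p)

/-- The inclusion. -/
abbrev ov (p : ℕ) [Fact p.Prime] : OC p →+* ℂ_[p] := (𝓞_ℂ_[p]).subtype

/-! Part 1. -/

theorem mem_OC {y : ℂ_[p]} : y ∈ 𝓞_ℂ_[p] ↔ ‖y‖ ≤ 1 := by
  have e : ‖y‖ = ((Valued.v y : NNReal) : ℝ) := by
    rw [PadicComplex.norm_eq_norm]
    simp only [Valued.v.norm_def, PadicComplex.RankOne.hom_eq_embedding]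
    rw [Valuation.embedding_restrict (PadicComplex.valued p).v y]
  rw [e, NNReal.coe_le_one]
  rfl

theorem oc_le (y : OC p) : ‖(y : ℂ_[p])‖ ≤ 1 := mem_OC.1 y.2

open Classical in
/-- An element of norm at most one as an integer. -/
def toO (y : ℂ_[p]) : OC p := if h : ‖y‖ ≤ 1 then ⟨y, mem_OC.2 h⟩ else 0

theorem coe_toO {y : ℂ_[p]} (h : ‖y‖ ≤ 1) : (toO y : ℂ_[p]) = y := by rw [toO, dif_pos h]

theorem toO_coe (y : OC p) : toO (y : ℂ_[p]) = y := Subtype.ext (coe_toO (oc_le y))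

theorem oc_dvd {a y : OC p} : a ∣ y ↔ ‖(y : ℂ_[p])‖ ≤ ‖(a : ℂ_[p])‖ := by
  constructor
  · rintro ⟨c, rfl⟩
    rw [MulMemClass.coe_mul, norm_mul]
    exact mul_le_of_le_one_right (norm_nonneg _) (oc_le c)
  · intro h
    by_cases ha : (a : ℂ_[p]) = 0
    · rw [ha, norm_zero, norm_le_zero_iff] at h
      exact (Subtype.ext h : y = 0) ▸ dvd_zero a
    · refine ⟨⟨(y : ℂ_[p]) / a, mem_OC.2 ?_⟩, Subtype.ext (mul_div_cancel₀ _ ha).symm⟩
      rw [norm_div]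
      exact div_le_one_of_le₀ h (norm_nonneg _)

private theorem aoa_p : ‖((p : OC p) : ℂ_[p])‖ = (p : ℝ)⁻¹ := by
  rw [SubringClass.coe_natCast, ← map_natCast (algebraMap ℚ_[p] ℂ_[p]) p, norm_algebraMap',
    Padic.norm_p]

private theorem aoa_lt : (p : ℝ)⁻¹ < 1 :=
  inv_lt_one_of_one_lt₀ (Nat.one_lt_cast.2 (Fact.out : p.Prime).one_lt)

private theorem aoa_pos : (0 : ℝ) < (p : ℝ)⁻¹ :=
  inv_pos.2 (Nat.cast_pos.2 (Fact.out : p.Prime).pos)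

theorem oc_pdvd {y : OC p} {k : ℕ} : (p : OC p) ^ k ∣ y ↔ ‖(y : ℂ_[p])‖ ≤ ((p : ℝ) ^ k)⁻¹ := by
  rw [oc_dvd, SubmonoidClass.coe_pow, norm_pow, aoa_p, inv_pow]

instance pc_oc : PC p (OC p) := by
  refine pc_of p (fun y h => Subtype.ext (norm_le_zero_iff.1 (ge_of_tendsto'
    (tendsto_pow_atTop_nhds_zero_of_lt_one (aoa_pos (p := p)).le aoa_lt) fun k => ?_)))
    fun f h => ?_
  · rw [inv_pow]
    exact oc_pdvd.1 (h k)
  have h1 : ∀ k, dist (f k : ℂ_[p]) (f (k + 1)) ≤ 1 * ((p : ℝ)⁻¹) ^ k := fun k => by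
    rw [dist_comm, dist_eq_norm, one_mul, inv_pow]
    exact oc_pdvd.1 (h k)
  obtain ⟨y, hy⟩ := cauchySeq_tendsto_of_complete (cauchySeq_of_le_geometric _ 1 aoa_lt h1)
  have h2 : ∀ k n, (p : OC p) ^ k ∣ f (n + k) - f k := fun k n => by
    induction n with
    | zero => simp
    | succ n ih =>
      have := ((pow_dvd_pow _ (Nat.le_add_left k n)).trans (h (n + k))).add ih
      rwa [sub_add_sub_cancel, Nat.add_right_comm] at this
  refine ⟨⟨y, mem_OC.2 (le_of_tendsto' hy.norm fun k => oc_le _)⟩, fun k => oc_pdvd.2 ?_⟩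
  exact le_of_tendsto' (((tendsto_add_atTop_iff_nat k).2 hy).sub_const (f k : ℂ_[p])).norm
    fun n => oc_pdvd.1 (h2 k n)

private theorem aoa_unit {y : OC p} : IsUnit y ↔ ‖(y : ℂ_[p])‖ = 1 := by
  rw [isUnit_iff_dvd_one, oc_dvd, OneMemClass.coe_one, norm_one]
  exact ⟨fun h => le_antisymm (oc_le y) h, fun h => h.ge⟩

instance oc_p_nonunit : Fact (¬ IsUnit (p : OC p)) := ⟨fun h => by
  have := aoa_unit.1 h
  rw [aoa_p] at this
  exact aoa_lt.ne this⟩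

theorem pn_iff {y : OC p} : PN p y ↔ ‖(y : ℂ_[p])‖ < 1 := by
  have e : ∀ n, y ^ n ∈ Ideal.span {(p : OC p)} ↔ ‖(y : ℂ_[p])‖ ^ n ≤ (p : ℝ)⁻¹ := fun n => by
    rw [Ideal.mem_span_singleton, oc_dvd, aoa_p, SubmonoidClass.coe_pow, norm_pow]
  constructor
  · rintro ⟨n, hn⟩
    exact lt_of_pow_lt_pow_left₀ n zero_le_one (((e n).1 hn).trans_lt (by simpa using aoa_lt))
  · intro h
    obtain ⟨n, hn⟩ := exists_pow_lt_of_lt_one (aoa_pos (p := p)) h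
    exact ⟨n, (e n).2 hn.le⟩

theorem red_eq_zero {y : OC p} : red p y = 0 ↔ ‖(y : ℂ_[p])‖ < 1 := by
  rw [IsLocalRing.residue_eq_zero_iff, IsLocalRing.mem_maximalIdeal, mem_nonunits_iff, aoa_unit]
  exact ⟨fun h => lt_of_le_of_ne (oc_le y) h, fun h => h.ne⟩

theorem oc_unit {y : OC p} : IsUnit y ↔ ‖(y : ℂ_[p])‖ = 1 := aoa_unit

instance fb_char : CharP (RF p) p := by
  rw [CharP.charP_iff_prime_eq_zero (Fact.out : p.Prime), ← map_natCast (red p), red_eq_zero, aoa_p]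
  exact aoa_lt

instance fb_closed : IsAlgClosed (RF p) := by
  refine IsAlgClosed.of_exists_root _ fun f hf hi => ?_
  obtain ⟨g, rfl, hd, hg⟩ := Polynomial.lifts_and_degree_eq_and_monic (f := red p)
    ((Polynomial.lifts_iff_coeff_lifts f).2 fun n => IsLocalRing.residue_surjective _) hf
  obtain ⟨x, hx⟩ := IsAlgClosed.exists_aeval_eq_zero ℂ_[p] g
    (hd ▸ (Polynomial.degree_pos_of_irreducible hi).ne')
  obtain ⟨y, rfl⟩ := IsIntegrallyClosed.isIntegral_iff.1 (⟨g, hg, hx⟩ : IsIntegral (OC p) x)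
  rw [Polynomial.aeval_algebraMap_apply, map_eq_zero_iff _ Subtype.val_injective,
    Polynomial.coe_aeval_eq_eval] at hx
  exact ⟨red p y, by rw [Polynomial.eval_map, Polynomial.eval₂_hom, hx, map_zero]⟩

instance pc_fb : PC p (RF p) := pc_char p

/-- The inclusion of the `p`-adic integers. -/
private def aoa_z : ℤ_[p] →+* OC p := (UAP.zp p).codRestrict (𝓞_ℂ_[p]) fun z => mem_OC.2
  ((norm_algebraMap' ℂ_[p] (z : ℚ_[p])).trans_le z.norm_le_one)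

theorem fb_pow (x : RF p) : ∃ n : ℕ, 0 < n ∧ x ^ p ^ n = x := by
  let := ZMod.algebra (RF p) p
  obtain ⟨y, rfl⟩ := IsLocalRing.residue_surjective x
  obtain ⟨z, hz⟩ := (UniformSpace.Completion.denseRange_coe (α := PadicAlgCl p)).exists_dist_lt
    (y : ℂ_[p]) one_pos
  rw [dist_eq_norm] at hz
  have h1 : ‖(z : ℂ_[p])‖ ≤ 1 := by
    rw [← add_sub_cancel (y : ℂ_[p]) (z : ℂ_[p])]
    exact (IsUltrametricDist.norm_add_le_max _ _).trans
      (max_le (oc_le y) ((norm_sub_rev _ _).trans_le hz.le))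
  have h2 : red p y = red p ⟨z, mem_OC.2 h1⟩ := by
    rw [← sub_eq_zero, ← map_sub, red_eq_zero]
    exact hz
  have hm := minpoly.monic (Algebra.IsIntegral.isIntegral (R := ℚ_[p]) z)
  obtain ⟨g, e, -, hg⟩ := Polynomial.lifts_and_degree_eq_and_monic (p := minpoly ℚ_[p] z)
    (f := PadicInt.Coe.ringHom (p := p)) ((Polynomial.lifts_iff_coeff_lifts _).2 fun n =>
      ⟨⟨_, (spectralValue_le_one_iff hm).1 ((PadicComplex.norm_extends p z).symm.trans_le h1) n⟩,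
        rfl⟩) hm
  have h3 : g.eval₂ aoa_z ⟨z, mem_OC.2 h1⟩ = 0 := by
    refine Subtype.ext ((Polynomial.hom_eval₂ g aoa_z (ov p) _).trans ?_)
    have := congrArg (algebraMap (PadicAlgCl p) ℂ_[p]) (minpoly.aeval ℚ_[p] z)
    rw [← e, Polynomial.aeval_def, Polynomial.eval₂_map, Polynomial.hom_eval₂, map_zero] at this
    exact this
  have h4 : IsIntegral (ZMod p) (red p y) := ⟨g.map PadicInt.toZMod, hg.map _, by
    rw [Polynomial.eval₂_map, zc_unique (RingHom.comp _ _) ((red p).comp aoa_z), h2,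
      ← Polynomial.hom_eval₂, h3, map_zero]⟩
  have := IntermediateField.adjoin.finiteDimensional h4
  have : Finite (IntermediateField.adjoin (ZMod p) {red p y}) :=
    Module.finite_of_finite (ZMod p)
  let := Fintype.ofFinite (IntermediateField.adjoin (ZMod p) {red p y})
  obtain ⟨n, -, hn⟩ := FiniteField.card (IntermediateField.adjoin (ZMod p) {red p y}) p
  refine ⟨n, n.pos, ?_⟩
  rw [← hn]
  exact congrArg Subtype.val
    (FiniteField.pow_card (IntermediateField.AdjoinSimple.gen (ZMod p) (red p y)))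

theorem zc_oc (z : ℤ_[p]) : (zc p (OC p) z : ℂ_[p]) = UAP.zp p z := by
  rw [zc_unique (zc p (OC p)) aoa_z]
  rfl

/-- The restriction of an isometric map. -/
def resO (σ : ℂ_[p] →+* ℂ_[p]) (h : UAP.Iso σ) : OC p →+* OC p :=
  (σ.comp (ov p)).codRestrict (𝓞_ℂ_[p]) fun y => mem_OC.2 ((h y).le.trans (oc_le y))

theorem coe_resO (σ : ℂ_[p] →+* ℂ_[p]) (h : UAP.Iso σ) (y : OC p) :
    (resO σ h y : ℂ_[p]) = σ y := rfl

/-! Part 2. -/

variable {σ ι A : Type} [CommRing A]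

/-- A point of the open unit polydisc. -/
def Sm (y : σ → OC p) : Prop := ∀ i, ‖(y i : ℂ_[p])‖ < 1

/-- A point of the formal torus. -/
def N1 (u : ι → OC p) : Prop := ∀ i, ‖(u i : ℂ_[p]) - 1‖ < 1

theorem Sm.ev {y : σ → OC p} (h : Sm y) : Ev y := ev_pad p fun i => pn_iff.2 (h i)

theorem N1.e1 {u : ι → OC p} (h : N1 u) : E1 u := ev_pad p fun i => pn_iff.2 (h i)

theorem ao2_span {y : σ → OC p} {r : ℝ} (hr : 0 ≤ r) (h : ∀ i, ‖(y i : ℂ_[p])‖ ≤ r) {z : OC p}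
    (hz : z ∈ Ideal.span (Set.range y)) : ‖(z : ℂ_[p])‖ ≤ r := by
  induction hz using Submodule.span_induction with
  | mem x hx =>
    obtain ⟨i, rfl⟩ := hx
    exact h i
  | zero => exact norm_zero.trans_le hr
  | add a b _ _ ha hb =>
    exact (IsUltrametricDist.norm_add_le_max (a : ℂ_[p]) b).trans (max_le ha hb)
  | smul a b _ hb =>
    exact (norm_mul (a : ℂ_[p]) b).trans_le
      ((mul_le_of_le_one_left (norm_nonneg _) (oc_le a)).trans hb)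

theorem ao2_one {a : ℂ_[p]} (h : ‖a - 1‖ < 1) : ‖a‖ = 1 := by
  rw [← sub_add_cancel a 1, IsUltrametricDist.norm_add_eq_max_of_norm_ne_norm
    (by rw [norm_one]; exact h.ne), norm_one]
  exact max_eq_right h.le

theorem ao2_mul {a b : ℂ_[p]} (ha : ‖a - 1‖ < 1) (hb : ‖b - 1‖ < 1) : ‖a * b - 1‖ < 1 :=
  bg_lt (b := a) (by rwa [← mul_sub_one, norm_mul, ao2_one ha, one_mul]) ha

theorem ao2_pow {a : ℂ_[p]} (ha : ‖a - 1‖ < 1) (n : ℕ) : ‖a ^ n - 1‖ < 1 := by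
  simpa only [one_pow] using bg_pow (ao2_one ha).le ha n

theorem ao2_prod {u : ι → OC p} (s : Finset ι) (h : ∀ i ∈ s, ‖(u i : ℂ_[p]) - 1‖ < 1) :
    ‖((∏ i ∈ s, u i : OC p) : ℂ_[p]) - 1‖ < 1 ∧
      lg p ((∏ i ∈ s, u i : OC p) : ℂ_[p]) = ∑ i ∈ s, lg p (u i : ℂ_[p]) := by
  induction s using Finset.cons_induction with
  | empty => simp [lg_one]
  | cons a s ha ih =>
    obtain ⟨h1, h2⟩ := ih fun i hi => h i (Finset.mem_cons_of_mem hi)
    have h3 := h a (Finset.mem_cons_self a s)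
    rw [Finset.prod_cons, Finset.sum_cons, MulMemClass.coe_mul, lg_mul h3 h1, h2]
    exact ⟨ao2_mul h3 h1, rfl⟩

theorem ao2_sq (p : ℕ) [Fact p.Prime] : ((p : ℝ) ^ 2)⁻¹ < 1 := by
  rw [← inv_pow]
  exact pow_lt_one₀ (plg_lt p).1.le (plg_lt p).2 two_ne_zero

theorem ao2_near {a : ℂ_[p]} (h : ‖a - 1‖ ≤ ((p : ℝ) ^ 2)⁻¹) :
    ‖lg p a - (a - 1)‖ ≤ (p : ℝ)⁻¹ * ‖a - 1‖ := by
  have h0 : (0 : ℝ) < p := Nat.cast_pos.2 (Fact.out : p.Prime).pos
  refine (lg_near h).trans ?_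
  rw [sq, ← mul_assoc]
  refine mul_le_mul_of_nonneg_right ((mul_le_mul_of_nonneg_left h h0.le).trans_eq ?_)
    (norm_nonneg _)
  rw [sq, mul_inv, mul_inv_cancel_left₀ h0.ne']

theorem ao2_lg {a : ℂ_[p]} (h : ‖a - 1‖ ≤ ((p : ℝ) ^ 2)⁻¹) : ‖lg p a‖ ≤ 2 * ‖a - 1‖ := by
  have h1 := (ao2_near h).trans (mul_le_of_le_one_left (norm_nonneg _) (plg_lt p).2.le)
  linarith [norm_le_norm_sub_add (lg p a) (a - 1)]

theorem ao2_ker {a : ℂ_[p]} (h : ‖a - 1‖ ≤ ((p : ℝ) ^ 2)⁻¹) (h0 : lg p a = 0) : a = 1 := by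
  have h1 := ao2_near h
  rw [h0, zero_sub, norm_neg] at h1
  by_contra h2
  exact h1.not_gt (mul_lt_of_lt_one_left (norm_pos_iff.2 (sub_ne_zero.2 h2)) (plg_lt p).2)

theorem ao2_fin (p : ℕ) [Fact p.Prime] {ρ : ℝ} (hρ : ρ < 1) : ∃ k : ℕ, ∀ (ζ : ℂ_[p]) (j : ℕ),
    ζ ^ p ^ j = 1 → ‖ζ - 1‖ ≤ ρ → ζ ^ p ^ k = 1 := by
  obtain ⟨h0, h1⟩ := plg_lt p
  obtain ⟨B, hB⟩ := ppow_bound p hρ
  have t := (tendsto_pow_atTop_nhds_zero_of_lt_one h0.le h1).const_mul B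
  rw [mul_zero] at t
  obtain ⟨k, hk⟩ := (t.eventually (ge_mem_nhds (pow_pos h0 2))).exists
  rw [inv_pow, inv_pow] at hk
  refine ⟨k, fun ζ j h h' => ao2_ker ((hB _ ζ h' k).trans hk) ?_⟩
  rw [lg_pow (h'.trans_lt hρ), lg_root (h'.trans_lt hρ) (pow_pos (Fact.out : p.Prime).pos j) h,
    mul_zero]

theorem ao2_zpw {u : OC p} (h : ‖(u : ℂ_[p]) - 1‖ < 1) (z : ℤ_[p]) :
    ‖((zpw u z : OC p) : ℂ_[p]) - 1‖ ≤ ‖(u : ℂ_[p]) - 1‖ :=
  oc_dvd.1 (Ideal.mem_span_singleton.1 (zpw_sub_one (N1.e1 fun _ => h) z))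

theorem span_pow_norm {y : σ → OC p} {r : ℝ} (hr : 0 ≤ r) (h : ∀ i, ‖(y i : ℂ_[p])‖ ≤ r) {N : ℕ}
    {z : OC p} (hz : z ∈ Ideal.span (Set.range y) ^ N) : ‖(z : ℂ_[p])‖ ≤ r ^ N := by
  induction N generalizing z with
  | zero => exact (oc_le z).trans_eq (pow_zero r).symm
  | succ N ih =>
    rw [pow_succ] at hz
    refine Submodule.mul_induction_on hz (fun a ha b hb => ?_) fun a b ha hb => ?_
    · rw [MulMemClass.coe_mul, norm_mul, pow_succ]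
      exact mul_le_mul (ih ha) (ao2_span hr h hb) (norm_nonneg _) (pow_nonneg hr N)
    · exact (IsUltrametricDist.norm_add_le_max (a : ℂ_[p]) b).trans (max_le ha hb)

theorem N1.mul {u v : ι → OC p} (hu : N1 u) (hv : N1 v) : N1 (u * v) := fun i => ao2_mul (hu i) (hv i)

theorem N1.e2 {κ : Type} {u : ι → OC p} {v : κ → OC p} (hu : N1 u) (hv : N1 v) :
    E1 (Sum.elim u v) := N1.e1 (u := Sum.elim u v) fun i => Sum.rec hu hv i

theorem N1.res {u : ι → OC p} (hu : N1 u) {s : ℂ_[p] →+* ℂ_[p]} (h : UAP.Iso s) :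
    N1 fun i => resO s h (u i) := fun i => by
  rw [coe_resO, ← map_one s, ← map_sub, h]
  exact hu i

theorem lg_zpw {u : OC p} (h : ‖(u : ℂ_[p]) - 1‖ < 1) (z : ℤ_[p]) :
    lg p ((zpw u z : OC p) : ℂ_[p]) = UAP.zp p z * lg p (u : ℂ_[p]) := by
  obtain ⟨h0, h1⟩ := plg_lt p
  have e1 : E1 fun _ : Unit => u := N1.e1 fun _ => h
  have t1 : Tendsto (fun k : ℕ => ‖(u : ℂ_[p]) ^ p ^ k - 1‖) atTop (𝓝 0) :=
    tendsto_iff_norm_sub_tendsto_zero.1 (tendsto_ppow p h)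
  have t2 := (t1.const_mul 2).add
    ((tendsto_pow_atTop_nhds_zero_of_lt_one h0.le h1).mul_const ‖lg p (u : ℂ_[p])‖)
  rw [mul_zero, zero_mul, add_zero] at t2
  refine sub_eq_zero.1 (norm_le_zero_iff.1 (ge_of_tendsto t2 ?_))
  filter_upwards [t1.eventually (ge_mem_nhds (show 0 < ((p : ℝ) ^ 2)⁻¹ by
    rw [← inv_pow]
    positivity))] with k hk
  obtain ⟨y, hy⟩ := Ideal.mem_span_singleton.1 (PadicInt.appr_spec k z)
  have h2 : ‖((u ^ p ^ k : OC p) : ℂ_[p]) - 1‖ < 1 := (ao2_pow h (p ^ k))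
  have h3 := ao2_zpw h2 y
  have e2 : zpw u z = u ^ z.appr k * zpw (u ^ p ^ k) y := by
    rw [← zpw_nat (p := p) e1 (p ^ k), zpw_zpw e1, ← zpw_nat (p := p) e1, ← zpw_add e1,
      Nat.cast_pow, ← hy, add_sub_cancel]
  have e3 : UAP.zp p z = z.appr k + (p : ℂ_[p]) ^ k * UAP.zp p y := by
    rw [eq_add_of_sub_eq' hy, map_add, map_mul, map_pow, map_natCast, map_natCast,
      ← eq_add_of_sub_eq' hy]
  rw [e2, MulMemClass.coe_mul, SubmonoidClass.coe_pow, lg_mul (ao2_pow h _) (h3.trans_lt h2),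
    lg_pow h, e3, add_mul, add_sub_add_left_eq_sub]
  refine (norm_sub_le _ _).trans (add_le_add ((ao2_lg (h3.trans hk)).trans
    (mul_le_mul_of_nonneg_left h3 zero_le_two)) ?_)
  rw [norm_mul, norm_mul, norm_pow, UAP.norm_p_eq, zp_norm]
  exact mul_le_mul_of_nonneg_right (mul_le_of_le_one_right (pow_nonneg h0.le k) y.norm_le_one)
    (norm_nonneg _)

/-- The logarithm of a point. -/
def lgo (u : ι → OC p) : ι → ℂ_[p] := fun i => lg p (u i : ℂ_[p])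

variable [Fintype ι] {κ : Type} [Fintype κ]

theorem norm_mpw {u : ι → OC p} (h : N1 u) {r : ℝ} (hr : 0 ≤ r)
    (h' : ∀ i, ‖(u i : ℂ_[p]) - 1‖ ≤ r) (M : Matrix κ ι ℤ_[p]) (i : κ) :
    ‖((mpw u M i : OC p) : ℂ_[p]) - 1‖ ≤ r :=
  ao2_span (y := fun l => u l - 1) hr h' (mpw_sub_one h.e1 M i)

theorem N1.mpw {u : ι → OC p} (h : N1 u) (M : Matrix κ ι ℤ_[p]) : N1 (mpw u M) := fun i =>
  (ao2_prod Finset.univ fun l _ => (ao2_zpw (h l) (M i l)).trans_lt (h l)).1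

theorem lgo_mpw {u : ι → OC p} (h : N1 u) (M : Matrix κ ι ℤ_[p]) :
    lgo (mpw u M) = (M.map (UAP.zp p)).mulVec (lgo u) := funext fun i =>
  (ao2_prod Finset.univ fun l _ => (ao2_zpw (h l) (M i l)).trans_lt (h l)).2.trans
    (Finset.sum_congr rfl fun l _ => lg_zpw (h l) (M i l))

/-- The point of a family of units. -/
def uo (u : ι → ℂ_[p]ˣ) : ι → OC p := fun i => toO (u i)

theorem Nr.coe_uo {u : ι → ℂ_[p]ˣ} (h : Nr u) (i : ι) : (uo u i : ℂ_[p]) = u i :=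
  coe_toO (ao2_one (h i)).le

theorem Nr.n1 {u : ι → ℂ_[p]ˣ} (h : Nr u) : N1 (uo u) := fun i => by
  rw [h.coe_uo]
  exact h i

theorem N1.exists_nr {u : ι → OC p} (h : N1 u) : ∃ v : ι → ℂ_[p]ˣ, Nr v ∧ uo v = u :=
  ⟨fun i => Units.mk0 (u i) (norm_ne_zero_iff.1 ((ao2_one (h i)).trans_ne one_ne_zero)), h,
    funext fun i => toO_coe (u i)⟩

theorem Nr.lgo {u : ι → ℂ_[p]ˣ} (h : Nr u) : lgo (uo u) = lgv p u :=
  funext fun i => congrArg (lg p) (h.coe_uo i)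

/-- The kernel of the logarithm is torsion, and trivial near one. -/
theorem lg_eq_zero {a : ℂ_[p]} (h : ‖a - 1‖ < 1) (h0 : lg p a = 0) : ∃ j : ℕ, a ^ p ^ j = 1 := by
  obtain ⟨j, hj⟩ := ((tendsto_iff_norm_sub_tendsto_zero.1 (tendsto_ppow p h)).eventually
    (ge_mem_nhds (show 0 < ((p : ℝ) ^ 2)⁻¹ by
      rw [← inv_pow]
      exact pow_pos (plg_lt p).1 2))).exists
  exact ⟨j, ao2_ker hj (by rw [lg_pow h, h0, mul_zero])⟩

theorem lg_inj {a b : ℂ_[p]} (ha : ‖a - 1‖ ≤ ((p : ℝ) ^ 2)⁻¹) (hb : ‖b - 1‖ ≤ ((p : ℝ) ^ 2)⁻¹)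
    (h : lg p a = lg p b) : a = b := by
  have h1 := hb.trans_lt (ao2_sq p)
  have h2 := ao2_one h1
  have h3 : b ≠ 0 := norm_ne_zero_iff.1 (h2.trans_ne one_ne_zero)
  have h4 : ‖a / b - 1‖ ≤ ((p : ℝ) ^ 2)⁻¹ := by
    rw [div_sub_one h3, norm_div, h2, div_one, ← sub_add_sub_cancel a 1 b]
    exact (IsUltrametricDist.norm_add_le_max _ _).trans (max_le ha (by rwa [norm_sub_rev]))
  have h5 := lg_mul (p := p) (h4.trans_lt (ao2_sq p)) h1
  rw [div_mul_cancel₀ a h3, h, right_eq_add] at h5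
  exact (div_eq_one_iff_eq h3).1 (ao2_ker h4 h5)

/-- There is room between the torsion points. -/
theorem exists_gap (p : ℕ) [Fact p.Prime] {m : ℕ} (hm : 0 < m) : ∃ w : OC p,
    (p : ℝ)⁻¹ < ‖(w : ℂ_[p])‖ ^ m ∧ ‖(w : ℂ_[p])‖ < 1 ∧
      ∀ (ζ : ℂ_[p]) (j : ℕ), ζ ^ p ^ j = 1 → ‖ζ - 1‖ ≠ ‖(w : ℂ_[p])‖ ^ m := by
  obtain ⟨h0, h1⟩ := plg_lt p
  choose w hw using fun n : ℕ => IsAlgClosed.exists_pow_nat_eq ((p : ℂ_[p]) ^ (n + 1))
    (Nat.mul_pos hm (n.succ.succ_pos))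
  have h2 : ∀ n, (‖w n‖ ^ m) ^ (n + 2) = (p : ℝ)⁻¹ ^ (n + 1) := fun n => by
    rw [← pow_mul, ← norm_pow, hw, norm_pow, UAP.norm_p_eq]
  have h3 : ∀ n, (p : ℝ)⁻¹ < ‖w n‖ ^ m := fun n =>
    lt_of_pow_lt_pow_left₀ (n + 2) (by positivity) (by
      rw [h2]
      exact pow_lt_pow_right_of_lt_one₀ h0 h1 (Nat.lt_succ_self _))
  have h4 : ∀ n, ‖w n‖ ^ m ≤ (1 + (p : ℝ)⁻¹) / 2 := fun n => by
    have h5 : (‖w n‖ ^ m) ^ 2 ≤ (p : ℝ)⁻¹ := by
      refine le_of_pow_le_pow_left₀ (n := n + 2) (by omega) h0.le ?_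
      rw [← pow_mul, mul_comm, pow_mul, h2, ← pow_mul]
      exact pow_le_pow_of_le_one h0.le h1.le (by omega)
    nlinarith [sq_nonneg (‖w n‖ ^ m - 1)]
  have h5 : (1 + (p : ℝ)⁻¹) / 2 < 1 := by linarith
  have h6 : ∀ n, ‖w n‖ < 1 := fun n =>
    (pow_lt_one_iff_of_nonneg (norm_nonneg _) hm.ne').1 ((h4 n).trans_lt h5)
  obtain ⟨k, hk⟩ := ao2_fin p h5
  by_contra hc
  push Not at hc
  choose ζ j hζ hn using fun n => hc ⟨w n, mem_OC.2 (h6 n).le⟩ (h3 n) (h6 n)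
  obtain ⟨a, b, hab, e⟩ := Set.Finite.exists_lt_map_eq_of_forall_mem (f := ζ)
    (fun n => Finset.mem_coe.2 ((Polynomial.mem_nthRootsFinset
      (pow_pos (Fact.out : p.Prime).pos k) 1).2 (hk _ _ (hζ n) ((hn n).trans_le (h4 n)))))
    (Finset.finite_toSet _)
  have h7 : ‖w a‖ ^ m = ‖w b‖ ^ m := (hn a).symm.trans (e ▸ hn b)
  obtain ⟨d, rfl⟩ := Nat.exists_eq_add_of_lt hab
  have h8 := h2 (a + d + 1)
  rw [← h7, show a + d + 1 + 2 = a + 2 + (d + 1) by ring, pow_add, h2,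
    show a + d + 1 + 1 = a + 1 + (d + 1) by ring, pow_add _ (a + 1) (d + 1)] at h8
  exact (pow_lt_pow_left₀ (h3 a) h0.le d.succ_ne_zero).ne'
    (mul_left_cancel₀ (pow_pos h0 _).ne' h8)

end Pool.Agent.E7
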