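import Pool.Agent.Lib.MP_7e5527_ag.EA.AF

/-! Taylor maps, uniqueness for differential systems, inverse functions. -/

open MvPowerSeries

noncomputable section

namespace Pool.Agent.E7

variable {σ τ A A' S : Type} [CommRing A] [CommRing A'] [CommRing S] [Finite σ] [Finite τ]

/-! Part 1. -/

omit [Finite σ] in
theorem at1_ex {ν : σ →₀ ℕ} (h : ν ≠ 0) : ∃ μ i, ν = μ + Finsupp.single i 1 := by
  obtain ⟨i, hi⟩ := Finsupp.ne_iff.1 h
  exact ⟨ν - Finsupp.single i 1, i, (tsub_add_cancel_of_le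
    (Finsupp.single_le_iff.2 (Nat.one_le_iff_ne_zero.2 hi))).symm⟩

omit [Finite σ] in
theorem at1_ind {P : (σ →₀ ℕ) → Prop} (h0 : P 0) (h : ∀ μ i, P μ → P (μ + Finsupp.single i 1))
    (ν : σ →₀ ℕ) : P ν := by
  induction hn : ν.degree generalizing ν with
  | zero => rwa [(Finsupp.degree_eq_zero_iff ν).1 hn]
  | succ n ih =>
    obtain ⟨μ, i, rfl⟩ := at1_ex (ν := ν) (by rintro rfl; simp at hn)
    exact h μ i (ih μ (by simpa using hn))

omit [Finite σ] in
theorem at1_fold {M : Type} {d : σ → M → M} (hd : ∀ i j a, d i (d j a) = d j (d i a))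
    (μ : σ →₀ ℕ) (i : σ) (a : M) : (μ + Finsupp.single i 1).toMultiset.toList.foldr d a =
      μ.toMultiset.toList.foldr d (d i a) := by
  have h : (μ + Finsupp.single i 1).toMultiset.toList.Perm (μ.toMultiset.toList ++ [i]) := by
    rw [← Multiset.coe_eq_coe, ← Multiset.coe_add]
    simp
  rw [h.foldr_eq' fun x _ y _ z => hd y x z, List.foldr_append]
  rfl

omit [Finite σ] in
theorem at1_fact [Fintype σ] (μ : σ →₀ ℕ) (i : σ) :
    ∏ l, ((μ + Finsupp.single i 1 : σ →₀ ℕ) l).factorial = (∏ l, (μ l).factorial) * (μ i + 1) := by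
  classical
  rw [Fintype.prod_eq_mul_prod_compl i, Fintype.prod_eq_mul_prod_compl i, mul_right_comm,
    Finsupp.add_apply, Finsupp.single_eq_same, Nat.factorial_succ, mul_comm (μ i + 1)]
  congr 1
  refine Finset.prod_congr rfl fun l hl => ?_
  rw [Finsupp.add_apply, Finsupp.single_eq_of_ne (by simpa using hl), add_zero]

/-- A family without constant terms that generates a differential ideal vanishes. -/
theorem odeu [IsAddTorsionFree A] {α : Type} (u : α → PS σ A) (h0 : C0 u)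
    (h : ∀ i a, pderiv A i (u a) ∈ Ideal.span (Set.range u)) (a : α) : u a = 0 := by
  have key : ∀ N a, u a ∈ Ideal.span (Set.range (X : σ → PS σ A)) ^ N := by
    intro N
    induction N with
    | zero => simp
    | succ N ih =>
      refine fun a => mem_X_pow.2 fun ν hν => ?_
      by_cases h1 : ν = 0
      · rw [h1, coeff_zero_eq_constantCoeff_apply, h0 a]
      obtain ⟨μ, i, rfl⟩ := at1_ex h1
      have h2 := mem_X_pow.1 (Ideal.span_le.2 (Set.range_subset_iff.2 ih) (h i a)) μ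
        (by simpa using hν)
      rw [coeff_pderiv, ← Nat.cast_succ, mul_comm, ← nsmul_eq_mul] at h2
      exact (nsmul_eq_zero_iff_right (Nat.succ_ne_zero _)).1 h2
  ext ν
  exact mem_X_pow.1 (key (ν.degree + 1) a) ν (Nat.lt_succ_self _)

theorem ps_const [IsAddTorsionFree A] {f : PS σ A} (h : ∀ i, pderiv A i f = 0) :
    f = C (constantCoeff f) :=
  pderiv.ext (fun i => by rw [h i, pderiv_C]) (constantCoeff_C _).symm

/-- The coefficients through iterated derivatives. -/
theorem coeff_eq_foldr [Fintype σ] {k : Type} [Field k] [CharZero k] (f : PS σ k) (ν : σ →₀ ℕ) :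
    coeff ν f = (∏ l, ((ν l).factorial : k))⁻¹ *
      constantCoeff (ν.toMultiset.toList.foldr (fun l g => pderiv k l g) f) := by
  induction ν using at1_ind generalizing f with
  | h0 => simp
  | h μ i ih =>
    have h1 := ih (pderiv k i f)
    have h2 : ((μ i : k) + 1) ≠ 0 := Nat.cast_add_one_ne_zero _
    rw [coeff_pderiv, ← eq_mul_inv_iff_mul_eq₀ h2] at h1
    rw [at1_fold (d := fun l g => pderiv k l g) pderiv_comm', h1, ← Nat.cast_prod, ← Nat.cast_prod,
      at1_fact]
    push_cast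
    rw [mul_inv, mul_right_comm]

/-- The Taylor map of commuting derivations. -/
theorem exists_tay {k : Type} [CommRing k] [Algebra k A] [Algebra ℚ A] (d : σ → Derivation k A A)
    (hd : ∀ i j a, d i (d j a) = d j (d i a)) : ∃ θ : A →+* PS σ A,
      (∀ a, constantCoeff (θ a) = a) ∧ ∀ i a, pderiv A i (θ a) = θ (d i a) := by
  let _ := Fintype.ofFinite σ
  have : IsAddTorsionFree A := .of_module_rat A
  obtain ⟨T, hT⟩ : ∃ T : A → PS σ A, ∀ a ν, coeff ν (T a) =
      ((∏ l, (ν l).factorial : ℕ) : ℚ)⁻¹ • ν.toMultiset.toList.foldr (fun l b => d l b) a :=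
    ⟨fun a ν => _, fun _ _ => rfl⟩
  have h0 : ∀ a, constantCoeff (T a) = a := fun a => by
    rw [← coeff_zero_eq_constantCoeff_apply, hT]
    simp
  have h1 : ∀ i a, pderiv A i (T a) = T (d i a) := fun i a => by
    ext μ
    have h2 : ((μ i + 1 : ℕ) : ℚ) ≠ 0 := Nat.cast_ne_zero.2 (Nat.succ_ne_zero _)
    rw [coeff_pderiv, hT, hT, at1_fold (d := fun l b => d l b) hd, at1_fact, ← Nat.cast_succ,
      mul_comm _ ((μ i).succ : A), ← nsmul_eq_mul, ← Nat.cast_smul_eq_nsmul ℚ, smul_smul,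
      Nat.cast_mul, mul_inv, mul_left_comm, mul_inv_cancel₀ h2, mul_one]
  have h3 : ∀ a b, T (a + b) = T a + T b := fun a b => sub_eq_zero.1
    (odeu (fun y : A × A => T (y.1 + y.2) - (T y.1 + T y.2)) (fun y => by simp [h0])
      (fun i y => Ideal.subset_span ⟨(d i y.1, d i y.2), by simp [h1]⟩) (a, b))
  have h4 : T 0 = 0 := by simpa using h3 0 0
  have h5 : T 1 = 1 := by rw [ps_const (f := T 1) fun i => by simp [h1, h4], h0, map_one]
  have h6 : ∀ a b, T (a * b) = T a * T b := fun a b => sub_eq_zero.1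
    (odeu (fun y : A × A => T (y.1 * y.2) - T y.1 * T y.2) (fun y => by simp [h0])
      (fun i y => by
        have h7 := Ideal.add_mem _
          (Ideal.subset_span (s := Set.range fun y : A × A => T (y.1 * y.2) - T y.1 * T y.2)
            ⟨(y.1, d i y.2), rfl⟩) (Ideal.subset_span ⟨(y.2, d i y.1), rfl⟩)
        simp only [map_sub, Derivation.leibniz, h1, h3, smul_eq_mul]
        rwa [sub_add_sub_comm] at h7) (a, b))
  exact ⟨⟨⟨⟨T, h5⟩, h6⟩, h4, h3⟩, h0, h1⟩

/-- A derivation acting on the coefficients. -/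
theorem exists_cder {k : Type} [CommRing k] [Algebra k A] (D : Derivation k A A) (σ : Type) :
    ∃ D' : Derivation k (PS σ A) (PS σ A), ∀ f ν, coeff ν (D' f) = D (coeff ν f) := by
  classical
  obtain ⟨T, hT⟩ : ∃ T : PS σ A → PS σ A, ∀ f ν, coeff ν (T f) = D (coeff ν f) :=
    ⟨fun f ν => D (coeff ν f), fun _ _ => rfl⟩
  refine ⟨Derivation.mk' ⟨⟨T, fun f g => ?_⟩, fun c f => ?_⟩ fun f g => ?_, hT⟩
  · ext ν
    simp [hT]
  · ext ν
    simp [hT, LinearMap.map_smul_of_tower]
  · ext ν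
    change coeff ν (T (f * g)) = coeff ν (f * T g + g * T f)
    rw [mul_comm g]
    simp only [hT, map_add, coeff_mul, map_sum, Derivation.leibniz, smul_eq_mul,
      Finset.sum_add_distrib, mul_comm (D _)]

/-! Part 2. -/

/-- The Jacobian matrix. -/
def jacS (x : τ → PS σ A) : Matrix τ σ (PS σ A) := Matrix.of fun j l => pderiv A l (x j)

variable [Fintype σ] [DecidableEq σ]

theorem isUnit_det_ps {n : Type} [Fintype n] [DecidableEq n] {M : Matrix n n (PS τ A)} :
    IsUnit M.det ↔ IsUnit (M.map constantCoeff).det := by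
  rw [isUnit_iff_constantCoeff, RingHom.map_det, RingHom.mapMatrix_apply]

theorem at2_mem {f : PS σ A} :
    f ∈ Ideal.span (Set.range (X : σ → PS σ A)) ↔ constantCoeff f = 0 := by
  rw [← pow_one (Ideal.span _), mem_X_pow]
  simp [Finsupp.degree_eq_zero_iff]

theorem at2_lip {b b' : σ → PS σ A} (h : C0 b) (h' : C0 b') {n : ℕ}
    (e : ∀ i, b i - b' i ∈ Ideal.span (Set.range (X : σ → PS σ A)) ^ n) (f : PS σ A) :
    sb b f - sb b' f ∈ Ideal.span (Set.range (X : σ → PS σ A)) ^ n := by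
  let π := Ideal.Quotient.mk (Ideal.span (Set.range (X : σ → PS σ A)) ^ n)
  have h1 : Ev fun i => π (b i) := ev_nil fun i => ⟨n, by
    rw [← map_pow]
    exact Ideal.Quotient.eq_zero_iff_mem.2 (Ideal.pow_mem_pow (at2_mem.2 (h i)) n)⟩
  exact Ideal.Quotient.eq.1 (DFunLike.congr_fun (h1.ext (α := π.comp (sb b)) (β := π.comp (sb b'))
    (fun a => congrArg π ((evx_C h.ev a).trans (evx_C h'.ev a).symm))
    (fun i => congrArg π (evx_X h.ev i))
    fun i => (congrArg π (evx_X h'.ev i)).trans (Ideal.Quotient.eq.2 (e i)).symm) f)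

theorem at2_con {b b' : σ → PS σ A} (h : C0 b) (h' : C0 b') {n : ℕ}
    (e : ∀ i, b i - b' i ∈ Ideal.span (Set.range (X : σ → PS σ A)) ^ n) {f g : PS σ A}
    (hf : constantCoeff f = 0) (hg : constantCoeff g = 0) :
    sb b (f * g) - sb b' (f * g) ∈ Ideal.span (Set.range (X : σ → PS σ A)) ^ (n + 1) := by
  rw [map_mul, map_mul, pow_succ, show sb b f * sb b g - sb b' f * sb b' g =
    (sb b f - sb b' f) * sb b g + (sb b g - sb b' g) * sb b' f by ring]
  exact add_mem (Ideal.mul_mem_mul (at2_lip h h' e f) (at2_mem.2 ((const_sb h g).trans hg)))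
    (Ideal.mul_mem_mul (at2_lip h h' e g) (at2_mem.2 ((const_sb h' f).trans hf)))

theorem at2_right {x : σ → PS σ A} (h0 : C0 x) (hJ : IsUnit (jacS x).det) :
    ∃ β : σ → PS σ A, C0 β ∧ ∀ j, sb β (x j) = X j := by
  choose c hc using fun j => Ideal.mem_span_range_iff_exists_fun.1 (at2_mem.2 (h0 j))
  have hM : (jacS x).map constantCoeff = Matrix.of fun j l => constantCoeff (c j l) := by
    ext j l
    simp [jacS, ← hc j, pderiv_X, Pi.single_apply, apply_ite]
  rw [isUnit_det_ps, hM] at hJ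
  obtain ⟨N, hN⟩ := ((Matrix.isUnit_iff_isUnit_det _).2 hJ).exists_right_inv
  let T : (σ → PS σ A) → σ → PS σ A := fun b i =>
    ∑ j, C (N i j) * (X j - ∑ l, sb b ((c j l - C (constantCoeff (c j l))) * X l))
  have h1 : ∀ b, C0 b → C0 (T b) := fun b hb i => by
    simp only [T, map_sum, map_mul constantCoeff, map_sub constantCoeff, const_sb hb]
    simp
  have h2 : ∀ b b' n, C0 b → C0 b' →
      (∀ i, b i - b' i ∈ Ideal.span (Set.range (X : σ → PS σ A)) ^ n) →
      ∀ i, T b i - T b' i ∈ Ideal.span (Set.range (X : σ → PS σ A)) ^ (n + 1) := by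
    intro b b' n hb hb' e i
    simp only [T, ← Finset.sum_sub_distrib, ← mul_sub, sub_sub_sub_cancel_left]
    exact Ideal.sum_mem _ fun j _ => Ideal.mul_mem_left _ _ (Ideal.sum_mem _ fun l _ =>
      at2_con hb' hb (fun i => by simpa using neg_mem (e i)) (by simp) (by simp))
  have h3 : ∀ n, C0 (T^[n] 0) := fun n => by
    induction n with
    | zero => exact fun _ => map_zero _
    | succ n ih => exact Function.iterate_succ_apply' T n 0 ▸ h1 _ ih
  have h4 : ∀ m n, m ≤ n → ∀ i,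
      T^[m] 0 i - T^[n] 0 i ∈ Ideal.span (Set.range (X : σ → PS σ A)) ^ m := fun m => by
    induction m with
    | zero => simp
    | succ m ih =>
      intro n hn
      obtain ⟨n, rfl⟩ := Nat.exists_eq_add_one_of_ne_zero (Nat.ne_zero_of_lt hn)
      rw [Function.iterate_succ_apply', Function.iterate_succ_apply']
      exact h2 _ _ _ (h3 m) (h3 n) (ih n (Nat.le_of_succ_le_succ hn))
  choose β hβ using fun i => IsPrecomplete.prec' (I := Ideal.span (Set.range (X : σ → PS σ A)))
    (fun n => T^[n] 0 i) fun {m n} h => by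
      rw [SModEq.sub_mem, smul_eq_mul, Ideal.mul_top]
      exact h4 m n h i
  simp only [SModEq.sub_mem, smul_eq_mul, Ideal.mul_top] at hβ
  have h5 : C0 β := fun i => by
    have h6 := hβ i 1
    rwa [pow_one, at2_mem, map_sub, h3 1 i, zero_sub, neg_eq_zero] at h6
  have h6 : ∀ i, T β i = β i := fun i => sub_eq_zero.1 (c0_X.ev.sep fun n => by
    have h7 := h2 _ _ n (h3 n) h5 (fun i => hβ i n) i
    rw [← Function.iterate_succ_apply' T] at h7
    simpa using Ideal.pow_le_pow_right n.le_succ (sub_mem (hβ i (n + 1)) h7))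
  refine ⟨β, h5, fun j => ?_⟩
  have h7 : ∑ l, C (constantCoeff (c j l)) * T β l =
      X j - ∑ l, sb β ((c j l - C (constantCoeff (c j l))) * X l) := by
    have h8 : ∀ k, ∑ l, constantCoeff (c j l) * N l k = if j = k then 1 else 0 := fun k =>
      (congrFun (congrFun hN j) k).trans (Matrix.one_apply ..)
    simp only [T, Finset.mul_sum, ← mul_assoc, ← map_mul C]
    rw [Finset.sum_comm]
    simp only [← Finset.sum_mul, ← map_sum C, h8]
    simp [apply_ite]
  rw [eq_sub_iff_add_eq, ← Finset.sum_add_distrib] at h7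
  rw [← h7, ← hc j, map_sum]
  refine Finset.sum_congr rfl fun l _ => ?_
  rw [h6, map_mul, map_mul, map_sub, evx_C h5.ev, evx_X h5.ev]
  ring

/-- The inverse function. -/
theorem exists_inv {x : σ → PS σ A} (h0 : C0 x) (hJ : IsUnit (jacS x).det) :
    ∃ β : σ → PS σ A, C0 β ∧ (∀ j, sb β (x j) = X j) ∧ ∀ j, sb x (β j) = X j := by
  obtain ⟨β, h1, h2⟩ := at2_right h0 hJ
  have h3 : (jacS x).map (sb β) * jacS β = 1 := by
    ext1 j l
    rw [Matrix.one_apply, ← Pi.single_apply, ← pderiv_X, ← h2, pderiv_sb h1]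
    rfl
  obtain ⟨γ, h4, h5⟩ := at2_right h1 (Matrix.isUnit_det_of_left_inverse h3)
  obtain rfl : γ = x := funext fun j => by
    have h6 := evx_sb (φ := C) h4.ev h1.ev (h4.ev.evx h1) (x j)
    rwa [h2, evx_X h4.ev, funext h5, sb_X] at h6
  exact ⟨β, h1, h2, h5⟩

theorem at2_inv {x : σ → PS σ A} (hJ : IsUnit (jacS x).det) : ∃ x' β : σ → PS σ A, C0 x' ∧ C0 β ∧
    (∀ j, x' j = x j - C (constantCoeff (x j))) ∧ (∀ j, sb β (x' j) = X j) ∧
      ∀ j, sb x' (β j) = X j := by
  have h0 : C0 fun j => x j - C (constantCoeff (x j)) := fun j => by simp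
  obtain ⟨β, h1, h2⟩ := exists_inv h0 (by simpa [jacS] using hJ)
  exact ⟨_, β, h0, h1, fun _ => rfl, h2⟩

theorem at2_eq {x : σ → PS σ A} (hJ : IsUnit (jacS x).det) : ∃ β : σ → PS σ A, C0 β ∧
    ∀ (S : Type) [CommRing S] (φ : A →+* S) (y : σ → S), Ev y →
      ∀ i, y i = evx φ (fun j => evx φ y (x j) - φ (constantCoeff (x j))) (β i) := by
  obtain ⟨x', β, h0, h1, h2, -, h3⟩ := at2_inv hJ
  refine ⟨β, h1, fun S _ φ y hy i => ?_⟩
  have h4 := evx_sb (φ := φ) hy h0.ev (hy.evx h0) (β i)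
  simpa only [h3, h2, map_sub, evx_X hy, evx_C hy] using h4

theorem evx_inj {x : σ → PS σ A} (hJ : IsUnit (jacS x).det) {φ : A →+* S} {y y' : σ → S}
    (h : Ev y) (h' : Ev y') (e : ∀ j, evx φ y (x j) = evx φ y' (x j)) : y = y' := by
  obtain ⟨β, -, h1⟩ := at2_eq hJ
  funext i
  rw [h1 S φ y h i, h1 S φ y' h' i]
  simp only [e]

theorem evx_surj {x : σ → PS σ A} (hJ : IsUnit (jacS x).det) (φ : A →+* S) {z : σ → S}
    (h : Ev fun j => z j - φ (constantCoeff (x j))) : ∃ y : σ → S, Ev y ∧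
      (∀ j, evx φ y (x j) = z j) ∧
      ∀ i, y i ∈ Ideal.span (Set.range fun j => z j - φ (constantCoeff (x j))) := by
  obtain ⟨x', β, -, h1, h2, h3, -⟩ := at2_inv hJ
  refine ⟨_, h.evx (φ := φ) h1, fun j => ?_, fun i => ?_⟩
  · have h4 := evx_sb (φ := φ) h h1.ev (h.evx h1) (x' j)
    rw [h3, evx_X h, h2, map_sub, evx_C (h.evx h1)] at h4
    exact (sub_left_inj.1 h4).symm
  · simpa only [h1 i, map_zero, sub_zero] using evx_sub_const (φ := φ) h (β i)

/-- The solution lies in every subring over which the data are defined. -/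
theorem evx_surj_eq {x : σ → PS σ A} (hJ : IsUnit (jacS x).det) : ∃ β : σ → PS σ A, C0 β ∧
    ∀ (S : Type) [CommRing S] (φ : A →+* S) (y : σ → S), Ev y →
      ∀ i, y i = evx φ (fun j => evx φ y (x j) - φ (constantCoeff (x j))) (β i) := at2_eq hJ

end Pool.Agent.E7
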