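import Pool.Agent.Lib.MP_7e5527_ag.EA.AO
import Pool.Agent.Lib.MP_7e5527_ag.EA.AK

/-! Functionals, uniform leading terms, arcs in the closure of `p`-adic points. -/

open MvPowerSeries Filter Topology

noncomputable section

namespace Pool.Agent.E7

variable {p : ℕ} [Fact p.Prime] {σ : Type} [Finite σ]

/-! Part 1. -/

theorem au1_zero {n : ℕ} (hn : n ≠ 0) (a : ℤ) :
    (((a : ℚ) / n : ℚ) : AddCircle (1 : ℚ)) = 0 ↔ (n : ℤ) ∣ a := by
  have h0 : (n : ℚ) ≠ 0 := Nat.cast_ne_zero.2 hn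
  rw [AddCircle.coe_eq_zero_iff]
  refine exists_congr fun m => ?_
  rw [zsmul_one, eq_div_iff h0, eq_comm, mul_comm]
  exact_mod_cast Iff.rfl

theorem au1_ex {n : ℕ} (hn : n ≠ 0) (x : AddCircle (1 : ℚ)) (h : n • x = 0) :
    ∃ a : ℤ, x = (((a : ℚ) / n : ℚ) : AddCircle (1 : ℚ)) := by
  have h0 : (n : ℚ) ≠ 0 := Nat.cast_ne_zero.2 hn
  obtain ⟨q, rfl⟩ := QuotientAddGroup.mk_surjective x
  obtain ⟨a, ha⟩ := (AddCircle.coe_eq_zero_iff (p := (1 : ℚ)) (x := n • q)).1 h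
  refine ⟨a, congrArg _ ?_⟩
  rw [zsmul_one, nsmul_eq_mul] at ha
  rw [ha, mul_div_cancel_left₀ _ h0]

/-- A tower of characters with values in the rationals modulo the integers. -/
theorem exists_fun {M : Type} [AddCommGroup M] (h : ∀ y : M, p • y = 0 → y = 0) {y : M}
    (hy : ∀ z, y ≠ p • z) : ∃ l : M →+ ℤ_[p], IsUnit (l y) := by
  have hp := (Fact.out : p.Prime).ne_zero
  let f : M →ₗ[ℤ] M := (DistribSMul.toAddMonoidHom M p).toIntLinearMap
  have hf : Function.Injective f := (injective_iff_map_eq_zero f).2 h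
  choose s hs using CharacterModule.dual_surjective_of_injective f hf
  have hs' : ∀ c m, s c (p • m) = c m := fun c m => DFunLike.congr_fun (hs c) m
  obtain ⟨c₀, h0⟩ := CharacterModule.exists_character_apply_ne_zero_of_ne_zero
    (a := (LinearMap.range f).mkQ y) fun e => by
      obtain ⟨z, hz⟩ := (Submodule.Quotient.mk_eq_zero _).1 e
      exact hy z hz.symm
  let c : ℕ → CharacterModule M := fun k =>
    s^[k] (CharacterModule.dual (LinearMap.range f).mkQ c₀)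
  have h1 : ∀ k m, c (k + 1) (p • m) = c k m := fun k m => by
    simp only [c, Function.iterate_succ_apply', hs']
  have h2 : ∀ k m, p ^ (k + 1) • c k m = 0 := fun k => by
    induction k with
    | zero =>
      intro m
      rw [zero_add, pow_one, ← map_nsmul]
      exact (congrArg c₀ ((Submodule.Quotient.mk_eq_zero _).2 ⟨m, rfl⟩)).trans (map_zero _)
    | succ k ih =>
      intro m
      rw [pow_succ, mul_smul, ← map_nsmul (c (k + 1)), h1, ih]
  choose A hA using fun k m => au1_ex (pow_ne_zero (k + 1) hp) _ (h2 k m)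
  have key : ∀ (k : ℕ) (a : ℤ), (((a : ℚ) / (p ^ (k + 1) : ℕ) : ℚ) : AddCircle (1 : ℚ)) = 0 →
      (p : ℤ_[p]) ^ (k + 1) ∣ a := fun k a ha => by
    rw [PadicInt.pow_p_dvd_int_iff, ← Nat.cast_pow]
    exact (au1_zero (pow_ne_zero _ hp) a).1 ha
  have h3 : ∀ k m, (p : ℤ_[p]) ^ (k + 1) ∣ (A (k + 1) m : ℤ_[p]) - A k m := fun k m => by
    rw [← Int.cast_sub]
    refine key k _ ?_
    have e : ((A (k + 1) m : ℚ) / (p ^ (k + 1) : ℕ) : ℚ) =
        p • ((A (k + 1) m : ℚ) / (p ^ (k + 1 + 1) : ℕ)) := by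
      have : (p : ℚ) ≠ 0 := Nat.cast_ne_zero.2 hp
      rw [nsmul_eq_mul, pow_succ p (k + 1)]
      push_cast
      field_simp
    rw [Int.cast_sub, sub_div, AddCircle.coe_sub, ← hA, e, AddCircle.coe_nsmul, ← hA, ← map_nsmul,
      h1, sub_self]
  choose l hl using fun m => pc_lim p (fun k => (A k m : ℤ_[p])) fun k =>
    (pow_dvd_pow _ k.le_succ).trans (h3 k m)
  refine ⟨AddMonoidHom.mk' l fun a b => sub_eq_zero.1 (pc_sep p fun k => ?_), ?_⟩
  · have h4 : (p : ℤ_[p]) ^ (k + 1) ∣ ((A k (a + b) - (A k a + A k b) : ℤ) : ℤ_[p]) := by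
      refine key k _ ?_
      rw [Int.cast_sub, Int.cast_add, sub_div, add_div, AddCircle.coe_sub, AddCircle.coe_add, ← hA,
        ← hA, ← hA, map_add, sub_self]
    have := dvd_add (dvd_sub (hl (a + b) k) (dvd_add (hl a k) (hl b k)))
      ((pow_dvd_pow _ k.le_succ).trans h4)
    push_cast at this
    exact (congrArg _ (by ring)).mp this
  · by_contra hu
    have h5 : (p : ℤ_[p]) ^ 1 ∣ l y := by
      rw [pow_one]
      exact (PadicInt.norm_lt_one_iff_dvd _).1 (PadicInt.not_isUnit_iff.1 hu)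
    have h6 : (p : ℤ_[p]) ^ 1 ∣ (A 0 y : ℤ_[p]) :=
      (congrArg _ (by ring)).mp (dvd_sub (dvd_sub h5 (hl y 1)) (h3 0 y))
    rw [PadicInt.pow_p_dvd_int_iff, ← Nat.cast_pow] at h6
    exact h0 ((hA 0 y).trans ((au1_zero (pow_ne_zero _ hp) _).2 h6))

variable {N : Type} [CommRing N] [PC p N]

omit [PC p N] in
theorem au1_pow (l : N →+ ℤ_[p]) (k : ℕ) (y : N) :
    l ((p : N) ^ k * y) = (p : ℤ_[p]) ^ k * l y := by
  rw [← Nat.cast_pow, ← nsmul_eq_mul, map_nsmul, nsmul_eq_mul, Nat.cast_pow]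

theorem fun_lin (l : N →+ ℤ_[p]) (z : ℤ_[p]) (y : N) : l (zc p N z * y) = z * l y := by
  refine sub_eq_zero.1 (pc_sep p fun k => ?_)
  obtain ⟨w, hw⟩ := Ideal.mem_span_singleton.1 (PadicInt.appr_spec k z)
  generalize z.appr k = n at hw
  obtain rfl := sub_eq_iff_eq_add.1 hw
  refine ⟨l (zc p N w * y) - w * l y, ?_⟩
  rw [map_add, map_mul (zc p N), map_pow, map_natCast, map_natCast, add_mul, map_add, mul_assoc,
    au1_pow, ← nsmul_eq_mul n y, map_nsmul, nsmul_eq_mul]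
  ring

theorem fun_dvd (h : ∀ y : N, (p : N) * y = 0 → y = 0) {y : N} {k : ℕ}
    (hy : ∀ l : N →+ ℤ_[p], (p : ℤ_[p]) ^ k ∣ l y) : (p : N) ^ k ∣ y := by
  induction k with
  | zero => simp
  | succ k ih =>
    obtain ⟨w, rfl⟩ := ih fun l => (pow_dvd_pow _ k.le_succ).trans (hy l)
    rw [pow_succ]
    refine mul_dvd_mul_left _ (by_contra fun hw => ?_)
    obtain ⟨l, hl⟩ := exists_fun (p := p) (y := w) (fun y e => h y (by rwa [← nsmul_eq_mul]))
      fun z e => hw ⟨z, by rwa [← nsmul_eq_mul]⟩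
    have := hy l
    rw [au1_pow, pow_succ, mul_dvd_mul_iff_left (pow_ne_zero k PadicInt.irreducible_p.ne_zero)]
      at this
    exact PadicInt.irreducible_p.not_isUnit (isUnit_of_dvd_unit this hl)

/-- The value at a `p`-adic point. -/
abbrev evz (N : Type) [CommRing N] [PC p N] (a : σ → ℤ_[p]) : PS σ N →+* N :=
  evx (RingHom.id N) fun i => zc p N (a i)

omit [Finite σ] in
theorem au1_dvd {a : σ → ℤ_[p]} (ha : ∀ i, (p : ℤ_[p]) ∣ a i) :
    Ideal.span (Set.range fun i => zc p N (a i)) ≤ Ideal.span {(p : N)} :=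
  Ideal.span_le.2 (Set.range_subset_iff.2 fun i => Ideal.mem_span_singleton.2
    (by simpa using map_dvd (zc p N) (ha i)))

omit [Finite σ] in
theorem au1_ev {a : σ → ℤ_[p]} (ha : ∀ i, (p : ℤ_[p]) ∣ a i) : Ev fun i => zc p N (a i) :=
  ev_pad p fun i => Ideal.le_radical (au1_dvd ha (Ideal.subset_span ⟨i, rfl⟩))

theorem au1_trunc {a : σ → ℤ_[p]} (ha : ∀ i, (p : ℤ_[p]) ∣ a i) (G : PS σ N) (k : ℕ) :
    (p : N) ^ k ∣ evz N a G -
      MvPolynomial.eval₂ (RingHom.id N) (fun i => zc p N (a i)) (truncTotal k G) := by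
  have := hom_trunc (evz N a) G k
  rw [← hom_coe, evx_coe (au1_ev ha)] at this
  simp only [evx_X (au1_ev ha)] at this
  have h := Ideal.pow_right_mono (au1_dvd ha) k this
  rwa [Ideal.span_singleton_pow, Ideal.mem_span_singleton] at h

theorem fun_evz (l : N →+ ℤ_[p]) {a : σ → ℤ_[p]} (ha : ∀ i, (p : ℤ_[p]) ∣ a i) (G : PS σ N) :
    l (evz N a G) = evz ℤ_[p] a (fun ν => l (coeff ν G)) := by
  refine sub_eq_zero.1 (pc_sep p fun k => ?_)
  obtain ⟨w, hw⟩ := au1_trunc ha G k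
  have h2 := au1_trunc (N := ℤ_[p]) ha (fun ν => l (coeff ν G)) k
  have hc : ∀ ν, MvPolynomial.coeff ν (truncTotal k (fun ν => l (coeff ν G) : PS σ ℤ_[p])) =
      l (MvPolynomial.coeff ν (truncTotal k G)) := fun ν => by
    rw [coeff_truncTotal_eq_ite, coeff_truncTotal_eq_ite]
    split_ifs
    exacts [rfl, (map_zero l).symm]
  have e : l (MvPolynomial.eval₂ (RingHom.id N) (fun i => zc p N (a i)) (truncTotal k G)) =
      MvPolynomial.eval₂ (RingHom.id _) (fun i => zc p ℤ_[p] (a i))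
        (truncTotal k (fun ν => l (coeff ν G) : PS σ ℤ_[p])) := by
    rw [MvPolynomial.eval₂_eq, MvPolynomial.eval₂_eq, map_sum, eq_comm]
    refine (Finset.sum_subset (fun ν => ?_) fun ν _ => ?_).trans
      (Finset.sum_congr rfl fun ν _ => ?_)
    · rw [MvPolynomial.mem_support_iff, MvPolynomial.mem_support_iff, hc]
      exact mt fun h => by rw [h, map_zero]
    · intro h
      rw [MvPolynomial.notMem_support_iff.1 h, map_zero, zero_mul]
    · simp only [hc, RingHom.id_apply, zc_self, ← map_pow, ← map_prod]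
      rw [mul_comm _ (zc p N _), fun_lin, mul_comm]
  rw [sub_eq_iff_eq_add.1 hw, map_add, au1_pow, e, add_sub_assoc]
  exact dvd_add (dvd_mul_right _ _) (dvd_sub_comm.1 h2)

theorem up_lemma (h : ∀ y : N, (p : N) * y = 0 → y = 0) (U : Ultrafilter ℕ) (G : PS σ N)
    {a : ℕ → σ → ℤ_[p]} (ha : ∀ n i, (p : ℤ_[p]) ∣ a n i) :
    (∀ᶠ n in (U : Filter ℕ), evz N (a n) G = 0) ∨ ∃ S ∈ U, ∃ (e : ℕ → ℕ) (b : ℕ → N),
      (∀ n ∈ S, evz N (a n) G = (p : N) ^ e n * b n ∧ ¬ (p : N) ∣ b n) ∧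
        ∀ n ∈ S, ∀ m ∈ S, (p : N) ∣ b n - b m := by
  classical
  refine (U.em fun n => evz N (a n) G = 0).imp_right fun hU => ?_
  have h1 : ∀ n, ∃ (e : ℕ) (b : N), evz N (a n) G ≠ 0 →
      evz N (a n) G = (p : N) ^ e * b ∧ ¬ (p : N) ∣ b := fun n => by
    by_cases h0 : evz N (a n) G = 0
    · exact ⟨0, 0, fun h => (h h0).elim⟩
    have hex : ∃ k, ¬ (p : N) ^ (k + 1) ∣ evz N (a n) G := by
      by_contra! hc
      exact h0 (pc_sep p fun k => (pow_dvd_pow _ k.le_succ).trans (hc k))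
    have hd : (p : N) ^ Nat.find hex ∣ evz N (a n) G := by
      rcases hk : Nat.find hex with _ | k
      · simp
      · exact not_not.1 (Nat.find_min hex (hk ▸ k.lt_succ_self))
    obtain ⟨b, hb⟩ := hd
    refine ⟨_, b, fun _ => ⟨hb, fun hpb => Nat.find_spec hex ?_⟩⟩
    rw [pow_succ]
    exact (mul_dvd_mul_left _ hpb).trans hb.symm.dvd
  choose e b hb using h1
  let F : (N →+ ℤ_[p]) → PS σ ℤ_[p] := fun l ν => l (coeff ν G)
  obtain ⟨s, hs, es⟩ := (Submodule.fg_span_iff_fg_span_finset_subset (Set.range F)).1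
    (IsNoetherian.noetherian (Submodule.span (PS σ ℤ_[p]) (Set.range F)))
  choose L hL using fun j : s => hs j.2
  obtain ⟨v, hv⟩ := (U.map fun n (j : s) => PadicInt.toZMod (L j (b n))).eq_pure_of_finite
  have hv' : {n | (fun j : s => PadicInt.toZMod (L j (b n))) = v} ∈ U :=
    show {v} ∈ U.map fun n (j : s) => PadicInt.toZMod (L j (b n)) from hv ▸ Ultrafilter.mem_pure.2 rfl
  refine ⟨_, inter_mem hU hv', e, b, fun n hn => hb n hn.1, fun n hn m hm => ?_⟩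
  rw [← pow_one (p : N)]
  refine fun_dvd h fun l => ?_
  obtain ⟨c, hc⟩ := (Submodule.mem_span_range_iff_exists_fun (PS σ ℤ_[p])).1
    (show F l ∈ Submodule.span _ (Set.range fun j : s => (j : PS σ ℤ_[p])) by
      rw [show Set.range (fun j : s => (j : PS σ ℤ_[p])) = s from Subtype.range_coe, ← es]
      exact Submodule.subset_span ⟨l, rfl⟩)
  have hk : ∀ x : ℤ_[p], PadicInt.toZMod x = 0 ↔ (p : ℤ_[p]) ∣ x := fun x => by
    rw [← RingHom.mem_ker, PadicInt.ker_toZMod, PadicInt.maximalIdeal_eq_span_p,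
      Ideal.mem_span_singleton]
  have h2 : ∀ n, evz N (a n) G ≠ 0 → PadicInt.toZMod (l (b n)) =
      ∑ j, PadicInt.toZMod (constantCoeff (c j)) * PadicInt.toZMod (L j (b n)) := fun n hn => by
    have h3 : ∀ l, evz ℤ_[p] (a n) (F l) = (p : ℤ_[p]) ^ e n * l (b n) := fun l => by
      rw [← au1_pow, ← (hb n hn).1, fun_evz l (ha n)]
    have h4 := congrArg (evz ℤ_[p] (a n)) hc
    simp only [map_sum, smul_eq_mul, map_mul, ← hL, h3, mul_left_comm _ ((p : ℤ_[p]) ^ e n),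
      ← Finset.mul_sum] at h4
    rw [← mul_left_cancel₀ (pow_ne_zero _ PadicInt.irreducible_p.ne_zero) h4, map_sum]
    refine Finset.sum_congr rfl fun j _ => ?_
    rw [map_mul, ← sub_eq_zero, ← sub_mul, ← map_sub, (hk _).2, zero_mul]
    exact Ideal.mem_span_singleton.1 (au1_dvd (ha n) (evx_sub_const (au1_ev (ha n)) (c j)))
  rw [pow_one, ← hk, map_sub, map_sub, h2 n hn.1, h2 m hm.1, sub_eq_zero]
  exact Finset.sum_congr rfl fun j _ => congrArg _ (congrFun (hn.2.trans hm.2.symm) j)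

/-! Part 2. -/

/-- The ideal of the elements that vanish at most places. -/
private def au2_I {A B : Type} [CommRing A] [CommRing B] (U : Ultrafilter ℕ) (E : ℕ → A →+* B) :
    Ideal A where
  carrier := {f | ∀ᶠ m in (U : Filter ℕ), E m f = 0}
  add_mem' := fun {f g} hf hg => by
    filter_upwards [hf, hg] with m h1 h2
    rw [map_add, h1, h2, add_zero]
  zero_mem' := Eventually.of_forall fun m => map_zero _
  smul_mem' := fun c f hf => by
    filter_upwards [hf] with m h1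
    rw [smul_eq_mul, map_mul, h1, mul_zero]

private theorem au2_mem {A B : Type} [CommRing A] [CommRing B] {U : Ultrafilter ℕ}
    {E : ℕ → A →+* B} {f : A} : f ∈ au2_I U E ↔ ∀ᶠ m in (U : Filter ℕ), E m f = 0 := Iff.rfl

private theorem au2_prime {A B : Type} [CommRing A] [CommRing B] [IsDomain B] (U : Ultrafilter ℕ)
    (E : ℕ → A →+* B) : (au2_I U E).IsPrime := by
  refine ⟨fun h => ?_, fun {f g} h => ?_⟩
  · have h1 : (1 : A) ∈ au2_I U E := h ▸ Submodule.mem_top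
    obtain ⟨m, hm⟩ := (au2_mem.1 h1).exists
    rw [map_one] at hm
    exact one_ne_zero hm
  · refine Ultrafilter.eventually_or.1 ((au2_mem.1 h).mono fun m hm => ?_)
    rw [map_mul] at hm
    exact mul_eq_zero.1 hm

private theorem au2_fg {A B : Type} [CommRing A] [CommRing B] [IsNoetherianRing A]
    (U : Ultrafilter ℕ) (E : ℕ → A →+* B) :
    ∀ᶠ n in (U : Filter ℕ), ∀ f ∈ au2_I U E, E n f = 0 := by
  obtain ⟨S, hS⟩ := IsNoetherian.noetherian (au2_I U E)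
  have h1 : ∀ᶠ n in (U : Filter ℕ), ∀ g ∈ S, E n g = 0 :=
    (eventually_all_finset S).2 fun g hg => au2_mem.1 (hS ▸ Submodule.subset_span hg)
  filter_upwards [h1] with n hn f hf
  rw [← hS] at hf
  have h2 : Submodule.span A (S : Set A) ≤ RingHom.ker (E n) :=
    Submodule.span_le.2 fun g hg => hn g hg
  exact h2 hf

private theorem au2_pn {A : Type} [CommRing A] {y : A} (h : (p : A) ∣ y) : PN p y :=
  Ideal.le_radical (Ideal.mem_span_singleton.2 h)

private theorem au2_ev {a : σ → ℤ_[p]} (ha : ∀ i, (p : ℤ_[p]) ∣ a i) :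
    Ev fun i => zc p N (a i) :=
  ev_pad p fun i => (au2_pn (ha i)).map _

/-- Clearing denominators in a polynomial. -/
private theorem au2_scale {A B : Type} [CommRing A] [CommRing B] (φ : A →+* B)
    (h : ∀ b : B, ∃ (n : ℕ) (a : A), (p : B) ^ n * b = φ a) (Q : MvPolynomial σ B) :
    ∃ (n : ℕ) (Q' : MvPolynomial σ A),
      (p : MvPolynomial σ B) ^ n * Q = MvPolynomial.map φ Q' := by
  induction Q using MvPolynomial.induction_on with
  | C b =>
    obtain ⟨n, a, ha⟩ := h b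
    refine ⟨n, MvPolynomial.C a, ?_⟩
    rw [MvPolynomial.map_C, ← ha, map_mul, map_pow, map_natCast]
  | add Q R hQ hR =>
    obtain ⟨n, Q', hQ⟩ := hQ
    obtain ⟨m, R', hR⟩ := hR
    refine ⟨n + m, (p : MvPolynomial σ A) ^ m * Q' + (p : MvPolynomial σ A) ^ n * R', ?_⟩
    rw [map_add, map_mul, map_mul, map_pow, map_pow, map_natCast, ← hQ, ← hR]
    ring
  | mul_X Q i hQ =>
    obtain ⟨n, Q', hQ⟩ := hQ
    refine ⟨n, Q' * MvPolynomial.X i, ?_⟩
    rw [map_mul, MvPolynomial.map_X, ← hQ, mul_assoc]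

private theorem au2_norm_p : ‖(p : ℂ_[p])‖ < 1 := by
  have h : ‖((p : OC p) : ℂ_[p])‖ < 1 := pn_iff.1 (au2_pn dvd_rfl)
  simpa using h

private theorem au2_den (b : ℂ_[p]) : ∃ (n : ℕ) (a : OC p), (p : ℂ_[p]) ^ n * b = ov p a := by
  have h1 : Tendsto (fun n : ℕ => ‖(p : ℂ_[p])‖ ^ n * ‖b‖) atTop (𝓝 (0 * ‖b‖)) :=
    (tendsto_pow_atTop_nhds_zero_of_lt_one (norm_nonneg _) au2_norm_p).mul_const _
  rw [zero_mul] at h1
  obtain ⟨n, hn⟩ := (h1.eventually (gt_mem_nhds (zero_lt_one' ℝ))).exists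
  refine ⟨n, ⟨(p : ℂ_[p]) ^ n * b, mem_OC.2 ?_⟩, rfl⟩
  rw [norm_mul, norm_pow]
  exact hn.le

private theorem au2_map_coe {A B : Type} [CommRing A] [CommRing B] (φ : A →+* B)
    (Q : MvPolynomial σ A) :
    ((MvPolynomial.map φ Q : MvPolynomial σ B) : PS σ B) = MvPowerSeries.map φ (Q : PS σ A) := by
  ext ν
  rw [MvPolynomial.coeff_coe, MvPolynomial.coeff_map, MvPowerSeries.coeff_map,
    MvPolynomial.coeff_coe]

private theorem au2_coe_p {B : Type} [CommRing B] (n : ℕ) (Q : MvPolynomial σ B) :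
    (((p : MvPolynomial σ B) ^ n * Q : MvPolynomial σ B) : PS σ B) = (p : PS σ B) ^ n * Q := by
  have h := map_mul (MvPolynomial.coeToMvPowerSeries.ringHom (σ := σ) (R := B))
    ((p : MvPolynomial σ B) ^ n) Q
  rw [map_pow, map_natCast] at h
  exact h

private theorem au2_approx (M : ℕ) (c : PS σ ℂ_[p]) : ∃ (n : ℕ) (c' : PS σ (OC p)),
    (p : PS σ ℂ_[p]) ^ n * c - map (ov p) c' ∈
      Ideal.span (Set.range (X : σ → PS σ ℂ_[p])) ^ M := by
  obtain ⟨n, Q, hQ⟩ := au2_scale (ov p) au2_den (truncTotal M c)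
  refine ⟨n, Q, ?_⟩
  rw [← au2_map_coe, ← hQ, au2_coe_p, ← mul_sub]
  exact Ideal.mul_mem_left _ _ (sub_trunc_mem c M)

private theorem au2_span (J : Ideal (PS σ (OC p))) (M : ℕ) {F : PS σ ℂ_[p]}
    (hF : F ∈ Ideal.span (MvPowerSeries.map (ov p) '' (J : Set (PS σ (OC p))))) :
    ∃ (n : ℕ) (G : PS σ (OC p)), G ∈ J ∧ (p : PS σ ℂ_[p]) ^ n * F - map (ov p) G ∈
      Ideal.span (Set.range (X : σ → PS σ ℂ_[p])) ^ M := by
  induction hF using Submodule.span_induction with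
  | mem F hF =>
    obtain ⟨G, hG, rfl⟩ := hF
    refine ⟨0, G, hG, ?_⟩
    rw [pow_zero, one_mul, sub_self]
    exact zero_mem _
  | zero =>
    refine ⟨0, 0, zero_mem _, ?_⟩
    rw [mul_zero, map_zero, sub_self]
    exact zero_mem _
  | add F F' _ _ h h' =>
    obtain ⟨n, G, hG, h⟩ := h
    obtain ⟨m, G', hG', h'⟩ := h'
    refine ⟨n + m, (p : PS σ (OC p)) ^ m * G + (p : PS σ (OC p)) ^ n * G',
      add_mem (J.mul_mem_left _ hG) (J.mul_mem_left _ hG'), ?_⟩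
    have e : (p : PS σ ℂ_[p]) ^ (n + m) * (F + F') -
        map (ov p) ((p : PS σ (OC p)) ^ m * G + (p : PS σ (OC p)) ^ n * G') =
        (p : PS σ ℂ_[p]) ^ m * ((p : PS σ ℂ_[p]) ^ n * F - map (ov p) G) +
          (p : PS σ ℂ_[p]) ^ n * ((p : PS σ ℂ_[p]) ^ m * F' - map (ov p) G') := by
      rw [map_add, map_mul, map_mul, map_pow, map_pow, map_natCast]
      ring
    rw [e]
    exact add_mem (Ideal.mul_mem_left _ _ h) (Ideal.mul_mem_left _ _ h')
  | smul c F _ h =>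
    obtain ⟨n, G, hG, h⟩ := h
    obtain ⟨m, c', hc⟩ := au2_approx M c
    refine ⟨m + n, c' * G, J.mul_mem_left _ hG, ?_⟩
    have e : (p : PS σ ℂ_[p]) ^ (m + n) * c • F - map (ov p) (c' * G) =
        ((p : PS σ ℂ_[p]) ^ n * F) * ((p : PS σ ℂ_[p]) ^ m * c - map (ov p) c') +
          map (ov p) c' * ((p : PS σ ℂ_[p]) ^ n * F - map (ov p) G) := by
      rw [map_mul, smul_eq_mul]
      ring
    rw [e]
    exact add_mem (Ideal.mul_mem_left _ _ hc) (Ideal.mul_mem_left _ _ h)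

private theorem au2_coeff_p {B : Type} [CommRing B] (n : ℕ) (f : PS σ B) (ν : σ →₀ ℕ) :
    coeff ν ((p : PS σ B) ^ n * f) = p ^ n • coeff ν f := by
  rw [← map_nsmul, nsmul_eq_mul, Nat.cast_pow]

private theorem au2_kr (I : Ideal (PS σ ℤ_[p])) [I.IsPrime] (h0 : ∀ f ∈ I, constantCoeff f = 0)
    {f : PS σ ℤ_[p]} (h : ∀ M : ℕ, ∃ (n : ℕ) (g : PS σ ℤ_[p]), g ∈ I ∧
      (p : PS σ ℤ_[p]) ^ n * f - g ∈ Ideal.span (Set.range (X : σ → PS σ ℤ_[p])) ^ M) :
    f ∈ I := by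
  refine Ideal.Quotient.eq_zero_iff_mem.1 (kr (s := Ideal.Quotient.mk I (p : PS σ ℤ_[p]))
    ((Ideal.span (Set.range (X : σ → PS σ ℤ_[p]))).map (Ideal.Quotient.mk I)) (fun n hn => ?_)
    fun M => ?_)
  · rw [← map_pow, Ideal.mem_quotient_iff_mem_sup] at hn
    have h1 : Ideal.span (Set.range (X : σ → PS σ ℤ_[p])) ⊔ I ≤ RingHom.ker constantCoeff := by
      refine sup_le (Ideal.span_le.2 ?_) h0
      rintro _ ⟨i, rfl⟩
      exact constantCoeff_X i
    have h2 := h1 hn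
    rw [RingHom.mem_ker, map_pow, map_natCast] at h2
    exact pow_ne_zero n (Nat.cast_ne_zero.2 (Fact.out : p.Prime).ne_zero) h2
  · obtain ⟨n, g, hg, h⟩ := h M
    refine ⟨n, ?_⟩
    have h1 := Ideal.mem_map_of_mem (Ideal.Quotient.mk I) h
    rw [Ideal.map_pow, map_sub, Ideal.Quotient.eq_zero_iff_mem.2 hg, sub_zero, map_mul,
      map_pow] at h1
    exact h1

theorem arcz_zero (U : Ultrafilter ℕ) {a : ℕ → σ → ℤ_[p]} (ha : ∀ n i, (p : ℤ_[p]) ∣ a n i) :
    ∀ᶠ n in (U : Filter ℕ), ∀ f : PS σ ℤ_[p],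
      (∀ᶠ m in (U : Filter ℕ), evz ℤ_[p] (a m - a n) f = 0) → constantCoeff f = 0 := by
  filter_upwards [au2_fg U fun m => evz ℤ_[p] (a m)] with n hn f hf
  have hb : Ev fun i => (X i - C (a n i) : PS σ ℤ_[p]) := ev_ps p fun i => by
    rw [map_sub, constantCoeff_X, constantCoeff_C, zero_sub]
    exact au2_pn (ha n i).neg_right
  have key : ∀ m, evz ℤ_[p] (a m) (sb (fun i => (X i - C (a n i) : PS σ ℤ_[p])) f) =
      evz ℤ_[p] (a m - a n) f := fun m => by
    have hm : Ev fun i => zc p ℤ_[p] (a m i) := au2_ev (ha m)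
    have e : (fun j => evx (RingHom.id ℤ_[p]) (fun i => zc p ℤ_[p] (a m i))
        (X j - C (a n j) : PS σ ℤ_[p])) = fun i => zc p ℤ_[p] ((a m - a n) i) := by
      funext j
      rw [map_sub, evx_X hm, evx_C hm, Pi.sub_apply, map_sub, zc_self (a n j), RingHom.id_apply]
    have h' : Ev fun i => zc p ℤ_[p] ((a m - a n) i) :=
      au2_ev fun i => dvd_sub (ha m i) (ha n i)
    rw [evz, evx_sb hm hb (e ▸ h'), e]
  have h1 := hn _ (au2_mem.2 (hf.mono fun m hm => (key m).trans hm))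
  rw [key, sub_self] at h1
  have e : (fun i => zc p ℤ_[p] ((0 : σ → ℤ_[p]) i)) = fun _ => 0 := funext fun i => map_zero _
  rw [evz, e, evx_zero] at h1
  exact h1

theorem arcz_not_mem (U : Ultrafilter ℕ) {b : ℕ → σ → ℤ_[p]} (hb : ∀ n i, (p : ℤ_[p]) ∣ b n i)
    (h0 : ∀ f : PS σ ℤ_[p], (∀ᶠ m in (U : Filter ℕ), evz ℤ_[p] (b m) f = 0) → constantCoeff f = 0)
    {P : MvPolynomial σ ℂ_[p]}
    (hP : ∀ᶠ m in (U : Filter ℕ), MvPolynomial.eval (fun i => UAP.zp p (b m i)) P ≠ 0) :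
    (P : PS σ ℂ_[p]) ∉ Ideal.span (MvPowerSeries.map (ov p) ''
      {G : PS σ (OC p) | ∀ᶠ m in (U : Filter ℕ), evz (OC p) (b m) G = 0}) := by
  intro hmem
  obtain ⟨k, P', hP'⟩ := au2_scale (ov p) au2_den P
  have hp0 : (p : ℂ_[p]) ≠ 0 := Nat.cast_ne_zero.2 (Fact.out : p.Prime).ne_zero
  have hF : MvPowerSeries.map (ov p) (P' : PS σ (OC p)) ∈ Ideal.span (MvPowerSeries.map (ov p) ''
      ((au2_I U fun m => evz (OC p) (b m) : Ideal (PS σ (OC p))) : Set (PS σ (OC p)))) := by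
    rw [← au2_map_coe, ← hP', au2_coe_p]
    exact Ideal.mul_mem_left _ _ hmem
  have := au2_prime U fun m => evz ℤ_[p] (b m)
  have hl : ∀ l : OC p →+ ℤ_[p], (fun ν => l (coeff ν (P' : PS σ (OC p))) : PS σ ℤ_[p]) ∈
      au2_I U fun m => evz ℤ_[p] (b m) := fun l => by
    refine au2_kr _ (fun f hf => h0 f hf) fun M => ?_
    obtain ⟨n, G, hG, h⟩ := au2_span _ M hF
    refine ⟨n, fun ν => l (coeff ν G), ?_, mem_X_pow.2 fun ν hν => ?_⟩
    · refine au2_mem.2 ((au2_mem.1 hG).mono fun m hm => ?_)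
      rw [← fun_evz l (hb m), hm, map_zero]
    · have h1 := mem_X_pow.1 h ν hν
      rw [map_sub, au2_coeff_p, coeff_map, coeff_map, ← map_nsmul, ← map_sub] at h1
      have h2 : p ^ n • coeff ν (P' : PS σ (OC p)) - coeff ν G = 0 :=
        Subtype.ext h1
      rw [map_sub, au2_coeff_p]
      change p ^ n • l (coeff ν (P' : PS σ (OC p))) - l (coeff ν G) = 0
      rw [← map_nsmul, ← map_sub, h2, map_zero]
  obtain ⟨m, hm, hm'⟩ := ((au2_fg U fun m => evz ℤ_[p] (b m)).and hP).exists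
  have htf : ∀ y : OC p, (p : OC p) * y = 0 → y = 0 := fun y hy => by
    refine (mul_eq_zero.1 hy).resolve_left fun h => hp0 ?_
    have := congrArg (ov p) h
    rwa [map_natCast, map_zero] at this
  have h1 : evz (OC p) (b m) (P' : PS σ (OC p)) = 0 := by
    refine pc_sep p fun j => fun_dvd htf fun l => ?_
    rw [fun_evz l (hb m), hm _ (hl l)]
    exact dvd_zero _
  rw [evz, evx_coe (au2_ev (hb m))] at h1
  have h2 := congrArg (ov p) h1
  rw [MvPolynomial.eval₂_comp_left, map_zero, RingHom.comp_id, ← MvPolynomial.eval_map,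
    ← hP', map_mul, map_pow, map_natCast] at h2
  refine hm' ?_
  have e : (fun i => UAP.zp p (b m i)) = (ov p) ∘ fun i => zc p (OC p) (b m i) :=
    funext fun i => (zc_oc _).symm
  rw [e]
  exact (mul_eq_zero.1 h2).resolve_left (pow_ne_zero _ hp0)

theorem arcz (U : Ultrafilter ℕ) {a : ℕ → σ → ℤ_[p]} (ha : ∀ n i, (p : ℤ_[p]) ∣ a n i) :
    ∀ᶠ n in (U : Filter ℕ), ∀ P : MvPolynomial σ ℂ_[p], P.coeff 0 = 0 →
      (∀ᶠ m in (U : Filter ℕ), MvPolynomial.eval (fun i => UAP.zp p (a m i - a n i)) P ≠ 0) →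
      ∃ y : σ → PS Unit ℂ_[p], C0 y ∧ MvPolynomial.aeval y P ≠ 0 ∧ ∀ G : PS σ (OC p),
        (∀ᶠ m in (U : Filter ℕ), evz (OC p) (a m - a n) G = 0) → sb y (map (ov p) G) = 0 := by
  filter_upwards [arcz_zero U ha] with n hn P hP0 hP
  have h1 : (P : PS σ ℂ_[p]) ∉ (Ideal.span (MvPowerSeries.map (ov p) ''
      {G : PS σ (OC p) | ∀ᶠ m in (U : Filter ℕ), evz (OC p) (a m - a n) G = 0})).radical := by
    rintro ⟨k, hk⟩
    rw [← MvPolynomial.coe_pow] at hk
    refine arcz_not_mem U (b := fun m => a m - a n) (fun m i => dvd_sub (ha m i) (ha n i)) hn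
      (hP.mono fun m hm => ?_) hk
    rw [map_pow]
    exact pow_ne_zero _ hm
  rw [Ideal.radical_eq_sInf, Submodule.mem_sInf] at h1
  push Not at h1
  obtain ⟨𝔓, ⟨hle, hpr⟩, hn𝔓⟩ := h1
  obtain ⟨y, hy0, hy, hyP⟩ := arc 𝔓 hn𝔓 (by
    rw [← coeff_zero_eq_constantCoeff_apply, MvPolynomial.coeff_coe, hP0])
  refine ⟨y, hy0, ?_, fun G hG => hy _ (hle (Ideal.subset_span ⟨G, hG, rfl⟩))⟩
  rw [sb, evx_coe hy0.ev] at hyP
  exact hyP

/-- Descent of a relation between algebraic points. -/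
theorem desc_rel (U : Ultrafilter ℕ) {x : ℕ → σ → ℂ_[p]} (hx : ∀ n i, IsAlgebraic ℚ_[p] (x n i))
    {P : MvPolynomial σ ℂ_[p]} (h0 : P ≠ 0)
    (h : ∀ᶠ n in (U : Filter ℕ), MvPolynomial.eval (x n) P = 0) : ∃ H : MvPolynomial σ ℤ_[p],
      H ≠ 0 ∧ ∀ᶠ n in (U : Filter ℕ), MvPolynomial.eval₂ (UAP.zp p) (x n) H = 0 := by
  classical
  obtain ⟨ν0, hν0⟩ := MvPolynomial.ne_zero_iff.1 h0
  obtain ⟨l, hl⟩ := Module.Projective.exists_dual_ne_zero (algebraicClosure ℚ_[p] ℂ_[p]) hν0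
  have hP1 : (∑ ν ∈ P.support, MvPolynomial.monomial ν (l (P.coeff ν)) :
      MvPolynomial σ (algebraicClosure ℚ_[p] ℂ_[p])) ≠ 0 := by
    refine MvPolynomial.ne_zero_iff.2 ⟨ν0, ?_⟩
    rw [MvPolynomial.coeff_sum, Finset.sum_eq_single ν0, MvPolynomial.coeff_monomial, if_pos rfl]
    · exact hl
    · intro ν _ hν
      rw [MvPolynomial.coeff_monomial, if_neg hν]
    · intro h'
      exact absurd (MvPolynomial.mem_support_iff.2 hν0) h'
  obtain ⟨H0, hH0, Q, hQ⟩ := MvPolynomial.exists_dvd_map_of_isAlgebraic (R := ℚ_[p]) hP1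
  have hden : ∀ b : ℚ_[p], ∃ (n : ℕ) (a : ℤ_[p]), (p : ℚ_[p]) ^ n * b = PadicInt.Coe.ringHom a := by
    intro b
    have h1 : Tendsto (fun n : ℕ => ‖(p : ℚ_[p])‖ ^ n * ‖b‖) atTop (𝓝 (0 * ‖b‖)) :=
      (tendsto_pow_atTop_nhds_zero_of_lt_one (norm_nonneg _) Padic.norm_p_lt_one).mul_const _
    rw [zero_mul] at h1
    obtain ⟨n, hn⟩ := (h1.eventually (gt_mem_nhds (zero_lt_one' ℝ))).exists
    refine ⟨n, ⟨(p : ℚ_[p]) ^ n * b, ?_⟩, rfl⟩
    rw [norm_mul, norm_pow]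
    exact hn.le
  obtain ⟨k, H, hH⟩ := au2_scale PadicInt.Coe.ringHom hden H0
  refine ⟨H, ?_, h.mono fun n hn => ?_⟩
  · rintro rfl
    rw [map_zero] at hH
    exact mul_ne_zero (pow_ne_zero _ (Nat.cast_ne_zero.2 (Fact.out : p.Prime).ne_zero)) hH0 hH
  · let x' : σ → algebraicClosure ℚ_[p] ℂ_[p] :=
      fun i => ⟨x n i, mem_algebraicClosure_iff.2 (hx n i)⟩
    have h1 : MvPolynomial.eval x' (∑ ν ∈ P.support, MvPolynomial.monomial ν (l (P.coeff ν)) :
        MvPolynomial σ (algebraicClosure ℚ_[p] ℂ_[p])) = l (MvPolynomial.eval (x n) P) := by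
      rw [map_sum, MvPolynomial.eval_eq (x n), map_sum]
      refine Finset.sum_congr rfl fun ν _ => ?_
      have e : P.coeff ν * ∏ i ∈ ν.support, x n i ^ ν i =
          (ν.prod fun i e => x' i ^ e) • P.coeff ν := by
        rw [Algebra.smul_def, mul_comm, Finsupp.prod, map_prod]
        simp only [map_pow]
        rfl
      rw [MvPolynomial.eval_monomial, e, map_smul, smul_eq_mul, mul_comm]
    rw [hn, map_zero] at h1
    have h2 : MvPolynomial.eval x' (MvPolynomial.map (algebraMap ℚ_[p] _) H0) = 0 := by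
      rw [hQ, map_mul, h1, zero_mul]
    have h3 := congrArg (algebraMap (algebraicClosure ℚ_[p] ℂ_[p]) ℂ_[p]) h2
    rw [MvPolynomial.eval_map, MvPolynomial.eval₂_comp_left, map_zero,
      ← IsScalarTower.algebraMap_eq] at h3
    rw [UAP.zp, ← MvPolynomial.eval₂_map, ← hH, MvPolynomial.eval₂_mul]
    exact mul_eq_zero_of_right _ h3

end Pool.Agent.E7
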