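import Pool.Agent.Lib.MP_7e5527_ag.EA.AO

/-! The exponential, lines, the identity theorem, zeros. -/

open MvPowerSeries Filter Topology

noncomputable section

namespace Pool.Agent.E7

variable {p : ℕ} [Fact p.Prime] {A A' : Type} [CommRing A] [CommRing A'] [PC p A] [PC p A']

/-! Part 1. -/

theorem ax1_fac (p : ℕ) [Fact p.Prime] (n : ℕ) :
    (((n + 1).factorial : ℕ) : ℤ_[p]) ∣ (p : ℤ_[p]) ^ (2 * n) := by
  have hp : p.Prime := Fact.out
  obtain ⟨v, m, hm, e⟩ := Nat.exists_eq_pow_mul_and_not_dvd (n + 1).factorial_ne_zero p hp.ne_one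
  have h1 : v ≤ padicValNat p (n + 1).factorial :=
    (padicValNat_dvd_iff_le (n + 1).factorial_ne_zero).1 ⟨m, e⟩
  have h2 := padicValNat_factorial_lt_of_ne_zero p (n := n + 1) n.succ_ne_zero
  have h3 : IsUnit (m : ℤ_[p]) := PadicInt.isUnit_iff.2
    (PadicInt.norm_natCast_eq_one_iff.2 ((Nat.Prime.coprime_iff_not_dvd hp).2 hm))
  rw [e, Nat.cast_mul, Nat.cast_pow, h3.mul_right_dvd]
  exact pow_dvd_pow _ (by omega)

theorem ax1_exists (p : ℕ) [Fact p.Prime] : ∃ g : PS Unit ℤ_[p], constantCoeff g = 1 ∧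
    pderiv ℤ_[p] () ((p : PS Unit ℤ_[p]) ^ 2 * (X () * g)) =
      (p : PS Unit ℤ_[p]) ^ 2 * (1 + (p : PS Unit ℤ_[p]) ^ 2 * (X () * g)) := by
  choose d hd using ax1_fac p
  have h0 : d 0 = 1 := by simpa using (hd 0).symm
  have h1 : ∀ m : ℕ, d (m + 1) * ((m + 1 : ℕ) + 1) = (p : ℤ_[p]) ^ 2 * d m := fun m => by
    have h2 : (((m + 1).factorial : ℕ) : ℤ_[p]) ≠ 0 := Nat.cast_ne_zero.2 (Nat.factorial_ne_zero _)
    refine mul_left_cancel₀ h2 ?_
    have h3 := hd (m + 1)
    rw [Nat.factorial_succ, Nat.cast_mul, Nat.cast_succ, mul_add 2, pow_add, hd m] at h3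
    linear_combination -h3
  have key : PowerSeries.derivative ℤ_[p] (PowerSeries.X * PowerSeries.mk d) =
      1 + PowerSeries.C ((p : ℤ_[p]) ^ 2) * (PowerSeries.X * PowerSeries.mk d) := by
    ext n
    rw [PowerSeries.coeff_derivative, PowerSeries.coeff_succ_X_mul, PowerSeries.coeff_mk, map_add,
      PowerSeries.coeff_C_mul]
    cases n with
    | zero => simp [h0]
    | succ m =>
      rw [h1, PowerSeries.coeff_succ_X_mul, PowerSeries.coeff_mk, PowerSeries.coeff_one,
        if_neg m.succ_ne_zero, zero_add]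
  refine ⟨PowerSeries.mk d, ?_, ?_⟩
  · exact (PowerSeries.constantCoeff_mk (f := d)).trans h0
  · have e : (p : PS Unit ℤ_[p]) ^ 2 = C ((p : ℤ_[p]) ^ 2) := by simp
    rw [e, Derivation.leibniz, pderiv_C, smul_zero, add_zero, smul_eq_mul]
    exact congrArg _ key

theorem exists_Exs (p : ℕ) [Fact p.Prime] : ∃ f : PS Unit ℤ_[p], constantCoeff f = 0 ∧
    pderiv ℤ_[p] () f = (p : PS Unit ℤ_[p]) ^ 2 * (1 + f) := by
  obtain ⟨g, -, h⟩ := ax1_exists p
  exact ⟨_, by simp, h⟩

/-- The series `exp (p ^ 2 * t) - 1`. -/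
def Exs (p : ℕ) [Fact p.Prime] : PS Unit ℤ_[p] := (exists_Exs p).choose

theorem Exs_const : constantCoeff (Exs p) = 0 := (exists_Exs p).choose_spec.1

theorem Exs_der : pderiv ℤ_[p] () (Exs p) = (p : PS Unit ℤ_[p]) ^ 2 * (1 + Exs p) :=
  (exists_Exs p).choose_spec.2

/-- The value `exp (p ^ 2 * y)`. -/
def exo (p : ℕ) [Fact p.Prime] {A : Type} [CommRing A] [PC p A] (y : A) : A :=
  1 + evx (zc p A) (fun _ : Unit => y) (Exs p)

omit [Fact p.Prime] [PC p A] in
theorem ax1_natder {σ : Type} (l : σ) : pderiv A l ((p : PS σ A) ^ 2) = 0 := by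
  have e : (p : PS σ A) ^ 2 = C ((p : A) ^ 2) := by simp
  rw [e, pderiv_C]

theorem ax1_eq (p : ℕ) [Fact p.Prime] : ∃ g : PS Unit ℤ_[p], constantCoeff g = 1 ∧
    Exs p = (p : PS Unit ℤ_[p]) ^ 2 * (X () * g) := by
  obtain ⟨g, h0, h⟩ := ax1_exists p
  refine ⟨g, h0, sub_eq_zero.1 (odeu (fun _ : Unit => Exs p - (p : PS Unit ℤ_[p]) ^ 2 * (X () * g))
    (fun _ => by simp [Exs_const]) (fun i a => ?_) ())⟩
  cases i
  rw [map_sub, Exs_der, h, ← mul_sub, add_sub_add_left_eq_sub]
  exact Ideal.mul_mem_left _ _ (Ideal.subset_span ⟨(), rfl⟩)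

theorem ax1_map {y : A} (h : Ev fun _ : Unit => y) (ρ : A →+* A') (h' : Ev fun _ : Unit => ρ y) :
    ρ (exo p y) = exo p (ρ y) := by
  rw [exo, exo, map_add, map_one, evx_comp h ρ h', zc_unique (ρ.comp (zc p A)) (zc p A')]

theorem ax1_der {σ : Type} [Finite σ] {b : PS σ A} (hb : constantCoeff b = 0) (l : σ) :
    pderiv A l (exo p b) = (p : PS σ A) ^ 2 * exo p b * pderiv A l b := by
  have h0 : C0 fun _ : Unit => b := fun _ => hb
  have e : ∀ f, evx (zc p (PS σ A)) (fun _ : Unit => b) f =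
      sb (fun _ : Unit => b) (map (zc p A) f) := fun f => by
    rw [sb, evx_map h0.ev, zc_unique (C.comp (zc p A)) (zc p (PS σ A))]
  rw [exo, map_add, Derivation.map_one_eq_zero, zero_add, e, pderiv_sb h0, Fintype.sum_unique,
    pderiv_map']
  rw [show (default : Unit) = () from rfl, Exs_der]
  simp only [map_mul, map_pow, map_natCast, map_add, map_one]

theorem ax1_ev0 : Ev fun _ : Unit => (0 : A) := ev_nil fun _ => IsNilpotent.zero

theorem exo_zero : exo p (0 : A) = 1 := by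
  rw [exo, evx_zero, Exs_const, map_zero, add_zero]

theorem ax1_const {σ : Type} {b : PS σ A} (hb : constantCoeff b = 0) :
    constantCoeff (exo p b) = 1 := by
  have h0 : C0 fun _ : Unit => b := fun _ => hb
  rw [ax1_map h0.ev constantCoeff (by simpa only [hb] using ax1_ev0), hb, exo_zero]

theorem ax1_add (p : ℕ) [Fact p.Prime] : exo p (X 0 + X 1 : PS (Fin 2) ℤ_[p]) =
    exo p (X 0) * exo p (X 1) := by
  have h0 : constantCoeff (X 0 : PS (Fin 2) ℤ_[p]) = 0 := constantCoeff_X _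
  have h1 : constantCoeff (X 1 : PS (Fin 2) ℤ_[p]) = 0 := constantCoeff_X _
  have h2 : constantCoeff (X 0 + X 1 : PS (Fin 2) ℤ_[p]) = 0 := by rw [map_add, h0, h1, add_zero]
  refine sub_eq_zero.1 (odeu (fun _ : Unit => exo p (X 0 + X 1 : PS (Fin 2) ℤ_[p]) -
    exo p (X 0) * exo p (X 1)) (fun _ => ?_) (fun i a => ?_) ())
  · simp only [map_sub, map_mul, ax1_const h0, ax1_const h1, ax1_const h2, mul_one, sub_self]
  · rw [map_sub, Derivation.leibniz, ax1_der h0, ax1_der h1, ax1_der h2, map_add, smul_eq_mul,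
      smul_eq_mul]
    have e := Ideal.mul_mem_left (Ideal.span (Set.range fun _ : Unit =>
      exo p (X 0 + X 1 : PS (Fin 2) ℤ_[p]) - exo p (X 0) * exo p (X 1)))
      ((p : PS (Fin 2) ℤ_[p]) ^ 2 * (pderiv ℤ_[p] i (X 0) + pderiv ℤ_[p] i (X 1)))
      (Ideal.subset_span ⟨(), rfl⟩)
    refine Eq.mp (congrArg _ ?_) e
    ring

theorem ax1_one {σ S : Type} [CommRing S] {x : σ → S} (h : Ev x) {y : S}
    (hy : y ∈ Ideal.span (Set.range x)) : Ev fun _ : Unit => y :=
  h.span fun _ => Ideal.le_radical hy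

theorem ax1_evx {σ : Type} [Finite σ] {y : σ → A} (h : Ev y) (φ : A' →+* A) {b : PS σ A'}
    (hb : constantCoeff b = 0) : evx φ y (exo p b) = exo p (evx φ y b) := by
  have h0 : C0 fun _ : Unit => b := fun _ => hb
  exact ax1_map h0.ev _ (h.evx h0)

theorem exo_add {y y' : A} (h : Ev ![y, y']) : exo p (y + y') = exo p y * exo p y' := by
  have e := congrArg (evx (zc p A) ![y, y']) (ax1_add p)
  rw [map_mul, ax1_evx h _ (constantCoeff_X _), ax1_evx h _ (constantCoeff_X _),
    ax1_evx h _ (by simp), map_add, evx_X h, evx_X h] at e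
  exact e

theorem ax1_lin {y : A} (h : Ev fun _ : Unit => y) :
    ∃ c : A, exo p y - 1 = (p : A) ^ 2 * y * (1 + y * c) := by
  obtain ⟨g, h0, e⟩ := ax1_eq p
  have h1 := evx_sub_const (φ := zc p A) h g
  rw [Set.range_const, h0, map_one] at h1
  obtain ⟨c, hc⟩ := Ideal.mem_span_singleton.1 h1
  refine ⟨c, ?_⟩
  rw [exo, add_sub_cancel_left, e, map_mul, map_mul, map_pow, map_natCast, evx_X h, ← hc]
  ring

theorem exo_sub_one {y : A} (h : Ev fun _ : Unit => y) :
    (p : A) ^ 2 * y ∣ exo p y - 1 := by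
  obtain ⟨c, hc⟩ := ax1_lin (p := p) h
  exact ⟨_, hc⟩

theorem exo_map {y : A} (h : Ev fun _ : Unit => y) (ρ : A →+* A') (h' : Ev fun _ : Unit => ρ y) :
    ρ (exo p y) = exo p (ρ y) :=
  ax1_map h ρ h'

theorem ax1_pow {y : A} (h : Ev fun _ : Unit => y) (n : ℕ) :
    exo p y ^ n = exo p (n * y) := by
  induction n with
  | zero => rw [pow_zero, Nat.cast_zero, zero_mul, exo_zero]
  | succ n ih =>
    have h1 : y ∈ Ideal.span (Set.range fun _ : Unit => y) := Ideal.subset_span ⟨(), rfl⟩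
    rw [pow_succ, ih, Nat.cast_succ, add_mul, one_mul, exo_add]
    refine h.span fun j => Ideal.le_radical ?_
    fin_cases j
    · exact Ideal.mul_mem_left _ _ h1
    · exact h1

theorem ax1_norm {y : OC p} (h : ‖(y : ℂ_[p])‖ < 1) :
    ‖((exo p y : OC p) : ℂ_[p]) - 1‖ ≤ ((p : ℝ) ^ 2)⁻¹ := by
  have hs : Sm fun _ : Unit => y := fun _ => h
  exact oc_pdvd.1 ((dvd_mul_right _ _).trans (exo_sub_one hs.ev))

theorem lg_exo {y : OC p} (h : ‖(y : ℂ_[p])‖ < 1) :
    lg p ((exo p y : OC p) : ℂ_[p]) = (p : ℂ_[p]) ^ 2 * y := by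
  have hs : Sm fun _ : Unit => y := fun _ => h
  have hp : (1 : ℝ) < p := Nat.one_lt_cast.2 (Fact.out : p.Prime).one_lt
  have hp0 : (p : ℂ_[p]) ≠ 0 := Nat.cast_ne_zero.2 (Fact.out : p.Prime).ne_zero
  have h2 : ((p : ℝ) ^ 2)⁻¹ < 1 := inv_lt_one_of_one_lt₀ (by nlinarith)
  refine tendsto_nhds_unique (lg_spec (p := p) ((ax1_norm h).trans_lt h2)) ?_
  rw [← tendsto_sub_nhds_zero_iff]
  refine squeeze_zero_norm (a := fun k : ℕ => (p : ℝ)⁻¹ ^ k) (fun k => ?_)
    (tendsto_pow_atTop_nhds_zero_of_lt_one (by positivity) (inv_lt_one_of_one_lt₀ hp))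
  obtain ⟨c, hc⟩ := ax1_lin (p := p) (y := (p ^ k : ℕ) * y)
    (ax1_one hs.ev (Ideal.mul_mem_left _ _ (Ideal.subset_span ⟨(), rfl⟩)))
  rw [← ax1_pow hs.ev] at hc
  have e := congrArg (ov p) hc
  simp only [map_sub, map_mul, map_pow, map_one, map_add, map_natCast, Nat.cast_pow] at e
  have e1 : ((p : ℂ_[p]) ^ k)⁻¹ • (((exo p y : OC p) : ℂ_[p]) ^ p ^ k - 1) - (p : ℂ_[p]) ^ 2 * y =
      (p : ℂ_[p]) ^ k * ((((p : OC p) ^ 2 * y * y * c : OC p)) : ℂ_[p]) := by
    have hov : ∀ z : OC p, (z : ℂ_[p]) = ov p z := fun _ => rfl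
    rw [hov, hov, hov]
    simp only [map_mul, map_pow, map_natCast]
    rw [e, smul_eq_mul]
    field_simp
    ring
  rw [e1, norm_mul, norm_pow, UAP.norm_p_eq]
  exact mul_le_of_le_one_right (by positivity) (oc_le _)

theorem eq_exo {y v : OC p} (h : ‖(y : ℂ_[p])‖ < 1) (hv : ‖(v : ℂ_[p]) - 1‖ ≤ ((p : ℝ) ^ 2)⁻¹)
    (e : lg p (v : ℂ_[p]) = (p : ℂ_[p]) ^ 2 * y) : v = exo p y :=
  Subtype.ext (lg_inj hv (ax1_norm h) (e.trans (lg_exo h).symm))

/-- The series `exp (p ^ 2 * y) - 1` in several variables. -/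
def exS (p : ℕ) [Fact p.Prime] (ι A : Type) [CommRing A] [PC p A] : ι → PS ι A :=
  fun i => exo p (X i) - 1

variable {ι : Type} [Finite ι]

theorem exS_c0 : C0 (exS p ι A) := fun i => by
  rw [exS, map_sub, ax1_const (constantCoeff_X i), map_one, sub_self]

theorem exS_map (ρ : A →+* A') (i : ι) : map ρ (exS p ι A i) = exS p ι A' i := by
  have h0 : C0 fun _ : Unit => (X i : PS ι A) := fun _ => constantCoeff_X i
  have h1 : C0 fun _ : Unit => (X i : PS ι A') := fun _ => constantCoeff_X i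
  rw [exS, exS, map_sub, map_one, exo_map h0.ev _ (by simpa only [map_X] using h1.ev), map_X]

theorem exS_der [DecidableEq ι] (i l : ι) : pderiv A l (exS p ι A i) =
    if i = l then (p : PS ι A) ^ 2 * (1 + exS p ι A i) else 0 := by
  rw [exS, map_sub, Derivation.map_one_eq_zero, sub_zero, ax1_der (constantCoeff_X i),
    add_sub_cancel]
  split_ifs with h
  · rw [h, pderiv_X_self, mul_one]
  · rw [pderiv_X_of_ne h, mul_zero]

theorem evx_exS {y : ι → A} (h : Ev y) (φ : A' →+* A) (f : PS ι A') :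
    evx φ y (sb (exS p ι A') f) = evx φ (fun i => exo p (y i) - 1) f := by
  rw [evx_sb h (C0.ev exS_c0) (h.evx exS_c0)]
  congr 2
  funext i
  rw [exS, map_sub, map_one, ax1_evx h φ (constantCoeff_X i), evx_X h]

/-! Part 2. -/

omit [Finite ι] in
theorem ax2_c0 {R : Type} [CommRing R] (b : ι → R) :
    C0 fun i => (C (b i) * X () : PS Unit R) := fun i => by simp

theorem ax2_congr {R : Type} [CommRing R] (F : PS ι R) {q : R} {b b' : ι → R}
    (h : ∀ i, q ∣ b i - b' i) (ν : Unit →₀ ℕ) :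
    q ∣ coeff ν (sb (fun i => (C (b i) * X () : PS Unit R)) F) -
      coeff ν (sb (fun i => (C (b' i) * X () : PS Unit R)) F) := by
  let ρ := Ideal.Quotient.mk (Ideal.span {q})
  have e : (fun i => map ρ (C (b i) * X () : PS Unit R)) =
      fun i => map ρ (C (b' i) * X () : PS Unit R) := by
    funext i
    have : ρ (b i) = ρ (b' i) := Ideal.Quotient.eq.2 (Ideal.mem_span_singleton.2 (h i))
    simp only [map_mul, map_C, this]
  have e2 := map_sb (ax2_c0 b) ρ F
  rw [e, ← map_sb (ax2_c0 b') ρ F] at e2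
  have e3 := congrArg (coeff ν) e2
  rw [coeff_map, coeff_map] at e3
  exact Ideal.mem_span_singleton.1 (Ideal.Quotient.eq.1 e3)

theorem ax2_period [Fintype ι] [DecidableEq ι] (α : Matrix ι ι ℤ_[p]) (hα : IsUnit α.det)
    (N : ℕ) : ∃ n, 0 < n ∧ ∀ k m i j, (p : ℤ_[p]) ^ N ∣ (α ^ (k + n * m)) i j - (α ^ k) i j := by
  let ψ := (PadicInt.toZModPow (p := p) N).mapMatrix (m := ι)
  have : NeZero (p ^ N) := ⟨pow_ne_zero _ (Fact.out : p.Prime).ne_zero⟩
  obtain ⟨u, hu⟩ := ((Matrix.isUnit_iff_isUnit_det α).2 hα).map ψ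
  obtain ⟨n, hn, hu1⟩ := (isOfFinOrder_of_finite u).exists_pow_eq_one
  refine ⟨n, hn, fun k m i j => ?_⟩
  have h1 : ψ α ^ n = 1 := by rw [← hu, ← Units.val_pow_eq_pow_val, hu1, Units.val_one]
  have h2 : ψ (α ^ (k + n * m)) = ψ (α ^ k) := by
    rw [map_pow, map_pow, pow_add, pow_mul, h1, one_pow, mul_one]
  have h3 : PadicInt.toZModPow N ((α ^ (k + n * m)) i j) = PadicInt.toZModPow N ((α ^ k) i j) :=
    congrFun (congrFun h2 i) j
  rw [← Ideal.mem_span_singleton, ← PadicInt.ker_toZModPow, RingHom.mem_ker, map_sub, h3, sub_self]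

theorem ax2_low {R : Type} [CommRing R] [IsDomain R] {q : R} (hq : q ≠ 0)
    (he : Ev fun _ : Unit => q) {G : PS Unit R} {d : ℕ}
    (hd : ∀ e < d, coeff (Finsupp.single () e) G = 0)
    (h : evx (RingHom.id R) (fun _ => q) G = 0) : q ∣ coeff (Finsupp.single () d) G := by
  obtain ⟨H, rfl⟩ : (PowerSeries.X : PowerSeries R) ^ d ∣ G := PowerSeries.X_pow_dvd_iff.2 hd
  have h1 : coeff (Finsupp.single () d) ((PowerSeries.X : PowerSeries R) ^ d * H) =
      constantCoeff H := by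
    have := PowerSeries.coeff_X_pow_mul H d 0
    rw [zero_add, PowerSeries.coeff_zero_eq_constantCoeff_apply] at this
    exact this
  have h2 : evx (RingHom.id R) (fun _ : Unit => q) (PowerSeries.X : PowerSeries R) = q :=
    evx_X he ()
  rw [map_mul, map_pow, h2] at h
  have h3 := evx_sub_const (φ := RingHom.id R) he H
  rw [(mul_eq_zero.1 h).resolve_left (pow_ne_zero _ hq), zero_sub, Set.range_const,
    Ideal.mem_span_singleton, dvd_neg] at h3
  rw [h1]
  exact h3

/-- A series that vanishes on the orbit of `a` vanishes on the line through `a`. -/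
theorem line_lemma [Fintype ι] [DecidableEq ι] (F : PS ι (OC p)) (a : ι → OC p)
    (α : Matrix ι ι ℤ_[p]) (hα : IsUnit α.det) {f : ℕ} (hf : 0 < f) (k0 : ℕ)
    (h : ∀ k, k0 < k → evx (RingHom.id _)
      ((p : OC p) ^ (f * k) • ((α ^ k).map (zc p (OC p))).mulVec a) F = 0) :
    sb (fun i => (C (a i) * X () : PS Unit (OC p))) F = 0 := by
  let b : ℕ → ι → OC p := fun k => ((α ^ k).map (zc p (OC p))).mulVec a
  have hp0 : (p : OC p) ≠ 0 := Nat.cast_ne_zero.2 (Fact.out : p.Prime).ne_zero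
  have key : ∀ d k, coeff (Finsupp.single () d)
      (sb (fun i => (C (b k i) * X () : PS Unit (OC p))) F) = 0 := by
    intro d
    induction d using Nat.strong_induction_on with
    | _ d ih =>
    intro k
    refine pc_sep p fun N => ?_
    obtain ⟨n, hn, hper⟩ := ax2_period α hα N
    set k' := k + n * (k0 + N + 1) with hk'
    have hk1 : k0 + N + 1 ≤ k' := le_add_left (Nat.le_mul_of_pos_left _ hn)
    have hk2 : N + 1 ≤ f * k' := le_trans (by omega) (Nat.le_mul_of_pos_left k' hf)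
    have hpn : ∀ y : OC p, PN p ((p : OC p) ^ (f * k') * y) := fun y =>
      Ideal.le_radical (Ideal.mem_span_singleton.2
        (Dvd.dvd.mul_right (dvd_pow_self _ (by omega)) y))
    have he : Ev fun _ : Unit => (p : OC p) ^ (f * k') :=
      ev_pad p fun _ => by simpa using hpn 1
    have hb : (fun i => evx (RingHom.id (OC p)) (fun _ : Unit => (p : OC p) ^ (f * k'))
        (C (b k' i) * X ())) = (p : OC p) ^ (f * k') • b k' := by
      funext i
      rw [map_mul, evx_C he, evx_X he, mul_comm]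
      rfl
    have h1 := evx_sb (φ := RingHom.id (OC p)) he (ax2_c0 (b k')).ev
      (by rw [hb]; exact ev_pad p fun i => hpn _) F
    rw [hb, h k' (by omega)] at h1
    have h2 := ax2_low (pow_ne_zero _ hp0) he (fun e he => ih e he k') h1
    have h3 : ∀ i, (p : OC p) ^ N ∣ b k' i - b k i := by
      intro i
      simp only [b, Matrix.mulVec, dotProduct, Matrix.map_apply, ← Finset.sum_sub_distrib,
        ← sub_mul, ← map_sub]
      refine Finset.dvd_sum fun j _ => Dvd.dvd.mul_right ?_ _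
      have := map_dvd (zc p (OC p)) (hper k (k0 + N + 1) i j)
      rwa [map_pow, map_natCast] at this
    have h4 := ax2_congr F h3 (Finsupp.single () d)
    have h5 := dvd_sub ((pow_dvd_pow _ (by omega : N ≤ f * k')).trans h2) h4
    rwa [sub_sub_cancel] at h5
  have hb0 : b 0 = a := by
    simp only [b, pow_zero]
    rw [Matrix.map_one _ (map_zero _) (map_one _), Matrix.one_mulVec]
  rw [← hb0]
  exact PowerSeries.ext fun d => key d 0

theorem ax2_div {R : Type} [CommRing R] [PC p R] (F : PS Unit R) {a : R} (ha : PN p a)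
    (h : evx (RingHom.id R) (fun _ => a) F = 0) : (X () - C a : PS Unit R) ∣ F := by
  have e1 : Ev fun _ : Unit => (X () + C a : PS Unit R) := ev_ps p fun _ => by simpa using ha
  have e2 : Ev fun _ : Unit => (X () - C a : PS Unit R) :=
    ev_ps p fun _ => by
      have h : PN p (-a) := neg_mem ha
      simpa using h
  have h1 : constantCoeff (sb (fun _ : Unit => (X () + C a : PS Unit R)) F) = 0 := by
    have hc : (fun _ : Unit => constantCoeff (X () + C a : PS Unit R)) = fun _ => a := by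
      funext _; simp
    rw [evx_comp e1 constantCoeff (by rw [hc]; exact ev_pad p fun _ => ha), hc,
      constantCoeff_comp_C, h]
  obtain ⟨Q, hQ⟩ := PowerSeries.X_dvd_iff.2 h1
  have h2 : (sb fun _ : Unit => (X () - C a : PS Unit R)).comp
      (sb fun _ : Unit => (X () + C a : PS Unit R)) = RingHom.id _ := by
    refine (c0_X (σ := Unit) (A := R)).ev.ext (fun c => ?_) (fun i => ?_) fun _ => rfl
    · rw [RingHom.comp_apply, evx_C e1, evx_C e2]; rfl
    · rw [RingHom.comp_apply, evx_X e1, map_add, evx_X e2, evx_C e2, sub_add_cancel]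
  have h3 := RingHom.congr_fun h2 F
  rw [RingHom.comp_apply, hQ, map_mul, RingHom.id_apply] at h3
  have h4 : sb (fun _ : Unit => (X () - C a : PS Unit R)) (PowerSeries.X : PowerSeries R) =
      X () - C a := evx_X e2 ()
  rw [h4] at h3
  exact ⟨_, h3.symm⟩

theorem ax2_wei (s : Finset (OC p)) : ∀ F : PS Unit (OC p), (∀ a ∈ s, ‖(a : ℂ_[p])‖ < 1) →
    (∀ a ∈ s, evx (RingHom.id _) (fun _ => a) F = 0) →
      (X () : PS Unit (RF p)) ^ s.card ∣ map (red p) F := by
  classical
  induction s using Finset.induction_on with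
  | empty => intro F _ _; simp
  | insert a s has ih =>
    intro F hs h
    have ha := hs a (Finset.mem_insert_self _ _)
    obtain ⟨Q, rfl⟩ := ax2_div F (pn_iff.2 ha) (h a (Finset.mem_insert_self _ _))
    have hQ := ih Q (fun c hc => hs c (Finset.mem_insert_of_mem hc)) fun c hc => by
      have hc' := Finset.mem_insert_of_mem (b := a) hc
      have he : Ev fun _ : Unit => c := ev_pad p fun _ => pn_iff.2 (hs c hc')
      have h1 := h c hc'
      rw [map_mul, map_sub, evx_X he, evx_C he] at h1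
      refine (mul_eq_zero.1 h1).resolve_left (sub_ne_zero.2 ?_)
      rintro rfl
      exact has hc
    rw [Finset.card_insert_of_notMem has, map_mul, map_sub, map_X, map_C, red_eq_zero.2 ha,
      map_zero, sub_zero, pow_succ']
    exact mul_dvd_mul_left _ hQ

/-- A series with `n` zeros in the open disc is divisible by `t ^ n` in the reduction. -/
theorem wei (F : PS Unit (OC p)) (s : Finset (OC p)) (hs : ∀ a ∈ s, ‖(a : ℂ_[p])‖ < 1)
    (h : ∀ a ∈ s, evx (RingHom.id _) (fun _ => a) F = 0) {r : ℕ} (hr : r < s.card) :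
    red p (coeff (Finsupp.single () r) F) = 0 := by
  have := X_pow_dvd_iff.1 (ax2_wei s F hs h) (Finsupp.single () r) (by simpa using hr)
  rwa [coeff_map] at this

end Pool.Agent.E7
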