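import Pool.Agent.Lib.MP_7e5527_ag.EA.AW
import Pool.Agent.Lib.MP_7e5527_ag.EA.AX
import Pool.Agent.Lib.MP_7e5527_ag.EO.G1

/-! Discretely valued subfields. -/

open MvPowerSeries Filter Topology

noncomputable section

namespace Pool.Agent.E7

variable {p : ℕ} [Fact p.Prime]

/-- A closed discretely valued subfield that contains the Witt vectors. -/
structure DVF (K : Subfield ℂ_[p]) : Prop where
  cl : IsClosed (K : Set ℂ_[p])
  jw : ∀ w, (jw p w : ℂ_[p]) ∈ K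
  dv : ∃ r : ℝ, r < 1 ∧ ∀ y ∈ K, ‖y‖ < 1 → ‖y‖ ≤ r

variable {K : Subfield ℂ_[p]}

/-! Part 1. -/

theorem DVF.qp (h : DVF K) (a : ℚ_[p]) : algebraMap ℚ_[p] ℂ_[p] a ∈ K := by
  refine (Padic.denseRange_ratCast p).induction_on (p := fun a => algebraMap ℚ_[p] ℂ_[p] a ∈ K) a
    (h.cl.preimage (continuous_algebraMap ℚ_[p] ℂ_[p])) fun q => ?_
  rw [map_ratCast]
  exact SubfieldClass.ratCast_mem K q

theorem av1_one_lt : (1 : ℝ) < p := by exact_mod_cast (Fact.out : p.Prime).one_lt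

theorem av1_ne : (p : ℂ_[p]) ≠ 0 := by exact_mod_cast (Fact.out : p.Prime).ne_zero

theorem av1_lim : Tendsto (fun k : ℕ => ((p : ℝ) ^ k)⁻¹) atTop (𝓝 0) :=
  tendsto_inv_atTop_zero.comp (tendsto_pow_atTop_atTop_of_one_lt av1_one_lt)

theorem av1_jw (m : ℕ) (w : W0 p) :
    (jw p ((p : W0 p) ^ m * w) : ℂ_[p]) = (p : ℂ_[p]) ^ m * jw p w := by
  rw [map_mul, map_pow, map_natCast]
  simp

theorem av1_unit (u : (W0 p)ˣ) : ‖(jw p u : ℂ_[p])‖ = 1 := oc_unit.1 (u.isUnit.map (jw p))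

theorem av1_dvd {w : W0 p} {k : ℕ} (h : ‖(jw p w : ℂ_[p])‖ < p * ((p : ℝ) ^ k)⁻¹) :
    (p : W0 p) ^ k ∣ w := by
  rcases eq_or_ne w 0 with rfl | hw
  · exact dvd_zero _
  obtain ⟨m, u, rfl⟩ := WittVector.exists_eq_pow_p_mul' w hw
  refine (pow_dvd_pow _ ?_).mul_right _
  have h0 : (0 : ℝ) < p := one_pos.trans av1_one_lt
  rw [av1_jw, norm_mul, av1_unit, mul_one, norm_pow, trb_p, inv_pow, ← div_eq_mul_inv,
    lt_div_iff₀ (pow_pos h0 _), inv_mul_lt_iff₀ (pow_pos h0 _), ← pow_succ,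
    pow_lt_pow_iff_right₀ av1_one_lt] at h
  omega

theorem av1_dvd' {w : W0 p} {k : ℕ} (h : ‖(jw p w : ℂ_[p])‖ ≤ ((p : ℝ) ^ k)⁻¹) :
    (p : W0 p) ^ k ∣ w :=
  av1_dvd (h.trans_lt (lt_mul_of_one_lt_left
    (inv_pos.2 (pow_pos (one_pos.trans av1_one_lt) _)) av1_one_lt))

/-- The fraction field of the Witt vectors. -/
def av1K (p : ℕ) [Fact p.Prime] : Subfield ℂ_[p] where
  carrier := {y | ∃ (n : ℕ) (w : W0 p), (p : ℂ_[p]) ^ n * y = jw p w}
  mul_mem' := by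
    rintro a b ⟨n, w, h⟩ ⟨n', w', h'⟩
    refine ⟨n + n', w * w', ?_⟩
    rw [map_mul, Subring.coe_mul, ← h, ← h']
    ring
  one_mem' := ⟨0, 1, by simp⟩
  add_mem' := by
    rintro a b ⟨n, w, h⟩ ⟨n', w', h'⟩
    refine ⟨n + n', (p : W0 p) ^ n' * w + (p : W0 p) ^ n * w', ?_⟩
    rw [map_add, Subring.coe_add, av1_jw, av1_jw, ← h, ← h']
    ring
  zero_mem' := ⟨0, 0, by simp⟩
  neg_mem' := by
    rintro a ⟨n, w, h⟩
    refine ⟨n, -w, ?_⟩
    rw [map_neg, Subring.coe_neg, ← h]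
    ring
  inv_mem' := by
    rintro a ⟨n, w, h⟩
    rcases eq_or_ne a 0 with rfl | ha
    · exact ⟨0, 0, by simp⟩
    have hw : w ≠ 0 := by
      rintro rfl
      exact mul_ne_zero (pow_ne_zero _ av1_ne) ha (by simpa using h)
    obtain ⟨m, u, rfl⟩ := WittVector.exists_eq_pow_p_mul' w hw
    refine ⟨m, (p : W0 p) ^ n * (u⁻¹ : (W0 p)ˣ), ?_⟩
    have e : (jw p u : ℂ_[p]) * jw p (u⁻¹ : (W0 p)ˣ) = 1 := by
      rw [← Subring.coe_mul, ← map_mul, Units.mul_inv, map_one, Subring.coe_one]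
    rw [av1_jw] at h ⊢
    rw [mul_inv_eq_iff_eq_mul₀ ha]
    linear_combination (-(jw p (u⁻¹ : (W0 p)ˣ) : ℂ_[p])) * h - (p : ℂ_[p]) ^ m * e

theorem av1_int {y : ℂ_[p]} (hy : y ∈ av1K p) {k : ℕ} (h : ‖y‖ < p * ((p : ℝ) ^ k)⁻¹) :
    ∃ w : W0 p, y = jw p ((p : W0 p) ^ k * w) := by
  obtain ⟨n, w, e⟩ := hy
  have h0 : (0 : ℝ) < p := one_pos.trans av1_one_lt
  obtain ⟨w', rfl⟩ := av1_dvd (w := w) (k := n + k) (by
    rw [← e, norm_mul, norm_pow, trb_p, inv_pow, pow_add, mul_inv, mul_left_comm]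
    exact mul_lt_mul_of_pos_left h (inv_pos.2 (pow_pos h0 _)))
  refine ⟨w', mul_left_cancel₀ (pow_ne_zero n av1_ne) ?_⟩
  rw [e, pow_add, mul_assoc, av1_jw]

theorem av1_closed : IsClosed (av1K p : Set ℂ_[p]) := by
  have h0 : (0 : ℝ) < p := one_pos.trans av1_one_lt
  have hp : (p : ℂ_[p]) ∈ av1K p := natCast_mem _ p
  refine isClosed_of_closure_subset fun y hy => ?_
  obtain ⟨n, hn⟩ := ((av1_lim (p := p)).mul_const ‖y‖).eventually
    (gt_mem_nhds (show 0 * ‖y‖ < 1 by simp)) |>.exists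
  have h1 : ‖(p : ℂ_[p]) ^ n * y‖ < 1 := by rwa [norm_mul, norm_pow, trb_p, inv_pow]
  have h2 : (p : ℂ_[p]) ^ n * y ∈ closure (av1K p : Set ℂ_[p]) :=
    map_mem_closure (continuous_const_mul _) hy fun a ha => mul_mem (pow_mem hp n) ha
  generalize hz : (p : ℂ_[p]) ^ n * y = z at h1 h2
  have h3 : ∀ k : ℕ, ∃ w : W0 p, ‖(jw p w : ℂ_[p]) - z‖ ≤ ((p : ℝ) ^ k)⁻¹ := fun k => by
    obtain ⟨a, ha, hd⟩ := Metric.mem_closure_iff.1 h2 _ (inv_pos.2 (pow_pos h0 k))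
    rw [dist_comm, dist_eq_norm] at hd
    have hk : ((p : ℝ) ^ k)⁻¹ ≤ 1 := inv_le_one_of_one_le₀ (one_le_pow₀ av1_one_lt.le)
    obtain ⟨w, rfl⟩ := av1_int ha (k := 0) (by
      rw [← sub_add_cancel a z, pow_zero, inv_one, mul_one]
      exact ((IsUltrametricDist.norm_add_le_max _ _).trans
        (max_le (hd.le.trans hk) h1.le)).trans_lt av1_one_lt)
    exact ⟨_, hd.le⟩
  choose w hw using h3
  obtain ⟨v, hv⟩ := pc_lim p w fun k => av1_dvd' (by
    have e : (jw p (w (k + 1) - w k) : ℂ_[p]) = (jw p (w (k + 1)) - z) + -(jw p (w k) - z) := by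
      rw [map_sub, AddSubgroupClass.coe_sub]
      ring
    rw [e]
    refine (IsUltrametricDist.norm_add_le_max _ _).trans (max_le ((hw _).trans ?_) ?_)
    · exact inv_anti₀ (pow_pos h0 _) (pow_le_pow_right₀ av1_one_lt.le k.le_succ)
    · rw [norm_neg]
      exact hw k)
  refine ⟨n, v, hz.trans (sub_eq_zero.1 (norm_le_zero_iff.1
    (ge_of_tendsto' (av1_lim (p := p)) fun k => ?_))).symm⟩
  have e : (jw p v : ℂ_[p]) - z = jw p (v - w k) + (jw p (w k) - z) := by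
    rw [map_sub, AddSubgroupClass.coe_sub]
    ring
  rw [e]
  refine (IsUltrametricDist.norm_add_le_max _ _).trans (max_le (oc_pdvd.1 ?_) (hw k))
  have := map_dvd (jw p) (hv k)
  rwa [map_pow, map_natCast] at this

theorem exists_dvf (p : ℕ) [Fact p.Prime] : ∃ K : Subfield ℂ_[p], DVF K := by
  refine ⟨av1K p, av1_closed, fun w => ⟨0, w, by simp⟩, (p : ℝ)⁻¹,
    inv_lt_one_of_one_lt₀ av1_one_lt, fun y hy h => ?_⟩
  obtain ⟨w, rfl⟩ := av1_int hy (k := 1) (by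
    rwa [pow_one, mul_inv_cancel₀ (one_pos.trans av1_one_lt).ne'])
  rw [av1_jw, pow_one, norm_mul, trb_p]
  exact mul_le_of_le_one_right (by positivity) (oc_le _)

theorem av1_root {r : ℝ} (hr : ∀ y ∈ K, ‖y‖ < 1 → ‖y‖ ≤ r) {z : ℂ_[p]} (hz : ‖z‖ < 1)
    {P : Polynomial K} (hP : P ≠ 0) (h0 : Polynomial.aeval z P = 0) {n : ℕ}
    (hn : P.natDegree ≤ n) : ‖z‖ ^ n ≤ r := by
  by_contra hlt
  rw [not_le] at hlt
  have hr0 : 0 ≤ r := by simpa using hr 0 K.zero_mem (by simp)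
  have hne : ∀ i ∈ P.support, ((P.coeff i : K) : ℂ_[p]) ≠ 0 := fun i hi h =>
    Polynomial.mem_support_iff.1 hi (Subtype.ext h)
  rcases eq_or_ne z 0 with rfl | hz0
  · rcases n with _ | n
    · rw [Polynomial.eq_C_of_natDegree_le_zero hn, Polynomial.aeval_C, _root_.map_eq_zero] at h0
      exact hP (by rw [Polynomial.eq_C_of_natDegree_le_zero hn, h0, map_zero])
    · simp at hlt
      linarith
  have key : ∀ i ∈ P.support, ∀ j ∈ P.support, i < j →
      ‖(P.coeff i : ℂ_[p]) * z ^ i‖ ≠ ‖(P.coeff j : ℂ_[p]) * z ^ j‖ := by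
    intro i hi j hj hij e
    obtain ⟨d, rfl⟩ := Nat.exists_eq_add_of_lt hij
    have e' : ‖(P.coeff i : ℂ_[p]) / P.coeff (i + d + 1)‖ = ‖z‖ ^ (d + 1) := by
      rw [norm_div, div_eq_iff (norm_ne_zero_iff.2 (hne _ hj))]
      refine mul_right_cancel₀ (pow_ne_zero i (norm_ne_zero_iff.2 hz0)) ?_
      rw [norm_mul, norm_mul, norm_pow, norm_pow] at e
      rw [e]
      ring
    have h1 := hr _ (div_mem (P.coeff i).2 (P.coeff (i + d + 1)).2)
      (by rw [e']; exact pow_lt_one₀ (norm_nonneg _) hz d.succ_ne_zero)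
    have h2 := Polynomial.le_natDegree_of_mem_supp _ hj
    have h3 : ‖z‖ ^ n ≤ ‖z‖ ^ (d + 1) := pow_le_pow_of_le_one (norm_nonneg _) hz.le (by omega)
    linarith
  have hs := Polynomial.support_nonempty.2 hP
  have h1 := IsUltrametricDist.norm_sum_eq_sup'_of_pairwise_ne
    (f := fun i => (P.coeff i : ℂ_[p]) * z ^ i) hs fun i hi j hj hij =>
      (lt_or_gt_of_ne hij).elim (key i hi j hj) fun h => (key j hj i hi h).symm
  rw [Polynomial.aeval_def, Polynomial.eval₂_eq_sum, Polynomial.sum] at h0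
  obtain ⟨i, hi⟩ := hs
  have h2 := Finset.le_sup' (fun i => ‖(P.coeff i : ℂ_[p]) * z ^ i‖) hi
  rw [← h1] at h2
  have h3 : ∑ i ∈ P.support, (P.coeff i : ℂ_[p]) * z ^ i = 0 := h0
  rw [h3, norm_zero, norm_le_zero_iff] at h2
  exact mul_ne_zero (hne i hi) (pow_ne_zero i hz0) h2

theorem DVF.ext (h : DVF K) {τ : Type} [Finite τ] {y : τ → ℂ_[p]} (hy : ∀ i, IsAlgebraic K (y i)) :
    ∃ K' : Subfield ℂ_[p], DVF K' ∧ K ≤ K' ∧ ∀ i, y i ∈ K' := by
  let L := IntermediateField.adjoin K (Set.range y)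
  have : FiniteDimensional K L := IntermediateField.finiteDimensional_adjoin (by
    rintro _ ⟨j, rfl⟩
    exact (hy j).isIntegral)
  have hle : K ≤ L.toSubfield := fun a ha => L.algebraMap_mem ⟨a, ha⟩
  obtain ⟨r, hr1, hr⟩ := h.dv
  have hr0 : 0 ≤ r := by simpa using hr 0 K.zero_mem (by simp)
  refine ⟨L.toSubfield, ⟨?_, fun w => hle (h.jw w), r ^ ((Module.finrank K L : ℝ)⁻¹),
    Real.rpow_lt_one hr0 hr1 (inv_pos.2 (Nat.cast_pos.2 Module.finrank_pos)), fun z hz h1 => ?_⟩,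
    hle, fun i => IntermediateField.subset_adjoin _ _ ⟨i, rfl⟩⟩
  · let : NontriviallyNormedField K :=
      { (inferInstance : NormedField K) with
        non_trivial := ⟨⟨(p : ℂ_[p])⁻¹, inv_mem (natCast_mem K p)⟩, by
          show 1 < ‖(p : ℂ_[p])⁻¹‖
          rw [norm_inv, trb_p, inv_inv]
          exact av1_one_lt⟩ }
    have : CompleteSpace K := h.cl.completeSpace_coe
    have : ContinuousSMul K ℂ_[p] :=
      ⟨(continuous_subtype_val.comp continuous_fst).mul continuous_snd⟩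
    have : FiniteDimensional K (Subalgebra.toSubmodule L.toSubalgebra) := ‹FiniteDimensional K L›
    exact (Subalgebra.toSubmodule L.toSubalgebra).closed_of_finiteDimensional
  · have hi : IsIntegral K (⟨z, hz⟩ : L) := IsIntegral.of_finite K _
    have h2 := av1_root hr h1 (minpoly.ne_zero hi) (by
      have := congrArg L.val (minpoly.aeval K (⟨z, hz⟩ : L))
      rwa [← Polynomial.aeval_algHom_apply, map_zero] at this) (minpoly.natDegree_le _)
    refine le_of_pow_le_pow_left₀ (Module.finrank_pos (R := K) (M := L)).ne'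
      (Real.rpow_nonneg hr0 _) ?_
    rwa [Real.rpow_inv_natCast_pow hr0 Module.finrank_pos.ne']

theorem exists_dvf' {τ : Type} [Finite τ] {y : τ → ℂ_[p]} (hy : ∀ i, IsAlgebraic ℚ_[p] (y i)) :
    ∃ K : Subfield ℂ_[p], DVF K ∧ (∀ i, y i ∈ K) ∧ ∀ ξ : ℂ_[p], ξ ^ p ^ 2 = 1 → ξ ∈ K := by
  obtain ⟨K, h⟩ := exists_dvf p
  have hp : 0 < p ^ 2 := pow_pos (Fact.out : p.Prime).pos 2
  obtain ⟨K', h', -, hm⟩ := h.ext (τ := τ ⊕ Polynomial.nthRootsFinset (p ^ 2) (1 : ℂ_[p]))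
    (y := Sum.elim y Subtype.val) (by
      rintro (i | ξ)
      · exact (hy i).ringHom_of_comp_eq ((algebraMap ℚ_[p] ℂ_[p]).codRestrict K h.qp)
          (RingHom.id _) (RingHom.injective _) rfl
      · refine IsAlgebraic.of_pow hp ?_
        rw [Sum.elim_inr, (Polynomial.mem_nthRootsFinset hp _).1 ξ.2]
        exact isAlgebraic_one)
  exact ⟨K', h', fun i => hm (Sum.inl i),
    fun ξ hξ => hm (Sum.inr ⟨ξ, (Polynomial.mem_nthRootsFinset hp _).2 hξ⟩)⟩

theorem evx_mem (h : IsClosed (K : Set ℂ_[p])) {σ A : Type} [Finite σ] [CommRing A]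
    {φ : A →+* OC p} (hφ : ∀ a, (φ a : ℂ_[p]) ∈ K) {y : σ → OC p} (hy : Sm y)
    (hK : ∀ i, (y i : ℂ_[p]) ∈ K) (f : PS σ A) : (evx φ y f : ℂ_[p]) ∈ K := by
  let := Fintype.ofFinite σ
  have hr : ‖fun i => (y i : ℂ_[p])‖ < 1 := (pi_norm_lt_iff one_pos).2 hy
  have h1 : (evx φ y : PS σ A →+* OC p).comp C = φ := RingHom.ext (evx_C hy.ev)
  have h2 : (fun i => evx φ y (X i : PS σ A)) = y := funext (evx_X hy.ev)
  refine h.mem_of_tendsto (b := atTop)
    (f := fun N : ℕ => ((MvPolynomial.eval₂ φ y (truncTotal N f) : OC p) : ℂ_[p])) ?_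
    (Eventually.of_forall fun N => MvPolynomial.eval₂_mem (s := K.toSubring.comap (ov p))
      (fun _ _ => hφ _) hK)
  rw [tendsto_iff_norm_sub_tendsto_zero]
  refine squeeze_zero (fun _ => norm_nonneg _) (fun N => ?_)
    (tendsto_pow_atTop_nhds_zero_of_lt_one (norm_nonneg _) hr)
  have h3 := hom_trunc (evx φ y) f N
  rw [h1, h2] at h3
  rw [norm_sub_rev, ← AddSubgroupClass.coe_sub]
  exact span_pow_norm (norm_nonneg _) (norm_le_pi_norm fun i => (y i : ℂ_[p])) h3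

theorem DVF.lg_mem (h : DVF K) {w : ℂ_[p]} (hw : ‖w - 1‖ < 1) (hK : w ∈ K) : lg p w ∈ K :=
  h.cl.mem_of_tendsto (lg_spec hw) (Eventually.of_forall fun _ =>
    mul_mem (inv_mem (pow_mem (natCast_mem K p) _)) (sub_mem (pow_mem hK _) (one_mem K)))

theorem DVF.pow_mem (h : DVF K) {w : ℂ_[p]} (hw : ‖w - 1‖ < 1) (hK : lg p w ∈ K) :
    ∃ c : ℕ, w ^ p ^ c ∈ K := by
  obtain ⟨B, hB⟩ := ppow_bound p hw
  have h0 : (0 : ℝ) < ((p : ℝ) ^ 2)⁻¹ := inv_pos.2 (pow_pos (one_pos.trans av1_one_lt) _)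
  obtain ⟨c, h1, h2⟩ := ((((av1_lim (p := p)).const_mul B).eventually
    (gt_mem_nhds (by rwa [mul_zero]))).and (((av1_lim (p := p)).mul_const ‖lg p w‖).eventually
      (gt_mem_nhds (by rwa [zero_mul])))).exists
  have h3 := (hB ℂ_[p] w le_rfl c).trans h1.le
  have h4 : ‖w ^ p ^ c‖ ≤ 1 := by
    rw [← sub_add_cancel (w ^ p ^ c) 1]
    refine (IsUltrametricDist.norm_add_le_max _ _).trans (max_le (h3.trans ?_) norm_one.le)
    exact inv_le_one_of_one_le₀ (one_le_pow₀ av1_one_lt.le)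
  have h5 : ‖(p : ℂ_[p]) ^ c * lg p w / (p : ℂ_[p]) ^ 2‖ < 1 := by
    rwa [norm_div, norm_mul, norm_pow, norm_pow, trb_p, inv_pow, inv_pow, div_lt_one h0]
  have h6 := eq_exo (y := ⟨_, mem_OC.2 h5.le⟩) (v := ⟨_, mem_OC.2 h4⟩) h5 h3 (by
    show lg p (w ^ p ^ c) = (p : ℂ_[p]) ^ 2 * ((p : ℂ_[p]) ^ c * lg p w / (p : ℂ_[p]) ^ 2)
    rw [lg_pow hw, mul_div_cancel₀ _ (pow_ne_zero _ av1_ne), Nat.cast_pow])
  refine ⟨c, ?_⟩
  rw [show w ^ p ^ c = _ from congrArg Subtype.val h6, exo, Subring.coe_add, Subring.coe_one]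
  refine add_mem (one_mem K) (evx_mem h.cl (fun a => ?_) (fun _ => h5) (fun _ => ?_) _)
  · rw [zc_oc]
    exact h.qp _
  · exact div_mem (mul_mem (K.pow_mem (natCast_mem K p) _) hK) (K.pow_mem (natCast_mem K p) _)

/-! Part 2. -/

open Polynomial in
theorem av2_iso (h : DVF K) {z z' : ℂ_[p]} (hz : IsIntegral K z) (hz' : aeval z' (minpoly K z) = 0) :
    ∃ σ : ℂ_[p] →+* ℂ_[p], UAP.Iso σ ∧ (∀ a ∈ K, σ a = a) ∧ σ z = z' := by
  let _ : NontriviallyNormedField K := NontriviallyNormedField.ofNormNeOne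
    ⟨⟨_, h.qp p⟩, fun e => (Nat.cast_ne_zero.2 (Fact.out : p.Prime).ne_zero)
      ((_root_.map_eq_zero _).1 (congrArg Subtype.val e)), by
        change ‖algebraMap ℚ_[p] ℂ_[p] p‖ ≠ 1
        rw [norm_algebraMap']
        exact Padic.norm_p_lt_one.ne⟩
  have : CompleteSpace K := h.cl.completeSpace_coe
  have hn : ∀ (τ : algebraicClosure K ℂ_[p] →ₐ[K] ℂ_[p]) a,
      ‖τ a‖ = spectralNorm K (algebraicClosure K ℂ_[p]) a := fun τ a =>
    spectralNorm_unique_field_norm_ext (K := K) (f :=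
      { toFun := fun a => ‖τ a‖
        map_mul' := fun a b => by rw [map_mul, norm_mul]
        nonneg' := fun a => norm_nonneg _
        eq_zero' := fun a => by rw [norm_eq_zero, _root_.map_eq_zero]
        add_le' := fun a b => by rw [map_add]; exact norm_add_le _ _ })
      (fun x => congrArg norm (τ.commutes x)) a
  have hmem : ∀ a : PadicAlgCl p, UAP.ap p a ∈ algebraicClosure K ℂ_[p] := fun a =>
    mem_algebraicClosure_iff'.2 ((Algebra.IsIntegral.isIntegral (R := ℚ_[p]) a).map_of_comp_eq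
      ((algebraMap ℚ_[p] ℂ_[p]).codRestrict K h.qp) (UAP.ap p) (by ext; rfl))
  obtain ⟨σ0, h0⟩ := UAP.exists_algHom_conj K ℂ_[p] ℂ_[p] ⟨z, mem_algebraicClosure_iff'.2 hz⟩ z' hz'
  have h1 : ∀ a, ‖σ0 a‖ = ‖(a : ℂ_[p])‖ := fun a =>
    (hn σ0 a).trans (hn (algebraicClosure K ℂ_[p]).val a).symm
  let τ : PadicAlgCl p →+* ℂ_[p] :=
    (σ0 : algebraicClosure K ℂ_[p] →+* ℂ_[p]).comp ((UAP.ap p).codRestrict _ hmem)
  have hτ : ∀ a, ‖τ a‖ = ‖a‖ := fun a => (h1 _).trans (PadicComplex.norm_extends p a)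
  have hi : Isometry τ := AddMonoidHomClass.isometry_of_norm τ hτ
  let σ : ℂ_[p] →+* ℂ_[p] := UniformSpace.Completion.extensionHom τ hi.continuous
  have hσ : UAP.Iso σ := fun z => by
    refine UniformSpace.Completion.induction_on z (isClosed_eq ?_ continuous_norm) fun a => ?_
    · exact continuous_norm.comp UniformSpace.Completion.continuous_extension
    · rw [UniformSpace.Completion.extensionHom_coe, hτ, PadicComplex.norm_extends]
  have h2 : ∀ a : algebraicClosure K ℂ_[p], σ a = σ0 a := fun a => by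
    refine eq_of_forall_dist_le fun ε hε => ?_
    obtain ⟨b, hb⟩ := UniformSpace.Completion.denseRange_coe.exists_dist_lt (a : ℂ_[p]) hε
    have h3 : σ (UAP.ap p b) = σ0 ⟨_, hmem b⟩ :=
      UniformSpace.Completion.extensionHom_coe τ hi.continuous b
    refine (IsUltrametricDist.dist_triangle_max _ (σ (UAP.ap p b)) _).trans (max_le ?_ ?_)
    · rw [dist_eq_norm, ← map_sub, hσ, ← dist_eq_norm]
      exact hb.le
    · rw [h3, dist_comm, dist_eq_norm, ← map_sub, h1]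
      exact (dist_eq_norm _ _).ge.trans hb.le
  exact ⟨σ, hσ, fun a ha => (h2 (algebraMap K _ ⟨a, ha⟩)).trans (σ0.commutes _),
    (h2 ⟨z, _⟩).trans h0⟩

/-- As `UAP.exists_iso`, over a closed subfield (spectral norm, density of the algebraic
closure). -/
theorem DVF.gal (h : DVF K) {y : ℂ_[p]} (hy : IsAlgebraic K y)
    (hf : ∀ τ : ℂ_[p] →+* ℂ_[p], UAP.Iso τ → (∀ a ∈ K, τ a = a) → τ y = y) : y ∈ K := by
  classical
  have hi := hy.isIntegral
  have hall : ∀ w ∈ (minpoly K y).aroots ℂ_[p], w = y := fun w hw => by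
    obtain ⟨σ, h1, h2, h3⟩ := av2_iso h hi (Polynomial.mem_aroots'.1 hw).2
    rw [← h3, hf σ h1 h2]
  have h1 : ((minpoly K y).aroots ℂ_[p]).card ≤ 1 := by
    rw [← Multiset.toFinset_card_of_nodup
      (Polynomial.nodup_roots (minpoly.irreducible hi).separable.map)]
    exact Finset.card_le_one.2 fun a ha b hb => by
      rw [hall a (Multiset.mem_toFinset.1 ha), hall b (Multiset.mem_toFinset.1 hb)]
  rw [IsAlgClosed.card_aroots_eq_natDegree_of_isUnit_leadingCoeff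
    (by rw [(minpoly.monic hi).leadingCoeff]; exact isUnit_one)] at h1
  obtain ⟨b, rfl⟩ := minpoly.natDegree_eq_one_iff.1 (h1.antisymm (minpoly.natDegree_pos hi))
  exact b.2

/-! Part 3. -/

omit [Fact p.Prime] in
private theorem av3_smul {A T : Type} [CommRing A] [CommRing T] [Algebra A T] (k : ℕ) (c : A)
    (y : T) : ((p : A) ^ k * c) • y = (p : T) ^ k * (c • y) := by
  rw [mul_smul, Algebra.smul_def, map_pow, map_natCast]

omit [Fact p.Prime] in
private theorem av3_dvd_sum {A T : Type} [CommRing A] [CommRing T] [Algebra A T] {e k : ℕ}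
    (v : Fin e → T) {c : Fin e → A} (h : ∀ i, (p : A) ^ k ∣ c i) :
    (p : T) ^ k ∣ ∑ i, c i • v i := by
  refine Finset.dvd_sum fun i _ => ?_
  obtain ⟨d, hd⟩ := h i
  exact ⟨_, by rw [hd, av3_smul]⟩

theorem pc_basis {A T : Type} [CommRing A] [CommRing T] [Algebra A T] [PC p A] {e : ℕ}
    (b : Module.Basis (Fin e) A T) : PC p T := by
  have key : ∀ (k : ℕ) (y : T), (p : T) ^ k ∣ y ↔ ∀ i, (p : A) ^ k ∣ b.repr y i := fun k y => by
    refine ⟨?_, fun h => b.sum_repr y ▸ av3_dvd_sum b h⟩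
    rintro ⟨z, rfl⟩ i
    have := av3_smul (p := p) k (1 : A) z
    rw [one_smul, mul_one] at this
    rw [← this, map_smul]
    exact ⟨_, rfl⟩
  refine pc_of p (fun y hy => ?_) fun f hf => ?_
  · exact b.ext_elem fun i => by
      rw [pc_sep p fun k => (key k y).1 (hy k) i, map_zero, Finsupp.zero_apply]
  · choose y hy using fun i => pc_lim p (fun k => b.repr (f k) i) fun k => by
      have := (key k _).1 (hf k) i
      rwa [map_sub, Finsupp.sub_apply] at this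
    refine ⟨b.equivFun.symm y, fun k => (key k _).2 fun i => ?_⟩
    rw [map_sub, Finsupp.sub_apply, ← b.equivFun_apply, LinearEquiv.apply_symm_apply]
    exact hy i k

/-- The ring of integers as a free module over the Witt vectors. -/
structure Dec (p : ℕ) [Fact p.Prime] (O : Type) [CommRing O] [Algebra (W0 p) O] where
  val : O →+* OC p
  alg : ∀ w, val (algebraMap (W0 p) O w) = jw p w
  e : ℕ
  pos : 0 < e
  pi : O
  b : Module.Basis (Fin e) (W0 p) O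
  hb : ∀ i, b i = pi ^ (i : ℕ)
  norm : ‖(val pi : ℂ_[p])‖ ^ e = (p : ℝ)⁻¹
  pn : ∀ y, ‖(val y : ℂ_[p])‖ < 1 → PN p y

omit [Fact p.Prime] in
private theorem av3_span {A T : Type} [CommRing A] [CommRing T] [Algebra A T] [PC p A] {e : ℕ}
    (v : Fin e → T) (sep : ∀ y : T, (∀ k, (p : T) ^ k ∣ y) → y = 0)
    (h : ∀ y, ∃ (w : Fin e → A) (z : T), y = ∑ i, w i • v i + p * z) (y : T) :
    ∃ w : Fin e → A, ∑ i, w i • v i = y := by
  choose W Z hW using h
  have h1 : ∀ k, y = ∑ i, (∑ j ∈ Finset.range k, (p : A) ^ j * W (Z^[j] y) i) • v i +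
      (p : T) ^ k * Z^[k] y := fun k => by
    induction k with
    | zero => simp
    | succ k ih =>
      simp only [Finset.sum_range_succ, add_smul, Finset.sum_add_distrib, av3_smul,
        ← Finset.mul_sum, Function.iterate_succ_apply']
      linear_combination ih + (p : T) ^ k * hW (Z^[k] y)
  choose t ht using fun i => pc_lim p
    (fun k => ∑ j ∈ Finset.range k, (p : A) ^ j * W (Z^[j] y) i) fun k => by
      rw [Finset.sum_range_succ, add_sub_cancel_left]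
      exact Dvd.intro _ rfl
  refine ⟨t, sub_eq_zero.1 (sep _ fun k => ?_)⟩
  have h2 := av3_dvd_sum v fun i => ht i k
  simp only [sub_smul, Finset.sum_sub_distrib] at h2
  have h3 := dvd_sub h2 (Dvd.intro (Z^[k] y) rfl)
  rwa [sub_sub, ← h1 k] at h3

private theorem av3_p : ‖(p : ℂ_[p])‖ = (p : ℝ)⁻¹ := by
  rw [← Padic.norm_p (p := p), ← PadicComplex.norm_extends']
  simp

private theorem av3_uni (h : DVF K) : ∃ (π : ℂ_[p]) (e : ℕ), π ∈ K ∧ 0 < ‖π‖ ∧ ‖π‖ < 1 ∧ 0 < e ∧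
    ‖π‖ ^ e = (p : ℝ)⁻¹ ∧ ∀ y ∈ K, ‖y‖ < 1 → ‖y‖ ≤ ‖π‖ := by
  obtain ⟨r, hr, H⟩ := h.dv
  have p1 : (1 : ℝ) < p := by exact_mod_cast (Fact.out : p.Prime).one_lt
  have q0 : 0 < ‖(p : ℂ_[p])‖ := by rw [av3_p]; positivity
  have q1 : ‖(p : ℂ_[p])‖ < 1 := by rw [av3_p]; exact inv_lt_one_of_one_lt₀ p1
  have pK : (p : ℂ_[p]) ∈ K := natCast_mem K p
  have r0 : 0 < r := q0.trans_le (H _ pK q1)
  obtain ⟨S, hS⟩ : ∃ S : Set ℝ, S = {s | ∃ y ∈ K, ‖y‖ < 1 ∧ ‖y‖ = s} := ⟨_, rfl⟩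
  have bd : BddAbove S := ⟨1, by
    rw [hS]
    rintro _ ⟨y, -, hy, rfl⟩
    exact hy.le⟩
  have le : ∀ y ∈ K, ‖y‖ < 1 → ‖y‖ ≤ sSup S := fun y hy h1 =>
    le_csSup bd (hS ▸ ⟨y, hy, h1, rfl⟩)
  have s0 : 0 < sSup S := q0.trans_le (le _ pK q1)
  obtain ⟨s, hs, h2⟩ := exists_lt_of_lt_csSup (s := S) (hS ▸ ⟨_, _, pK, q1, rfl⟩)
    (mul_lt_of_lt_one_left s0 hr)
  rw [hS] at hs
  obtain ⟨π, πK, π1, rfl⟩ := hs
  have π0 : 0 < ‖π‖ := (mul_pos r0 s0).trans h2
  have mx : ∀ y ∈ K, ‖y‖ < 1 → ‖y‖ ≤ ‖π‖ := fun y hy h1 => by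
    by_contra hn
    have hn := not_le.1 hn
    have y0 := π0.trans hn
    have h3 := H _ (div_mem πK hy) (by rwa [norm_div, div_lt_one y0])
    rw [norm_div, div_le_iff₀ y0] at h3
    exact h2.not_ge (h3.trans (mul_le_mul_of_nonneg_left (le y hy h1) r0.le))
  obtain ⟨e, e1, e2⟩ := exists_nat_pow_near_of_lt_one q0 q1.le π0 π1
  have e3 : ‖π‖ ^ e = ‖(p : ℂ_[p])‖ := by
    refine (e2.lt_or_eq.resolve_left fun hlt => ?_).symm
    have t0 := pow_pos π0 e
    have h3 := mx _ (div_mem pK (pow_mem πK e)) (by rwa [norm_div, norm_pow, div_lt_one t0])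
    rw [norm_div, norm_pow, div_le_iff₀ t0, ← pow_succ'] at h3
    exact e1.not_ge h3
  refine ⟨π, e, πK, π0, π1, Nat.pos_of_ne_zero ?_, e3.trans av3_p, mx⟩
  rintro rfl
  rw [pow_zero] at e3
  exact q1.ne e3.symm

private theorem av3_ind {π : OC p} {e : ℕ} (π0 : 0 < ‖(π : ℂ_[p])‖) (π1 : ‖(π : ℂ_[p])‖ < 1)
    (he : ‖(π : ℂ_[p])‖ ^ e = (p : ℝ)⁻¹) (w : Fin e → W0 p)
    (hw : ∑ i, jw p (w i) * π ^ (i : ℕ) = 0) (i : Fin e) : w i = 0 := by
  have hp : π ^ e ∣ (p : OC p) := oc_dvd.2 (by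
    rw [SubringClass.coe_natCast, SubmonoidClass.coe_pow, norm_pow, he, av3_p])
  have p0 : (p : OC p) ≠ 0 := fun h0 => by
    have := av3_p (p := p)
    rw [← he, ← SubringClass.coe_natCast (𝓞_ℂ_[p]), h0, ZeroMemClass.coe_zero, norm_zero] at this
    exact (pow_pos π0 e).ne this
  have h1 : ∀ w : Fin e → W0 p, ∑ i, jw p (w i) * π ^ (i : ℕ) = 0 → ∀ i, (p : W0 p) ∣ w i := by
    intro w hw i
    induction i using WellFoundedLT.induction with
    | ind i ih =>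
      by_contra hn
      rw [← Finset.add_sum_erase _ _ (Finset.mem_univ i), add_eq_zero_iff_eq_neg] at hw
      have h2 : π ^ ((i : ℕ) + 1) ∣ jw p (w i) * π ^ (i : ℕ) := by
        rw [hw, dvd_neg]
        refine Finset.dvd_sum fun j hj => ?_
        rcases lt_or_gt_of_ne (Finset.ne_of_mem_erase hj) with h | h
        · have := map_dvd (jw p) (ih j h)
          rw [map_natCast] at this
          exact (((pow_dvd_pow π i.2).trans hp).trans this).mul_right _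
        · exact (pow_dvd_pow π h).mul_left _
      rw [oc_dvd, MulMemClass.coe_mul, SubmonoidClass.coe_pow, SubmonoidClass.coe_pow, norm_mul,
        jw_norm hn, one_mul, norm_pow, norm_pow] at h2
      exact h2.not_gt (pow_lt_pow_right_of_lt_one₀ π0 π1 (Nat.lt_succ_self _))
  refine pc_sep p fun k => ?_
  induction k generalizing w with
  | zero => simp
  | succ k ih =>
    choose c hc using h1 w hw
    have h2 : (p : OC p) * ∑ i, jw p (c i) * π ^ (i : ℕ) = 0 := by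
      rw [← hw, Finset.mul_sum]
      exact Finset.sum_congr rfl fun j _ => by rw [hc j, map_mul, map_natCast, mul_assoc]
    rw [hc i, pow_succ']
    exact mul_dvd_mul_left _ (ih c ((mul_eq_zero.1 h2).resolve_left p0))

private theorem av3_dec {O : Type} [CommRing O] [Algebra (W0 p) O] (v : O →+* OC p)
    (inj : Function.Injective v) (alg : ∀ w, v (algebraMap (W0 p) O w) = jw p w)
    (hd : ∀ a y, ‖(v y : ℂ_[p])‖ ≤ ‖(v a : ℂ_[p])‖ → a ∣ y) {π : O} {e : ℕ}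
    (π0 : 0 < ‖(v π : ℂ_[p])‖) (π1 : ‖(v π : ℂ_[p])‖ < 1) (e0 : 0 < e)
    (he : ‖(v π : ℂ_[p])‖ ^ e = (p : ℝ)⁻¹)
    (mx : ∀ y, ‖(v y : ℂ_[p])‖ < 1 → ‖(v y : ℂ_[p])‖ ≤ ‖(v π : ℂ_[p])‖) :
    ∃ D : Dec p O, D.val = v := by
  have hp : ∀ (y : O) (n : ℕ), ‖(v y : ℂ_[p])‖ ^ n ≤ (p : ℝ)⁻¹ → (p : O) ∣ y ^ n := fun y n h =>
    hd _ _ (by rwa [map_natCast, map_pow, SubringClass.coe_natCast, SubmonoidClass.coe_pow,
      norm_pow, av3_p])
  have h1 : ∀ y, ∃ (w : W0 p) (z : O), y = algebraMap _ O w + π * z := fun y => by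
    obtain ⟨z, hz⟩ := hd π (y - algebraMap _ O (WittVector.teichmuller p (red p (v y))))
      (mx _ (red_eq_zero.1 (by
        rw [map_sub, map_sub, alg, red_jw, WittVector.teichmuller_coeff_zero, sub_self])))
    exact ⟨_, z, sub_eq_iff_eq_add'.1 hz⟩
  have h2 : ∀ (n : ℕ) (y : O), ∃ (w : Fin n → W0 p) (z : O),
      y = ∑ i, w i • π ^ (i : ℕ) + π ^ n * z := fun n y => by
    induction n with
    | zero => exact ⟨Fin.elim0, y, by simp⟩
    | succ n ih =>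
      obtain ⟨w, z, hz⟩ := ih
      obtain ⟨w', z', hz'⟩ := h1 z
      refine ⟨Fin.snoc w w', z', ?_⟩
      simp only [Fin.sum_univ_castSucc, Fin.snoc_castSucc, Fin.snoc_last, Fin.val_castSucc,
        Fin.val_last]
      rw [Algebra.smul_def w']
      linear_combination hz + π ^ n * hz'
  have li : LinearIndependent (W0 p) fun i : Fin e => π ^ (i : ℕ) :=
    Fintype.linearIndependent_iff.2 fun w hw => av3_ind π0 π1 he w (by
      have := congrArg v hw
      simpa only [map_sum, Algebra.smul_def, map_mul, alg, map_pow, map_zero] using this)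
  have sp : ⊤ ≤ Submodule.span (W0 p) (Set.range fun i : Fin e => π ^ (i : ℕ)) := fun y _ => by
    refine (Submodule.mem_span_range_iff_exists_fun _).2 (av3_span (p := p) _ (fun y hy => ?_)
      (fun y => ?_) y)
    · refine inj ((pc_sep p fun k => ?_).trans (map_zero v).symm)
      have := map_dvd v (hy k)
      rwa [map_pow, map_natCast] at this
    · obtain ⟨w, z, hz⟩ := h2 e y
      obtain ⟨u, hu⟩ := hp π e he.le
      exact ⟨w, u * z, by rw [← mul_assoc, ← hu]; exact hz⟩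
  refine ⟨⟨v, alg, e, e0, π, Module.Basis.mk li sp, fun i => Module.Basis.mk_apply li sp i, he,
    fun y hy => ?_⟩, rfl⟩
  obtain ⟨n, hn⟩ := exists_pow_lt_of_lt_one (he ▸ pow_pos π0 e) hy
  exact ⟨n, Ideal.mem_span_singleton.2 (hp y n hn.le)⟩

theorem DVF.dec (h : DVF K) : ∃ (O : Type) (_ : CommRing O) (_ : Algebra (W0 p) O) (D : Dec p O),
    ∀ y : OC p, (y : ℂ_[p]) ∈ K → ∃ x, D.val x = y := by
  obtain ⟨π, e, πK, π0, π1, e0, he, mx⟩ := av3_uni h
  let O : Subring (OC p) := K.toSubring.comap (ov p)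
  let _ : Algebra (W0 p) O := ((E7.jw p).codRestrict O h.jw).toAlgebra
  obtain ⟨D, hD⟩ := av3_dec O.subtype Subtype.val_injective (fun _ => rfl) (fun a y hy => by
      obtain ⟨z, hz⟩ := oc_dvd.2 hy
      by_cases a0 : ((a : OC p) : ℂ_[p]) = 0
      · have y0 : y = 0 := Subtype.ext (Subtype.ext (norm_le_zero_iff.1
          (hy.trans (norm_eq_zero.2 a0).le)))
        rw [y0]
        exact dvd_zero _
      · refine ⟨⟨z, ?_⟩, Subtype.ext hz⟩
        have e1 : (z : ℂ_[p]) = ((y : OC p) : ℂ_[p]) / ((a : OC p) : ℂ_[p]) := by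
          rw [eq_div_iff a0, mul_comm]
          exact (congrArg Subtype.val hz).symm
        show (z : ℂ_[p]) ∈ K
        rw [e1]
        exact div_mem y.2 a.2)
    (π := ⟨⟨π, mem_OC.2 π1.le⟩, πK⟩) π0 π1 e0 he fun y hy => mx _ y.2 hy
  exact ⟨O, inferInstance, inferInstance, D, fun y hy => ⟨⟨y, hy⟩, by rw [hD]; rfl⟩⟩

end Pool.Agent.E7
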