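import Pool.Agent.Lib.MP_7e5527_ag.EA.AO

/-! Witt vectors. -/

open MvPowerSeries Filter Topology

noncomputable section

namespace Pool.Agent.E7

variable {p : ℕ} [Fact p.Prime]

/-! Part 1. -/

theorem aw1_ghost {A : Type} [CommRing A] (x : WittVector p A) (n : ℕ) :
    WittVector.ghostComponent n x =
      (p : A) ^ n * x.coeff n + ∑ i : Fin n, (p : A) ^ (i : ℕ) * x.coeff i ^ p ^ (n - i) := by
  rw [WittVector.ghostComponent_apply, aeval_wittPolynomial, Finset.sum_range_succ_comm,
    Finset.sum_range, Nat.sub_self, pow_zero, pow_one]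

theorem aw1_inj {A : Type} [CommRing A] (h : ∀ y : A, (p : A) * y = 0 → y = 0)
    {x y : WittVector p A}
    (e : ∀ n, WittVector.ghostComponent n x = WittVector.ghostComponent n y) : x = y := by
  have hp : ∀ (n : ℕ) (y : A), (p : A) ^ n * y = 0 → y = 0 := fun n => by
    induction n with
    | zero => simp
    | succ n ih => exact fun y hy => h y (ih _ (by rw [← mul_assoc, ← pow_succ, hy]))
  ext n
  induction n using Nat.strong_induction_on with
  | _ n ih =>
    have := e n
    rw [aw1_ghost, aw1_ghost, Finset.sum_congr rfl fun (i : Fin n) _ => by rw [ih i i.2],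
      add_left_inj] at this
    exact sub_eq_zero.1 (hp n _ (by rw [mul_sub, this, sub_self]))

theorem aw1_ex {A : Type} [CommRing A] (φ : A →+* A) (hφ : ∀ a, (p : A) ∣ φ a - a ^ p) (a : A) :
    ∃ x : WittVector p A, ∀ n, WittVector.ghostComponent n x = (φ ^ n) a := by
  have : Nonempty A := ⟨0⟩
  obtain ⟨c, hc⟩ : ∃ c : ℕ → A, ∀ n, c n = Classical.epsilon fun y =>
      (p : A) ^ n * y + ∑ i : Fin n, (p : A) ^ (i : ℕ) * c i ^ p ^ (n - i) = (φ ^ n) a :=
    ⟨wellFounded_lt.fix fun n ih => Classical.epsilon fun y =>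
      (p : A) ^ n * y + ∑ i : Fin n, (p : A) ^ (i : ℕ) * ih i i.2 ^ p ^ (n - i) = (φ ^ n) a,
      fun n => WellFounded.fix_eq _ _ n⟩
  refine ⟨WittVector.mk p c, fun n => ?_⟩
  induction n with
  | zero =>
    rw [aw1_ghost, WittVector.coeff_mk, hc]
    exact Classical.epsilon_spec (p := fun y => (p : A) ^ 0 * y + _ = _) ⟨a, by simp⟩
  | succ n ih =>
    rw [WittVector.ghostComponent_apply, aeval_wittPolynomial, Finset.sum_range,
      WittVector.coeff_mk] at ih
    obtain ⟨y, hy⟩ : (p : A) ^ (n + 1) ∣ (φ ^ (n + 1)) a -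
        ∑ i : Fin (n + 1), (p : A) ^ (i : ℕ) * c i ^ p ^ (n + 1 - i) := by
      rw [pow_succ' φ, RingHom.coe_mul, Function.comp_apply, ← ih, map_sum,
        ← Finset.sum_sub_distrib]
      refine Finset.dvd_sum fun i _ => ?_
      have hi : (i : ℕ) ≤ n := Nat.lt_succ_iff.1 i.2
      rw [map_mul, map_pow, map_pow, map_natCast, ← mul_sub, Nat.succ_sub hi, pow_succ' p, pow_mul]
      nth_rewrite 1 [show n + 1 = i + (n - i + 1) by omega]
      rw [pow_add]
      exact mul_dvd_mul_left _ (dvd_sub_pow_of_dvd_sub (hφ _) _)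
    rw [aw1_ghost, WittVector.coeff_mk, hc]
    exact Classical.epsilon_spec (p := fun y => (p : A) ^ (n + 1) * y + _ = _)
      ⟨y, by rw [← hy, sub_add_cancel]⟩

/-- The lemma of Dwork. -/
theorem dwork {A : Type} [CommRing A] (h : ∀ y : A, (p : A) * y = 0 → y = 0) (φ : A →+* A)
    (hφ : ∀ a, (p : A) ∣ φ a - a ^ p) : ∃ s : A →+* WittVector p A,
      (∀ a, (s a).coeff 0 = a) ∧ ∀ a, s (φ a) = WittVector.frobenius (s a) := by
  choose s hs using aw1_ex φ hφ
  refine ⟨⟨⟨⟨s, aw1_inj h fun n => ?_⟩, fun a b => aw1_inj h fun n => ?_⟩,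
    aw1_inj h fun n => ?_, fun a b => aw1_inj h fun n => ?_⟩, fun a => ?_,
    fun a => aw1_inj h fun n => ?_⟩
  · simp only [hs, map_one]
  · simp only [hs, map_mul]
  · simp only [hs, map_zero]
  · simp only [hs, map_add]
  · simpa [aw1_ghost] using hs a 0
  · rw [WittVector.ghostComponent_frobenius]
    exact (hs _ n).trans ((hs a (n + 1)).trans (by rw [pow_succ]; rfl)).symm

theorem wv_map_fr {A A' : Type} [CommRing A] [CommRing A'] (ρ : A →+* A') (x : WittVector p A) :
    WittVector.map ρ (WittVector.frobenius x) = WittVector.frobenius (WittVector.map ρ x) := 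
  (WittVector.frobenius_isPoly p).map ρ x

variable {B B' : Type} [CommRing B] [CharP B p] [PerfectRing B p] [CommRing B'] [CharP B' p]
  [PerfectRing B' p]

theorem wv_dvd {x : WittVector p B} : (p : WittVector p B) ∣ x ↔ x.coeff 0 = 0 := 
  Ideal.mem_span_singleton.symm.trans (WittVector.mem_span_p_iff_coeff_zero_eq_zero x)

theorem wv_tf (x : WittVector p B) (h : (p : WittVector p B) * x = 0) : x = 0 := 
  WittVector.eq_zero_of_p_mul_eq_zero x ((mul_comm _ _).trans h)

omit [PerfectRing B p] in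
theorem aw1_unit {x : WittVector p B} : IsUnit x ↔ IsUnit (x.coeff 0) :=
  ⟨fun h => h.map WittVector.constantCoeff, fun ⟨_, h⟩ => ⟨WittVector.mkUnit h.symm, rfl⟩⟩

instance wv_atf : IsAddTorsionFree (WittVector p B) := ⟨fun n hn => by
  obtain ⟨k, m, hm, rfl⟩ := Nat.exists_eq_pow_mul_and_not_dvd hn p (Fact.out : p.Prime).ne_one
  have hu : IsUnit (m : WittVector p B) := aw1_unit.2 (by
    rw [← WittVector.constantCoeff_apply, map_natCast]
    exact (CharP.isUnit_natCast_iff (Fact.out : p.Prime)).2 hm)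
  have hp : ∀ (k : ℕ) (y : WittVector p B), (p : WittVector p B) ^ k * y = 0 → y = 0 := fun k => by
    induction k with
    | zero => simp
    | succ k ih => exact fun y hy => wv_tf y (ih _ (by rw [← mul_assoc, ← pow_succ, hy]))
  intro x y e
  simp only [nsmul_eq_mul, Nat.cast_mul, Nat.cast_pow, mul_assoc] at e
  exact hu.mul_left_cancel (sub_eq_zero.1 (hp k _ (by rw [mul_sub, e, sub_self])))⟩

theorem wv_unit {x : WittVector p B} : IsUnit x ↔ IsUnit (x.coeff 0) := aw1_unit

theorem wv_fr_dvd {x : WittVector p B} {k : ℕ}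
    (h : (p : WittVector p B) ^ k ∣ WittVector.frobenius x) : (p : WittVector p B) ^ k ∣ x := by
  obtain ⟨y, hy⟩ := h
  obtain ⟨z, rfl⟩ := (WittVector.frobenius_bijective p B).2 y
  exact ⟨z, (WittVector.frobenius_bijective p B).1 (by rw [hy, map_mul, map_pow, map_natCast])⟩

theorem wv_fix [IsDomain B] {x : WittVector p B} (h : WittVector.frobenius x = x) :
    ∃ z : ℤ_[p], x = zc p _ z := by
  have e : ∀ n, ∃ c : ZMod p, ZMod.castHom (dvd_refl p) B c = x.coeff n := fun n => by
    have h1 : x.coeff n ^ p = x.coeff n := by rw [← WittVector.coeff_frobenius_charP, h]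
    obtain ⟨m, hm⟩ := (mem_bot_iff_intCast p (FractionRing B)).1
      ((Subfield.mem_bot_iff_pow_eq_self (FractionRing B) p
        (x := algebraMap B _ (x.coeff n))).2 (by rw [← map_pow, h1]))
    exact ⟨m, IsFractionRing.injective B (FractionRing B) (by rw [map_intCast, map_intCast, hm])⟩
  choose c hc using e
  refine ⟨WittVector.toPadicInt p (WittVector.mk p c), ?_⟩
  rw [zc_unique (zc p _) ((WittVector.map (ZMod.castHom (dvd_refl p) B)).comp
    (WittVector.fromPadicInt p)), RingHom.comp_apply,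
    ← RingHom.comp_apply (WittVector.fromPadicInt p), WittVector.fromPadicInt_comp_toPadicInt_ext]
  ext n
  exact (hc n).symm

theorem wv_zc_unit [Nontrivial B] {z : ℤ_[p]} (h : IsUnit (zc p (WittVector p B) z)) : IsUnit z := by
  by_contra hz
  obtain ⟨y, rfl⟩ := (PadicInt.norm_lt_one_iff_dvd z).1 (PadicInt.not_isUnit_iff.1 hz)
  rw [map_mul, map_natCast] at h
  have := wv_unit.1 (isUnit_of_mul_isUnit_left h)
  rw [WittVector.coeff_p_zero] at this
  exact not_isUnit_zero this

/-! Part 2. -/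

/-- The Witt vectors of the residue field. -/
abbrev W0 (p : ℕ) [Fact p.Prime] : Type := WittVector p (RF p)

omit [Fact p.Prime] in
private theorem aw2_per {R : Type} [Monoid R] {y : R} {n : ℕ} (h : y ^ p ^ n = y) (j : ℕ) :
    y ^ p ^ (n * j) = y := by
  induction j with
  | zero => rw [Nat.mul_zero, pow_zero, pow_one]
  | succ j ih => rw [Nat.mul_succ, pow_add, pow_mul, ih, h]

private theorem aw2_le {n : ℕ} (hn : 0 < n) (N : ℕ) : N ≤ p ^ (n * N) :=
  (Nat.le_mul_of_pos_left N hn).trans (Nat.lt_pow_self (Fact.out : p.Prime).one_lt).le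

private theorem aw2_sec {R F : Type} [CommRing R] [CharP R p] [CommRing F] (π : R →+* F)
    (hs : Function.Surjective π) (hn : ∀ y, π y = 0 → IsNilpotent y)
    (hF : ∀ x : F, ∃ n, 0 < n ∧ x ^ p ^ n = x) : ∃ s : F →+* R, ∀ x, π (s x) = x := by
  let P : Subring R :=
    { carrier := {y | ∃ n, 0 < n ∧ y ^ p ^ n = y}
      mul_mem' := fun {a b} ⟨n, hn, ha⟩ ⟨m, hm, hb⟩ => ⟨n * m, Nat.mul_pos hn hm, by
        rw [mul_pow, aw2_per ha, mul_comm n, aw2_per hb]⟩
      one_mem' := ⟨1, one_pos, one_pow _⟩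
      add_mem' := fun {a b} ⟨n, hn, ha⟩ ⟨m, hm, hb⟩ => ⟨n * m, Nat.mul_pos hn hm, by
        rw [add_pow_char_pow, aw2_per ha, mul_comm n, aw2_per hb]⟩
      zero_mem' := ⟨1, one_pos, zero_pow (pow_pos (Fact.out : p.Prime).pos _).ne'⟩
      neg_mem' := fun {a} ⟨n, hn, ha⟩ => ⟨n, hn, by
        have := sub_pow_char_pow (p := p) (n := n) (0 : R) a
        rwa [zero_sub, ha, zero_pow (pow_pos (Fact.out : p.Prime).pos _).ne', zero_sub] at this⟩ }
  have hb : Function.Bijective (π.comp P.subtype) := by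
    refine ⟨(injective_iff_map_eq_zero _).2 fun ⟨y, n, h0, hy⟩ h => Subtype.ext ?_, fun x => ?_⟩
    · obtain ⟨N, hN⟩ := hn y h
      exact (aw2_per hy N).symm.trans (pow_eq_zero_of_le (aw2_le h0 N) hN)
    · obtain ⟨y, rfl⟩ := hs x
      obtain ⟨n, h0, hy⟩ := hF (π y)
      obtain ⟨N, hN⟩ := hn (y ^ p ^ n - y) (by rw [map_sub, map_pow, hy, sub_self])
      have h := pow_eq_zero_of_le (aw2_le (p := p) h0 N) hN
      rw [sub_pow_char_pow, sub_eq_zero, pow_right_comm] at h
      exact ⟨⟨y ^ p ^ (n * N), n, h0, h⟩, (map_pow π _ _).trans (aw2_per hy N)⟩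
  exact ⟨P.subtype.comp (RingEquiv.ofBijective _ hb).symm,
    fun x => (RingEquiv.ofBijective _ hb).apply_symm_apply x⟩

private theorem aw2_nil {y : OC p} (h : red p y = 0) :
    IsNilpotent (Ideal.Quotient.mk (Ideal.span {(p : OC p)}) y) := by
  obtain ⟨N, hN⟩ := pn_iff.2 (red_eq_zero.1 h)
  exact ⟨N, by rw [← map_pow, Ideal.Quotient.eq_zero_iff_mem]; exact hN⟩

private theorem aw2_eq {a b : OC p} {n : ℕ} (hn : 0 < n) (ha : a ^ p ^ n = a) (hb : b ^ p ^ n = b)
    (h : red p a = red p b) : a = b := by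
  obtain ⟨N, hN⟩ := aw2_nil (y := a - b) (by rw [map_sub, h, sub_self])
  have h1 := pow_eq_zero_of_le (aw2_le (p := p) hn N) hN
  rw [map_sub, sub_pow_char_pow (R := ModP (OC p) p), ← map_pow, ← map_pow, aw2_per ha, aw2_per hb,
    ← map_sub, Ideal.Quotient.eq_zero_iff_mem, Ideal.mem_span_singleton] at h1
  refine sub_eq_zero.1 (pc_sep p fun k => ?_)
  have h2 := dvd_sub_pow_of_dvd_sub h1 (n * k)
  rw [aw2_per ha, aw2_per hb] at h2
  exact (pow_dvd_pow _ ((Nat.le_mul_of_pos_left k hn).trans (Nat.le_succ _))).trans h2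

/-- Maps to the integers are determined by their reductions (`fb_pow`, Teichmueller expansion). -/
theorem jw_unique (f g : W0 p →+* OC p) (h : ∀ w, red p (f w) = red p (g w)) : f = g := by
  have ht : ∀ x, f (WittVector.teichmuller p x) = g (WittVector.teichmuller p x) := fun x => by
    obtain ⟨n, hn, hx⟩ := fb_pow x
    exact aw2_eq hn (by rw [← map_pow, ← map_pow, hx]) (by rw [← map_pow, ← map_pow, hx]) (h _)
  refine RingHom.ext fun x => sub_eq_zero.1 (pc_sep p fun k => ?_)
  obtain ⟨c, hc⟩ := WittVector.dvd_sub_sum_teichmuller_iterateFrobeniusEquiv_coeff x k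
  refine ⟨p * (f c - g c), ?_⟩
  rw [sub_eq_iff_eq_add.1 hc]
  simp only [map_add, map_mul, map_pow, map_natCast, map_sum, ht]
  ring

/-- A ring section from the residue field to the integers modulo `p` is given by the Teichmueller
representatives; then `Perfection.lift` and `WittVector.fontaineTheta`. -/
theorem exists_jw (p : ℕ) [Fact p.Prime] : ∃ j : W0 p →+* OC p, ∀ w, red p (j w) = w.coeff 0 := by
  let π : ModP (OC p) p →+* RF p := Ideal.Quotient.lift _ (red p) fun a ha => by
    obtain ⟨c, rfl⟩ := Ideal.mem_span_singleton.1 ha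
    rw [map_mul, map_natCast, CharP.cast_eq_zero, zero_mul]
  obtain ⟨s, hs⟩ := aw2_sec (p := p) π
    (fun x => by
      obtain ⟨y, rfl⟩ := IsLocalRing.residue_surjective x
      exact ⟨Ideal.Quotient.mk _ y, rfl⟩)
    (fun y hy => by
      obtain ⟨y, rfl⟩ := Ideal.Quotient.mk_surjective y
      exact aw2_nil hy) fb_pow
  let L : RF p →+* PreTilt (OC p) p := Perfection.lift p (RF p) (ModP (OC p) p) s
  refine ⟨(WittVector.fontaineTheta (OC p) p).comp (WittVector.map L), fun w => ?_⟩
  have h := congrArg π (WittVector.mk_fontaineTheta (WittVector.map L w))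
  rw [WittVector.map_coeff] at h
  exact h.trans (hs _)

/-- The embedding of the Witt vectors. -/
def jw (p : ℕ) [Fact p.Prime] : W0 p →+* OC p := (exists_jw p).choose

theorem red_jw (w : W0 p) : red p (jw p w) = w.coeff 0 := (exists_jw p).choose_spec w

theorem frob_jw {σ : ℂ_[p] →+* ℂ_[p]} {f : ℕ} (h : Frob σ f) (w : W0 p) :
    resO σ h.iso (jw p w) = jw p ((WittVector.frobenius ^ f : W0 p →+* W0 p) w) := by
  have e : ∀ (k : ℕ) (w : W0 p), ((WittVector.frobenius ^ k : W0 p →+* W0 p) w).coeff 0 =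
      w.coeff 0 ^ p ^ k := fun k => by
    induction k with
    | zero => intro w; rw [pow_zero, pow_zero, pow_one]; rfl
    | succ k ih =>
      intro w
      rw [pow_succ, RingHom.mul_def, RingHom.comp_apply, ih, WittVector.coeff_frobenius_charP,
        ← pow_mul, pow_succ']
  refine RingHom.congr_fun (jw_unique ((resO σ h.iso).comp (jw p))
    ((jw p).comp (WittVector.frobenius ^ f)) fun w => ?_) w
  rw [RingHom.comp_apply, RingHom.comp_apply, red_jw, e, ← red_jw, ← map_pow, ← sub_eq_zero,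
    ← map_sub, red_eq_zero]
  exact h.res _ (oc_le _)

theorem jw_norm {w : W0 p} (h : ¬ (p : W0 p) ∣ w) : ‖(jw p w : ℂ_[p])‖ = 1 :=
  (oc_le _).antisymm (not_lt.1 fun h' => h (wv_dvd.2 ((red_jw w).symm.trans (red_eq_zero.2 h'))))

instance ps_char {σ A : Type} [CommRing A] [CharP A p] : CharP (PS σ A) p :=
  charP_of_injective_ringHom (C_injective (σ := σ) (R := A)) p

/-- The perfect closure of the power series over the residue field. -/
abbrev PT (p : ℕ) [Fact p.Prime] : Type := PerfectClosure (PS Unit (RF p)) p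

/-! Part 3. -/

/-- evaluation at a point of the perfection -/
theorem aw3_ev {F S : Type} [CommRing F] [CommRing S] [CharP S p] (s : F →+* Perfection S p)
    (v : Perfection S p) (hv : IsNilpotent (Perfection.coeff S p 0 v)) :
    ∃ E : PS Unit F →+* Perfection S p, (∀ a, E (C a) = s a) ∧ ∀ f, Perfection.coeff S p 0 (E f) =
      evx ((Perfection.coeff S p 0).comp s) (fun _ => Perfection.coeff S p 0 v) f := by
  have h1 : ∀ n, Ev fun _ : Unit => Perfection.coeff S p n v := fun n => ev_nil fun _ => by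
    induction n with
    | zero => exact hv
    | succ n ih => exact IsNilpotent.of_pow (Perfection.coeff_pow_p' v n ▸ ih)
  obtain ⟨E, hE⟩ : ∃ E : ℕ → PS Unit F →+* S, ∀ n, E n =
    evx ((Perfection.coeff S p n).comp s) fun _ => Perfection.coeff S p n v := ⟨_, fun _ => rfl⟩
  have h2 : ∀ n f, E (n + 1) f ^ p = E n f := fun n f => by
    rw [hE n]
    refine eq_evx (h1 n) (E := (frobenius S p).comp (E (n + 1))) (fun a => ?_) (fun i => ?_) f
    · rw [RingHom.comp_apply, hE, evx_C (h1 _)]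
      exact Perfection.coeff_pow_p' _ n
    · rw [RingHom.comp_apply, hE, evx_X (h1 _)]
      exact Perfection.coeff_pow_p' _ n
  refine ⟨{ toFun := fun f => ⟨fun n => E n f, fun n => h2 n f⟩
            map_one' := Perfection.ext fun n => map_one (E n)
            map_mul' := fun a b => Perfection.ext fun n => map_mul (E n) a b
            map_zero' := Perfection.ext fun n => map_zero (E n)
            map_add' := fun a b => Perfection.ext fun n => map_add (E n) a b },
    fun a => Perfection.ext fun n => ?_, fun f => DFunLike.congr_fun (hE 0) f⟩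
  exact (DFunLike.congr_fun (hE n) _).trans (evx_C (h1 n) a)

theorem aw3_root (y : OC p) : ∃ z : OC p, z ^ p = y := by
  have hp := (Fact.out : p.Prime).pos
  obtain ⟨z, hz⟩ := IsAlgClosed.exists_pow_nat_eq (y : ℂ_[p]) hp
  exact ⟨⟨z, mem_OC.2 ((pow_le_one_iff_of_nonneg (norm_nonneg z) hp.ne').1
    (by rw [← norm_pow, hz]; exact oc_le y))⟩, Subtype.ext hz⟩

/-- A point of the tilt: the variable goes to a compatible system of roots of `w`. -/
theorem exists_lam {w : OC p} (hw : ‖(w : ℂ_[p])‖ < 1) : ∃ Λ : WittVector p (PT p) →+* OC p,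
    (∀ x : W0 p, Λ (WittVector.map ((PerfectClosure.of _ p).comp C) x) = jw p x) ∧
    ∀ (x : WittVector p (PT p)) (f : PS Unit (W0 p)),
      x.coeff 0 = PerfectClosure.of _ p (map WittVector.constantCoeff f) →
      (p : OC p) ∣ Λ x - evx (jw p) (fun _ => w) f := by
  let π := Ideal.Quotient.mk (Ideal.span {(p : OC p)})
  have hπ : ∀ {a b}, π a = π b ↔ (p : OC p) ∣ a - b :=
    Ideal.Quotient.eq.trans Ideal.mem_span_singleton
  obtain ⟨s, hs⟩ : ∃ s : RF p →+* ModP (OC p) p, ∀ x : W0 p, s (x.coeff 0) = π (jw p x) :=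
    ⟨RingHom.liftOfSurjective WittVector.constantCoeff (WittVector.coeff_surjective 0)
      ⟨π.comp (jw p), fun x hx => hπ.2 (by
        simpa using map_dvd (jw p) (wv_dvd.2 hx))⟩, fun x => RingHom.liftOfSurjective_comp_apply ..⟩
  obtain ⟨v, hv⟩ := Perfection.coeff_surjective (R := ModP (OC p) p) (p := p) (fun y => by
    obtain ⟨y, rfl⟩ := Ideal.Quotient.mk_surjective y
    obtain ⟨z, rfl⟩ := aw3_root y
    exact ⟨π z, (map_pow π _ _).symm⟩) 0 (π w)
  have hn : IsNilpotent (π w) := by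
    obtain ⟨n, hn⟩ := pn_iff.2 hw
    exact ⟨n, by rw [← map_pow]; exact Ideal.Quotient.eq_zero_iff_mem.2 hn⟩
  obtain ⟨E, E1, E2⟩ := aw3_ev (Perfection.lift p _ _ s) v (hv ▸ hn)
  obtain ⟨l, hl⟩ : ∃ l : PT p →+* PreTilt (OC p) p, ∀ f, l (PerfectClosure.of _ p f) = E f :=
    ⟨PerfectClosure.lift _ p (PreTilt (OC p) p) E, fun _ => rfl⟩
  have h1 : ∀ x, π (WittVector.fontaineTheta (OC p) p (WittVector.map l x)) =
      Perfection.coeff _ p 0 (l (x.coeff 0)) := fun x => WittVector.mk_fontaineTheta _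
  refine ⟨(WittVector.fontaineTheta (OC p) p).comp (WittVector.map l), fun x =>
    DFunLike.congr_fun (jw_unique (((WittVector.fontaineTheta (OC p) p).comp
      (WittVector.map l)).comp (WittVector.map ((PerfectClosure.of _ p).comp C))) (jw p)
      fun x => ?_) x, fun x f hx => hπ.1 ?_⟩
  · have h2 := h1 (WittVector.map ((PerfectClosure.of _ p).comp C) x)
    rw [WittVector.map_coeff, RingHom.comp_apply, hl, E1] at h2
    obtain ⟨c, hc⟩ := hπ.1 (h2.trans (hs x))
    rw [← sub_eq_zero, ← map_sub]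
    exact (congrArg (red p) hc).trans (by simp)
  · have h2 : Ev fun _ : Unit => π w := ev_nil fun _ => hn
    rw [RingHom.comp_apply, h1, hx, hl, E2, hv, evx_map h2,
      evx_comp (Sm.ev fun _ => hw) π h2]
    exact congrArg (evx · _ f) (RingHom.ext hs)

theorem norm_arc {ι : Type} [Fintype ι] {y : ι → PS Unit (RF p)} (h0 : C0 y) (h : y ≠ 0) :
    ∃ m : ℕ, 0 < m ∧ ∀ w : OC p, (p : ℝ)⁻¹ < ‖(w : ℂ_[p])‖ ^ m → ‖(w : ℂ_[p])‖ < 1 →
      ∀ (f : ι → PS Unit (W0 p)) (z : ι → OC p),
        (∀ i, map WittVector.constantCoeff (f i) = y i) →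
        (∀ i, (p : OC p) ∣ z i - evx (jw p) (fun _ => w) (f i)) →
        ‖fun i => (z i : ℂ_[p])‖ = ‖(w : ℂ_[p])‖ ^ m := by
  obtain ⟨n, h1, h2⟩ := Nat.exists_not_and_succ_of_not_zero_of_exists
    (p := fun n => ¬∀ i, X () ^ (n + 1) ∣ y i)
    (not_not.2 fun i => (pow_one _).dvd.trans (PowerSeries.X_dvd_iff.2 (h0 i))) (by
      by_contra h1
      push Not at h1
      exact h (funext fun i => MvPowerSeries.ext fun ν =>
        X_pow_dvd_iff.1 (h1 (ν ()) i) ν (Nat.lt_succ_self _)))
  choose u hu using not_not.1 h1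
  obtain ⟨j, hj⟩ := not_forall.1 h2
  have hj : constantCoeff (u j) ≠ 0 := fun e => hj (by
    rw [hu j, pow_succ _ (n + 1)]
    exact mul_dvd_mul_left _ (PowerSeries.X_dvd_iff.2 e))
  refine ⟨n + 1, n.succ_pos, fun w h3 hw f z hf hz => ?_⟩
  have hv : Ev fun _ : Unit => w := Sm.ev fun _ => hw
  obtain ⟨g, hg⟩ : ∃ g : ι → PS Unit (W0 p), ∀ i, map WittVector.constantCoeff (g i) = u i :=
    ⟨fun i ν => WittVector.teichmuller p (coeff ν (u i)), fun i => MvPowerSeries.ext fun ν =>
      WittVector.teichmuller_coeff_zero p _⟩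
  obtain ⟨G, hG⟩ : ∃ G : ι → OC p, ∀ i, G i = evx (jw p) (fun _ => w) (g i) := ⟨_, fun _ => rfl⟩
  have h4 : ∀ i, ‖(z i : ℂ_[p]) - w ^ (n + 1) * G i‖ < ‖(w : ℂ_[p])‖ ^ (n + 1) := fun i => by
    have h5 : C (p : W0 p) ∣ f i - X () ^ (n + 1) * g i := ps_dvd.2 fun ν => wv_dvd.2 (by
      have : MvPowerSeries.map WittVector.constantCoeff (f i - X () ^ (n + 1) * g i) = 0 := by
        rw [map_sub, map_mul, map_pow, map_X, hf, hg, hu, sub_self]
      exact congrArg (coeff ν) this)
    have h6 := map_dvd (evx (jw p) fun _ : Unit => w) h5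
    rw [evx_C hv, map_natCast, map_sub, map_mul, map_pow, evx_X hv, ← hG] at h6
    have h7 := (hz i).add h6
    rw [sub_add_sub_cancel, ← pow_one (p : OC p), oc_pdvd, pow_one] at h7
    exact lt_of_le_of_lt h7 h3
  have h5 : ‖(G j : ℂ_[p])‖ = 1 := le_antisymm (oc_le _) (not_lt.1 fun e => hj (by
    obtain ⟨c, hc⟩ := Ideal.mem_span_singleton.1
      (Set.range_const (ι := Unit) (c := w) ▸ evx_sub_const (φ := jw p) hv (g j))
    have h6 := congrArg (red p) hc
    rw [map_sub, map_mul, red_eq_zero.2 hw, ← hG, red_eq_zero.2 e, red_jw, zero_mul, zero_sub,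
      neg_eq_zero] at h6
    rw [← hg]
    exact h6))
  refine le_antisymm ((pi_norm_le_iff_of_nonneg (by positivity)).2 fun i => ?_)
    (le_trans ?_ (norm_le_pi_norm _ j))
  · rw [← sub_add_cancel (z i : ℂ_[p]) (w ^ (n + 1) * G i)]
    refine (IsUltrametricDist.norm_add_le_max _ _).trans (max_le (h4 i).le ?_)
    rw [norm_mul, norm_pow]
    exact mul_le_of_le_one_right (by positivity) (oc_le _)
  · have h6 := IsUltrametricDist.norm_add_le_max (z j : ℂ_[p]) (-(z j - w ^ (n + 1) * G j))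
    rw [norm_neg, neg_sub, add_sub_cancel, norm_mul, norm_pow, h5, mul_one] at h6
    exact (le_max_iff.1 h6).resolve_right (h4 j).not_ge

end Pool.Agent.E7
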