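import Pool.Agent.Lib.MP_7e5527_ag.EA.AT

/-! Powers with `p`-adic exponents. -/

open MvPowerSeries

noncomputable section

namespace Pool.Agent.E7

variable {p : ℕ} [Fact p.Prime] {A A' : Type} [CommRing A] [CommRing A']

/-! Part 1. -/

private theorem az1_appr (z : ℤ_[p]) (k : ℕ) : (p : ℤ_[p]) ^ k ∣ z - ((z.appr k : ℤ) : ℤ_[p]) := by
  rw [Int.cast_natCast]
  exact Ideal.mem_span_singleton.1 (PadicInt.appr_spec k z)

private theorem az1_int {z : ℤ_[p]} {k : ℕ} {m m' : ℤ} (h : (p : ℤ_[p]) ^ k ∣ z - m)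
    (h' : (p : ℤ_[p]) ^ k ∣ z - m') : (p : A) ^ k ∣ (m' : A) - m := by
  have h1 := h.sub h'
  rw [sub_sub_sub_cancel_left, ← Int.cast_sub, PadicInt.pow_p_dvd_int_iff] at h1
  simpa using map_dvd (Int.castRingHom A) h1

private def az1_R (z : ℤ_[p]) (y : A) : Prop :=
  ∀ k, ∃ m : ℤ, (p : ℤ_[p]) ^ k ∣ z - m ∧ (p : A) ^ k ∣ y - m

private theorem az1_uq [PC p A] {z : ℤ_[p]} {y y' : A} (h : az1_R z y) (h' : az1_R z y') :
    y = y' := by
  refine sub_eq_zero.1 (pc_sep p fun k => ?_)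
  obtain ⟨m, h1, h2⟩ := h k
  obtain ⟨m', h3, h4⟩ := h' k
  have := (h2.sub h4).sub (az1_int h1 h3)
  rwa [show y - m - (y' - m') - (m' - m) = y - y' by ring] at this

private theorem az1_mul {B : Type} [CommRing B] {a z z' m m' : B} (h : a ∣ z - m)
    (h' : a ∣ z' - m') : a ∣ z * z' - m * m' := by
  rw [show z * z' - m * m' = (z - m) * z' + m * (z' - m') by ring]
  exact (h.mul_right _).add (h'.mul_left _)

private theorem az1_add {B : Type} [CommRing B] {a z z' m m' : B} (h : a ∣ z - m)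
    (h' : a ∣ z' - m') : a ∣ z + z' - (m + m') := by
  rw [add_sub_add_comm]
  exact h.add h'

theorem exists_zc (p : ℕ) [Fact p.Prime] (A : Type) [CommRing A] [PC p A] :
    Nonempty (ℤ_[p] →+* A) := by
  have h : ∀ z : ℤ_[p], ∃ y : A, az1_R z y := fun z => by
    obtain ⟨y, hy⟩ := pc_lim p (fun k => ((z.appr k : ℤ) : A)) fun k =>
      az1_int (az1_appr z k) ((pow_dvd_pow _ (Nat.le_succ k)).trans (az1_appr z (k + 1)))
    exact ⟨y, fun k => ⟨_, az1_appr z k, hy k⟩⟩
  choose f hf using h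
  refine ⟨{ toFun := f
            map_one' := az1_uq (hf 1) fun k => ⟨1, by simp, by simp⟩
            map_zero' := az1_uq (hf 0) fun k => ⟨0, by simp, by simp⟩
            map_mul' := fun z z' => az1_uq (hf _) fun k => ?_
            map_add' := fun z z' => az1_uq (hf _) fun k => ?_ }⟩
  · obtain ⟨m, h1, h2⟩ := hf z k
    obtain ⟨m', h3, h4⟩ := hf z' k
    exact ⟨m * m', by rw [Int.cast_mul]; exact az1_mul h1 h3,
      by rw [Int.cast_mul]; exact az1_mul h2 h4⟩
  · obtain ⟨m, h1, h2⟩ := hf z k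
    obtain ⟨m', h3, h4⟩ := hf z' k
    exact ⟨m + m', by rw [Int.cast_add]; exact az1_add h1 h3,
      by rw [Int.cast_add]; exact az1_add h2 h4⟩

theorem zc_unique [PC p A] (f g : ℤ_[p] →+* A) : f = g := by
  have h : ∀ (f : ℤ_[p] →+* A) z, az1_R z (f z) := fun f z k =>
    ⟨_, az1_appr z k, by simpa using map_dvd f (az1_appr z k)⟩
  exact RingHom.ext fun z => az1_uq (h f z) (h g z)

/-- The structure map. -/
def zc (p : ℕ) [Fact p.Prime] (A : Type) [CommRing A] [PC p A] : ℤ_[p] →+* A :=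
  (exists_zc p A).some

instance pc_zp : PC p ℤ_[p] := by
  unfold PC
  rw [← PadicInt.maximalIdeal_eq_span_p]
  infer_instance

variable [PC p A] [PC p A']

theorem zc_map (ρ : A →+* A') (z : ℤ_[p]) : ρ (zc p A z) = zc p A' z :=
  RingHom.congr_fun (zc_unique (ρ.comp (zc p A)) _) z

theorem zc_self (z : ℤ_[p]) : zc p ℤ_[p] z = z :=
  RingHom.congr_fun (zc_unique _ (RingHom.id _)) z

/-- The binomial series. -/
def bz (z : ℤ_[p]) : PS Unit ℤ_[p] := PowerSeries.binomialSeries ℤ_[p] z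

/-- The power `u ^ z`. -/
def zpw (u : A) (z : ℤ_[p]) : A := evx (zc p A) (fun _ : Unit => u - 1) (bz z)

/-- Near to one. -/
def E1 {ι A : Type} [CommRing A] (u : ι → A) : Prop := Ev fun i => u i - 1

private theorem az1_nat (n : ℕ) : bz (n : ℤ_[p]) = (1 + X ()) ^ n :=
  PowerSeries.binomialSeries_nat (R := ℤ_[p]) (A := ℤ_[p]) n

private theorem az1_badd (z z' : ℤ_[p]) : bz (z + z') = bz z * bz z' :=
  PowerSeries.binomialSeries_add (A := ℤ_[p]) z z'

private theorem az1_c (z : ℤ_[p]) : constantCoeff (bz z) = 1 :=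
  PowerSeries.binomialSeries_constantCoeff (A := ℤ_[p]) z

theorem bz_der (z : ℤ_[p]) : (1 + X ()) * pderiv ℤ_[p] () (bz z) = C z * bz z := by
  have h1 : PowerSeries.derivative ℤ_[p] (PowerSeries.binomialSeries ℤ_[p] z) =
      PowerSeries.C z * PowerSeries.binomialSeries ℤ_[p] (z - 1) := by
    refine PowerSeries.ext fun n => ?_
    have := Ring.choose_smul_choose z (Nat.le_add_left 1 n)
    rw [Nat.choose_one_right, Ring.choose_one_right, Nat.add_sub_cancel, Nat.cast_one,
      nsmul_eq_mul, Nat.cast_succ] at this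
    rw [PowerSeries.coeff_derivative, PowerSeries.coeff_C_mul, PowerSeries.binomialSeries_coeff,
      PowerSeries.binomialSeries_coeff, smul_eq_mul, smul_eq_mul, mul_one, mul_one, mul_comm, this]
  have h2 : pderiv ℤ_[p] () (bz z) = C z * bz (z - 1) := h1
  have h3 : bz z = (1 + X ()) * bz (z - 1) := by
    rw [← pow_one (1 + X ()), ← az1_nat, ← az1_badd, Nat.cast_one, add_sub_cancel]
  rw [h2, mul_left_comm, ← h3]

private theorem az1_ode {τ : Type} [Finite τ] {F G w : PS τ ℤ_[p]}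
    (h0 : constantCoeff F = constantCoeff G) (hw : constantCoeff w = 1)
    (h : ∀ l, ∃ c, w * pderiv ℤ_[p] l F = c * F ∧ w * pderiv ℤ_[p] l G = c * G) : F = G := by
  refine sub_eq_zero.1 (odeu (fun _ : Unit => F - G) (fun _ => by rw [map_sub, h0, sub_self])
    (fun l _ => ?_) ())
  obtain ⟨c, h1, h2⟩ := h l
  have hu : IsUnit w := isUnit_iff_constantCoeff.2 (hw ▸ isUnit_one)
  rw [← Ideal.unit_mul_mem_iff_mem _ hu, map_sub, mul_sub, h1, h2, ← mul_sub]
  exact Ideal.mul_mem_left _ _ (Ideal.subset_span ⟨(), rfl⟩)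

private theorem az1_der {τ : Type} [Finite τ] {w : PS τ ℤ_[p]} (hw : constantCoeff w = 1)
    (z : ℤ_[p]) (l : τ) : w * pderiv ℤ_[p] l (sb (fun _ : Unit => w - 1) (bz z)) =
      C z * pderiv ℤ_[p] l w * sb (fun _ : Unit => w - 1) (bz z) := by
  have hb : C0 fun _ : Unit => w - 1 := fun _ => by rw [map_sub, hw, map_one, sub_self]
  have h1 := congrArg (sb fun _ : Unit => w - 1) (bz_der z)
  rw [map_mul, map_mul, map_add, map_one, evx_X hb.ev, evx_C hb.ev, add_sub_cancel] at h1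
  rw [pderiv_sb hb, Fintype.sum_unique, ← mul_assoc, h1, map_sub, pderiv_one, sub_zero]
  ring

private theorem az1_c' {τ : Type} [Finite τ] {w : PS τ ℤ_[p]} (hw : constantCoeff w = 1)
    (z : ℤ_[p]) : constantCoeff (sb (fun _ : Unit => w - 1) (bz z)) = 1 := by
  rw [const_sb fun _ => by rw [map_sub, hw, map_one, sub_self], az1_c]

private theorem az1_comp (z z' : ℤ_[p]) :
    sb (fun _ : Unit => bz z - 1) (bz z') = bz (z * z') := by
  refine az1_ode (w := (1 + X ()) * bz z) (by rw [az1_c' (az1_c z), az1_c])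
    (by rw [map_mul, az1_c]; simp) fun l => ⟨C (z * z') * bz z, ?_, ?_⟩
  · rw [mul_assoc, az1_der (az1_c z), map_mul]
    linear_combination C z' * sb (fun _ : Unit => bz z - 1) (bz z') * bz_der z
  · linear_combination bz z * bz_der (z * z')

private theorem az1_prod {τ : Type} [Finite τ] {w w' : PS τ ℤ_[p]} (hw : constantCoeff w = 1)
    (hw' : constantCoeff w' = 1) (z : ℤ_[p]) : sb (fun _ : Unit => w * w' - 1) (bz z) =
      sb (fun _ : Unit => w - 1) (bz z) * sb (fun _ : Unit => w' - 1) (bz z) := by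
  have h : constantCoeff (w * w') = 1 := by rw [map_mul, hw, hw', one_mul]
  refine az1_ode (w := w * w') (by rw [map_mul, az1_c' h, az1_c' hw, az1_c' hw', one_mul]) h
    fun l => ⟨_, az1_der h z l, ?_⟩
  rw [Derivation.leibniz, Derivation.leibniz, smul_eq_mul, smul_eq_mul, smul_eq_mul, smul_eq_mul]
  linear_combination w * sb (fun _ : Unit => w - 1) (bz z) * az1_der hw' z l +
    w' * sb (fun _ : Unit => w' - 1) (bz z) * az1_der hw z l

omit [PC p A'] in
private theorem az1_ev {τ : Type} [Finite τ] {x : τ → A} (h : Ev x) {w : PS τ ℤ_[p]}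
    (hw : constantCoeff w = 1) (z : ℤ_[p]) :
    evx (zc p A) x (sb (fun _ : Unit => w - 1) (bz z)) = zpw (evx (zc p A) x w) z := by
  have hb : C0 fun _ : Unit => w - 1 := fun _ => by rw [map_sub, hw, map_one, sub_self]
  rw [evx_sb h hb.ev (h.evx hb), zpw, map_sub, map_one]

variable {u v : A}

theorem zpw_nat (h : E1 fun _ : Unit => u) (n : ℕ) : zpw u (n : ℤ_[p]) = u ^ n := by
  rw [zpw, az1_nat, map_pow, map_add, map_one, evx_X h, add_sub_cancel]

theorem zpw_add (h : E1 fun _ : Unit => u) (z z' : ℤ_[p]) :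
    zpw u (z + z') = zpw u z * zpw u z' := by
  rw [zpw, az1_badd, map_mul, zpw, zpw]

theorem zpw_sub_one (h : E1 fun _ : Unit => u) (z : ℤ_[p]) :
    zpw u z - 1 ∈ Ideal.span {u - 1} := by
  have := evx_sub_const (φ := zc p A) h (bz z)
  rwa [az1_c, map_one, Set.range_const] at this

theorem zpw_map (h : E1 fun _ : Unit => u) (ρ : A →+* A') (h' : E1 fun _ : Unit => ρ u)
    (z : ℤ_[p]) : ρ (zpw u z) = zpw (ρ u) z := by
  have e : (fun _ : Unit => ρ (u - 1)) = fun _ => ρ u - 1 := funext fun _ => by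
    rw [map_sub, map_one]
  rw [zpw, evx_comp h ρ (by rw [e]; exact h'), e, zc_unique (ρ.comp (zc p A)) (zc p A'), zpw]

theorem zpw_zpw (h : E1 fun _ : Unit => u) (z z' : ℤ_[p]) :
    zpw (zpw u z) z' = zpw u (z * z') := by
  have := az1_ev h (az1_c z) z'
  rw [az1_comp] at this
  exact this.symm

theorem mul_zpw (h : E1 ![u, v]) (z : ℤ_[p]) : zpw (u * v) z = zpw u z * zpw v z := by
  have h0 : ∀ i : Fin 2, constantCoeff (1 + X i : PS (Fin 2) ℤ_[p]) = 1 := fun i => by simp
  have h1 : ∀ i : Fin 2, evx (zc p A) (fun i => ![u, v] i - 1) (1 + X i) = ![u, v] i := fun i => by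
    rw [map_add, map_one, evx_X h, add_sub_cancel]
  have h2 := congrArg (evx (zc p A) fun i => ![u, v] i - 1) (az1_prod (h0 0) (h0 1) z)
  rw [map_mul, az1_ev h (h0 0), az1_ev h (h0 1),
    az1_ev h (by rw [map_mul, h0, h0, one_mul]), map_mul, h1, h1] at h2
  exact h2

theorem one_zpw (z : ℤ_[p]) : zpw (1 : A) z = 1 := by
  rw [zpw, sub_self, evx_zero, az1_c, map_one]

theorem zpw_tors (h : E1 fun _ : Unit => u) {j : ℕ} (hu : u ^ p ^ j = 1) {z : ℤ_[p]} {m : ℕ}
    (hm : (p : ℤ_[p]) ^ j ∣ z - m) : zpw u z = u ^ m := by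
  obtain ⟨w, hw⟩ := hm
  rw [sub_eq_iff_eq_add'.1 hw, zpw_add h, zpw_nat h, ← zpw_zpw h, ← Nat.cast_pow, zpw_nat h, hu,
    one_zpw, mul_one]

/-! Part 2. -/

variable {ι κ μ : Type} [Fintype ι] [Fintype κ] [Fintype μ]

/-- The image of a point of the formal torus under a `p`-adic matrix. -/
def mpw (u : ι → A) (M : Matrix κ ι ℤ_[p]) : κ → A := fun i => ∏ l, zpw (u l) (M i l)

variable {u v : ι → A}

theorem E1.one (h : E1 u) (i : ι) : E1 fun _ : Unit => u i := by
  obtain ⟨Φ, hΦ⟩ := h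
  exact ⟨Φ, fun _ => hΦ i⟩

private theorem az2_prod {I : Ideal A} {α : Type} {w : α → A} (s : Finset α)
    (h : ∀ l, w l - 1 ∈ I) : ∏ l ∈ s, w l - 1 ∈ I := by
  refine Finset.prod_induction w (fun a => a - 1 ∈ I) (fun a b ha hb => ?_) (by simp)
    fun l _ => h l
  have : a * b - 1 = a * (b - 1) + (a - 1) := by ring
  rw [this]
  exact I.add_mem (I.mul_mem_left _ hb) ha

private theorem az2_mem (h : E1 u) (l : ι) (z : ℤ_[p]) :
    zpw (u l) z - 1 ∈ Ideal.span (Set.range fun l => u l - 1) :=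
  Ideal.span_mono (Set.singleton_subset_iff.2 (Set.mem_range_self (f := fun l => u l - 1) l))
    (zpw_sub_one (h.one l) z)

private theorem az2_zero {a : A} (h : E1 fun _ : Unit => a) : zpw a (0 : ℤ_[p]) = 1 := by
  simpa using zpw_nat (p := p) h 0

private theorem az2_sum {a : A} (h : E1 fun _ : Unit => a) {α : Type} (s : Finset α)
    (f : α → ℤ_[p]) : zpw a (∑ k ∈ s, f k) = ∏ k ∈ s, zpw a (f k) := by
  classical
  induction s using Finset.induction_on with
  | empty => simpa using az2_zero h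
  | insert k s hk ih => rw [Finset.sum_insert hk, Finset.prod_insert hk, zpw_add h, ih]

private theorem az2_prod_zpw (h : E1 u) (s : Finset ι) (z : ℤ_[p]) :
    zpw (∏ l ∈ s, u l) z = ∏ l ∈ s, zpw (u l) z := by
  classical
  induction s using Finset.induction_on with
  | empty => simpa using one_zpw z
  | insert k s hk ih =>
    have h2 : E1 ![u k, ∏ l ∈ s, u l] := by
      refine Ev.span h fun j => Ideal.le_radical ?_
      fin_cases j
      · exact Ideal.subset_span ⟨k, rfl⟩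
      · exact az2_prod s fun l => Ideal.subset_span ⟨l, rfl⟩
    rw [Finset.prod_insert hk, Finset.prod_insert hk, mul_zpw h2, ih]

theorem mpw_sub_one (h : E1 u) (M : Matrix κ ι ℤ_[p]) (i : κ) :
    mpw u M i - 1 ∈ Ideal.span (Set.range fun l => u l - 1) :=
  az2_prod _ fun l => az2_mem h l _

theorem E1.mpw (h : E1 u) (M : Matrix κ ι ℤ_[p]) : E1 (mpw u M) :=
  Ev.span h fun j => Ideal.le_radical (mpw_sub_one h M j)

theorem mpw_mpw (h : E1 u) (M : Matrix κ ι ℤ_[p]) (M' : Matrix μ κ ℤ_[p]) :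
    mpw (mpw u M) M' = mpw u (M' * M) := by
  funext i
  have h1 : ∀ k, E1 fun l => zpw (u l) (M k l) := fun k =>
    Ev.span h fun l => Ideal.le_radical (az2_mem h l _)
  calc mpw (mpw u M) M' i = ∏ k, ∏ l, zpw (u l) (M' i k * M k l) := by
        refine Finset.prod_congr rfl fun k _ => (az2_prod_zpw (h1 k) _ _).trans ?_
        exact Finset.prod_congr rfl fun l _ => by rw [zpw_zpw (h.one l), mul_comm]
    _ = mpw u (M' * M) i := by
        rw [Finset.prod_comm]
        exact Finset.prod_congr rfl fun l _ => by rw [Matrix.mul_apply, az2_sum (h.one l)]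

theorem mpw_one [DecidableEq ι] (h : E1 u) : mpw u (1 : Matrix ι ι ℤ_[p]) = u := by
  funext i
  rw [mpw, Finset.prod_eq_single i]
  · simpa using zpw_nat (p := p) (h.one i) 1
  · intro l _ hl
    rw [Matrix.one_apply_ne' hl, az2_zero (h.one l)]
  · intro hi
    exact absurd (Finset.mem_univ i) hi

theorem mul_mpw (h : E1 (Sum.elim u v)) (M : Matrix κ ι ℤ_[p]) :
    mpw (u * v) M = mpw u M * mpw v M := by
  funext i
  rw [Pi.mul_apply, mpw, mpw, mpw, ← Finset.prod_mul_distrib]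
  refine Finset.prod_congr rfl fun l _ => mul_zpw ?_ _
  obtain ⟨Φ, hΦ⟩ := h
  refine ⟨Φ, fun j => ?_⟩
  fin_cases j
  · exact hΦ (Sum.inl l)
  · exact hΦ (Sum.inr l)

theorem one_mpw (M : Matrix κ ι ℤ_[p]) : mpw (1 : ι → A) M = 1 := by
  funext i
  exact Finset.prod_eq_one fun l _ => one_zpw _

theorem mpw_map (h : E1 u) (ρ : A →+* A') (h' : E1 fun i => ρ (u i)) (M : Matrix κ ι ℤ_[p])
    (i : κ) : ρ (mpw u M i) = mpw (fun l => ρ (u l)) M i := by
  rw [mpw, mpw, map_prod]
  exact Finset.prod_congr rfl fun l _ => zpw_map (h.one l) ρ (h'.one l) _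

theorem e1_X : E1 fun i : ι => (1 + X i : PS ι A) := by
  refine C0.ev fun i => ?_
  simp

/-- The series `(1 + t) ^ M - 1`. -/
def tpw (A : Type) [CommRing A] [PC p A] (M : Matrix κ ι ℤ_[p]) : κ → PS ι A :=
  fun i => mpw (fun l => 1 + X l) M i - 1

theorem tpw_c0 (M : Matrix κ ι ℤ_[p]) : C0 (tpw A M) := by
  intro i
  have h : Ideal.span (Set.range fun l => (1 + X l : PS ι A) - 1) ≤
      RingHom.ker constantCoeff := by
    rw [Ideal.span_le]
    rintro _ ⟨l, rfl⟩
    simp [RingHom.mem_ker]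
  exact h (mpw_sub_one e1_X M i)

theorem tpw_map (ρ : A →+* A') (M : Matrix κ ι ℤ_[p]) (i : κ) :
    map ρ (tpw A M i) = tpw A' M i := by
  have e : (fun l => map ρ (1 + X l : PS ι A)) = fun l => 1 + X l := by
    funext l
    simp
  rw [tpw, tpw, map_sub, map_one, mpw_map e1_X (map ρ) (e ▸ e1_X), e]

theorem evx_tpw (h : E1 u) (φ : A' →+* A) (M : Matrix κ ι ℤ_[p]) (f : PS κ A') :
    evx φ (fun l => u l - 1) (sb (tpw A' M) f) = evx φ (fun i => mpw u M i - 1) f := by
  have e : (fun l => evx φ (fun l => u l - 1) (1 + X l : PS ι A')) = u := by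
    funext l
    rw [map_add, map_one, evx_X h, add_sub_cancel]
  have e2 : (fun j => evx φ (fun l => u l - 1) (tpw A' M j)) = fun i => mpw u M i - 1 := by
    funext j
    rw [tpw, map_sub, map_one, mpw_map e1_X _ (e.symm ▸ h), e]
  rw [evx_sb h (tpw_c0 M).ev (Ev.evx h (tpw_c0 M)), e2]

private theorem az2_c0 (m : ι) : C0 fun _ : Unit => (X m : PS ι A) := fun _ => constantCoeff_X _

private theorem az2_sb (m : ι) (z : ℤ_[p]) :
    zpw (1 + X m : PS ι A) z = sb (fun _ : Unit => X m) (map (zc p A) (bz z)) := by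
  rw [evx_map (az2_c0 m).ev, zpw, add_sub_cancel_left,
    zc_unique (zc p (PS ι A)) (C.comp (zc p A))]

private theorem az2_der (m : ι) (z : ℤ_[p]) :
    (1 + X m) * pderiv A m (zpw (1 + X m : PS ι A) z) =
      C (zc p A z) * zpw (1 + X m : PS ι A) z := by
  have e := congrArg (fun f => sb (fun _ : Unit => (X m : PS ι A)) (map (zc p A) f)) (bz_der z)
  simp only [map_mul, map_add, map_one, map_X, map_C, evx_X (az2_c0 m).ev,
    evx_C (az2_c0 m).ev] at e
  rw [az2_sb, pderiv_sb (az2_c0 m), Fintype.sum_unique, pderiv_X_self, mul_one, pderiv_map', e]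

private theorem az2_der_ne {l m : ι} (h : m ≠ l) (z : ℤ_[p]) :
    pderiv A l (zpw (1 + X m : PS ι A) z) = 0 := by
  rw [az2_sb, pderiv_sb (az2_c0 m), Fintype.sum_unique, pderiv_X_of_ne h, mul_zero]

theorem tpw_der (M : Matrix κ ι ℤ_[p]) (i : κ) (l : ι) :
    (1 + X l) * pderiv A l (tpw A M i) = C (zc p A (M i l)) * (1 + tpw A M i) := by
  classical
  have h0 : pderiv A l (∏ m ∈ Finset.univ.erase l, zpw (1 + X m : PS ι A) (M i m)) = 0 := by
    refine Finset.prod_induction _ (fun a => pderiv A l a = 0) (fun a b ha hb => ?_)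
      (Derivation.map_one_eq_zero _) fun m hm => az2_der_ne (Finset.ne_of_mem_erase hm) _
    rw [Derivation.leibniz, ha, hb, smul_zero, smul_zero, add_zero]
  rw [tpw, add_sub_cancel, map_sub, Derivation.map_one_eq_zero, sub_zero, mpw,
    ← Finset.mul_prod_erase _ _ (Finset.mem_univ l), Derivation.leibniz, h0, smul_zero, zero_add,
    smul_eq_mul]
  linear_combination (∏ m ∈ Finset.univ.erase l, zpw (1 + X m : PS ι A) (M i m)) *
    az2_der (A := A) l (M i l)

theorem tpw_unique [IsAddTorsionFree A] (M : Matrix κ ι ℤ_[p]) {b : κ → PS ι A} (h0 : C0 b)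
    (h : ∀ i l, (1 + X l) * pderiv A l (b i) = C (zc p A (M i l)) * (1 + b i)) :
    b = tpw A M := by
  funext a
  refine sub_eq_zero.1 (odeu (fun i => b i - tpw A M i) (fun i => ?_) (fun l i => ?_) a)
  · rw [map_sub, h0 i, tpw_c0 M i, sub_zero]
  · have hu : IsUnit (1 + X l : PS ι A) := isUnit_iff_constantCoeff.2 (by simp)
    have e : (1 + X l) * pderiv A l (b i - tpw A M i) =
        C (zc p A (M i l)) * (b i - tpw A M i) := by
      rw [map_sub]
      linear_combination h i l - tpw_der (A := A) M i l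
    rw [← Ideal.unit_mul_mem_iff_mem _ hu, e]
    exact Ideal.mul_mem_left _ _ (Ideal.subset_span ⟨i, rfl⟩)

end Pool.Agent.E7
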