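import Pool.Agent.Lib.MP_7e5527_ag.EA.CZ

/-! Hecke orbits of ordinary points meet subvarieties of the E7 Shimura variety in finite sets, off
the branches of small defect. -/

namespace Pool.Agent.E7.AllOld

open Pool.Agent.E7 MvPowerSeries

theorem e7All (p : ℕ) [Fact p.Prime] (e : ℂ_[p] ≃+* ℂ) (r m : ℕ) (hr : 0 < r) (hm : 0 < m)
    (Z0 : Ix → ℂ) (hZ0 : Z0 ∈ HH) (hT : IsOrdR e r Z0)
    (ρ : Fin m → ℂ_[p] →+* ℂ_[p]) (hρ : ∀ i y, ‖ρ i y‖ = ‖y‖) (σ : Fin m → ℂ →+* ℂ)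
    (hσ : ∀ i y, σ i (e y) = e (ρ i y)) (s : ℕ) (k : Fin s → ℕ) (F : Fin s → (Ix → ℂ) → ℂ)
    (a : Fin s → (Ix → ℚ) → ℂ) (hF : ∀ j, IsMF (k j) (F j) (a j)) :
    ∃ S : Set (Ix → ℂ), S.Finite ∧ S ⊆ HH ∧ ∀ Z, Hecke Z0 Z → (∀ j, F j Z = 0) →
      (∀ Z', Hecke Z0 Z' → SamePt Z Z' → GenV r (Afn σ Z')
        {f | ∃ i j, f = rename (Prod.mk i) (map (σ i) (tay (F j) Z'))}) →
      ∃ Z' ∈ S, SamePt Z Z' := by
  obtain ⟨χ, c, k0, S0, O, hc⟩ := hT.ordB hZ0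
  obtain rfl : σ = fun i => (e : ℂ_[p] →+* ℂ).comp ((ρ i).comp (e.symm : ℂ →+* ℂ_[p])) :=
    funext fun i => RingHom.ext fun y => by
      obtain ⟨y, rfl⟩ := e.surjective y
      simpa using hσ i y
  exact O.finite hc hr hm hρ hF

end Pool.Agent.E7.AllOld
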