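import Pool.Agent.Lib.MP_7e5527_ag.EA.CW
import Pool.Agent.Lib.MP_7e5527_ag.EO.OO

/-! Brackets and determinants of iterated brackets are forms. -/

open Filter Topology Matrix

noncomputable section

namespace Pool.Agent.E7

theorem ca_one (Z : Ix → ℂ) :
    LinearMap.det (fderiv ℂ (act 1) Z : (Ix → ℂ) →ₗ[ℂ] Ix → ℂ) = 1 := by
  rw [show act 1 = id from funext act_one, fderiv_id]
  simp

theorem ca_mul {g g' : Gb} (hg : g ∈ Gam) (hg' : g' ∈ Gam) {Z : Ix → ℂ} (hZ : Z ∈ HH) :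
    LinearMap.det (fderiv ℂ (act (g * g')) Z : (Ix → ℂ) →ₗ[ℂ] Ix → ℂ) =
      LinearMap.det (fderiv ℂ (act g) (act g' Z) : (Ix → ℂ) →ₗ[ℂ] Ix → ℂ) *
        LinearMap.det (fderiv ℂ (act g') Z : (Ix → ℂ) →ₗ[ℂ] Ix → ℂ) := by
  rw [fderiv_act_mul (Gam_le hg) (Gam_le hg') hZ, ContinuousLinearMap.toLinearMap_comp,
    LinearMap.det_comp]

/-- The elements whose Jacobian determinant has the sign `+`. -/
def GamP : Subgroup Gb where
  carrier := {γ | γ ∈ Gam ∧ ∀ Z ∈ HH,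
    LinearMap.det (fderiv ℂ (act γ) Z : (Ix → ℂ) →ₗ[ℂ] Ix → ℂ) = jf γ Z ^ (-18 : ℤ)}
  one_mem' := ⟨one_mem _, fun Z _ => by rw [ca_one, jf_one, _root_.one_zpow]⟩
  mul_mem' := fun {g g'} hg hg' => ⟨mul_mem hg.1 hg'.1, fun Z hZ => by
    rw [ca_mul hg.1 hg'.1 hZ, hg.2 _ (act_spec (Gam_le hg'.1) hZ).2.1, hg'.2 _ hZ,
      jf_mul g (Gam_le hg'.1) hZ, mul_zpow]⟩
  inv_mem' := fun {g} hg => ⟨inv_mem hg.1, fun Z hZ => by
    have h0 := (act_spec (Gam_le (inv_mem hg.1)) hZ).2.1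
    have h1 := ca_mul hg.1 (inv_mem hg.1) hZ
    have h2 := jf_mul g (Gam_le (inv_mem hg.1)) hZ
    rw [mul_inv_cancel, ca_one, hg.2 _ h0] at h1
    rw [mul_inv_cancel, jf_one] at h2
    refine mul_left_cancel₀ (zpow_ne_zero (-18 : ℤ) (act_spec (Gam_le hg.1) h0).1) ?_
    rw [← h1, ← mul_zpow, ← h2, _root_.one_zpow]⟩

theorem GamP_le : GamP ≤ Gam := fun _ h => h.1

theorem ca_neg {γ : Gb} (hγ : γ ∈ Gam) (h : γ ∉ GamP) {Z : Ix → ℂ} (hZ : Z ∈ HH) :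
    LinearMap.det (fderiv ℂ (act γ) Z : (Ix → ℂ) →ₗ[ℂ] Ix → ℂ) = -jf γ Z ^ (-18 : ℤ) := by
  obtain ⟨s, hs, hd⟩ := jac_det hγ
  rcases sq_eq_one_iff.1 hs with rfl | rfl
  · exact (h ⟨hγ, fun W hW => by rw [hd W hW, Int.cast_one, one_mul]⟩).elim
  · rw [hd Z hZ, Int.cast_neg, Int.cast_one, neg_one_mul]

/-- The index is at most two. -/
theorem GamP_index : GamP.relIndex Gam ≠ 0 := by
  refine ne_zero_of_dvd_ne_zero two_ne_zero (Subgroup.index_dvd_two_iff.2 ?_)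
  by_cases h : ∃ a : Gam, (a : Gb) ∉ GamP
  · obtain ⟨a, ha⟩ := h
    refine ⟨a, fun b => or_iff_not_imp_right.2 fun hb => ⟨mul_mem b.2 a.2, fun Z hZ => ?_⟩⟩
    change LinearMap.det (fderiv ℂ (act ((b : Gb) * a)) Z : (Ix → ℂ) →ₗ[ℂ] Ix → ℂ) =
      jf ((b : Gb) * a) Z ^ (-18 : ℤ)
    rw [ca_mul b.2 a.2 hZ, ca_neg b.2 hb (act_spec (Gam_le a.2) hZ).2.1, ca_neg a.2 ha hZ,
      jf_mul _ (Gam_le a.2) hZ, mul_zpow, neg_mul_neg]
  · exact ⟨1, fun b => Or.inr (not_not.1 fun hb => h ⟨b, hb⟩)⟩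

theorem nE_mem_GamP {B : Ix → ℚ} (h : B ∈ Lam) : nE (toR ℂ B) ∈ GamP :=
  ⟨nE_mem_Gam h, fun Z _ => by
    rw [show act (nE (toR ℂ B)) = fun Z => Z + toR ℂ B from funext (act_nE _), fderiv_add_const,
      fderiv_fun_id, jf_nE]
    simp⟩

/-- As `exists_slash`, with the sign. -/
theorem exists_slash' {γ : Gb} (hγ : γ ∈ Gam) :
    ∃ (σ : Hol →+* Hol) (j : Holˣ) (J : Matrix Ix Ix Hol) (s : ℤ), s ^ 2 = 1 ∧
      (γ ∈ GamP → s = 1) ∧ (∀ i x, dH i (σ x) = ∑ l, σ (dH l x) * J l i) ∧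
      J.det = (s : Hol) * ((j ^ (-(18 : ℤ)) : Holˣ) : Hol) ∧
      ∀ k x, ((Wr.sl σ j k x : Hol) : Fn) = sl k γ x := by
  have hg := Gam_le hγ
  obtain ⟨s, hs, hd⟩ := jac_det hγ
  have hJ : ∀ l i, IsHol (res fun Z => yc (fderiv ℂ (act γ) Z (toR ℂ (UU i))) l) := fun l i =>
    isHol_res ((LinearMap.toContinuousLinearMap
      ((LinearMap.proj l).comp (latJ_ycL (F := ℂ)))).contDiff.comp_contDiffOn
      (((contDiffOn_act hg).fderiv_of_isOpen isOpen_HH (by simp)).clm_apply contDiffOn_const))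
  let j : Holˣ := ⟨⟨res (jf γ), isHol_res (polyFn_jf γ).contDiff.contDiffOn⟩,
    ⟨res fun Z => (jf γ Z)⁻¹, isHol_res ((polyFn_jf γ).contDiff.contDiffOn.inv
      fun _ hZ => (act_spec hg hZ).1)⟩,
    Subtype.ext (funext fun Z => mul_inv_cancel₀ (act_spec hg Z.2).1),
    Subtype.ext (funext fun Z => inv_mul_cancel₀ (act_spec hg Z.2).1)⟩
  refine ⟨{ toFun := fun x => ⟨sl 0 γ x, IsHol.sl x.2 0 hg⟩
            map_one' := Subtype.ext (sl_zero_one γ)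
            map_mul' := fun x y => Subtype.ext (sl_mul_fn 0 0 hg x y)
            map_zero' := Subtype.ext (sl_zero 0 γ)
            map_add' := fun x y => Subtype.ext (sl_add 0 γ x y) }, j,
    Matrix.of fun l i => ⟨_, hJ l i⟩, s, hs, fun h => ?_, fun i x => Subtype.ext (funext fun Z => ?_),
    Subtype.ext (funext fun Z => ?_), fun k x => funext fun Z => ?_⟩
  · exact_mod_cast mul_right_cancel₀ (zpow_ne_zero (-18 : ℤ) (act_spec hg bpt.2).1)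
      (((hd _ bpt.2).symm.trans (h.2 _ bpt.2)).trans (one_mul _).symm)
  · refine (slh_chain hg x.2 i Z).trans ?_
    rw [slh_ev_apply, map_sum]
    exact Finset.sum_congr rfl fun l _ => rfl
  · rw [slh_ev_apply, slh_ev_apply, RingHom.map_det, map_mul, map_intCast, slh_ev_zpow]
    exact (det_yc (fderiv ℂ (act γ) Z : (Ix → ℂ) →ₗ[ℂ] Ix → ℂ)).trans (hd Z Z.2)
  · rw [slh_ev_apply, Wr.sl, map_mul, slh_ev_zpow]
    change jf γ Z ^ (-k) * sl 0 γ x Z = _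
    simp only [sl, neg_zero, zpow_zero, one_mul]

theorem ca_br {γ : Gb} (hγ : γ ∈ Gam) : ∃ s : ℤ, (γ ∈ GamP → s = 1) ∧ ∀ (k : Option Ix → ℤ)
    (F : Option Ix → Fn), (∀ a, IsHol (F a)) → sl (∑ a, k a + 18) γ (Wr.br dl k F) =
      (s : Fn) * Wr.br dl k fun a => sl (k a) γ (F a) := by
  obtain ⟨σ, j, J, s, hs, h0, h1, h2, h3⟩ := exists_slash' hγ
  refine ⟨s, h0, fun k F h => ?_⟩
  let G : Option Ix → Hol := fun a => ⟨F a, h a⟩
  have e : Wr.br (fun i x => dH i x) k (fun a => Wr.sl σ j (k a) (G a)) =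
      (s : Hol) * Wr.sl σ j (∑ a, k a + 18) (Wr.br (fun i x => dH i x) k G) :=
    Wr.sl_br (dl := fun i x => dH i x) dH σ j J h1 s 18 h2 k G
  have e' := congrArg slh_val e
  rw [slh_br, map_mul, map_intCast, slh_val_apply, h3, ← slh_val_apply, slh_br] at e'
  simp only [h3] at e'
  rw [show (fun a => sl (k a) γ (F a)) = fun a => sl (k a) γ (G a) from rfl, e', ← mul_assoc, ← sq,
    ← Int.cast_pow, hs, Int.cast_one, one_mul]

variable {Δ : Subgroup Gb}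

/-- As `br_mi`. -/
theorem br_mi1 (hΔ : Δ ≤ GamP) (hi : Δ.relIndex Gam ≠ 0) {k : Option Ix → ℤ} {F : Option Ix → Fn}
    (h : ∀ a, MI Δ (k a) (F a)) : MI Δ (∑ a, k a + 18) (Wr.br dl k F) := by
  have hH : ∀ a, IsHol (F a) := fun a => (h a).1.gd.isHol
  have hv : Inv Δ (∑ a, k a + 18) (Wr.br dl k F) := fun δ hδ => by
    obtain ⟨s, h1, h2⟩ := ca_br (GamP_le (hΔ hδ))
    rw [h2 k F hH, funext fun a => (h a).2 δ hδ, h1 (hΔ hδ), Int.cast_one, one_mul]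
  refine ⟨⟨fun γ hγ => ?_, hv.finite (hΔ.trans GamP_le) hi⟩, hv⟩
  obtain ⟨s, -, h2⟩ := ca_br hγ
  rw [h2 k F hH]
  exact GQ.mul_mem (intCast_mem GQ s)
    (br_mem GQ (fun i _ hF => GQ.dl_mem i hF) k fun a => (h a).1.1 γ hγ)

theorem dk_mi (hΔ : Δ ≤ GamP) (hi : Δ.relIndex Gam ≠ 0) {k0 : ℕ} {f : Option Ix → Fn}
    (h : ∀ o, MI Δ k0 (f o)) (j : Ix) {n : ℕ} {G : Fn} (hG : MI Δ n G) :
    MI Δ ((n + (27 * k0 + 18) : ℕ) : ℤ) (Wr.Dk dl (fun _ => (k0 : ℤ)) f j n G) := by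
  have h1 := br_mi1 hΔ hi (k := Function.update (fun _ => (k0 : ℤ)) (some j) n)
    (F := Function.update f (some j) G) fun a => by
      by_cases ha : a = some j
      · rw [ha, Function.update_self, Function.update_self]
        exact hG
      · rw [Function.update_of_ne ha, Function.update_of_ne ha]
        exact h a
  have e : ∑ a, Function.update (fun _ : Option Ix => (k0 : ℤ)) (some j) n a + 18 =
      ((n + (27 * k0 + 18) : ℕ) : ℤ) := by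
    rw [Finset.sum_update_of_mem (Finset.mem_univ _), ← Finset.erase_eq]
    simp [add_assoc]
  rwa [e] at h1

/-- The determinants of the sections `f none * P`. -/
def PsF {k0 : ℕ} (f : Option Ix → Fn) (P : PB k0) (ν : Fin P.D → List Ix) : Fn :=
  Psw dl k0 (27 * k0 + 18) f (fun b => f none * pF (P.b b)) ν

theorem ca_psf {γ : Gb} (hγ : γ ∈ Gam) : ∃ s : ℤ, s ^ 2 = 1 ∧ (γ ∈ GamP → s = 1) ∧ ∀ (k0 : ℕ)
    (f : Option Ix → Fn), (∀ o, IsHol (f o)) → ∀ P : PB k0, ∃ r : ℤ, r ^ 2 = 1 ∧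
      ∀ ν : Fin P.D → List Ix, (r : Fn) * PsF (fun o => sl k0 γ (f o)) P ν =
        (s : Fn) ^ wl ν * sl ((wl ν * (27 * k0 + 18) : ℕ) : ℤ) γ (PsF f P ν) := by
  obtain ⟨σ, j, J, s, hs, h0, h1, h2, h3⟩ := exists_slash' hγ
  refine ⟨s, hs, h0, fun k0 f h P => ?_⟩
  obtain ⟨R, hR, hb⟩ := P.trans γ hγ
  refine ⟨R.det, hR, fun ν => ?_⟩
  let G : Option Ix → Hol := fun a => ⟨f a, h a⟩
  let b : Fin P.D → Hol := fun α => ⟨pF (P.b α), isHol_pF _⟩
  have hb' : (fun α => Wr.sl σ j 0 (G none * b α)) =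
      fun α => ∑ β, R.map (Int.castRingHom Hol) α β * (Wr.sl σ j k0 (G none) * b β) := by
    funext α
    refine Subtype.ext ((h3 _ _).trans ?_)
    have e := sl_mul_fn k0 (-(k0 : ℤ)) (Gam_le hγ) (f none) (pF (P.b α))
    rw [add_neg_cancel, hb α, Finset.mul_sum] at e
    refine e.trans ?_
    rw [← slh_val_apply, map_sum]
    refine Finset.sum_congr rfl fun β _ => ?_
    rw [map_mul, map_mul, Matrix.map_apply, eq_intCast, map_intCast, slh_val_apply, h3,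
      mul_smul_comm, Int.cast_smul_eq_zsmul, zsmul_eq_mul]
    rfl
  have e : Psw (fun i x => dH i x) k0 (27 * k0 + 18) (fun o => Wr.sl σ j k0 (G o))
      (fun α => Wr.sl σ j 0 (G none * b α)) ν = (s : Hol) ^ wl ν *
        Wr.sl σ j ((wl ν * (27 * k0 + 18) : ℕ) : ℤ)
          (Psw (fun i x => dH i x) k0 (27 * k0 + 18) G (fun α => G none * b α) ν) :=
    sl_Psw (d := fun i x => dH i x) dH σ j J h1 s (c := 18) h2 (by simp) G _ ν
  have e0 : Psw (fun i x => dH i x) k0 (27 * k0 + 18) (fun o => Wr.sl σ j k0 (G o))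
      (fun α => ∑ β, R.map (Int.castRingHom Hol) α β * (Wr.sl σ j k0 (G none) * b β)) ν =
      (R.map (Int.castRingHom Hol)).det * Psw (fun i x => dH i x) k0 (27 * k0 + 18)
        (fun o => Wr.sl σ j k0 (G o)) (fun β => Wr.sl σ j k0 (G none) * b β) ν :=
    Psw_lin dH _ _ _ _ (R.map (Int.castRingHom Hol))
      (fun a a' i => Derivation.map_intCast (dH i) (R a a')) ν
  rw [hb', e0, ← RingHom.mapMatrix_apply, ← RingHom.map_det, eq_intCast] at e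
  have e' := congrArg slh_val e
  rw [map_mul, map_mul, map_pow, map_intCast, map_intCast, map_Psw (d' := dl) slh_val slh_val_dH,
    slh_val_apply, h3, ← slh_val_apply, map_Psw (d' := dl) slh_val slh_val_dH] at e'
  simp only [map_mul, slh_val_apply, h3] at e'
  exact e'

/-- As `psi_slash`. -/
theorem psf_slash {γ : Gb} (hγ : γ ∈ Gam) : ∃ s : ℤ, (γ ∈ GamP → s = 1) ∧ ∀ (k0 : ℕ)
    (f : Option Ix → Fn), (∀ o, IsHol (f o)) → ∀ (P : PB k0) (ν ν' : Fin P.D → List Ix),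
      sl (((wl ν + wl ν') * (27 * k0 + 18) : ℕ) : ℤ) γ (PsF f P ν * PsF f P ν') =
        (s : Fn) ^ (wl ν + wl ν') *
          (PsF (fun o => sl k0 γ (f o)) P ν * PsF (fun o => sl k0 γ (f o)) P ν') := by
  obtain ⟨s, hs, h0, h1⟩ := ca_psf hγ
  refine ⟨s, h0, fun k0 f h P ν ν' => ?_⟩
  obtain ⟨r, hr, h2⟩ := h1 k0 f h P
  have h3 := congrArg₂ (· * ·) (h2 ν) (h2 ν')
  rw [mul_mul_mul_comm, ← sq, ← Int.cast_pow, hr, Int.cast_one, one_mul, mul_mul_mul_comm,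
    ← pow_add] at h3
  rw [h3, ← mul_assoc, ← mul_pow, ← sq, ← Int.cast_pow, hs, Int.cast_one, one_pow, one_mul, add_mul,
    Nat.cast_add, sl_mul_fn _ _ (Gam_le hγ)]

/-- As `psi_gd`. -/
theorem psf_gd {k0 : ℕ} {f : Option Ix → Fn} (h : ∀ o, Gd (f o)) (P : PB k0)
    (ν ν' : Fin P.D → List Ix) : Gd (PsF f P ν * PsF f P ν') := by
  obtain ⟨D, -, -, hD⟩ := exists_dP GQ_le_Hol fun i F hF => GQ.dl_mem i hF
  have e1 : ∀ μ : Fin P.D → List Ix, ∃ W : MvPolynomial Ix GQ,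
      MvPolynomial.aeval yF W = PsF f P μ := fun μ => by
    refine ⟨_, (map_Psw (d := fun i => D i) (d' := dl)
      (MvPolynomial.aeval yF : MvPolynomial Ix GQ →ₐ[GQ] Fn).toRingHom hD k0 (27 * k0 + 18)
      (fun a => MvPolynomial.C ⟨f a, h a⟩) (fun α => MvPolynomial.C ⟨f none, h none⟩ *
        MvPolynomial.map ((algebraMap ℂ GQ).comp (algebraMap ℚ ℂ)) (P.b α)) μ).trans ?_⟩
    rw [PsF]
    congr 1
    · funext a
      exact MvPolynomial.aeval_C yF _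
    · funext α
      exact (map_mul _ _ _).trans
        (congrArg₂ (· * ·) (MvPolynomial.aeval_C yF _) (aeval_map_pF GQ (P.b α)))
  obtain ⟨W, e2⟩ : ∃ W : MvPolynomial Ix GQ, MvPolynomial.aeval yF W = PsF f P ν * PsF f P ν' := by
    obtain ⟨W, hW⟩ := e1 ν
    obtain ⟨W', hW'⟩ := e1 ν'
    exact ⟨W * W', by rw [map_mul, hW, hW']⟩
  choose M hM hP using fun a => (h a).spec.periodic
  have e3 := poly_periodic le_rfl W (k := ((wl ν + wl ν') * (27 * k0 + 18) : ℕ)) (M := ∏ a, M a)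
    (Finset.prod_pos fun a _ => hM a) fun B hB => by
      obtain ⟨s, h1, h2⟩ := psf_slash (nE_mem_Gam (Lam.nsmul hB (∏ a, M a)))
      have h3 : (fun o => sl k0 (nE (toR ℂ (((∏ a, M a : ℕ) : ℚ) • B))) (f o)) = f := by
        funext a
        rw [← Finset.mul_prod_erase _ M (Finset.mem_univ a)]
        exact hP a _ _ B hB
      rw [e2, h2 k0 f fun a => (h a).isHol, h3, h1 (nE_mem_GamP (Lam.nsmul hB _)), Int.cast_one,
        one_pow, one_mul]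
  rw [← e2, e3, MvPolynomial.aeval_C]
  exact (W.coeff 0).2

theorem psf_mi (hΔ : Δ ≤ GamP) (hi : Δ.relIndex Gam ≠ 0) {k0 : ℕ} {f : Option Ix → Fn}
    (h : ∀ o, MI Δ k0 (f o)) (P : PB k0) (ν ν' : Fin P.D → List Ix) :
    MI Δ (((wl ν + wl ν') * (27 * k0 + 18) : ℕ) : ℤ) (PsF f P ν * PsF f P ν') := by
  have hH : ∀ a, IsHol (f a) := fun a => (h a).1.gd.isHol
  have hv : Inv Δ (((wl ν + wl ν') * (27 * k0 + 18) : ℕ) : ℤ) (PsF f P ν * PsF f P ν') :=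
    fun δ hδ => by
      obtain ⟨s, h1, h2⟩ := psf_slash (GamP_le (hΔ hδ))
      rw [h2 k0 f hH, funext fun a => (h a).2 δ hδ, h1 (hΔ hδ), Int.cast_one, one_pow, one_mul]
  refine ⟨⟨fun γ hγ => ?_, hv.finite (hΔ.trans GamP_le) hi⟩, hv⟩
  obtain ⟨s, -, h2⟩ := psf_slash hγ
  rw [h2 k0 f hH]
  exact GQ.mul_mem (GQ.pow_mem (intCast_mem GQ s) _)
    (psf_gd (fun a => (h a).1.1 γ hγ) P ν ν')

end Pool.Agent.E7
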