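import Mathlib

/-! The genericity condition used in the statement. -/

open MvPowerSeries

namespace Pool.Agent.E7

/-- The span of the differentials at `φ` of the members of `s` that vanish at `φ`. -/
def Con {k I L : Type} [Field k] [Field L] (φ : MvPowerSeries I k →+* L)
    (s : Set (MvPowerSeries I k)) : Submodule L (I → L) :=
  Submodule.span L {w | ∃ g ∈ s, φ g = 0 ∧ w = fun q => φ (pderiv k q g)}

/-- `φ` is the generic point of a formal branch through the origin, with nonconstant projections,
of a variety cut out by members of `𝔄`, on which the members of `𝔙` vanish. On each such branch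
the dimension of the polynomial closure exceeds the dimension of the branch by at least `r`; and
for a form `ω` with algebraic coefficients that is not conormal to the polynomial closure, some
rational function, regular at the origin and not algebraic over `𝔄`, is killed by all polynomial
vector fields that are tangent to the polynomial closure and killed by `ω`. -/
def GenV {k ι : Type} [Field k] [Fintype ι] {m : ℕ} (r : ℕ)
    (𝔄 : Subalgebra k (MvPowerSeries (Fin m × ι) k)) (𝔙 : Set (MvPowerSeries (Fin m × ι) k)) :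
    Prop :=
  ∀ (L : Type) [Field L] (φ : MvPowerSeries (Fin m × ι) k →+* L), (∀ i, ∃ l, φ (X (i, l)) ≠ 0) →
    Con φ Set.univ ≤ Con φ 𝔄 → (∀ f ∈ 𝔙, φ f = 0) →
    (∃ (d : ℕ) (s : Fin (r + d) → Fin m × ι),
      (∀ Q : MvPolynomial (Fin (r + d)) k, Q.eval₂ (φ.comp C) (fun a => φ (X (s a))) = 0 → Q = 0) ∧
      ∀ g : Fin (d + 1) → 𝔄, ∃ Q : MvPolynomial (Fin (d + 1)) k, Q ≠ 0 ∧
        Q.eval₂ (φ.comp C) (fun a => φ (g a)) = 0) ∧
    ∀ (n : ℕ) (g : Fin n → 𝔄) (c : Fin n → L) (ω : Fin m × ι → L),
      (∀ a, IsAlgebraic (𝔄.toSubring.map φ) (c a)) →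
      (∀ q, ω q = ∑ a, c a * φ (pderiv k q (g a))) →
      ω ∈ Con φ (Set.range MvPolynomial.toMvPowerSeries) ∨
        ∃ P Q : MvPolynomial (Fin m × ι) k, Q.coeff 0 ≠ 0 ∧
          ¬IsAlgebraic (𝔄.toSubring.map φ) (φ P / φ Q) ∧
          ∀ v : Fin m × ι → MvPolynomial (Fin m × ι) k, ∑ q, ω q * φ (v q) = 0 →
            (∀ w ∈ Con φ (Set.range MvPolynomial.toMvPowerSeries), ∑ q, w q * φ (v q) = 0) →
            ∑ q, (φ Q * φ (pderiv k q P) - φ P * φ (pderiv k q Q)) * φ (v q) = 0

end Pool.Agent.E7
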