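import Pool.Agent.Lib.MP_7e5527_ag.EA.AT
import Pool.Agent.Lib.MP_7e5527_ag.EA.HDefs
import Pool.Agent.Lib.MP_7e5527_ag.E7.SlH

/-! The Taylor map at a point of the domain. -/

open MvPowerSeries Filter Topology Matrix

noncomputable section

namespace Pool.Agent.E7

/-- The matrix of the coordinates. -/
def ycM : Matrix Ix Ix ℂ :=
  Matrix.of fun i l => 2 * Real.pi * Complex.I * yc (Pi.single l 1 : Ix → ℂ) i

theorem ycM_unit : IsUnit ycM.det := by
  have e : ycM = (2 * Real.pi * Complex.I : ℂ) • LinearMap.toMatrix' latJ_ycL := rfl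
  rw [e, det_smul]
  refine (Complex.two_pi_I_ne_zero.isUnit.pow _).mul
    (isUnit_det_of_right_inverse (B := LinearMap.toMatrix' latJ_ptL) ?_)
  rw [← LinearMap.toMatrix'_comp, ← LinearMap.toMatrix'_id]
  exact congrArg _ (LinearMap.ext fun y => yc_pt y)

/-- The derivative in the direction of a coordinate. -/
def cb_d (l : Ix) : Derivation ℤ Hol Hol := ∑ i, algebraMap ℂ Hol (ycM i l) • dH i

theorem cb_sum (l : Ix) (F : Hol) : cb_d l F = ∑ i, algebraMap ℂ Hol (ycM i l) * dH i F :=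
  (map_sum (AddMonoidHom.mk' (fun D : Derivation ℤ Hol Hol => D F) fun _ _ => rfl)
    (fun i => algebraMap ℂ Hol (ycM i l) • dH i) Finset.univ).trans
    (Finset.sum_congr rfl fun _ _ => rfl)

theorem cb_val (F : Fn) (Z : HH) : F Z = ext F Z := congrArg F (ofC_coe Z).symm

theorem cb_ext (l : Ix) (F : Hol) {W : Ix → ℂ} (hW : W ∈ HH) :
    ext (cb_d l F) W = fderiv ℂ (ext F) W (Pi.single l 1) := by
  rw [ext, ofC_eq hW, cb_sum, fderiv_ext F ⟨W, hW⟩, Finset.mul_sum,
    AddSubmonoidClass.coe_finsetSum, Finset.sum_apply]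
  exact Finset.sum_congr rfl fun i _ => (mul_assoc _ _ _).trans (congrArg _ (mul_comm _ _))

theorem cb_ev {f g : (Ix → ℂ) → ℂ} (h : ∀ W ∈ HH, f W = g W) {W : Ix → ℂ} (hW : W ∈ HH) :
    fderiv ℂ f W = fderiv ℂ g W :=
  EventuallyEq.fderiv_eq (mem_of_superset (isOpen_HH.mem_nhds hW) h)

theorem cb_comm (i j : Ix) (F : Hol) : cb_d i (cb_d j F) = cb_d j (cb_d i F) := by
  refine Subtype.ext (funext fun Z => ?_)
  have h := ContDiffOn.contDiffAt F.2 (isOpen_HH.mem_nhds Z.2)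
  have h2 : (2 : WithTop ℕ∞) ≤ (⊤ : ℕ∞) := WithTop.coe_le_coe.2 (le_top (a := (2 : ℕ∞)))
  have key : ∀ i j, (cb_d i (cb_d j F) : Fn) Z =
      fderiv ℂ (fderiv ℂ (ext F)) Z (Pi.single i 1) (Pi.single j 1) := fun i j => by
    rw [cb_val (Subtype.val _) Z, cb_ext i _ Z.2, cb_ev (fun _ => cb_ext j F) Z.2,
      fderiv_clm_apply ((h.fderiv_right (m := 1)
        (one_add_one_eq_two.trans_le h2)).differentiableAt (by simp)) (differentiableAt_const _)]
    simp
  rw [key, key]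
  exact h.isSymmSndFDerivAt (by simpa using h2) _ _

theorem cb_fold (F : Hol) (L : List Ix) : ∀ W ∈ HH, ext (L.foldr (fun l G => cb_d l G) F : Hol) W =
    L.foldr (fun l G W => fderiv ℂ G W (Pi.single l 1)) (ext F) W := by
  induction L with
  | nil => exact fun _ _ => rfl
  | cons l L ih => exact fun W hW => by rw [List.foldr_cons, cb_ext _ _ hW, cb_ev ih hW]; rfl

theorem exists_tayH (Z : HH) : ∃ T : Hol →+* PS Ix ℂ, (∀ F : Hol, T F = tay (ext F) Z) ∧
    (∀ F : Hol, constantCoeff (T F) = (F : Fn) Z) ∧ (∀ c, T (algebraMap ℂ Hol c) = C c) ∧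
    ∀ l F, pderiv ℂ l (T F) = ∑ i, C (ycM i l) * T (dH i F) := by
  obtain ⟨θ, h1, h2⟩ := exists_tay cb_d cb_comm
  let ρ := (Pi.evalRingHom (fun _ : HH => ℂ) Z).comp (Hol.val : Hol →+* Fn)
  let T := (MvPowerSeries.map ρ).comp θ
  have h3 : ∀ F : Hol, constantCoeff (T F) = (F : Fn) Z := fun F =>
    congrArg (fun G : Hol => (G : Fn) Z) (h1 F)
  have h4 : ∀ l F, pderiv ℂ l (T F) = T (cb_d l F) := fun l F =>
    (pderiv_map' ρ l (θ F)).trans (congrArg _ (h2 l F))
  have h5 : ∀ c, T (algebraMap ℂ Hol c) = C c := fun c =>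
    (ps_const fun l => by simp only [h4, cb_sum, dH_const, mul_zero, Finset.sum_const_zero,
      map_zero]).trans (by rw [h3]; rfl)
  refine ⟨T, fun F => MvPowerSeries.ext fun ν => ?_, h3, h5, fun l F => by
    simp only [h4, cb_sum, map_sum, map_mul, h5]⟩
  have h6 : ∀ L : List Ix, L.foldr (fun l g => pderiv ℂ l g) (T F) =
      T (L.foldr (fun l G => cb_d l G) F) := fun L => by
    induction L with
    | nil => rfl
    | cons l L ih => rw [List.foldr_cons, ih, h4, List.foldr_cons]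
  rw [coeff_eq_foldr, h6, h3, cb_val (Subtype.val _) Z, cb_fold F _ _ Z.2]
  rfl

end Pool.Agent.E7
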