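import Pool.Agent.Lib.MP_7e5527_ag.EA.CF

/-! The flat frame of a system of forms. -/

open MvPowerSeries Matrix

noncomputable section

namespace Pool.Agent.E7

variable {k ι β Q : Type} [Field k] [CharZero k] [Fintype ι] [DecidableEq ι] [Nonempty ι]
  [Fintype β] [DecidableEq β] [CommRing Q] [Algebra k Q]

namespace FS

variable (𝔉 : FS k ι β Q)

/-- The sections. -/
def sec (b : β) : Q := 𝔉.f none * MvPolynomial.aeval 𝔉.y (𝔉.P b)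

/-- The determinants. -/
def Ps (ν : β → List ι) : Q := Psw 𝔉.d 𝔉.k0 𝔉.ws 𝔉.f 𝔉.sec ν

/-- The normalised iterated brackets. -/
def gw (τ : Q →+* PS ι k) (w : List ι) (b : β) : PS ι k :=
  τ (Nw 𝔉.d 𝔉.k0 𝔉.ws 𝔉.f (𝔉.sec b) w) * (τ (𝔉.f none) * Ring.inverse (τ 𝔉.br)) ^ w.length

/-- The correction term. -/
def kap (τ : Q →+* PS ι k) (j : ι) : PS ι k :=
  τ (𝔉.Dk j (𝔉.k0 + 𝔉.ws) 𝔉.br * 𝔉.f none) * Ring.inverse (τ 𝔉.br) ^ 2

/-- The frame. -/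
def Ww (τ : Q →+* PS ι k) (ν : β → List ι) : Matrix β β (PS ι k) :=
  Matrix.of fun a b => 𝔉.gw τ (ν a) b

/-- The coordinates in the frame. -/
def cw (τ : Q →+* PS ι k) (ν : β → List ι) (w : List ι) : β → PS ι k :=
  𝔉.gw τ w ᵥ* (𝔉.Ww τ ν)⁻¹

/-- The matrices of the connection. -/
def Aw (τ : Q →+* PS ι k) (ν : β → List ι) (j : ι) : Matrix β β (PS ι k) :=
  Matrix.of fun a b => 𝔉.cw τ ν (j :: ν a) b -
    if a = b then ((ν a).length : PS ι k) * 𝔉.kap τ j else 0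

variable {𝔉} {τ τ' : Q →+* PS ι k} {ν : β → List ι}

/-! Part 1. -/

private theorem cg1_unit {g : PS ι k} (h : constantCoeff g ≠ 0) : IsUnit g :=
  isUnit_iff_constantCoeff.2 h.isUnit

private theorem TM.cg1_inv (h : 𝔉.TM τ) : τ 𝔉.br * Ring.inverse (τ 𝔉.br) = 1 :=
  Ring.mul_inverse_cancel _ (cg1_unit h.br)

private theorem TM.cg1_u (h : 𝔉.TM τ) : IsUnit (τ (𝔉.f none) * Ring.inverse (τ 𝔉.br)) :=
  (cg1_unit h.e0).mul (cg1_unit h.br).ringInverse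

private theorem TM.cg1_pow (h : 𝔉.TM τ) (j : ι) (L : ℕ) :
    𝔉.k0 * τ (𝔉.f none) * 𝔉.Ds τ j ((τ (𝔉.f none) * Ring.inverse (τ 𝔉.br)) ^ L) =
      -(L * (τ (𝔉.f none) * Ring.inverse (τ 𝔉.br)) ^ L *
        (𝔉.k0 * τ (𝔉.f none) * 𝔉.kap τ j + 𝔉.ws * 𝔉.Ds τ j (τ (𝔉.f none)))) := by
  induction L with
  | zero => simp
  | succ L ih =>
    have h1 := h.dk_eq j (𝔉.k0 + 𝔉.ws) 𝔉.br
    have h3 := h.cg1_inv
    have h4 := congrArg (𝔉.Ds τ j) h3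
    rw [Derivation.leibniz, Derivation.map_one_eq_zero, smul_eq_mul, smul_eq_mul] at h4
    rw [pow_succ, Derivation.leibniz, Derivation.leibniz]
    simp only [smul_eq_mul, kap, map_mul, Nat.cast_add, Nat.cast_one] at ih h1 ⊢
    generalize (τ (𝔉.f none) * Ring.inverse (τ 𝔉.br)) ^ L = U at ih ⊢
    generalize Ring.inverse (τ 𝔉.br) = c at *
    generalize τ (𝔉.f none) = e at *
    generalize τ 𝔉.br = b at *
    linear_combination e * c * ih + U * e * c ^ 3 * h1 + U * 𝔉.k0 * e ^ 2 * c * h4 +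
      U * e * (𝔉.k0 * e * c ^ 2 * 𝔉.Ds τ j b - 𝔉.k0 * e * 𝔉.Ds τ j c -
        (𝔉.k0 + 𝔉.ws) * 𝔉.Ds τ j e * c * (b * c + 1)) * h3

theorem TM.D_gw (h : 𝔉.TM τ) (j : ι) (w : List ι) (b : β) :
    𝔉.Ds τ j (𝔉.gw τ w b) = 𝔉.gw τ (j :: w) b - w.length * 𝔉.kap τ j * 𝔉.gw τ w b := by
  have h0 : (𝔉.k0 : PS ι k) * τ (𝔉.f none) ≠ 0 :=
    (cg1_unit (by
      rw [map_mul, map_natCast]
      exact mul_ne_zero (Nat.cast_ne_zero.2 𝔉.pos.ne') h.e0)).ne_zero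
  refine mul_left_cancel₀ h0 ?_
  have h1 := h.dk_eq j (w.length * 𝔉.ws) (Nw 𝔉.d 𝔉.k0 𝔉.ws 𝔉.f (𝔉.sec b) w)
  have h2 := h.cg1_pow j w.length
  have h3 := h.cg1_inv
  have e : Nw 𝔉.d 𝔉.k0 𝔉.ws 𝔉.f (𝔉.sec b) (j :: w) =
    𝔉.Dk j (w.length * 𝔉.ws) (Nw 𝔉.d 𝔉.k0 𝔉.ws 𝔉.f (𝔉.sec b) w) := rfl
  rw [gw, gw, e, Derivation.leibniz, smul_eq_mul, smul_eq_mul, List.length_cons, pow_succ]
  rw [Nat.cast_mul] at h1
  generalize (τ (𝔉.f none) * Ring.inverse (τ 𝔉.br)) ^ w.length = U at h2 ⊢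
  generalize τ (Nw 𝔉.d 𝔉.k0 𝔉.ws 𝔉.f (𝔉.sec b) w) = g at h1 ⊢
  linear_combination g * h2 - U * Ring.inverse (τ 𝔉.br) * h1 -
    U * (𝔉.k0 * τ (𝔉.f none) * 𝔉.Ds τ j g - w.length * 𝔉.ws * 𝔉.Ds τ j (τ (𝔉.f none)) * g) * h3

theorem rt_kap (h : 𝔉.TM τ) (h' : 𝔉.TM τ') (j : ι) : 𝔉.Rt τ τ' (𝔉.kap τ j) (𝔉.kap τ' j) := by
  have e : 𝔉.k0 + 𝔉.ws + 𝔉.ws + 𝔉.k0 = 𝔉.k0 + 𝔉.ws + (𝔉.k0 + 𝔉.ws) := by omega
  have H : ∀ {τ : Q →+* PS ι k}, 𝔉.TM τ → 𝔉.kap τ j * τ (𝔉.br * 𝔉.br) =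
      τ (𝔉.Dk j (𝔉.k0 + 𝔉.ws) 𝔉.br * 𝔉.f none) := fun {τ} h => by
    rw [kap, map_mul τ 𝔉.br, ← sq, mul_assoc, ← mul_pow, mul_comm _ (τ 𝔉.br), h.cg1_inv, one_pow,
      mul_one]
  refine ⟨_, 𝔉.Dk j (𝔉.k0 + 𝔉.ws) 𝔉.br * 𝔉.f none, e ▸ 𝔉.mul (𝔉.dk j br_fm) (𝔉.fm _),
    𝔉.br * 𝔉.br, 𝔉.mul br_fm br_fm, ?_, ?_, H h, H h'⟩
  · rw [map_mul, map_mul]; exact mul_ne_zero h.br h.br
  · rw [map_mul, map_mul]; exact mul_ne_zero h'.br h'.br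

theorem TM.Ww_det (h : 𝔉.TM τ) (ν : β → List ι) :
    (𝔉.Ww τ ν).det = τ (𝔉.Ps ν) * (τ (𝔉.f none) * Ring.inverse (τ 𝔉.br)) ^ wl ν := by
  rw [Ps, Psw, RingHom.map_det, wl, ← Finset.prod_pow_eq_pow_sum, mul_comm,
    ← Matrix.det_mul_column]
  congr 1
  ext1 a b
  exact mul_comm _ _

theorem TM.Ww_unit (h : 𝔉.TM τ) (hν : constantCoeff (τ (𝔉.Ps ν)) ≠ 0) : IsUnit (𝔉.Ww τ ν).det := by
  rw [h.Ww_det]
  exact (cg1_unit hν).mul (h.cg1_u.pow _)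

private theorem cg1_wl (ν : β → List ι) (w : List ι) (a : β) :
    wl (Function.update ν a w) + (ν a).length = wl ν + w.length := by
  have e : ∑ c ∈ Finset.univ.erase a, (Function.update ν a w c).length =
      ∑ c ∈ Finset.univ.erase a, (ν c).length :=
    Finset.sum_congr rfl fun c hc => by rw [Function.update_of_ne (Finset.ne_of_mem_erase hc)]
  rw [wl, wl, ← Finset.add_sum_erase _ _ (Finset.mem_univ a),
    ← Finset.add_sum_erase _ _ (Finset.mem_univ a), e, Function.update_self]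
  omega

private theorem TM.cg1_cw (h : 𝔉.TM τ) (hν : constantCoeff (τ (𝔉.Ps ν)) ≠ 0) (w : List ι)
    (a : β) : 𝔉.cw τ ν w a * τ (𝔉.Ps ν * 𝔉.Ps ν * 𝔉.br ^ w.length * 𝔉.f none ^ (ν a).length) =
      τ (𝔉.Ps (Function.update ν a w) * 𝔉.Ps ν * 𝔉.br ^ (ν a).length * 𝔉.f none ^ w.length) := by
  have h1 := congrFun (Matrix.det_smul_inv_vecMul_eq_cramer_transpose _ (𝔉.gw τ w)
    (h.Ww_unit hν)) a
  have e : (𝔉.Ww τ ν).updateRow a (𝔉.gw τ w) = 𝔉.Ww τ (Function.update ν a w) := by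
    ext1 c b
    by_cases hc : c = a
    · subst hc
      simp [Ww]
    · simp [Ww, Matrix.updateRow_ne hc, Function.update_of_ne hc]
  rw [Matrix.cramer_transpose_apply, e, h.Ww_det, h.Ww_det, Pi.smul_apply, smul_eq_mul] at h1
  have h2 : ∀ L, (τ (𝔉.f none) * Ring.inverse (τ 𝔉.br)) ^ L * τ 𝔉.br ^ L = τ (𝔉.f none) ^ L :=
    fun L => by rw [← mul_pow, mul_assoc, mul_comm _ (τ 𝔉.br), h.cg1_inv, mul_one]
  have h3 := congrArg ((τ (𝔉.f none) * Ring.inverse (τ 𝔉.br)) ^ ·) (cg1_wl ν w a)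
  simp only [pow_add] at h3
  simp only [map_mul, map_pow]
  rw [← h2, ← h2, cw]
  refine mul_left_cancel₀ (h.cg1_u.pow (wl ν)).ne_zero ?_
  linear_combination (τ (𝔉.Ps ν) * τ 𝔉.br ^ w.length * τ 𝔉.br ^ (ν a).length) *
    ((τ (𝔉.f none) * Ring.inverse (τ 𝔉.br)) ^ (ν a).length * h1 +
      τ (𝔉.Ps (Function.update ν a w)) * h3)

/-- Cramer's rule: the quotient of `Ps (update ν a w) * Ps ν * br ^ |ν a| * e0 ^ |w|` by
`Ps ν * Ps ν * br ^ |w| * e0 ^ |ν a|`. -/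
theorem rt_cw (h : 𝔉.TM τ) (h' : 𝔉.TM τ') (hν : constantCoeff (τ (𝔉.Ps ν)) ≠ 0)
    (hν' : constantCoeff (τ' (𝔉.Ps ν)) ≠ 0) (w : List ι) (a : β) :
    𝔉.Rt τ τ' (𝔉.cw τ ν w a) (𝔉.cw τ' ν w a) := by
  have e := cg1_wl ν w a
  have e1 : (wl (Function.update ν a w) + wl ν) * 𝔉.ws + (ν a).length * (𝔉.k0 + 𝔉.ws) +
      w.length * 𝔉.k0 = (wl ν + wl ν) * 𝔉.ws + w.length * (𝔉.k0 + 𝔉.ws) + (ν a).length * 𝔉.k0 := by
    linear_combination 𝔉.ws * e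
  refine ⟨_, 𝔉.Ps (Function.update ν a w) * 𝔉.Ps ν * 𝔉.br ^ (ν a).length * 𝔉.f none ^ w.length,
    e1 ▸ 𝔉.mul (𝔉.mul (𝔉.psi _ _) (pow_fm br_fm _)) (pow_fm (𝔉.fm _) _),
    𝔉.Ps ν * 𝔉.Ps ν * 𝔉.br ^ w.length * 𝔉.f none ^ (ν a).length,
    𝔉.mul (𝔉.mul (𝔉.psi _ _) (pow_fm br_fm _)) (pow_fm (𝔉.fm _) _), ?_, ?_,
    h.cg1_cw hν w a, h'.cg1_cw hν' w a⟩
  · simp only [map_mul, map_pow]
    exact mul_ne_zero (mul_ne_zero (mul_ne_zero hν hν) (pow_ne_zero _ h.br)) (pow_ne_zero _ h.e0)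
  · simp only [map_mul, map_pow]
    exact mul_ne_zero (mul_ne_zero (mul_ne_zero hν' hν') (pow_ne_zero _ h'.br))
      (pow_ne_zero _ h'.e0)

theorem rt_Aw (h : 𝔉.TM τ) (h' : 𝔉.TM τ') (hν : constantCoeff (τ (𝔉.Ps ν)) ≠ 0)
    (hν' : constantCoeff (τ' (𝔉.Ps ν)) ≠ 0) (j : ι) (a b : β) :
    𝔉.Rt τ τ' (𝔉.Aw τ ν j a b) (𝔉.Aw τ' ν j a b) := by
  refine (rt_cw h h' hν hν' (j :: ν a) b).sub ?_
  split_ifs
  · exact (rt_nat _).mul (rt_kap h h' j)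
  · simpa only [Nat.cast_zero] using rt_nat (𝔉 := 𝔉) (τ := τ) (τ' := τ') 0

theorem TM.hA (h : 𝔉.TM τ) (hν : constantCoeff (τ (𝔉.Ps ν)) ≠ 0) (j : ι) :
    (𝔉.Ww τ ν).map (𝔉.Ds τ j) = 𝔉.Aw τ ν j * 𝔉.Ww τ ν := by
  ext1 a b
  have h1 : 𝔉.cw τ ν (j :: ν a) ᵥ* 𝔉.Ww τ ν = 𝔉.gw τ (j :: ν a) := by
    rw [cw, Matrix.vecMul_vecMul, Matrix.nonsing_inv_mul _ (h.Ww_unit hν), Matrix.vecMul_one]
  simp only [Matrix.mul_apply, Aw, Matrix.of_apply, sub_mul, Finset.sum_sub_distrib, ite_mul,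
    zero_mul, Finset.sum_ite_eq, Finset.mem_univ, if_true]
  exact (h.D_gw j (ν a) b).trans (congrArg (· - _) (congrFun h1 b).symm)

/-! Part 2. -/

omit [CharZero k] [Fintype ι] [DecidableEq ι] [Nonempty ι] in
theorem cg2_hom {B : Type} [CommRing B] [Algebra k B] (E : B →+* PS ι k) {σ : Type} (v : σ → B)
    (h : ∀ c, E (algebraMap k B c) = C c) (P : MvPolynomial σ k) :
    E (MvPolynomial.aeval v P) = MvPolynomial.aeval (fun i => E (v i)) P :=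
  MvPolynomial.comp_aeval_apply v ({ E with commutes' := h } : B →ₐ[k] PS ι k) P

omit [CharZero k] in
theorem cg2_det {α : Type} (v : α → β → k) (h : ∀ c : β → k, (∀ a, c ⬝ᵥ v a = 0) → c = 0) :
    ∃ ν : β → α, (Matrix.of fun a => v (ν a)).det ≠ 0 := by
  have h1 : Submodule.span k (Set.range v) = ⊤ := by_contra fun e => by
    obtain ⟨f, h2, h3⟩ := Submodule.exists_le_ker_of_lt_top _ (lt_top_iff_ne_top.2 e)
    have h4 : ∀ x, f x = (fun b => f fun j => if b = j then 1 else 0) ⬝ᵥ x := fun x => by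
      rw [f.pi_apply_eq_sum_univ, dotProduct_comm]
      rfl
    refine h2 (LinearMap.ext fun x => ?_)
    rw [h4, h _ fun a => (h4 _).symm.trans (h3 (Submodule.subset_span ⟨a, rfl⟩)), zero_dotProduct,
      LinearMap.zero_apply]
  obtain ⟨κ, a, -, h2, h3⟩ := exists_linearIndependent' k v
  let e := (Pi.basisFun k β).indexEquiv (Module.Basis.mk h3 (h2.trans h1).ge)
  exact ⟨a ∘ e, ((Matrix.isUnit_iff_isUnit_det _).1 (Matrix.linearIndependent_rows_iff_isUnit.1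
    (h3.comp e e.injective))).ne_zero⟩

/-- The series `τ (y j)` are affine functions (`ps_const`) that form an invertible system. -/
theorem TM.poly (h : 𝔉.TM τ) : ∃ (P : β → MvPolynomial ι k) (p1 : ι → β → k),
    LinearIndependent k P ∧ (∀ b, (P b : PS ι k) = τ (MvPolynomial.aeval 𝔉.y (𝔉.P b))) ∧
    ∑ b, 𝔉.p0 b • P b = 1 ∧ ∀ l, ∑ b, p1 l b • P b = MvPolynomial.X l := by
  obtain ⟨M, hM, hd⟩ := h.der
  have h1 : ∀ l j, pderiv k l (τ (𝔉.y j)) = C (M j l * 𝔉.κ0) := fun l j => by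
    simp [hd, 𝔉.dy, apply_ite τ, h.cst]
  let A : ι → MvPolynomial ι k := fun j => MvPolynomial.C (constantCoeff (τ (𝔉.y j))) +
    ∑ l, (M j l * 𝔉.κ0) • MvPolynomial.X l
  let ρ := MvPolynomial.coeToMvPowerSeries.algHom (σ := ι) (R := k) k
  have hρ : ∀ p, ρ p = p := fun p => by simp [ρ]
  have h2 : ∀ j, ρ (A j) = τ (𝔉.y j) := fun j => by
    have h3 := ps_const (f := τ (𝔉.y j) - ∑ l, (M j l * 𝔉.κ0) • X l) fun i => by
      simp [h1, pderiv_X, Pi.single_apply, smul_eq_C_mul]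
    simp only [A, map_add, map_sum, map_smul]
    simp only [hρ, MvPolynomial.coe_C, MvPolynomial.coe_X]
    rw [← eq_sub_iff_add_eq, h3]
    simp
  have h3 : ∀ p, ρ (MvPolynomial.aeval A p) = MvPolynomial.aeval (fun j => τ (𝔉.y j)) p :=
    fun p => by rw [MvPolynomial.comp_aeval_apply, funext h2]
  have h4 : IsUnit (jacS fun j => τ (𝔉.y j)).det := by
    have e : (jacS fun j => τ (𝔉.y j)).map constantCoeff = 𝔉.κ0 • M := by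
      ext j l
      simp [jacS, h1, mul_comm]
    rw [isUnit_det_ps, e, Matrix.det_smul]
    exact (𝔉.hκ.isUnit.pow _).mul hM
  refine ⟨fun b => MvPolynomial.aeval A (𝔉.P b), fun l b => ∑ j, (M⁻¹ l j * 𝔉.κ0⁻¹) *
    (𝔉.p1 j b - constantCoeff (τ (𝔉.y j)) * 𝔉.p0 b), LinearIndependent.of_comp ρ.toLinearMap ?_,
    fun b => by rw [← hρ, h3, cg2_hom τ _ h.cst], ?_, fun l => ?_⟩
  · rw [show ρ.toLinearMap ∘ (fun b => MvPolynomial.aeval A (𝔉.P b)) = _ ∘ 𝔉.P from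
      funext fun b => h3 _]
    exact 𝔉.hP.map' (MvPolynomial.aeval fun j => τ (𝔉.y j)).toLinearMap
      (LinearMap.ker_eq_bot.2 (indep_of_jac h4))
  · simpa using congrArg (MvPolynomial.aeval A) 𝔉.h0
  · have h5 := congrArg (MvPolynomial.aeval A) 𝔉.h0
    have h6 := fun j => congrArg (MvPolynomial.aeval A) (𝔉.h1 j)
    simp only [map_sum, map_smul, map_one, MvPolynomial.aeval_X] at h5 h6
    simp only [Finset.sum_smul, mul_smul, sub_smul]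
    rw [Finset.sum_comm]
    simp only [← Finset.smul_sum, Finset.sum_sub_distrib, h5, h6, A, ← MvPolynomial.C_eq_smul_one,
      add_sub_cancel_left]
    simp only [Finset.smul_sum, smul_smul]
    rw [Finset.sum_comm]
    have h7 : ∀ i, ∑ j, M⁻¹ l j * (𝔉.κ0⁻¹ * (M j i * 𝔉.κ0)) = (1 : Matrix ι ι k) l i := fun i => by
      rw [← Matrix.nonsing_inv_mul M hM, Matrix.mul_apply]
      refine Finset.sum_congr rfl fun j _ => ?_
      rw [mul_comm (M j i), inv_mul_cancel_left₀ 𝔉.hκ]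
    simp only [← Finset.sum_smul, h7]
    simp [Matrix.one_apply]

/-- The constant terms of the vectors `gw τ w` span the whole space: otherwise `odeu` gives a
linear relation between the sections. -/
theorem TM.exists_nu (h : 𝔉.TM τ) : ∃ ν, constantCoeff (τ (𝔉.Ps ν)) ≠ 0 := by
  obtain ⟨ν, hν⟩ := cg2_det (fun w b => constantCoeff (𝔉.gw τ w b)) fun c hc => by
    have h1 := odeu (fun w => ∑ b, c b • 𝔉.gw τ w b) (fun w => by simpa [dotProduct] using hc w)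
      (fun l w => by
        rw [h.pderiv_eq]
        refine Ideal.sum_mem _ fun j _ => Ideal.mul_mem_right _ _ ?_
        simp only [map_sum, Derivation.map_smul, h.D_gw, smul_sub, Finset.sum_sub_distrib,
          ← mul_smul_comm, ← Finset.mul_sum]
        exact sub_mem (Ideal.subset_span ⟨_, rfl⟩)
          (Ideal.mul_mem_left _ _ (Ideal.subset_span ⟨_, rfl⟩))) []
    obtain ⟨P, -, h2, h3, -⟩ := h.poly
    simp only [gw, Nw, sec, List.length_nil, pow_zero, mul_one, map_mul, ← h3, ← mul_smul_comm,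
      ← Finset.mul_sum, (isUnit_iff_constantCoeff.2 h.e0.isUnit).mul_right_eq_zero] at h1
    refine funext (Fintype.linearIndependent_iff.1 h2 c (MvPolynomial.coe_eq_zero_iff.1 ?_))
    exact (map_sum MvPolynomial.coeToMvPowerSeries.ringHom (fun b => c b • P b) _).trans h1
  refine ⟨ν, fun e => hν ?_⟩
  have h1 := congrArg constantCoeff (h.Ww_det ν)
  rwa [map_mul, e, zero_mul, RingHom.map_det] at h1

theorem Cp.nu (hc : 𝔉.Cp τ τ') (hν : constantCoeff (τ (𝔉.Ps ν)) ≠ 0) :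
    constantCoeff (τ' (𝔉.Ps ν)) ≠ 0 := fun e => by
  obtain ⟨c, -, h⟩ := hc
  have h1 : constantCoeff (τ (𝔉.Ps ν * 𝔉.Ps ν)) = _ * constantCoeff (τ' (𝔉.Ps ν * 𝔉.Ps ν)) :=
    h _ _ (𝔉.psi ν ν)
  simp [e, hν] at h1

theorem TM.ld (h : 𝔉.TM τ) (hν : constantCoeff (τ (𝔉.Ps ν)) ≠ 0) :
    ∃ Λ : LD k ι β, Λ.x = 𝔉.xs τ ∧ Λ.A = 𝔉.Aw τ ν ∧ Λ.c0 = 𝔉.cw τ ν [] := by
  obtain ⟨P, p1, h1, h2, h3, h4⟩ := h.poly
  exact ⟨{
    x := 𝔉.xs τ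
    K := (jacS (𝔉.xs τ))⁻¹
    hK := Matrix.mul_nonsing_inv _ h.jac
    e0 := τ (𝔉.f none)
    he := isUnit_iff_constantCoeff.2 h.e0.isUnit
    P := P
    hP := h1
    p0 := 𝔉.p0
    p1 := p1
    h0 := h3
    h1 := h4
    W := 𝔉.Ww τ ν
    hW := h.Ww_unit hν
    A := 𝔉.Aw τ ν
    hA := h.hA hν
    c0 := 𝔉.cw τ ν []
    hc := fun b => by
      rw [cw, Matrix.vecMul_vecMul, Matrix.nonsing_inv_mul _ (h.Ww_unit hν), Matrix.vecMul_one, h2]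
      simp [gw, Nw, sec]
    aA := fun j a b => (rt_Aw h h hν hν j a b).alg h
    ac := fun a => (rt_cw h h hν hν [] a).alg h }, rfl, rfl, rfl⟩

theorem exists_ld (h : 𝔉.TM τ) (h' : 𝔉.TM τ') (hc : 𝔉.Cp τ τ') :
    ∃ (Λ Λ' : LD k ι β) (ζ : ι → PS ι k), Λ.x = 𝔉.xs τ ∧ Λ'.x = 𝔉.xs τ' ∧ C0 ζ ∧
      (∀ j, sb ζ (Λ.x j) = Λ'.x j) ∧ (∀ j a b, sb ζ (Λ.A j a b) = Λ'.A j a b) ∧
      ∀ a, sb ζ (Λ.c0 a) = Λ'.c0 a := by
  obtain ⟨ν, hν⟩ := h.exists_nu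
  have hν' := hc.nu hν
  obtain ⟨Λ, a1, a2, a3⟩ := h.ld hν
  obtain ⟨Λ', b1, b2, b3⟩ := h'.ld hν'
  obtain ⟨ζ, h0, hx⟩ := exists_zs h h' hc
  refine ⟨Λ, Λ', ζ, a1, b1, h0, ?_, fun j a b => ?_, fun a => ?_⟩
  · rw [a1, b1]
    exact hx
  · rw [a2, b2]
    exact (rt_Aw h h' hν hν' j a b).sb_eq h h' hc h0 hx
  · rw [a3, b3]
    exact (rt_cw h h' hν hν' [] a).sb_eq h h' hc h0 hx

end FS

end Pool.Agent.E7
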