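import Pool.Agent.Lib.MP_7e5527_ag.Base

/-! Algebraic functions that vanish at a generic sequence of points vanish on the branches. -/

open MvPolynomial Filter

noncomputable section

namespace Pool.Agent.E7

variable {ι k B : Type} [DecidableEq ι] [CommRing k] [CommRing B]

/-- Coordinates with dual derivations. -/
structure DC (c : k →+* B) (y : ι → B) (D : ι → B →+ B) : Prop where
  mul : ∀ j a b, D j (a * b) = a * D j b + b * D j a
  cst : ∀ j t, D j (c t) = 0
  var : ∀ j l, D j (y l) = if l = j then 1 else 0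

theorem DC.der {c : k →+* B} {y : ι → B} {D : ι → B →+ B} (h : DC c y D) (j : ι)
    (a : MvPolynomial ι k) : D j (eval₂Hom c y a) = eval₂Hom c y (pderiv j a) := by
  induction a using MvPolynomial.induction_on with
  | C a => rw [eval₂Hom_C, h.cst, pderiv_C, map_zero]
  | add f g hf hg => rw [map_add, map_add, map_add, map_add, hf, hg]
  | mul_X f l hf =>
    rw [map_mul, h.mul, hf, Derivation.leibniz, smul_eq_mul, smul_eq_mul, map_add, map_mul, map_mul,
      eval₂Hom_X', h.var, pderiv_X, Pi.single_apply]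
    split_ifs <;> simp

/-- The polynomials whose derivatives of order less than `N` lie in `q`. -/
def vlD (q : Ideal (MvPolynomial ι k)) : ℕ → Set (MvPolynomial ι k)
  | 0 => Set.univ
  | N + 1 => {a | a ∈ q ∧ ∀ j, pderiv j a ∈ vlD q N}

variable {q : Ideal (MvPolynomial ι k)}

omit [DecidableEq ι] in
theorem vlD_succ (N : ℕ) : vlD q (N + 1) ⊆ vlD q N := by
  induction N with
  | zero => exact fun _ _ => trivial
  | succ N ih => exact fun a h => ⟨h.1, fun j => ih (h.2 j)⟩

theorem vlD_zero [IsDomain k] [CharZero k] (hq : ∀ t, C t ∈ q → t = 0) (M : ℕ) :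
    ∀ a : MvPolynomial ι k, (∀ N, a ∈ vlD q N) → (∀ ν, M ≤ ν.degree → a.coeff ν = 0) → a = 0 := by
  induction M with
  | zero => exact fun a _ h => MvPolynomial.ext _ _ fun ν => h ν (Nat.zero_le _)
  | succ M ih =>
    intro a h1 h2
    have h3 : ∀ j, pderiv j a = 0 := fun j => ih _ (fun N => (h1 (N + 1)).2 j) fun ν hν => by
      rw [coeff_pderiv, h2 _ (by rw [map_add, Finsupp.degree_single]; omega), zero_mul]
    have h4 : a = C (a.coeff 0) := MvPolynomial.ext _ _ fun ν => by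
      rw [coeff_C]
      split_ifs with h
      · rw [h]
      · obtain ⟨j, hj⟩ := Finsupp.ne_iff.1 (Ne.symm h)
        have h5 := congrArg (coeff (ν - Finsupp.single j 1)) (h3 j)
        rw [coeff_pderiv, coeff_zero, tsub_add_cancel_of_le
          (Finsupp.single_le_iff.2 (Nat.one_le_iff_ne_zero.2 hj))] at h5
        exact (mul_eq_zero.1 h5).resolve_right (Nat.cast_add_one_ne_zero _)
    have h5 : C (a.coeff 0) ∈ q := h4 ▸ (h1 1).1
    rw [h4, hq _ h5, C_0]

theorem DC.mem {c : k →+* B} {y : ι → B} {D : ι → B →+ B} (h : DC c y D) (j : ι) (N : ℕ) {b : B}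
    (hb : b ∈ Ideal.span (eval₂Hom c y '' vlD q (N + 1))) :
    D j b ∈ Ideal.span (eval₂Hom c y '' vlD q N) := by
  have key : ∀ t, D j (t * b) ∈ Ideal.span (eval₂Hom c y '' vlD q N) := by
    induction hb using Submodule.span_induction with
    | mem x hx =>
      obtain ⟨a, ha, rfl⟩ := hx
      intro t
      rw [h.mul, h.der]
      exact add_mem (Ideal.mul_mem_left _ _ (Ideal.subset_span ⟨_, ha.2 j, rfl⟩))
        (Ideal.mul_mem_right _ _ (Ideal.subset_span ⟨_, vlD_succ N ha, rfl⟩))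
    | zero => simp
    | add u v _ _ hu hv => exact fun t => by rw [mul_add, map_add]; exact add_mem (hu t) (hv t)
    | smul s u _ hu => exact fun t => by rw [smul_eq_mul, ← mul_assoc]; exact hu _
  simpa using key 1

theorem vl_step {τ : Type} (s : Finset τ) (N : ℕ) : ∀ a : τ → MvPolynomial ι k,
    (∀ i ∈ s, a i ∈ vlD q N) → (∃ i ∈ s, a i ∉ vlD q (N + 1)) →
    ∃ a' : τ → MvPolynomial ι k, (∃ i ∈ s, a' i ∉ q) ∧ ∀ (B : Type) [CommRing B] (c : k →+* B)
      (y : ι → B) (D : ι → B →+ B) (b : τ → B), DC c y D →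
      ∑ i ∈ s, eval₂Hom c y (a i) * b i ∈ Ideal.span (eval₂Hom c y '' vlD q (N + 1)) →
      ∑ i ∈ s, eval₂Hom c y (a' i) * b i ∈ q.map (eval₂Hom c y) := by
  induction N with
  | zero =>
    rintro a - ⟨i, hi, h⟩
    exact ⟨a, ⟨i, hi, fun e => h ⟨e, fun _ => trivial⟩⟩, fun B _ c y D b _ hb =>
      Ideal.span_mono (Set.image_mono fun _ e => e.1) hb⟩
  | succ N ih =>
    rintro a h1 ⟨i, hi, h2⟩
    obtain ⟨j, hj⟩ := not_forall.1 fun e => h2 ⟨(h1 i hi).1, e⟩
    obtain ⟨a', h3, h4⟩ := ih (fun i => pderiv j (a i)) (fun i hi => (h1 i hi).2 j) ⟨i, hi, hj⟩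
    refine ⟨a', h3, fun B _ c y D b h hb => h4 B c y D b h ?_⟩
    have h5 := h.mem j _ hb
    simp only [map_sum, h.mul, h.der, Finset.sum_add_distrib] at h5
    simp only [mul_comm _ (b _)]
    exact (add_mem_cancel_left (sum_mem fun i hi =>
      Ideal.mul_mem_right _ _ (Ideal.subset_span (Set.mem_image_of_mem _ (h1 i hi))))).1 h5

theorem vl_low {I J : Ideal B} (hI : I.IsPrime) (hJ : I ≤ J) {G : B} (h0 : G ∉ I) (h1 : G ∈ J)
    {b : ℕ → B} {n M : ℕ} (hn : n < M) (hb : ∀ i < n, b i ∈ I)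
    (h : ∑ i ∈ Finset.range M, b i * G ^ i ∈ I) : b n ∈ J := by
  obtain ⟨M, rfl⟩ := Nat.exists_eq_add_of_lt hn
  rw [add_assoc, Finset.sum_range_add, add_mem_cancel_left (sum_mem fun i hi =>
    Ideal.mul_mem_right _ _ (hb i (Finset.mem_range.1 hi)))] at h
  simp only [pow_add, mul_left_comm _ (G ^ n), ← Finset.mul_sum] at h
  have h2 := hJ ((hI.mem_or_mem h).resolve_left fun e => h0 (hI.mem_of_pow_mem _ e))
  rw [Finset.sum_range_succ', add_mem_cancel_left (sum_mem fun i _ => Ideal.mul_mem_left _ _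
    (Ideal.pow_mem_of_mem _ h1 _ i.succ_pos))] at h2
  simpa using h2

/-- A root of `P` that vanishes at a point of `q` outside a hypersurface vanishes on the branches
over `q` through that point. -/
theorem vl_root [IsDomain k] [CharZero k] (hq : ∀ t, C t ∈ q → t = 0)
    {P : Polynomial (MvPolynomial ι k)} (hP : P ≠ 0) : ∃ a ∉ q, ∀ (B : Type) [CommRing B]
      (c : k →+* B) (y : ι → B) (D : ι → B →+ B) (I J : Ideal B) (G : B), DC c y D → I.IsPrime →
      I ≤ J → q.map (eval₂Hom c y) ≤ I → eval₂Hom c y a ∉ J → G ∈ J →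
      P.eval₂ (eval₂Hom c y) G = 0 → G ∈ I := by
  classical
  have h1 : ∃ N, ∃ i ∈ Finset.range (P.natDegree + 1), P.coeff i ∉ vlD q N := by
    by_contra! h
    exact hP (Polynomial.leadingCoeff_eq_zero.1 (vlD_zero hq (P.leadingCoeff.totalDegree + 1) _
      (fun N => h N _ (Finset.self_mem_range_succ _)) fun ν hν =>
        coeff_eq_zero_of_totalDegree_lt hν))
  obtain ⟨N, hN⟩ := Nat.exists_eq_succ_of_ne_zero (n := Nat.find h1) fun e => by
    obtain ⟨i, -, hi⟩ := Nat.find_spec h1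
    exact hi (e ▸ trivial)
  obtain ⟨a', h2, h3⟩ := vl_step (q := q) (Finset.range (P.natDegree + 1)) N P.coeff
    (fun i hi => not_not.1 fun e => Nat.find_min h1 (hN ▸ N.lt_succ_self) ⟨i, hi, e⟩)
    (by simpa only [hN] using Nat.find_spec h1)
  refine ⟨a' (Nat.find h2), (Nat.find_spec h2).2, fun B _ c y D I J G h hI hJ h4 h5 h6 h7 => ?_⟩
  by_contra h8
  refine h5 (vl_low hI hJ h8 h6 (b := fun i => eval₂Hom c y (a' i))
    (Finset.mem_range.1 (Nat.find_spec h2).1) (fun i hi => h4 (Ideal.mem_map_of_mem _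
      (not_not.1 fun e => Nat.find_min h2 hi ⟨Finset.mem_range.2
        (hi.trans (Finset.mem_range.1 (Nat.find_spec h2).1)), e⟩)))
    (h4 (h3 B c y D _ h ?_)))
  rw [← Polynomial.eval₂_eq_sum_range, h7]
  exact zero_mem _

/-- The polynomials that vanish at most points of the sequence. -/
def vlI {K : Type} [CommRing K] (U : Ultrafilter ℕ) (j : k →+* K) (ξ : ℕ → ι → K) :
    Ideal (MvPolynomial ι k) where
  carrier := {a | ∀ᶠ n in (U : Filter ℕ), eval₂Hom j (ξ n) a = 0}
  add_mem' h h' := (h.and h').mono fun n hn => by rw [map_add, hn.1, hn.2, add_zero]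
  zero_mem' := Eventually.of_forall fun n => map_zero _
  smul_mem' c P h := h.mono fun n hn => by rw [smul_eq_mul, map_mul, hn, mul_zero]

theorem vl_gen {K : Type} [Field K] [IsDomain k] [CharZero k] (U : Ultrafilter ℕ) {j : k →+* K}
    (hj : Function.Injective j) (ξ : ℕ → ι → K) {P : Polynomial (MvPolynomial ι k)} (hP : P ≠ 0) :
    ∀ᶠ n in (U : Filter ℕ), ∀ (B : Type) [CommRing B] (c : k →+* B) (y : ι → B) (D : ι → B →+ B)
      (I : Ideal B) (ev : B →+* K) (G : B), DC c y D → I.IsPrime → I ≤ RingHom.ker ev →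
      ev.comp c = j → (∀ l, ev (y l) = ξ n l) → (vlI U j ξ).map (eval₂Hom c y) ≤ I → ev G = 0 →
      P.eval₂ (eval₂Hom c y) G = 0 → G ∈ I := by
  obtain ⟨a, h1, h2⟩ := vl_root (q := vlI U j ξ) (fun t ht => by
    obtain ⟨n, hn⟩ := Eventually.exists ht
    exact hj (((eval₂Hom_C _ _ _).symm.trans hn).trans (map_zero j).symm)) hP
  refine (Ultrafilter.eventually_not.2 h1).mono fun n hn B _ c y D I ev G h hI h3 h4 h5 h6 h7 =>
    h2 B c y D I _ G h hI h3 h6 (fun e => hn ?_) h7
  rw [← h4, ← funext h5, ← map_eval₂Hom]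
  exact e

omit [DecidableEq ι] in
/-- The ideal is generated by its members with coefficients in the field of the points. -/
theorem vl_span {A K : Type} [Field A] [Field K] [Algebra A K] (U : Ultrafilter ℕ)
    (ξ : ℕ → ι → A) : vlI U (RingHom.id K) (fun n l => algebraMap A K (ξ n l)) ≤
      Ideal.span (MvPolynomial.map (algebraMap A K) '' vlI U (RingHom.id A) ξ) := by
  classical
  intro g hg
  let bL := Module.Basis.ofVectorSpace A K
  let f : (K →ₗ[A] A) → MvPolynomial ι A := fun l => ∑ ν ∈ g.support, monomial ν (l (g.coeff ν))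
  have h1 : ∀ l, f l ∈ vlI U (RingHom.id A) ξ := fun l => Eventually.mono hg fun n hn => by
    have h2 := congrArg l hn
    rw [map_zero, coe_eval₂Hom, eval₂_eq, map_sum] at h2
    rw [map_sum, ← h2]
    refine Finset.sum_congr rfl fun ν _ => ?_
    rw [eval₂Hom_monomial, RingHom.id_apply, RingHom.id_apply, mul_comm, ← smul_eq_mul,
      ← map_smul, Algebra.smul_def, mul_comm, Finsupp.prod, map_prod]
    simp only [map_pow]
  let S := g.support.biUnion fun ν => (bL.repr (g.coeff ν)).support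
  have h2 : g = ∑ a ∈ S, C (bL a) * MvPolynomial.map (algebraMap A K) (f (bL.coord a)) := by
    simp only [f, map_sum, map_monomial, Finset.mul_sum, C_mul_monomial]
    rw [Finset.sum_comm]
    refine g.as_sum.trans (Finset.sum_congr rfl fun ν hν => ?_)
    rw [← map_sum]
    congr 1
    refine (bL.linearCombination_repr (g.coeff ν)).symm.trans ?_
    rw [Finsupp.linearCombination_apply, Finsupp.sum_of_support_subset _ (s := S)
      (Finset.subset_biUnion_of_mem (fun ν => (bL.repr (g.coeff ν)).support) hν)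
      (fun i a => a • bL i) (fun _ _ => zero_smul _ _)]
    exact Finset.sum_congr rfl fun a _ => (Algebra.smul_def _ _).trans (mul_comm _ _)
  rw [h2]
  exact sum_mem fun a _ => Ideal.mul_mem_left _ _ (Ideal.subset_span ⟨_, h1 _, rfl⟩)

/-- On a branch through the point `ξ` on which the members of `𝓗` vanish, the roots of the `P t`
that vanish at the point vanish. -/
def VLf {Z K τ : Type} [CommRing Z] [Field K] (j : Z →+* K) (ξ : ι → K)
    (𝓗 : Set (MvPolynomial ι Z)) (P : τ → Polynomial (MvPolynomial ι K)) : Prop :=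
  ∀ (B : Type) [CommRing B] (c : K →+* B) (y : ι → B) (D : ι → B →+ B) (I : Ideal B)
    (ev : B →+* K), DC c y D → I.IsPrime → I ≤ RingHom.ker ev → ev.comp c = RingHom.id K →
    (∀ l, ev (y l) = ξ l) → (∀ H ∈ 𝓗, eval₂ (c.comp j) y H ∈ I) →
    ∀ t G, ev G = 0 → (P t).eval₂ (eval₂Hom c y) G = 0 → G ∈ I

theorem vl_abs {Z A K τ : Type} [Finite ι] [Finite τ] [CommRing Z] [IsDomain Z] [CharZero Z]
    [IsNoetherianRing Z] [Field A] [Field K] [CharZero K] [Algebra Z A] [Algebra.IsAlgebraic Z A]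
    [Algebra A K] (hj : Function.Injective (algebraMap Z A)) (U : Ultrafilter ℕ) (ξ : ℕ → ι → A)
    {P : τ → Polynomial (MvPolynomial ι K)} (hP : ∀ t, P t ≠ 0) :
    ∃ 𝓗 : Set (MvPolynomial ι Z), 𝓗.Finite ∧
      (∀ H ∈ 𝓗, ∀ᶠ n in (U : Filter ℕ), eval₂ ((algebraMap A K).comp (algebraMap Z A))
        (fun l => algebraMap A K (ξ n l)) H = 0) ∧
      ∀ᶠ n in (U : Filter ℕ), VLf ((algebraMap A K).comp (algebraMap Z A))
        (fun l => algebraMap A K (ξ n l)) 𝓗 P := by
  let _ : Algebra (MvPolynomial ι Z) (MvPolynomial ι A) := MvPolynomial.algebraMvPolynomial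
  let j := (algebraMap A K).comp (algebraMap Z A)
  let η := fun n l => algebraMap A K (ξ n l)
  obtain ⟨s, hs⟩ := IsNoetherian.noetherian (vlI U j η)
  obtain ⟨s', h1⟩ := IsNoetherian.noetherian (vlI U (RingHom.id A) ξ)
  refine ⟨s, s.finite_toSet, fun H hH => (show H ∈ vlI U j η from hs ▸ Ideal.subset_span hH), ?_⟩
  choose R h2 h3 using fun g : MvPolynomial ι A =>
    Algebra.IsAlgebraic.isAlgebraic (R := MvPolynomial ι Z) g
  have h4 := (eventually_all_finset s').2 fun g _ =>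
    vl_gen U (j := j) ((algebraMap A K).injective.comp hj) η (h2 g)
  have h5 := (eventually_all_finset s').2 fun g hg =>
    (show g ∈ vlI U (RingHom.id A) ξ from h1 ▸ Ideal.subset_span hg)
  have h6 := eventually_all.2 fun t => vl_gen U (j := RingHom.id K) (fun _ _ e => e) η (hP t)
  filter_upwards [h4, h5, h6] with n h4 h5 h6 B _ c y D I ev h hI a1 a2 a3 a4 t G
  refine h6 t B c y D I ev G h hI a1 a2 a3 (Ideal.map_le_iff_le_comap.2 ((vl_span U ξ).trans
    (Ideal.span_le.2 (Set.image_subset_iff.2 ?_))))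
  refine fun g0 h0 => (Ideal.span_le (I := (I.comap (eval₂Hom c y)).comap
    (MvPolynomial.map (algebraMap A K)))).2 (fun g hg => ?_) (h1.ge h0)
  have e : (eval₂Hom c y).comp (MvPolynomial.map (algebraMap A K)) =
      eval₂Hom (c.comp (algebraMap A K)) y := by
    refine MvPolynomial.ringHom_ext (fun r => ?_) fun l => ?_ <;> simp
  refine h4 g hg B (c.comp j) y D I ev _ ⟨h.mul, fun l t => h.cst l _, h.var⟩ hI a1
    (by rw [← RingHom.comp_assoc, a2, RingHom.id_comp]) a3
    (Ideal.map_le_iff_le_comap.2 (hs.ge.trans (Ideal.span_le.2 a4))) ?_ ?_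
  · rw [← map_zero (algebraMap A K), ← h5 g hg, map_eval₂Hom, map_eval₂Hom, a2, funext a3,
      eval₂Hom_map_hom]
    rfl
  · have h7 := congrArg (eval₂Hom (c.comp (algebraMap A K)) y) (h3 g)
    rw [map_zero, Polynomial.aeval_def, Polynomial.hom_eval₂, ← e] at h7
    rw [← h7]
    congr 1
    refine MvPolynomial.ringHom_ext (fun r => ?_) fun l => ?_ <;> simp [j]

variable {p : ℕ} [Fact p.Prime]

theorem vl_main {K τ : Type} [Field K] [CharZero K] [Finite ι] [Finite τ] (e : ℂ_[p] →+* K)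
    (U : Ultrafilter ℕ) {ξ : ℕ → ι → ℂ_[p]} (hξ : ∀ n l, IsAlgebraic ℚ_[p] (ξ n l))
    {P : τ → Polynomial (MvPolynomial ι K)} (hP : ∀ t, P t ≠ 0) :
    ∃ 𝓗 : Set (MvPolynomial ι ℤ_[p]), 𝓗.Finite ∧
      (∀ H ∈ 𝓗, ∀ᶠ n in (U : Filter ℕ), eval₂ (UAP.zp p) (ξ n) H = 0) ∧
      ∀ᶠ n in (U : Filter ℕ), VLf (e.comp (UAP.zp p)) (fun l => e (ξ n l)) 𝓗 P := by
  let A := algebraicClosure ℚ_[p] ℂ_[p]
  let _ : Algebra ℤ_[p] A := ((algebraMap ℚ_[p] A).comp (algebraMap ℤ_[p] ℚ_[p])).toAlgebra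
  have : IsScalarTower ℤ_[p] ℚ_[p] A := IsScalarTower.of_algebraMap_eq fun _ => rfl
  have : Algebra.IsAlgebraic ℤ_[p] ℚ_[p] := IsLocalization.isAlgebraic _ (nonZeroDivisors ℤ_[p])
  have : Algebra.IsAlgebraic ℤ_[p] A := Algebra.IsAlgebraic.trans ℤ_[p] ℚ_[p] A
  let _ : Algebra A K := (e.comp (algebraMap A ℂ_[p])).toAlgebra
  obtain ⟨𝓗, h1, h2, h3⟩ := vl_abs (Z := ℤ_[p]) (A := A)
    ((algebraMap ℚ_[p] A).injective.comp Subtype.val_injective) U
    (fun n l => ⟨ξ n l, mem_algebraicClosure_iff.2 (hξ n l)⟩) hP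
  refine ⟨𝓗, h1, fun H hH => (h2 H hH).mono fun n hn => e.injective ?_, h3⟩
  rw [eval₂_comp_left, map_zero]
  exact hn

end Pool.Agent.E7
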