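import Pool.Agent.Lib.MP_7e5527_ag.EA.ZC
import Pool.Agent.Lib.MP_7e5527_ag.EA.AV
import Pool.Agent.Lib.MP_7e5527_ag.EA.AD
import Pool.Agent.Lib.MP_7e5527_ag.EO.G2

/-! The canonical point of a residue disc. -/

open MvPowerSeries Filter Topology Matrix

noncomputable section

namespace Pool.Agent.E7

variable {ι : Type} [Fintype ι] [DecidableEq ι] {p : ℕ} [Fact p.Prime] {Co : Cone ι} {R : Type}
  [CommRing R] {S : TW p Co R} {M W : Cl S} {E : Fr S}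

/-- `ψ` is the twist by `u` of the canonical lift `y` of `θ`. -/
structure Cn (W : Cl S) (E : Fr S) (ψ : R →+* ℂ_[p]) (θ : S.ZR →+* RF p) (y : R →+* ℂ_[p])
    (u : ι → ℂ_[p]ˣ) : Prop where
  gp : E.Gp y
  nr : Nr u
  eq : ψ = S.twc y u
  zu : E.ZU θ
  zs : W.ZS E gp.ch.zr ((jw p).comp (S.can θ))

variable {ψ y : R →+* ℂ_[p]} {θ : S.ZR →+* RF p} {u : ι → ℂ_[p]ˣ}

/-! Part 1. -/

theorem zd1_red {a b : OC p} : red p a = red p b ↔ ‖(a : ℂ_[p]) - b‖ < 1 := by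
  rw [← sub_eq_zero, ← map_sub, red_eq_zero]
  rfl

theorem zd1_can (θ : S.ZR →+* RF p) : (red p).comp ((jw p).comp (S.can θ)) = θ :=
  RingHom.ext fun F => (red_jw _).trans (TW.can_coeff θ F)

/-- `xc_surj`, `cgr_twc`, `zec`. -/
theorem Ad.exists_tw (hA : Ad W E) (hy : E.Gp y) {ξ : S.ZR →+* OC p} (hξ : E.ZU ξ)
    (hc : W.ZS E ((red p).comp ξ) ((red p).comp hy.ch.zr)) :
    ∃ (w : ι → ℂ_[p]ˣ) (hw : Nr w), W.ZS E ξ (hy.twc hw).ch.zr := by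
  obtain ⟨w, hw, e⟩ := hy.xc_surj (y := fun i => ((E.zx ξ i : OC p) : ℂ_[p]))
    ((pi_norm_lt_iff one_pos).2 fun i => by
      have h1 := congrFun (hc.zx hA) i
      rwa [Fr.zx_map hξ.u0, Fr.zx_map hy.zu.u0, zd1_red, hy.coe_zx] at h1)
  refine ⟨w, hw, hA.zec hξ (hy.twc hw).zu (funext fun i => Subtype.ext ?_)
    (hc.trans fun a F hF => ?_)⟩
  · rw [(hy.twc hw).coe_zx, e]
  · rw [Fr.zn_map hy.zu.u0, Fr.zn_map (hy.twc hw).zu.u0, zd1_red, hy.coe_zn, (hy.twc hw).coe_zn,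
      norm_sub_rev]
    exact Cl.cgr_twc hy hw a F hF

theorem Ad.exists_cn (hA : Ad W E) (h : E.Gp ψ) :
    ∃ y u, Cn W E ψ ((red p).comp h.ch.zr) y u := by
  have h0 : E.ZU ((red p).comp h.ch.zr) := h.zu.map _
  obtain ⟨w, hw, hs⟩ := hA.exists_tw h (h0.can.map (jw p))
    (by rw [zd1_can]; exact Cl.ZS.refl _)
  refine ⟨S.twc ψ w, w⁻¹, h.twc hw, hw.inv, ?_, h0, hs.symm⟩
  rw [TW.twc_twc h.ch hw hw.inv, inv_mul_cancel, TW.twc_one h.ch]

theorem Cn.red (h : Cn W E ψ θ y u) : W.ZS E θ ((red p).comp h.gp.ch.zr) := by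
  have h1 := (h.zs.map h.gp.zu (h.zu.can.map (jw p)) (E7.red p)).symm
  rwa [zd1_can] at h1

theorem Cn.frob (h : Cn W E ψ θ y u) (hW : W.Tow) (hA : Ad W E) {σ : ℂ_[p] →+* ℂ_[p]} {f : ℕ}
    (hσ : Frob σ f) : W.Sim (σ.comp y) (y.comp (S.fr ^ f)) := by
  have h0 := h.zu.can.map (jw p)
  have e : (resO σ hσ.iso).comp ((jw p).comp (S.can θ)) =
      ((jw p).comp (S.can θ)).comp (S.frZ ^ f) := by
    rw [RingHom.comp_assoc (S.frZ ^ f), TW.can_fr_pow]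
    exact RingHom.ext fun F => frob_jw hσ _
  rw [← hA.zs_iff (h.gp.map σ fun a => (hσ.iso a).le) (h.gp.fr f), h.gp.ch.zr_map hσ.iso,
    h.gp.ch.zr_fr]
  exact (h.zs.map h.gp.zu h0 _).trans (e ▸ h.zs.symm.fr hW hA h0 h.gp.zu f)

theorem Cn.ev (h : Cn W E ψ θ y u) (hW : W.Tow) (hA : Ad W E) {v : ι → ℂ_[p]ˣ} (hv : Nr v)
    (i : ι) : ((evx (jw p) (fun l => uo v l - 1) (E.XS (S.can θ) i) : OC p) : ℂ_[p]) =
      E.xc (S.twc y v) i := by
  rw [← h.gp.XS_ev hv i, h.zs.XS hW hA h.gp.zu (h.zu.can.map (jw p)), ← h.zu.can.XS_map,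
    evx_map hv.n1.e1, RingHom.id_comp]

/-- `evx_surj_eq`, `evx_mem`, `lg_mem`. -/
theorem Cn.mem (h : Cn W E ψ θ y u) (hW : W.Tow) (hA : Ad W E) {K : Subfield ℂ_[p]} (hK : DVF K)
    (hx : ∀ i, E.xc ψ i ∈ K) (i : ι) : lgv p u i ∈ K := by
  obtain ⟨β, -, hβ⟩ := evx_surj_eq h.zu.can.XS_jac
  have h1 := evx_mem hK.cl hK.jw (y := fun j => evx (jw p) (fun l => uo u l - 1)
    (E.XS (S.can θ) j) - jw p (constantCoeff (E.XS (S.can θ) j))) (fun j => by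
      refine (span_pow_norm (y := fun l => uo u l - 1) (norm_nonneg (uv u - 1)) (fun l => ?_)
        ((pow_one (Ideal.span _)).ge (evx_sub_const h.nr.n1.e1 _))).trans_lt
        ((pow_one _).trans_lt (nr_iff.1 h.nr))
      exact le_of_eq_of_le (congrArg (fun x => ‖x - 1‖) (h.nr.coe_uo l))
        (norm_le_pi_norm (uv u - 1) l))
    (fun j => K.sub_mem (by rw [h.ev hW hA h.nr, ← h.eq]; exact hx j) (hK.jw _)) (β i)
  rw [← hβ _ (jw p) (fun l => uo u l - 1) h.nr.n1.e1 i] at h1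
  refine hK.lg_mem (h.nr i) ?_
  rw [← h.nr.coe_uo, ← sub_add_cancel (uo u i : ℂ_[p]) 1]
  exact K.add_mem h1 K.one_mem

theorem zd1_lip (h : Cn W E ψ θ y u) (hA : Ad W E) (i : ι) :
    ‖E.xc ψ i - jw p (E.zx (S.can θ) i)‖ ≤ ‖uv u - 1‖ := by
  have h1 := h.gp.xc_lip h.nr Nr.one
  rw [TW.twc_one h.gp.ch, ← h.eq] at h1
  rw [← Fr.zx_map h.zu.can.u0, ← h.zs.zx hA, h.gp.coe_zx]
  exact (norm_le_pi_norm (E.xc ψ - E.xc y) i).trans h1

theorem Cn.near (h : Cn W E ψ θ y u) (hA : Ad W E) {ψ' y' : R →+* ℂ_[p]} {θ' : S.ZR →+* RF p}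
    {u' : ι → ℂ_[p]ˣ} (h' : Cn W E ψ' θ' y' u') (e : E.zx θ = E.zx θ') {r : ℝ}
    (hr : (p : ℝ)⁻¹ ≤ r) (h1 : ‖uv u - 1‖ ≤ r) (h2 : ‖uv u' - 1‖ ≤ r) :
    ‖E.xc ψ - E.xc ψ'‖ ≤ r := by
  refine (pi_norm_le_iff_of_nonneg ((norm_nonneg _).trans h1)).2 fun i =>
    cec_tri (cec_tri ((zd1_lip h hA i).trans h1) (le_trans ?_ hr))
      ((norm_sub_rev _ _).trans_le ((zd1_lip h' hA i).trans h2))
  have h3 : (p : W0 p) ∣ E.zx (S.can θ) i - E.zx (S.can θ') i := wv_dvd.2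
    ((map_sub WittVector.constantCoeff (E.zx (S.can θ) i) _).trans (sub_eq_zero.2
      ((h.zu.zn_can 1 _).trans ((congrFun e i).trans (h'.zu.zn_can 1 _).symm))))
  have h4 := map_dvd (jw p) h3
  rw [map_natCast, map_sub, ← pow_one (p : OC p), oc_pdvd, pow_one] at h4
  exact h4

theorem Cn.isL {S : TW p cone R} {W : Cl S} {E : Fr S} {θ : S.ZR →+* RF p} {u : Ix → ℂ_[p]ˣ}
    (h : Cn W E ψ θ y u) (hW : W.Tow) (hA : Ad W E) {σ : ℂ_[p] →+* ℂ_[p]} {f : ℕ}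
    (hσ : Frob σ f) : W.IsL σ f ψ (lgv p u) := by
  have h1 : W.IsL σ f y 0 := ⟨1, Nr.one, by
    rw [TW.twc_one (h.gp.fr f).ch]
    exact h.frob hW hA hσ, fun i => by simp [lgv_one]⟩
  have h2 := h1.twc hW h.gp.ch hσ h.nr
  rwa [zero_add, ← h.eq] at h2

variable {ψ1 ψ2 : R →+* ℂ_[p]}

/-- `Ad.trn`, `Ad.zpm`, `Jm_det`. -/
theorem Ad.trn_zp (h : Ad M E) (h1 : E.Gp ψ1) (h2 : E.Gp ψ2) (hs : M.Sim ψ1 ψ2) :
    ∃ κ : Matrix ι ι ℤ_[p], IsUnit κ.det ∧ M.Trn ψ1 ψ2 (κ.map (UAP.zp p)) := by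
  choose κ hκ using h.zpm h1 h2 hs
  choose κ' hκ' using h.zpm h2 h1 hs.symm
  have e : E.kap ψ1 ψ2 = (Matrix.of κ).map (UAP.zp p) := Matrix.ext hκ
  have e' : E.kap ψ2 ψ1 = (Matrix.of κ').map (UAP.zp p) := Matrix.ext hκ'
  refine ⟨Matrix.of κ, isUnit_det_of_left_inverse (B := Matrix.of κ') (Matrix.map_injective
    (f := UAP.zp p) ((injective_iff_map_eq_zero _).2 fun a ha => ?_) ?_), e ▸ h.trn h1 h2 hs⟩
  · rw [← norm_eq_zero, ← zp_norm, ha, norm_zero]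
  · beta_reduce
    rw [Matrix.map_mul, ← e, ← e', Matrix.map_one _ (map_zero _) (map_one _), Fr.kap,
      Matrix.mul_assoc, Fr.Jm_kap h2, nonsing_inv_mul _ h1.Jm_det.isUnit]

/-- `tr_le`, `XE_ev`, `lg_inj`. -/
theorem Ad.trn_exo (h : Ad M E) (h1 : E.Gp ψ1) (h2 : E.Gp ψ2) (hs : M.Sim ψ1 ψ2)
    {κ : Matrix ι ι ℂ_[p]} (ht : M.Trn ψ1 ψ2 κ) (hu : Nr u) (h3 : ‖uv u - 1‖ ≤ ((p : ℝ) ^ 2)⁻¹)
    {z : ι → OC p} (hz : Sm z) (e : ∀ i, (p : ℂ_[p]) ^ 2 * z i = (κ *ᵥ lgv p u) i) (i : ι) :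
    E.xc (S.twc ψ1 u) i = (evx (RingHom.id _) z (h2.XE i) : OC p) := by
  obtain ⟨v, hv, e1, h4⟩ := ht u hu
  obtain ⟨w, hw, e2, -, e3⟩ := h2.XE_ev hz
  have h5 := (h.tr_le h1 h2 hs hu hv h4).trans h3
  have e4 : v = w := funext fun l => Units.ext (by
    rw [← hv.coe_uo, ← hw.coe_uo, e2, eq_exo (hz l) (v := uo v l)
      (by rw [hv.coe_uo]; exact (norm_le_pi_norm (uv v - 1) l).trans h5)
      (by rw [hv.coe_uo, e, ← e1]; rfl)])
  rw [e3, h4.xc h (h2.twc hv).unit, e4]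

theorem mpw_exo {κ : Type} [Fintype κ] {z : ι → OC p} (hz : Sm z) (μ : Matrix κ ι ℤ_[p]) (i : κ) :
    mpw (fun l => exo p (z l)) μ i = exo p ((μ.map (zc p (OC p)) *ᵥ z) i) := by
  have h1 : ∀ l, ‖((exo p (z l) : OC p) : ℂ_[p]) - 1‖ ≤ ((p : ℝ) ^ 2)⁻¹ := fun l =>
    oc_pdvd.1 ((dvd_mul_right _ _).trans (exo_sub_one (Sm.ev fun _ => hz l)))
  have h2 : N1 fun l => exo p (z l) := fun l => (h1 l).trans_lt (inv_lt_one_of_one_lt₀
    (one_lt_pow₀ (Nat.one_lt_cast.2 (Fact.out : p.Prime).one_lt) two_ne_zero))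
  refine eq_exo (red_eq_zero.1 ?_) (norm_mpw h2 (by positivity) h1 μ i)
    ((congrFun (lgo_mpw h2 μ) i).trans ?_)
  · simp [mulVec, dotProduct, red_eq_zero.2 (hz _)]
  · simp [mulVec, dotProduct, lgo, lg_exo (hz _), zc_oc, Finset.mul_sum, mul_left_comm]

/-! Part 2. -/

/-- Arcs through the conjugates of the point on which the equations vanish. -/
def Fr.Gp.Out (h : E.Gp ψ) (r : ℕ) {m : ℕ} (ρ : Fin m → ℂ_[p] →+* ℂ_[p])
    (𝓗 : Set (MvPolynomial ι ℤ_[p])) : Prop :=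
  ∃ z : Fin m → ι → PS Unit ℂ_[p], (∀ i, C0 (z i)) ∧ (∀ i, z i ≠ 0) ∧
    (Dep ℂ_[p] r fun q : Fin m × ι => z q.1 q.2) ∧ ∀ H ∈ 𝓗, ∀ i,
      MvPolynomial.eval₂ ((C : ℂ_[p] →+* PS Unit ℂ_[p]).comp (UAP.zp p))
        (fun j => sb (z i) (MvPowerSeries.map ((ρ i).comp (ov p)) (h.XE j))) H = 0

variable {r m : ℕ} {ρ : Fin m → ℂ_[p] →+* ℂ_[p]} {𝓗 : Set (MvPolynomial ι ℤ_[p])}

theorem zd2_dep {α : Type} (hr : 0 < r) (c : α → ℂ_[p]) :
    Dep ℂ_[p] r fun q => (C (c q) * X () : PS Unit ℂ_[p]) := by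
  intro s hs
  have h1 : (⟨0, by omega⟩ : Fin (r + 1)) ≠ ⟨1, by omega⟩ := by simp
  have h2 := hs.linearIndependent.comp ![⟨0, by omega⟩, ⟨1, by omega⟩]
    (injective_pair_iff_ne.2 h1)
  have h3 : LinearIndependent ℂ_[p] ![(C (c (s ⟨0, by omega⟩)) * X () : PS Unit ℂ_[p]),
      C (c (s ⟨1, by omega⟩)) * X ()] := by
    refine Eq.mp (congrArg (fun v : Fin 2 → PS Unit ℂ_[p] => LinearIndependent ℂ_[p] v)
      (funext fun i => ?_)) h2
    fin_cases i <;> rfl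
  have h4 := LinearIndependent.pair_iff.1 h3 (c (s ⟨1, by omega⟩)) (-c (s ⟨0, by omega⟩)) (by
    rw [smul_eq_C_mul, smul_eq_C_mul, map_neg]
    ring)
  refine h3.ne_zero 1 ?_
  change C _ * X () = 0
  rw [h4.1, map_zero, zero_mul]

omit [Fintype ι] [DecidableEq ι] in
theorem zd2_sm {k : ℕ} (hk : 0 < k) (a : ι → OC p) : Sm ((p : OC p) ^ k • a) := fun i => by
  refine (oc_pdvd.1 (Dvd.intro (a i) rfl)).trans_lt (inv_lt_one_of_one_lt₀ ?_)
  exact one_lt_pow₀ (Nat.one_lt_cast.2 (Fact.out : p.Prime).one_lt) hk.ne'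

/-- `line_lemma`; the arcs are `ρ i (a) * t`. -/
theorem Fr.Gp.out_of_line (h : E.Gp ψ) (hr : 0 < r) (hρ : ∀ i, UAP.Iso (ρ i)) {a : ι → OC p}
    (ha : a ≠ 0) {α : Matrix ι ι ℤ_[p]} (hα : IsUnit α.det) {f : ℕ} (hf : 0 < f) (k0 : ℕ)
    (hv : ∀ H ∈ 𝓗, ∀ k, k0 < k → MvPolynomial.eval₂ (zc p (OC p)) (fun j => evx (RingHom.id _)
      ((p : OC p) ^ (f * k) • ((α ^ k).map (zc p (OC p))).mulVec a) (h.XE j)) H = 0) :
    h.Out r ρ 𝓗 := by
  refine ⟨fun i l => C (ρ i (a l)) * X (), fun i l => by simp, fun i h0 => ha (funext fun l => ?_),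
    zd2_dep hr fun q : Fin m × ι => ρ q.1 (a q.2), fun H hH i => ?_⟩
  · have h1 := congrArg (coeff (Finsupp.single () 1)) (congrFun h0 l)
    rw [coeff_C_mul, coeff_X, if_pos rfl, mul_one, Pi.zero_apply, map_zero,
      _root_.map_eq_zero] at h1
    exact Subtype.ext h1
  · have h1 := line_lemma (MvPolynomial.eval₂ ((C : OC p →+* PS ι (OC p)).comp (zc p (OC p)))
      h.XE H) a α hα hf k0 fun k hk => by
        have he := (zd2_sm (Nat.mul_pos hf (Nat.zero_lt_of_lt hk))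
          (((α ^ k).map (zc p (OC p))).mulVec a)).ev
        rw [MvPolynomial.eval₂_comp_left, ← hv H hH k hk]
        congr 1
        exact RingHom.ext fun z => evx_C he _
    have hb : C0 fun l => (C (a l) * X () : PS Unit (OC p)) := fun l => by simp
    have h2 := congrArg (MvPowerSeries.map ((ρ i).comp (ov p))) h1
    rw [MvPolynomial.eval₂_comp_left, MvPolynomial.eval₂_comp_left, map_zero] at h2
    rw [← h2]
    congr 1
    · refine RingHom.ext fun z => ?_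
      simp only [RingHom.comp_apply]
      rw [evx_C hb.ev, map_C, ← zc_oc]
      exact congrArg (fun x : OC p => (C (x : ℂ_[p]) : PS Unit ℂ_[p]))
        (zc_map (resO (ρ i) (hρ i)) z).symm
    · refine funext fun j => ?_
      simp only [Function.comp_apply]
      rw [map_sb hb]
      congr 2
      refine funext fun l => ?_
      rw [map_mul, map_C, map_X]
      rfl

/-- A deformation of `θ` over a ring of characteristic `p`. -/
structure GP (E : Fr S) (θ : S.ZR →+* RF p) (B : Type) [CommRing B] where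
  c : RF p →+* B
  ev : B →+* RF p
  ζ : S.ZR →+* B
  zu : E.ZU ζ
  evc : ∀ w, ev (c w) = w
  evζ : ∀ F, ev (ζ F) = θ F

variable {B : Type} [CommRing B]

/-- The conclusion of generic vanishing. -/
def GP.Van (G : GP E θ B) (u : ι → ℂ_[p]ˣ) (μ : Matrix ι ι ℤ_[p]) (τ : Finset ι)
    (𝓗 : Set (MvPolynomial ι ℤ_[p])) : Prop :=
  ∀ H ∈ 𝓗, ∀ (Λ : WittVector p B →+* OC p) (s : ℂ_[p] →+* ℂ_[p]) (hs : UAP.Iso s),
    (∀ w, Λ (WittVector.map G.c w) = resO s hs (jw p w)) → ∀ z : ι → OC p, N1 z →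
      (∀ i ∉ τ, z i = 1) → MvPolynomial.eval₂ (zc p (OC p)) (fun j => evx (RingHom.id _)
        (fun i => resO s hs (uo u i) * mpw z μ i - 1) (E.XS (Λ.comp (S.can G.ζ)) j)) H = 0

/-- An arc in the deformation. -/
def GP.Arc (G : GP E θ B) : Prop :=
  ∃ (y : ι → PS Unit (RF p)) (lam : B →+* PT p) (ζ' : S.ZR →+* PS Unit (RF p)), C0 y ∧ y ≠ 0 ∧
    (∀ w, lam (G.c w) = PerfectClosure.of _ p (C w)) ∧
    (∀ F, lam (G.ζ F) = PerfectClosure.of _ p (ζ' F)) ∧ (∀ F, constantCoeff (ζ' F) = θ F) ∧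
    E.ZU ζ' ∧ ∀ i, E.zx ζ' i = C (E.zx θ i) + y i

variable {μ : Matrix ι ι ℤ_[p]} {τ : Finset ι}

/-- Take `Λ = jw ∘ map ev`, `s = id`, `z = exo (p ^ k • single i0 1)`. -/
theorem Cn.caseA (h : Cn W E ψ θ y u) (hψ : E.Gp ψ) (hW : W.Tow) (hA : Ad W E) (G : GP E θ B)
    (hμ : IsUnit μ.det) (hv : G.Van u μ τ 𝓗) (hτ : τ.Nonempty) (hr : 0 < r)
    (hρ : ∀ i, UAP.Iso (ρ i)) : hψ.Out r ρ 𝓗 := by
  obtain ⟨i0, hi0⟩ := hτ
  have hid : UAP.Iso (RingHom.id ℂ_[p]) := fun _ => rfl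
  have hu : IsUnit (μ.map (zc p (OC p))) :=
    (isUnit_iff_isUnit_det _).2 (by
      have := hμ.map (zc p (OC p))
      rwa [RingHom.map_det] at this)
  refine hψ.out_of_line hr hρ (a := μ.map (zc p (OC p)) *ᵥ Pi.single i0 1) (fun h0 => ?_)
    (α := 1) (by simp) one_pos 0 fun H hH k hk => ?_
  · have h1 := mulVec_injective_of_isUnit hu (h0.trans (mulVec_zero _).symm)
    simpa using congrFun h1 i0
  · have hs : Sm ((p : OC p) ^ k • (Pi.single i0 1 : ι → OC p)) := zd2_sm hk _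
    obtain ⟨w, hw, e1, -, -⟩ := hψ.XE_ev hs
    have hn : N1 fun i => exo p (((p : OC p) ^ k • (Pi.single i0 1 : ι → OC p)) i) := by
      rw [← funext e1]
      exact hw.n1
    have hc : ((jw p).comp (WittVector.map G.ev)).comp (S.can G.ζ) = (jw p).comp (S.can θ) := by
      rw [RingHom.comp_assoc, TW.can_map, show G.ev.comp G.ζ = θ from RingHom.ext G.evζ]
    have h1 := hv H hH ((jw p).comp (WittVector.map G.ev)) _ hid
      (fun w => congrArg (jw p) (WittVector.ext fun n => G.evc _)) _ hn fun i hi => by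
        rw [Pi.smul_apply, Pi.single_eq_of_ne (ne_of_mem_of_not_mem hi0 hi).symm, smul_zero, exo_zero]
    rw [← h1, hc, one_pow, one_mul, Matrix.map_one _ (map_zero _) (map_one _), one_mulVec]
    congr 1
    refine funext fun j => Subtype.ext ?_
    obtain ⟨v, hv1, e2, -, e3⟩ := hψ.XE_ev (zd2_sm hk (μ.map (zc p (OC p)) *ᵥ Pi.single i0 1))
    have hvu := hv1.mul h.nr
    have e4 : (fun i => resO _ hid (uo u i) * mpw (fun i => exo p (((p : OC p) ^ k •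
        (Pi.single i0 1 : ι → OC p)) i)) μ i - 1) = fun i => uo (v * u) i - 1 := by
      refine funext fun i => ?_
      rw [mpw_exo hs, mulVec_smul, ← e2]
      refine congrArg (· - 1) (Subtype.ext ?_)
      rw [hvu.coe_uo, Pi.mul_apply, Units.val_mul, ← hv1.coe_uo, ← h.nr.coe_uo, mul_comm]
      rfl
    rw [e3, e4, ← h.zu.can.XS_map, evx_map hvu.n1.e1, RingHom.id_comp, h.ev hW hA hvu,
      ← TW.twc_twc h.gp.ch h.nr hv1, ← h.eq]

/-! Part 3. -/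

theorem zd3_lift (g : PS Unit (RF p)) :
    ∃ f : PS Unit (W0 p), MvPowerSeries.map WittVector.constantCoeff f = g := by
  refine ⟨fun ν => WittVector.teichmuller p (coeff ν g), MvPowerSeries.ext fun ν => ?_⟩
  rw [coeff_map]
  exact WittVector.teichmuller_coeff_zero p _

theorem zd3_red {w : OC p} (hw : ‖(w : ℂ_[p])‖ < 1) (f : PS Unit (W0 p)) {z : OC p}
    (h : (p : OC p) ∣ z - evx (jw p) (fun _ => w) f) :
    red p z = constantCoeff (MvPowerSeries.map WittVector.constantCoeff f) := by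
  have he : Ev fun _ : Unit => w := ev_pad p fun _ => pn_iff.2 hw
  have h1 := evx_sub_const (φ := jw p) he f
  rw [Set.range_const, Ideal.mem_span_singleton] at h1
  have h2 := map_dvd (red p) h
  have h3 := map_dvd (red p) h1
  rw [map_natCast, CharP.cast_eq_zero, zero_dvd_iff, map_sub, sub_eq_zero] at h2
  rw [red_eq_zero.2 hw, zero_dvd_iff, map_sub, sub_eq_zero, red_jw] at h3
  rw [h2, h3]
  rfl

/-- `norm_arc`, `exists_gap`, `exists_lam`, `exists_tw`, `xc_iso`, `xc_lip`, `lg_eq_zero`. -/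
theorem Cn.arc_pt (h : Cn W E ψ θ y u) (hA : Ad W E) (G : GP E θ B) (ha : G.Arc) :
    ∃ (Λ : WittVector p B →+* OC p) (w : ι → ℂ_[p]ˣ) (hw : Nr w),
      (∀ x, Λ (WittVector.map G.c x) = jw p x) ∧ lgv p w ≠ 0 ∧ E.ZU (Λ.comp (S.can G.ζ)) ∧
        W.ZS E (Λ.comp (S.can G.ζ)) (h.gp.twc hw).ch.zr := by
  obtain ⟨y', lam, ζ', hy0, hy, hc, hζ, hθ, hzu, hx⟩ := ha
  obtain ⟨m, hm, hn⟩ := norm_arc hy0 hy
  obtain ⟨w₀, hw1, hw2, hgap⟩ := exists_gap p hm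
  obtain ⟨Λ₀, hΛ1, hΛ2⟩ := exists_lam hw2
  have e1 : lam.comp G.ζ = (PerfectClosure.of _ p).comp ζ' := RingHom.ext hζ
  have e2 : (Λ₀.comp (WittVector.map lam)).comp (S.can G.ζ) =
      Λ₀.comp (S.can ((PerfectClosure.of _ p).comp ζ')) := by
    rw [RingHom.comp_assoc, TW.can_map, e1]
  have hz1 := hzu.map (PerfectClosure.of _ p)
  have hz2 := hz1.can.map Λ₀
  have hred : (Pool.Agent.E7.red p).comp
      (Λ₀.comp (S.can ((PerfectClosure.of _ p).comp ζ'))) = θ := by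
    ext F
    obtain ⟨f, hf⟩ := zd3_lift (ζ' F)
    have := zd3_red hw2 f (hΛ2 (S.can ((PerfectClosure.of _ p).comp ζ') F) f (by
      rw [hf, TW.can_coeff]; rfl))
    rw [hf, hθ] at this
    exact this
  obtain ⟨w, hw, hs⟩ := hA.exists_tw h.gp hz2 (by rw [hred]; exact h.red)
  refine ⟨Λ₀.comp (WittVector.map lam), w, hw, fun x => ?_, fun h0 => ?_, e2 ▸ hz2, e2 ▸ hs⟩
  · rw [← hΛ1 x, RingHom.comp_apply]
    exact congrArg Λ₀ (WittVector.ext fun n => hc _)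
  · choose f hf using fun i => zd3_lift (y' i)
    have h1 := hn w₀ hw1 hw2 f (fun i => E.zx (h.gp.twc hw).ch.zr i - E.zx h.gp.ch.zr i) hf
      fun i => by
        rw [← hs.zx hA, h.zs.zx hA, Fr.zx_map hz1.can.u0, Fr.zx_map h.zu.can.u0, ← hΛ1, ← map_sub]
        refine hΛ2 _ _ ?_
        have e3 := map_sub (WittVector.constantCoeff (p := p))
          (E.zx (S.can ((PerfectClosure.of _ p).comp ζ')) i)
          (WittVector.map ((PerfectClosure.of _ p).comp C) (E.zx (S.can θ) i))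
        refine e3.trans ?_
        have e4 : WittVector.constantCoeff (E.zx (S.can ((PerfectClosure.of _ p).comp ζ')) i) =
            E.zx ((PerfectClosure.of _ p).comp ζ') i := hz1.zn_can 1 _
        have e5 : (E.zx (S.can θ) i).coeff 0 = E.zx θ i := h.zu.zn_can 1 _
        rw [e4, WittVector.constantCoeff_apply, WittVector.map_coeff, e5, Fr.zx_map hzu.u0, hx,
          map_add, RingHom.comp_apply, add_sub_cancel_left, hf]
    have h2 : (fun i => ((E.zx (h.gp.twc hw).ch.zr i - E.zx h.gp.ch.zr i : OC p) : ℂ_[p])) =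
        E.xc (S.twc y w) - E.xc (S.twc y 1) := by
      funext i
      rw [TW.twc_one h.gp.ch, Pi.sub_apply, ← (h.gp.twc hw).coe_zx, ← h.gp.coe_zx]
      rfl
    have h3 : ‖uv w - uv (1 : ι → ℂ_[p]ˣ)‖ = ‖(w₀ : ℂ_[p])‖ ^ m := by
      rw [← h1, h2]
      exact le_antisymm (h.gp.xc_iso hw Nr.one) (h.gp.xc_lip hw Nr.one)
    have hpos : 0 < ‖(w₀ : ℂ_[p])‖ ^ m :=
      lt_of_le_of_lt (inv_nonneg.2 (Nat.cast_nonneg p)) hw1
    refine ((pi_norm_lt_iff hpos).2 fun i => ?_).ne h3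
    obtain ⟨j, hj⟩ := lg_eq_zero (hw i) (congrFun h0 i)
    exact lt_of_le_of_ne (h3 ▸ norm_le_pi_norm _ i) (hgap _ j hj)

theorem zd3_simpow {s : ℂ_[p] →+* ℂ_[p]} (h : M.Sim (s.comp ψ) ψ) (k : ℕ) :
    M.Sim ((s ^ k).comp ψ) ψ := by
  induction k with
  | zero => exact Cl.Sim.refl ψ
  | succ k ih => exact pow_succ s k ▸ (h.map (s ^ k)).trans ih

theorem zd3_trnpow (h : Ad M E) (hψ : E.Gp ψ) {s : ℂ_[p] →+* ℂ_[p]} {α : Matrix ι ι ℂ_[p]}
    (hs : UAP.Iso s) (h0 : M.Sim (s.comp ψ) ψ) (ht : M.Trn (s.comp ψ) ψ α) (k : ℕ) :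
    M.Trn ((s ^ k).comp ψ) ψ (α ^ k) := by
  induction k with
  | zero =>
    intro u hu
    exact ⟨u, hu, by rw [pow_zero, one_mulVec], Cl.Sim.refl _⟩
  | succ k ih =>
    have h1 : E.Gp ((s ^ k).comp ψ) := hψ.map _ fun a => (hs.iterate k a).le
    have h2 := (h.trn_map h1 hψ (zd3_simpow h0 k) ih hs).comp ht
    rw [pow_succ' s, pow_succ' α]
    exact h2

theorem zd3_big (p : ℕ) [Fact p.Prime] (b : ℝ) :
    ∃ N : ℕ, ∀ n, N ≤ n → b * ((p : ℝ) ^ n)⁻¹ ≤ ((p : ℝ) ^ 2)⁻¹ := by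
  have hp : (1 : ℝ) < p := by exact_mod_cast (Fact.out : p.Prime).one_lt
  have h := (tendsto_inv_atTop_zero.comp (tendsto_pow_atTop_atTop_of_one_lt hp)).const_mul b
  rw [mul_zero] at h
  have h2 : (0 : ℝ) < ((p : ℝ) ^ 2)⁻¹ := by positivity
  exact eventually_atTop.1 (h.eventually (ge_mem_nhds h2))

theorem zd3_val [CharP B p] [PerfectRing B p] (h : Cn W E ψ θ y u) (hW : W.Tow) (hA : Ad W E)
    (G : GP E θ B) {Λ : WittVector p B →+* OC p} {w : ι → ℂ_[p]ˣ} (hw : Nr w)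
    (hz : E.ZU (Λ.comp (S.can G.ζ))) (hs : W.ZS E (Λ.comp (S.can G.ζ)) (h.gp.twc hw).ch.zr)
    {s : ℂ_[p] →+* ℂ_[p]} {n : ℕ} (hσ : Frob s n) (j : ι) :
    ((evx (RingHom.id _) (fun i => resO s hσ.iso (uo u i) * mpw (1 : ι → OC p) μ i - 1)
      (E.XS ((Λ.comp (WittVector.frobenius ^ n : WittVector p B →+* WittVector p B)).comp
        (S.can G.ζ)) j) : OC p) : ℂ_[p]) = E.xc (S.twc (s.comp ψ) (w ^ p ^ n)) j := by
  have hs' : ∀ a, ‖s a‖ ≤ ‖a‖ := fun a => (hσ.iso a).le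
  have hv : Nr (umap s u) := h.nr.umap s hs'
  have g1 := (h.gp.twc hw).fr n
  have g2 := h.gp.map s hs'
  have hw' := hw.pow (p ^ n)
  have e1 : (fun i => resO s hσ.iso (uo u i) * mpw (1 : ι → OC p) μ i - 1) =
      fun i => uo (umap s u) i - 1 := by
    funext i
    rw [one_mpw, Pi.one_apply, mul_one]
    congr 1
    refine Subtype.ext ?_
    rw [coe_resO, h.nr.coe_uo, hv.coe_uo]
    rfl
  have e2 : E.XS ((Λ.comp (WittVector.frobenius ^ n : WittVector p B →+* WittVector p B)).comp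
      (S.can G.ζ)) = E.XS g1.ch.zr := by
    rw [RingHom.comp_assoc, ← TW.can_fr_pow, ← RingHom.comp_assoc,
      (h.gp.twc hw).ch.zr_fr n g1.ch]
    exact (hs.fr hW hA hz (h.gp.twc hw).zu n).XS hW hA (hz.fr n) ((h.gp.twc hw).zu.fr n)
  rw [e1, e2, g1.XS_ev hv, TW.twc_fr h.gp.ch hw]
  have s1 := ((h.frob hW hA hσ).symm.twc hW (h.gp.fr n).ch g2.ch hw').twc hW
    ((h.gp.fr n).ch.twc hw') (g2.ch.twc hw') hv
  rw [s1.xc hA ((g2.twc hw').twc hv).unit, TW.twc_twc g2.ch hw' hv, mul_comm,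
    ← TW.twc_twc g2.ch hv hw', ← TW.twc_map h.gp.ch h.nr s hs', ← h.eq]

/-- Take `Λ ∘ frobenius ^ (f * k)`, `s ^ k`, `z = 1`; `Ad.trn_pow` is in `EO.R1`. -/
theorem Cn.caseB [CharP B p] [PerfectRing B p] (h : Cn W E ψ θ y u) (hψ : E.Gp ψ) (hW : W.Tow)
    (hA : Ad W E) (hM : Ad M E) (hs : ∀ a, M.M a ⊆ W.M a) (G : GP E θ B)
    (hv : G.Van u μ τ 𝓗) (ha : G.Arc) {s : ℂ_[p] →+* ℂ_[p]} {f : ℕ} (hσ : Frob s f) (hf : 0 < f)
    (h0 : M.Sim (s.comp ψ) ψ) (hr : 0 < r) (hρ : ∀ i, UAP.Iso (ρ i)) : hψ.Out r ρ 𝓗 := by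
  obtain ⟨Λ, w, hw, hΛ, hl, hz, hzs⟩ := h.arc_pt hA G ha
  obtain ⟨α, hα, ht⟩ := hM.trn_zp (hψ.map s fun a => (hσ.iso a).le) hψ h0
  obtain ⟨b, hb⟩ := ppow_bound p (nr_iff.1 hw)
  obtain ⟨N1', hN1⟩ := zd3_big p b
  obtain ⟨N2, hN2⟩ := zd3_big p ‖lgv p w‖
  have hp0 : (p : ℂ_[p]) ≠ 0 := Nat.cast_ne_zero.2 (Fact.out : p.Prime).ne_zero
  have hpr : (0 : ℝ) < (p : ℝ) ^ 2 := pow_pos (Nat.cast_pos.2 (Fact.out : p.Prime).pos) 2
  obtain ⟨k1, hk1, hk2⟩ : ∃ k1, N1' ≤ k1 ∧ N2 ≤ k1 := ⟨_, le_max_left _ _, le_max_right _ _⟩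
  have hle : ∀ i, ‖(p : ℂ_[p]) ^ (k1 * f) * lgv p w i / (p : ℂ_[p]) ^ 2‖ ≤ 1 := by
    intro i
    have h1 := hN2 (k1 * f) (hk2.trans (Nat.le_mul_of_pos_right _ hf))
    rw [norm_div, norm_mul, norm_pow, norm_pow, trb_p, inv_pow, inv_pow,
      div_le_one (inv_pos.2 hpr), mul_comm]
    exact (mul_le_mul_of_nonneg_right (norm_le_pi_norm _ i) (by positivity)).trans h1
  let a' : ι → OC p := fun i => toO ((p : ℂ_[p]) ^ (k1 * f) * lgv p w i / (p : ℂ_[p]) ^ 2)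
  have ha' : ∀ i, (p : ℂ_[p]) ^ 2 * (a' i : ℂ_[p]) = (p : ℂ_[p]) ^ (k1 * f) * lgv p w i := by
    intro i
    rw [coe_toO (hle i), mul_div_cancel₀ _ (pow_ne_zero _ hp0)]
  have hmap : ∀ k, (α ^ k).map (zc p (OC p)) = (zc p (OC p)).mapMatrix α ^ k := fun k =>
    map_pow (zc p (OC p)).mapMatrix α k
  refine hψ.out_of_line hr hρ (a := (α ^ k1).map (zc p (OC p)) *ᵥ a') (fun e => hl ?_) hα hf 0
    fun H hH k hk => ?_
  · have hu : IsUnit ((α ^ k1).map (zc p (OC p))) :=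
      (((Matrix.isUnit_iff_isUnit_det α).2 hα).pow k1).map (zc p (OC p)).mapMatrix
    have e' : a' = 0 := Matrix.mulVec_injective_of_isUnit hu (e.trans (mulVec_zero _).symm)
    funext i
    have := ha' i
    rw [e', Pi.zero_apply, ZeroMemClass.coe_zero, mul_zero] at this
    exact (mul_eq_zero.1 this.symm).resolve_left (pow_ne_zero _ hp0)
  · have hσ' := hσ.pow (k + k1)
    have key := hv H hH (Λ.comp (WittVector.frobenius ^ ((k + k1) * f))) (s ^ (k + k1)) hσ'.iso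
      (fun x => by
        rw [frob_jw hσ', ← hΛ, RingHom.comp_apply]
        congr 1
        induction (k + k1) * f with
        | zero => rfl
        | succ n ih =>
          rw [pow_succ', pow_succ', RingHom.mul_def, RingHom.mul_def, RingHom.comp_apply,
            RingHom.comp_apply, ih, wv_map_fr])
      1 (fun i => by simp) fun _ _ => rfl
    rw [← key]
    congr 1
    funext j
    refine Subtype.ext ?_
    rw [zd3_val h hW hA G hw hz hzs hσ' j]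
    refine (hM.trn_exo (hψ.map _ fun a => (hσ'.iso a).le) hψ (zd3_simpow h0 _)
      (zd3_trnpow hM hψ hσ.iso h0 ht (k + k1)) (hw.pow _) ?_ (fun i => ?_) (fun i => ?_) j).symm
    · refine (pi_norm_le_iff_of_nonneg (inv_pos.2 hpr).le).2 fun i => ?_
      refine (hb ℂ_[p] (w i) (norm_le_pi_norm (uv w - 1) i) ((k + k1) * f)).trans (hN1 _ ?_)
      exact (hk1.trans (Nat.le_add_left _ _)).trans (Nat.le_mul_of_pos_right _ hf)
    · exact pn_iff.1 (Ideal.le_radical (Ideal.mem_span_singleton.2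
        (Dvd.dvd.mul_right (dvd_pow_self _ (Nat.mul_pos hf hk).ne') _)))
    · rw [mulVec_mulVec, hmap, hmap, ← pow_add, ← hmap, lgv_pow hw, mulVec_smul,
        ← RingHom.mapMatrix_apply (UAP.zp p), ← map_pow]
      simp only [Pi.smul_apply, smul_eq_mul, mulVec, dotProduct, RingHom.mapMatrix_apply,
        Matrix.map_apply]
      push_cast
      simp only [zc_oc, Finset.mul_sum]
      refine Finset.sum_congr rfl fun l _ => ?_
      linear_combination (p : ℂ_[p]) ^ (f * k) * UAP.zp p ((α ^ (k + k1)) i l) * ha' l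

end Pool.Agent.E7
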