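import Pool.Agent.Lib.MP_7e5527_ag.EA.SE
import Pool.Agent.Lib.MP_7e5527_ag.EA.CG
import Pool.Agent.Lib.MP_7e5527_ag.EA.ZD
import Pool.Agent.Lib.MP_7e5527_ag.EA.VL

/-! Comparison of two expansions. -/

open MvPowerSeries Matrix

noncomputable section

namespace Pool.Agent.E7

variable {k ι β : Type} [Field k] [CharZero k] [Fintype ι] [DecidableEq ι] [Fintype β]
  [DecidableEq β] {m r d : ℕ}

private theorem cr_sb {σ τ υ A : Type} [CommRing A] [Finite σ] [Finite τ] [Finite υ]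
    {b : τ → PS σ A} {y : σ → PS υ A} (hb : C0 b) (hy : C0 y) (f : PS τ A) :
    sb y (sb b f) = sb (fun j => sb y (b j)) f :=
  evx_sb hy.ev hb.ev (hy.ev.evx hb) f

private theorem cr_c0 {σ τ A A' : Type} [CommRing A] [CommRing A'] {b : τ → PS σ A} (hb : C0 b)
    (ρ : A →+* A') : C0 fun j => MvPowerSeries.map ρ (b j) := fun j => by
  rw [constantCoeff_map, hb j, map_zero]

private theorem cr_inj {σ A A' : Type} [CommRing A] [CommRing A'] {ρ : A →+* A'}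
    (h : Function.Injective ρ) : Function.Injective (MvPowerSeries.map (σ := σ) ρ) :=
  fun _ _ e => MvPowerSeries.ext fun ν => h (by rw [← coeff_map, ← coeff_map, e])

omit [CharZero k] in
private theorem cr_D (Λ Λ' : LD k ι β) {ζ : ι → PS ι k} (h0 : C0 ζ)
    (hx : ∀ j, sb ζ (Λ.x j) = Λ'.x j) (j : ι) (f : PS ι k) :
    Λ'.D j (sb ζ f) = sb ζ (Λ.D j f) := by
  have h1 : ∀ l, pderiv k l (sb ζ f) = ∑ i, sb ζ (Λ.D i f) * pderiv k l (Λ'.x i) := fun l => by
    rw [pderiv_sb h0]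
    simp only [← hx, pderiv_sb h0, Finset.mul_sum]
    rw [Finset.sum_comm]
    refine Finset.sum_congr rfl fun a _ => ?_
    rw [Λ.pderiv_eq a f, map_sum, Finset.sum_mul]
    exact Finset.sum_congr rfl fun i _ => by rw [map_mul, mul_assoc]
  have h2 : ∀ i, sb ζ (Λ.D i f) * Λ'.D j (Λ'.x i) =
      ∑ l, Λ'.K l j * (sb ζ (Λ.D i f) * pderiv k l (Λ'.x i)) := fun i => by
    rw [Λ'.D_apply, Finset.mul_sum]
    exact Finset.sum_congr rfl fun l _ => mul_left_comm _ _ _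
  rw [Λ'.D_apply]
  simp only [h1, Finset.mul_sum]
  rw [Finset.sum_comm]
  simp only [← h2, Λ'.D_x, mul_ite, mul_one, mul_zero, Finset.sum_ite_eq', Finset.mem_univ,
    if_true]

omit [CharZero k] [Fintype ι] [DecidableEq ι] [DecidableEq β] in
private theorem cr_coe (q : β → k) (P : β → MvPolynomial ι k) :
    ((∑ b, q b • P b : MvPolynomial ι k) : PS ι k) = ∑ b, C (q b) * (P b : PS ι k) := by
  rw [← MvPolynomial.coeToMvPowerSeries.ringHom_apply, map_sum]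
  refine Finset.sum_congr rfl fun b _ => ?_
  rw [MvPolynomial.smul_eq_C_mul, MvPolynomial.coeToMvPowerSeries.ringHom_apply,
    MvPolynomial.coe_mul, MvPolynomial.coe_C]

omit [CharZero k] in
private theorem cr_der {A n : Type} [CommRing A] [Algebra k A] [Fintype n] (D : Derivation k A A)
    (M N : Matrix n n A) : (M * N).map D = M.map D * N + M * N.map D := by
  ext a b
  simp only [Matrix.map_apply, Matrix.add_apply, Matrix.mul_apply, map_sum, Derivation.leibniz,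
    smul_eq_mul, ← Finset.sum_add_distrib]
  exact Finset.sum_congr rfl fun c _ => by ring

/-- The matrix `W'⁻¹ * W.map (sb ζ)` is constant (`ps_const`); contract
`sb ζ e0 * P ζ = e0' * (P' ᵥ* γ)` with `p0` and `p1 l`. -/
theorem LD.rev (Λ Λ' : LD k ι β) {ζ : ι → PS ι k} (h0 : C0 ζ) (hx : ∀ j, sb ζ (Λ.x j) = Λ'.x j)
    (hA : ∀ j a b, sb ζ (Λ.A j a b) = Λ'.A j a b) (hc : ∀ a, sb ζ (Λ.c0 a) = Λ'.c0 a) :
    ∃ (Q0 : MvPolynomial ι k) (Q1 : ι → MvPolynomial ι k), Q0.coeff 0 ≠ 0 ∧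
      ∀ l, (Q0 : PS ι k) * ζ l = Q1 l := by
  obtain ⟨γ, hγ⟩ : ∃ γ, Λ'.W * γ = Λ.W.map (sb ζ) :=
    ⟨Λ'.W⁻¹ * Λ.W.map (sb ζ), Matrix.mul_nonsing_inv_cancel_left _ _ Λ'.hW⟩
  have h1 : ∀ j, γ.map (Λ'.D j) = 0 := fun j => by
    have h2 : (Λ.W.map (sb ζ)).map (Λ'.D j) = Λ'.A j * Λ.W.map (sb ζ) := by
      have h3 : Λ'.A j = (Λ.A j).map (sb ζ) := Matrix.ext fun a b => (hA j a b).symm
      rw [h3, ← Matrix.map_mul, ← Λ.hA]
      exact Matrix.ext fun a b => cr_D Λ Λ' h0 hx j _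
    have h4 : Λ'.W.map (Λ'.D j) = Λ'.A j * Λ'.W := Λ'.hA j
    rw [← hγ, cr_der, h4, Matrix.mul_assoc, add_eq_left] at h2
    rw [← Matrix.nonsing_inv_mul_cancel_left _ (γ.map (Λ'.D j)) Λ'.hW, h2, Matrix.mul_zero]
  have h2 : ∀ a b, γ a b = C (constantCoeff (γ a b)) := fun a b => ps_const fun l => by
    rw [Λ'.pderiv_eq]
    refine Finset.sum_eq_zero fun j _ => ?_
    rw [show Λ'.D j (γ a b) = 0 from congrFun₂ (h1 j) a b, zero_mul]
  have h3 : ∀ b, sb ζ Λ.e0 * sb ζ (Λ.P b) =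
      Λ'.e0 * ((∑ a, constantCoeff (γ a b) • Λ'.P a : MvPolynomial ι k) : PS ι k) := fun b => by
    have h4 : (fun a => sb ζ (Λ.c0 a)) = Λ'.c0 := funext hc
    rw [← map_mul, Λ.hc, RingHom.map_vecMul, ← hγ, Function.comp_def, h4, ← Matrix.vecMul_vecMul,
      cr_coe, Finset.mul_sum]
    refine Finset.sum_congr rfl fun a _ => ?_
    rw [← Λ'.hc, ← h2, mul_assoc, mul_comm (γ a b)]
  have h4 : ∀ q : β → k, sb ζ Λ.e0 * sb ζ ((∑ b, q b • Λ.P b : MvPolynomial ι k) : PS ι k) =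
      Λ'.e0 * ((∑ b, q b • ∑ a, constantCoeff (γ a b) • Λ'.P a : MvPolynomial ι k) : PS ι k) := by
    intro q
    rw [cr_coe, cr_coe, map_sum, Finset.mul_sum, Finset.mul_sum]
    refine Finset.sum_congr rfl fun b _ => ?_
    rw [map_mul, evx_C h0.ev, mul_left_comm, h3, mul_left_comm]
  have h5 := h4 Λ.p0
  rw [Λ.h0, MvPolynomial.coe_one, map_one, mul_one] at h5
  refine ⟨∑ b, Λ.p0 b • ∑ a, constantCoeff (γ a b) • Λ'.P a,
    fun l => ∑ b, Λ.p1 l b • ∑ a, constantCoeff (γ a b) • Λ'.P a, fun h => ?_,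
    fun l => Λ'.he.mul_left_cancel ?_⟩
  · have h6 := congrArg constantCoeff h5
    have h7 : ∀ Q : MvPolynomial ι k, constantCoeff (Q : PS ι k) = Q.coeff 0 := fun Q =>
      MvPolynomial.coeff_coe Q 0
    rw [const_sb h0, map_mul, h7, h, mul_zero] at h6
    exact (Λ.he.map constantCoeff).ne_zero h6
  · rw [← mul_assoc, ← h5, ← h4, Λ.h1, MvPolynomial.coe_X, evx_X h0.ev]

omit [CharZero k] in
theorem VLf.arc {Z τ S : Type} [CommRing Z] [CommRing S] [IsDomain S] {j : Z →+* k}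
    {𝓗 : Set (MvPolynomial ι Z)} {P : τ → Polynomial (MvPolynomial ι k)} (Λ : LD k ι β)
    (h : VLf j (fun l => constantCoeff (Λ.x l)) 𝓗 P) (Φ : PS ι k →+* S)
    (h0 : ∀ f, Φ f = 0 → constantCoeff f = 0)
    (hH : ∀ H ∈ 𝓗, MvPolynomial.eval₂ (Φ.comp (C.comp j)) (fun l => Φ (Λ.x l)) H = 0) (t : τ)
    {G : PS ι k} (hG : constantCoeff G = 0)
    (hP : (P t).eval₂ (MvPolynomial.eval₂Hom C Λ.x) G = 0) : Φ G = 0 :=
  h _ C Λ.x (fun l => (Λ.D l : PS ι k →ₗ[k] PS ι k).toAddMonoidHom) (RingHom.ker Φ) constantCoeff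
    ⟨fun l a b => (Λ.D l).leibniz a b, fun l a => (Λ.D l).map_algebraMap a, fun l i => Λ.D_x l i⟩
    (RingHom.ker_isPrime Φ) h0 (RingHom.ext fun a => constantCoeff_C (σ := ι) a) (fun _ => rfl)
    (fun H hh => (MvPolynomial.eval₂_comp_left Φ _ _ H).trans (hH H hh)) t G hG hP

/-- Apply `as_main` to `LD.exists_map` and the arcs `sb (y i) (map (σ i) (ζ l))`. -/
theorem as_two [Nonempty ι] (Λ Λ' : LD k ι β) {ζ : ι → PS ι k} (h0 : C0 ζ) (hx : ∀ j, sb ζ (Λ.x j) = Λ'.x j)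
    {Q0 : MvPolynomial ι k} {Q1 : ι → MvPolynomial ι k} (hQ : Q0.coeff 0 ≠ 0)
    (hQ1 : ∀ l, (Q0 : PS ι k) * ζ l = Q1 l) {σ : Fin m → k →+* k}
    (hσ : ∀ i, Function.Bijective (σ i)) (𝔄 : Subalgebra k (PS (Fin m × ι) k))
    (h𝔄 : ∀ i j, rename (Prod.mk i) (MvPowerSeries.map (σ i) (Λ.x j)) ∈ 𝔄) {Z τ : Type}
    [CommRing Z] {g u : τ → PS ι k} {N : ℕ}
    (hG : GenV r 𝔄 {f | ∃ i t, f = rename (Prod.mk i) (MvPowerSeries.map (σ i) (g t))})
    {y : Fin m → ι → PS Unit k} (hy : ∀ i, C0 (y i)) (hz : ∀ i, y i ≠ 0) (hm : 0 < m)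
    (h1 : Dep k r fun q : Fin m × ι => y q.1 q.2) {j0 : Z →+* k} (hj : ∀ i, (σ i).comp j0 = j0)
    {𝓗 : Set (MvPolynomial ι Z)} {P : τ → Polynomial (MvPolynomial ι k)} (hP : ∀ t, P t ≠ 0)
    (hv : VLf j0 (fun l => constantCoeff (Λ.x l)) 𝓗 P) (hu : ∀ t, IsUnit (u t))
    (hg : ∀ t, constantCoeff (g t) = 0)
    (hr : ∀ t, (P t).eval₂ (MvPolynomial.eval₂Hom C Λ.x) (g t ^ (N + 1) * u t) = 0)
    (h2 : ∀ H ∈ 𝓗, ∀ i, MvPolynomial.eval₂ (C.comp j0)
      (fun j => sb (y i) (MvPowerSeries.map (σ i) (Λ'.x j))) H = 0) : False := by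
  choose Γ hΓ using fun i => Λ.exists_map (hσ i)
  choose Γ' hΓ' using fun i => Λ'.exists_map (hσ i)
  have h3 : ∀ i j, sb (fun l => sb (y i) (MvPowerSeries.map (σ i) (ζ l))) ((Γ i).x j) =
      sb (y i) (MvPowerSeries.map (σ i) (Λ'.x j)) := fun i j => by
    rw [hΓ, ← cr_sb (cr_c0 h0 _) (hy i), ← map_sb h0, hx]
  have hc : ∀ i, C0 fun l => sb (y i) (MvPowerSeries.map (σ i) (ζ l)) := fun i l => by
    rw [const_sb (hy i)]
    exact cr_c0 h0 _ l
  refine as_main Γ 𝔄 (fun i j => by rw [hΓ]; exact h𝔄 i j) hG hc (fun i h => hz i ?_) hm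
    (h1.alg fun q => ?_) ?_
  rotate_right
  · rintro _ ⟨i, t, rfl⟩
    refine ⟨i, _, MvPowerSeries.map (σ i) (u t), N, (hu t).map _, rfl, ?_, ?_⟩
    · rw [← map_pow, ← map_mul, funext (hΓ i)]
      refine algS_map (σ i) _ (fun c => map_C _ c) (cr_inj (hσ i).1)
        (algS_root (P := P t) (fun e => hP t ?_) (hr t))
      exact Polynomial.map_injective _ (indep_of_jac Λ.jac_unit)
        (e.trans (Polynomial.map_zero _).symm)
    · have h4 := hv.arc Λ ((sb fun l => sb (y i) (MvPowerSeries.map (σ i) (ζ l))).comp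
        (MvPowerSeries.map (σ i))) (fun f hf => (hσ i).1 (by
          have h5 := congrArg constantCoeff hf
          rwa [RingHom.comp_apply, const_sb (hc i), constantCoeff_map, map_zero,
            ← map_zero (σ i)] at h5)) (fun H hH => by
          rw [← h2 H hH i]
          refine congrArg₂ (MvPolynomial.eval₂ · · H) (RingHom.ext fun z => ?_)
            (funext fun l => by rw [RingHom.comp_apply, ← hΓ, h3])
          simp only [RingHom.comp_apply, map_C, evx_C (hc i).ev]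
          exact congrArg C (RingHom.congr_fun (hj i) z)) t
        (by rw [map_mul, map_pow, hg, zero_pow N.succ_ne_zero, zero_mul]) (hr t)
      rw [map_mul, map_pow, ((hu t).map _).mul_left_eq_zero] at h4
      exact pow_eq_zero_iff N.succ_ne_zero |>.1 h4
  · refine evx_inj (Γ' i).jac_unit (φ := C) (hy i).ev (C0.ev fun _ => map_zero _) fun j => ?_
    have h4 : (fun l => sb (y i) (MvPowerSeries.map (σ i) (ζ l))) = fun _ => 0 := h
    rw [hΓ', ← h3, h4, evx_zero, hΓ, ← hx, map_sb h0]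
    exact ((evx_zero _).trans (congrArg C (const_sb (cr_c0 h0 _) _))).symm
  · have h4 : ∀ Q : MvPolynomial ι k, sb (y q.1) (MvPowerSeries.map (σ q.1) (Q : PS ι k)) ∈
        algS k fun q : Fin m × ι => y q.1 q.2 := fun Q => by
      induction Q using MvPolynomial.induction_on with
      | C a =>
        rw [MvPolynomial.coe_C, map_C, evx_C (hy _).ev]
        exact Subalgebra.algebraMap_mem _ _
      | add f g hf hg =>
        rw [MvPolynomial.coe_add, map_add, map_add]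
        exact add_mem hf hg
      | mul_X f j hf =>
        rw [MvPolynomial.coe_mul, map_mul, map_mul, MvPolynomial.coe_X, map_X, evx_X (hy _).ev]
        exact mul_mem hf (self_mem_algS (x := fun q : Fin m × ι => y q.1 q.2) (q.1, j))
    refine algS_div (h4 Q0) (fun h => hQ ((hσ q.1).1 ?_)) ?_
    · have h5 := congrArg constantCoeff h
      rw [const_sb (hy _), constantCoeff_map, ← coeff_zero_eq_constantCoeff_apply,
        MvPolynomial.coeff_coe, map_zero] at h5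
      rw [h5, map_zero]
    · rw [← map_mul, ← map_mul, hQ1]
      exact h4 _

variable {p : ℕ} [Fact p.Prime] {Co : Cone ι} {R : Type} [CommRing R] {S : TW p Co R} {E : Fr S}
  {ψ : R →+* ℂ_[p]}

/-- The arcs are `map e (p ^ 2 * z i l)`; `XE_eq`, `map_sb`, `evx_sb`, `Dep.map`, `dep_iff`. -/
theorem Fr.Gp.Out.dep {h : E.Gp ψ} {ρ : Fin m → ℂ_[p] →+* ℂ_[p]}
    {𝓗 : Set (MvPolynomial ι ℤ_[p])} (ho : h.Out r ρ 𝓗) (e : ℂ_[p] ≃+* k)
    {τ : R →+* PS ι ℂ_[p]} (hτ : S.Ts ψ τ) :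
    ∃ y : Fin m → ι → PS Unit k, (∀ i, C0 (y i)) ∧ (∀ i, y i ≠ 0) ∧
      (Dep k r fun q : Fin m × ι => y q.1 q.2) ∧ ∀ H ∈ 𝓗, ∀ i,
        MvPolynomial.eval₂ (C.comp ((e : ℂ_[p] →+* k).comp (UAP.zp p))) (fun j => sb (y i)
          (MvPowerSeries.map ((e : ℂ_[p] →+* k).comp ((ρ i).comp (e.symm : k →+* ℂ_[p])))
            (MvPowerSeries.map (e : ℂ_[p] →+* k) (E.xc τ j)))) H = 0 := by
  obtain ⟨z, z0, z1, z2, z3⟩ := ho
  have hp : (p : PS Unit ℂ_[p]) ≠ 0 := by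
    rw [← map_natCast (C : ℂ_[p] →+* PS Unit ℂ_[p])]
    exact fun h0 => (Nat.cast_ne_zero.2 (Fact.out : p.Prime).ne_zero)
      (C_injective (h0.trans (map_zero _).symm))
  have hw : ∀ i, C0 fun l => (p : PS Unit ℂ_[p]) ^ 2 * z i l := fun i l => by
    rw [map_mul, z0 i l, mul_zero]
  have hX : C0 fun l : ι => (p : PS ι ℂ_[p]) ^ 2 * X l := fun l => by
    rw [map_mul, constantCoeff_X, mul_zero]
  have he : ∀ c, MvPowerSeries.map (σ := Unit) (e : ℂ_[p] →+* k) (algebraMap ℂ_[p] _ c) =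
      algebraMap k _ ((e : ℂ_[p] →+* k) c) := fun c => map_C _ c
  refine ⟨fun i l => MvPowerSeries.map (e : ℂ_[p] →+* k) ((p : PS Unit ℂ_[p]) ^ 2 * z i l),
    fun i => cr_c0 (hw i) _, fun i h0 => z1 i (funext fun l => ?_),
    Dep.map (x := fun q : Fin m × ι => (p : PS Unit ℂ_[p]) ^ 2 * z q.1 q.2) _ _ he
      (z2.alg fun q => mul_mem (pow_mem (natCast_mem _ p) 2)
        (self_mem_algS (x := fun q : Fin m × ι => z q.1 q.2) q)), fun H hH i => ?_⟩
  · exact (mul_eq_zero.1 (cr_inj (ρ := (e : ℂ_[p] →+* k)) e.injective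
      ((congrFun h0 l).trans (map_zero _).symm))).resolve_left (pow_ne_zero 2 hp)
  · have h1 := congrArg (MvPowerSeries.map (σ := Unit) (e : ℂ_[p] →+* k)) (z3 H hH i)
    rw [MvPolynomial.eval₂_comp_left, map_zero] at h1
    refine Eq.trans (congrArg₂ (MvPolynomial.eval₂ · · H)
      (RingHom.ext fun a => (map_C (e : ℂ_[p] →+* k) (UAP.zp p a)).symm)
      (funext fun j => Eq.symm ?_)) h1
    rw [Function.comp_apply]
    have h3 : (fun l => sb (z i) (MvPowerSeries.map (ρ i) ((p : PS ι ℂ_[p]) ^ 2 * X l))) =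
        fun l => (p : PS Unit ℂ_[p]) ^ 2 * z i l := funext fun l => by
      rw [map_mul, map_mul, map_pow, map_pow, map_natCast, map_natCast, map_X, evx_X (z0 i).ev]
    rw [MvPowerSeries.map_comp, RingHom.comp_apply, h.XE_eq hτ, map_sb hX,
      cr_sb (cr_c0 hX _) (z0 i), h3, map_sb (hw i)]
    refine congrArg _ (MvPowerSeries.ext fun ν => ?_)
    simp only [coeff_map, RingHom.comp_apply, RingHom.coe_coe, RingEquiv.symm_apply_apply]

end Pool.Agent.E7
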