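import Pool.Agent.Lib.MP_7e5527_ag.EA.CA
import Pool.Agent.Lib.MP_7e5527_ag.EA.CB
import Pool.Agent.Lib.MP_7e5527_ag.EA.CR
import Pool.Agent.Lib.MP_7e5527_ag.EO.DMain
import Pool.Agent.Lib.MP_7e5527_ag.E7.PBas
import Pool.Agent.Lib.MP_7e5527_ag.EO.G1

/-! The contradiction at one point. -/

open MvPowerSeries Filter Topology Matrix

noncomputable section

namespace Pool.Agent.E7

variable {p : ℕ} [Fact p.Prime] {e : ℂ_[p] ≃+* ℂ} {Δ : Subgroup Gb} {k0 m r d : ℕ}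

private theorem cc_c (hn : ∀ B ∈ Lam, nE (toR ℂ B) ∈ Δ) {n : ℤ} {G : MvPolynomial Ix (RQ e)}
    (h : MI Δ n (MvPolynomial.aeval yF G)) : ∃ F : RQ e, G = MvPolynomial.C F ∧ MI Δ n F := by
  have h1 := poly_periodic oo_le G (k := n) one_pos fun B hB =>
    h.2 _ (hn _ (by rwa [Nat.cast_one, one_smul]))
  refine ⟨G.coeff 0, h1, ?_⟩
  rw [h1, MvPolynomial.aeval_C] at h
  exact h

private theorem cc_span {D : ℕ} {b : Fin D → MvPolynomial Ix ℚ} {ν : Ix →₀ ℕ} {ρ : Fin D → ℚ}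
    (h : MvPolynomial.monomial ν 1 = ∑ α, ρ α • b α) :
    ∑ α, (ρ α : ℂ) • MvPolynomial.map (algebraMap ℚ ℂ) (b α) = MvPolynomial.monomial ν 1 := by
  have h1 := congrArg (MvPolynomial.map (algebraMap ℚ ℂ)) h
  rw [MvPolynomial.map_monomial, map_one, map_sum] at h1
  rw [h1]
  refine Finset.sum_congr rfl fun α _ => ?_
  rw [MvPolynomial.smul_eq_C_mul, MvPolynomial.smul_eq_C_mul, map_mul, MvPolynomial.map_C]
  rfl

private theorem cc_ae (P : MvPolynomial Ix ℚ) :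
    MvPolynomial.aeval yF (MvPolynomial.aeval (MvPolynomial.X : Ix → MvPolynomial Ix (RQ e))
      (MvPolynomial.map (algebraMap ℚ ℂ) P)) = pF P := by
  rw [pF_eq]
  generalize MvPolynomial.map (algebraMap ℚ ℂ) P = G
  induction G using MvPolynomial.induction_on with
  | C a =>
    rw [MvPolynomial.aeval_C, MvPolynomial.aeval_C, MvPolynomial.algebraMap_apply,
      MvPolynomial.aeval_C]
    rfl
  | add f g hf hg => rw [map_add, map_add, map_add, hf, hg]
  | mul_X f j hf =>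
    rw [map_mul, map_mul, map_mul, hf, MvPolynomial.aeval_X, MvPolynomial.aeval_X,
      MvPolynomial.aeval_X]

/-- `exists_dP`, `exists_PB`, `dk_mi`, `psf_mi`, `gfh`; `Fm n` is the group of the `G` with
`MI Δ n (aeval yF G)`; `aeval_yF_inj`. -/
theorem exists_fs (hΔ : Δ ≤ GamP) (hi : Δ.relIndex Gam ≠ 0) (hn : ∀ B ∈ Lam, nE (toR ℂ B) ∈ Δ)
    (hk : 0 < k0) (f : Option Ix → RQ e) (hf : ∀ o, MI Δ k0 (f o)) :
    ∃ (D : ℕ) (𝔉 : FS ℂ Ix (Fin D) (MvPolynomial Ix (RQ e)))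
      (δ : Ix → Derivation ℤ (MvPolynomial Ix (RQ e)) (MvPolynomial Ix (RQ e))),
      𝔉.k0 = k0 ∧ (𝔉.f = fun o => MvPolynomial.C (f o)) ∧ (𝔉.d = fun i G => δ i G) ∧
      (∀ i c, δ i (MvPolynomial.C c) = MvPolynomial.C ((TWE e).del i c)) ∧
      (∀ i j, δ i (MvPolynomial.X j) = if i = j then
        MvPolynomial.C (algebraMap ℂ (RQ e) (2 * Real.pi * Complex.I)⁻¹) else 0) ∧
      (∀ i G, MvPolynomial.aeval yF (δ i G) = dl i (MvPolynomial.aeval yF G)) ∧
      ∀ n, ∀ G ∈ 𝔉.Fm n, ∃ F : RQ e, G = MvPolynomial.C F ∧ MI Δ n F := by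
  have hΓ : Δ ≤ Gam := hΔ.trans GamP_le
  obtain ⟨δ, g1, g2, g3⟩ := exists_dP (𝒮 := RQ e) (oo_le.trans GQ_le_Hol)
    fun i F hF => RQ.dl_mem i ⟨F, hF⟩
  obtain ⟨P⟩ := exists_PB k0
  obtain ⟨ρ0, h0⟩ := P.span 0 (by simp)
  choose ρ1 h1 using fun l : Ix => P.span (Finsupp.single l 1)
    (by rw [Finsupp.sum_single_index rfl]; exact hk)
  let σ : MvPolynomial Ix (RQ e) →+* Fn :=
    (MvPolynomial.aeval yF : MvPolynomial Ix (RQ e) →ₐ[RQ e] Fn).toRingHom
  have hσ : ∀ G, σ G = MvPolynomial.aeval yF G := fun _ => rfl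
  have hC : ∀ F : RQ e, σ (MvPolynomial.C F) = F := fun F => MvPolynomial.aeval_C yF F
  have hf' : (fun o => σ (MvPolynomial.C (f o))) = fun o => (f o : Fn) := funext fun o => hC _
  obtain ⟨D0, hD⟩ := gfh e hΓ hi k0
  refine ⟨P.D,
    { d := fun i G => δ i G
      k0 := k0
      pos := hk
      ws := 27 * k0 + 18
      f := fun o => MvPolynomial.C (f o)
      y := MvPolynomial.X
      κ0 := (2 * Real.pi * Complex.I)⁻¹
      hκ := inv_ne_zero Complex.two_pi_I_ne_zero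
      dy := g2
      P := fun b => MvPolynomial.map (algebraMap ℚ ℂ) (P.b b)
      hP := Fintype.linearIndependent_iff.2 fun κ h => congrFun (P.indep κ h)
      p0 := fun b => ρ0 b
      p1 := fun l b => ρ1 l b
      h0 := cc_span h0
      h1 := fun l => cc_span (h1 l)
      Fm := fun n =>
        { carrier := {G | MI Δ n (σ G)}
          zero_mem' := by
            change MI Δ n (σ 0)
            rw [map_zero]
            exact ⟨MF.zero _, Inv.zero _ _⟩
          add_mem' := fun {F G} hF hG => by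
            change MI Δ n (σ (F + G))
            rw [map_add]
            exact ⟨hF.1.add hG.1, hF.2.add hG.2⟩
          neg_mem' := fun {F} hF => by
            change MI Δ n (σ (-F))
            rw [map_neg, ← neg_one_smul ℂ]
            exact ⟨hF.1.smul _, hF.2.smul _⟩ }
      one := by
        change MI Δ (0 : ℕ) (σ 1)
        rw [map_one]
        exact ⟨MF.one, Inv.one _⟩
      mul := fun {n n' F G} hF hG => by
        change MI Δ (n + n' : ℕ) (σ (F * G))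
        rw [map_mul, Nat.cast_add]
        exact MI.mul hΓ hF hG
      fm := fun o => by
        change MI Δ k0 (σ _)
        rw [hC]
        exact hf o
      dk := fun j {n G} hG => by
        change MI Δ _ (σ _)
        rw [Wr.map_Dk (dl := fun i G => δ i G) (dl' := dl) σ g3, hf']
        exact dk_mi hΔ hi hf j hG
      psi := fun ν ν' => by
        change MI Δ _ (σ _)
        have h2 : (fun b => σ (MvPolynomial.C (f none) * MvPolynomial.aeval MvPolynomial.X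
            (MvPolynomial.map (algebraMap ℚ ℂ) (P.b b)))) = fun b => (f none : Fn) * pF (P.b b) :=
          funext fun b => by rw [map_mul, hC, hσ, cc_ae]
        rw [map_mul, map_Psw (d := fun i G => δ i G) (d' := dl) σ g3,
          map_Psw (d := fun i G => δ i G) (d' := dl) σ g3, hf', h2]
        exact psf_mi hΔ hi hf P ν ν'
      alg := fun a G hG => by
        obtain ⟨F, rfl, hF⟩ := cc_c hn hG
        rw [Nat.cast_mul] at hF
        obtain ⟨R, r1, r2, -, r3⟩ := (hD (fun o => f o) a F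
          (fun o => ⟨(hf o).1, (hf o).2, (f o).2.2⟩) hF.1 hF.2 F.2.2).1
        refine ⟨R, r1, r2, aeval_yF_inj oo_le ?_⟩
        rw [map_zero, ← hσ, Polynomial.hom_eval₂, hC, ← r3]
        congr 1
        refine MvPolynomial.ringHom_ext (fun c => ?_) fun o => ?_
        · rw [RingHom.comp_apply, MvPolynomial.eval₂Hom_C, MvPolynomial.eval₂Hom_C,
            MvPolynomial.algebraMap_apply, hC]
          rfl
        · rw [RingHom.comp_apply, MvPolynomial.eval₂Hom_X', MvPolynomial.eval₂Hom_X', hC] },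
    δ, rfl, rfl, rfl, g1, g2, g3, fun n G hG => cc_c hn hG⟩

private theorem cc_inv {A B : Type} [CommRing A] [CommRing B] (φ : A →+* B) {u : A}
    (h : IsUnit u) : φ (Ring.inverse u) = Ring.inverse (φ u) := by
  obtain ⟨v, rfl⟩ := h
  rw [Ring.inverse_unit]
  exact (Ring.inverse_unit (Units.map (φ : A →* B) v)).symm

private theorem cc_der {A K : Type} [CommRing A] [Field K] (φ : A →+* PS Ix K) (a : A) (κ : K)
    (d0 : Ix → A → A) (δ : Ix → Derivation ℤ (MvPolynomial Ix A) (MvPolynomial Ix A))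
    (ha : φ a = C κ) (h0 : ∀ l F, pderiv K l (φ F) = φ (d0 l F))
    (h1 : ∀ i c, δ i (MvPolynomial.C c) = MvPolynomial.C (d0 i c))
    (h2 : ∀ i j, δ i (MvPolynomial.X j) = if i = j then MvPolynomial.C a else 0) (l : Ix)
    (G : MvPolynomial Ix A) :
    pderiv K l (MvPolynomial.eval₂Hom φ (fun j => C κ * X j) G) =
      MvPolynomial.eval₂Hom φ (fun j => C κ * X j) (δ l G) := by
  induction G using MvPolynomial.induction_on with
  | C c => rw [h1, MvPolynomial.eval₂Hom_C, MvPolynomial.eval₂Hom_C, h0]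
  | add f g hf hg => rw [map_add, map_add, map_add, map_add, hf, hg]
  | mul_X f j hf =>
    rw [map_mul, Derivation.leibniz, Derivation.leibniz, hf, h2, smul_eq_mul, smul_eq_mul,
      smul_eq_mul, smul_eq_mul, map_add, map_mul, map_mul, MvPolynomial.eval₂Hom_X']
    congr 2
    rw [← smul_eq_C_mul, Derivation.map_smul, pderiv_X]
    by_cases h : l = j
    · subst h
      rw [if_pos rfl, MvPolynomial.eval₂Hom_C, ha]
      simp [smul_eq_C_mul]
    · rw [if_neg h, map_zero]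
      simp [Ne.symm h]

/-- A relation between a form and the frame that holds at every point. -/
theorem exists_rel (hΔ : Δ ≤ Gam) (hi : Δ.relIndex Gam ≠ 0) {f : Option Ix → RQ e}
    (hf : ∀ o, MI Δ k0 (f o)) {w : ℕ} {F : RQ e} (hF : MI Δ w F) :
    ∃ P : Polynomial (MvPolynomial Ix ℂ), P ≠ 0 ∧ ∀ (T : RQ e →+* PS Ix ℂ) (v : PS Ix ℂ),
      (∀ a, T (algebraMap ℂ _ a) = C a) → v * T (f none) = 1 → P.eval₂
        (MvPolynomial.eval₂Hom C fun j => T (f (some j)) * v) (T F ^ k0 * v ^ w) = 0 := by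
  obtain ⟨D0, hD⟩ := gfh e hΔ hi k0
  have h1 := hF.pow hΔ k0
  rw [mul_comm] at h1
  obtain ⟨R, h0, ⟨L, hL⟩, -, hR⟩ := (hD (fun o => f o) w ((F : Fn) ^ k0)
    (fun o => ⟨(hf o).1, (hf o).2, (f o).2.2⟩) h1.1 h1.2 (pow_mem F.2.2 _)).1
  have h2 : R.eval₂ (MvPolynomial.aeval f : _ →ₐ[ℂ] RQ e).toRingHom (F ^ k0) = 0 := by
    refine Subtype.ext ((Polynomial.hom_eval₂ R _ (RQ e).val.toRingHom _).trans
      (Eq.trans ?_ hR))
    congr 1
    refine MvPolynomial.ringHom_ext (fun r => ?_) fun l => ?_ <;> simp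
  let D : MvPolynomial (Option Ix) ℂ →ₐ[ℂ] MvPolynomial Ix ℂ :=
    MvPolynomial.aeval fun o => o.elim 1 MvPolynomial.X
  refine ⟨R.map D.toRingHom, fun h => h0 (Polynomial.ext fun j => by_contra fun hj => ?_),
    fun T v hT hv => ?_⟩
  · obtain ⟨d, -, hd⟩ := hL j hj
    exact hj (FS.cf2_deh hd ((Polynomial.coeff_map _ _).symm.trans
      (congrArg (Polynomial.coeff · j) h)))
  · have h3 := congrArg (fun G => v ^ L * T G) h2
    simp only [map_zero, mul_zero] at h3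
    rw [Polynomial.eval₂_map, ← h3, Polynomial.eval₂_eq_sum, Polynomial.eval₂_eq_sum,
      Polynomial.sum, Polynomial.sum, map_sum, Finset.mul_sum]
    refine Finset.sum_congr rfl fun j hj => ?_
    obtain ⟨d, rfl, hd⟩ := hL j (Polynomial.mem_support_iff.1 hj)
    have h4 : MvPolynomial.aeval (fun j => T (f (some j)) * v) (D (R.coeff j)) =
        v ^ d * T (MvPolynomial.aeval f (R.coeff j)) := by
      rw [FS.cf2_hom T _ hT, ← wrc2_scale hd, MvPolynomial.comp_aeval_apply]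
      refine congrArg (fun v => MvPolynomial.aeval v (R.coeff j)) (funext fun o => ?_)
      cases o with
      | none => simp [hv]
      | some i => simp [mul_comm]
    refine (congrArg (· * _) h4).trans ?_
    rw [map_mul, map_pow, map_pow]
    change _ = _ * (T (MvPolynomial.aeval f (R.coeff j)) * _)
    ring

/-- The two Taylor maps are `T ∘ aeval yF` and `eval₂ (map e ∘ τ) (fun j => C (2 π i)⁻¹ * X j)`;
`Fr.br_eq`, `Jm_det`, `FS.exists_ld`, `LD.rev`, `as_two`, `Out.dep`, `iso_surj`. -/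
theorem cx_main (hΔ : Δ ≤ GamP) (hi : Δ.relIndex Gam ≠ 0) (hn : ∀ B ∈ Lam, nE (toR ℂ B) ∈ Δ)
    (hk : 0 < k0) (E : Fr (TWE e)) (hE : ∀ o, MI Δ k0 (E.oe o)) {ψ : RQ e →+* ℂ_[p]}
    (hψ : E.Gp ψ) (hl : (TWE e).Lin ψ) (Z : HH) {c : ℂ} (hc : c ≠ 0)
    (hv : ∀ (n : ℕ) (F : RQ e), MI Δ n F → (F : Fn) Z = c ^ n * e (ψ F))
    {ρ : Fin m → ℂ_[p] →+* ℂ_[p]} (hρ : ∀ i, UAP.Iso (ρ i)) {τ : Type} {F : τ → RQ e}
    {w : τ → ℕ} (hF : ∀ t, (F t : Fn) Z = 0)
    (hG : GenV r (Afn (fun i => (e : ℂ_[p] →+* ℂ).comp ((ρ i).comp (e.symm : ℂ →+* ℂ_[p]))) Z)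
      {f | ∃ i t, f = rename (Prod.mk i) (MvPowerSeries.map ((e : ℂ_[p] →+* ℂ).comp
        ((ρ i).comp (e.symm : ℂ →+* ℂ_[p]))) (tay (ext (F t)) Z))})
    {𝓗 : Set (MvPolynomial Ix ℤ_[p])} {P : τ → Polynomial (MvPolynomial Ix ℂ)}
    (hP : ∀ t, P t ≠ 0 ∧ ∀ (T : RQ e →+* PS Ix ℂ) (v : PS Ix ℂ),
      (∀ a, T (algebraMap ℂ _ a) = C a) → v * T (E.oe none) = 1 → (P t).eval₂
        (MvPolynomial.eval₂Hom C fun j => T (E.oe (some j)) * v) (T (F t) ^ k0 * v ^ w t) = 0)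
    (hL : VLf ((e : ℂ_[p] →+* ℂ).comp (UAP.zp p)) (fun l => (e : ℂ_[p] →+* ℂ) (E.xc ψ l)) 𝓗 P)
    (ho : hψ.Out r ρ 𝓗) (h0 : 0 < m) : False := by
  obtain ⟨D, 𝔉, δ, e1, e2, e3, g1, g2, g3, g4⟩ := exists_fs hΔ hi hn hk E.oe hE
  obtain ⟨T, t1, t2, t3, t4⟩ := exists_tayH Z
  obtain ⟨τs, hs⟩ := (TWE e).exists_ts ψ
  have hH : RQ e ≤ Hol := oo_le.trans GQ_le_Hol
  obtain ⟨α, hα⟩ : ∃ α : MvPolynomial Ix (RQ e) →+* Hol,
      ∀ G, (α G : Fn) = MvPolynomial.aeval yF G :=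
    ⟨MvPolynomial.eval₂Hom (Subalgebra.inclusion hH).toRingHom fun j => ⟨yF j, isHol_yF j⟩,
      fun G => MvPolynomial.eval₂_comp_left Hol.val.toRingHom _ _ G⟩
  have hαC : ∀ F : RQ e, (α (MvPolynomial.C F) : Fn) = F := fun F => by
    rw [hα, MvPolynomial.aeval_C]
    rfl
  have hs' := hs.map (e : ℂ_[p] →+* ℂ)
  generalize hφ : (MvPowerSeries.map (e : ℂ_[p] →+* ℂ)).comp τs = φ at hs'
  have hφc : ∀ a : ℂ, φ (algebraMap ℂ (RQ e) a) = C a := fun a => by
    have h1 : ∀ l, (TWE e).del l (algebraMap ℂ (RQ e) a) = 0 := fun l => Subtype.ext (dl_const l a)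
    have h2 : algebraMap ℂ (RQ e) a = (TWE e).cst (e.symm a) :=
      congrArg (algebraMap ℂ (RQ e)) (e.apply_symm_apply a).symm
    rw [ps_const (f := φ _) fun l => by rw [hs'.der, h1, map_zero], hs'.const, h2,
      RingHom.comp_apply, hl]
    exact congrArg C (e.apply_symm_apply a)
  obtain ⟨τ', u1, u2⟩ : ∃ τ' : MvPolynomial Ix (RQ e) →+* PS Ix ℂ,
      (∀ F, τ' (MvPolynomial.C F) = φ F) ∧ ∀ l G, pderiv ℂ l (τ' G) = τ' (δ l G) :=
    ⟨_, fun F => MvPolynomial.eval₂Hom_C _ _ F,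
      cc_der φ _ _ (TWE e).del δ (hφc _) hs'.der g1 g2⟩
  have hne : ∀ {x : ℂ_[p]}, IsUnit x → e x ≠ 0 := fun hx => (hx.map e).ne_zero
  have hcp : 𝔉.Cp (T.comp α) τ' := ⟨c, hc, fun n G hG => by
    obtain ⟨F, rfl, hF⟩ := g4 n G hG
    rw [RingHom.comp_apply, t2, hαC, hv n F hF, u1, hs'.const]
    rfl⟩
  have hm' : 𝔉.TM τ' := by
    refine ⟨fun a => ?_, ⟨1, by rw [Matrix.det_one]; exact isUnit_one, fun l G => ?_⟩, ?_, ?_⟩
    · rw [MvPolynomial.algebraMap_apply, u1, hφc]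
    · rw [u2, e3, Finset.sum_eq_single l (fun i _ h => by
        rw [Matrix.one_apply_ne h, map_zero, zero_mul]) (fun h => absurd (Finset.mem_univ l) h),
        Matrix.one_apply_eq, map_one, one_mul]
    · rw [e2, u1, hs'.const]
      exact hne hψ.unit
    · rw [FS.br, e1, e2, e3, ← Wr.map_br (dl := (TWE e).del) (dl' := fun i G => δ i G)
        MvPolynomial.C fun i x => (g1 i x).symm, u1, hs'.const, RingHom.comp_apply,
        Fr.br_eq hψ.unit]
      exact hne (((Int.cast_ne_zero.2 (Nat.cast_ne_zero.2 hk.ne')).isUnit.mul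
        (hψ.unit.pow _)).mul hψ.Jm_det.isUnit)
  have hm : 𝔉.TM (T.comp α) := by
    obtain ⟨c', c1, c2⟩ := hcp
    refine ⟨fun a => ?_, ⟨ycM, ycM_unit, fun l G => ?_⟩, ?_, ?_⟩
    · rw [← t3]
      exact congrArg T (Subtype.ext (hαC _))
    · rw [RingHom.comp_apply, t4, e3]
      refine Finset.sum_congr rfl fun i _ => congrArg (fun x => _ * T x) (Subtype.ext ?_)
      rw [dH_coe, hα, hα, g3]
    · rw [c2 _ _ (𝔉.fm none)]
      exact mul_ne_zero (pow_ne_zero _ c1) hm'.e0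
    · rw [c2 _ _ FS.br_fm]
      exact mul_ne_zero (pow_ne_zero _ c1) hm'.br
  obtain ⟨Λ, Λ', ζ, a1, a2, a3, a4, a5, a6⟩ := FS.exists_ld hm hm' hcp
  obtain ⟨Q0, Q1, q0, q1⟩ := LD.rev Λ Λ' a3 a4 a5 a6
  obtain ⟨y, y1, y2, y3, y4⟩ := ho.dep e hs
  have hT' : ∀ G : RQ e, T.comp α (MvPolynomial.C G) = tay (ext G) Z := fun G => by
    rw [RingHom.comp_apply, t1, hαC]
  have hT : ∀ o, T.comp α (𝔉.f o) = tay (ext (E.oe o)) Z := fun o => by rw [e2, hT']
  have hu : IsUnit (τs E.e0) := by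
    rw [isUnit_iff_constantCoeff, hs.const]
    exact hψ.unit
  have h1 : Λ'.x = fun j => MvPowerSeries.map (e : ℂ_[p] →+* ℂ) (E.xc τs j) := by
    funext j
    rw [a2, FS.xs, e2, u1, u1, ← hφ, Fr.xc, Fr.nz, pow_one, map_mul, cc_inv _ hu]
    rfl
  have h2 : IsUnit (T.comp α (𝔉.f none)) := isUnit_iff_constantCoeff.2 hm.e0.isUnit
  obtain ⟨N, hN⟩ := Nat.exists_eq_add_one_of_ne_zero hk.ne'
  refine as_two Λ Λ' a3 a4 q0 q1
    (σ := fun i => (e : ℂ_[p] →+* ℂ).comp ((ρ i).comp (e.symm : ℂ →+* ℂ_[p])))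
    (fun i => ⟨RingHom.injective _, ?_⟩) _ (fun i j => ?_) (N := N)
    (u := fun t => Ring.inverse (T.comp α (𝔉.f none)) ^ w t) hG y1 y2 h0 y3
    (j0 := (e : ℂ_[p] →+* ℂ).comp (UAP.zp p)) (fun i => RingHom.ext fun z => ?_)
    (fun t => (hP t).1) ?_ (fun t => h2.ringInverse.pow _) (fun t => ?_) (fun t => ?_)
    (by rw [h1]; exact y4)
  · exact e.surjective.comp ((iso_surj (hρ i)).comp e.symm.surjective)
  · refine Algebra.subset_adjoin ⟨i, k0, _, _, _, _, Λ.x j, (hE (some j)).1.isForm,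
      (hE none).1.isForm, fun h => hm.e0 ?_, ?_, rfl⟩
    · rw [hT, h, map_zero]
    · rw [← hT, ← hT, a1, hm.xs_mul]
  · simp only [RingHom.comp_apply, RingHom.coe_coe, RingEquiv.symm_apply_apply]
    rw [← zc_oc, ← coe_resO _ (hρ i), zc_map]
  · refine (congrArg (VLf _ · 𝓗 P) (funext fun l => ?_)).mp hL
    rw [← const_sb a3, a4, h1, constantCoeff_map, Fr.xc, Fr.xc, Fr.nz, Fr.nz, pow_one, pow_one,
      map_mul constantCoeff, cc_inv _ hu, hs.const, hs.const]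
  · rw [← hT', RingHom.comp_apply, t2, hαC, hF]
  · have h3 := (hP t).2 ((T.comp α).comp MvPolynomial.C) (Ring.inverse (T.comp α (𝔉.f none)))
      hm.cst (by rw [e2] at h2 ⊢; exact Ring.inverse_mul_cancel _ h2)
    rw [a1, ← hN, ← hT', ← h3]
    congr 2
    funext j
    rw [FS.xs, e2]
    rfl

end Pool.Agent.E7
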