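import Pool.Agent.Lib.MP_7e5527_ag.EA.AT
import Pool.Agent.Lib.MP_7e5527_ag.EA.AD

/-! Local data: coordinates, a projective embedding, a flat connection. -/

open MvPowerSeries Matrix

noncomputable section

namespace Pool.Agent.E7

variable {k ι β : Type} [Field k] [Fintype ι] [DecidableEq ι] [Fintype β] [DecidableEq β]

instance ps_dom {σ A : Type} [CommRing A] [IsDomain A] : IsDomain (PS σ A) :=
  NoZeroDivisors.to_isDomain _

/-- The vector field with components in the column `j` of `K`. -/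
def dK (K : Matrix ι ι (PS ι k)) (j : ι) : Derivation k (PS ι k) (PS ι k) :=
  ∑ l, K l j • pderiv k l

/-- Local data at a point. -/
structure LD (k ι β : Type) [Field k] [Fintype ι] [DecidableEq ι] [Fintype β] [DecidableEq β] where
  x : ι → PS ι k
  K : Matrix ι ι (PS ι k)
  hK : jacS x * K = 1
  e0 : PS ι k
  he : IsUnit e0
  P : β → MvPolynomial ι k
  hP : LinearIndependent k P
  p0 : β → k
  p1 : ι → β → k
  h0 : ∑ b, p0 b • P b = 1
  h1 : ∀ l, ∑ b, p1 l b • P b = MvPolynomial.X l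
  W : Matrix β β (PS ι k)
  hW : IsUnit W.det
  A : ι → Matrix β β (PS ι k)
  hA : ∀ j, W.map (dK K j) = A j * W
  c0 : β → PS ι k
  hc : ∀ b, e0 * (P b : PS ι k) = (c0 ᵥ* W) b
  aA : ∀ j a b, A j a b ∈ algS k x
  ac : ∀ a, c0 a ∈ algS k x

namespace LD

variable (Λ : LD k ι β)

/-- The derivative with respect to the coordinate `x j`. -/
def D (j : ι) : Derivation k (PS ι k) (PS ι k) := dK Λ.K j

/-- The coordinates of the derivative of `e0 * P`. -/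
def c1 (j : ι) : β → PS ι k := (fun a => Λ.D j (Λ.c0 a)) + Λ.c0 ᵥ* Λ.A j

variable {S S' : Type} [CommRing S] [CommRing S']

/-- The point of projective space. -/
def pv (ψ : PS ι k →+* S) : β → S := fun b => ψ (Λ.P b)

/-- The tangent vectors. -/
def dv (ψ : PS ι k →+* S) (l : ι) : β → S := fun b => ψ (pderiv k l (Λ.P b : PS ι k))

/-- The vector field of the matrix `η`. -/
def vv (ψ : PS ι k →+* S) (η : Matrix β β S) (l : ι) : S :=
  (Λ.pv ψ ᵥ* η) ⬝ᵥ fun c => ψ (C (Λ.p1 l c) - X l * C (Λ.p0 c))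

/-- `η` moves the point in the direction `μ`. -/
def Rel (ψ : PS ι k →+* S) (η : Matrix β β S) (μ : ι → S) : Prop :=
  ∃ lam : S, Λ.pv ψ ᵥ* η = lam • Λ.pv ψ + ∑ l, (Λ.K.map ψ *ᵥ μ) l • Λ.dv ψ l

/-- The same in the coordinates of the frame. -/
def RelC (ψ : PS ι k →+* S) (Θ : Matrix β β S) (μ : ι → S) : Prop :=
  ∃ lam : S, (fun a => ψ (Λ.c0 a)) ᵥ* Θ =
    lam • (fun a => ψ (Λ.c0 a)) + ∑ j, μ j • fun a => ψ (Λ.c1 j a)

/-- The vector field of a constant matrix. -/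
def vP (ξ : Matrix β β k) (l : ι) : MvPolynomial ι k :=
  (Λ.P ᵥ* ξ.map MvPolynomial.C) ⬝ᵥ fun c =>
    MvPolynomial.C (Λ.p1 l c) - MvPolynomial.X l * MvPolynomial.C (Λ.p0 c)

/-! Part 1. -/

theorem D_apply (j : ι) (f : PS ι k) : Λ.D j f = ∑ l, Λ.K l j * pderiv k l f := by
  have e : ∀ s : Finset ι, (∑ l ∈ s, Λ.K l j • pderiv k l : Derivation k (PS ι k) (PS ι k)) f =
      ∑ l ∈ s, Λ.K l j * pderiv k l f := by
    intro s
    induction s using Finset.induction_on with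
    | empty => simp
    | insert a s ha ih =>
      rw [Finset.sum_insert ha, Finset.sum_insert ha, Derivation.add_apply, ih,
        Derivation.smul_apply, smul_eq_mul]
  exact e _

theorem K_mul : Λ.K * jacS Λ.x = 1 := mul_eq_one_comm.1 Λ.hK

theorem jac_unit : IsUnit (jacS Λ.x).det := Matrix.isUnit_det_of_right_inverse Λ.hK

theorem D_x (j i : ι) : Λ.D j (Λ.x i) = if i = j then 1 else 0 := by
  rw [D_apply, ← Matrix.one_apply, ← Λ.hK, Matrix.mul_apply]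
  exact Finset.sum_congr rfl fun l _ => mul_comm _ _

theorem pderiv_eq (l : ι) (f : PS ι k) :
    pderiv k l f = ∑ j, Λ.D j f * pderiv k l (Λ.x j) := by
  have e : ∀ m, ∑ j, Λ.K m j * pderiv k l (Λ.x j) = if m = l then 1 else 0 := fun m => by
    rw [← Matrix.one_apply, ← Λ.K_mul, Matrix.mul_apply]
    rfl
  simp only [D_apply, Finset.sum_mul]
  rw [Finset.sum_comm]
  simp only [mul_right_comm _ (pderiv k _ f), ← Finset.sum_mul, e, ite_mul, one_mul, zero_mul,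
    Finset.sum_ite_eq', Finset.mem_univ, if_true]

private theorem sa1_comm (i j : ι) (f : PS ι k) : Λ.D i (Λ.D j f) - Λ.D j (Λ.D i f) =
    ∑ m, pderiv k m f * (Λ.D i (Λ.K m j) - Λ.D j (Λ.K m i)) := by
  have e : ∀ i j, Λ.D i (Λ.D j f) = ∑ m, ∑ l, Λ.K m j * Λ.K l i * pderiv k l (pderiv k m f) +
      ∑ m, pderiv k m f * Λ.D i (Λ.K m j) := by
    intro i j
    rw [Λ.D_apply j, map_sum, ← Finset.sum_add_distrib]
    refine Finset.sum_congr rfl fun m _ => ?_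
    rw [Derivation.leibniz, smul_eq_mul, smul_eq_mul, Λ.D_apply i (pderiv k m f), Finset.mul_sum]
    simp only [mul_assoc]
  have e' : ∑ m, ∑ l, Λ.K m j * Λ.K l i * pderiv k l (pderiv k m f) =
      ∑ m, ∑ l, Λ.K m i * Λ.K l j * pderiv k l (pderiv k m f) := by
    rw [Finset.sum_comm]
    refine Finset.sum_congr rfl fun m _ => Finset.sum_congr rfl fun l _ => ?_
    rw [pderiv_comm' m l, mul_comm (Λ.K l j)]
  rw [e i j, e j i, e', add_sub_add_left_eq_sub, ← Finset.sum_sub_distrib]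
  simp only [mul_sub]

theorem D_comm (i j : ι) (f : PS ι k) : Λ.D i (Λ.D j f) = Λ.D j (Λ.D i f) := by
  have h0 : ∀ i j n, Λ.D i (Λ.D j (Λ.x n)) = 0 := fun i j n => by
    rw [D_x]
    split_ifs
    · exact Derivation.map_one_eq_zero _
    · exact map_zero _
  have h1 : jacS Λ.x *ᵥ (fun m => Λ.D i (Λ.K m j) - Λ.D j (Λ.K m i)) = 0 := by
    funext n
    have := Λ.sa1_comm i j (Λ.x n)
    rw [h0, h0, sub_self] at this
    exact this.symm
  have h2 : (fun m => Λ.D i (Λ.K m j) - Λ.D j (Λ.K m i)) = 0 := by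
    have := congrArg (Λ.K *ᵥ ·) h1
    simpa only [Matrix.mulVec_mulVec, K_mul, Matrix.one_mulVec, Matrix.mulVec_zero] using this
  rw [← sub_eq_zero, sa1_comm]
  exact Finset.sum_eq_zero fun m _ => by rw [congrFun h2 m, Pi.zero_apply, mul_zero]

omit [Fintype ι] [DecidableEq ι] [DecidableEq β] in
private theorem sa1_mul (E : Derivation k (PS ι k) (PS ι k)) (M N : Matrix β β (PS ι k)) :
    (M * N).map E = M.map E * N + M * N.map E := by
  ext1 a b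
  simp only [Matrix.map_apply, Matrix.mul_apply, Matrix.add_apply, map_sum, Derivation.leibniz,
    smul_eq_mul, ← Finset.sum_add_distrib]
  exact Finset.sum_congr rfl fun c _ => by ring

theorem A_flat (i j : ι) :
    (Λ.A j).map (Λ.D i) - (Λ.A i).map (Λ.D j) = Λ.A i * Λ.A j - Λ.A j * Λ.A i := by
  have hA : ∀ j, Λ.W.map (Λ.D j) = Λ.A j * Λ.W := Λ.hA
  have e : ∀ i j, (Λ.W.map (Λ.D j)).map (Λ.D i) =
      ((Λ.A j).map (Λ.D i) + Λ.A j * Λ.A i) * Λ.W := fun i j => by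
    rw [hA, sa1_mul, hA, add_mul, mul_assoc]
  have e' : (Λ.W.map (Λ.D j)).map (Λ.D i) = (Λ.W.map (Λ.D i)).map (Λ.D j) := by
    ext1 a b
    exact Λ.D_comm i j _
  rw [e, e] at e'
  have h := ((Matrix.isUnit_iff_isUnit_det _).2 Λ.hW).mul_right_cancel e'
  rw [sub_eq_sub_iff_add_eq_add, h, add_comm]

theorem hc1 (j : ι) (b : β) : Λ.D j (Λ.e0 * (Λ.P b : PS ι k)) = (Λ.c1 j ᵥ* Λ.W) b := by
  have hA : Λ.W.map (Λ.D j) = Λ.A j * Λ.W := Λ.hA j
  rw [Λ.hc, c1, Matrix.add_vecMul, Matrix.vecMul_vecMul, ← hA]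
  simp only [Matrix.vecMul, dotProduct, Pi.add_apply, map_sum, Derivation.leibniz, smul_eq_mul,
    Matrix.map_apply, ← Finset.sum_add_distrib]
  exact Finset.sum_congr rfl fun c _ => by ring

theorem D_alg [CharZero k] (j : ι) {f : PS ι k} (h : f ∈ algS k Λ.x) : Λ.D j f ∈ algS k Λ.x :=
  der_mem (Λ.D j) (fun a => by
    rw [D_x]
    split_ifs
    · exact one_mem _
    · exact zero_mem _) h

theorem c1_alg [CharZero k] (j : ι) (a : β) : Λ.c1 j a ∈ algS k Λ.x :=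
  add_mem (Λ.D_alg j (Λ.ac a)) (sum_mem fun b _ => mul_mem (Λ.ac b) (Λ.aA j b a))

private theorem sa1_coe (c : β → k) : ∑ b, (Λ.P b : PS ι k) * C (c b) =
    ((∑ b, c b • Λ.P b : MvPolynomial ι k) : PS ι k) := by
  rw [← MvPolynomial.coeToMvPowerSeries.ringHom_apply, map_sum]
  refine Finset.sum_congr rfl fun b _ => ?_
  rw [MvPolynomial.coeToMvPowerSeries.ringHom_apply, MvPolynomial.smul_eq_C_mul,
    MvPolynomial.coe_mul, MvPolynomial.coe_C, mul_comm]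

private theorem sa1_pv (ψ : PS ι k →+* S) (c : β → k) : (Λ.pv ψ ⬝ᵥ fun b => ψ (C (c b))) =
    ψ ((∑ b, c b • Λ.P b : MvPolynomial ι k) : PS ι k) := by
  rw [← sa1_coe, map_sum]
  exact Finset.sum_congr rfl fun b _ => (map_mul ψ _ _).symm

private theorem sa1_dv (ψ : PS ι k →+* S) (l : ι) (c : β → k) :
    (Λ.dv ψ l ⬝ᵥ fun b => ψ (C (c b))) =
      ψ (pderiv k l ((∑ b, c b • Λ.P b : MvPolynomial ι k) : PS ι k)) := by
  rw [← sa1_coe, map_sum, map_sum]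
  refine Finset.sum_congr rfl fun b _ => ?_
  rw [Derivation.leibniz, pderiv_C, smul_zero, zero_add, smul_eq_mul, map_mul, mul_comm]
  rfl

theorem pv_p0 (ψ : PS ι k →+* S) : (Λ.pv ψ ⬝ᵥ fun c => ψ (C (Λ.p0 c))) = 1 := by
  rw [sa1_pv, Λ.h0, MvPolynomial.coe_one, map_one]

theorem pv_p1 (ψ : PS ι k →+* S) (l : ι) : (Λ.pv ψ ⬝ᵥ fun c => ψ (C (Λ.p1 l c))) = ψ (X l) := by
  rw [sa1_pv, Λ.h1, MvPolynomial.coe_X]

theorem dv_p0 (ψ : PS ι k →+* S) (l : ι) : (Λ.dv ψ l ⬝ᵥ fun c => ψ (C (Λ.p0 c))) = 0 := by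
  rw [sa1_dv, Λ.h0, MvPolynomial.coe_one, Derivation.map_one_eq_zero, map_zero]

theorem dv_p1 (ψ : PS ι k →+* S) (l l' : ι) :
    (Λ.dv ψ l ⬝ᵥ fun c => ψ (C (Λ.p1 l' c))) = if l = l' then 1 else 0 := by
  rw [sa1_dv, Λ.h1, MvPolynomial.coe_X]
  split_ifs with h
  · rw [h, pderiv_X_self, map_one]
  · rw [pderiv_X_of_ne (Ne.symm h), map_zero]

/-! Part 2. -/

variable {Λ} {ψ : PS ι k →+* S} {η η' Θ : Matrix β β S} {μ μ' : ι → S}

theorem sa2_vv (η : Matrix β β S) (l : ι) : Λ.vv ψ η l =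
    ((Λ.pv ψ ᵥ* η) ⬝ᵥ fun c => ψ (C (Λ.p1 l c))) -
      ψ (X l) * ((Λ.pv ψ ᵥ* η) ⬝ᵥ fun c => ψ (C (Λ.p0 c))) := by
  simp only [LD.vv, dotProduct, map_sub, map_mul, mul_sub, Finset.sum_sub_distrib, Finset.mul_sum,
    mul_left_comm]

theorem sa2_lam {lam : S} {ν : ι → S} (h : Λ.pv ψ ᵥ* η = lam • Λ.pv ψ + ∑ l, ν l • Λ.dv ψ l) :
    ((Λ.pv ψ ᵥ* η) ⬝ᵥ fun c => ψ (C (Λ.p0 c))) = lam ∧ Λ.vv ψ η = ν := by
  have h0 : ((Λ.pv ψ ᵥ* η) ⬝ᵥ fun c => ψ (C (Λ.p0 c))) = lam := by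
    simp [h, add_dotProduct, sum_dotProduct, smul_dotProduct, pv_p0, dv_p0]
  refine ⟨h0, funext fun l => ?_⟩
  rw [sa2_vv, h0]
  simp [h, add_dotProduct, sum_dotProduct, smul_dotProduct, pv_p1, dv_p1, mul_comm]

theorem Rel.vv (h : Λ.Rel ψ η μ) : (jacS Λ.x).map ψ *ᵥ Λ.vv ψ η = μ := by
  obtain ⟨lam, h⟩ := h
  rw [(sa2_lam h).2, mulVec_mulVec, ← Matrix.map_mul, Λ.hK, Matrix.map_one _ (map_zero ψ) (map_one ψ),
    one_mulVec]

theorem Rel.add (h : Λ.Rel ψ η μ) (h' : Λ.Rel ψ η' μ') : Λ.Rel ψ (η + η') (μ + μ') := by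
  obtain ⟨lam, h⟩ := h
  obtain ⟨lam', h'⟩ := h'
  refine ⟨lam + lam', ?_⟩
  simp only [vecMul_add, h, h', mulVec_add, Pi.add_apply, add_smul, Finset.sum_add_distrib]
  abel

theorem Rel.smul (h : Λ.Rel ψ η μ) (c : S) : Λ.Rel ψ (c • η) (c • μ) := by
  obtain ⟨lam, h⟩ := h
  refine ⟨c * lam, ?_⟩
  simp only [vecMul_smul, h, mulVec_smul, Pi.smul_apply, smul_add, Finset.smul_sum, smul_smul,
    smul_eq_mul]

theorem rel_zero : Λ.Rel ψ 0 0 := ⟨0, by simp⟩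

theorem Rel.uniq (h : Λ.Rel ψ η μ) (h' : Λ.Rel ψ η μ') : μ = μ' := by rw [← h.vv, ← h'.vv]

theorem Rel.eigen (h : Λ.Rel ψ η μ) (h0 : ∀ l, Λ.vv ψ η l = 0) :
    Λ.pv ψ ᵥ* η = ((Λ.pv ψ ᵥ* η) ⬝ᵥ fun c => ψ (C (Λ.p0 c))) • Λ.pv ψ := by
  obtain ⟨lam, h⟩ := h
  obtain ⟨h1, h2⟩ := sa2_lam h
  rw [h1, h, ← h2]
  simp [h0]

theorem sa2_c0 : (fun a => ψ (Λ.c0 a)) ᵥ* Λ.W.map ψ = ψ Λ.e0 • Λ.pv ψ := funext fun b => by
  rw [Pi.smul_apply, pv, smul_eq_mul, ← map_mul, Λ.hc, RingHom.map_vecMul]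
  rfl

theorem sa2_c1 (j : ι) : (fun a => ψ (Λ.c1 j a)) ᵥ* Λ.W.map ψ =
    ψ (Λ.D j Λ.e0) • Λ.pv ψ + ψ Λ.e0 • ∑ l, ψ (Λ.K l j) • Λ.dv ψ l := funext fun b => by
  have h := congrArg ψ (Λ.hc1 j b)
  rw [RingHom.map_vecMul, Derivation.leibniz, Λ.D_apply j (Λ.P b)] at h
  refine h.symm.trans ?_
  simp only [smul_eq_mul, map_add, map_mul, map_sum, Pi.add_apply, Pi.smul_apply, Finset.sum_apply,
    pv, dv]
  ring

theorem relC_iff (h : Θ * Λ.W.map ψ = Λ.W.map ψ * η) : Λ.RelC ψ Θ μ ↔ Λ.Rel ψ η μ := by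
  obtain ⟨u, hu⟩ := (Λ.he.map ψ).exists_left_inv
  have hW : IsUnit (Λ.W.map ψ) := by
    rw [isUnit_iff_isUnit_det, ← RingHom.mapMatrix_apply, ← RingHom.map_det]
    exact Λ.hW.map ψ
  have key : ∀ lam : S, ((fun a => ψ (Λ.c0 a)) ᵥ* Θ =
      lam • (fun a => ψ (Λ.c0 a)) + ∑ j, μ j • fun a => ψ (Λ.c1 j a)) ↔ Λ.pv ψ ᵥ* η =
      (lam + u * ∑ j, μ j * ψ (Λ.D j Λ.e0)) • Λ.pv ψ + ∑ l, (Λ.K.map ψ *ᵥ μ) l • Λ.dv ψ l := by
    intro lam
    rw [← (vecMul_injective_of_isUnit hW).eq_iff,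
      ← (Λ.he.map ψ).smul_left_cancel (x := Λ.pv ψ ᵥ* η)]
    simp only [vecMul_vecMul, h, add_vecMul, smul_vecMul, sum_vecMul, sa2_c0, sa2_c1]
    rw [← vecMul_vecMul, sa2_c0, smul_vecMul]
    refine Eq.congr_right ?_
    simp only [smul_add, Finset.sum_add_distrib, smul_smul, add_smul, Finset.smul_sum,
      mulVec, dotProduct, Matrix.map_apply, Finset.sum_smul, ← mul_assoc, mul_comm _ u, hu, one_mul]
    rw [add_assoc, mul_comm lam, Finset.sum_comm]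
    simp only [mul_comm, mul_left_comm]
  exact ⟨fun ⟨lam, hl⟩ => ⟨_, (key lam).1 hl⟩, fun ⟨lam, hl⟩ =>
    ⟨lam - u * ∑ j, μ j * ψ (Λ.D j Λ.e0), (key _).2 (by rwa [sub_add_cancel])⟩⟩

theorem RelC.map (h : Λ.RelC ψ Θ μ) (ρ : S →+* S') {ψ' : PS ι k →+* S'}
    (h0 : ∀ a, ψ' (Λ.c0 a) = ρ (ψ (Λ.c0 a))) (h1 : ∀ j a, ψ' (Λ.c1 j a) = ρ (ψ (Λ.c1 j a))) :
    Λ.RelC ψ' (Θ.map ρ) fun j => ρ (μ j) := by
  obtain ⟨lam, h⟩ := h
  refine ⟨ρ lam, funext fun b => ?_⟩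
  have h2 := congrArg ρ (congrFun h b)
  simpa [vecMul, dotProduct, h0, h1] using h2

theorem vv_scalar (c : S) (l : ι) : Λ.vv ψ (c • (1 : Matrix β β S)) l = 0 := by
  rw [sa2_vv, vecMul_smul, vecMul_one, smul_dotProduct, smul_dotProduct, pv_p0, pv_p1]
  simp [mul_comm]

theorem sa2_coe (ξ : Matrix β β k) (b : β) :
    (Λ.pv ψ ᵥ* ξ.map fun c => ψ (C c)) b = ψ ((Λ.P ᵥ* ξ.map MvPolynomial.C) b : MvPolynomial ι k) := by
  simp only [vecMul, dotProduct, pv, Matrix.map_apply, ← MvPolynomial.coe_C,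
    ← MvPolynomial.coeToMvPowerSeries.ringHom_apply, map_sum, map_mul]

theorem vv_const (ξ : Matrix β β k) (l : ι) :
    Λ.vv ψ (ξ.map fun c => ψ (C c)) l = ψ (Λ.vP ξ l) := by
  simp only [LD.vv, vP, dotProduct, sa2_coe]
  simp only [← MvPolynomial.coe_C, ← MvPolynomial.coe_X,
    ← MvPolynomial.coeToMvPowerSeries.ringHom_apply, map_sum, map_mul, map_sub]

/-- An eigenvector at a point that satisfies no polynomial equation: compare the degrees. -/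
theorem scalar_of (hψ : ∀ Q : MvPolynomial ι k, ψ Q = 0 → Q = 0) {ξ : Matrix β β k} {μ : ι → S}
    (h : Λ.Rel ψ (ξ.map fun c => ψ (C c)) μ) (h0 : ∀ l, Λ.vP ξ l = 0) :
    ∃ c : k, ξ = c • (1 : Matrix β β k) := by
  have h1 := h.eigen fun l => by rw [vv_const, h0, MvPolynomial.coe_zero, map_zero]
  obtain ⟨Q, hQ⟩ : ∃ Q : MvPolynomial ι k, ∀ b, ∑ a, ξ a b • Λ.P a = Q * Λ.P b := by
    refine ⟨(Λ.P ᵥ* ξ.map MvPolynomial.C) ⬝ᵥ fun c => MvPolynomial.C (Λ.p0 c), fun b => ?_⟩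
    have e : ∑ a, ξ a b • Λ.P a = (Λ.P ᵥ* ξ.map MvPolynomial.C) b := by
      simp only [vecMul, dotProduct, Matrix.map_apply, MvPolynomial.smul_eq_C_mul, mul_comm]
    refine e.trans (sub_eq_zero.1 (hψ _ ?_))
    have h2 := congrFun h1 b
    simp only [Pi.smul_apply, smul_eq_mul, dotProduct, sa2_coe] at h2
    simp only [pv, ← MvPolynomial.coe_C, ← MvPolynomial.coeToMvPowerSeries.ringHom_apply] at h2
    simp only [dotProduct, ← MvPolynomial.coeToMvPowerSeries.ringHom_apply, map_sub, map_mul,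
      map_sum, h2, sub_self]
  rcases isEmpty_or_nonempty β with _ | _
  · exact ⟨0, Subsingleton.elim _ _⟩
  obtain ⟨b, hb⟩ := Finite.exists_max fun b => (Λ.P b).totalDegree
  obtain ⟨c, rfl⟩ : ∃ c, Q = MvPolynomial.C c := by
    by_cases hQ0 : Q = 0
    · exact ⟨0, by rw [hQ0, map_zero]⟩
    refine ⟨_, MvPolynomial.totalDegree_eq_zero_iff_eq_C.1 ?_⟩
    have h2 : (Q * Λ.P b).totalDegree ≤ (Λ.P b).totalDegree :=
      hQ b ▸ MvPolynomial.totalDegree_finsetSum_le fun a _ =>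
        (MvPolynomial.totalDegree_smul_le _ _).trans (hb a)
    rw [MvPolynomial.totalDegree_mul_of_isDomain hQ0 (Λ.hP.ne_zero b)] at h2
    omega
  refine ⟨c, Matrix.ext fun a b => ?_⟩
  refine Fintype.linearIndependent_iffₛ.1 Λ.hP (fun a => ξ a b) (fun a => (c • (1 : Matrix β β k)) a b)
    ?_ a
  rw [hQ]
  simp [Matrix.one_apply, MvPolynomial.smul_eq_C_mul]

omit [Fintype ι] [DecidableEq ι] in
theorem sa2_map_coe {σ : k →+* k} (P : MvPolynomial ι k) :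
    ((MvPolynomial.map σ P : MvPolynomial ι k) : PS ι k) = MvPowerSeries.map σ (P : PS ι k) := by
  ext ν
  simp [MvPolynomial.coeff_map]

omit [DecidableEq ι] in
theorem sa2_dK (σ : k →+* k) (K : Matrix ι ι (PS ι k)) (j : ι) (f : PS ι k) :
    dK (K.map (MvPowerSeries.map σ)) j (MvPowerSeries.map σ f) = MvPowerSeries.map σ (dK K j f) := by
  have e : ∀ (K : Matrix ι ι (PS ι k)) f, dK K j f = ∑ l, K l j * pderiv k l f := fun K f =>
    (congrFun (map_sum (Derivation.coeFnAddMonoidHom (R := k) (A := PS ι k) (M := PS ι k))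
      (fun l => K l j • pderiv k l) Finset.univ) f).trans (Finset.sum_apply f _ _)
  simp only [e, pderiv_map', map_sum, map_mul, Matrix.map_apply]

/-- Transport along an automorphism of the field. -/
theorem exists_map (Λ : LD k ι β) {σ : k →+* k} (hσ : Function.Bijective σ) :
    ∃ Λ' : LD k ι β, ∀ j, Λ'.x j = MvPowerSeries.map σ (Λ.x j) := by
  let φ : PS ι k →+* PS ι k := MvPowerSeries.map σ
  have hφ : Function.Injective φ := fun f g h => MvPowerSeries.ext fun ν =>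
    hσ.1 (by simpa [φ] using congrArg (coeff ν) h)
  have ha : ∀ {v}, v ∈ algS k Λ.x → φ v ∈ algS k fun a => φ (Λ.x a) :=
    algS_map σ φ (fun c => by simp [φ, MvPowerSeries.algebraMap_apply]) hφ
  have hs : ∀ g : β → k, ∑ b, σ (g b) • MvPolynomial.map σ (Λ.P b) =
      MvPolynomial.map σ (∑ b, g b • Λ.P b) := fun g => by
    simp [MvPolynomial.smul_eq_C_mul]
  refine ⟨{ x := fun j => φ (Λ.x j)
            K := Λ.K.map φ
            hK := ?_
            e0 := φ Λ.e0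
            he := Λ.he.map φ
            P := fun b => MvPolynomial.map σ (Λ.P b)
            hP := ?_
            p0 := fun b => σ (Λ.p0 b)
            p1 := fun l b => σ (Λ.p1 l b)
            h0 := by rw [hs, Λ.h0, map_one]
            h1 := fun l => by rw [hs, Λ.h1, MvPolynomial.map_X]
            W := Λ.W.map φ
            hW := ?_
            A := fun j => (Λ.A j).map φ
            hA := fun j => ?_
            c0 := fun a => φ (Λ.c0 a)
            hc := fun b => ?_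
            aA := fun j a b => ha (Λ.aA j a b)
            ac := fun a => ha (Λ.ac a) }, fun _ => rfl⟩
  · have e : (jacS fun j => φ (Λ.x j)) = (jacS Λ.x).map φ :=
      Matrix.ext fun j l => pderiv_map' σ l _
    rw [e, ← Matrix.map_mul, Λ.hK, Matrix.map_one _ (map_zero φ) (map_one φ)]
  · refine Fintype.linearIndependent_iff.2 fun g hg b => ?_
    obtain ⟨g', rfl⟩ := hσ.2.comp_left g
    have h1 := (hs g').symm.trans hg
    rw [map_eq_zero_iff _ (MvPolynomial.map_injective σ hσ.1)] at h1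
    exact (congrArg σ (Fintype.linearIndependent_iff.1 Λ.hP g' h1 b)).trans (map_zero σ)
  · rw [← RingHom.mapMatrix_apply, ← RingHom.map_det]
    exact Λ.hW.map φ
  · rw [← Matrix.map_mul, ← Λ.hA]
    exact Matrix.ext fun a b => sa2_dK σ Λ.K j _
  · rw [sa2_map_coe, ← map_mul, Λ.hc, RingHom.map_vecMul]
    rfl

end LD

end Pool.Agent.E7
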