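import Pool.Agent.Lib.MP_7e5527_ag.EA.CW
import Pool.Agent.Lib.MP_7e5527_ag.EA.SA
import Pool.Agent.Lib.MP_7e5527_ag.EO.TDefs
import Pool.Agent.Lib.MP_7e5527_ag.E7.WrC

/-! Systems of forms and their Taylor series. -/

open MvPowerSeries Matrix

noncomputable section

namespace Pool.Agent.E7

/-- A system of forms. -/
structure FS (k ι β Q : Type) [Field k] [Fintype ι] [DecidableEq ι] [Fintype β] [DecidableEq β]
    [CommRing Q] [Algebra k Q] where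
  d : ι → Q → Q
  k0 : ℕ
  pos : 0 < k0
  ws : ℕ
  f : Option ι → Q
  y : ι → Q
  κ0 : k
  hκ : κ0 ≠ 0
  dy : ∀ i j, d i (y j) = if i = j then algebraMap k Q κ0 else 0
  P : β → MvPolynomial ι k
  hP : LinearIndependent k P
  p0 : β → k
  p1 : ι → β → k
  h0 : ∑ b, p0 b • P b = 1
  h1 : ∀ l, ∑ b, p1 l b • P b = MvPolynomial.X l
  Fm : ℕ → AddSubgroup Q
  one : 1 ∈ Fm 0
  mul : ∀ {n n' F G}, F ∈ Fm n → G ∈ Fm n' → F * G ∈ Fm (n + n')
  fm : ∀ o, f o ∈ Fm k0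
  dk : ∀ j {n G}, G ∈ Fm n → Wr.Dk d (fun _ => (k0 : ℤ)) f j n G ∈ Fm (n + ws)
  psi : ∀ ν ν', Psw d k0 ws f (fun b => f none * MvPolynomial.aeval y (P b)) ν *
    Psw d k0 ws f (fun b => f none * MvPolynomial.aeval y (P b)) ν' ∈ Fm ((wl ν + wl ν') * ws)
  alg : ∀ a F, F ∈ Fm (a * k0) → ∃ R : Polynomial (MvPolynomial (Option ι) k), R ≠ 0 ∧ WH a R ∧
    R.eval₂ (MvPolynomial.eval₂Hom (algebraMap k Q) f) F = 0

variable {k ι β Q : Type} [Field k] [CharZero k] [Fintype ι] [DecidableEq ι] [Nonempty ι]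
  [Fintype β] [DecidableEq β] [CommRing Q] [Algebra k Q]

namespace FS

variable (𝔉 : FS k ι β Q)

/-- The bracket of the frame. -/
def br : Q := Wr.br 𝔉.d (fun _ => (𝔉.k0 : ℤ)) 𝔉.f

/-- The bracket with `G`. -/
def Dk (j : ι) (n : ℕ) (G : Q) : Q := Wr.Dk 𝔉.d (fun _ => (𝔉.k0 : ℤ)) 𝔉.f j n G

/-- A Taylor map at a point where the frame gives coordinates. -/
structure TM (τ : Q →+* PS ι k) : Prop where
  cst : ∀ c, τ (algebraMap k Q c) = C c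
  der : ∃ M : Matrix ι ι k, IsUnit M.det ∧
    ∀ l F, pderiv k l (τ F) = ∑ i, C (M i l) * τ (𝔉.d i F)
  e0 : constantCoeff (τ (𝔉.f none)) ≠ 0
  br : constantCoeff (τ 𝔉.br) ≠ 0

/-- The coordinates. -/
def xs (τ : Q →+* PS ι k) (j : ι) : PS ι k := τ (𝔉.f (some j)) * Ring.inverse (τ (𝔉.f none))

/-- The derivative with respect to a coordinate. -/
def Ds (τ : Q →+* PS ι k) (j : ι) : Derivation k (PS ι k) (PS ι k) := dK (jacS (𝔉.xs τ))⁻¹ j

/-- The two series are the expansions of one quotient of forms. -/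
def Rt (τ τ' : Q →+* PS ι k) (m m' : PS ι k) : Prop :=
  ∃ n, ∃ N ∈ 𝔉.Fm n, ∃ Ψ ∈ 𝔉.Fm n, constantCoeff (τ Ψ) ≠ 0 ∧ constantCoeff (τ' Ψ) ≠ 0 ∧
    m * τ Ψ = τ N ∧ m' * τ' Ψ = τ' N

/-- The values of the forms are proportional. -/
def Cp (τ τ' : Q →+* PS ι k) : Prop := ∃ c : k, c ≠ 0 ∧
  ∀ n, ∀ F ∈ 𝔉.Fm n, constantCoeff (τ F) = c ^ n * constantCoeff (τ' F)

variable {𝔉} {τ τ' : Q →+* PS ι k} {m m' m1 m1' : PS ι k}

/-! Part 1. -/

theorem br_fm : 𝔉.br ∈ 𝔉.Fm (𝔉.k0 + 𝔉.ws) := by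
  obtain ⟨j⟩ := ‹Nonempty ι›
  have h := 𝔉.dk j (𝔉.fm (some j))
  rwa [Wr.Dk, Function.update_eq_self (some j) fun _ : Option ι => (𝔉.k0 : ℤ),
    Function.update_eq_self] at h

theorem pow_fm {n : ℕ} {F : Q} (h : F ∈ 𝔉.Fm n) (a : ℕ) : F ^ a ∈ 𝔉.Fm (a * n) := by
  induction a with
  | zero => rw [pow_zero, zero_mul]; exact 𝔉.one
  | succ a ih => rw [pow_succ, add_one_mul]; exact 𝔉.mul ih h

private theorem cf1_unit {g : PS ι k} (h : constantCoeff g ≠ 0) : IsUnit g :=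
  isUnit_iff_constantCoeff.2 h.isUnit

private theorem cf1_ne {g : PS ι k} (h : constantCoeff g ≠ 0) : g ≠ 0 := (cf1_unit h).ne_zero

private theorem cf1_k0 : (𝔉.k0 : PS ι k) ≠ 0 :=
  cf1_ne (by rw [map_natCast]; exact Nat.cast_ne_zero.2 𝔉.pos.ne')

private theorem cf1_det {M : Matrix ι ι k} (h : IsUnit M.det) :
    IsUnit (M.map (C : k →+* PS ι k)).det := by
  rw [← RingHom.mapMatrix_apply, ← RingHom.map_det]
  exact h.map _

theorem TM.xs_mul (h : 𝔉.TM τ) (j : ι) : 𝔉.xs τ j * τ (𝔉.f none) = τ (𝔉.f (some j)) := by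
  rw [xs, mul_assoc, Ring.inverse_mul_cancel _ (cf1_unit h.e0), mul_one]

private theorem TM.cf1_der (h : 𝔉.TM τ) (l j : ι) : pderiv k l (τ (𝔉.f (some j))) =
    τ (𝔉.f none) * pderiv k l (𝔉.xs τ j) + pderiv k l (τ (𝔉.f none)) * 𝔉.xs τ j := by
  rw [← h.xs_mul j, Derivation.leibniz, smul_eq_mul, smul_eq_mul]
  ring

/-- Column operations on the bracket. -/
theorem TM.jac (h : 𝔉.TM τ) : IsUnit (jacS (𝔉.xs τ)).det := by
  obtain ⟨M, hM, hd⟩ := h.der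
  have e : Matrix.fromBlocks (M.map (C : k →+* PS ι k))ᵀ 0 0 1 *
      ((Wr.brM 𝔉.d (fun _ => (𝔉.k0 : ℤ)) 𝔉.f).map τ).submatrix
      (Equiv.optionEquivSumPUnit.{0} ι).symm (Equiv.optionEquivSumPUnit.{0} ι).symm =
      Matrix.fromBlocks (τ (𝔉.f none) • (jacS (𝔉.xs τ))ᵀ)
        (Matrix.of fun l _ => pderiv k l (τ (𝔉.f none))) 0
        (Matrix.of fun _ _ => 𝔉.k0 * τ (𝔉.f none)) *
      Matrix.fromBlocks 1 0 (Matrix.of fun _ i => 𝔉.xs τ i) 1 := by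
    rw [Matrix.fromBlocks_multiply]
    ext1 r c
    rcases r with l | r <;> rcases c with i | c
    · have h1 := h.cf1_der l i
      rw [hd] at h1
      simpa [Wr.brM, Wr.col, Matrix.mul_apply, jacS, mul_comm] using h1
    · simp [Wr.brM, Wr.col, Matrix.mul_apply, hd]
    · simp [Wr.brM, Wr.col, Matrix.mul_apply, ← h.xs_mul, mul_comm, mul_left_comm]
    · simp [Wr.brM, Wr.col, Matrix.mul_apply]
  have h1 := congrArg Matrix.det e
  rw [Matrix.det_mul, Matrix.det_mul, Matrix.det_submatrix_equiv_self,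
    Matrix.det_fromBlocks_zero₂₁, Matrix.det_fromBlocks_zero₂₁, Matrix.det_fromBlocks_zero₁₂,
    Matrix.det_smul, Matrix.det_transpose, Matrix.det_transpose, Matrix.det_one, Matrix.det_one,
    mul_one, mul_one, mul_one, ← RingHom.mapMatrix_apply τ, ← RingHom.map_det] at h1
  have h2 := (cf1_det hM).mul (cf1_unit h.br)
  rw [FS.br, Wr.br, h1] at h2
  exact isUnit_of_mul_isUnit_right (isUnit_of_mul_isUnit_left h2)

private theorem cf1_dK (K : Matrix ι ι (PS ι k)) (j : ι) (g : PS ι k) :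
    dK K j g = ∑ l, K l j * pderiv k l g :=
  map_sum (AddMonoidHom.mk' (fun D : Derivation k (PS ι k) (PS ι k) => D g) fun _ _ => rfl) _ _

theorem TM.pderiv_eq (h : 𝔉.TM τ) (l : ι) (g : PS ι k) :
    pderiv k l g = ∑ j, 𝔉.Ds τ j g * pderiv k l (𝔉.xs τ j) := by
  have h1 := congrFun (congrArg (fun A => (fun l => pderiv k l g) ᵥ* A)
    (Matrix.nonsing_inv_mul _ h.jac)) l
  simp only [Matrix.vecMul_one, ← Matrix.vecMul_vecMul] at h1
  rw [← h1]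
  refine Finset.sum_congr rfl fun j _ => ?_
  rw [Ds, cf1_dK]
  simp only [Matrix.vecMul, dotProduct, mul_comm]
  rfl

/-- Cramer's rule. -/
theorem TM.dk_eq (h : 𝔉.TM τ) (j : ι) (n : ℕ) (G : Q) :
    (𝔉.k0 : PS ι k) * τ (𝔉.f none) ^ 2 * τ (𝔉.Dk j n G) = τ 𝔉.br *
      (𝔉.k0 * τ (𝔉.f none) * 𝔉.Ds τ j (τ G) - n * 𝔉.Ds τ j (τ (𝔉.f none)) * τ G) := by
  obtain ⟨M, hM, hd⟩ := h.der
  set e := τ (𝔉.f none) with he
  set a : ι → PS ι k := fun j => 𝔉.k0 * e * 𝔉.Ds τ j (τ G) - n * 𝔉.Ds τ j e * τ G with ha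
  set b : Option ι → PS ι k := fun o => o.elim (n * τ G * e - ∑ j, a j * 𝔉.xs τ j) a with hb
  set B := (Wr.brM 𝔉.d (fun _ => (𝔉.k0 : ℤ)) 𝔉.f).map τ with hB
  have h1 : ∀ l, ∑ j, pderiv k l (𝔉.xs τ j) * a j =
      𝔉.k0 * e * pderiv k l (τ G) - n * pderiv k l e * τ G := fun l => by
    rw [h.pderiv_eq l (τ G), h.pderiv_eq l e, Finset.mul_sum, Finset.mul_sum, Finset.sum_mul,
      ← Finset.sum_sub_distrib]
    exact Finset.sum_congr rfl fun j _ => by rw [ha]; ring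
  have h2 : ∀ l, ∑ o, pderiv k l (τ (𝔉.f o)) * b o = 𝔉.k0 * e ^ 2 * pderiv k l (τ G) :=
    fun l => by
      have h3 : ∑ j, pderiv k l (τ (𝔉.f (some j))) * a j =
          e * ∑ j, pderiv k l (𝔉.xs τ j) * a j + pderiv k l e * ∑ j, a j * 𝔉.xs τ j := by
        rw [Finset.mul_sum, Finset.mul_sum, ← Finset.sum_add_distrib]
        exact Finset.sum_congr rfl fun j _ => by rw [h.cf1_der]; ring
      rw [Fintype.sum_option]
      simp only [hb, Option.elim]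
      rw [h3, h1]
      ring
  have h4 : (fun i => ∑ o, τ (𝔉.d i (𝔉.f o)) * b o - 𝔉.k0 * e ^ 2 * τ (𝔉.d i G)) = 0 := by
    refine Matrix.eq_zero_of_vecMul_eq_zero (cf1_det hM).ne_zero (funext fun l => ?_)
    have h5 := h2 l
    simp only [hd, Finset.sum_mul] at h5
    rw [Finset.sum_comm, Finset.mul_sum, ← sub_eq_zero, ← Finset.sum_sub_distrib] at h5
    refine Eq.trans (Finset.sum_congr rfl fun i _ => ?_) h5
    simp only [Matrix.map_apply, sub_mul, Finset.sum_mul]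
    congr 1
    · exact Finset.sum_congr rfl fun o _ => by ring
    · ring
  have h6 : B *ᵥ b = (𝔉.k0 * e ^ 2) • fun r => τ (Wr.col 𝔉.d n G r) := by
    funext r
    cases r with
    | none =>
      have h7 : ∑ j, (𝔉.k0 : PS ι k) * τ (𝔉.f (some j)) * a j =
          𝔉.k0 * e * ∑ j, a j * 𝔉.xs τ j := by
        rw [Finset.mul_sum]
        exact Finset.sum_congr rfl fun j _ => by rw [← h.xs_mul j]; ring
      simp only [hB, hb, Matrix.mulVec, dotProduct, Fintype.sum_option, Matrix.map_apply, Wr.brM,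
        Matrix.of_apply, Wr.col, Option.elim, map_mul, Int.cast_natCast, map_natCast,
        Pi.smul_apply, smul_eq_mul]
      rw [h7]
      ring
    | some i => exact sub_eq_zero.1 (congrFun h4 i)
  have h8 := congrFun (congrArg (fun v => B.adjugate *ᵥ v) h6) (some j)
  simp only [Matrix.mulVec_mulVec, Matrix.adjugate_mul, Matrix.smul_mulVec, Matrix.one_mulVec,
    Matrix.mulVec_smul, Pi.smul_apply, smul_eq_mul] at h8
  have h9 : τ (𝔉.Dk j n G) = (B.adjugate *ᵥ fun r => τ (Wr.col 𝔉.d n G r)) (some j) := by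
    rw [hB, ← RingHom.mapMatrix_apply, ← RingHom.map_adjugate, Dk, Wr.Dk_sum, map_sum]
    exact Finset.sum_congr rfl fun r _ => map_mul _ _ _
  rw [h9, ← h8, FS.br, Wr.br, RingHom.map_det]
  rfl

theorem Rt.symm (h : 𝔉.Rt τ τ' m m') : 𝔉.Rt τ' τ m' m := by
  obtain ⟨n, N, hN, Ψ, hΨ, h1, h2, h3, h4⟩ := h
  exact ⟨n, N, hN, Ψ, hΨ, h2, h1, h4, h3⟩

theorem Rt.sub (h : 𝔉.Rt τ τ' m m') (h1 : 𝔉.Rt τ τ' m1 m1') : 𝔉.Rt τ τ' (m - m1) (m' - m1') := by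
  obtain ⟨n, N, hN, Ψ, hΨ, a1, a2, a3, a4⟩ := h
  obtain ⟨n', N', hN', Ψ', hΨ', b1, b2, b3, b4⟩ := h1
  refine ⟨n + n', N * Ψ' - Ψ * N', sub_mem (𝔉.mul hN hΨ') (𝔉.mul hΨ hN'), Ψ * Ψ', 𝔉.mul hΨ hΨ',
    ?_, ?_, ?_, ?_⟩
  · rw [map_mul, map_mul]; exact mul_ne_zero a1 b1
  · rw [map_mul, map_mul]; exact mul_ne_zero a2 b2
  · rw [map_sub, map_mul, map_mul, map_mul, ← a3, ← b3]; ring
  · rw [map_sub, map_mul, map_mul, map_mul, ← a4, ← b4]; ring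

theorem Rt.mul (h : 𝔉.Rt τ τ' m m') (h1 : 𝔉.Rt τ τ' m1 m1') : 𝔉.Rt τ τ' (m * m1) (m' * m1') := by
  obtain ⟨n, N, hN, Ψ, hΨ, a1, a2, a3, a4⟩ := h
  obtain ⟨n', N', hN', Ψ', hΨ', b1, b2, b3, b4⟩ := h1
  refine ⟨n + n', N * N', 𝔉.mul hN hN', Ψ * Ψ', 𝔉.mul hΨ hΨ', ?_, ?_, ?_, ?_⟩
  · rw [map_mul, map_mul]; exact mul_ne_zero a1 b1
  · rw [map_mul, map_mul]; exact mul_ne_zero a2 b2
  · rw [map_mul, map_mul, ← a3, ← b3]; ring
  · rw [map_mul, map_mul, ← a4, ← b4]; ring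

theorem rt_nat (n : ℕ) : 𝔉.Rt τ τ' n n := by
  refine ⟨0, n, ?_, 1, 𝔉.one, ?_, ?_, ?_, ?_⟩
  · rw [← nsmul_one]; exact nsmul_mem 𝔉.one n
  all_goals simp

theorem rt_xs (h : 𝔉.TM τ) (h' : 𝔉.TM τ') (j : ι) : 𝔉.Rt τ τ' (𝔉.xs τ j) (𝔉.xs τ' j) := by
  exact ⟨𝔉.k0, _, 𝔉.fm _, _, 𝔉.fm _, h.e0, h'.e0, h.xs_mul j, h'.xs_mul j⟩

theorem Rt.const (h : 𝔉.Rt τ τ' m m') (hc : 𝔉.Cp τ τ') : constantCoeff m = constantCoeff m' := by
  obtain ⟨n, N, hN, Ψ, hΨ, a1, -, a3, a4⟩ := h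
  obtain ⟨c, -, hc⟩ := hc
  have h1 := hc n N hN
  rw [← a3, ← a4, map_mul, map_mul, mul_left_comm, ← hc n Ψ hΨ] at h1
  exact mul_right_cancel₀ a1 h1

private theorem TM.cf1_quot (h : 𝔉.TM τ) {N Ψ : Q} (e : m * τ Ψ = τ N) (j : ι) (n : ℕ) :
    𝔉.Ds τ j m * τ (𝔉.br * (Ψ * Ψ)) = τ (𝔉.f none * (𝔉.Dk j n N * Ψ - 𝔉.Dk j n Ψ * N)) := by
  have h1 := h.dk_eq j n N
  have h2 := h.dk_eq j n Ψ
  have h3 := congrArg (𝔉.Ds τ j) e
  rw [Derivation.leibniz, smul_eq_mul, smul_eq_mul] at h3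
  refine mul_left_cancel₀ (mul_ne_zero (cf1_k0 (𝔉 := 𝔉)) (cf1_ne h.e0)) ?_
  simp only [map_mul, map_sub]
  rw [← h3] at h1
  linear_combination τ N * h2 - τ Ψ * h1 -
    τ 𝔉.br * 𝔉.k0 * τ (𝔉.f none) * 𝔉.Ds τ j (τ Ψ) * e

/-- The derivative of `N / Ψ` is `e0 * (Dk N * Ψ - N * Dk Ψ) / (br * Ψ ^ 2)`. -/
theorem Rt.der (h : 𝔉.Rt τ τ' m m') (h1 : 𝔉.TM τ) (h2 : 𝔉.TM τ') (j : ι) :
    𝔉.Rt τ τ' (𝔉.Ds τ j m) (𝔉.Ds τ' j m') := by
  obtain ⟨n, N, hN, Ψ, hΨ, a1, a2, a3, a4⟩ := h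
  have e : 𝔉.k0 + (n + 𝔉.ws + n) = 𝔉.k0 + 𝔉.ws + (n + n) := by omega
  refine ⟨𝔉.k0 + 𝔉.ws + (n + n), 𝔉.f none * (𝔉.Dk j n N * Ψ - 𝔉.Dk j n Ψ * N),
    e ▸ 𝔉.mul (𝔉.fm _) (sub_mem (𝔉.mul (𝔉.dk j hN) hΨ) (𝔉.mul (𝔉.dk j hΨ) hN)),
    𝔉.br * (Ψ * Ψ), 𝔉.mul br_fm (𝔉.mul hΨ hΨ), ?_, ?_, h1.cf1_quot a3 j n, h2.cf1_quot a4 j n⟩
  · simp only [map_mul]; exact mul_ne_zero h1.br (mul_ne_zero a1 a1)
  · simp only [map_mul]; exact mul_ne_zero h2.br (mul_ne_zero a2 a2)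

/-! Part 2. -/

omit [CharZero k] [Fintype ι] [DecidableEq ι] [Nonempty ι] in
theorem cf2_hom {B : Type} [CommRing B] [Algebra k B] (E : B →+* PS ι k) {σ : Type} (v : σ → B)
    (h : ∀ c, E (algebraMap k B c) = C c) (P : MvPolynomial σ k) :
    E (MvPolynomial.aeval v P) = MvPolynomial.aeval (fun i => E (v i)) P :=
  MvPolynomial.comp_aeval_apply v ({ E with commutes' := h } : B →ₐ[k] PS ι k) P

omit [CharZero k] [Fintype ι] [DecidableEq ι] [Nonempty ι] in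
/-- Dehomogenisation is injective on forms. -/
theorem cf2_deh {P : MvPolynomial (Option ι) k} {d : ℕ} (h : P.IsHomogeneous d)
    (e : MvPolynomial.aeval (fun o : Option ι => o.elim (1 : MvPolynomial ι k) MvPolynomial.X) P =
      0) : P = 0 := by
  let L := FractionRing (MvPolynomial (Option ι) k)
  let φ := IsScalarTower.toAlgHom k (MvPolynomial (Option ι) k) L
  have hφ : Function.Injective φ := IsFractionRing.injective (MvPolynomial (Option ι) k) L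
  have h1 : φ (MvPolynomial.X none) ≠ 0 := fun e =>
    MvPolynomial.X_ne_zero _ (hφ (e.trans (map_zero φ).symm))
  have h2 := congrArg
    (MvPolynomial.aeval fun i => φ (MvPolynomial.X (some i)) / φ (MvPolynomial.X none)) e
  rw [map_zero, MvPolynomial.comp_aeval_apply] at h2
  have h3 := MvPolynomial.comp_aeval_apply MvPolynomial.X φ P
  rw [MvPolynomial.aeval_X_left_apply] at h3
  refine hφ ?_
  rw [map_zero, h3, ← mul_zero (φ (MvPolynomial.X none) ^ d), ← h2, ← wrc2_scale h]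
  refine congrArg (fun v => MvPolynomial.aeval v P) (funext fun o => ?_)
  cases o <;> simp [mul_div_cancel₀ _ h1]

/-- Move the coordinates to `X j + c j`. -/
theorem _root_.Pool.Agent.E7.indep_of_jac {x : ι → PS ι k} (h : IsUnit (jacS x).det) :
    AlgebraicIndependent k x := by
  obtain ⟨y, h1, h2, -⟩ := evx_surj h (C : k →+* PS ι k)
    (z := fun j => X j + C (constantCoeff (x j))) (by simpa using c0_X.ev)
  refine algebraicIndependent_iff.2 fun P hP => ?_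
  have h3 := cf2_hom (evx C y) x (evx_C h1) P
  have h4 := cf2_hom (MvPolynomial.coeToMvPowerSeries.ringHom (σ := ι) (R := k))
    (fun j => MvPolynomial.X j + MvPolynomial.C (constantCoeff (x j))) MvPolynomial.coe_C P
  simp only [hP, h2, map_zero] at h3
  simp only [MvPolynomial.coeToMvPowerSeries.ringHom_apply, MvPolynomial.coe_add,
    MvPolynomial.coe_X, MvPolynomial.coe_C, ← h3, MvPolynomial.coe_eq_zero_iff] at h4
  have h5 := congrArg (MvPolynomial.aeval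
    fun j => (MvPolynomial.X j - MvPolynomial.C (constantCoeff (x j)) : MvPolynomial ι k)) h4
  rw [MvPolynomial.comp_aeval_apply] at h5
  simpa using h5

theorem TM.alg (h : 𝔉.TM τ) {a : ℕ} {F : Q} (hF : F ∈ 𝔉.Fm (a * 𝔉.k0)) :
    τ F * Ring.inverse (τ (𝔉.f none)) ^ a ∈ algS k (𝔉.xs τ) := by
  obtain ⟨R, h0, ⟨L, hL⟩, hR⟩ := 𝔉.alg a F hF
  let D : MvPolynomial (Option ι) k →ₐ[k] MvPolynomial ι k :=
    MvPolynomial.aeval fun o => o.elim 1 MvPolynomial.X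
  have hu : IsUnit (τ (𝔉.f none)) := isUnit_iff_constantCoeff.2 h.e0.isUnit
  refine algS_root (P := R.map D.toRingHom)
    (fun e => h0 (Polynomial.ext fun j => by_contra fun hj => ?_)) ?_
  · obtain ⟨d, -, hd⟩ := hL j hj
    have h1 := congrArg (Polynomial.coeff · j) e
    simp only [Polynomial.coeff_map] at h1
    exact hj (cf2_deh hd (algebraicIndependent_iff.1 (indep_of_jac h.jac) _ h1))
  · have h1 := congrArg (fun G => Ring.inverse (τ (𝔉.f none)) ^ L * τ G) hR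
    simp only [map_zero, mul_zero] at h1
    rw [Polynomial.eval₂_map, ← h1, Polynomial.eval₂_eq_sum, Polynomial.eval₂_eq_sum, Polynomial.sum,
      Polynomial.sum, map_sum, Finset.mul_sum]
    refine Finset.sum_congr rfl fun j hj => ?_
    obtain ⟨d, rfl, hd⟩ := hL j (Polynomial.mem_support_iff.1 hj)
    have h2 : MvPolynomial.aeval (𝔉.xs τ) (D (R.coeff j)) =
        Ring.inverse (τ (𝔉.f none)) ^ d * τ (MvPolynomial.aeval 𝔉.f (R.coeff j)) := by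
      rw [cf2_hom τ _ h.cst, ← wrc2_scale hd, MvPolynomial.comp_aeval_apply]
      refine congrArg (fun v => MvPolynomial.aeval v (R.coeff j)) (funext fun o => ?_)
      cases o with
      | none => simp [Ring.inverse_mul_cancel _ hu]
      | some i => simp [xs, mul_comm]
    refine (congrArg (· * _) h2).trans ?_
    rw [map_mul, map_pow]
    change _ = _ * (τ (MvPolynomial.aeval 𝔉.f (R.coeff j)) * _)
    ring

/-- Compare `N * Ψ ^ (k0 - 1)` and `Ψ ^ k0`. -/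
theorem Rt.alg (h : 𝔉.Rt τ τ' m m') (h1 : 𝔉.TM τ) : m ∈ algS k (𝔉.xs τ) := by
  obtain ⟨n, N, hN, Ψ, hΨ, h2, -, h3, -⟩ := h
  obtain ⟨r, hr⟩ := Nat.exists_eq_add_one_of_ne_zero 𝔉.pos.ne'
  have h4 := h1.alg (a := n) (F := Ψ ^ 𝔉.k0) (mul_comm n _ ▸ pow_fm hΨ _)
  have h5 := h1.alg (a := n) (F := N * Ψ ^ r)
    ((show n + r * n = n * 𝔉.k0 by rw [hr]; ring) ▸ 𝔉.mul hN (pow_fm hΨ r))
  refine algS_div h4 (IsUnit.ne_zero ?_) ?_
  · rw [map_pow]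
    exact ((isUnit_iff_constantCoeff.2 h2.isUnit).pow _).mul
      ((isUnit_iff_constantCoeff.2 h1.e0.isUnit).ringInverse.pow _)
  · rw [map_mul, ← h3, map_pow] at h5
    rw [map_pow, hr, pow_succ, mul_right_comm, mul_assoc _ _ m, mul_comm (τ Ψ ^ r), mul_comm (τ Ψ)]
    exact h5

theorem exists_zs (h : 𝔉.TM τ) (h' : 𝔉.TM τ') (hc : 𝔉.Cp τ τ') :
    ∃ ζ : ι → PS ι k, C0 ζ ∧ ∀ j, sb ζ (𝔉.xs τ j) = 𝔉.xs τ' j := by
  have h1 : C0 fun j => 𝔉.xs τ' j - C (constantCoeff (𝔉.xs τ j)) := fun j => by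
    rw [map_sub, constantCoeff_C, (rt_xs h h' j).const hc, sub_self]
  obtain ⟨y, -, h2, h3⟩ := evx_surj h.jac (C : k →+* PS ι k) h1.ev
  refine ⟨y, fun i => ?_, h2⟩
  exact (Ideal.span_le (I := RingHom.ker constantCoeff)).2 (Set.range_subset_iff.2 h1) (h3 i)

/-- `odeu` for the family of all differences. -/
theorem Rt.sb_eq (h : 𝔉.Rt τ τ' m m') (h1 : 𝔉.TM τ) (h2 : 𝔉.TM τ') (hc : 𝔉.Cp τ τ')
    {ζ : ι → PS ι k} (h0 : C0 ζ) (hx : ∀ j, sb ζ (𝔉.xs τ j) = 𝔉.xs τ' j) : sb ζ m = m' := by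
  refine sub_eq_zero.1 (odeu (fun a : {q : PS ι k × PS ι k // 𝔉.Rt τ τ' q.1 q.2} =>
    sb ζ a.1.1 - a.1.2) (fun a => ?_) (fun l a => ?_) ⟨(m, m'), h⟩)
  · rw [map_sub, const_sb h0, a.2.const hc, sub_self]
  · have h3 : pderiv k l (sb ζ a.1.1) = ∑ j, sb ζ (𝔉.Ds τ j a.1.1) * pderiv k l (𝔉.xs τ' j) := by
      simp only [← hx, pderiv_sb h0, Finset.mul_sum]
      rw [Finset.sum_comm]
      refine Finset.sum_congr rfl fun i _ => ?_
      rw [h1.pderiv_eq i a.1.1, map_sum, Finset.sum_mul]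
      simp only [map_mul, mul_assoc]
    rw [map_sub, h3, h2.pderiv_eq l a.1.2, ← Finset.sum_sub_distrib]
    refine Ideal.sum_mem _ fun j _ => ?_
    rw [← sub_mul]
    exact Ideal.mul_mem_right _ _ (Ideal.subset_span ⟨⟨(_, _), a.2.der h1 h2 j⟩, rfl⟩)

end FS

end Pool.Agent.E7
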