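import Pool.Agent.Lib.MP_7e5527_ag.EA.HDefs
import Pool.Agent.Lib.MP_7e5527_ag.EO.OG3

/-! The hypothesis on the point, for functions on the domain. -/

open Filter Topology Polynomial Matrix

noncomputable section

namespace Pool.Agent.E7

variable {p : ℕ} [Fact p.Prime]

/-- The content of `IsOrdR`, without the last clause. -/
structure OrdB (e : ℂ_[p] ≃+* ℂ) (Z0 : HH) (χ : Fn → ℂ_[p]) (c : ℂ) (k0 : ℕ) (S0 : Set Fn) :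
    Prop where
  c0 : c ≠ 0
  pos : 0 < k0
  fin : S0.Finite
  mem : ∀ G ∈ S0, MI Gam k0 G ∧ IntC G
  fc : FC e χ
  bd : ∀ (n : ℕ) (k : Fin n → ℤ) (F : Fin n → Fn), (∀ i, MF (k i) (F i)) →
    (∀ T, ‖e.symm (∑ i, cf (F i) T)‖ ≤ 1) → ‖∑ i, χ (F i)‖ ≤ 1
  lvl : ∀ k F, MI Gam k F → F Z0 = c ^ k * e (χ F)
  red : ∀ A t B, IsSim A t → ∀ T0 ∈ Lam, ∃ G ∈ S0, ‖χ (opP A B (clsF p T0 G))‖ = 1
  alg : ∀ k F G, MF k F → MF k G → (∀ T, IsAlgebraic ℚ (cf F T) ∧ IsAlgebraic ℚ (cf G T)) →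
    IsAlgebraic ℚ_[p] (χ F / χ G)

/-- The last clause of `IsOrdR`. -/
def NcR (χ : Fn → ℂ_[p]) (k0 r : ℕ) : Prop :=
  ∀ (s : ℂ_[p] →+* ℂ_[p]) (f : ℕ) (κ : Matrix Ix Ix ℚ_[p]), 0 < f → Frob s f →
    (∀ (j : ℕ) (B B' : Ix → ℚ), (p : ℚ) ^ j • B ∈ Lam → (p : ℚ) ^ j • B' ∈ Lam →
      (∀ T ∈ Lam, ‖tr (toR ℚ_[p] T) (toR ℚ_[p] B' - κ.mulVec (toR ℚ_[p] B))‖ ≤ 1) →
      ∃ d : ℂ_[p], d ≠ 0 ∧ ∀ (n : ℕ) F, MI Gam (n * k0) F → IntC F →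
        s (χ (opP 1 B F)) = d ^ n * χ (opP 1 B' F)) →
    ∀ q : Fin (r + 1) → Ix × Ix, ∃ P : MvPolynomial (Fin (r + 1)) ℚ_[p], P ≠ 0 ∧
      ∀ (g : Matrix Ix Ix ℚ_[p]) (t : ℚ_[p]), t ≠ 0 → (∀ x, nrm (g.mulVec x) = t * nrm x) →
        g * κ = κ * g → MvPolynomial.eval (fun a => g (q a).1 (q a).2) P = 0

theorem IsOrdR.ordB {e : ℂ_[p] ≃+* ℂ} {r : ℕ} {Z0 : Ix → ℂ} (h0 : Z0 ∈ HH) (h : IsOrdR e r Z0) :
    ∃ χ c k0 S0, OrdB e ⟨Z0, h0⟩ χ c k0 S0 ∧ NcR χ k0 r := by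
  obtain ⟨χ, c, k0, S, hc, hk, hS, hs, hm, hb, hl, hr, ha, hn⟩ := h
  have dep : ∀ {k : ℤ} {G : Fn} (H : (Ix → ℂ) → ℂ), MF k G → (∀ Z : HH, H Z = G Z) →
      χ H = χ (ext G) := fun {k G} H hG hH => by
    have h1 := qo_smul hG.isForm 0
    have h2 := qo_zero hs hb hG.isForm h1 (H := H) (by
      rw [zero_smul, add_zero]
      exact hG.isForm.congr fun Z hZ => by rw [ext, ofC_eq hZ, ← hH])
    rwa [hs _ _ _ _ hG.isForm, map_zero, zero_mul, add_zero] at h2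
  have hp : 0 < p := (Fact.out : p.Prime).pos
  have red : ∀ A t B, IsSim A t → ∀ T0 ∈ Lam, ∃ G ∈ {G : Fn | ∃ a ∈ S, ∃ F,
      (IsMF k0 F fun T => a T) ∧ G = res F}, MF k0 (opP A B (clsF p T0 G)) ∧
        ‖χ (ext (opP A B (clsF p T0 G)))‖ = 1 := fun A t B hA T0 hT => by
    obtain ⟨a, a1, ⟨F, a2⟩, a3⟩ := hr A t B T0 hT hA
    have a4 := (a2.mf.clsF hp T0).opP hA B
    refine ⟨res F, ⟨a, a1, F, a2, rfl⟩, a4, ?_⟩
    refine (congrArg norm (dep _ a4 fun Z => ?_)).symm.trans a3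
    rw [opP_apply, clsF, cls, a2.good.cf_eq, coe_ofC (HH.add_toR (HH.lin_mem Z.2 hA) B)]
    refine tsum_congr fun T => ?_
    rw [clc, ite_mul, zero_mul]
    rfl
  have mul : ∀ k l F G, MF k F → MF l G → χ (ext (F * G)) = χ (ext F) * χ (ext G) :=
    fun k l F G hF hG => hm _ _ _ _ _ _ hF.isForm hG.isForm
  refine ⟨fun F => χ (ext F), c, k0, {G : Fn | ∃ a ∈ S, ∃ F, (IsMF k0 F fun T => a T) ∧ G = res F},
    ⟨hc, hk, ?_, ?_, ⟨?_, fun k F G hF hG => ?_, mul, fun k F x hF => hs _ _ _ x hF.isForm⟩,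
    fun n k F hF => hb n k _ _ fun i => (hF i).isForm, fun k F hF => ?_,
    fun A t B hA T0 hT => ?_, fun k F G hF hG => ha _ _ _ _ _ hF.isForm hG.isForm⟩,
    fun s f κ hf hσ H => hn s f κ hf hσ.iso hσ.res fun j B B' hB hB' hT => ?_⟩
  · refine (hS.image fun a (Z : HH) => ∑' T, (a T : ℂ) * eT T Z).subset ?_
    rintro _ ⟨a, a1, F, a2, rfl⟩
    exact ⟨a, a1, funext fun Z => (a2.good.sum Z).tsum_eq⟩
  · rintro _ ⟨a, -, F, a2, rfl⟩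
    exact qo_res a2
  · obtain ⟨G, -, a1, a2⟩ := red 1 1 0 IsSim.one 0 Lam.zero
    have a3 := mul _ _ _ _ MF.one a1
    rw [one_mul] at a3
    refine mul_right_cancel₀ (norm_ne_zero_iff.1 (a2 ▸ one_ne_zero)) ?_
    rw [one_mul]
    exact a3.symm
  · refine qo_zero hs hb hF.isForm hG.isForm ?_
    rw [← (hF.gd.spec.add hG.gd.spec).cf_eq]
    exact (hF.add hG).isForm
  · have a1 := hl _ _ _ (isMF_ext hF.1.gd hF.2)
    rwa [ext, ofC_eq h0] at a1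
  · obtain ⟨G, a1, -, a2⟩ := red A t B hA T0 hT
    exact ⟨G, a1, a2⟩
  · obtain ⟨d, a1, a2⟩ := H j B B' hB hB' hT
    refine ⟨d, a1, fun n F a a3 => ?_⟩
    have a4 : ∀ B, χ (fun Z => F (Z + toR ℂ B)) = χ (ext (opP 1 B (res F))) := fun B =>
      dep _ (a3.mf.opP IsSim.one B) fun Z => by
        rw [opP_apply, lin_one, res, coe_ofC (HH.add_toR Z.2 B)]
    rw [a4, a4]
    exact a2 n _ (qo_res a3).1 (qo_res a3).2

variable {e : ℂ_[p] ≃+* ℂ}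

theorem OrdB.even {Z0 : HH} {χ : Fn → ℂ_[p]} {c : ℂ} {k0 : ℕ} {S0 : Set Fn}
    (h : OrdB e Z0 χ c k0 S0) : ∃ r : ℕ, 0 < r ∧ k0 = 2 * r := by
  rcases Nat.even_or_odd k0 with ⟨r, hr⟩ | ho
  · have := h.pos
    exact ⟨r, by omega, by omega⟩
  obtain ⟨G, h1, h2⟩ := h.red 1 1 0 IsSim.one 0 Lam.zero
  have h3 : clsF p 0 0 = 0 := funext fun Z => by simp [clsF, clc, GoodC.zero.cf_eq]
  rw [odd_zero (Int.odd_coe_nat _ |>.2 ho) (h.mem G h1).1.2, h3, map_zero, h.fc.zero,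
    norm_zero] at h2
  exact absurd h2 zero_ne_one

/-- Integers times roots of unity are algebraic (`GoodC.opP`, `eT_root`). -/
theorem OrdB.alg_opP {Z0 : HH} {χ : Fn → ℂ_[p]} {c : ℂ} {k0 : ℕ} {S0 : Set Fn}
    (h : OrdB e Z0 χ c k0 S0) {A : Matrix Ix Ix ℚ} {t : ℚ} (hA : IsSim A t) (B : Ix → ℚ) {k : ℤ}
    {F G : Fn} (hF : MF k F) (hG : MF k G) (iF : IntC F) (iG : IntC G) :
    IsAlgebraic ℚ_[p] (χ (opP A B F) / χ (opP A B G)) := by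
  have key : ∀ {F : Fn}, MF k F → IntC F → ∀ T, IsAlgebraic ℚ (cf (opP A B F) T) :=
    fun {F} hF iF T => by
      obtain ⟨n, hn⟩ := iF (lin (adjM A)⁻¹ T)
      obtain ⟨N, hN, h1⟩ := eT_root (lin (adjM A)⁻¹ T) B
      rw [(hF.gd.spec.opP hA B).cf_eq]
      beta_reduce
      rw [hn]
      exact (isAlgebraic_intCast n).mul (IsAlgebraic.of_pow hN (h1 ▸ isAlgebraic_one))
  exact h.alg k _ _ (hF.opP hA B) (hG.opP hA B) fun T => ⟨key hF iF T, key hG iG T⟩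

variable {Z0 : HH} {χ : Fn → ℂ_[p]} {c : ℂ} {k0 N : ℕ} {S0 : Set Fn} {χb : CQ e →+* ℂ_[p]}

theorem OrdB.frame (O : OrdB e Z0 χ c k0 S0) {A : Matrix Ix Ix ℚ} {t : ℚ} (hA : IsSim A t)
    (B : Ix → ℚ) : ∃ G : Option Ix → Fn, (∀ o, MI Gam k0 (G o) ∧ IntC (G o)) ∧
      ∀ o, ‖χ (opP A B (clsF p (oT o) (G o)))‖ = 1 := by
  have h : ∀ o, oT o ∈ Lam := fun o => by
    cases o
    · exact Lam.zero
    · exact TT_mem _
  choose G h1 h2 using fun o => O.red A t B hA (oT o) (h o)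
  exact ⟨G, fun o => O.mem _ (h1 o), h2⟩

theorem OrdB.alg_xc (O : OrdB e Z0 χ c k0 S0) (hx : Ext e χ χb) {G : Option Ix → Fn}
    (hG : ∀ o, MI Gam k0 (G o) ∧ IntC (G o)) {A : Matrix Ix Ix ℚ} {t : ℚ} (hA : IsSim A t)
    (B : Ix → ℚ) (i : Ix) : IsAlgebraic ℚ_[p] ((frm e G hG).xc (chAB χb hA B) i) := by
  have hp : 0 < p := (Fact.out : p.Prime).pos
  rw [frm_xc hG hx hA B i]
  have h1 := frm_int (e := e) hG (some i)
  have h2 := frm_int (e := e) hG none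
  rw [frm_oe] at h1 h2
  exact O.alg_opP hA B ((hG _).1.1.clsF hp _) ((hG _).1.1.clsF hp _) h1 h2

end Pool.Agent.E7
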