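import Pool.Agent.Lib.MP_7e5527_ag.EO.R1
import Pool.Agent.Lib.MP_7e5527_ag.EA.AH

/-! The data of an infinite sequence of ordinary Hecke points. -/

open Filter Topology Polynomial Matrix

noncomputable section

namespace Pool.Agent.E7

variable {p : ℕ} [Fact p.Prime] {R : Type} [CommRing R] {S : TW p cone R} {r : ℕ}

/-- Any `r + 1` entries are dependent on the centraliser of `α` in the similitudes. -/
def Cen (r : ℕ) (α : Matrix Ix Ix ℂ_[p]) : Prop :=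
  ∀ (U : Ultrafilter ℕ) (g : ℕ → Matrix Ix Ix ℚ_[p]), (∀ᶠ n in (U : Filter ℕ), Conf (g n) ∧
    (g n).map (algebraMap ℚ_[p] ℂ_[p]) * α = α * (g n).map (algebraMap ℚ_[p] ℂ_[p])) →
      UDep U r fun n (q : Ix × Ix) => g n q.1 q.2

/-- An infinite sequence of ordinary Hecke points. -/
structure HDat (S : TW p cone R) (r : ℕ) where
  M : Cl S
  W : Cl S
  tow : W.Tow
  sub : ∀ a, M.M a ⊆ W.M a
  χ : R →+* ℂ_[p]
  Ec : Fr S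
  gc : Ec.Gp χ
  ac : Ad3 M Ec
  bc : BDeg M Ec
  wc : Ad W Ec
  algc : ∀ i, IsAlgebraic ℚ_[p] (Ec.xc χ i)
  E : Fr S
  aE : Ad3 M E
  bE : BDeg M E
  wE : Ad W E
  ψ : ℕ → R →+* ℂ_[p]
  gp : ∀ n, E.Gp (ψ n)
  lin : ∀ n, S.Lin (ψ n)
  ψ' : ℕ → R →+* ℂ_[p]
  E' : ℕ → Fr S
  M' : ℕ → Cl S
  gp' : ∀ n, (E' n).Gp (ψ' n)
  lin' : ∀ n, S.Lin (ψ' n)
  a' : ∀ n, Ad3 (M' n) (E' n)
  b' : ∀ n, BDeg (M' n) (E' n)
  w' : ∀ n, Ad W (E' n)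
  alg' : ∀ n i, IsAlgebraic ℚ_[p] ((E' n).xc (ψ' n) i)
  N : ℕ → ℕ
  hN : ∀ n, 0 < N n
  g0 : ℕ → R →+* R
  isg0 : ∀ n, S.Isg (g0 n) ((N n : ℤ) • (1 : Matrix Ix Ix ℤ))
  eq0 : ∀ n, χ = (ψ' n).comp (g0 n)
  g : ℕ → R →+* R
  Cm : ℕ → Matrix Ix Ix ℤ
  isg : ∀ n, S.Isg (g n) (Cm n)
  t : ℕ → R →+* R
  ζ : ℕ → Ix → ℂ_[p]ˣ
  Mo : ℕ → ℕ
  trl : ∀ n, S.Trl (t n) (ζ n) (Mo n)
  eq1 : ∀ n, ψ n = ((ψ' n).comp (g n)).comp (t n)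
  w0 : ∀ n a, ∀ F ∈ W.M a, g0 n F ∈ W.M a
  w1 : ∀ n a, ∀ F ∈ W.M a, g n F ∈ W.M a
  m0 : ∀ n a, ∀ F ∈ M.M a, g0 n F ∈ (M' n).M a
  m1 : ∀ n a c, ∀ F ∈ M.M a, g n (S.cs (Mo n) c F) ∈ (M' n).M a
  conf : ∀ n, Conf (mc p (Cm n))
  fib : ∀ x, {n | E.xc (ψ n) = x}.Finite
  nc : ∀ s f α, 0 < f → Frob s f → ZpM α → M.Tor (s.comp χ) χ α → Cen r α

variable {σ s : ℂ_[p] →+* ℂ_[p]} {f : ℕ}

/-- Let `w'` be the cocycle of `ψ' n` (`Ad.frob`). Then `w0 = w' ^ N n` (`eq0`, `Sim.comp`,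
`twc_isg`, `Isg.comm`, `twc_inj`). With `η i = σ (ζ i) / ζ i ^ p ^ f`, a root of unity of `p`-power
order (`root_ppow`), one has `w = η * upow w' (Cm n)`: expand with `Trl.eq_sum`, `cs_sum`,
`Trl.sup`, `twc_sup`, `twc_twc`. -/
theorem HDat.coc0 (D : HDat S r) (hσ : Frob σ f) (n : ℕ) : ∃ w' η : Ix → ℂ_[p]ˣ, Nr w' ∧ Nr η ∧
    (∀ i, η i ^ D.Mo n = 1) ∧
    D.W.Sim (σ.comp D.χ) (S.twc (D.χ.comp (S.fr ^ f)) (w' ^ D.N n)) ∧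
    D.W.Sim (σ.comp (D.ψ n)) (S.twc ((D.ψ n).comp (S.fr ^ f)) (η * upow w' (D.Cm n))) := by
  obtain ⟨w', hw, hs⟩ := (D.w' n).frob (D.gp' n) hσ
  have hc := (D.gp' n).ch
  obtain ⟨hη, hη'⟩ := g2_eta hσ (D.trl n).pos (D.trl n).ord
  refine ⟨w', _, hw, hη, hη', ?_, ?_⟩
  · rw [D.eq0 n, ← upow_scalar]
    exact g2_isg hc hw hs (D.isg0 n) (D.w0 n)
  · rw [D.eq1 n]
    exact g2_trl D.tow hσ (hc.isg (D.isg n))
      (fun c => by rw [RingHom.comp_apply, (D.isg n).cst]; exact D.lin' n c) (hw.upow _)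
      (g2_isg hc hw hs (D.isg n) (D.w1 n)) (D.trl n)

/-- `twc_inj`; for the second part `root_ppow` and `j < p ^ j ≤ N * Mo`. -/
theorem HDat.coc (D : HDat S r) (hσ : Frob σ f) (n : ℕ) {w0 w : Ix → ℂ_[p]ˣ} (h0 : Nr w0) (h1 : Nr w)
    (s0 : D.W.Sim (σ.comp D.χ) (S.twc (D.χ.comp (S.fr ^ f)) w0))
    (s1 : D.W.Sim (σ.comp (D.ψ n)) (S.twc ((D.ψ n).comp (S.fr ^ f)) w)) :
    (D.N n : ℂ_[p]) • lgv p w = mc p (D.Cm n) *ᵥ lgv p w0 ∧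
      (w0 = 1 → w ^ p ^ (D.N n * D.Mo n) = 1) := by
  obtain ⟨w', η, hw, hη, hη', t0, t1⟩ := D.coc0 hσ n
  have e0 : w0 = w' ^ D.N n := D.wc.twc_inj (D.gc.fr f) h0 (hw.pow _) (s0.symm.trans t0)
  have e1 : w = η * upow w' (D.Cm n) :=
    D.wE.twc_inj ((D.gp n).fr f) h1 (hη.mul (hw.upow _)) (s1.symm.trans t1)
  refine ⟨?_, fun h => ?_⟩
  · rw [e0, e1, lgv_mul hη (hw.upow _), lgv_root hη (D.trl n).pos hη', zero_add, lgv_upow hw,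
      lgv_pow hw, mulVec_smul]
    rfl
  · have h2 : ∀ l, w' l ^ D.N n = 1 := fun l => congrFun (e0.symm.trans h) l
    have hpos := Nat.mul_pos (D.hN n) (D.trl n).pos
    obtain ⟨j, hj, h3⟩ := root_ppow h1 hpos fun i => by
      have h4 : upow w' (D.Cm n) i ^ D.N n = 1 := by
        rw [upow, ← Finset.prod_pow]
        refine Finset.prod_eq_one fun l _ => ?_
        rw [← zpow_natCast, ← _root_.zpow_mul, mul_comm, _root_.zpow_mul, zpow_natCast, h2,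
          _root_.one_zpow]
      rw [e1, Pi.mul_apply, mul_pow, pow_mul', hη', one_pow, pow_mul, h4, one_pow, one_mul]
    obtain ⟨k, hk⟩ := pow_dvd_pow p
      ((Nat.lt_pow_self (Fact.out : p.Prime).one_lt).le.trans (Nat.le_of_dvd hpos hj))
    funext i
    rw [Pi.pow_apply, hk, pow_mul, h3, one_pow, Pi.one_apply]

theorem HDat.isL (D : HDat S r) (hσ : Frob σ f) (hf : 0 < f) (n : ℕ) {L0 L : Ix → ℂ_[p]}
    (l0 : D.W.IsL σ f D.χ L0) (l : D.W.IsL σ f (D.ψ n) L) :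
    L = ((D.N n : ℂ_[p])⁻¹ • mc p (D.Cm n)) *ᵥ L0 := by
  obtain ⟨w0, n0, s0, e0⟩ := l0
  obtain ⟨w, n1, s1, e1⟩ := l
  refine g2b_uniq hσ hf ?_ e0 e1 ?_
  · ext i j
    simp [mc]
  · rw [smul_mulVec, ← (D.coc hσ n n0 n1 s0 s1).1, smul_smul,
      inv_mul_cancel₀ (Nat.cast_ne_zero.2 (D.hN n).ne'), one_smul]

/-- A power of `s` fixes the coordinates of `ψ' n` and the roots of unity; `BDeg.period`. -/
theorem HDat.deep (D : HDat S r) (hs : UAP.Iso s) (n : ℕ) : ∃ r' : ℕ, 0 < r' ∧ ∀ k : ℕ,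
    (D.M' n).Sim ((s ^ (r' * k)).comp (D.ψ' n)) (D.ψ' n) ∧
      ∀ i, (s ^ (r' * k)) (D.ζ n i) = D.ζ n i := by
  have hζ : ∀ i, IsAlgebraic ℚ_[p] (D.ζ n i : ℂ_[p]) := fun i => by
    refine IsAlgebraic.of_pow (D.trl n).pos ?_
    rw [← Units.val_pow_eq_pow_val, (D.trl n).ord i, Units.val_one]
    exact isAlgebraic_one
  obtain ⟨r, hr, h⟩ := iso_period_fam hs (τ := Ix ⊕ Ix)
    (y := Sum.elim ((D.E' n).xc (D.ψ' n)) fun i => (D.ζ n i : ℂ_[p]))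
    (by
      rintro (i | i)
      · exact D.alg' n i
      · exact hζ i)
  obtain ⟨r', hr', h'⟩ := (D.b' n).period (D.a' n).toAd (D.gp' n) (hs.iterate r)
    fun i => h (Sum.inl i)
  refine ⟨r * r', Nat.mul_pos hr hr', fun k => ⟨?_, fun i => ?_⟩⟩
  · rw [pow_mul, pow_mul]
    exact h'.pow k
  · rw [mul_assoc, pow_mul]
    exact pow_fix (h (Sum.inr i)) _

/-- Let `α'` be the matrix of `ψ' n` on `M' n`. Composing with `g0 n` gives `α' = β`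
(`Sim.comp`, `twc_isg`, `trn_lg`, `mat_eq_of_lgv`); composing with `g n`, `t n` (`Sim.trl`,
`twc_isg`, `twc_trl`, `lgv_upow`) gives the relation. -/
theorem HDat.alpha (D : HDat S r) (hs : UAP.Iso s) (n : ℕ)
    (h1 : (D.M' n).Sim (s.comp (D.ψ' n)) (D.ψ' n)) (h2 : ∀ i, s (D.ζ n i) = D.ζ n i)
    {β : Matrix Ix Ix ℂ_[p]} (hβ : D.M.Trn (s.comp D.χ) D.χ β) :
    D.M.Sim (s.comp (D.ψ n)) (D.ψ n) ∧ ∀ α, D.M.Trn (s.comp (D.ψ n)) (D.ψ n) α →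
      α * mc p (D.Cm n) = mc p (D.Cm n) * β := by
  have hs' : ∀ a, ‖s a‖ ≤ ‖a‖ := fun a => (hs a).le
  have g2 := D.gp' n
  have g1 : (D.E' n).Gp (s.comp (D.ψ' n)) := g2.map s hs'
  have hζ : ∀ i, (s.comp (D.ψ' n)) (S.cst (D.ζ n i)) = D.ψ' n (S.cst (D.ζ n i)) := fun i => by
    rw [RingHom.comp_apply, D.lin' n]
    exact h2 i
  have e1 : ((s.comp (D.ψ' n)).comp (D.g n)).comp (D.t n) = s.comp (D.ψ n) := by
    rw [D.eq1 n]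
    rfl
  have e0 : (s.comp (D.ψ' n)).comp (D.g0 n) = s.comp D.χ := by
    rw [D.eq0 n]
    rfl
  constructor
  · have := h1.trl (D.isg n) (D.trl n) (D.m1 n) hζ
    rwa [e1, ← D.eq1 n] at this
  intro α hα
  refine mat_eq_of_lgv fun u hu => ?_
  obtain ⟨v, hv, huv⟩ := (D.a' n).toAd.tr_ex g1 g2 h1 hu
  have k0 := huv.comp (D.g0 n) (D.m0 n)
  rw [TW.twc_isg g1.ch hu (D.isg0 n), TW.twc_isg g2.ch hv (D.isg0 n), e0, ← D.eq0 n, upow_scalar,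
    upow_scalar] at k0
  have k1 := D.ac.toAd.trn_lg D.gc hβ (hu.pow _) (hv.pow _) k0
  rw [lgv_pow hu, lgv_pow hv, mulVec_smul] at k1
  have hN : (D.N n : ℂ_[p]) ≠ 0 := Nat.cast_ne_zero.2 (D.hN n).ne'
  have k2 : lgv p v = β *ᵥ lgv p u := smul_right_injective _ hN k1
  have k3 := huv.trl (D.isg n) (D.trl n) (D.m1 n) fun i => by
    rw [TW.twc_cst g1.ch hu, TW.twc_cst g2.ch hv]
    exact hζ i
  rw [TW.twc_isg g1.ch hu (D.isg n), TW.twc_isg g2.ch hv (D.isg n),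
    TW.twc_trl (g1.ch.isg (D.isg n)) (hu.upow _) (D.trl n),
    TW.twc_trl (g2.ch.isg (D.isg n)) (hv.upow _) (D.trl n), e1, ← D.eq1 n] at k3
  have k4 := D.aE.toAd.trn_lg (D.gp n) hα (hu.upow _) (hv.upow _) k3
  rw [lgv_upow hu, lgv_upow hv, k2] at k4
  rw [← mulVec_mulVec, ← mulVec_mulVec]
  exact k4.symm

theorem HDat.mc_unit (D : HDat S r) (n : ℕ) : IsUnit (mc p (D.Cm n)).det := by
  have h : (mc p (D.Cm n)).det = ((D.Cm n).det : ℂ_[p]) := (Int.cast_det _).symm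
  rw [h]
  exact (Int.cast_ne_zero.2 (D.isg n).det).isUnit

/-- With `s0 = σ ^ r0` from `BDeg.period`, `α` from `Ad3.tr`, `N0` from `exists_cent`,
`β = α ^ N0`; `nc` applies to `s0 ^ N0` (`Frob.pow`, `trn_pow`, `trn_unique`). The matrix
`g = (A m)⁻¹ * κ * A n` with `A n = (N n)⁻¹ • mc (Cm n)` commutes with `β`. -/
theorem HDat.cent (D : HDat S r) {σ : ℂ_[p] →+* ℂ_[p]} {f : ℕ} (hσ : Frob σ f) (hf : 0 < f)
    (hx : ∀ i, σ (D.Ec.xc D.χ i) = D.Ec.xc D.χ i) : ∃ β : Matrix Ix Ix ℂ_[p],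
    Cen r β ∧ ∀ (m n : ℕ) (u : Ix → ℂ_[p]ˣ)
      (κ : Matrix Ix Ix ℂ_[p]), Nr u → D.M.Sim (D.ψ n) (S.twc (D.ψ m) u) →
      D.M.Trn (D.ψ n) (S.twc (D.ψ m) u) κ →
      (mc p (D.Cm m))⁻¹ * κ * mc p (D.Cm n) * β = β * ((mc p (D.Cm m))⁻¹ * κ * mc p (D.Cm n)) := by
  obtain ⟨r0, hr0, hs0⟩ := D.bc.period D.ac.toAd D.gc hσ.iso hx
  have F0 := hσ.pow r0
  obtain ⟨α, tα, -⟩ := D.ac.tr (D.gc.map _ fun a => (F0.iso a).le) D.gc hs0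
  obtain ⟨N0, hN0, hc⟩ := exists_cent α
  have F1 := F0.pow N0
  have hs1 := hs0.pow N0
  have t1 := D.ac.toAd.trn_pow D.gc F0.iso hs0 tα N0
  refine ⟨α ^ N0, ?_, fun m n u κ hu e hκ => ?_⟩
  · obtain ⟨κ, tκ, hz, ht, -⟩ := D.ac.tr (D.gc.map _ fun a => (F1.iso a).le) D.gc hs1
    rw [← D.ac.toAd.trn_unique D.gc tκ t1]
    exact D.nc _ _ κ (Nat.mul_pos hN0 (Nat.mul_pos hr0 hf)) F1 hz ht
  · obtain ⟨a, ha, h1⟩ := D.deep F1.iso m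
    obtain ⟨b, hb, h2⟩ := D.deep F1.iso n
    have h1' := h1 b
    have h2' := h2 a
    rw [mul_comm] at h2'
    have i2 := (F1.pow (a * b)).iso
    have t2 := D.ac.toAd.trn_pow D.gc F1.iso hs1 t1 (a * b)
    obtain ⟨sm, cm⟩ := D.alpha i2 m h1'.1 h1'.2 t2
    obtain ⟨sn, cn⟩ := D.alpha i2 n h2'.1 h2'.2 t2
    have tm := D.aE.toAd.trn ((D.gp m).map _ fun a => (i2 a).le) (D.gp m) sm
    have tn := D.aE.toAd.trn ((D.gp n).map _ fun a => (i2 a).le) (D.gp n) sn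
    have q := D.aE.toAd.square i2 (D.gp n) (D.gp m) hu e hκ sn tn sm tm
    refine hc (a * b) (Nat.mul_pos ha hb) _ ?_
    rw [pow_mul, Matrix.mul_assoc, ← cn _ tn, ← Matrix.mul_assoc, Matrix.mul_assoc _ κ, q,
      ← Matrix.mul_assoc, ← Matrix.mul_assoc, ← Matrix.mul_assoc]
    congr 2
    rw [← Matrix.nonsing_inv_mul_cancel_left _ (_ * (mc p (D.Cm m))⁻¹) (D.mc_unit m),
      ← Matrix.mul_assoc (mc p (D.Cm m)), ← cm _ tm,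
      Matrix.mul_nonsing_inv_cancel_right _ _ (D.mc_unit m)]

end Pool.Agent.E7
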