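import Pool.Agent.Lib.MP_7e5527_ag.EA.CO
import Pool.Agent.Lib.MP_7e5527_ag.EA.HD

/-! The data for the `p`-adic core. -/

open Filter Topology Polynomial Matrix

noncomputable section

namespace Pool.Agent.E7

variable {p : ℕ} [Fact p.Prime]

variable {e : ℂ_[p] ≃+* ℂ} {χ : Fn → ℂ_[p]} {c : ℂ} {Z0 : HH} {Δ : Subgroup Gb} {V : Set (Ix → ℂ)}
  {k0 N r : ℕ} {S0 : Set Fn} {χb : CQ e →+* ℂ_[p]}

theorem hecke_act {g : Gb} (hg : g ∈ GG) : ∀ Z ∈ HH, Hecke Z0 Z → Hecke Z0 (act g Z) := by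
  have h3 : ∀ {g g' : Gb}, g ∈ GG → g' ∈ GG → (∀ Z ∈ HH, Hecke Z0 Z → Hecke Z0 (act g Z)) →
      (∀ Z ∈ HH, Hecke Z0 Z → Hecke Z0 (act g' Z)) →
      ∀ Z ∈ HH, Hecke Z0 Z → Hecke Z0 (act (g * g') Z) := fun hg hg' h1 h2 Z hZ h => by
    rw [act_mul hg hg' hZ]
    exact h1 _ (act_spec hg' hZ).2.1 (h2 Z hZ h)
  have hw : ∀ Z ∈ HH, Hecke Z0 Z → Hecke Z0 (act wE Z) := fun Z _ h => act_wE Z ▸ h.flip Z
  have hG := Gam_le wE_mem
  refine Subgroup.closure_induction'' (p := fun g _ => ∀ Z ∈ HH, Hecke Z0 Z → Hecke Z0 (act g Z))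
    ?_ ?_ (fun Z _ h => (act_one Z).symm ▸ h) (fun x y hx hy => h3 hx hy) hg
  · rintro _ (⟨B, rfl⟩ | ⟨A, t, hA, hm⟩ | rfl)
    · exact fun Z _ h => act_nE _ Z ▸ h.add Z B
    · exact fun Z _ h => hm.act_eq Z ▸ h.sim Z A t hA
    · exact hw
  · rintro _ (⟨B, rfl⟩ | ⟨A, t, hA, hm⟩ | rfl)
    · rw [← nE_neg, ← toR_neg]
      exact fun Z _ h => act_nE _ Z ▸ h.add Z (-B)
    · exact fun Z _ h => (hm.symm hA).act_eq Z ▸ h.sim Z _ _ (IsSim.symm hA)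
    · rw [actx_wE_inv]
      exact h3 (mul_mem hG hG) hG (h3 hG hG hw hw) hw

/-- An infinite sequence of Hecke points on the variety, with one frame. -/
structure HPts (e : ℂ_[p] ≃+* ℂ) (χ : Fn → ℂ_[p]) (Δ : Subgroup Gb) (S0 : Set Fn) (Z0 : HH)
    (V : Set (Ix → ℂ)) where
  A : ℕ → Matrix Ix Ix ℚ
  c : ℕ → ℚ
  B : ℕ → Ix → ℚ
  sim : ∀ n, IsSim (A n) (c n)
  G : Option Ix → Fn
  mem : ∀ o, G o ∈ S0
  unit : ∀ n o, ‖χ (opP (A n) (B n) (clsF p (oT o) (G o)))‖ = 1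
  val : ∀ n, ∃ (Z : HH) (d : ℂ), Hecke Z0 Z ∧ d ≠ 0 ∧
    ∀ k F, MI Δ k F → F Z = d ^ k * e (χ (opP (A n) (B n) F))
  lv : ∀ n, ∃ Z ∈ V, ∃ d : ℂ, d ≠ 0 ∧
    ∀ k F, MI Gam k F → ext F Z = d ^ k * e (χ (opP (A n) (B n) F))
  sep : ∀ n m, n ≠ m → ¬ ∃ d : ℂ_[p], d ≠ 0 ∧ ∀ k F, MI Gam k F →
    χ (opP (A n) (B n) F) = d ^ k * χ (opP (A m) (B m) F)

theorem OrdB.exists_pts (O : OrdB e Z0 χ c k0 S0) (hΔ : Δ ≤ Gam) (hi : Δ.relIndex Gam ≠ 0)
    (hn : ¬ ∃ S : Set (Ix → ℂ), S.Finite ∧ S ⊆ HH ∧ ∀ Z, Hecke Z0 Z → Z ∈ V →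
      ∃ Z' ∈ S, SamePt Z Z') : Nonempty (HPts e χ Δ S0 Z0 V) := by
  have h0 : (Z0 : Ix → ℂ) ∈ HH := Z0.2
  obtain ⟨g, hg, hne⟩ := match_seq h0 hn
  choose γ hγ c' A cA B hc' hsim hm using fun n => O.fc.match_pt O.c0 O.lvl hΔ hi (hg n).1
  have hZ : ∀ n, act (g n) Z0 ∈ HH := fun n => (act_spec (hg n).1 h0).2.1
  have hj : ∀ n, jf (g n) Z0 ≠ 0 := fun n => (act_spec (hg n).1 h0).1
  have hm' : ∀ n k F, MI Δ k F → sl k (γ n) F ⟨act (g n) Z0, hZ n⟩ =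
      (jf (g n) Z0 * c' n) ^ k * e (χ (opP (A n) (B n) F)) := fun n k F hF => by
    have h1 := hm n k F hF
    rw [sl_mul_apply k (Gam_le (hγ n)) (hg n).1, ofC_eq (hZ n)] at h1
    rw [mul_zpow, mul_assoc, ← h1, ← mul_assoc, _root_.zpow_neg,
      mul_inv_cancel₀ (zpow_ne_zero k (hj n)), one_mul]
  have hL : ∀ o, oT o ∈ Lam := fun o => by
    rcases o with _ | i
    exacts [Lam.zero, TT_mem i]
  choose G hG hu using fun n o => O.red (A n) (cA n) (B n) (hsim n) (oT o) (hL o)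
  have := O.fin.to_subtype
  obtain ⟨G0, ht0⟩ := Finite.exists_infinite_fiber fun n o => (⟨G n o, hG n o⟩ : S0)
  let φ := Infinite.natEmbedding ((fun n o => (⟨G n o, hG n o⟩ : S0)) ⁻¹' {G0})
  have hφ' : ∀ n o, G (φ n) o = G0 o := fun n o =>
    congrArg (fun x : Option Ix → S0 => (x o : Fn)) (φ n).2
  have hsame : ∀ n m (d : ℂ_[p]), d ≠ 0 → (∀ k F, MI Gam k F →
      χ (opP (A n) (B n) F) = d ^ k * χ (opP (A m) (B m) F)) →
      SamePt (act (g n) Z0) (act (g m) Z0) := fun n m d hd hnm => by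
    have h1 : ∀ l, jf (g l) Z0 * c' l ≠ 0 := fun l => mul_ne_zero (hj l) (hc' l)
    refine ⟨jf (g n) Z0 * c' n * e d / (jf (g m) Z0 * c' m),
      div_ne_zero (mul_ne_zero (h1 n) ((map_ne_zero e).2 hd)) (h1 m), fun k F a hF => ?_⟩
    have h2 : ∀ l, F (act (g l) Z0) =
        (jf (g l) Z0 * c' l) ^ k * e (χ (opP (A l) (B l) (res F))) := fun l => by
      rw [← hm' l k _ ⟨hF.mf, hF.inv_Gam.mono hΔ⟩, hF.inv_Gam _ (hγ l)]
      rfl
    rw [h2 n, h2 m, hnm k _ ⟨hF.mf, hF.inv_Gam⟩, div_zpow, ← mul_assoc,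
      div_mul_cancel₀ _ (zpow_ne_zero k (h1 m)), map_mul, map_zpow₀, mul_zpow _ (e d), mul_assoc]
  refine ⟨⟨fun n => A (φ n), fun n => cA (φ n), fun n => B (φ n), fun n => hsim _, fun o => G0 o,
    fun o => (G0 o).2, fun n o => hφ' n o ▸ hu _ o, fun n => ?_, fun n => ?_,
    fun n m hnm ⟨d, hd, h2⟩ => ?_⟩⟩
  · have h1 := mul_mem (Gam_le (hγ (φ n))) (hg (φ n)).1
    have h2 := act_spec h1 h0
    refine ⟨⟨_, h2.2.1⟩, jf (γ (φ n) * g (φ n)) Z0 * c' (φ n), hecke_act h1 _ h0 Hecke.base,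
      mul_ne_zero h2.1 (hc' _), fun k F hF => ?_⟩
    rw [mul_zpow, mul_assoc, ← hm _ k F hF, sl, ofC_eq h2.2.1, ← mul_assoc, _root_.zpow_neg,
      mul_inv_cancel₀ (zpow_ne_zero k h2.1), one_mul]
  · refine ⟨_, (hg (φ n)).2, _, mul_ne_zero (hj (φ n)) (hc' (φ n)), fun k F hF => ?_⟩
    rw [← hm' _ k F ⟨hF.1, hF.2.mono hΔ⟩, hF.2 _ (hγ _), ext, ofC_eq (hZ _)]
  · rcases lt_trichotomy (φ n : ℕ) (φ m) with h1 | h1 | h1
    · refine hne _ _ h1 (hsame _ _ d⁻¹ (inv_ne_zero hd) fun k F hF => ?_)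
      rw [h2 k F hF, _root_.inv_zpow, inv_mul_cancel_left₀ (zpow_ne_zero k hd)]
    · exact hnm (φ.injective (Subtype.ext h1))
    · exact hne _ _ h1 (hsame _ _ d hd h2)

/-- The frame of the points. -/
abbrev HPts.E (X : HPts e χ Δ S0 Z0 V) (O : OrdB e Z0 χ c k0 S0) : Fr (TWE e) :=
  frm e X.G fun o => O.mem _ (X.mem o)

/-- The characters of the points. -/
abbrev HPts.ψ (X : HPts e χ Δ S0 Z0 V) (χb : CQ e →+* ℂ_[p]) (n : ℕ) : RQ e →+* ℂ_[p] :=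
  chAB χb (X.sim n) (X.B n)

section

variable (X : HPts e χ Δ S0 Z0 V) (O : OrdB e Z0 χ c k0 S0) (hx : Ext e χ χb) (hN : 0 < N)
  (hD : Deep p N)

include hx in
theorem HPts.gp (n : ℕ) : (X.E O).Gp (X.ψ χb n) := frm_gp _ hx _ _ (X.unit n)

include hx hN hD in
/-- `kl_N`, `Kl.fib`, `FC.prop`, `X.sep`. -/
theorem HPts.fib (x : Ix → ℂ_[p]) : {n | (X.E O).xc (X.ψ χb n) = x}.Finite := by
  have hp := (Fact.out : p.Prime).one_lt
  have hG := fun o => O.mem _ (X.mem o)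
  obtain ⟨D0, hK⟩ := kl_N (e := e) hG hN hD
  refine hK.fib (j0 := RingHom.id _) (fun _ _ h => h) (X.gp O hx)
    (fun n c => chAB_lin hx (X.sim n) (X.B n) c) (fun n m hnm => ?_) x
  by_contra hn
  push Not at hn
  have h0 : MI (Dp N) k0 ((X.E O).e0 : Fn) := frm_mi hG hD none
  have hu : ∀ n, χ (opP (X.A n) (X.B n) ((X.E O).e0 : Fn)) ≠ 0 := fun n h => by
    have h1 := X.unit n none
    rw [show clsF p (oT none) (X.G none) = ((X.E O).e0 : Fn) from rfl, h, norm_zero] at h1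
    exact zero_ne_one h1
  obtain ⟨d, hd, h1⟩ := FC.prop (O.fc.opP (X.sim n) (X.B n)) (O.fc.opP (X.sim m) (X.B m))
    (DD_le p N) O.pos ⟨h0.1, h0.2.mono (DD_le_Dp p N)⟩ (hu n) (hu m) fun a F hF => by
      have h2 := hn a ⟨F, hF.1.mem_RQ (hF.mem_GZ fun B hB => nE_mem_DD hp N hB)⟩ hF
      rwa [Fr.nz, Fr.nz, chAB_eq hx _ _ h0.1, chAB_eq hx _ _ h0.1,
        chAB_eq hx _ _ (F := ⟨F, _⟩) hF.1, chAB_eq hx _ _ (F := ⟨F, _⟩) hF.1,
        Ring.inverse_eq_inv'] at h2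
  exact X.sep n m hnm ⟨d, hd, fun k F hF => h1 k F ⟨hF.1, hF.2.mono (DD_le p N)⟩⟩

include hx in
theorem HPts.alg (n b : ℕ) (i : Ix) :
    IsAlgebraic ℚ_[p] ((X.E O).xc ((X.ψ χb n).comp ((TWE e).fr ^ b)) i) := by
  have hp := (Fact.out : p.Prime).pos
  have hG := fun o => O.mem _ (X.mem o)
  have hA := isSim_nat (pow_pos hp b)
  have h0 : ∀ o, MF k0 ((X.E O).oe o : Fn) := fun o => by
    rw [frm_oe]
    exact (hG o).1.1.clsF hp _
  have h1 : ∀ o, (X.ψ χb n).comp ((TWE e).fr ^ b) ((X.E O).oe o) =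
      χ (opP ((((p ^ b : ℕ) : ℚ) • 1) * X.A n) (lin (((p ^ b : ℕ) : ℚ) • 1) (X.B n) + 0)
        ((X.E O).oe o : Fn)) := fun o => by
    rw [RingHom.comp_apply, chAB_eq hx _ _ (k := k0) (by rw [TWE_fr_pow]; exact (h0 o).opP hA 0),
      TWE_fr_pow, opP_opP (X.sim n)]
  have h2 := O.alg_opP (hA.mul (X.sim n)) (lin (((p ^ b : ℕ) : ℚ) • 1) (X.B n) + 0)
    (h0 (some i)) (h0 none) (frm_int hG _) (frm_int hG _)
  rw [← h1, ← h1, div_eq_mul_inv] at h2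
  rw [Fr.xc, Fr.nz, pow_one, Ring.inverse_eq_inv']
  exact h2

end

theorem cen_of {α κ : Matrix Ix Ix ℚ_[p]} {a : ℚ_[p]} (hκ : ∀ x, κ.mulVec x = pt ((a • α) *ᵥ yc x))
    (h : ∀ q : Fin (r + 1) → Ix × Ix, ∃ P : MvPolynomial (Fin (r + 1)) ℚ_[p], P ≠ 0 ∧
      ∀ (g : Matrix Ix Ix ℚ_[p]) (t : ℚ_[p]), t ≠ 0 → (∀ x, nrm (g.mulVec x) = t * nrm x) →
        g * κ = κ * g → MvPolynomial.eval (fun a => g (q a).1 (q a).2) P = 0) :
    Cen r (α.map (algebraMap ℚ_[p] ℂ_[p])) := by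
  intro U g hg
  obtain ⟨PT, hP⟩ : ∃ PT : Matrix Ix Ix ℚ_[p], ∀ y, PT *ᵥ y = pt y :=
    ⟨LinearMap.toMatrix' latJ_ptL, fun x => LinearMap.toMatrix'_mulVec _ x⟩
  obtain ⟨YC, hY⟩ : ∃ YC : Matrix Ix Ix ℚ_[p], ∀ y, YC *ᵥ y = yc y :=
    ⟨LinearMap.toMatrix' latJ_ycL, fun x => LinearMap.toMatrix'_mulVec _ x⟩
  have ex : ∀ {M M' : Matrix Ix Ix ℚ_[p]}, (∀ x, M *ᵥ x = M' *ᵥ x) → M = M' := fun h =>
    Matrix.toLin'.injective (LinearMap.ext h)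
  have h1 : YC * PT = 1 := ex fun x => by rw [← mulVec_mulVec, hP, hY, yc_pt, one_mulVec]
  have h2 : κ = PT * (a • α) * YC := ex fun x => by
    rw [hκ, ← mulVec_mulVec, ← mulVec_mulVec, hY, hP]
  have h3 : UDep U r fun n (q : Ix × Ix) => (PT * g n * YC) q.1 q.2 := fun q => by
    obtain ⟨P, h0, hP'⟩ := h q
    refine ⟨P, h0, hg.mono fun n ⟨⟨t, ht, hc⟩, hm⟩ => hP' _ t ht (fun x => ?_) ?_⟩
    · rw [← mulVec_mulVec, ← mulVec_mulVec, hY, hP, hc, pt_yc]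
    · rw [← Matrix.map_mul, ← Matrix.map_mul] at hm
      have h4 : g n * α = α * g n := Matrix.map_injective (algebraMap ℚ_[p] ℂ_[p]).injective hm
      rw [h2]
      calc PT * g n * YC * (PT * (a • α) * YC) = PT * (g n * (YC * PT) * (a • α)) * YC := by
            simp only [Matrix.mul_assoc]
        _ = PT * ((a • α) * (YC * PT) * g n) * YC := by
            rw [h1, Matrix.mul_one, Matrix.mul_one, Matrix.mul_smul, h4, Matrix.smul_mul]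
        _ = _ := by simp only [Matrix.mul_assoc]
  refine h3.poly fun q => ⟨∑ x, (∑ j, MvPolynomial.C (YC q.1 j) * MvPolynomial.X (j, x)) *
    MvPolynomial.C (PT x q.2), Eventually.of_forall fun n => ?_⟩
  have h4 : g n = YC * (PT * g n * YC) * PT := by
    rw [Matrix.mul_assoc, Matrix.mul_assoc, h1, Matrix.mul_one, ← Matrix.mul_assoc, h1,
      Matrix.one_mul]
  refine (congrFun (congrFun h4 q.1) q.2).trans ?_
  simp only [Matrix.mul_apply (M := YC * _), Matrix.mul_apply (M := YC), map_sum, map_mul,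
    MvPolynomial.eval_C, MvPolynomial.eval_X]

/-- Let `a` be the cyclotomic unit of `s` (`exists_cyc`), `α = α0.map`, `κ` from `exists_kap` for
`a • α0`; apply `Tor` to `m * b` and `b'` with an integer `m` close to `a` (`zp_approx`,
`twc_map`). -/
theorem NcR.cen (O : NcR χ k0 r) (hx : Ext e χ χb) (hN : 0 < N) (hp : p ∣ N)
    (s : ℂ_[p] →+* ℂ_[p]) (f : ℕ) (α : Matrix Ix Ix ℂ_[p]) (hf : 0 < f) (hs : Frob s f)
    (hα : ZpM α)
    (ht : (clN e k0 hN hp).Tor (s.comp (chAB χb IsSim.one 0)) (chAB χb IsSim.one 0) α) :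
    Cen r α := by
  choose z hz using hα
  obtain ⟨α0, h0⟩ : ∃ α0 : Matrix Ix Ix ℚ_[p], ∀ i l, α0 i l = z i l :=
    ⟨Matrix.of fun i l => z i l, fun _ _ => rfl⟩
  obtain rfl : α = α0.map (algebraMap ℚ_[p] ℂ_[p]) := Matrix.ext fun i l => by
    rw [hz, Matrix.map_apply, h0]
    rfl
  obtain ⟨a, -, ha⟩ := exists_cyc s
  obtain ⟨κ, hκ⟩ := exists_kap ((a : ℚ_[p]) • α0)
  refine cen_of hκ (O s f κ hf hs fun j B B' hB hB' hT => ?_)
  · obtain ⟨b, hb⟩ := og2_int hB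
    obtain ⟨b', hb'⟩ := og2_int hB'
    obtain ⟨ζ, hζ, h3⟩ := chAB_tors hx j
    obtain ⟨m, hm⟩ := zp_approx a j
    have h4 : s ζ = ζ ^ m :=
      ha j ζ m (by rw [← Units.val_pow_eq_pow_val, hζ, Units.val_one]) (by rwa [norm_sub_rev])
    have hc : ∀ (B : Ix → ℚ) (b : Ix → ℤ), (∀ i, (b i : ℚ) = p ^ j * yc B i) →
        (fun i => (b i : ℚ_[p])) = (p : ℚ_[p]) ^ j • yc (toR ℚ_[p] B) := fun B b hb =>
      funext fun i => by
        rw [Pi.smul_apply, smul_eq_mul, yc, tr_toR]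
        exact_mod_cast hb i
    obtain ⟨d, hd⟩ := ht j ζ (fun i => m * b i) b' hζ fun i => by
      have h5 := hT _ (TT_mem i)
      have h6 : (b' i : ℚ_[p]) - a * (α0 *ᵥ fun l => (b l : ℚ_[p])) i =
          (p : ℚ_[p]) ^ j * tr (toR ℚ_[p] (TT i)) (toR ℚ_[p] B' - κ.mulVec (toR ℚ_[p] B)) := by
        have h7 := congrFun (yc_pt (((a : ℚ_[p]) • α0) *ᵥ yc (toR ℚ_[p] B))) i
        rw [yc] at h7
        rw [tr_sub_right, hκ, h7, congrFun (hc B' b' hb') i, hc B b hb, Matrix.mulVec_smul,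
          Matrix.smul_mulVec]
        simp only [Pi.smul_apply, smul_eq_mul, yc]
        ring
      have h8 : ‖algebraMap ℚ_[p] ℂ_[p] ((b' i : ℚ_[p]) - a * (α0 *ᵥ fun l => (b l : ℚ_[p])) i)‖ ≤
          ((p : ℝ) ^ j)⁻¹ := by
        rw [norm_algebraMap', h6, norm_mul, norm_pow, Padic.norm_p, inv_pow]
        exact mul_le_of_le_one_right (by positivity) h5
      have h9 : (b' i : ℂ_[p]) - (α0.map (algebraMap ℚ_[p] ℂ_[p]) *ᵥ
          fun l => ((m * b l : ℤ) : ℂ_[p])) i =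
          algebraMap ℚ_[p] ℂ_[p] ((b' i : ℚ_[p]) - a * (α0 *ᵥ fun l => (b l : ℚ_[p])) i) +
            (UAP.zp p a - m) * UAP.zp p (∑ l, z i l * b l) := by
        have e1 : ∀ x : ℤ_[p], algebraMap ℚ_[p] ℂ_[p] x = UAP.zp p x := fun _ => rfl
        simp only [Matrix.mulVec, dotProduct, Matrix.map_apply, h0, map_sub, map_mul, map_sum,
          map_intCast, e1, Int.cast_mul, sub_mul, Finset.mul_sum, mul_left_comm _ (m : ℂ_[p])]
        rw [Finset.sum_sub_distrib]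
        ring
      rw [h9]
      refine (IsUltrametricDist.norm_add_le_max _ _).trans (max_le h8 ?_)
      rw [norm_mul, UAP.norm_zp]
      exact (mul_le_of_le_one_right (norm_nonneg _) (PadicInt.norm_le_one _)).trans hm
    have h5 : (fun i => ζ ^ (m * b i)) = umap s fun i => ζ ^ b i := funext fun i => Units.ext (by
      change _ = s ((ζ ^ b i : ℂ_[p]ˣ) : ℂ_[p])
      rw [Units.val_zpow_eq_zpow_val, Units.val_zpow_eq_zpow_val, map_zpow₀, h4, _root_.zpow_mul])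
    rw [h5, ← TW.twc_map (chAB_ch hx _ _) (og2_nr hζ b) s fun y => (hs.iso y).le, ← h3 B b hb,
      ← h3 B' b' hb'] at hd
    refine ⟨d, d.ne_zero, fun n F hF hI => ?_⟩
    have h6 := hd n ⟨F, hF.1.mem_RQ (hF.mem_GZ fun B hB => nE_mem_Gam hB)⟩
      (mem_clN.2 ⟨⟨hF.1, hF.2.mono (DD_le p N)⟩, hI⟩)
    rwa [RingHom.comp_apply, chAB_eq hx _ _ hF.1, chAB_eq hx _ _ hF.1] at h6

theorem exists_hdat (X : HPts e χ Δ S0 Z0 V) (O : OrdB e Z0 χ c k0 S0) (hc : NcR χ k0 r)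
    (hx : Ext e χ χb) (hN : 0 < N) (hp : p ∣ N) (hD : Deep p N) :
    ∃ D : HDat (TWE e) r, D.E = X.E O ∧ D.ψ = X.ψ χb := by
  obtain ⟨r0, hr, hk⟩ := O.even
  obtain ⟨Gc, hGc, uc⟩ := O.frame IsSim.one 0
  choose n hn hZ using fun m => exists_intS (X.A m)
  choose G' hG' u' using fun m => O.frame (isSim_inv (hn m)) 0
  choose Mo hMo hB using fun m => exists_den (X.B m)
  choose N1 h1 h2 h3 using fun m => clN_deep hN hp ((X.sim m).nsmul (hn m)) (hZ m)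
    (isSim_nat (hn m)) (intS_scalar (n m)) (hMo m)
  have hq : ∀ m, (n m : ℚ) ≠ 0 := fun m => Nat.cast_ne_zero.2 (hn m).ne'
  exact ⟨{
    M := clN e k0 hN hp
    W := clW e k0
    tow := clW_tow e k0
    sub := clN_sub hN hp
    χ := chAB χb IsSim.one 0
    Ec := frm e Gc hGc
    gc := frm_gp hGc hx _ _ uc
    ac := ad3_N hGc hN hp hD hr hk
    bc := bdeg_N hGc hN hp hD
    wc := ad_W hGc
    algc := O.alg_xc hx _ _ _
    E := X.E O
    aE := ad3_N _ hN hp hD hr hk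
    bE := bdeg_N _ hN hp hD
    wE := ad_W _
    ψ := X.ψ χb
    gp := X.gp O hx
    lin := fun m => chAB_lin hx _ _
    ψ' := fun m => chAB χb (isSim_inv (hn m)) 0
    E' := fun m => frm e (G' m) (hG' m)
    M' := fun m => clN e k0 (h1 m) (hp.trans (h2 m))
    gp' := fun m => frm_gp _ hx _ _ (u' m)
    lin' := fun m => chAB_lin hx _ _
    a' := fun m => ad3_N _ _ _ (hD.mono (h2 m)) hr hk
    b' := fun m => bdeg_N _ _ _ (hD.mono (h2 m))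
    w' := fun m => ad_W _
    alg' := fun m => O.alg_xc hx _ _ _
    N := n
    hN := hn
    g0 := fun m => opR e (isSim_nat (hn m)) (intS_scalar (n m)) 0
    isg0 := fun m => cmat_scalar (n m) ▸ isg_opR _ _
    eq0 := fun m => (chAB_comp _ _ _ _ _ _
      (by rw [smul_mul_assoc, one_mul, smul_inv_smul₀ (hq m)]) (by rw [lin_zero, add_zero])).symm
    g := fun m => opR e ((X.sim m).nsmul (hn m)) (hZ m) 0
    Cm := fun m => cmat ((n m : ℚ) • X.A m)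
    isg := fun m => isg_opR _ _
    t := fun m => opR e IsSim.one intS_one (X.B m)
    ζ := fun m => zt e (X.B m)
    Mo := Mo
    trl := fun m => trl_opR (hMo m) (hB m)
    eq1 := fun m => by
      rw [chAB_comp _ _ _ _ _ (X.sim m) (B'' := 0)
        (by rw [smul_mul_assoc, mul_smul_comm, mul_one, smul_inv_smul₀ (hq m)])
        (by rw [lin_zero, add_zero]),
        chAB_comp _ _ _ _ _ (X.sim m) (B'' := X.B m) (one_mul _).symm
          (by rw [lin_zero, zero_add])]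
    w0 := fun m => clW_opR _ _
    w1 := fun m => clW_opR _ _
    m0 := fun m a F hF => (h3 m e k0 a F hF).1
    m1 := fun m a c0 F hF => (h3 m e k0 a F hF).2 c0
    conf := fun m => conf_cmat e ((X.sim m).nsmul (hn m)) (hZ m)
    fib := X.fib O hx hN hD
    nc := hc.cen hx hN hp }, rfl, rfl⟩

end Pool.Agent.E7
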