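import Pool.Agent.Lib.MP_7e5527_ag.E7.WrA

/-! Iterated brackets along words and their determinants. -/

open Matrix

noncomputable section

namespace Pool.Agent.E7

variable {ι β A A' : Type} [Fintype ι] [DecidableEq ι] [Fintype β] [DecidableEq β] [CommRing A]
  [CommRing A']

/-- The iterated bracket of an element of weight zero; each step raises the weight by `ws`. -/
def Nw (d : ι → A → A) (k0 ws : ℕ) (f : Option ι → A) (G : A) : List ι → A
  | [] => G
  | j :: w => Wr.Dk d (fun _ => (k0 : ℤ)) f j ((w.length * ws : ℕ) : ℤ) (Nw d k0 ws f G w)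

/-- The determinant of iterated brackets. -/
def Psw (d : ι → A → A) (k0 ws : ℕ) (f : Option ι → A) (φ : β → A) (ν : β → List ι) : A :=
  (Matrix.of fun a b => Nw d k0 ws f (φ b) (ν a)).det

/-- The total length. -/
def wl (ν : β → List ι) : ℕ := ∑ a, (ν a).length

theorem map_Nw {d : ι → A → A} {d' : ι → A' → A'} (σ : A →+* A')
    (hσ : ∀ i x, σ (d i x) = d' i (σ x)) (k0 ws : ℕ) (f : Option ι → A) (G : A) (w : List ι) :
    σ (Nw d k0 ws f G w) = Nw d' k0 ws (fun o => σ (f o)) (σ G) w := by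
  induction w with
  | nil => rfl
  | cons j w ih => rw [Nw, Nw, Wr.map_Dk σ hσ, ih]

theorem map_Psw {d : ι → A → A} {d' : ι → A' → A'} (σ : A →+* A')
    (hσ : ∀ i x, σ (d i x) = d' i (σ x)) (k0 ws : ℕ) (f : Option ι → A) (φ : β → A)
    (ν : β → List ι) :
    σ (Psw d k0 ws f φ ν) = Psw d' k0 ws (fun o => σ (f o)) (fun b => σ (φ b)) ν := by
  rw [Psw, Psw, RingHom.map_det]
  congr 1
  ext a b
  exact map_Nw σ hσ k0 ws f (φ b) (ν a)

theorem Nw_lin (d : ι → Derivation ℤ A A) (k0 ws : ℕ) (f : Option ι → A) (c G : β → A)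
    (hc : ∀ x i, d i (c x) = 0) (w : List ι) :
    Nw (fun i => d i) k0 ws f (∑ x, c x * G x) w = ∑ x, c x * Nw (fun i => d i) k0 ws f (G x) w := by
  induction w with
  | nil => rfl
  | cons j w ih => rw [Nw, ih, Wr.Dk_lin d _ f j _ c _ hc]; rfl

theorem Psw_lin (d : ι → Derivation ℤ A A) (k0 ws : ℕ) (f : Option ι → A) (φ : β → A)
    (R : Matrix β β A) (hR : ∀ a b i, d i (R a b) = 0) (ν : β → List ι) :
    Psw (fun i => d i) k0 ws f (fun b => ∑ c, R b c * φ c) ν =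
      R.det * Psw (fun i => d i) k0 ws f φ ν := by
  rw [Psw, Psw, mul_comm, ← Matrix.det_transpose R, ← Matrix.det_mul]
  congr 1
  ext a b
  rw [Matrix.of_apply, Nw_lin d k0 ws f _ _ fun x i => hR b x i, Matrix.mul_apply]
  exact Finset.sum_congr rfl fun c _ => mul_comm _ _

variable {d : ι → A → A} (d' : ι → Derivation ℤ A' A') (σ : A →+* A') (j : A'ˣ)
  (J : Matrix ι ι A') (hσ : ∀ i x, d' i (σ x) = ∑ l, σ (d l x) * J l i) (s : ℤ) {c k0 ws : ℕ}
  (hJ : J.det = (s : A') * ((j ^ (-(c : ℤ)) : A'ˣ) : A')) (hw : ws = Fintype.card ι * k0 + c)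
include hσ hJ hw

theorem sl_Nw (f : Option ι → A) (G : A) (w : List ι) :
    Nw (fun i => d' i) k0 ws (fun o => Wr.sl σ j k0 (f o)) (Wr.sl σ j 0 G) w =
      (s : A') ^ w.length * Wr.sl σ j ((w.length * ws : ℕ) : ℤ) (Nw d k0 ws f G w) := by
  induction w with
  | nil => simp [Nw]
  | cons i w ih =>
    have h := Wr.Dk_lin d' (fun _ => (k0 : ℤ)) (fun o => Wr.sl σ j k0 (f o)) i
      (Finset.univ : Finset Unit) (fun _ => (s : A') ^ w.length)
      (fun _ => Wr.sl σ j ((w.length * ws : ℕ) : ℤ) (Nw d k0 ws f G w))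
      (fun _ l => by rw [← Int.cast_pow]; exact (d' l).map_intCast _) ((w.length * ws : ℕ) : ℤ)
    simp only [Finset.univ_unique, Finset.sum_singleton] at h
    have h1 : ((w.length * ws : ℕ) : ℤ) + Wr.wStep (fun _ => (k0 : ℤ)) i c =
        (((i :: w).length * ws : ℕ) : ℤ) := by
      simp [Wr.wStep, hw]
      ring
    rw [Nw, Nw, ih, h, Wr.sl_Dk d' σ j J hσ s c hJ fun _ => (k0 : ℤ), h1, List.length_cons, pow_succ,
      mul_assoc]

theorem sl_Psw (f : Option ι → A) (φ : β → A) (ν : β → List ι) :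
    Psw (fun i => d' i) k0 ws (fun o => Wr.sl σ j k0 (f o)) (fun b => Wr.sl σ j 0 (φ b)) ν =
      (s : A') ^ wl ν * Wr.sl σ j ((wl ν * ws : ℕ) : ℤ) (Psw d k0 ws f φ ν) := by
  have h : (Matrix.of fun a b => Nw (fun i => d' i) k0 ws (fun o => Wr.sl σ j k0 (f o))
      (Wr.sl σ j 0 (φ b)) (ν a)) = Matrix.diagonal (fun a => (s : A') ^ (ν a).length *
        ((j ^ (-(((ν a).length * ws : ℕ) : ℤ)) : A'ˣ) : A')) *
      σ.mapMatrix (Matrix.of fun a b => Nw d k0 ws f (φ b) (ν a)) := by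
    ext a b
    rw [Matrix.diagonal_mul, Matrix.of_apply, sl_Nw d' σ j J hσ s hJ hw, Wr.sl, mul_assoc]
    rfl
  rw [Psw, Psw, h, Matrix.det_mul, Matrix.det_diagonal, ← RingHom.map_det, Finset.prod_mul_distrib,
    Finset.prod_pow_eq_pow_sum, Wr.prod_zp, Finset.sum_neg_distrib, ← Nat.cast_sum,
    ← Finset.sum_mul, Wr.sl, mul_assoc, wl]

end Pool.Agent.E7
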