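import Pool.Agent.Lib.MP_7e5527_ag.EA.ZG
import Pool.Agent.Lib.MP_7e5527_ag.EA.HD
import Pool.Agent.Lib.MP_7e5527_ag.EA.AH
import Pool.Agent.Lib.MP_7e5527_ag.EO.BG

/-! The `p`-adic core. -/

open MvPowerSeries Filter Topology Matrix

noncomputable section

namespace Pool.Agent.E7

variable {p : ℕ} [Fact p.Prime] {R : Type} [CommRing R] {U : Ultrafilter ℕ} {r m : ℕ}
  {ρ : Fin m → ℂ_[p] →+* ℂ_[p]}

/-! Part 1. -/

private theorem hc1_sm {σ : Type} {b : σ → ℤ_[p]} (hb : ∀ q, (p : ℤ_[p]) ∣ b q) :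
    Sm fun q => zc p (OC p) (b q) := fun q => pn_iff.1 (PN.map (p := p)
  (Ideal.le_radical (Ideal.mem_span_singleton.2 (hb q))) (zc p (OC p)))

private theorem hc1_sum {σ : Type} [Fintype σ] {x : σ → OC p} (hx : Sm x) (c : σ → OC p) :
    ‖((∑ q, c q * x q : OC p) : ℂ_[p])‖ < 1 :=
  pn_iff.1 (Ideal.sum_mem _ fun q _ => Ideal.mul_mem_left _ _ (pn_iff.2 (hx q)))

private theorem hc1_zp {s : ℂ_[p] →+* ℂ_[p]} (hs : UAP.Iso s) : s.comp (UAP.zp p) = UAP.zp p :=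
  RingHom.ext fun z => by
    rw [RingHom.comp_apply, ← zc_oc, ← coe_resO s hs, zc_map]

private theorem hc1_van {σ τ : Type} [Finite σ] {b : ℕ → σ → ℤ_[p]}
    (hb : ∀ n q, (p : ℤ_[p]) ∣ b n q) {y : σ → PS Unit ℂ_[p]} (h0 : C0 y)
    (hy : ∀ G : PS σ (OC p), (∀ᶠ n in (U : Filter ℕ), evz (OC p) (b n) G = 0) →
      sb y (map (ov p) G) = 0) (H : MvPolynomial τ ℤ_[p]) (g : τ → PS σ (OC p))
    (h : ∀ᶠ n in (U : Filter ℕ), MvPolynomial.eval₂ (UAP.zp p)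
      (fun j => ((evz (OC p) (b n) (g j) : OC p) : ℂ_[p])) H = 0) :
    MvPolynomial.eval₂ ((C : ℂ_[p] →+* PS Unit ℂ_[p]).comp (UAP.zp p))
      (fun j => sb y (map (ov p) (g j))) H = 0 := by
  have h1 := hy (MvPolynomial.eval₂ (C.comp (zc p (OC p))) g H) (h.mono fun n hn => by
    refine Subtype.ext (Eq.trans ?_ hn)
    refine (MvPolynomial.hom_eval₂ H _ ((ov p).comp (evz (OC p) (b n))) g).trans ?_
    refine congrArg (fun f => MvPolynomial.eval₂ f _ H) (RingHom.ext fun z => ?_)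
    simp only [RingHom.comp_apply, evx_C (hc1_sm (hb n)).ev, RingHom.id_apply]
    exact zc_oc z)
  refine Eq.trans ?_ h1
  refine ((MvPolynomial.hom_eval₂ H _ ((sb y).comp (map (ov p))) g).trans ?_).symm
  refine congrArg (fun f => MvPolynomial.eval₂ f _ H) (RingHom.ext fun z => ?_)
  simp only [RingHom.comp_apply, map_C, evx_C h0.ev]
  exact congrArg C (zc_oc z)

private theorem hc1_dep {σ : Type} [Finite σ] {b : ℕ → σ → ℤ_[p]}
    (hb : ∀ n q, (p : ℤ_[p]) ∣ b n q) {y : σ → PS Unit ℂ_[p]} (h0 : C0 y)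
    (hy : ∀ G : PS σ (OC p), (∀ᶠ n in (U : Filter ℕ), evz (OC p) (b n) G = 0) →
      sb y (map (ov p) G) = 0) (hd : UDep U r fun n q => (b n q : ℚ_[p])) : Dep ℂ_[p] r y := by
  refine dep_iff.2 fun s => ?_
  obtain ⟨P, P0, hP⟩ := hd s
  have inj := (algebraMap ℚ_[p] ℂ_[p]).injective
  obtain ⟨H, H0, hH⟩ := desc_rel U (x := fun n i => UAP.zp p (b n (s i)))
    (fun n i => isAlgebraic_algebraMap (b n (s i) : ℚ_[p]))
    (P := MvPolynomial.map (algebraMap ℚ_[p] ℂ_[p]) P)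
    ((map_ne_zero_iff _ (MvPolynomial.map_injective _ inj)).2 P0) (hP.mono fun n hn => by
      have := MvPolynomial.hom_eval₂ P (RingHom.id _) (algebraMap ℚ_[p] ℂ_[p])
        fun i => (b n (s i) : ℚ_[p])
      rw [MvPolynomial.eval₂_id, hn, map_zero] at this
      rw [MvPolynomial.eval_map]
      exact this.symm)
  have inj' : Function.Injective (UAP.zp p) := fun z z' e => Subtype.ext (inj e)
  refine ⟨MvPolynomial.map (UAP.zp p) H,
    (map_ne_zero_iff _ (MvPolynomial.map_injective _ inj')).2 H0, ?_⟩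
  have := hc1_van hb h0 hy H (fun i => X (s i)) (hH.mono fun n hn => by
    simpa only [evx_X (hc1_sm (hb n)).ev, zc_oc] using hn)
  simp only [map_X, evx_X h0.ev] at this
  rw [MvPolynomial.aeval_def, MvPolynomial.eval₂_map]
  exact this

private theorem hc1_arc {σ ι : Type} [Fintype σ] [Finite ι] (hU : (U : Filter ℕ) ≤ cofinite)
    {b : ℕ → σ → ℤ_[p]} (hb : ∀ n q, (p : ℤ_[p]) ∣ b n q) (c : ι → σ → OC p)
    (F : ι → PS ι (OC p)) {x : ℕ → ι → ℂ_[p]}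
    (hx : ∀ᶠ n in (U : Filter ℕ), ∀ j, x n j =
      (evx (RingHom.id _) (fun j => ∑ q, c j q * zc p (OC p) (b n q)) (F j) : OC p))
    (hf : ∀ x0, {n | x n = x0}.Finite) (hd : UDep U r fun n q => (b n q : ℚ_[p]))
    (ha : ∀ P : MvPolynomial σ ℂ_[p], P.coeff 0 = 0 →
      (∀ᶠ n in (U : Filter ℕ), MvPolynomial.eval (fun q => UAP.zp p (b n q)) P ≠ 0) →
      ∃ y : σ → PS Unit ℂ_[p], C0 y ∧ MvPolynomial.aeval y P ≠ 0 ∧ ∀ G : PS σ (OC p),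
        (∀ᶠ n in (U : Filter ℕ), evz (OC p) (b n) G = 0) → sb y (map (ov p) G) = 0)
    (hm : 0 < m) (hρ : ∀ i, UAP.Iso (ρ i)) {𝓗 : Set (MvPolynomial ι ℤ_[p])}
    (hv : ∀ H ∈ 𝓗, ∀ᶠ n in (U : Filter ℕ), MvPolynomial.eval₂ (UAP.zp p) (x n) H = 0) :
    ∃ z : Fin m → ι → PS Unit ℂ_[p], (∀ i, C0 (z i)) ∧ (∀ i, z i ≠ 0) ∧
      (Dep ℂ_[p] r fun q : Fin m × ι => z q.1 q.2) ∧ ∀ H ∈ 𝓗, ∀ i,
        MvPolynomial.eval₂ ((C : ℂ_[p] →+* PS Unit ℂ_[p]).comp (UAP.zp p))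
          (fun j => sb (z i) (MvPowerSeries.map ((ρ i).comp (ov p)) (F j))) H = 0 := by
  obtain ⟨j0, hj⟩ : ∃ j, ∀ᶠ n in (U : Filter ℕ), ∑ q, c j q * zc p (OC p) (b n q) ≠ 0 := by
    by_contra hn
    have h1 : ∀ᶠ n in (U : Filter ℕ), ∀ j, ∑ q, c j q * zc p (OC p) (b n q) = 0 :=
      eventually_all.2 fun j => by
        simpa only [Ultrafilter.eventually_not, not_not] using not_exists.1 hn j
    obtain ⟨n, h2, h3⟩ := ((hx.and h1).and (hU (hf fun j =>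
      (evx (RingHom.id (OC p)) (fun _ => 0) (F j) : OC p)).compl_mem_cofinite)).exists
    exact h3 (funext fun j => by simp only [h2.1 j, h2.2])
  obtain ⟨y, y0, yP, hy⟩ := ha (∏ i, ∑ q, MvPolynomial.C (ρ i (c j0 q)) * MvPolynomial.X q)
    (by
      rw [← MvPolynomial.constantCoeff_eq, map_prod]
      exact Finset.prod_eq_zero (Finset.mem_univ ⟨0, hm⟩) (by simp))
    (hj.mono fun n hn => by
      rw [map_prod]
      refine Finset.prod_ne_zero_iff.2 fun i _ h0 => hn (Subtype.ext ((ρ i).injective ?_))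
      rw [← hc1_zp (hρ i)] at h0
      simpa [zc_oc] using h0)
  obtain ⟨Y, hY⟩ : ∃ Y : ι → PS σ (OC p), ∀ j, Y j = ∑ q, C (c j q) * X q := ⟨_, fun _ => rfl⟩
  have Y0 : C0 Y := fun j => by simp [hY]
  have Y1 : ∀ i, C0 fun j => map ((ρ i).comp (ov p)) (Y j) := fun i j => by
    rw [constantCoeff_map, Y0, map_zero]
  have hz : ∀ i j, sb y (map ((ρ i).comp (ov p)) (Y j)) = ∑ q, C (ρ i (c j q)) * y q :=
    fun i j => by
      simp only [hY, map_sum, map_mul, map_C, map_X, evx_C y0.ev, evx_X y0.ev]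
      rfl
  have z0 : ∀ i, C0 fun j => sb y (map ((ρ i).comp (ov p)) (Y j)) := fun i j => by
    rw [const_sb y0, Y1]
  refine ⟨fun i j => sb y (map ((ρ i).comp (ov p)) (Y j)), z0, fun i h0 => yP ?_,
    (hc1_dep hb y0 hy hd).alg fun q => ?_, fun H hH i => ?_⟩
  · rw [map_prod]
    refine Finset.prod_eq_zero (Finset.mem_univ i) (Eq.trans ?_ (congrFun h0 j0))
    simp only [hz, map_sum, map_mul, MvPolynomial.aeval_C, MvPolynomial.aeval_X]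
    rfl
  · simp only [hz]
    exact sum_mem fun l _ => mul_mem (Subalgebra.algebraMap_mem _ _) (self_mem_algS l)
  · have h1 := hc1_van hb y0 hy H (fun j => map (resO (ρ i) (hρ i)) (sb Y (F j)))
      ((hx.and (hv H hH)).mono fun n hn => by
        have e0 := (hc1_sm (hb n)).ev
        have e1 : (fun j => evz (OC p) (b n) (Y j)) = fun j => ∑ q, c j q * zc p (OC p) (b n q) :=
          funext fun j => by
            simp only [hY, map_sum, map_mul, evx_C e0, evx_X e0, RingHom.id_apply]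
        have e2 : ∀ f, evz (OC p) (b n) (map (resO (ρ i) (hρ i)) f) =
            resO (ρ i) (hρ i) (evz (OC p) (b n) f) := fun f => by
          rw [evx_map e0, evx_comp e0 _ (by simpa only [zc_map] using e0)]
          simp only [zc_map]
          rfl
        have e3 := MvPolynomial.hom_eval₂ H (UAP.zp p) (ρ i) (x n)
        rw [hn.2, map_zero, hc1_zp (hρ i)] at e3
        simp only [e2, evx_sb e0 Y0.ev (e0.evx Y0), e1, coe_resO, ← hn.1]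
        exact e3.symm)
    refine Eq.trans (congrArg (fun f => MvPolynomial.eval₂ _ f H) (funext fun j => ?_)) h1
    rw [← evx_sb y0.ev (Y1 i).ev (z0 i).ev, ← map_sb Y0]
    rfl

/-- `par`, `arcz` for the product of the linear forms `∑ k, ρ i (l k) * X (l0, k)`, `trn_zp` from
the twist of `φ` to `ψ n`, `trn_exo`. -/
theorem caseC {ι : Type} [Fintype ι] [DecidableEq ι] {Co : Cone ι} {S : TW p Co R} {M : Cl S}
    {E : Fr S} (hU : (U : Filter ℕ) ≤ cofinite) (hM : Ad M E) {ψ : ℕ → R →+* ℂ_[p]}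
    (hψ : ∀ n, E.Gp (ψ n)) {φ : R →+* ℂ_[p]} (hφ : E.Gp φ) {u : ℕ → ι → ℂ_[p]ˣ}
    (hu : ∀ n, Nr (u n)) {r0 : ℝ} (h0 : r0 < 1) {L : ι → ℂ_[p]} {B : ℕ → Matrix ι ι ℚ_[p]}
    (hB : UDep U r fun n (q : ι × ι) => B n q.1 q.2)
    (h : ∀ᶠ n in (U : Filter ℕ), M.Sim (ψ n) (S.twc φ (u n)) ∧ ‖uv (u n) - 1‖ ≤ r0 ∧
      lgv p (u n) = (B n).map (algebraMap ℚ_[p] ℂ_[p]) *ᵥ L)
    (hf : ∀ x, {n | E.xc (ψ n) = x}.Finite) (hm : 0 < m) (hρ : ∀ i, UAP.Iso (ρ i))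
    {𝓗 : Set (MvPolynomial ι ℤ_[p])} (hv : ∀ H ∈ 𝓗, ∀ᶠ n in (U : Filter ℕ),
      MvPolynomial.eval₂ (UAP.zp p) (E.xc (ψ n)) H = 0) :
    ∀ᶠ n in (U : Filter ℕ), (hψ n).Out r ρ 𝓗 := by
  obtain ⟨t, l, w, a, f, -, -, -, -, ha, hw⟩ := par U L (u := fun n => uo (u n))
    (fun n => (hu n).n1) h0 (b := 0)
    (h.mono fun n hn i => by
      rw [pow_zero, pow_one, (hu n).coe_uo]
      exact (norm_le_pi_norm (uv (u n) - 1) i).trans hn.2.1)
    (h.mono fun n hn i => by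
      rw [(hu n).lgo, hn.2.2]
      refine sum_mem fun j _ => ?_
      have := Submodule.smul_mem _ (B n i j) (Submodule.subset_span (R := ℚ_[p]) ⟨j, rfl⟩ :
        L j ∈ Submodule.span ℚ_[p] (Set.range L))
      rwa [Algebra.smul_def] at this)
  filter_upwards [h, hw, arcz U ha] with n h1 h2 h3
  have g1 := hφ.twc (hu n)
  obtain ⟨κ, -, ht⟩ := hM.trn_zp g1 (hψ n) h1.1.symm
  have hb : ∀ k q, (p : ℤ_[p]) ∣ (a k - a n) q := fun k q => dvd_sub (ha k q) (ha n q)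
  refine hc1_arc hU hb (fun j q => zc p (OC p) (κ j q.1) * l q.2) (hψ n).XE
    ((h.and hw).mono fun k hk j => ?_) hf (hB.poly fun q => ?_) h3 hm hρ hv
  · obtain ⟨d, hd⟩ : ∃ d : (ι × Fin t → ℤ_[p]) → ι → OC p,
        ∀ e i, ∑ s, zc p _ (e (i, s)) * l s = d e i := ⟨_, fun _ _ => rfl⟩
    have sm : ∀ e, (∀ q, (p : ℤ_[p]) ∣ e q) → Sm (d e) := fun e he i => by
      rw [← hd]
      simp only [mul_comm _ (l _)]
      exact hc1_sum (hc1_sm fun s => he (i, s)) l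
    have hv' := (hu k).mul (hu n).inv
    have e1 : ∀ i, ((u k * (u n)⁻¹) i : ℂ_[p]) = (exo p (d (a k - a n) i) : OC p) := fun i => by
      have e2 : d (a k) i = d (a n) i + d (a k - a n) i := by
        simp only [← hd, Pi.sub_apply, map_sub, sub_mul, Finset.sum_sub_distrib, add_sub_cancel]
      have e3 : Sm ![d (a n) i, d (a k - a n) i] :=
        Fin.forall_fin_two.2 ⟨sm _ (ha n) i, sm _ (hb k) i⟩
      have e4 := (hk.2 i).1
      rw [hd, e2, exo_add e3.ev, ← mul_assoc, ← hd (a n), ← (h2 i).1] at e4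
      rw [Pi.mul_apply, Pi.inv_apply, Units.val_mul, Units.mul_inv_eq_iff_eq_mul,
        ← (hu k).coe_uo, ← (hu n).coe_uo, e4, mul_comm]
      rfl
    have e5 : (fun j => ∑ q : ι × Fin t, zc p (OC p) (κ j q.1) * l q.2 *
        zc p (OC p) ((a k - a n) q)) = fun j => ∑ i, zc p (OC p) (κ j i) * d (a k - a n) i :=
      funext fun j => by
        simp only [Fintype.sum_prod_type, ← hd, Finset.mul_sum, mul_assoc, mul_comm (l _)]
    rw [e5, hk.1.1.xc hM (hφ.twc (hu k)).un.1.isUnit, ← hM.trn_exo g1 (hψ n) h1.1.symm ht hv'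
      ((pi_norm_le_iff_of_nonneg (by positivity)).2 fun i => ?_)
      (fun j => hc1_sum (sm _ (hb k)) _) fun j => ?_, TW.twc_twc hφ.ch (hu n) hv',
      inv_mul_cancel_right]
    · have e6 : Sm fun _ : Unit => d (a k - a n) i := fun _ => sm _ (hb k) i
      have := oc_pdvd.1 ((Dvd.intro _ rfl).trans (exo_sub_one e6.ev))
      rwa [AddSubgroupClass.coe_sub, ← e1] at this
    · simp only [mulVec, dotProduct, lgv, e1, lg_exo (sm _ (hb k) _), Matrix.map_apply,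
        AddSubmonoidClass.coe_finsetSum, MulMemClass.coe_mul, zc_oc, Finset.mul_sum]
      exact Finset.sum_congr rfl fun i _ => mul_left_comm _ _ _
  · refine ⟨∑ j, MvPolynomial.X (q.1, j) * MvPolynomial.C (f q.2 (L j)) -
      MvPolynomial.C (f q.2 (lgo w q.1) + a n q), (h.and hw).mono fun k hk => ?_⟩
    have e1 := (hk.2 q.1).2 q.2
    rw [(hu k).lgo, hk.1.2.2, map_sub] at e1
    simp only [mulVec, dotProduct, Matrix.map_apply, ← Algebra.smul_def, map_sum, map_smul,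
      smul_eq_mul] at e1
    simp only [map_sub, map_sum, map_mul, MvPolynomial.eval_X, MvPolynomial.eval_C, Pi.sub_apply,
      PadicInt.coe_sub]
    rw [e1, sub_sub]

/-! Part 2. -/

variable {S : TW p cone R} {σ : ℂ_[p] →+* ℂ_[p]} {f : ℕ}

theorem HDat.per (D : HDat S r) (hσ : Frob σ f) (hf : 0 < f)
    (hx : ∀ i, σ (D.Ec.xc D.χ i) = D.Ec.xc D.χ i) (n : ℕ) :
    ∃ s f', 0 < f' ∧ Frob s f' ∧ D.M.Sim (s.comp (D.ψ n)) (D.ψ n) := by
  obtain ⟨r0, hr0, hs0⟩ := D.bc.period D.ac.toAd D.gc hσ.iso hx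
  have F0 := hσ.pow r0
  have tα := D.ac.toAd.trn (D.gc.map _ fun a => (F0.iso a).le) D.gc hs0
  obtain ⟨b, hb, h2⟩ := D.deep F0.iso n
  have F1 := F0.pow (b * 1)
  exact ⟨_, _, Nat.mul_pos (Nat.mul_pos hb one_pos) (Nat.mul_pos hr0 hf), F1,
    (D.alpha F1.iso n (h2 1).1 (h2 1).2 (D.ac.toAd.trn_pow D.gc F0.iso hs0 tα (b * 1))).1⟩

private theorem hc2_pt {K L : Type} [Field K] [Field L] [CharZero K] [CharZero L] (φ : K →+* L)
    (y : Ix → K) : pt (fun l => φ (y l)) = fun l => φ (pt y l) := by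
  funext l
  simp only [pt, Finset.sum_apply, Pi.smul_apply, smul_eq_mul, map_sum, map_mul, toR, map_ratCast]

theorem conf_desc {g : Matrix Ix Ix ℚ_[p]} (h : Conf (g.map (algebraMap ℚ_[p] ℂ_[p]))) : Conf g := by
  obtain ⟨c, hc, h⟩ := h
  have h1 : ∀ y, algebraMap ℚ_[p] ℂ_[p] (nrm (pt (g *ᵥ y))) =
      c * algebraMap ℚ_[p] ℂ_[p] (nrm (pt y)) := fun y => by
    have e : g.map (algebraMap ℚ_[p] ℂ_[p]) *ᵥ (fun l => algebraMap ℚ_[p] ℂ_[p] (y l)) =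
        fun l => algebraMap ℚ_[p] ℂ_[p] ((g *ᵥ y) l) :=
      funext fun l => (RingHom.map_mulVec _ g y l).symm
    rw [← nrm_map, ← hc2_pt, ← e, h, hc2_pt, nrm_map]
  have h2 := h1 (yc one3)
  have h3 : nrm (one3 : Ix → ℚ) = 1 := by
    rw [nrm_eq]
    simp [one3, onorm_zero, omul_zero_left, oip_zero_left]
  rw [pt_yc, ← toR_one3, nrm_toR, h3, Rat.cast_one, map_one, mul_one] at h2
  refine ⟨_, fun h0 => hc ?_, fun y => (algebraMap ℚ_[p] ℂ_[p]).injective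
    (by rw [h1, ← h2, map_mul])⟩
  rw [← h2, h0, map_zero]

/-- An integral matrix over the `p`-adic numbers. -/
private def hc2_mq (p : ℕ) [Fact p.Prime] (M : Matrix Ix Ix ℤ) : Matrix Ix Ix ℚ_[p] :=
  M.map fun a => (a : ℚ_[p])

private theorem hc2_mq_map (M : Matrix Ix Ix ℤ) :
    (hc2_mq p M).map (algebraMap ℚ_[p] ℂ_[p]) = mc p M := by
  ext i j
  simp [hc2_mq, mc]

private theorem hc2_mq_inv {M : Matrix Ix Ix ℤ} (h : M.det ≠ 0) :
    (hc2_mq p M)⁻¹.map (algebraMap ℚ_[p] ℂ_[p]) = (mc p M)⁻¹ := by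
  have h1 : (hc2_mq p M).det = (M.det : ℚ_[p]) := (Int.cast_det _).symm
  have h2 : IsUnit (hc2_mq p M).det := by
    rw [h1]
    exact (Int.cast_ne_zero.2 h).isUnit
  refine (Matrix.inv_eq_right_inv ?_).symm
  rw [← hc2_mq_map, ← Matrix.map_mul, Matrix.mul_nonsing_inv _ h2,
    Matrix.map_one _ (map_zero _) (map_one _)]

private theorem hc2_smul (N : ℕ) (g : Matrix Ix Ix ℚ_[p]) :
    ((N : ℚ_[p])⁻¹ • g).map (algebraMap ℚ_[p] ℂ_[p]) =
      (N : ℂ_[p])⁻¹ • g.map (algebraMap ℚ_[p] ℂ_[p]) := by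
  ext i j
  simp only [Matrix.map_apply, Matrix.smul_apply, smul_eq_mul, map_mul, map_inv₀, map_natCast]

private theorem hc2_zp {κ : Matrix Ix Ix ℂ_[p]} (h : ZpM κ) :
    ∃ g : Matrix Ix Ix ℚ_[p], g.map (algebraMap ℚ_[p] ℂ_[p]) = κ := by
  choose z hz using h
  exact ⟨fun i l => (z i l : ℚ_[p]), by
    ext i l
    exact (hz i l).symm⟩

/-- As `ODat.sheet`. -/
theorem HDat.sheet (D : HDat S r) (hσ : Frob σ f) (hf : 0 < f)
    (hx : ∀ i, σ (D.Ec.xc D.χ i) = D.Ec.xc D.χ i) {L : Ix → ℂ_[p]} (hL : D.W.IsL σ f D.χ L)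
    {x : Ix → ℂ_[p]} (h : ∀ᶠ n in (U : Filter ℕ), ‖D.E.xc (D.ψ n) - x‖ < 1) :
    ∃ (n0 : ℕ) (u : ℕ → Ix → ℂ_[p]ˣ) (B : ℕ → Matrix Ix Ix ℚ_[p]), ‖D.E.xc (D.ψ n0) - x‖ < 1 ∧
      (∀ n, Nr (u n)) ∧ (UDep U r fun n (q : Ix × Ix) => B n q.1 q.2) ∧
      ∀ᶠ n in (U : Filter ℕ), D.M.Sim (D.ψ n) (S.twc (D.ψ n0) (u n)) ∧
        lgv p (u n) = (B n).map (algebraMap ℚ_[p] ℂ_[p]) *ᵥ L := by
  obtain ⟨β, hβ, hc⟩ := D.cent hσ hf hx
  obtain ⟨n0, hm, hcg⟩ := D.bE.same D.aE.toAd U D.gp h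
  obtain ⟨Lm, lm⟩ := D.wE.exists_isL (D.gp n0) hσ hf
  have key : ∀ n, ∃ (u : Ix → ℂ_[p]ˣ) (g : Matrix Ix Ix ℚ_[p]), Nr u ∧
      (D.M.Cgr D.E (D.ψ n) (D.ψ n0) → (Conf g ∧
        g.map (algebraMap ℚ_[p] ℂ_[p]) * β = β * g.map (algebraMap ℚ_[p] ℂ_[p])) ∧
        D.M.Sim (D.ψ n) (S.twc (D.ψ n0) u) ∧ lgv p u = (hc2_mq p (D.Cm n0) * g -
          (D.N n0 : ℚ_[p])⁻¹ • hc2_mq p (D.Cm n0)).map (algebraMap ℚ_[p] ℂ_[p]) *ᵥ L) := by
    intro n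
    by_cases hn : D.M.Cgr D.E (D.ψ n) (D.ψ n0)
    swap
    · exact ⟨1, 0, Nr.one, fun h => absurd h hn⟩
    obtain ⟨u, hu, hs⟩ := D.aE.toAd.st (D.gp n) (D.gp n0) hn
    obtain ⟨κ, tκ, hz, -, hκ, hd⟩ := D.aE.tr (D.gp n) ((D.gp n0).twc hu) hs
    obtain ⟨Ln, ln⟩ := D.wE.exists_isL (D.gp n) hσ hf
    have h1 := Cl.IsL.trn D.aE.toAd D.sub (D.gp n) ((D.gp n0).twc hu) hs tκ hz hσ hf ln
      (Cl.IsL.twc D.tow (D.gp n0).ch hσ lm hu)
    obtain ⟨κ', hκ'⟩ := hc2_zp hz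
    have e : ((D.N n : ℚ_[p])⁻¹ • ((hc2_mq p (D.Cm n0))⁻¹ * κ' * hc2_mq p (D.Cm n))).map
        (algebraMap ℚ_[p] ℂ_[p]) =
        (D.N n : ℂ_[p])⁻¹ • ((mc p (D.Cm n0))⁻¹ * κ * mc p (D.Cm n)) := by
      rw [hc2_smul, Matrix.map_mul, Matrix.map_mul, hc2_mq_inv (D.isg n0).det, hκ', hc2_mq_map]
    refine ⟨u, (D.N n : ℚ_[p])⁻¹ • ((hc2_mq p (D.Cm n0))⁻¹ * κ' * hc2_mq p (D.Cm n)), hu,
      fun _ => ⟨⟨conf_desc ?_, ?_⟩, hs, ?_⟩⟩
    · rw [e]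
      exact ((((D.conf n0).inv (D.mc_unit n0)).mul hκ).mul (D.conf n)).smul
        (inv_ne_zero (Nat.cast_ne_zero.2 (D.hN n).ne'))
    · rw [e, Matrix.smul_mul, Matrix.mul_smul, hc n0 n u κ hu hs tκ]
    · rw [Matrix.map_sub _ (map_sub _), Matrix.map_mul, e, hc2_smul, hc2_mq_map, sub_mulVec,
        ← D.isL hσ hf n0 hL lm, Matrix.mul_smul, Matrix.mul_assoc,
        Matrix.mul_nonsing_inv_cancel_left _ _ (D.mc_unit n0), ← Matrix.mul_smul,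
        ← mulVec_mulVec, ← D.isL hσ hf n hL ln, ← h1, add_sub_cancel_left]
  choose u g hu hg using key
  refine ⟨n0, u, fun n => hc2_mq p (D.Cm n0) * g n - (D.N n0 : ℚ_[p])⁻¹ • hc2_mq p (D.Cm n0), hm,
    hu, (hβ U g (hcg.mono fun n hn => (hg n hn).1)).poly fun q => ?_,
    hcg.mono fun n hn => (hg n hn).2⟩
  refine ⟨∑ k, MvPolynomial.C (hc2_mq p (D.Cm n0) q.1 k) * MvPolynomial.X (k, q.2) -
    MvPolynomial.C ((D.N n0 : ℚ_[p])⁻¹ * hc2_mq p (D.Cm n0) q.1 q.2),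
    Eventually.of_forall fun n => ?_⟩
  simp only [Matrix.sub_apply, Matrix.mul_apply, Matrix.smul_apply, smul_eq_mul, map_sub, map_sum,
    map_mul, MvPolynomial.eval_C, MvPolynomial.eval_X]

theorem hcore (D : HDat S r) (hU : (U : Filter ℕ) ≤ cofinite) (hr : 0 < r) (hm : 0 < m)
    (hρ : ∀ i, UAP.Iso (ρ i)) {𝓗 : Set (MvPolynomial Ix ℤ_[p])} (hf : 𝓗.Finite)
    (hv : ∀ H ∈ 𝓗, ∀ᶠ n in (U : Filter ℕ),
      MvPolynomial.eval₂ (UAP.zp p) (D.E.xc (D.ψ n)) H = 0) :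
    ∃ n, (D.gp n).Out r ρ 𝓗 := by
  obtain ⟨E1, hE1, -, hxE, -⟩ := exists_field (⊥ : IntermediateField ℚ_[p] ℂ_[p]) D.algc
  obtain ⟨σ, f, hf0, hσ, hfix⟩ := bg_frob E1
  have hx : ∀ i, σ (D.Ec.xc D.χ i) = D.Ec.xc D.χ i := fun i => hfix _ (hxE i)
  obtain ⟨K, hK, hxK, hμ⟩ := exists_dvf' D.algc
  obtain ⟨y0, u0, c0⟩ := D.wc.exists_cn D.gc
  have hL := c0.isL D.tow D.wc hσ
  choose y u hc using fun n => D.wE.exists_cn (D.gp n)
  have hl : ∀ n i, lgv p (u n) i ∈ Submodule.span ℚ_[p] (Set.range (lgv p u0)) := fun n i => by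
    rw [D.isL hσ hf0 n hL ((hc n).isL D.tow D.wE hσ), ← hc2_mq_map, ← hc2_smul]
    simp only [mulVec, dotProduct]
    refine Submodule.sum_mem _ fun l _ => ?_
    rw [Matrix.map_apply, ← Algebra.smul_def]
    exact Submodule.smul_mem _ _ (Submodule.subset_span ⟨l, rfl⟩)
  obtain ⟨τ, r0, hr0, h0, h1⟩ := gen_van hU D.aE.toAd D.bE D.tow D.wE hc hK hμ
    (c0.mem D.tow D.wc hK hxK) hl hf hv
  rcases τ.eq_empty_or_nonempty with hτ | hτ
  swap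
  · obtain ⟨n, B, _, _, _, G, μ, hμ', hvan, -⟩ := h1.exists
    exact ⟨n, (hc n).caseA (D.gp n) D.tow D.wE G hμ' hvan hτ hr hρ⟩
  obtain ⟨n, hn, B, _, _, _, G, μ, -, hvan, h2 | h2⟩ := ((h0 hτ).and h1).exists
  swap
  · obtain ⟨s, f', hf', hs, hsim⟩ := D.per hσ hf0 hx n
    exact ⟨n, (hc n).caseB (D.gp n) D.tow D.wE D.aE.toAd D.sub G hvan h2 hs hf' hsim hr hρ⟩
  have hr1 : max r0 (p : ℝ)⁻¹ < 1 := max_lt hr0 (plg_lt p).2
  have h3 : ∀ᶠ k in (U : Filter ℕ), ‖D.E.xc (D.ψ k) - D.E.xc (D.ψ n)‖ ≤ max r0 (p : ℝ)⁻¹ := by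
    filter_upwards [h0 hτ, h2] with k hk hk'
    exact (hc k).near D.wE (hc n) hk' (le_max_right _ _) (hk.trans (le_max_left _ _))
      (hn.trans (le_max_left _ _))
  obtain ⟨n0, v, B', h4, hv', hB, h5⟩ :=
    D.sheet hσ hf0 hx hL (h3.mono fun k hk => hk.trans_lt hr1)
  refine (caseC (L := lgv p u0) hU D.aE.toAd D.gp (D.gp n0) hv' (max_lt hr1 h4) hB ?_ D.fib hm hρ
    hv).exists
  filter_upwards [h3, h5] with k hk hk'
  refine ⟨hk'.1, ?_, hk'.2⟩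
  have e1 := (D.gp n0).xc_iso (hv' k) Nr.one
  rw [TW.twc_one (D.gp n0).ch, ← hk'.1.xc D.aE.toAd ((D.gp n0).twc (hv' k)).unit] at e1
  refine le_trans e1 ?_
  rw [← sub_add_sub_cancel _ (D.E.xc (D.ψ n))]
  refine (IsUltrametricDist.norm_add_le_max _ _).trans (max_le_max hk ?_)
  rw [norm_sub_rev]

end Pool.Agent.E7
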