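import Pool.Agent.Lib.MP_7e5527_ag.EA.CP
import Pool.Agent.Lib.MP_7e5527_ag.EA.CC
import Pool.Agent.Lib.MP_7e5527_ag.EA.HC

/-! The finiteness theorem. -/

open Filter Topology Polynomial Matrix

noncomputable section

namespace Pool.Agent.E7

variable {p : ℕ} [Fact p.Prime]

/-- A new numbering of the points. -/
def HDat.re {R : Type} [CommRing R] {S : TW p cone R} {r : ℕ} (D : HDat S r) (g : ℕ → ℕ)
    (hg : ∀ a, (g ⁻¹' {a}).Finite) : HDat S r :=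
  { D with
    ψ := fun n => D.ψ (g n), gp := fun n => D.gp (g n), lin := fun n => D.lin (g n)
    ψ' := fun n => D.ψ' (g n), E' := fun n => D.E' (g n), M' := fun n => D.M' (g n)
    gp' := fun n => D.gp' (g n), lin' := fun n => D.lin' (g n), a' := fun n => D.a' (g n)
    b' := fun n => D.b' (g n), w' := fun n => D.w' (g n), alg' := fun n => D.alg' (g n)
    N := fun n => D.N (g n), hN := fun n => D.hN (g n), g0 := fun n => D.g0 (g n)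
    isg0 := fun n => D.isg0 (g n), eq0 := fun n => D.eq0 (g n), g := fun n => D.g (g n)
    Cm := fun n => D.Cm (g n), isg := fun n => D.isg (g n), t := fun n => D.t (g n)
    ζ := fun n => D.ζ (g n), Mo := fun n => D.Mo (g n), trl := fun n => D.trl (g n)
    eq1 := fun n => D.eq1 (g n), w0 := fun n => D.w0 (g n), w1 := fun n => D.w1 (g n)
    m0 := fun n => D.m0 (g n), m1 := fun n => D.m1 (g n), conf := fun n => D.conf (g n)
    fib := fun x => (D.fib x).preimage' fun a _ => hg a }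

theorem hcore_ev {R : Type} [CommRing R] {S : TW p cone R} {r m : ℕ} {U : Ultrafilter ℕ}
    {ρ : Fin m → ℂ_[p] →+* ℂ_[p]} (D : HDat S r) (hU : (U : Filter ℕ) ≤ cofinite) (hr : 0 < r)
    (hm : 0 < m) (hρ : ∀ i, UAP.Iso (ρ i)) {𝓗 : Set (MvPolynomial Ix ℤ_[p])} (hf : 𝓗.Finite)
    (hv : ∀ H ∈ 𝓗, ∀ᶠ n in (U : Filter ℕ),
      MvPolynomial.eval₂ (UAP.zp p) (D.E.xc (D.ψ n)) H = 0)
    {Q : ℕ → Prop} (hQ : ∀ᶠ n in (U : Filter ℕ), Q n) : ∃ n, Q n ∧ (D.gp n).Out r ρ 𝓗 := by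
  classical
  have h1 : ∀ n, ∃ a, n ≤ a ∧ Q a := fun n =>
    (((eventually_ge_atTop n).filter_mono (Nat.cofinite_eq_atTop ▸ hU)).and hQ).exists
  obtain ⟨n, h⟩ := hcore (D.re (fun n => Nat.find (h1 n)) fun a => (Set.finite_Iic a).subset
    fun n hn => (Nat.find_spec (h1 n)).1.trans (le_of_eq hn)) hU hr hm hρ hf fun H hH => by
      filter_upwards [hv H hH, hQ] with n h2 h3
      have h4 : Nat.find (h1 n) = n :=
        le_antisymm (Nat.find_min' _ ⟨le_rfl, h3⟩) (Nat.find_spec (h1 n)).1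
      exact (congrArg (fun a => MvPolynomial.eval₂ _ (D.E.xc (D.ψ a)) H) h4).trans h2
  exact ⟨_, (Nat.find_spec (h1 n)).2, h⟩

theorem tay_congr {F G : (Ix → ℂ) → ℂ} (h : ∀ W ∈ HH, F W = G W) {Z : Ix → ℂ} (hZ : Z ∈ HH) :
    tay F Z = tay G Z := by
  have key : ∀ L : List Ix, ∀ W ∈ HH,
      L.foldr (fun l G W => fderiv ℂ G W (Pi.single l 1)) F W =
        L.foldr (fun l G W => fderiv ℂ G W (Pi.single l 1)) G W := fun L => by
    induction L with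
    | nil => exact h
    | cons l L ih => exact fun W hW => by rw [List.foldr_cons, List.foldr_cons, cb_ev ih hW]
  exact funext fun ν => congrArg _ (key _ Z hZ)

variable {e : ℂ_[p] ≃+* ℂ} {χ : Fn → ℂ_[p]} {c : ℂ} {Z0 : HH} {k0 r m : ℕ} {S0 : Set Fn}

theorem OrdB.finite (O : OrdB e Z0 χ c k0 S0) (hc : NcR χ k0 r) (hr : 0 < r) (hm : 0 < m)
    {ρ : Fin m → ℂ_[p] →+* ℂ_[p]} (hρ : ∀ i, UAP.Iso (ρ i)) {τ : Type} [Finite τ] {w : τ → ℕ}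
    {F : τ → (Ix → ℂ) → ℂ} {a : τ → (Ix → ℚ) → ℂ} (hF : ∀ j, IsMF (w j) (F j) (a j)) :
    ∃ S : Set (Ix → ℂ), S.Finite ∧ S ⊆ HH ∧ ∀ Z, Hecke Z0 Z → (∀ j, F j Z = 0) →
      (∀ Z', Hecke Z0 Z' → SamePt Z Z' → GenV r
        (Afn (fun i => (e : ℂ_[p] →+* ℂ).comp ((ρ i).comp (e.symm : ℂ →+* ℂ_[p]))) Z')
        {f | ∃ i j, f = MvPowerSeries.rename (Prod.mk i) (MvPowerSeries.map
          ((e : ℂ_[p] →+* ℂ).comp ((ρ i).comp (e.symm : ℂ →+* ℂ_[p]))) (tay (F j) Z'))}) →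
      ∃ Z' ∈ S, SamePt Z Z' := by
  by_contra hn
  have h1 : 1 < p := (Fact.out : p.Prime).one_lt
  obtain ⟨N, hN, hp, hD⟩ := exists_deep p
  obtain ⟨χb, hx⟩ := exists_ext O.fc O.bd
  have hi : (DD p N ⊓ GamP).relIndex Gam ≠ 0 :=
    Subgroup.relIndex_inf_ne_zero (DD_index h1 hN) GamP_index
  have hΔ : DD p N ⊓ GamP ≤ Gam := inf_le_left.trans (DD_le p N)
  obtain ⟨X⟩ := O.exists_pts (V := {Z | Z ∈ HH ∧ (∀ j, F j Z = 0) ∧
      ∀ Z', Hecke Z0 Z' → SamePt Z Z' → GenV r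
        (Afn (fun i => (e : ℂ_[p] →+* ℂ).comp ((ρ i).comp (e.symm : ℂ →+* ℂ_[p]))) Z')
        {f | ∃ i j, f = MvPowerSeries.rename (Prod.mk i) (MvPowerSeries.map
          ((e : ℂ_[p] →+* ℂ).comp ((ρ i).comp (e.symm : ℂ →+* ℂ_[p]))) (tay (F j) Z'))}})
    hΔ hi fun ⟨S, s1, s2, s3⟩ => hn ⟨S, s1, s2, fun Z z1 z2 z3 => s3 Z z1 ⟨by
      obtain ⟨g, hg, rfl⟩ := z1.exists_act Z0.2
      exact (act_spec hg Z0.2).2.1, z2, z3⟩⟩
  obtain ⟨D, e1, e2⟩ := exists_hdat X O hc hx hN hp hD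
  have hE : ∀ o, MI (DD p N ⊓ GamP) k0 (D.E.oe o) := fun o => e1 ▸
    ⟨(frm_mi _ hD o).1, ((frm_mi _ hD o).2.mono (DD_le_Dp p N)).mono inf_le_left⟩
  have hM : ∀ j, MI Gam (w j) (res (F j)) := fun j => ⟨(hF j).mf, (hF j).inv_Gam⟩
  let G : τ → RQ e := fun j =>
    ⟨res (F j), (hM j).1.mem_RQ ((hM j).mem_GZ fun B hB => nE_mem_Gam hB)⟩
  choose P hP using fun j => exists_rel hΔ hi hE (F := G j) ⟨(hM j).1, (hM j).2.mono hΔ⟩
  obtain ⟨𝓗, h2, h3, h4⟩ := vl_main (e : ℂ_[p] →+* ℂ) (hyperfilter ℕ)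
    (ξ := fun n => D.E.xc (D.ψ n)) (fun n l => e1 ▸ e2 ▸ X.alg O hx n 0 l) fun j => (hP j).1
  obtain ⟨n, h5, ho⟩ := hcore_ev D hyperfilter_le_cofinite hr hm hρ h2 h3 h4
  obtain ⟨Z, t, z1, ht, z2⟩ := X.val n
  obtain ⟨Y, ⟨y1, y2, y3⟩, t', ht', y4⟩ := X.lv n
  have h6 : SamePt Y Z := ⟨t' / t, div_ne_zero ht' ht, fun k H b hH => by
    have h7 := z2 k _ ⟨hH.mf, hH.inv_Gam.mono hΔ⟩
    rw [← ext_res H y1, y4 k _ ⟨hH.mf, hH.inv_Gam⟩, show H Z = _ from h7, div_zpow, ← mul_assoc,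
      div_mul_cancel₀ _ (zpow_ne_zero _ ht)]⟩
  refine cx_main inf_le_right hi (fun B hB => ⟨nE_mem_DD h1 N hB, nE_mem_GamP hB⟩) O.pos D.E hE
    (D.gp n) (D.lin n) Z ht (fun a F hF => ?_) hρ (F := G) (fun j => ?_) ?_ hP h5 ho hm
  · rw [z2 a F hF, e2, chAB_eq hx _ _ hF.1, _root_.zpow_natCast]
  · obtain ⟨b, b1, b2⟩ := h6
    exact (mul_eq_zero.1 ((b2 _ _ _ (hF j)).symm.trans (y2 j))).resolve_left (zpow_ne_zero _ b1)
  · have h7 : ∀ j, tay (ext (G j)) Z = tay (F j) Z := fun j =>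
      tay_congr (fun W hW => ext_res _ hW) Z.2
    simpa only [h7] using y3 Z z1 h6

end Pool.Agent.E7
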