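import Pool.Agent.Lib.MP_7e5527_ag.EA.GV

/-! The generic fibre. -/

open MvPowerSeries Filter Topology Matrix

noncomputable section

namespace Pool.Agent.E7

variable {p : ℕ} [Fact p.Prime] {U : Ultrafilter ℕ}

/-- A generic point in characteristic `p` and its specialisations. -/
structure GBs (p : ℕ) [Fact p.Prime] (U : Ultrafilter ℕ) (Ω : Type) [Field Ω] (B : ℕ → Type)
    [∀ n, CommRing (B n)] where
  c : RF p →+* Ω
  cn : ∀ n, RF p →+* B n
  i : ∀ n, B n →+* Ω
  ev : ∀ n, B n →+* RF p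
  inj : ∀ n, Function.Injective (i n)
  ic : ∀ n w, i n (cn n w) = c w
  evc : ∀ n w, ev n (cn n w) = w
  gen : ∀ (b : Ω) (bn : ∀ n, B n), b ≠ 0 → (∀ᶠ n in (U : Filter ℕ), i n (bn n) = b) →
    ∀ᶠ n in (U : Filter ℕ), ev n (bn n) ≠ 0

/-- The Witt vectors of the generic point. -/
def GBs.gd {Ω : Type} [Field Ω] [CharP Ω p] [PerfectRing Ω p] {B : ℕ → Type} [∀ n, CommRing (B n)]
    [∀ n, CharP (B n) p] [∀ n, PerfectRing (B n) p] (G : GBs p U Ω B) :
    GD p U (WittVector p Ω) fun n => WittVector p (B n) where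
  c := WittVector.map G.c
  cn n := WittVector.map (G.cn n)
  i n := WittVector.map (G.i n)
  ε n := WittVector.map (G.ev n)
  ic n w := WittVector.ext fun k => G.ic n _
  εc n w := WittVector.ext fun k => G.evc n _
  tf := wv_tf
  div n x h := wv_dvd.2 (G.inj n ((wv_dvd.1 h).trans (map_zero _).symm))
  gen b bn h0 h := (G.gen (b.coeff 0) (fun n => (bn n).coeff 0) (fun e => h0 (wv_dvd.2 e))
    (h.mono fun n hn => sub_eq_zero.1
      ((map_sub WittVector.constantCoeff _ _).symm.trans (wv_dvd.1 hn)))).mono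
        fun n hn e => hn (wv_dvd.1 e)

theorem gf_lift {K L : Type} [CommRing K] [CharP K p] [CommRing L] [CharP L p] [PerfectRing L p]
    (j : K →+* L) : ∃ i : PerfectClosure K p →+* L, ∀ y, i (PerfectClosure.of K p y) = j y :=
  ⟨PerfectClosure.lift K p L j, RingHom.congr_fun ((PerfectClosure.lift K p L).left_inv j)⟩

theorem gf_prime (U : Ultrafilter ℕ) {k ι : Type} [Field k] [Finite ι] (a : ℕ → ι → k) :
    ∃ (q : Ideal (MvPolynomial ι k)) (a' : ℕ → ι → k), q.IsPrime ∧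
      (∀ P, P ∈ q ↔ ∀ᶠ n in (U : Filter ℕ), MvPolynomial.eval (a n) P = 0) ∧
      (∀ᶠ n in (U : Filter ℕ), a' n = a n) ∧ ∀ n, ∀ P ∈ q, MvPolynomial.eval (a' n) P = 0 := by
  classical
  let q : Ideal (MvPolynomial ι k) :=
    { carrier := {P | ∀ᶠ n in (U : Filter ℕ), MvPolynomial.eval (a n) P = 0}
      add_mem' := fun h h' => (h.and h').mono fun n hn => by rw [map_add, hn.1, hn.2, add_zero]
      zero_mem' := Eventually.of_forall fun n => map_zero _
      smul_mem' := fun c P h => h.mono fun n hn => by rw [smul_eq_mul, map_mul, hn, mul_zero] }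
  have hq : ∀ P, P ∈ q ↔ ∀ᶠ n in (U : Filter ℕ), MvPolynomial.eval (a n) P = 0 := fun _ => Iff.rfl
  obtain ⟨s, hs⟩ := IsNoetherian.noetherian q
  have hS : ∀ᶠ n in (U : Filter ℕ), ∀ P ∈ q, MvPolynomial.eval (a n) P = 0 :=
    ((eventually_all_finset s).2 fun P hP => (hq P).1 (hs ▸ Submodule.subset_span hP)).mono
      fun n hn P hP => (Submodule.span_le (p := RingHom.ker (MvPolynomial.eval (a n)))).2 hn
        (hs.ge hP)
  obtain ⟨n₀, h₀⟩ := hS.exists
  refine ⟨q, fun n => if ∀ P ∈ q, MvPolynomial.eval (a n) P = 0 then a n else a n₀,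
    ⟨fun h => ?_, fun {x y} h => ?_⟩, hq, hS.mono fun n hn => if_pos hn, fun n => ?_⟩
  · have := h₀ 1 (h.ge trivial)
    simp at this
  · exact Ultrafilter.eventually_or.1 (((hq _).1 h).mono fun n hn => by
      rwa [map_mul, mul_eq_zero] at hn)
  · dsimp only
    split_ifs with h
    exacts [h, h₀]

theorem gf_rel {D Ω : Type} [CommRing D] [Field Ω] (g : D →+* Ω) {b : Ω} (h0 : b ≠ 0)
    (h : IsAlgebraic g.range b) : ∃ F : Polynomial D, F.coeff 0 ≠ 0 ∧ F.eval₂ g b = 0 := by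
  obtain ⟨F, h1, h2⟩ := h.exists_nonzero_coeff_and_aeval_eq_zero (mem_nonZeroDivisors_of_ne_zero h0)
  obtain ⟨F, rfl⟩ := Polynomial.map_surjective _ g.rangeRestrict_surjective F
  refine ⟨F, fun e => h1 (by rw [Polynomial.coeff_map, e, map_zero]), ?_⟩
  rwa [Polynomial.aeval_def, Polynomial.eval₂_map] at h2

/-- The vanishing prime of the points, a branch at each point (`krull`; at the other indices use
one good point), the free amalgam, perfect closures; curve selection (`arc`). -/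
theorem exists_gb (hU : (U : Filter ℕ) ≤ cofinite) {ι : Type} [Finite ι] (a : ℕ → ι → RF p) :
    ∃ (Ω : Type) (_ : Field Ω) (_ : CharP Ω p) (_ : PerfectRing Ω p) (B : ℕ → Type)
      (_ : ∀ n, CommRing (B n)) (_ : ∀ n, CharP (B n) p) (_ : ∀ n, PerfectRing (B n) p)
      (G : GBs p U Ω B) (π : ∀ n, PS ι (RF p) →+* B n) (x : ι → Ω),
      (∀ n w, π n (C w) = G.cn n w) ∧ (∀ n f, G.ev n (π n f) = constantCoeff f) ∧
      ∀ᶠ n in (U : Filter ℕ), (∀ l, G.i n (π n (C (a n l) + X l)) = x l) ∧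
        ((∀ᶠ m in (U : Filter ℕ), a m = a n) ∨ ∃ (y : ι → PS Unit (RF p)) (lam : B n →+* PT p),
          C0 y ∧ y ≠ 0 ∧ ∀ f, lam (π n f) = PerfectClosure.of _ p (sb y f)) := by
  obtain ⟨q, a', hq, hm, ha, hz⟩ := gf_prime U a
  choose 𝔓 h𝔓 hP using fun n => krull (a' n) q (hz n)
  let s : ℕ → MvPolynomial ι (RF p) →+* PS ι (RF p) := fun n =>
    (MvPolynomial.aeval fun i => (C (a' n i) + X i : PS ι (RF p))).toRingHom
  have sC : ∀ n w, s n (MvPolynomial.C w) = C w := fun n w => MvPolynomial.aeval_C _ w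
  have sX : ∀ n l, s n (MvPolynomial.X l) = C (a' n l) + X l := fun n => MvPolynomial.aeval_X _
  have s0 : ∀ n P, constantCoeff (s n P) = MvPolynomial.eval (a' n) P := fun n =>
    RingHom.congr_fun (f := constantCoeff.comp (s n))
      (MvPolynomial.ringHom_ext (fun w => by simp [sC]) fun l => by simp [sX])
  let f : ∀ n, MvPolynomial ι (RF p) ⧸ q →+* PS ι (RF p) ⧸ 𝔓 n := fun n =>
    Ideal.quotientMap (𝔓 n) (s n) fun P h => (hP n P).2 h
  obtain ⟨Ω, _, _, g, j, hg, hj, hjf, halg⟩ := amalg (fun n => PS ι (RF p) ⧸ 𝔓 n) f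
    fun n => Ideal.quotientMap_injective' fun P h => (hP n P).1 h
  let c : RF p →+* Ω := g.comp ((Ideal.Quotient.mk q).comp MvPolynomial.C)
  have : CharP Ω p := charP_of_injective_ringHom c.injective p
  have : ∀ n, CharP (PS ι (RF p) ⧸ 𝔓 n) p := fun n =>
    charP_of_injective_ringHom ((Ideal.Quotient.mk (𝔓 n)).comp C).injective p
  choose i hi using fun n => gf_lift (p := p) (j n)
  choose ev hev using fun n => gf_lift (p := p) (Ideal.Quotient.lift (𝔓 n) constantCoeff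
    fun F hF => by_contra fun h => (h𝔓 n).ne_top
      (Ideal.eq_top_of_isUnit_mem _ hF (isUnit_iff_constantCoeff.2 (Ne.isUnit h))))
  let π : ∀ n, PS ι (RF p) →+* PerfectClosure (PS ι (RF p) ⧸ 𝔓 n) p := fun n =>
    (PerfectClosure.of _ p).comp (Ideal.Quotient.mk _)
  have e1 : ∀ n P, i n (π n (s n P)) = g (Ideal.Quotient.mk q P) := fun n P =>
    (hi n _).trans (hjf n (Ideal.Quotient.mk q P))
  have e2 : ∀ n F, ev n (π n F) = constantCoeff F := fun n F => hev n _
  have hp0 : ∀ r, 0 < p ^ r := fun r => pow_pos (Fact.out : p.Prime).pos r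
  have inj : ∀ n, Function.Injective (i n) := fun n => (injective_iff_map_eq_zero _).2 fun x hx => by
    obtain ⟨r, y, hy⟩ := IsPRadical.pow_mem (PerfectClosure.of _ p) p x
    have : j n y = 0 := by rw [← hi, hy, map_pow, hx, zero_pow (hp0 r).ne']
    rw [(map_eq_zero_iff _ (hj n)).1 this, map_zero] at hy
    exact IsNilpotent.eq_zero ⟨_, hy.symm⟩
  have al : ∀ n x, IsAlgebraic (j n).range (i n x) := fun n x => by
    obtain ⟨r, y, hy⟩ := IsPRadical.pow_mem (PerfectClosure.of _ p) p x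
    refine IsAlgebraic.of_pow (hp0 r) ?_
    rw [← map_pow, ← hy, hi]
    exact isAlgebraic_algebraMap (⟨_, y, rfl⟩ : (j n).range)
  refine ⟨Ω, inferInstance, inferInstance, inferInstance, _, inferInstance, inferInstance,
    inferInstance, ⟨c, fun n => (π n).comp C, i, ev, inj, fun n w => ?_, fun n w => e2 n _,
      fun b bn h0 hb => ?_⟩, π, fun l => g (Ideal.Quotient.mk q (MvPolynomial.X l)),
    fun _ _ => rfl, e2, ha.mono fun n hn => ⟨fun l => ?_, ?_⟩⟩
  · exact (congrArg (fun z => i n (π n z)) (sC n w)).symm.trans (e1 n (MvPolynomial.C w))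
  · obtain ⟨n, hn⟩ := hb.exists
    obtain ⟨m, hm', hne⟩ := (hb.and (hU (eventually_cofinite_ne n))).exists
    obtain ⟨F, h1, h2⟩ := gf_rel g h0 (halg m n b hne (hm' ▸ al m _) (hn ▸ al n _))
    obtain ⟨P, hP0⟩ := Ideal.Quotient.mk_surjective (F.coeff 0)
    have h3 : ¬ ∀ᶠ n in (U : Filter ℕ), MvPolynomial.eval (a n) P = 0 := fun h =>
      h1 (hP0 ▸ Ideal.Quotient.eq_zero_iff_mem.2 ((hm P).2 h))
    filter_upwards [hb, ha, Ultrafilter.eventually_not.2 h3] with n h4 h5 h6 h7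
    have h8 : F.eval₂ ((PerfectClosure.of _ p).comp (f n)) (bn n) = 0 := by
      refine (map_eq_zero_iff _ (inj n)).1 ?_
      rw [Polynomial.hom_eval₂, h4, ← h2]
      exact congrArg (F.eval₂ · b) (RingHom.ext fun d => (hi n _).trans (hjf n d))
    have h9 := congrArg (ev n) h8
    rw [Polynomial.hom_eval₂, h7, Polynomial.eval₂_at_zero, map_zero, ← hP0] at h9
    exact h6 (h5 ▸ (s0 n P).symm.trans ((e2 n _).symm.trans h9))
  · exact hn ▸ sX n l ▸ e1 n (MvPolynomial.X l)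
  · refine or_iff_not_imp_left.2 fun h => ?_
    obtain ⟨l, hl⟩ : ∃ l, ¬ ∀ᶠ m in (U : Filter ℕ), a m l = a n l := by
      by_contra! hc
      exact h ((eventually_all.2 hc).mono fun m hm => funext hm)
    have h1 : (X l : PS ι (RF p)) ∉ 𝔓 n := fun hX => by
      have : s n (MvPolynomial.X l - MvPolynomial.C (a n l)) ∈ 𝔓 n := by
        rwa [map_sub, sX, sC, hn, add_sub_cancel_left]
      exact hl (((hm _).1 ((hP n _).1 this)).mono fun m hm => by simpa [sub_eq_zero] using hm)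
    obtain ⟨y, hy, hy1, hy2⟩ := arc (𝔓 n) h1 (constantCoeff_X l)
    obtain ⟨lam, hlam⟩ := gf_lift (p := p)
      ((PerfectClosure.of _ p).comp (Ideal.Quotient.lift (𝔓 n) (sb y) hy1))
    refine ⟨y, lam, hy, fun e => hy2 ?_, fun F => hlam _⟩
    rw [evx_X hy.ev, e, Pi.zero_apply]

end Pool.Agent.E7
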