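import Pool.Agent.Lib.MP_7e5527_ag.EA.AG
import Pool.Agent.Lib.MP_7e5527_ag.EA.AU

/-! Generic vanishing. -/

open MvPowerSeries Filter Topology Matrix

noncomputable section

namespace Pool.Agent.E7

variable {p : ℕ} [Fact p.Prime]

/-- A generic point and its specialisations. -/
structure GD (p : ℕ) [Fact p.Prime] (U : Ultrafilter ℕ) (A : Type) [CommRing A] (An : ℕ → Type)
    [∀ n, CommRing (An n)] where
  c : W0 p →+* A
  cn : ∀ n, W0 p →+* An n
  i : ∀ n, An n →+* A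
  ε : ∀ n, An n →+* W0 p
  ic : ∀ n w, i n (cn n w) = c w
  εc : ∀ n w, ε n (cn n w) = w
  tf : ∀ y : A, (p : A) * y = 0 → y = 0
  div : ∀ n x, (p : A) ∣ i n x → (p : An n) ∣ x
  gen : ∀ (b : A) (bn : ∀ n, An n), ¬ (p : A) ∣ b →
    (∀ᶠ n in (U : Filter ℕ), (p : A) ∣ i n (bn n) - b) →
    ∀ᶠ n in (U : Filter ℕ), ¬ (p : W0 p) ∣ ε n (bn n)

variable {O : Type} [CommRing O] [Algebra (W0 p) O]

/-- The tensor product of `A` and `O` over the Witt vectors. -/
structure TE (D : Dec p O) {A : Type} [CommRing A] (c : W0 p →+* A) (T : Type) [CommRing T] where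
  α : A →+* T
  β : O →+* T
  comm : ∀ w, α (c w) = β (algebraMap (W0 p) O w)
  co : Fin D.e → T →+ A
  sum : ∀ t, t = ∑ i, α (co i t) * β D.pi ^ (i : ℕ)
  co_mul : ∀ i a t, co i (α a * t) = a * co i t
  co_pi : ∀ i j : Fin D.e, co i (β D.pi ^ (j : ℕ)) = if i = j then 1 else 0
  lift : ∀ (S : Type) [CommRing S] (f : A →+* S) (g : O →+* S),
    (∀ w, f (c w) = g (algebraMap (W0 p) O w)) →
      ∃ h : T →+* S, (∀ a, h (α a) = f a) ∧ ∀ x, h (β x) = g x

/-! Part 1. -/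

theorem Dec.pc (D : Dec p O) : PC p O := pc_basis D.b

section TE

variable {D : Dec p O} {A A' T T' : Type} [CommRing A] [CommRing A'] [CommRing T] [CommRing T']
  {c : W0 p →+* A} {c' : W0 p →+* A'}

theorem exists_te (D : Dec p O) (c : W0 p →+* A) :
    ∃ (T : Type) (_ : CommRing T), Nonempty (TE D c T) := by
  let _ : Algebra (W0 p) A := c.toAlgebra
  let B := Algebra.TensorProduct.basis A D.b
  have hB : ∀ j : Fin D.e, B j = (Algebra.TensorProduct.includeRight D.pi :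
      TensorProduct (W0 p) A O) ^ (j : ℕ) := fun j => by
    rw [← map_pow, ← D.hb]
    exact Algebra.TensorProduct.basis_apply _ _
  refine ⟨TensorProduct (W0 p) A O, inferInstance, ⟨⟨algebraMap A _,
    (Algebra.TensorProduct.includeRight : O →ₐ[W0 p] TensorProduct (W0 p) A O).toRingHom,
    fun w => ?_, fun i => (B.coord i).toAddMonoidHom, fun t => ?_, fun i a t => ?_,
    fun i j => ?_, fun S _ f g h => ?_⟩⟩⟩
  · exact ((Algebra.TensorProduct.includeRight : O →ₐ[W0 p] TensorProduct (W0 p) A O).commutes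
      w).symm
  · refine (B.sum_repr t).symm.trans (Finset.sum_congr rfl fun i _ => ?_)
    rw [Algebra.smul_def, hB]
    rfl
  · rw [← Algebra.smul_def]
    exact (B.coord i).map_smul a t
  · refine (congrArg (B.coord i) (hB j).symm).trans ?_
    rw [Module.Basis.coord_apply, Module.Basis.repr_self, Finsupp.single_apply]
    exact if_congr eq_comm rfl rfl
  · let _ : Algebra (W0 p) S := (f.comp c).toAlgebra
    refine ⟨(Algebra.TensorProduct.productMap ({ f with commutes' := fun _ => rfl } : A →ₐ[W0 p] S)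
      ({ g with commutes' := fun w => (h w).symm } : O →ₐ[W0 p] S)).toRingHom, fun a => ?_,
      fun x => ?_⟩
    · exact Algebra.TensorProduct.productMap_left_apply _ _ a
    · exact Algebra.TensorProduct.productMap_right_apply _ _ x

private theorem gv1_sum (X : TE D c T) (a : Fin D.e → A) (i : Fin D.e) :
    X.co i (∑ j, X.α (a j) * X.β D.pi ^ (j : ℕ)) = a i := by
  simp only [map_sum, X.co_mul, X.co_pi, mul_ite, mul_one, mul_zero, Finset.sum_ite_eq,
    Finset.mem_univ, if_true]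

private theorem gv1_pow (X : TE D c T) (i : Fin D.e) (k : ℕ) (t : T) :
    X.co i ((p : T) ^ k * t) = (p : A) ^ k * X.co i t := by
  rw [← X.co_mul, map_pow, map_natCast]

private theorem gv1_zero (X : TE D c T) {t : T} (h : ∀ i, X.co i t = 0) : t = 0 := by
  rw [X.sum t]
  exact Finset.sum_eq_zero fun i _ => by rw [h, map_zero, zero_mul]

theorem TE.dvd (X : TE D c T) {t : T} {k : ℕ} :
    (p : T) ^ k ∣ t ↔ ∀ i, (p : A) ^ k ∣ X.co i t := by
  constructor
  · rintro ⟨s, rfl⟩ i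
    exact ⟨_, gv1_pow X i k s⟩
  · intro h
    rw [X.sum t]
    refine Finset.dvd_sum fun i _ => Dvd.dvd.mul_right ?_ _
    have := map_dvd X.α (h i)
    rwa [map_pow, map_natCast] at this

theorem TE.pc [PC p A] (X : TE D c T) : PC p T := by
  refine pc_of p (fun y hy => gv1_zero X fun i => pc_sep p fun k => X.dvd.1 (hy k) i)
    fun f hf => ?_
  choose y hy using fun i => pc_lim p (fun k => X.co i (f k)) fun k => by
    rw [← map_sub]
    exact X.dvd.1 (hf k) i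
  refine ⟨∑ j, X.α (y j) * X.β D.pi ^ (j : ℕ), fun k => X.dvd.2 fun i => ?_⟩
  rw [map_sub, gv1_sum]
  exact hy i k

theorem TE.tf (X : TE D c T) (h : ∀ y : A, (p : A) * y = 0 → y = 0) (y : T)
    (hy : (p : T) * y = 0) : y = 0 :=
  gv1_zero X fun i => h _ (by
    have := gv1_pow X i 1 y
    rwa [pow_one, pow_one, hy, map_zero, eq_comm] at this)

theorem TE.co_map (X : TE D c T) (X' : TE D c' T') {f : A →+* A'} {h : T →+* T'}
    (h1 : ∀ a, h (X.α a) = X'.α (f a)) (h2 : ∀ x, h (X.β x) = X'.β x) (i : Fin D.e) (t : T) :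
    X'.co i (h t) = f (X.co i t) := by
  conv_lhs => rw [X.sum t]
  simp only [map_sum h, map_mul h, map_pow h, h1, h2]
  exact gv1_sum X' (fun j => f (X.co j t)) i

end TE

variable {U : Ultrafilter ℕ} {A : Type} [CommRing A] [PC p A] {An : ℕ → Type}
  [∀ n, CommRing (An n)] [∀ n, PC p (An n)]

omit [PC p A] [∀ n, PC p (An n)] in
private theorem gv1_div (G : GD p U A An) (n k : ℕ) {x : An n} {y : A}
    (h : G.i n x = (p : A) ^ k * y) : ∃ x', x = (p : An n) ^ k * x' ∧ G.i n x' = y := by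
  induction k generalizing x with
  | zero => exact ⟨x, by rw [pow_zero, one_mul], by rw [h, pow_zero, one_mul]⟩
  | succ k ih =>
    obtain ⟨x₁, rfl⟩ := G.div n x ⟨(p : A) ^ k * y, by rw [h]; ring⟩
    obtain ⟨x', h1, h2⟩ := ih (x := x₁) (sub_eq_zero.1 (G.tf _ (by
      rw [map_mul, map_natCast] at h
      rw [mul_sub, h]
      ring)))
    exact ⟨x', by rw [h1]; ring, h2⟩

theorem GD.inj (G : GD p U A An) (n : ℕ) : Function.Injective (G.i n) :=
  (injective_iff_map_eq_zero _).2 fun x hx => pc_sep p fun k => by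
    obtain ⟨x', h, -⟩ := gv1_div G n k (x := x) (y := 0) (by rw [hx, mul_zero])
    exact ⟨x', h⟩

theorem GD.div_pow (G : GD p U A An) (n k : ℕ) {x : An n} {y : A} (h : G.i n x = (p : A) ^ k * y) :
    ∃ x', x = (p : An n) ^ k * x' ∧ G.i n x' = y := gv1_div G n k h

private theorem gv1_pi (D : Dec p O) : D.val D.pi ≠ 0 ∧ red p (D.val D.pi) = 0 ∧
    D.val D.pi ^ D.e ∣ (p : OC p) := by
  have hp : (1 : ℝ) < p := by exact_mod_cast (Fact.out : p.Prime).one_lt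
  have hn := D.norm
  refine ⟨fun h => ?_, red_eq_zero.2 ?_, oc_dvd.2 ?_⟩
  · rw [h, ZeroMemClass.coe_zero, norm_zero, zero_pow D.pos.ne'] at hn
    exact (inv_pos.2 (zero_lt_one.trans hp)).ne hn
  · by_contra h
    have h1 := one_le_pow₀ (n := D.e) (not_lt.1 h)
    rw [hn] at h1
    exact absurd (inv_lt_one_of_one_lt₀ hp) (not_lt.2 h1)
  · rw [SubmonoidClass.coe_pow, norm_pow, hn]
    simpa only [pow_one] using (oc_pdvd (y := (p : OC p)) (k := 1)).1 (by rw [pow_one])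

private theorem gv1_lead (D : Dec p O) (u : Fin D.e → W0 p) (i0 : Fin D.e)
    (h : ∀ i < i0, (p : W0 p) ∣ u i) : ∃ y : OC p,
      ∑ i, jw p (u i) * D.val D.pi ^ (i : ℕ) = D.val D.pi ^ (i0 : ℕ) * y ∧
        red p y = (u i0).coeff 0 := by
  obtain ⟨-, h1, h2⟩ := gv1_pi D
  obtain ⟨z, hz⟩ : D.val D.pi ^ ((i0 : ℕ) + 1) ∣
      ∑ i ∈ Finset.univ.erase i0, jw p (u i) * D.val D.pi ^ (i : ℕ) := by
    refine Finset.dvd_sum fun i hi => ?_
    rcases lt_or_gt_of_ne (Finset.ne_of_mem_erase hi) with hl | hl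
    · have h3 := map_dvd (jw p) (h i hl)
      rw [map_natCast] at h3
      exact (((pow_dvd_pow _ i0.2).trans h2).trans h3).mul_right _
    · exact (pow_dvd_pow _ hl).mul_left _
  refine ⟨jw p (u i0) + D.val D.pi * z, ?_, ?_⟩
  · rw [← Finset.add_sum_erase _ _ (Finset.mem_univ i0), hz]
    ring
  · rw [map_add, map_mul, h1, zero_mul, add_zero, red_jw]

/-- The second alternative of `up_lemma` for series over the tensor product: take the least `i`
such that the component `co i` of `b` is not divisible by `p`, let `Z` be its support. -/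
theorem GD.lead (G : GD p U A An) {D : Dec p O} {T : Type} [CommRing T] {Tn : ℕ → Type}
    [∀ n, CommRing (Tn n)] (X : TE D G.c T) (Xn : ∀ n, TE D (G.cn n) (Tn n))
    (ι' : ∀ n, Tn n →+* T) (h1 : ∀ n a, ι' n ((Xn n).α a) = X.α (G.i n a))
    (h2 : ∀ n x, ι' n ((Xn n).β x) = X.β x) (lam : ∀ n, Tn n →+* OC p)
    (h3 : ∀ n a, lam n ((Xn n).α a) = jw p (G.ε n a)) (h4 : ∀ n x, lam n ((Xn n).β x) = D.val x)
    {τ : Type} (f : ∀ n, PS τ (Tn n)) {e : ℕ → ℕ} {b : ℕ → PS τ T} {b0 : PS τ T}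
    (h0 : ¬ (p : PS τ T) ∣ b0) (hb : ∀ᶠ n in (U : Filter ℕ),
      MvPowerSeries.map (ι' n) (f n) = (p : PS τ T) ^ e n * b n ∧ (p : PS τ T) ∣ b n - b0) :
    ∃ Z : Set (τ →₀ ℕ), Z.Nonempty ∧ ∀ R0 ∈ Z, ∀ᶠ n in (U : Filter ℕ),
      ∃ (a : OC p) (F : PS τ (OC p)), a ≠ 0 ∧ MvPowerSeries.map (lam n) (f n) = C a * F ∧
        (∀ R, red p (coeff R F) ≠ 0 → R ∈ Z) ∧ red p (coeff R0 F) ≠ 0 := by
  classical
  have hd : ∀ g : PS τ T, (p : PS τ T) ∣ g ↔ ∀ i ν, (p : A) ∣ X.co i (coeff ν g) := fun g => by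
    rw [← map_natCast (C : T →+* PS τ T), ps_dvd, forall_comm]
    refine forall_congr' fun ν => ?_
    simpa only [pow_one] using X.dvd (k := 1)
  have hne : (Finset.univ.filter fun i => ∃ ν, ¬ (p : A) ∣ X.co i (coeff ν b0)).Nonempty := by
    by_contra hn
    refine h0 ((hd _).2 fun i ν => ?_)
    by_contra h
    exact hn ⟨i, Finset.mem_filter.2 ⟨Finset.mem_univ _, ν, h⟩⟩
  obtain ⟨i0, hi0, hmin⟩ := Finset.exists_min_image _ id hne
  have hlt : ∀ i < i0, ∀ ν, (p : A) ∣ X.co i (coeff ν b0) := fun i hi ν => by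
    by_contra h
    exact absurd (hmin i (Finset.mem_filter.2 ⟨Finset.mem_univ _, ν, h⟩)) (not_le.2 hi)
  have hx : ∀ n R i, ∃ x' : An n, MvPowerSeries.map (ι' n) (f n) = (p : PS τ T) ^ e n * b n →
      (Xn n).co i (coeff R (f n)) = (p : An n) ^ e n * x' ∧
        G.i n x' = X.co i (coeff R (b n)) := by
    intro n R i
    by_cases h : MvPowerSeries.map (ι' n) (f n) = (p : PS τ T) ^ e n * b n
    · obtain ⟨x', h'⟩ := G.div_pow n (e n) (x := (Xn n).co i (coeff R (f n)))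
        (y := X.co i (coeff R (b n))) (by
          rw [← (Xn n).co_map X (h1 n) (h2 n), ← coeff_map, h, ← gv1_pow,
            ← map_natCast (C : T →+* PS τ T), ← map_pow, coeff_C_mul])
      exact ⟨x', fun _ => h'⟩
    · exact ⟨0, fun h' => absurd h' h⟩
  choose x hx using hx
  have hs : ∀ᶠ n in (U : Filter ℕ), ∀ R i, (p : A) ∣ G.i n (x n R i) - X.co i (coeff R b0) :=
    hb.mono fun n hn R i => by
      rw [(hx n R i hn.1).2, ← map_sub, ← map_sub]
      exact (hd _).1 hn.2 i R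
  refine ⟨{ν | ¬ (p : A) ∣ X.co i0 (coeff ν b0)}, (Finset.mem_filter.1 hi0).2, fun R0 hR0 => ?_⟩
  filter_upwards [hb, hs, G.gen _ (fun n => x n R0 i0) hR0 (hs.mono fun n hn => hn R0 i0)]
    with n hn hn1 hn2
  have hdv : ∀ R i, (p : A) ∣ X.co i (coeff R b0) → (p : W0 p) ∣ G.ε n (x n R i) := by
    intro R i h
    have h5 := map_dvd (G.ε n) (G.div n _ ((dvd_sub_left h).1 (hn1 R i)))
    rwa [map_natCast] at h5
  choose y hy using fun R => gv1_lead D (fun i => G.ε n (x n R i)) i0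
    fun i hi => hdv R i (hlt i hi R)
  refine ⟨(p : OC p) ^ e n * D.val D.pi ^ (i0 : ℕ), y, mul_ne_zero (pow_ne_zero _
    (Nat.cast_ne_zero.2 (Fact.out : p.Prime).ne_zero)) (pow_ne_zero _ (gv1_pi D).1), ?_,
    fun R hR h => hR ?_, fun h => hn2 (wv_dvd.2 ((hy R0).2.symm.trans h))⟩
  · ext1 R
    rw [coeff_map, coeff_C_mul, mul_assoc]
    refine Eq.trans ?_ (congrArg _ (hy R).1)
    rw [(Xn n).sum (coeff R (f n)), map_sum, Finset.mul_sum]
    refine Finset.sum_congr rfl fun i _ => ?_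
    rw [map_mul, map_pow, h3, h4, (hx n R i hn.1).1, map_mul, map_mul, map_pow, map_pow,
      map_natCast, map_natCast, mul_assoc]
  · exact (hy R).2.trans (wv_dvd.1 (hdv R i0 h))

/-! Part 2. -/

section GV2

variable {B T T' ι1 ι2 σ : Type} [CommRing B] [CommRing T] [CommRing T'] [PC p T] [PC p T']
  {w : ι2 → T}

/-- Substitution of constants in the second block of variables. -/
def gv2_F (α : B →+* T) (w : ι2 → T) : PS (ι1 ⊕ ι2) B →+* PS ι1 T :=
  evx (C.comp α) (Sum.elim X fun i => C (w i))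

theorem gv2_ev (hw : ∀ i, PN p (w i)) : Ev (Sum.elim X (fun i => C (w i)) : ι1 ⊕ ι2 → PS ι1 T) :=
  ev_ps p fun i => by
    rcases i with i | i
    · rw [Sum.elim_inl, constantCoeff_X]
      exact Ideal.zero_mem _
    · exact hw i

theorem gv2_zc {a : σ → ℤ_[p]} (ha : ∀ i, (p : ℤ_[p]) ∣ a i) (i : σ) : PN p (zc p T (a i)) :=
  Ideal.le_radical (Ideal.mem_span_singleton.2
    (by simpa only [map_natCast] using map_dvd (zc p T) (ha i)))

variable [Finite ι1] [Finite ι2] [Finite σ]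

theorem gv2_pn {a : σ → ℤ_[p]} (ha : ∀ i, (p : ℤ_[p]) ∣ a i) {V : PS σ T}
    (hV : PN p (constantCoeff V)) : PN p (evz T a V) := by
  have h := evx_sub_const (φ := RingHom.id T) (ev_pad p (gv2_zc (T := T) ha)) V
  rw [← sub_add_cancel (evz T a V) (constantCoeff V)]
  exact Ideal.add_mem _ ((Ideal.span_le.2 (Set.range_subset_iff.2 (gv2_zc ha))) h) hV

theorem gv2_map (α : B →+* T) (hw : ∀ i, PN p (w i)) (l : T →+* T') (H : PS (ι1 ⊕ ι2) B) :
    MvPowerSeries.map l (gv2_F α w H) = gv2_F (l.comp α) (fun i => l (w i)) H := by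
  refine eq_evx (E := (MvPowerSeries.map l).comp (gv2_F α w))
    (gv2_ev (p := p) fun i => (hw i).map l) (fun c => ?_) (fun i => ?_) H
  · rw [RingHom.comp_apply, gv2_F, evx_C (gv2_ev hw), RingHom.comp_apply, map_C]
    rfl
  · rw [RingHom.comp_apply, gv2_F, evx_X (gv2_ev hw)]
    rcases i with i | i
    · exact map_X l i
    · exact map_C l _

theorem gv2_eval (α : B →+* T) (hw : ∀ i, PN p (w i)) (l : T →+* T') {z : ι1 → T'}
    (hz : ∀ i, PN p (z i)) (H : PS (ι1 ⊕ ι2) B) :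
    evx l z (gv2_F α w H) = evx (l.comp α) (Sum.elim z fun i => l (w i)) H := by
  refine eq_evx (E := (evx l z).comp (gv2_F α w))
    (ev_pad p fun i => Sum.rec hz (fun i => (hw i).map l) i) (fun c => ?_) (fun i => ?_) H
  · rw [RingHom.comp_apply, gv2_F, evx_C (gv2_ev hw), RingHom.comp_apply, evx_C (ev_pad p hz)]
    rfl
  · rw [RingHom.comp_apply, gv2_F, evx_X (gv2_ev hw)]
    rcases i with i | i
    · exact evx_X (ev_pad p hz) i
    · exact evx_C (ev_pad p hz) _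

theorem gv2_GG (α : B →+* T) (β : T' →+* T) {V : ι2 → PS σ T'}
    (hV : ∀ i, PN p (constantCoeff (V i))) (H : PS (ι1 ⊕ ι2) B) : ∃ GG : PS σ (PS ι1 T),
    ∀ a : σ → ℤ_[p], (∀ i, (p : ℤ_[p]) ∣ a i) →
      evz _ a GG = gv2_F α (fun i => β (evz T' a (V i))) H := by
  have h0 : Ev (Sum.elim (fun i => C (X i)) (fun i => MvPowerSeries.map (C.comp β) (V i)) :
      ι1 ⊕ ι2 → PS σ (PS ι1 T)) := Ev.ps (ev_ps p fun i => by
    rcases i with i | i
    · rw [Sum.elim_inl, constantCoeff_C, constantCoeff_X]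
      exact Ideal.zero_mem _
    · exact (hV i).map β)
  refine ⟨evx (C.comp (C.comp α)) (Sum.elim (fun i => C (X i))
    fun i => MvPowerSeries.map (C.comp β) (V i)) H, fun a ha => ?_⟩
  have h1 := ev_pad p (gv2_zc (T := PS ι1 T) ha)
  refine eq_evx (E := (evz _ a).comp (evx (C.comp (C.comp α)) _))
    (gv2_ev (p := p) fun i => (gv2_pn ha (hV i)).map β) (fun c => ?_) (fun i => ?_) H
  · rw [RingHom.comp_apply, evx_C h0, RingHom.comp_apply, evx_C h1]
    rfl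
  · rw [RingHom.comp_apply, evx_X h0]
    rcases i with i | i
    · exact evx_C h1 _
    · refine (evx_map h1 _ _).trans (eq_evx (E := (C.comp β).comp (evz T' a)) h1 (fun c => ?_)
        (fun j => ?_) (V i)).symm
      · rw [RingHom.comp_apply, evx_C (ev_pad p (gv2_zc ha))]
        rfl
      · rw [RingHom.comp_apply, evx_X (ev_pad p (gv2_zc ha)), zc_map]

end GV2

/-- Apply `up_lemma` to the series in the parameters `σ` with coefficients in the series in `ι1`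
over the tensor product; the second alternative contradicts `lead` and `Chq.ex`. -/
theorem GD.gv0 (G : GD p U A An) (D : Dec p O) [PC p O] {ι1 ι2 σ : Type} [Fintype ι1]
    [DecidableEq ι1] [Finite ι2] [Finite σ] {E : ℚ_[p] → OC p} (hE : Chq E)
    {x : ℕ → ι1 → ℚ_[p]} (hx : Scl U Finset.univ x) {V : ι2 → PS σ O}
    (hV : ∀ i, PN p (constantCoeff (V i))) {a : ℕ → σ → ℤ_[p]} (ha : ∀ n i, (p : ℤ_[p]) ∣ a n i)
    {𝓗 : PS (ι1 ⊕ ι2) A} {𝓗n : ∀ n, PS (ι1 ⊕ ι2) (An n)} {v : ℕ → ι1 → OC p}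
    (hv : ∀ n, N1 (v n)) (h : ∀ᶠ n in (U : Filter ℕ), MvPowerSeries.map (G.i n) (𝓗n n) = 𝓗 ∧
      ∀ k : ℕ, evx ((jw p).comp (G.ε n)) (Sum.elim (fun i => v n i * E (k * x n i) - 1)
        fun i => D.val (evz O (a n) (V i))) (𝓗n n) = 0) :
    ∀ᶠ n in (U : Filter ℕ), ∀ (Λ : An n →+* OC p) (g : O →+* OC p),
      (∀ w, Λ (G.cn n w) = g (algebraMap (W0 p) O w)) → ∀ z : ι1 → OC p, Sm z →
        evx Λ (Sum.elim z fun i => g (evz O (a n) (V i))) (𝓗n n) = 0 := by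
  obtain ⟨T, _, ⟨Y⟩⟩ := exists_te D G.c
  choose Tn _ hn using fun n => exists_te D (G.cn n)
  have Yn := fun n => (hn n).some
  have := Y.pc
  have := fun n => (Yn n).pc
  choose ι' h1 h2 using fun n => (Yn n).lift T (Y.α.comp (G.i n)) Y.β fun w =>
    (congrArg Y.α (G.ic n w)).trans (Y.comm w)
  choose lam h3 h4 using fun n => (Yn n).lift (OC p) ((jw p).comp (G.ε n)) D.val fun w =>
    (congrArg (jw p) (G.εc n w)).trans (D.alg w).symm
  have hy : ∀ n i, PN p (evz O (a n) (V i)) := fun n i => gv2_pn (ha n) (hV i)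
  obtain ⟨f, hf⟩ : ∃ f : ∀ n, PS ι1 (Tn n), ∀ n, f n =
    gv2_F (Yn n).α (fun i => (Yn n).β (evz O (a n) (V i))) (𝓗n n) := ⟨_, fun _ => rfl⟩
  have ev : ∀ n (Λ : An n →+* OC p) (g : O →+* OC p) (l : Tn n →+* OC p),
      (∀ c, l ((Yn n).α c) = Λ c) → (∀ c, l ((Yn n).β c) = g c) → ∀ z : ι1 → OC p, Sm z →
      evx l z (f n) = evx Λ (Sum.elim z fun i => g (evz O (a n) (V i))) (𝓗n n) :=
    fun n Λ g l e1 e2 z hz => by
      rw [hf, gv2_eval (p := p) _ (fun i => (hy n i).map _) l fun i => pn_iff.2 (hz i),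
        show l.comp (Yn n).α = Λ from RingHom.ext e1]
      simp only [e2]
  obtain ⟨GG, hG⟩ := gv2_GG Y.α Y.β hV 𝓗
  have hm : ∀ᶠ n in (U : Filter ℕ), MvPowerSeries.map (ι' n) (f n) = evz _ (a n) GG := by
    filter_upwards [h] with n hn
    rw [hG _ (ha n), hf, gv2_map (p := p) _ (fun i => (hy n i).map _), ← hn.1, gv2_F, gv2_F,
      evx_map (gv2_ev (p := p) fun i => (hy n i).map _),
      show (ι' n).comp (Yn n).α = Y.α.comp (G.i n) from RingHom.ext (h1 n)]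
    simp only [h2, RingHom.comp_assoc]
  rcases up_lemma (N := PS ι1 T) (fun y hy => MvPowerSeries.ext fun ν => Y.tf G.tf _ (by
    rw [← coeff_C_mul, map_natCast, hy, map_zero])) U GG ha with h5 | ⟨S, hS, e, b, h5, h6⟩
  · filter_upwards [hm, h5] with n e1 e2 Λ g hg z hz
    obtain ⟨l, l1, l2⟩ := (Yn n).lift (OC p) Λ g hg
    have e3 : f n = 0 := MvPowerSeries.ext fun ν => by
      have e4 : ι' n (coeff ν (f n)) = 0 := by rw [← coeff_map, e1, e2, map_zero]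
      rw [(Yn n).sum (coeff ν (f n))]
      refine Finset.sum_eq_zero fun i _ => ?_
      have e5 := (Yn n).co_map Y (h1 n) (h2 n) i (coeff ν (f n))
      rw [e4, map_zero, eq_comm, map_eq_zero_iff _ (G.inj n)] at e5
      rw [e5, map_zero, zero_mul]
    rw [← ev n Λ g l l1 l2 z hz, e3, map_zero]
  · obtain ⟨n0, h0⟩ := Ultrafilter.nonempty_of_mem hS
    obtain ⟨Z, hZ, h7⟩ := G.lead Y Yn ι' h1 h2 lam h3 h4 f (e := e) (b := b) (h5 n0 h0).2 (by
      filter_upwards [hm, hS] with n e1 e2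
      exact ⟨e1.trans (h5 n e2).1, h6 n e2 n0 h0⟩)
    obtain ⟨R0, hR, h8⟩ := hE.ex hx hZ
    obtain ⟨n, ⟨c, F, hc, e1, e2, e3⟩, e4, e5⟩ := ((h7 R0 hR).and (h8.and h)).exists
    obtain ⟨k, hk⟩ := e4 F (v n) (hv n) e2 e3
    have hz : Sm fun i => v n i * E (k * x n i) - 1 :=
      (hv n).mul (v := fun i => E (k * x n i)) fun i => hE.near _
    have e6 := (ev n _ _ (lam n) (h3 n) (h4 n) _ hz).trans (e5.2 k)
    rw [← RingHom.id_comp (lam n), ← evx_map hz.ev, e1, map_mul, evx_C hz.ev] at e6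
    exact absurd e6 (mul_ne_zero hc hk)

/-! Part 3. -/

variable {ι : Type} [Fintype ι] [DecidableEq ι] {K : Subfield ℂ_[p]}

theorem gv3_span (hK : DVF K) {κ : Type} {L : κ → ℂ_[p]} (hL : ∀ k, L k ∈ K) {y : ℂ_[p]}
    (hy : y ∈ Submodule.span ℚ_[p] (Set.range L)) : y ∈ K := by
  induction hy using Submodule.span_induction with
  | mem x hx => obtain ⟨k, rfl⟩ := hx; exact hL k
  | zero => exact zero_mem _
  | add x y _ _ hx hy => exact add_mem hx hy
  | smul a x _ hx => rw [Algebra.smul_def]; exact mul_mem (hK.qp a) hx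

theorem gv3_alg (hK : DVF K) {w : ℂ_[p]} (hw : ‖w - 1‖ < 1) (h : lg p w ∈ K) :
    IsAlgebraic K w := by
  obtain ⟨c, hc⟩ := hK.pow_mem hw h
  exact .of_pow (pow_pos (Fact.out : p.Prime).pos c) (isAlgebraic_algebraMap (⟨_, hc⟩ : K))

theorem gv3_pow {E : ℚ_[p] → OC p} (hE : Chq E) (x : ℚ_[p]) (k : ℕ) : E x ^ k = E (k * x) := by
  induction k with
  | zero => simpa using ((hE.one 0).2 (by simp)).symm
  | succ k ih => rw [pow_succ, ih, ← hE.add, Nat.cast_succ, add_mul, one_mul]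

theorem gv3_res {E : ℚ_[p] → OC p} (hE : Chq E) {v : ι → OC p} (hv : N1 v) {g : ι → ℚ_[p]}
    {τ : ℂ_[p] →+* ℂ_[p]} (hτ : UAP.Iso τ) (h : ∀ i, τ (v i) = v i * E (g i))
    (γ : Matrix ι ι ℤ_[p]) (i : ι) : resO τ hτ (mpw v γ i) = mpw v γ i * E (zmv γ g i) := by
  have e : (fun l => resO τ hτ (v l)) = v * fun l => E (g l) := funext fun l => Subtype.ext (h l)
  rw [mpw_map hv.e1 _ (hv.res hτ).e1, e, mul_mpw (hv.e2 fun l => hE.near _), hE.mpw]
  rfl

/-- The normal form of a sequence of points with logarithms in a space of finite dimension. -/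
theorem gv_nf (hU : (U : Filter ℕ) ≤ cofinite) (hK : DVF K)
    (hμ : ∀ ξ : ℂ_[p], ξ ^ p ^ 2 = 1 → ξ ∈ K) {κ : Type} [Finite κ] {L : κ → ℂ_[p]}
    (hL : ∀ k, L k ∈ K) {v : ℕ → ι → OC p} (hv : ∀ n, N1 (v n))
    (hl : ∀ n i, lgo (v n) i ∈ Submodule.span ℚ_[p] (Set.range L)) :
    ∃ (γ : Matrix ι ι ℤ_[p]) (ρ : Finset ι) (r : ℝ) (E : ℚ_[p] → OC p) (x : ℕ → ι → ℚ_[p])
      (O : Type) (_ : CommRing O) (_ : Algebra (W0 p) O) (_ : PC p O) (D : Dec p O) (t : ℕ)
      (V : {i // i ∉ ρ} → PS ({i // i ∉ ρ} × Fin t) O) (a : ℕ → {i // i ∉ ρ} × Fin t → ℤ_[p]),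
      IsUnit γ.det ∧ r < 1 ∧ Chq E ∧ (Scl U Finset.univ fun n (i : ρ) => x n i) ∧
      (∀ i, PN p (constantCoeff (V i))) ∧ (∀ n q, (p : ℤ_[p]) ∣ a n q) ∧
      ∀ᶠ n in (U : Filter ℕ), (∀ i : {i // i ∉ ρ}, mpw (v n) γ i - 1 = D.val (evz O (a n) (V i)) ∧
          ‖((mpw (v n) γ i : OC p) : ℂ_[p]) - 1‖ ≤ r) ∧
        ∀ k : ℕ, ∃ (τ : ℂ_[p] →+* ℂ_[p]) (hτ : UAP.Iso τ), (∀ y ∈ K, τ y = y) ∧ ∀ i,
          resO τ hτ (mpw (v n) γ i) = mpw (v n) γ i * if i ∈ ρ then E (k * x n i) else 1 := by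
  obtain ⟨E, hE⟩ := exists_chq p
  have hp : (1 : ℝ) < p := Nat.one_lt_cast.2 (Fact.out : p.Prime).one_lt
  have h1 : ∀ n, ∃ c, ∀ i, (v n i : ℂ_[p]) ^ p ^ c ∈ K := fun n => by
    choose c hc using fun i => hK.pow_mem (hv n i) (gv3_span hK hL (hl n i))
    refine ⟨∑ i, c i, fun i => ?_⟩
    obtain ⟨d, hd⟩ := Nat.exists_eq_add_of_le
      (Finset.single_le_sum (f := c) (fun _ _ => Nat.zero_le _) (Finset.mem_univ i))
    rw [hd, pow_add, pow_mul]
    exact pow_mem (hc i) _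
  choose c hc using h1
  choose H H1 H2 using fun n => hE.grp hμ (hv n) (hc n)
  obtain ⟨γ, ρ, b, x, hγ, hx, hs, hb⟩ := scale U hU H
  obtain ⟨r, hr, hr'⟩ := hK.dv
  have h2 : ∀ n i, lgo (mpw (v n) γ) i ∈ Submodule.span ℚ_[p] (Set.range L) := fun n i => by
    rw [lgo_mpw (hv n)]
    exact sum_mem fun l _ => by
      have := Submodule.smul_mem _ (γ i l : ℚ_[p]) (hl n l)
      rwa [Algebra.smul_def] at this
  have h3 : ∀ᶠ n in (U : Filter ℕ), ∀ i : {i // i ∉ ρ},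
      ‖((mpw (v n) γ i : OC p) : ℂ_[p]) ^ p ^ b - 1‖ ≤ r := hb.mono fun n hn i => by
    have hu := (hv n).mpw γ i
    refine hr' _ (sub_mem (hK.gal ((gv3_alg hK hu (gv3_span hK hL (h2 n i))).pow _)
      fun τ hτ hf => ?_) (one_mem _)) ?_
    · obtain ⟨g, hg, e⟩ := H2 n τ hτ hf
      have a1 : E (zmv γ g i) ^ p ^ b = 1 := by
        rw [gv3_pow hE, hE.one, norm_mul, Nat.cast_pow, norm_pow, Padic.norm_p, inv_pow,
          inv_mul_le_one₀ (by positivity)]
        exact (hn i i.2).2 g hg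
      have a2 := congrArg (fun y : OC p => ((y ^ p ^ b : OC p) : ℂ_[p])) (gv3_res hE (hv n) hτ e γ i)
      simpa only [mul_pow, a1, mul_one, SubmonoidClass.coe_pow, coe_resO, ← map_pow] using a2
    · induction p ^ b with
      | zero => simp
      | succ m ih => rw [pow_succ]; exact norm_mul_sub_one ih hu
  obtain ⟨t, l, w, a, f, -, hl', hw, hw', ha, h4⟩ := par U L
    (u := fun n (i : {i // i ∉ ρ}) => mpw (v n) γ i) (fun n i => (hv n).mpw γ i) hr h3
    (.of_forall fun n i => h2 n i)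
  obtain ⟨K', hK', k1, k2⟩ := hK.ext fun i => gv3_alg hK (hw i) (gv3_span hK hL (hw' i))
  obtain ⟨O, _, _, D, hD⟩ := hK'.dec
  have := D.pc
  choose w' ew using fun i => hD _ (k2 i)
  choose l' el using fun k => hD _ (k1 (gv3_span hK hL (hl' k)))
  let y : {i // i ∉ ρ} → PS ({i // i ∉ ρ} × Fin t) O := fun i => ∑ k, X (i, k) * C (l' k)
  have y0 : ∀ i, constantCoeff (y i) = 0 := fun i => by simp [y]
  have y1 : ∀ i, Ev fun _ : Unit => y i := fun i => C0.ev fun _ => y0 i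
  refine ⟨γ, ρ, max ‖fun i => (w i : ℂ_[p]) - 1‖ ((p : ℝ) ^ 2)⁻¹, E, fun n => zmv γ (x n), O,
    inferInstance, inferInstance, this, D, t, fun i => C (w' i) * exo p (y i) - 1, a, hγ,
    max_lt ((pi_norm_lt_iff one_pos).2 hw) (inv_lt_one_of_one_lt₀ (one_lt_pow₀ hp two_ne_zero)), hE,
    ⟨fun i _ => hs.big i i.2, fun i _ j _ e => hs.sep i i.2 j j.2 (mt Subtype.ext e)⟩,
    fun i => D.pn _ ?_, ha, (h4.and hb).mono fun n hn => ⟨fun i => ?_, fun k => ?_⟩⟩
  · rw [map_sub, map_mul, exo_map (y1 i) _ (ev_nil fun _ => y0 i ▸ .zero), y0, exo_zero,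
      constantCoeff_C, mul_one, map_one, map_sub, ew, map_one]
    exact hw i
  · have a1 : ∀ q, PN p (a n q) := fun q => Ideal.le_radical (Ideal.mem_span_singleton.2 (ha n q))
    have a2 : Ev fun q => zc p O (a n q) := ev_pad p fun q => (a1 q).map _
    have a3 : (D.val.comp (evz O (a n))) (y i) = ∑ k, zc p _ (a n (i, k)) * l k := by
      simp [y, evx_X a2, evx_C a2, el, zc_map]
    have a4 : Ev fun _ : Unit => ∑ k, zc p (OC p) (a n (i, k)) * l k := ev_pad p fun _ =>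
      sum_mem fun k _ => Ideal.mul_mem_right _ _ ((a1 _).map _)
    have a5 := exo_map (p := p) (y1 i) (D.val.comp (evz O (a n))) (a3.symm ▸ a4)
    rw [a3, RingHom.comp_apply] at a5
    rw [(hn.1 i).1]
    refine ⟨by simp [a5, evx_C a2, ew], ?_⟩
    have a7 := oc_pdvd.1 ((dvd_mul_right _ _).trans (exo_sub_one (p := p) a4))
    generalize exo p (∑ k, zc p (OC p) (a n (i, k)) * l k) = e at a7 ⊢
    rw [show ((w i * e : OC p) : ℂ_[p]) - 1 = (w i - 1) * e + (e - 1 : OC p) by push_cast; ring]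
    refine (IsUltrametricDist.norm_add_le_max _ _).trans (max_le_max ?_ a7)
    rw [norm_mul]
    exact (mul_le_of_le_one_right (norm_nonneg _) (oc_le e)).trans
      (norm_le_pi_norm (fun i => (w i : ℂ_[p]) - 1) i)
  · obtain ⟨τ, hτ, hf, e⟩ := (H1 n _).1 (nsmul_mem (hx n) k)
    refine ⟨τ, hτ, hf, fun i => ?_⟩
    have a1 : zmv γ (k • x n) i = k * zmv γ (x n) i := by
      rw [zmv, zmv, Matrix.mulVec_smul, Pi.smul_apply, nsmul_eq_mul]
    rw [gv3_res hE (hv n) hτ e, a1]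
    split_ifs with h
    · rfl
    · rw [← gv3_pow hE, (hE.one _).2 (hn.2 i h).1, one_pow]

/-! Part 4. -/

omit [DecidableEq ι] in
theorem gv4_key {B κ : Type} [CommRing B] [PC p B] [Finite κ] (e : κ ≃ ι) (φ : B →+* OC p)
    {u : ι → OC p} (hu : N1 u) (γ : Matrix ι ι ℤ_[p]) (f : PS ι B) {y : κ → OC p}
    (hy : ∀ j, y j = u (e j) - 1) :
    evx φ y (rename e.symm (sb (tpw B γ) f)) = evx φ (fun i => mpw u γ i - 1) f := by
  have h1 : Ev y := Sm.ev fun j => by rw [hy]; exact hu _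
  rw [← evx_tpw hu.e1]
  refine eq_evx (E := (evx φ y).comp (rename e.symm : PS ι B →ₐ[B] PS κ B).toRingHom) hu.e1
    (fun a => ?_) (fun i => ?_) _
  · exact (congrArg (evx φ y) (rename_C _ a)).trans (evx_C h1 a)
  · exact (congrArg (evx φ y) (rename_X _ i)).trans
      ((evx_X h1 _).trans (by rw [hy, Equiv.apply_symm_apply]))

/-- Change the coordinates with `tpw`, split the variables with `rename`, apply `gv0`. -/
theorem gv (hU : (U : Filter ℕ) ≤ cofinite) (hK : DVF K)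
    (hμ : ∀ ξ : ℂ_[p], ξ ^ p ^ 2 = 1 → ξ ∈ K) {κ : Type} [Finite κ] {L : κ → ℂ_[p]}
    (hL : ∀ k, L k ∈ K) {v : ℕ → ι → OC p} (hv : ∀ n, N1 (v n))
    (hl : ∀ n i, lgo (v n) i ∈ Submodule.span ℚ_[p] (Set.range L)) :
    ∃ (γ : Matrix ι ι ℤ_[p]) (ρ : Finset ι) (r : ℝ), IsUnit γ.det ∧ r < 1 ∧
      (ρ = ∅ → ∀ᶠ n in (U : Filter ℕ), ∀ i, ‖(v n i : ℂ_[p]) - 1‖ ≤ r) ∧
      ∀ (A : Type) [CommRing A] [PC p A] (An : ℕ → Type) [∀ n, CommRing (An n)]
        [∀ n, PC p (An n)] (G : GD p U A An) (𝓗 : PS ι A) (𝓗n : ∀ n, PS ι (An n)),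
        (∀ᶠ n in (U : Filter ℕ), MvPowerSeries.map (G.i n) (𝓗n n) = 𝓗 ∧
          evx ((jw p).comp (G.ε n)) (fun i => v n i - 1) (𝓗n n) = 0) →
        ∀ᶠ n in (U : Filter ℕ), ∀ (Λ : An n →+* OC p) (s : ℂ_[p] →+* ℂ_[p]) (hs : UAP.Iso s),
          (∀ w, Λ (G.cn n w) = resO s hs (jw p w)) → ∀ z : ι → OC p, N1 z → (∀ i ∉ ρ, z i = 1) →
            evx Λ (fun i => resO s hs (v n i) * mpw z γ i - 1) (𝓗n n) = 0 := by
  obtain ⟨γ, ρ, r, E, x, O, _, _, _, D, t, V, a, hγ, hr, hE, hx, hV, ha, h⟩ :=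
    gv_nf hU hK hμ hL hv hl
  have hw : ∀ n, N1 (mpw (v n) γ) := fun n => (hv n).mpw γ
  have e0 : ∀ n, mpw (mpw (v n) γ) γ⁻¹ = v n := fun n => by
    rw [mpw_mpw (hv n).e1, nonsing_inv_mul _ hγ, mpw_one (hv n).e1]
  have e1 : ∀ n (s : ℂ_[p] →+* ℂ_[p]) (hs : UAP.Iso s) i,
      mpw (fun l => resO s hs (mpw (v n) γ l)) γ⁻¹ i = resO s hs (v n i) := fun n s hs i => by
    rw [← mpw_map (hw n).e1 _ ((hw n).res hs).e1, e0]
  refine ⟨γ⁻¹, ρ, r, isUnit_nonsing_inv_det _ hγ, hr, fun h0 => h.mono fun n hn i => ?_,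
    fun A _ _ An _ _ G 𝓗 𝓗n h1 => ?_⟩
  · have h2 : ∀ l, ‖((mpw (v n) γ l : OC p) : ℂ_[p]) - 1‖ ≤ r := fun l =>
      (hn.1 ⟨l, by simp [h0]⟩).2
    rw [← e0 n]
    exact norm_mpw (hw n) ((norm_nonneg _).trans (h2 i)) h2 _ i
  have h2 := G.gv0 D hE hx hV ha (v := fun n (i : ρ) => mpw (v n) γ i)
    (𝓗 := rename (Equiv.sumCompl (· ∈ ρ)).symm (sb (tpw A γ⁻¹) 𝓗))
    (𝓗n := fun n => rename (Equiv.sumCompl (· ∈ ρ)).symm (sb (tpw (An n) γ⁻¹) (𝓗n n)))
    (fun n i => hw n i) ((h.and h1).mono fun n ⟨hn, h3, h4⟩ => ⟨?_, fun k => ?_⟩)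
  · refine (h.and h2).mono fun n ⟨hn, h3⟩ Λ s hs hΛ z hz h4 => ?_
    have hu := ((hw n).res hs).mul hz
    have h5 := h3 Λ ((resO s hs).comp D.val) (fun w => by rw [hΛ, RingHom.comp_apply, D.alg])
      (fun i => resO s hs (mpw (v n) γ i) * z i - 1) fun i => hu i
    rw [gv4_key _ Λ hu, mul_mpw (((hw n).res hs).e2 hz)] at h5
    · simpa only [Pi.mul_apply, e1] using h5
    · rintro (j | j)
      · rfl
      · change resO s hs (D.val _) = resO s hs (mpw (v n) γ j) * z j - 1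
        rw [← (hn.1 j).1, h4 j j.2, mul_one, map_sub, map_one]
  · simp only [← rename_map, map_sb (tpw_c0 _), tpw_map, h3]
  · obtain ⟨τ, hτ, h5, h6⟩ := hn.2 k
    rw [gv4_key _ _ ((hw n).res hτ)]
    · have h7 := evx_comp (φ := (jw p).comp (G.ε n)) (hv n).e1 (resO τ hτ)
        (by simp only [map_sub, map_one]; exact ((hv n).res hτ).e1) (𝓗n n)
      have h8 : (resO τ hτ).comp ((jw p).comp (G.ε n)) = (jw p).comp (G.ε n) :=
        RingHom.ext fun w => Subtype.ext (h5 _ (hK.jw _))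
      rw [h4, map_zero, h8] at h7
      simpa only [map_sub, map_one, e1] using h7.symm
    · rintro (j | j)
      · change _ = resO τ hτ (mpw (v n) γ j) - 1
        rw [h6, if_pos j.2]
        rfl
      · change _ = resO τ hτ (mpw (v n) γ j) - 1
        rw [h6, if_neg j.2, mul_one, (hn.1 j).1]
        rfl

end Pool.Agent.E7
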