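import Pool.Agent.Lib.MP_7e5527_ag.EA.SA

/-! The connection at a point with values in a field. -/

open MvPowerSeries Matrix

noncomputable section

namespace Pool.Agent.E7

variable {k ι β F : Type} [Field k] [CharZero k] [Fintype ι] [DecidableEq ι] [Fintype β]
  [DecidableEq β] [Field F] [Algebra k F]

/-- The field of Laurent series. -/
abbrev LF (k : Type) [Field k] : Type := FractionRing (PS Unit k)

/-- The restriction to an arc. -/
def arcE {z : ι → PS Unit k} (h : C0 z) : PS ι k →ₐ[k] LF k :=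
  { (algebraMap (PS Unit k) (LF k)).comp (sb z) with
    commutes' := fun c => by
      change algebraMap (PS Unit k) (LF k) (evx C z (C c)) = _
      rw [evx_C h.ev]
      exact (IsScalarTower.algebraMap_apply k (PS Unit k) (LF k) c).symm }

theorem arcE_apply {z : ι → PS Unit k} (h : C0 z) (f : PS ι k) :
    arcE h f = algebraMap (PS Unit k) (LF k) (sb z f) := rfl

/-- The Taylor expansion at a point of an arc. -/
def shf (z : ι → PS Unit k) : PS ι k →+* PS ι (LF k) :=
  (MvPowerSeries.map (algebraMap (PS Unit k) (LF k))).comp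
    (evx ((C : PS Unit k →+* PS ι (PS Unit k)).comp C) fun l => C (z l) + X l)

/-! Part 1. -/

theorem sb1_der {R S : Type} [CommRing R] [CommRing S] [Algebra R S] (D : Derivation R S S)
    (I : Ideal S) (N : ℕ) : ∀ g ∈ I ^ (N + 1), D g ∈ I ^ N := by
  induction N with
  | zero => simp
  | succ N ih =>
    intro g hg
    rw [pow_succ] at hg
    refine Submodule.mul_induction_on hg (fun a ha b hb => ?_) fun a b ha hb => ?_
    · rw [D.leibniz, smul_eq_mul, smul_eq_mul]
      exact add_mem (Ideal.mul_mem_right _ _ ha) (pow_succ' I N ▸ Ideal.mul_mem_mul hb (ih a ha))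
    · rw [map_add]
      exact add_mem ha hb

theorem sb1_sum {R S α : Type} [CommRing R] [CommRing S] [Algebra R S] [Fintype α]
    (D : α → Derivation R S S) (g : S) : (∑ a, D a) g = ∑ a, D a g :=
  (congrFun (map_sum Derivation.coeFnAddMonoidHom D Finset.univ) g).trans (Finset.sum_apply ..)

theorem sb1_ev {R σ τ : Type} [CommRing R] {z : σ → R} (h : Ev z) (g : σ → τ) :
    Ev fun l => (C (z l) + X (g l) : PS τ R) := Ev.ps (by simpa using h)

theorem sb1_inj {σ A B : Type} [CommRing A] [CommRing B] {φ : A →+* B}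
    (h : Function.Injective φ) : Function.Injective (MvPowerSeries.map (σ := σ) φ) :=
  fun _ _ e => MvPowerSeries.ext fun ν => h (by rw [← coeff_map, e, coeff_map])

section Shift

variable {z : ι → PS Unit k} (h : C0 z)
include h

theorem shf_const (f : PS ι k) : constantCoeff (shf z f) = arcE h f := by
  have e : (fun l => constantCoeff (C (z l) + X l : PS ι (PS Unit k))) = z := by simp
  rw [arcE_apply, shf, RingHom.comp_apply, constantCoeff_map,
    evx_comp (sb1_ev h.ev fun l => l) constantCoeff (e.symm ▸ h.ev), e]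
  rfl

theorem shf_C (c : k) : shf z (C c) = C (algebraMap k (LF k) c) := by
  rw [shf, RingHom.comp_apply, evx_C (sb1_ev h.ev fun l => l), RingHom.comp_apply, map_C]
  exact congrArg C (IsScalarTower.algebraMap_apply k (PS Unit k) (LF k) c).symm

theorem shf_X (l : ι) : shf z (X l) = C (arcE h (X l)) + X l := by
  rw [shf, RingHom.comp_apply, evx_X (sb1_ev h.ev fun l => l), map_add, map_C, map_X, arcE_apply,
    evx_X h.ev]

theorem shf_der (l : ι) (f : PS ι k) : pderiv (LF k) l (shf z f) = shf z (pderiv k l f) := by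
  have hb := sb1_ev h.ev fun l => l
  rw [shf, RingHom.comp_apply, RingHom.comp_apply, pderiv_map']
  set E := evx ((C : PS Unit k →+* PS ι (PS Unit k)).comp C) fun l => C (z l) + X l
  have h1 : ∀ P : MvPolynomial ι k, pderiv _ l (E P) = E (pderiv k l P) := fun P => by
    induction P using MvPolynomial.induction_on with
    | C a => simp [E, evx_C hb]
    | add p q hp hq => simp only [MvPolynomial.coe_add, map_add, hp, hq]
    | mul_X p i hp =>
      simp only [MvPolynomial.coe_mul, MvPolynomial.coe_X, map_mul, Derivation.leibniz,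
        smul_eq_mul, map_add, hp]
      rcases eq_or_ne i l with rfl | e
      · simp [E, evx_X hb]
      · simp [E, evx_X hb, pderiv_X_of_ne e]
  have h2 : ∀ N g, g ∈ Ideal.span (Set.range (X : ι → PS ι k)) ^ N →
      E g ∈ Ideal.span (Set.range fun l => (C (z l) + X l : PS ι (PS Unit k))) ^ N :=
    fun N g hg => by
      have := Ideal.mem_map_of_mem E hg
      rw [Ideal.map_pow, Ideal.map_span, ← Set.range_comp] at this
      simpa only [Function.comp_def, E, evx_X hb] using this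
  refine congrArg _ (sub_eq_zero.1 (hb.sep fun N => ?_))
  have h3 := sub_trunc_mem f (N + 1)
  have h4 := sub_mem (sb1_der (pderiv _ l) _ N _ (h2 _ _ h3)) (h2 _ _ (sb1_der (pderiv k l) _ N _ h3))
  rwa [map_sub, map_sub, map_sub, map_sub, h1, sub_sub_sub_cancel_right] at h4

theorem shf_inj : Function.Injective (shf z) := by
  have hb := sb1_ev h.ev fun l => l
  have hc := sb1_ev (C0.ev (b := fun l => -z l) fun l => by simp [h l]) fun l => l
  have e : (sb fun l => C (-z l) + X l).comp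
      (evx ((C : PS Unit k →+* PS ι (PS Unit k)).comp C) fun l => C (z l) + X l) =
      MvPowerSeries.map C :=
    c0_X.ev.ext (fun a => by rw [RingHom.comp_apply, evx_C hb, RingHom.comp_apply, evx_C hc, map_C])
      (fun i => by rw [RingHom.comp_apply, evx_X hb, map_add, evx_C hc, evx_X hc]; simp) (by simp)
  have h1 := sb1_inj (σ := ι) (C_injective (σ := Unit) (R := k))
  rw [← e] at h1
  rw [RingHom.coe_comp] at h1
  exact (sb1_inj (IsFractionRing.injective (PS Unit k) (LF k))).comp h1.of_comp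

end Shift

theorem shf_rename {κ : Type} [Fintype κ] [DecidableEq κ] {z : κ → PS Unit k} (h : C0 z)
    (g : ι → κ) (f : PS ι k) :
    shf z (rename g f) = rename g (shf (fun l => z (g l)) f) := by
  have h' : C0 fun l => z (g l) := fun l => h _
  have hb := sb1_ev h.ev fun l => l
  have hc := sb1_ev h'.ev fun l => l
  rw [shf, shf, RingHom.comp_apply, RingHom.comp_apply, rename_map]
  exact congrArg _ (DFunLike.congr_fun ((sb1_ev h'.ev g).ext
    (α := (evx _ _).comp (rename g : PS ι k →ₐ[k] PS κ k).toRingHom)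
    (β := (rename g : PS ι (PS Unit k) →ₐ[PS Unit k] PS κ (PS Unit k)).toRingHom.comp (evx _ _))
    (fun a => by simp [evx_C hb, evx_C hc]) (fun i => by simp [evx_X hb])
    fun i => by simp [evx_X hc]) f)

namespace LD

variable (Λ : LD k ι β)

/-- The chain rule holds for the algebraic functions and all derivations. -/
def Good (ε : PS ι k →ₐ[k] F) : Prop := ∀ (D : Derivation k F F) f, f ∈ algS k Λ.x →
  D (ε f) = ∑ j, ε (Λ.D j f) * D (ε (Λ.x j))

theorem good_arc {z : ι → PS Unit k} (h : C0 z) : Λ.Good (arcE h) := by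
  intro D f hf
  obtain ⟨D', hD⟩ := exists_cder D ι
  have h0 : ∀ g, constantCoeff (D' g) = D (constantCoeff g) := fun g => hD g 0
  let δ : Derivation k (PS ι (LF k)) (PS ι (LF k)) := D' - ∑ j, D' (shf z (Λ.x j)) •
    ∑ l, shf z (Λ.K l j) • (pderiv (LF k) l).restrictScalars k
  have h1 : ∀ g, δ (shf z g) = D' (shf z g) - ∑ j, shf z (Λ.D j g) * D' (shf z (Λ.x j)) :=
    fun g => by
      simp only [δ, Derivation.sub_apply, sb1_sum, Derivation.smul_apply,
        Derivation.restrictScalars_apply, shf_der h, Λ.D_apply, map_sum, map_mul, smul_eq_mul,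
        mul_comm]
  have h2 := der_alg δ (fun i => by simp [h1, Λ.D_x])
    (algS_map (RingHom.id k) (shf z)
      (fun c => (shf_C h c).trans (MvPowerSeries.algebraMap_apply (r := c)).symm) (shf_inj h) hf)
  have h3 := congrArg constantCoeff (sub_eq_zero.1 ((h1 f).symm.trans h2))
  simpa only [map_sum, map_mul, h0, shf_const h] using h3

/-- The form of the connection. -/
def Af (ε : PS ι k →ₐ[k] F) (D : Derivation k F F) : Matrix β β F :=
  ∑ j, D (ε (Λ.x j)) • (Λ.A j).map ε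

/-- The defect of the flat frame. -/
def Om (ε : PS ι k →ₐ[k] F) (D : Derivation k F F) : Matrix β β F :=
  (Λ.W.map ε)⁻¹ * ((Λ.W.map ε).map D - Λ.Af ε D * Λ.W.map ε)

/-- The defect of the chain rule. -/
def mu (ε : PS ι k →ₐ[k] F) (D : Derivation k F F) : ι → F :=
  (jacS Λ.x).map ε *ᵥ (fun l => D (ε (X l))) - fun j => D (ε (Λ.x j))

/-! Part 2. -/

section Calc

variable {α γ δ' : Type}

theorem sb2_mul [Fintype γ] (D : Derivation k F F) (M : Matrix α γ F) (N : Matrix γ δ' F) :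
    (M * N).map D = M.map D * N + M * N.map D := by
  ext a b
  simp only [map_apply, mul_apply, Matrix.add_apply, map_sum, Derivation.leibniz, smul_eq_mul,
    ← Finset.sum_add_distrib]
  exact Finset.sum_congr rfl fun c _ => by ring

theorem sb2_add (D : Derivation k F F) (M N : Matrix α γ F) :
    (M + N).map D = M.map D + N.map D := by
  ext a b
  simp only [map_apply, Matrix.add_apply, map_add]

theorem sb2_vec [Fintype α] (D : Derivation k F F) (v : α → F) (M : Matrix α γ F) (b : γ) :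
    D ((v ᵥ* M) b) = ((fun a => D (v a)) ᵥ* M) b + (v ᵥ* M.map D) b := by
  simp only [vecMul, dotProduct, map_apply, map_sum, Derivation.leibniz, smul_eq_mul,
    ← Finset.sum_add_distrib]
  exact Finset.sum_congr rfl fun c _ => by ring

theorem sb2_poly (ε : PS ι k →ₐ[k] F) (D : Derivation k F F) (Q : MvPolynomial ι k) :
    D (ε Q) = ∑ l, ε (pderiv k l (Q : PS ι k)) * D (ε (X l)) := by
  induction Q using MvPolynomial.induction_on with
  | C a =>
    simp only [MvPolynomial.coe_C, pderiv_C, map_zero, zero_mul, Finset.sum_const_zero]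
    rw [c_eq_algebraMap, AlgHom.commutes, Derivation.map_algebraMap]
  | add p q hp hq =>
    simp only [MvPolynomial.coe_add, map_add, hp, hq, add_mul, Finset.sum_add_distrib]
  | mul_X p n hp =>
    simp only [MvPolynomial.coe_mul, MvPolynomial.coe_X, map_mul, Derivation.leibniz, smul_eq_mul,
      hp, map_add, add_mul, Finset.sum_add_distrib, Finset.mul_sum, mul_assoc]
    congr 1
    rw [Finset.sum_eq_single n (fun l _ hl => by
      rw [pderiv_X_of_ne hl.symm, map_zero, zero_mul, mul_zero]) (by simp), pderiv_X_self, map_one,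
      one_mul]

end Calc

variable (ε : PS ι k →ₐ[k] F)

theorem W_unit : IsUnit (Λ.W.map ε).det := by
  have h := Λ.hW.map ε
  rwa [AlgHom.map_det] at h

theorem om_spec (D : Derivation k F F) :
    (Λ.W.map ε).map D = Λ.Af ε D * Λ.W.map ε + Λ.W.map ε * Λ.Om ε D := by
  rw [Om, mul_nonsing_inv_cancel_left _ _ (Λ.W_unit ε), add_sub_cancel]

theorem sb2_af_add (D D' : Derivation k F F) : Λ.Af ε (D + D') = Λ.Af ε D + Λ.Af ε D' := by
  simp only [Af, Derivation.add_apply, add_smul, Finset.sum_add_distrib]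

theorem sb2_af_smul (c : F) (D : Derivation k F F) : Λ.Af ε (c • D) = c • Λ.Af ε D := by
  simp only [Af, Derivation.smul_apply, Finset.smul_sum, smul_assoc]

theorem om_add (D D' : Derivation k F F) : Λ.Om ε (D + D') = Λ.Om ε D + Λ.Om ε D' := by
  have e : (Λ.W.map ε).map (D + D') = (Λ.W.map ε).map D + (Λ.W.map ε).map D' := rfl
  rw [Om, Om, Om, e, sb2_af_add, ← Matrix.mul_add, Matrix.add_mul, add_sub_add_comm]

theorem om_smul (c : F) (D : Derivation k F F) : Λ.Om ε (c • D) = c • Λ.Om ε D := by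
  have e : (Λ.W.map ε).map (c • D) = c • (Λ.W.map ε).map D := rfl
  rw [Om, Om, e, sb2_af_smul, ← Matrix.mul_smul, Matrix.smul_mul, smul_sub]

theorem mu_add (D D' : Derivation k F F) : Λ.mu ε (D + D') = Λ.mu ε D + Λ.mu ε D' := by
  rw [mu, mu, mu, ← add_sub_add_comm, ← mulVec_add]
  rfl

theorem mu_smul (c : F) (D : Derivation k F F) : Λ.mu ε (c • D) = c • Λ.mu ε D := by
  rw [mu, mu, smul_sub, ← mulVec_smul]
  rfl

theorem sb2_DW (j : ι) (a b : β) :
    ε (Λ.D j (Λ.W a b)) = ((Λ.A j).map ε * Λ.W.map ε) a b := by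
  have h : Λ.D j (Λ.W a b) = (Λ.A j * Λ.W) a b := congrFun (congrFun (Λ.hA j) a) b
  simp only [h, mul_apply, map_sum, map_mul, map_apply]

/-- A derivation that satisfies the chain rule for all series. -/
theorem om_chain {δ : Derivation k F F}
    (h : ∀ f, δ (ε f) = ∑ l, ε (pderiv k l f) * δ (ε (X l))) :
    Λ.Om ε δ = 0 ∧ Λ.mu ε δ = 0 := by
  constructor
  · have e : (Λ.W.map ε).map δ = Λ.Af ε δ * Λ.W.map ε := by
      ext a b
      rw [Af, Matrix.sum_mul, Matrix.sum_apply, map_apply, map_apply, h]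
      simp only [Matrix.smul_mul, Matrix.smul_apply, smul_eq_mul, ← sb2_DW]
      simp only [Λ.pderiv_eq _ (Λ.W a b), map_sum, map_mul, Finset.sum_mul]
      rw [Finset.sum_comm]
      refine Finset.sum_congr rfl fun j _ => ?_
      rw [h (Λ.x j), mul_comm, Finset.mul_sum]
      exact Finset.sum_congr rfl fun l _ => mul_assoc _ _ _
    rw [Om, e, sub_self, Matrix.mul_zero]
  · funext j
    rw [mu, Pi.sub_apply, h (Λ.x j)]
    exact sub_self _

theorem sb2_KJ : Λ.K.map ε * (jacS Λ.x).map ε = 1 := by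
  have h := congrArg (AlgHom.mapMatrix ε) Λ.K_mul
  rwa [map_mul, map_one] at h

variable {Λ ε}

theorem Good.sb2_af (h : Λ.Good ε) (D D' : Derivation k F F) : (Λ.Af ε D').map D =
    ∑ j, D (D' (ε (Λ.x j))) • (Λ.A j).map ε +
      ∑ i, ∑ j, (D (ε (Λ.x i)) * D' (ε (Λ.x j))) • ((Λ.A j).map (Λ.D i)).map ε := by
  ext a b
  rw [Finset.sum_comm]
  simp only [Af, map_apply, Matrix.add_apply, Matrix.sum_apply, Matrix.smul_apply, smul_eq_mul,
    map_sum, Derivation.leibniz, ← Finset.sum_add_distrib]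
  refine Finset.sum_congr rfl fun j _ => ?_
  rw [h D _ (Λ.aA j a b), Finset.mul_sum, add_comm, mul_comm]
  exact congrArg _ (Finset.sum_congr rfl fun i _ => by ring)

theorem Good.sb2_curv (h : Λ.Good ε) (D D' : Derivation k F F) : Λ.Af ε ⁅D, D'⁆ =
    (Λ.Af ε D').map D - (Λ.Af ε D).map D' - (Λ.Af ε D * Λ.Af ε D' - Λ.Af ε D' * Λ.Af ε D) := by
  have e : ∀ i j, ((Λ.A j).map (Λ.D i)).map ε = ((Λ.A i).map (Λ.D j)).map ε +
      ((Λ.A i).map ε * (Λ.A j).map ε - (Λ.A j).map ε * (Λ.A i).map ε) := by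
    intro i j
    have h1 := congrArg (AlgHom.mapMatrix ε) (Λ.A_flat i j)
    rw [map_sub, map_sub, map_mul, map_mul] at h1
    exact eq_add_of_sub_eq' h1
  have e1 : Λ.Af ε D * Λ.Af ε D' = ∑ i, ∑ j,
      (D (ε (Λ.x i)) * D' (ε (Λ.x j))) • ((Λ.A i).map ε * (Λ.A j).map ε) := by
    rw [Af, Af, Finset.sum_mul_sum]
    simp only [smul_mul_smul_comm]
  have e2 : Λ.Af ε D' * Λ.Af ε D = ∑ i, ∑ j,
      (D (ε (Λ.x i)) * D' (ε (Λ.x j))) • ((Λ.A j).map ε * (Λ.A i).map ε) := by
    rw [Finset.sum_comm, Af, Af, Finset.sum_mul_sum]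
    simp only [smul_mul_smul_comm, mul_comm (D' _)]
  have e3 : ∑ i, ∑ j, (D' (ε (Λ.x i)) * D (ε (Λ.x j))) • ((Λ.A j).map (Λ.D i)).map ε =
      ∑ i, ∑ j, (D (ε (Λ.x i)) * D' (ε (Λ.x j))) • ((Λ.A i).map (Λ.D j)).map ε := by
    rw [Finset.sum_comm]
    simp only [mul_comm (D' _)]
  have e4 : Λ.Af ε ⁅D, D'⁆ = ∑ j, D (D' (ε (Λ.x j))) • (Λ.A j).map ε -
      ∑ j, D' (D (ε (Λ.x j))) • (Λ.A j).map ε := by
    simp only [Af, Derivation.commutator_apply, sub_smul, Finset.sum_sub_distrib]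
  have e5 : ∑ i, ∑ j, (D (ε (Λ.x i)) * D' (ε (Λ.x j))) • ((Λ.A j).map (Λ.D i)).map ε =
      ∑ i, ∑ j, (D (ε (Λ.x i)) * D' (ε (Λ.x j))) • ((Λ.A i).map (Λ.D j)).map ε +
        (Λ.Af ε D * Λ.Af ε D' - Λ.Af ε D' * Λ.Af ε D) := by
    rw [e1, e2, ← Finset.sum_sub_distrib, ← Finset.sum_add_distrib]
    refine Finset.sum_congr rfl fun i _ => ?_
    rw [← Finset.sum_sub_distrib, ← Finset.sum_add_distrib]
    refine Finset.sum_congr rfl fun j _ => ?_
    rw [e i j, smul_add, smul_sub]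
  rw [h.sb2_af D D', h.sb2_af D' D, e3, e4, e5]
  abel

theorem Good.flat (h : Λ.Good ε) (D D' : Derivation k F F) : Λ.Om ε ⁅D, D'⁆ =
    Λ.Om ε D * Λ.Om ε D' - Λ.Om ε D' * Λ.Om ε D + (Λ.Om ε D').map D - (Λ.Om ε D).map D' := by
  have e : (Λ.W.map ε).map (⁅D, D'⁆ : Derivation k F F) =
      ((Λ.W.map ε).map D').map D - ((Λ.W.map ε).map D).map D' := rfl
  have e1 : (Λ.W.map ε).map (⁅D, D'⁆ : Derivation k F F) - Λ.Af ε ⁅D, D'⁆ * Λ.W.map ε = Λ.W.map ε *
      (Λ.Om ε D * Λ.Om ε D' - Λ.Om ε D' * Λ.Om ε D + (Λ.Om ε D').map D - (Λ.Om ε D).map D') := by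
    rw [e, h.sb2_curv, Λ.om_spec ε D, Λ.om_spec ε D', sb2_add, sb2_add, sb2_mul, sb2_mul, sb2_mul,
      sb2_mul, Λ.om_spec ε D, Λ.om_spec ε D']
    noncomm_ring
  rw [Om, e1, nonsing_inv_mul_cancel_left _ _ (Λ.W_unit ε)]

theorem Good.rel (h : Λ.Good ε) (D : Derivation k F F) :
    Λ.Rel (ε : PS ι k →+* F) (Λ.Om ε D) (Λ.mu ε D) := by
  have he : ε Λ.e0 ≠ 0 := (Λ.he.map ε).ne_zero
  have hK : Λ.K.map ε *ᵥ Λ.mu ε D =
      (fun l => D (ε (X l))) - Λ.K.map ε *ᵥ fun j => D (ε (Λ.x j)) := by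
    rw [mu, mulVec_sub, mulVec_mulVec, sb2_KJ, one_mulVec]
  have hc : (fun a => ε (Λ.c0 a)) ᵥ* Λ.W.map ε = ε Λ.e0 • fun b => ε (Λ.P b) := by
    funext b
    rw [Pi.smul_apply, smul_eq_mul, ← map_mul, Λ.hc]
    simp only [vecMul, dotProduct, map_sum, map_mul, map_apply]
  refine ⟨(ε Λ.e0)⁻¹ * (D (ε Λ.e0) - ∑ j, D (ε (Λ.x j)) * ε (Λ.D j Λ.e0)), funext fun b => ?_⟩
  have h1 : ∀ j, (((fun a => ε (Λ.D j (Λ.c0 a))) ᵥ* Λ.W.map ε) b +
      ((fun a => ε (Λ.c0 a)) ᵥ* ((Λ.A j).map ε * Λ.W.map ε)) b) =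
      ε Λ.e0 * (∑ l, ε (Λ.K l j) * ε (pderiv k l (Λ.P b : PS ι k))) +
        ε (Λ.P b) * ε (Λ.D j Λ.e0) := by
    intro j
    have h2 := congrArg ε (Λ.hc1 j b)
    rw [Derivation.leibniz, smul_eq_mul, smul_eq_mul, Λ.D_apply j (Λ.P b), c1, add_vecMul] at h2
    rw [← vecMul_vecMul]
    simp only [map_add, map_mul, map_sum, vecMul, dotProduct, Pi.add_apply, map_apply] at h2 ⊢
    exact h2.symm
  have h2 : ((fun a => D (ε (Λ.c0 a))) ᵥ* Λ.W.map ε) b =
      ∑ j, D (ε (Λ.x j)) * ((fun a => ε (Λ.D j (Λ.c0 a))) ᵥ* Λ.W.map ε) b := by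
    simp only [vecMul, dotProduct, fun a => h D _ (Λ.ac a), Finset.sum_mul, Finset.mul_sum]
    rw [Finset.sum_comm]
    exact Finset.sum_congr rfl fun j _ => Finset.sum_congr rfl fun a _ => by ring
  have h3 : ((fun a => ε (Λ.c0 a)) ᵥ* (Λ.Af ε D * Λ.W.map ε)) b =
      ∑ j, D (ε (Λ.x j)) * ((fun a => ε (Λ.c0 a)) ᵥ* ((Λ.A j).map ε * Λ.W.map ε)) b := by
    simp only [Af, Matrix.sum_mul, Matrix.smul_mul, vecMul_sum, vecMul_smul, Finset.sum_apply,
      Pi.smul_apply, smul_eq_mul]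
  have h4 := sb2_vec D (fun a => ε (Λ.c0 a)) (Λ.W.map ε) b
  rw [Λ.om_spec, vecMul_add, Pi.add_apply, ← vecMul_vecMul _ (Λ.W.map ε), hc, h2, h3, ← add_assoc,
    ← Finset.sum_add_distrib, Pi.smul_apply, smul_eq_mul, Derivation.leibniz, smul_eq_mul,
    smul_eq_mul, sb2_poly, smul_vecMul, Pi.smul_apply, smul_eq_mul] at h4
  simp only [← mul_add, h1] at h4
  have h5 : ∑ j, D (ε (Λ.x j)) * (ε Λ.e0 * (∑ l, ε (Λ.K l j) * ε (pderiv k l (Λ.P b : PS ι k))) +
      ε (Λ.P b) * ε (Λ.D j Λ.e0)) =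
      ε Λ.e0 * (∑ l, (Λ.K.map ε *ᵥ fun j => D (ε (Λ.x j))) l * ε (pderiv k l (Λ.P b : PS ι k))) +
        ε (Λ.P b) * ∑ j, D (ε (Λ.x j)) * ε (Λ.D j Λ.e0) := by
    simp only [mul_add, Finset.sum_add_distrib, mulVec, dotProduct, map_apply, Finset.mul_sum,
      Finset.sum_mul]
    rw [Finset.sum_comm]
    congr 1
    · exact Finset.sum_congr rfl fun l _ => Finset.sum_congr rfl fun j _ => by ring
    · exact Finset.sum_congr rfl fun j _ => by ring
  rw [h5] at h4
  have h6 : (∑ l, (Λ.K.map (ε : PS ι k →+* F) *ᵥ Λ.mu ε D) l • Λ.dv (ε : PS ι k →+* F) l) b =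
      ∑ l, ε (pderiv k l (Λ.P b : PS ι k)) * D (ε (X l)) -
        ∑ l, (Λ.K.map ε *ᵥ fun j => D (ε (Λ.x j))) l * ε (pderiv k l (Λ.P b : PS ι k)) := by
    rw [Finset.sum_apply, ← Finset.sum_sub_distrib]
    refine Finset.sum_congr rfl fun l _ => ?_
    change (Λ.K.map ε *ᵥ Λ.mu ε D) l * ε (pderiv k l (Λ.P b : PS ι k)) = _
    rw [hK, Pi.sub_apply]
    ring
  rw [Pi.add_apply, h6]
  change ((fun b => ε (Λ.P b)) ᵥ* Λ.Om ε D) b = _ * ε (Λ.P b) + _
  refine mul_left_cancel₀ he ?_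
  rw [mul_add, ← mul_assoc, mul_inv_cancel_left₀ he]
  linear_combination -h4

/-- The derivative of a relation along a derivation that kills the coordinates. -/
theorem Good.rel_der (h : Λ.Good ε) {D : Derivation k F F} (hD : ∀ j, D (ε (Λ.x j)) = 0)
    {η : Matrix β β F} {μ : ι → F} (hη : Λ.Rel (ε : PS ι k →+* F) η μ) :
    Λ.Rel (ε : PS ι k →+* F) (Λ.Om ε D * η - η * Λ.Om ε D + η.map D) fun j => D (μ j) := by
  have h0 : ∀ f ∈ algS k Λ.x, D (ε f) = 0 := fun f hf => by
    simp only [h D f hf, hD, mul_zero, Finset.sum_const_zero]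
  have hW : (Λ.W.map ε).map D = Λ.W.map ε * Λ.Om ε D := by
    rw [Λ.om_spec, Af]
    simp only [hD, zero_smul, Finset.sum_const_zero, Matrix.zero_mul, zero_add]
  obtain ⟨Θ, hΘ⟩ : ∃ Θ, Θ * Λ.W.map ε = Λ.W.map ε * η :=
    ⟨_, nonsing_inv_mul_cancel_right _ _ (Λ.W_unit ε)⟩
  have h1 : Θ.map D * Λ.W.map ε = Λ.W.map ε * (Λ.Om ε D * η - η * Λ.Om ε D + η.map D) := by
    have h2 := congrArg (fun M => M.map D) hΘ
    simp only [sb2_mul, hW] at h2
    rw [← Matrix.mul_assoc, hΘ] at h2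
    rw [eq_sub_of_add_eq h2]
    noncomm_ring
  obtain ⟨lam, hl⟩ := (relC_iff (ψ := (ε : PS ι k →+* F)) hΘ).2 hη
  refine (relC_iff (ψ := (ε : PS ι k →+* F)) h1).1 ⟨D lam, funext fun b => ?_⟩
  have h2 := congrArg D (congrFun hl b)
  rw [sb2_vec] at h2
  simp only [Pi.add_apply, Finset.sum_apply, Pi.smul_apply, smul_eq_mul, map_add, map_sum,
    Derivation.leibniz, RingHom.coe_coe, h0 _ (Λ.ac _), h0 _ (Λ.c1_alg _ _), mul_zero,
    zero_add, vecMul, dotProduct, zero_mul, Finset.sum_const_zero] at h2 ⊢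
  simpa only [mul_comm] using h2

/-- If the defect is scalar, the point is algebraic over its coordinates. -/
theorem Good.alg_X (h : Λ.Good ε) (hs : ∀ D, ∃ c : F, Λ.Om ε D = c • (1 : Matrix β β F)) (l : ι) :
    ε (X l) ∈ algS k fun j => ε (Λ.x j) := by
  refine alg_of_der fun D hD => ?_
  obtain ⟨c, hc⟩ := hs D
  have h1 := (h.rel D).vv
  have h2 : Λ.vv (ε : PS ι k →+* F) (Λ.Om ε D) = 0 := funext fun l => by
    rw [hc]
    exact vv_scalar c l
  have h3 : (fun j => D (ε (Λ.x j))) = 0 := funext hD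
  rw [h2, mulVec_zero, mu, h3, sub_zero] at h1
  have h4 := congrArg (Λ.K.map ε *ᵥ ·) h1
  simp only [mulVec_mulVec, sb2_KJ, one_mulVec, mulVec_zero] at h4
  exact (congrFun h4 l).symm

end LD

end Pool.Agent.E7
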