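import Pool.Agent.Lib.MP_7e5527_ag.EA.SB

/-! The holonomy algebra and the algebraic form. -/

open MvPowerSeries Matrix

noncomputable section

namespace Pool.Agent.E7

variable {k ι β F : Type} [Field k] [CharZero k] [Fintype ι] [DecidableEq ι] [Fintype β]
  [DecidableEq β] [Field F] [Algebra k F] {m : ℕ}

/-- A family of points, with a derivation whose constants are `k`. -/
structure APts (Λ : Fin m → LD k ι β) (ε : Fin m → PS ι k →ₐ[k] F) (δ : Derivation k F F) :
    Prop where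
  good : ∀ i, (Λ i).Good (ε i)
  chain : ∀ i f, δ (ε i f) = ∑ l, ε i (pderiv k l f) * δ (ε i (X l))
  const : ∀ v, δ v = 0 → ∃ c : k, v = algebraMap k F c

/-- The holonomy algebra. -/
def hol (Λ : Fin m → LD k ι β) (ε : Fin m → PS ι k →ₐ[k] F) :
    Submodule F (Fin m → Matrix β β F) where
  carrier := {η | ∃ D, ∀ i, η i = (Λ i).Om (ε i) D}
  add_mem' := by
    rintro a b ⟨D, h⟩ ⟨D', h'⟩
    exact ⟨D + D', fun i => by rw [Pi.add_apply, h, h', LD.om_add]⟩
  zero_mem' := ⟨(0 : F) • 0, fun i => by rw [LD.om_smul, zero_smul, Pi.zero_apply]⟩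
  smul_mem' := by
    rintro c a ⟨D, h⟩
    exact ⟨c • D, fun i => by rw [Pi.smul_apply, h, LD.om_smul]⟩

/-- The constant members of the holonomy algebra. -/
def holc (Λ : Fin m → LD k ι β) (ε : Fin m → PS ι k →ₐ[k] F) : Set (Fin m → Matrix β β k) :=
  {ξ | (fun i => (ξ i).map (algebraMap k F)) ∈ hol Λ ε}

variable {Λ : Fin m → LD k ι β} {ε : Fin m → PS ι k →ₐ[k] F} {δ : Derivation k F F}

theorem APts.span (h : APts Λ ε δ) {η : Fin m → Matrix β β F} (hη : η ∈ hol Λ ε) :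
    ∃ (n : ℕ) (c : Fin n → F) (ξ : Fin n → Fin m → Matrix β β k), (∀ a, ξ a ∈ holc Λ ε) ∧
      ∀ i, η i = ∑ a, c a • (ξ a i).map (algebraMap k F) := by
  let e : (Fin m × β × β → F) →ₗ[F] Fin m → Matrix β β F :=
    { toFun := fun v i => of fun a b => v (i, a, b)
      map_add' := fun _ _ => rfl
      map_smul' := fun _ _ => rfl }
  have h1 := const_span {δ} ((hol Λ ε).comap e) (by
    rintro D rfl v ⟨D', hv⟩
    refine ⟨⁅D, D'⁆, fun i => ?_⟩
    rw [(h.good i).flat, ((Λ i).om_chain (ε i) (h.chain i)).1, ← hv, zero_mul, mul_zero, sub_zero,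
      zero_add, Matrix.map_zero _ (map_zero D'), sub_zero]
    rfl) (x := fun q => η q.1 q.2.1 q.2.2) hη
  obtain ⟨n, c, g, hg⟩ := Submodule.mem_span_set'.1 h1
  choose ξ hξ using fun a q => h.const _ ((g a).2.2 δ rfl q)
  have h2 : ∀ a, (fun i => (of fun b b' => ξ a (i, b, b')).map (algebraMap k F)) = e (g a) :=
    fun a => funext fun i => Matrix.ext fun b b' => (hξ a (i, b, b')).symm
  refine ⟨n, c, fun a i => of fun b b' => ξ a (i, b, b'), fun a => ?_, fun i => ?_⟩
  · change _ ∈ hol Λ ε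
    rw [h2]
    exact (g a).2.1
  · have h3 := congrFun (congrArg e hg) i
    rw [map_sum, Finset.sum_apply] at h3
    exact h3.symm.trans (Finset.sum_congr rfl fun a _ => by rw [map_smul, ← h2]; rfl)

theorem APts.der (h : APts Λ ε δ) (D : Derivation k F F) {η : Fin m → Matrix β β F}
    (hη : η ∈ hol Λ ε) : (fun i => (η i).map D) ∈ hol Λ ε := by
  obtain ⟨n, c, ξ, h1, h2⟩ := h.span hη
  have e : (fun i => (η i).map D) = ∑ a, D (c a) • fun i => (ξ a i).map (algebraMap k F) := by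
    funext i
    ext b b'
    simp [h2, Matrix.sum_apply, mul_comm]
  rw [e]
  exact Submodule.sum_mem _ fun a _ => Submodule.smul_mem _ _ (h1 a)

theorem APts.lie (h : APts Λ ε δ) {η η' : Fin m → Matrix β β F} (hη : η ∈ hol Λ ε)
    (hη' : η' ∈ hol Λ ε) : η * η' - η' * η ∈ hol Λ ε := by
  obtain ⟨D, hD⟩ := id hη
  obtain ⟨D', hD'⟩ := id hη'
  have e : η * η' - η' * η = (fun i => (Λ i).Om (ε i) ⁅D, D'⁆) - (fun i => (η' i).map D) +
      fun i => (η i).map D' := by
    funext i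
    simp only [Pi.add_apply, Pi.sub_apply, Pi.mul_apply, (h.good i).flat, hD, hD']
    abel
  rw [e]
  exact add_mem (sub_mem ⟨_, fun _ => rfl⟩ (h.der D hη')) (h.der D' hη)

theorem APts.mu_der (h : APts Λ ε δ) {D' : Derivation k F F} (hD : ∀ i j, D' (ε i ((Λ i).x j)) = 0)
    (D : Derivation k F F) :
    ∃ D'', ∀ i j, D' ((Λ i).mu (ε i) D j) = (Λ i).mu (ε i) D'' j := by
  have h0 : ∀ D, (fun i => (Λ i).Om (ε i) D) ∈ hol Λ ε := fun D => ⟨D, fun _ => rfl⟩
  obtain ⟨D'', h1⟩ := add_mem (h.lie (h0 D') (h0 D)) (h.der D' (h0 D))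
  refine ⟨D'', fun i j => ?_⟩
  have h2 := (h.good i).rel D''
  rw [← h1] at h2
  exact congrFun (((h.good i).rel_der (hD i) ((h.good i).rel D)).uniq h2) j

/-- The rank count gives a form, and one can choose it algebraic. -/
theorem APts.omega (h : APts Λ ε δ) {r d : ℕ} (hd : r + m * d ≤ Fintype.card ι * m)
    (hz : Dep k r fun q : Fin m × ι => ε q.1 (X q.2))
    (ha : ∀ i, Dep k d fun j => ε i ((Λ i).x j)) (h1 : ∃ i l, δ (ε i (X l)) ≠ 0) :
    ∃ ω : Fin m × ι → F, ω ≠ 0 ∧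
      (∀ q, ω q ∈ algS k fun q : Fin m × ι => ε q.1 ((Λ q.1).x q.2)) ∧
      ∀ D, ∑ q, ω q * (Λ q.1).mu (ε q.1) D q.2 = 0 := by
  let μ : Derivation k F F →ₗ[F] Fin m × ι → F :=
    { toFun := fun D q => (Λ q.1).mu (ε q.1) D q.2
      map_add' := fun D D' => funext fun q => congrFun ((Λ q.1).mu_add (ε q.1) D D') q.2
      map_smul' := fun c D => funext fun q => congrFun ((Λ q.1).mu_smul (ε q.1) c D) q.2 }
  obtain ⟨ω, h0, hω⟩ := exists_ann (hz.sum (Dep.pi ha))
    (by rwa [Fintype.card_prod, Fintype.card_fin, mul_comm m (Fintype.card ι)]) μ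
    (fun D hD => funext fun q => by
      have e1 : (fun l => D (ε q.1 (X l))) = 0 := funext fun l => hD (Sum.inl (q.1, l))
      have e2 : (fun j => D (ε q.1 ((Λ q.1).x j))) = 0 := funext fun j => hD (Sum.inr (q.1, j))
      change (Λ q.1).mu (ε q.1) D q.2 = 0
      rw [LD.mu, e1, e2, mulVec_zero, sub_zero, Pi.zero_apply]) δ
    (funext fun q => congrFun ((Λ q.1).om_chain (ε q.1) (h.chain q.1)).2 q.2)
    (h1.elim fun i hi => hi.elim fun l hl => ⟨Sum.inl (i, l), hl⟩)
  let H : Submodule F (Fin m × ι → F) :=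
    { carrier := {v | ∀ D, v ⬝ᵥ μ D = 0}
      add_mem' := fun ha hb D => by rw [add_dotProduct, ha D, hb D, add_zero]
      zero_mem' := fun D => zero_dotProduct _
      smul_mem' := fun c _ ha D => by rw [smul_dotProduct, ha D, smul_zero] }
  have h2 := const_span {D | ∀ i j, D (ε i ((Λ i).x j)) = 0} H (fun D' hD' v hv D => by
    obtain ⟨D'', h3⟩ := h.mu_der hD' D
    have h4 := congrArg D' (hv D)
    have h5 : ∀ q, D' (μ D q) = μ D'' q := fun q => h3 q.1 q.2
    simp only [dotProduct, map_sum, Derivation.leibniz, smul_eq_mul, map_zero, h5,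
      Finset.sum_add_distrib] at h4
    rw [show ∑ q, v q * μ D'' q = 0 from hv D'', zero_add] at h4
    exact (dotProduct_comm _ _).trans h4) hω
  by_contra hn
  refine h0 ((Submodule.span_eq_bot.2 fun v hv => ?_).le h2)
  by_contra h3
  exact hn ⟨v, h3, fun q => alg_of_der fun D hD => hv.2 D (fun i j => hD (i, j)) q, hv.1⟩

/-- The points of a family of arcs. -/
theorem pts_arc (Λ : Fin m → LD k ι β) {z : Fin m → ι → PS Unit k} (h : ∀ i, C0 (z i)) :
    ∃ δ, APts Λ (fun i => arcE (h i)) δ ∧ ∀ i l, z i l ≠ 0 → δ (arcE (h i) (X l)) ≠ 0 := by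
  obtain ⟨δ, h1, h2⟩ := exists_lau k
  have e : ∀ i l, arcE (h i) (X l) = algebraMap (PS Unit k) (LF k) (z i l) := fun i l => by
    rw [arcE_apply, evx_X (h i).ev]
  refine ⟨δ, ⟨fun i => (Λ i).good_arc (h i), fun i f => ?_, h2⟩, fun i l h0 h3 => h0 ?_⟩
  · simp only [e, h1]
    simp only [arcE_apply, h1, pderiv_sb (h i), map_sum, map_mul]
  · obtain ⟨c, hc⟩ := h2 _ h3
    rw [e, IsScalarTower.algebraMap_apply k (PS Unit k) (LF k)] at hc
    have h4 : z i l = C c := IsFractionRing.injective (PS Unit k) (LF k) hc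
    have h5 := h i l
    rw [h4, constantCoeff_C] at h5
    rw [h4, h5, map_zero]

end Pool.Agent.E7
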