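import Pool.Agent.Lib.MP_7e5527_ag.EA.SC

/-! Deformation of the point along the Zariski closure. -/

open MvPowerSeries Matrix

noncomputable section

namespace Pool.Agent.E7

variable {k ι β F σ : Type} [Field k] [CharZero k] [Fintype ι] [DecidableEq ι] [Fintype β]
  [DecidableEq β] [Field F] [Algebra k F] [Fintype σ] [DecidableEq σ] {m : ℕ}

/-- The Taylor map of the derivations `d`. -/
structure Tay (d : σ → Derivation k F F) (θ : F →+* PS σ F) : Prop where
  const : ∀ a, constantCoeff (θ a) = a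
  der : ∀ n a, pderiv F n (θ a) = θ (d n a)

/-- The deformation of the point `ε`. -/
structure Dfm (Λ : LD k ι β) (ε : PS ι k →ₐ[k] F) (θ : F →+* PS σ F) (φ : PS ι k →+* PS σ F) :
    Prop where
  const : ∀ f, constantCoeff (φ f) = ε f
  hC : ∀ c, φ (C c) = C (algebraMap k F c)
  hx : ∀ j, φ (Λ.x j) = θ (ε (Λ.x j))
  chain : ∀ n f, pderiv F n (φ f) = ∑ l, φ (pderiv k l f) * pderiv F n (φ (X l))

variable {d : σ → Derivation k F F} {θ : F →+* PS σ F}

/-! Part 1. -/

theorem sd1_tf (k F : Type) [Field k] [CharZero k] [Field F] [Algebra k F] : IsAddTorsionFree F :=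
  have := charZero_of_injective_algebraMap (algebraMap k F).injective
  inferInstance

theorem Tay.alg (h : Tay d θ) (c : k) : θ (algebraMap k F c) = C (algebraMap k F c) := by
  have := sd1_tf k F
  rw [ps_const (f := θ _) fun n => by rw [h.der, Derivation.map_algebraMap, map_zero], h.const]

theorem Tay.inj (h : Tay d θ) : Function.Injective θ := Function.LeftInverse.injective h.const

theorem sd1_sb {z : ι → PS Unit k} (h : C0 z) {y : ι → PS σ (LF k)} (hy : C0 y) :
    (∀ c, sb y (shf z (C c)) = C (algebraMap k (LF k) c)) ∧ ∀ n f,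
      pderiv (LF k) n (sb y (shf z f)) =
        ∑ l, sb y (shf z (pderiv k l f)) * pderiv (LF k) n (sb y (shf z (X l))) := by
  refine ⟨fun c => by rw [shf_C h, evx_C hy.ev], fun n f => ?_⟩
  rw [pderiv_sb hy]
  refine Finset.sum_congr rfl fun l _ => ?_
  rw [shf_der h, shf_X h, map_add, evx_C hy.ev, evx_X hy.ev, map_add, pderiv_C, zero_add]

/-- `φ = sb z' ∘ shf z` with `z'` given by `evx_surj` in each factor. -/
theorem exists_dfm (Λ : Fin m → LD k ι β) {z : Fin m → ι → PS Unit k} (h : ∀ i, C0 (z i))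
    {θ : LF k →+* PS σ (LF k)} (hθ : ∀ a, constantCoeff (θ a) = a) :
    ∃ φ : PS (Fin m × ι) k →+* PS σ (LF k), (∀ c, φ (C c) = C (algebraMap k (LF k) c)) ∧
      (∀ n f, pderiv (LF k) n (φ f) = ∑ q, φ (pderiv k q f) * pderiv (LF k) n (φ (X q))) ∧
      ∀ i, Dfm (Λ i) (arcE (h i)) θ
        (φ.comp (rename (Prod.mk i) : PS ι k →ₐ[k] PS (Fin m × ι) k).toRingHom) := by
  have k1 : ∀ i, ∃ y : ι → PS σ (LF k), C0 y ∧
      ∀ j, sb y (shf (z i) ((Λ i).x j)) = θ (arcE (h i) ((Λ i).x j)) := fun i => by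
    have e : jacS (fun j => shf (z i) ((Λ i).x j)) = (shf (z i)).mapMatrix (jacS (Λ i).x) := by
      ext j l : 1
      exact shf_der (h i) ..
    have c0 : C0 fun j => θ (arcE (h i) ((Λ i).x j)) -
        C (constantCoeff (shf (z i) ((Λ i).x j))) := fun j => by
      rw [map_sub, hθ, constantCoeff_C, shf_const (h i), sub_self]
    obtain ⟨y, -, y2, y3⟩ := evx_surj (x := fun j => shf (z i) ((Λ i).x j))
      (by rw [e, ← RingHom.map_det]; exact (Λ i).jac_unit.map _) C c0.ev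
    exact ⟨y, fun l => (Ideal.span_le (I := RingHom.ker constantCoeff)).2
      (Set.range_subset_iff.2 c0) (y3 l), y2⟩
  choose y y1 y2 using k1
  have hz : C0 fun q : Fin m × ι => z q.1 q.2 := fun q => h q.1 q.2
  have hy : C0 fun q : Fin m × ι => y q.1 q.2 := fun q => y1 q.1 q.2
  refine ⟨(sb fun q : Fin m × ι => y q.1 q.2).comp (shf fun q => z q.1 q.2), (sd1_sb hz hy).1,
    (sd1_sb hz hy).2, fun i => ?_⟩
  have e : ((sb fun q : Fin m × ι => y q.1 q.2).comp (shf fun q => z q.1 q.2)).comp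
      (rename (Prod.mk i) : PS ι k →ₐ[k] PS (Fin m × ι) k).toRingHom =
      (sb (y i)).comp (shf (z i)) := RingHom.ext fun f => by
    have c : C0 fun l : ι => (X (i, l) : PS (Fin m × ι) (LF k)) := fun l => constantCoeff_X _
    change sb _ (shf _ (rename _ f)) = sb _ (shf _ f)
    rw [shf_rename hz, rename_eq_sb, evx_sb hy.ev c.ev (hy.ev.evx c)]
    simp only [evx_X hy.ev]
  rw [e]
  exact ⟨fun f => (const_sb (y1 i) _).trans (shf_const (h i) f), (sd1_sb (h i) (y1 i)).1, y2 i,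
    (sd1_sb (h i) (y1 i)).2⟩

section One

variable {Λ : LD k ι β} {ε : PS ι k →ₐ[k] F} {φ : PS ι k →+* PS σ F}

theorem Dfm.chain' (h : Dfm Λ ε θ φ) (hθ : Tay d θ) (n : σ) (f : PS ι k) :
    pderiv F n (φ f) = ∑ j, φ (Λ.D j f) * θ (d n (ε (Λ.x j))) := by
  simp only [← hθ.der, ← h.hx]
  simp only [h.chain n f, h.chain n (Λ.x _), Λ.pderiv_eq _ f, map_sum, map_mul, Finset.sum_mul,
    Finset.mul_sum, mul_assoc]
  exact Finset.sum_comm

theorem Dfm.alg (h : Dfm Λ ε θ φ) (hθ : Tay d θ) (hg : Λ.Good ε) {f : PS ι k}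
    (hf : f ∈ algS k Λ.x) : φ f = θ (ε f) := by
  have := sd1_tf k F
  refine sub_eq_zero.1 (odeu (fun f : algS k Λ.x => φ f - θ (ε f)) (fun f => ?_) (fun n f => ?_)
    ⟨f, hf⟩)
  · rw [map_sub, h.const, hθ.const, sub_self]
  · rw [map_sub, h.chain' hθ, hθ.der, hg _ _ f.2, map_sum, ← Finset.sum_sub_distrib]
    refine sum_mem fun j _ => ?_
    rw [map_mul, ← sub_mul]
    exact Ideal.mul_mem_right _ _ (Ideal.subset_span ⟨⟨_, Λ.D_alg j f.2⟩, rfl⟩)

theorem sd1_leib (n : σ) (M N : Matrix β β (PS σ F)) :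
    (M * N).map (pderiv F n) = M.map (pderiv F n) * N + M * N.map (pderiv F n) := by
  ext a b : 1
  simp only [map_apply, mul_apply, Matrix.add_apply, map_sum, Derivation.leibniz, smul_eq_mul,
    ← Finset.sum_add_distrib]
  exact Finset.sum_congr rfl fun c _ => by ring

theorem sd1_unit {S : Type} [CommRing S] (ψ : PS ι k →+* S) : IsUnit (Λ.W.map ψ).det := by
  rw [← RingHom.mapMatrix_apply, ← RingHom.map_det]
  exact Λ.hW.map ψ

theorem Dfm.exists_g (h : Dfm Λ ε θ φ) (hθ : Tay d θ) (hg : Λ.Good ε) :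
    ∃ g : Matrix β β (PS σ F), (Λ.W.map ε).map θ = Λ.W.map φ * g ∧ g.map constantCoeff = 1 ∧
      ∀ n, g.map (pderiv F n) = g * (Λ.Om ε (d n)).map θ := by
  have u := sd1_unit (Λ := Λ) φ
  have e := (mul_nonsing_inv_cancel_left _ ((Λ.W.map ε).map θ) u).symm
  generalize (Λ.W.map φ)⁻¹ * (Λ.W.map ε).map θ = g at e
  refine ⟨g, e, ?_, fun n => ?_⟩
  · have e1 : (Λ.W.map φ).map constantCoeff = Λ.W.map ε := by
      ext a b : 1
      exact h.const _
    have e2 : ((Λ.W.map ε).map θ).map constantCoeff = Λ.W.map ε := by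
      ext a b : 1
      exact hθ.const _
    rw [e, Matrix.map_mul, e1] at e2
    rw [← nonsing_inv_mul_cancel_left _ (g.map _) (Λ.W_unit ε), e2, nonsing_inv_mul _ (Λ.W_unit ε)]
  · have e1 : ((Λ.W.map ε).map θ).map (pderiv F n) = ((Λ.W.map ε).map (d n)).map θ := by
      ext a b : 1
      exact hθ.der ..
    have e2 : (Λ.W.map φ).map (pderiv F n) = (Λ.Af ε (d n)).map θ * Λ.W.map φ := by
      ext a b : 1
      have hA : ∀ j, Λ.D j (Λ.W a b) = ∑ c, Λ.A j a c * Λ.W c b := fun j =>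
        congrFun (congrFun (Λ.hA j) a) b
      simp only [map_apply, h.chain' hθ, hA, mul_apply, LD.Af, Matrix.sum_apply, Matrix.smul_apply,
        map_sum, map_mul, smul_eq_mul, Finset.sum_mul, h.alg hθ hg (Λ.aA ..)]
      rw [Finset.sum_comm]
      exact Finset.sum_congr rfl fun c _ => Finset.sum_congr rfl fun j _ => by ring
    rw [Λ.om_spec, Matrix.map_add _ (map_add θ), Matrix.map_mul, Matrix.map_mul, e, sd1_leib, e2,
      Matrix.mul_assoc, add_right_inj, Matrix.mul_assoc] at e1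
    rw [← nonsing_inv_mul_cancel_left _ (g.map _) u, e1, nonsing_inv_mul_cancel_left _ _ u]

theorem Dfm.rel (h : Dfm Λ ε θ φ) (hθ : Tay d θ) (hg : Λ.Good ε) {g : Matrix β β (PS σ F)}
    (e : (Λ.W.map ε).map θ = Λ.W.map φ * g) {η : Matrix β β F} {μ : ι → F}
    (hη : Λ.Rel (ε : PS ι k →+* F) η μ) : Λ.Rel φ (g * η.map θ * g⁻¹) fun j => θ (μ j) := by
  have e1 := nonsing_inv_mul_cancel_right _ (Λ.W.map ε * η) (Λ.W_unit ε)
  generalize Λ.W.map ε * η * (Λ.W.map ε)⁻¹ = Θ at e1
  have u : IsUnit g.det := by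
    have := sd1_unit (Λ := Λ) (θ.comp (ε : PS ι k →+* F))
    rw [show Λ.W.map (θ.comp (ε : PS ι k →+* F)) = _ from e, det_mul] at this
    exact isUnit_of_mul_isUnit_right this
  refine (LD.relC_iff ?_).1 (((LD.relC_iff e1).2 hη).map θ (fun a => h.alg hθ hg (Λ.ac a))
    fun j a => h.alg hθ hg (Λ.c1_alg j a))
  have e2 := congrArg (·.map θ) e1
  simp only [Matrix.map_mul, e] at e2
  rw [← Matrix.mul_assoc, ← Matrix.mul_assoc, ← e2, ← Matrix.mul_assoc,
    mul_nonsing_inv_cancel_right _ _ u]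

/-- If the defect is scalar then `g` is scalar. -/
theorem Dfm.scalar (h : Dfm Λ ε θ φ) (hθ : Tay d θ) (hg : Λ.Good ε)
    (hs : ∀ D, ∃ c : F, Λ.Om ε D = c • (1 : Matrix β β F)) (l : ι) : φ (X l) = θ (ε (X l)) := by
  have := sd1_tf k F
  obtain ⟨g, g1, g2, g3⟩ := h.exists_g hθ hg
  obtain ⟨b0⟩ : Nonempty β := not_isEmpty_iff.1 fun _ => by simpa using Λ.h0
  have e : g = g b0 b0 • (1 : Matrix β β (PS σ F)) := by
    have c : ∀ a b, constantCoeff (g a b) = (1 : Matrix β β F) a b := fun a b =>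
      congrFun (congrFun g2 a) b
    ext a b : 1
    refine sub_eq_zero.1 (odeu (fun q : β × β => g q.1 q.2 -
      (g b0 b0 • (1 : Matrix β β (PS σ F))) q.1 q.2) (fun q => ?_) (fun n q => ?_) (a, b))
    · by_cases e : q.1 = q.2 <;> simp [c, one_apply, e]
    · obtain ⟨c, hc⟩ := hs (d n)
      have k : ∀ a b, pderiv F n (g a b) = θ c * g a b := fun a b => by
        refine (congrFun (congrFun (g3 n) a) b).trans ?_
        simp [hc, mul_apply, one_apply, apply_ite, mul_comm]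
      refine Ideal.mem_span_range_iff_exists_fun.2 ⟨Pi.single q (θ c), ?_⟩
      rw [Fintype.sum_eq_single q fun q' e => by simp [e]]
      by_cases e : q.1 = q.2 <;> simp [k, one_apply, e, mul_sub]
  generalize g b0 b0 = γ at e
  set ψ := θ.comp (ε : PS ι k →+* F)
  have k : ψ Λ.e0 • Λ.pv ψ = (γ * φ Λ.e0) • Λ.pv φ := funext fun b => by
    have k1 := congrArg ψ (Λ.hc b)
    have k2 := congrArg φ (Λ.hc b)
    have k3 : ∀ a, ψ (Λ.W a b) = γ * φ (Λ.W a b) := fun a => by
      refine (congrFun (congrFun g1 a) b).trans ?_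
      rw [e, Matrix.mul_smul, Matrix.mul_one]
      rfl
    have k4 : ∀ a, ψ (Λ.c0 a) = φ (Λ.c0 a) := fun a => (h.alg hθ hg (Λ.ac a)).symm
    simp only [vecMul, dotProduct, map_sum, map_mul, k3, k4] at k1 k2
    simp only [Pi.smul_apply, smul_eq_mul, LD.pv, mul_assoc, k1, k2, Finset.mul_sum, mul_left_comm]
  have hC : ∀ c, ψ (C c) = φ (C c) := fun c =>
    ((congrArg θ (ε.commutes c)).trans (hθ.alg c)).trans (h.hC c).symm
  have k0 := congrArg (· ⬝ᵥ fun c => φ (C (Λ.p0 c))) k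
  have k1 := congrArg (· ⬝ᵥ fun c => φ (C (Λ.p1 l c))) k
  simp only [smul_dotProduct, LD.pv_p0, LD.pv_p1] at k0 k1
  simp only [← hC, LD.pv_p0, LD.pv_p1, smul_eq_mul, mul_one] at k0 k1
  rw [← k0] at k1
  exact ((Λ.he.map ψ).mul_left_cancel k1).symm

end One

/-! Part 2. -/

theorem sd2_coeff_mul (A B : Matrix β β (PS σ F)) (ν : σ →₀ ℕ) :
    (A * B).map (coeff ν) =
      ∑ p ∈ Finset.HasAntidiagonal.antidiagonal ν, A.map (coeff p.1) * B.map (coeff p.2) := by
  ext a b
  simp only [map_apply, mul_apply, map_sum, coeff_mul, Matrix.sum_apply]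
  exact Finset.sum_comm

theorem sd2_der_mul (n : σ) (A B : Matrix β β (PS σ F)) :
    (A * B).map (pderiv F n) = A.map (pderiv F n) * B + A * B.map (pderiv F n) := by
  ext1 a b
  simp only [map_apply, mul_apply, map_sum, Matrix.add_apply, Derivation.leibniz, smul_eq_mul,
    ← Finset.sum_add_distrib]
  exact Finset.sum_congr rfl fun c _ => by ring

/-- The solution of `y' = [y, w]` stays in the Lie algebra. -/
theorem lie_flow [CharZero F] (H : Submodule F (Fin m → Matrix β β F))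
    (hH : ∀ a ∈ H, ∀ b ∈ H, a * b - b * a ∈ H) (y : Fin m → Matrix β β (PS σ F))
    (w : σ → Fin m → Matrix β β (PS σ F)) (h0 : (fun i => (y i).map constantCoeff) ∈ H)
    (hw : ∀ n ν, (fun i => (w n i).map (coeff ν)) ∈ H)
    (hy : ∀ n i, (y i).map (pderiv F n) = y i * w n i - w n i * y i) (ν : σ →₀ ℕ) :
    (fun i => (y i).map (coeff ν)) ∈ H := by
  induction ν using WellFoundedLT.induction with
  | ind ν ih =>
  by_cases hν : ν = 0
  · subst hν
    simpa only [coeff_zero_eq_constantCoeff] using h0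
  obtain ⟨n, hn⟩ := Finsupp.ne_iff.1 hν
  obtain ⟨τ, rfl⟩ : ∃ τ, ν = τ + Finsupp.single n 1 := by
    refine ⟨ν - Finsupp.single n 1, (tsub_add_cancel_of_le ?_).symm⟩
    exact Finsupp.single_le_iff.2 (Nat.one_le_iff_ne_zero.2 hn)
  have hc : ((τ n : F) + 1) ≠ 0 := Nat.cast_add_one_ne_zero _
  have e : (fun i => (y i).map (coeff (τ + Finsupp.single n 1))) = ((τ n : F) + 1)⁻¹ •
      ∑ p ∈ Finset.HasAntidiagonal.antidiagonal τ,
        ((fun i => (y i).map (coeff p.1)) * (fun i => (w n i).map (coeff p.2)) -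
          (fun i => (w n i).map (coeff p.2)) * fun i => (y i).map (coeff p.1)) := by
    rw [eq_inv_smul_iff₀ hc]
    funext i
    have e1 : ((y i).map (pderiv F n)).map (coeff τ) =
        ((τ n : F) + 1) • (y i).map (coeff (τ + Finsupp.single n 1)) := by
      ext a b
      simp only [map_apply, coeff_pderiv, Matrix.smul_apply, smul_eq_mul, mul_comm]
    rw [Pi.smul_apply, ← e1, hy, Matrix.map_sub _ (map_sub (coeff τ)), sd2_coeff_mul,
      sd2_coeff_mul, Finset.sum_apply]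
    simp only [Pi.sub_apply, Pi.mul_apply, Finset.sum_sub_distrib]
    rw [Finsupp.sum_antidiagonal_swap τ
      fun p q => (w n i).map (coeff p) * (y i).map (coeff q)]
  rw [e]
  refine H.smul_mem _ (H.sum_mem fun p hp => hH _ (ih _ ?_) _ (hw n _))
  refine lt_of_le_of_lt (Finset.HasAntidiagonal.antidiagonal.fst_le hp) (lt_add_of_pos_right _ ?_)
  exact pos_iff_ne_zero.2 (Finsupp.single_ne_zero.2 one_ne_zero)

variable {Λ : Fin m → LD k ι β} {ε : Fin m → PS ι k →ₐ[k] F} {δ : Derivation k F F}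
  {φ : Fin m → PS ι k →+* PS σ F}

theorem sd2_coeff_hol (h : APts Λ ε δ) (hθ : Tay d θ) {η : Fin m → Matrix β β F}
    (hη : η ∈ hol Λ ε) (ν : σ →₀ ℕ) : (fun i => ((η i).map θ).map (coeff ν)) ∈ hol Λ ε := by
  obtain ⟨n, c, ξ, hξ, e⟩ := h.span hη
  have e' : (fun i => ((η i).map θ).map (coeff ν)) =
      ∑ a, coeff ν (θ (c a)) • fun i => (ξ a i).map (algebraMap k F) := by
    funext i
    ext s t
    simp only [e, map_apply, Matrix.sum_apply, Finset.sum_apply, Matrix.smul_apply, Pi.smul_apply,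
      smul_eq_mul, map_sum, map_mul, hθ.alg, coeff_mul_C]
  rw [e']
  exact Submodule.sum_mem _ fun a _ => Submodule.smul_mem _ _ (hξ a)

/-- The form kills the vector fields of the holonomy algebra on the deformation: write
`ξ = g (g⁻¹ ξ g) g⁻¹` and expand `g⁻¹ ξ g` in constant members (`lie_flow`, `span_coeff`). -/
theorem APts.kill (h : APts Λ ε δ) (hθ : Tay d θ) (hφ : ∀ i, Dfm (Λ i) (ε i) θ (φ i))
    {ω : Fin m × ι → F} (hω : ∀ D, ∑ q, ω q * (Λ q.1).mu (ε q.1) D q.2 = 0)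
    {ξ : Fin m → Matrix β β k} (hξ : ξ ∈ holc Λ ε) : ∃ μ : Fin m → ι → PS σ F,
      (∀ i, (Λ i).Rel (φ i) ((ξ i).map fun c => φ i (C c)) (μ i)) ∧
        ∑ q, θ (ω q) * μ q.1 q.2 = 0 := by
  have : CharZero F := charZero_of_injective_algebraMap (algebraMap k F).injective
  choose g hg hg0 hg1 using fun i => (hφ i).exists_g hθ (h.good i)
  have hu : ∀ i, IsUnit (g i).det := fun i => by
    rw [isUnit_det_ps, hg0, det_one]
    exact isUnit_one
  obtain ⟨Ξ, hΞ⟩ : ∃ Ξ : Fin m → Matrix β β (PS σ F),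
      ∀ i, Ξ i = (ξ i).map fun c => C (algebraMap k F c) := ⟨_, fun _ => rfl⟩
  obtain ⟨y, hy⟩ : ∃ y : Fin m → Matrix β β (PS σ F), ∀ i, g i * y i = Ξ i * g i :=
    ⟨fun i => (g i)⁻¹ * (Ξ i * g i), fun i => mul_nonsing_inv_cancel_left _ _ (hu i)⟩
  have hy0 : (fun i => (y i).map constantCoeff) = fun i => (ξ i).map (algebraMap k F) := by
    funext i
    have e := congrArg (fun M => M.map (constantCoeff : PS σ F →+* F)) (hy i)
    simp only [Matrix.map_mul, hg0, Matrix.one_mul, Matrix.mul_one] at e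
    rw [e, hΞ]
    ext s t
    simp only [map_apply, constantCoeff_C]
  have hy1 : ∀ n i, (y i).map (pderiv F n) =
      y i * ((Λ i).Om (ε i) (d n)).map θ - ((Λ i).Om (ε i) (d n)).map θ * y i := fun n i => by
    have e := congrArg (fun M => M.map (pderiv F n)) (hy i)
    have e0 : (Ξ i).map (pderiv F n) = 0 := by
      rw [hΞ]
      ext1 s t
      simp only [map_apply, pderiv_C, Matrix.zero_apply]
    simp only [sd2_der_mul, hg1, e0, Matrix.zero_mul, zero_add] at e
    rw [← Matrix.mul_assoc (Ξ i), ← hy, Matrix.mul_assoc, Matrix.mul_assoc, ← Matrix.mul_add] at e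
    have e2 := congrArg (fun M => (g i)⁻¹ * M) e
    simp only [nonsing_inv_mul_cancel_left _ _ (hu i)] at e2
    rw [← e2, add_sub_cancel_left]
  have hc := lie_flow (hol Λ ε) (fun a ha b hb => h.lie ha hb) y
    (fun n i => ((Λ i).Om (ε i) (d n)).map θ) (by rw [hy0]; exact hξ)
    (fun n ν => sd2_coeff_hol h hθ ⟨d n, fun _ => rfl⟩ ν) hy1
  have hs := span_coeff {v : Fin m × β × β → F | ∃ ζ ∈ holc Λ ε,
      v = fun q => algebraMap k F (ζ q.1 q.2.1 q.2.2)} (fun q => y q.1 q.2.1 q.2.2) fun ν => by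
    obtain ⟨n, c, ζ, hζ, e⟩ := h.span (hc ν)
    have e' : (fun q : Fin m × β × β => coeff ν (y q.1 q.2.1 q.2.2)) =
        ∑ a, c a • fun q : Fin m × β × β => algebraMap k F (ζ a q.1 q.2.1 q.2.2) := by
      funext q
      have e1 := congrFun (congrFun (e q.1) q.2.1) q.2.2
      simpa only [map_apply, Matrix.sum_apply, Finset.sum_apply, Matrix.smul_apply,
        Pi.smul_apply] using e1
    rw [e']
    exact Submodule.sum_mem _ fun a _ =>
      Submodule.smul_mem _ _ (Submodule.subset_span ⟨ζ a, hζ a, rfl⟩)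
  have key : ∀ v ∈ Submodule.span (MvPowerSeries σ F)
      ((fun w q => (C (w q) : MvPowerSeries σ F)) '' {v : Fin m × β × β → F | ∃ ζ ∈ holc Λ ε,
        v = fun q => algebraMap k F (ζ q.1 q.2.1 q.2.2)}), ∃ μ : Fin m → ι → PS σ F,
      (∀ i, (Λ i).Rel (φ i) (g i * (Matrix.of fun s t => v (i, s, t)) * (g i)⁻¹) (μ i)) ∧
        ∑ q, θ (ω q) * μ q.1 q.2 = 0 := by
    intro v hv
    induction hv using Submodule.span_induction with
    | mem v hv =>
      obtain ⟨-, ⟨ζ, ⟨D, hD⟩, rfl⟩, rfl⟩ := hv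
      refine ⟨fun i j => θ ((Λ i).mu (ε i) D j), fun i => ?_, ?_⟩
      · have e := (hφ i).rel hθ (h.good i) (hg i) ((h.good i).rel D)
        have e1 : ((Λ i).Om (ε i) D).map θ =
            Matrix.of fun s t => (C (algebraMap k F (ζ i s t)) : MvPowerSeries σ F) := by
          rw [← hD i]
          ext1 s t
          simp only [map_apply, of_apply, hθ.alg]
        rwa [e1] at e
      · simpa only [map_sum, map_mul, map_zero] using congrArg θ (hω D)
    | zero =>
      refine ⟨0, fun i => ?_, by simp⟩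
      have e1 : (Matrix.of fun s t => (0 : Fin m × β × β → MvPowerSeries σ F) (i, s, t)) = 0 := rfl
      rw [e1, Matrix.mul_zero, Matrix.zero_mul]
      exact LD.rel_zero
    | add v v' _ _ ih ih' =>
      obtain ⟨μ, h1, h2⟩ := ih
      obtain ⟨μ', h1', h2'⟩ := ih'
      refine ⟨μ + μ', fun i => ?_, ?_⟩
      · have e1 : (Matrix.of fun s t => (v + v') (i, s, t)) =
            (Matrix.of fun s t => v (i, s, t)) + Matrix.of fun s t => v' (i, s, t) := rfl
        rw [e1, Matrix.mul_add, Matrix.add_mul]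
        exact (h1 i).add (h1' i)
      · simp only [Pi.add_apply, mul_add, Finset.sum_add_distrib, h2, h2', add_zero]
    | smul c v _ ih =>
      obtain ⟨μ, h1, h2⟩ := ih
      refine ⟨c • μ, fun i => ?_, ?_⟩
      · have e1 : (Matrix.of fun s t => (c • v) (i, s, t)) =
            c • Matrix.of fun s t => v (i, s, t) := rfl
        rw [e1, Matrix.mul_smul, Matrix.smul_mul]
        exact (h1 i).smul c
      · simp only [Pi.smul_apply, smul_eq_mul, mul_left_comm _ c, ← Finset.mul_sum, h2, mul_zero]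
  obtain ⟨μ, h1, h2⟩ := key _ hs
  refine ⟨μ, fun i => ?_, h2⟩
  have e1 : g i * (Matrix.of fun s t => y i s t) * (g i)⁻¹ = (ξ i).map fun c => φ i (C c) := by
    have e2 : (Matrix.of fun s t => y i s t) = y i := rfl
    rw [e2, hy, mul_nonsing_inv_cancel_right _ _ (hu i), hΞ]
    simp only [(hφ i).hC]
  rw [← e1]
  exact h1 i

end Pool.Agent.E7
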