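import Pool.Agent.Lib.MP_7e5527_ag.EA.SF
import Pool.Agent.Lib.MP_7e5527_ag.EA.HGen

/-! The theorem of Ax and Schanuel at a generic point. -/

open MvPowerSeries Matrix

noncomputable section

namespace Pool.Agent.E7

variable {k ι β F σ : Type} [Field k] [CharZero k] [Fintype ι] [DecidableEq ι] [Fintype β]
  [DecidableEq β] [Field F] [Algebra k F] [Fintype σ] [DecidableEq σ] {m : ℕ}

/-! Part 1. -/

private theorem se1_chain {α B : Type} [Fintype α] [DecidableEq α] [CommRing B] [Algebra k B]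
    (D : Derivation k B B) (y : α → B) (P : MvPolynomial α k) :
    D (MvPolynomial.aeval y P) =
      ∑ o, MvPolynomial.aeval y (MvPolynomial.pderiv o P) * D (y o) := by
  induction P using MvPolynomial.induction_on with
  | C c => simp
  | add P Q hP hQ => simp only [map_add, hP, hQ, add_mul, Finset.sum_add_distrib]
  | mul_X P i hP =>
    have h : ∀ o, MvPolynomial.aeval y (MvPolynomial.pderiv o (P * MvPolynomial.X i)) * D (y o) =
        y i * (MvPolynomial.aeval y (MvPolynomial.pderiv o P) * D (y o)) +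
          if o = i then MvPolynomial.aeval y P * D (y i) else 0 := by
      intro o
      rw [Derivation.leibniz, MvPolynomial.pderiv_X]
      by_cases h : o = i
      · subst h
        simp
        ring
      · simp [h]
        ring
    rw [map_mul, MvPolynomial.aeval_X, Derivation.leibniz, hP]
    simp only [h, Finset.sum_add_distrib, Finset.sum_ite_eq', Finset.mem_univ, if_true,
      ← Finset.mul_sum, smul_eq_mul]
    ring

private theorem se1_aeval {α B B' S : Type} [CommRing B] [Algebra k B] [CommRing B'] [Algebra k B']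
    [CommRing S] (φ : B →+* S) (θ : B' →+* S)
    (h : ∀ c, φ (algebraMap k B c) = θ (algebraMap k B' c)) {y : α → B} {b : α → B'}
    (hy : ∀ o, φ (y o) = θ (b o)) (P : MvPolynomial α k) :
    φ (MvPolynomial.aeval y P) = θ (MvPolynomial.aeval b P) := by
  induction P using MvPolynomial.induction_on with
  | C c => simp [h]
  | add P Q hP hQ => simp only [map_add, hP, hQ]
  | mul_X P i hP => simp only [map_mul, hP, MvPolynomial.aeval_X, hy]

/-- The kernel of the deformation is a branch of a variety: use the minimal polynomials of the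
coordinates over the basis. -/
theorem alg_cond {I L : Type} [Fintype I] [DecidableEq I] [Field L] (x : I → PS I k)
    (hJ : ∀ q, ∃ c : I → PS I k, ∀ q', ∑ j, c j * pderiv k q' (x j) = if q = q' then 1 else 0)
    {d : σ → Derivation k F F} {θ : F →+* PS σ F} (hθ : Tay d θ) {a : I → F} {s : σ → I}
    (hs : AlgebraicIndependent k fun n => a (s n)) (ha : ∀ q, a q ∈ algS k fun n => a (s n))
    (hd : ∀ n n', d n (a (s n')) = if n = n' then 1 else 0) (φ : PS I k →+* PS σ F)
    (hC : ∀ c, φ (C c) = C (algebraMap k F c)) (hx : ∀ q, φ (x q) = θ (a q))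
    (hc : ∀ n f, pderiv F n (φ f) = ∑ q, φ (pderiv k q f) * pderiv F n (φ (X q)))
    (j : PS σ F →+* L) (hj : Function.Injective j) (𝔄 : Subalgebra k (PS I k))
    (h𝔄 : ∀ q, x q ∈ 𝔄) (f : PS I k) (hf : (j.comp φ) f = 0) :
    (fun q => (j.comp φ) (pderiv k q f)) ∈ Submodule.span L
      {w | ∃ g ∈ 𝔄, (j.comp φ) g = 0 ∧ w = fun q => (j.comp φ) (pderiv k q g)} := by
  set V := Submodule.span L
    {w | ∃ g ∈ 𝔄, (j.comp φ) g = 0 ∧ w = fun q => (j.comp φ) (pderiv k q g)} with hV
  let e : I → I → L := fun i q => (j.comp φ) (pderiv k q (x i))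
  let W := Submodule.span L (Set.range fun n => e (s n))
  have he : ∀ q, e q ∈ V ⊔ W := by
    intro q
    obtain ⟨P, h0, h1⟩ := exists_minp hs (ha q)
    have hφ : ∀ Q : MvPolynomial (Option σ) k,
        φ (MvPolynomial.aeval (fun o : Option σ => o.elim (x q) fun n => x (s n)) Q) =
          θ (MvPolynomial.aeval (fun o : Option σ => o.elim (a q) fun n => a (s n)) Q) :=
      se1_aeval φ θ (fun c => by rw [← c_eq_algebraMap, hC, hθ.alg]) fun o => by
        cases o <;> exact hx _
    set y : Option σ → PS I k := fun o => o.elim (x q) fun n => x (s n) with hy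
    have hg : (fun q' => (j.comp φ) (pderiv k q' (MvPolynomial.aeval y P))) ∈ V := by
      refine Submodule.subset_span ⟨_, ?_, ?_, rfl⟩
      · have h2 : Algebra.adjoin k (Set.range y) ≤ 𝔄 := by
          refine Algebra.adjoin_le ?_
          rintro _ ⟨o, rfl⟩
          cases o <;> exact h𝔄 _
        refine h2 ?_
        rw [Algebra.adjoin_range_eq_range_aeval]
        exact ⟨P, rfl⟩
      · rw [RingHom.comp_apply, hφ, h0, map_zero, map_zero]
    have hu : (j.comp φ) (MvPolynomial.aeval y (MvPolynomial.pderiv none P)) ≠ 0 := by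
      rw [RingHom.comp_apply, hφ]
      exact fun h => h1 (hθ.inj (hj (by rw [h, map_zero, map_zero])))
    have h2 : (j.comp φ) (MvPolynomial.aeval y (MvPolynomial.pderiv none P)) • e q =
        (fun q' => (j.comp φ) (pderiv k q' (MvPolynomial.aeval y P))) -
          ∑ n, (j.comp φ) (MvPolynomial.aeval y (MvPolynomial.pderiv (some n) P)) • e (s n) := by
      funext q'
      rw [Pi.sub_apply, Finset.sum_apply, se1_chain, Fintype.sum_option, map_add, map_sum, map_mul]
      simp only [map_mul, Pi.smul_apply, smul_eq_mul]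
      exact (add_sub_cancel_right _ _).symm
    rw [← Submodule.smul_mem_iff _ hu, h2]
    exact sub_mem (Submodule.mem_sup_left hg) (Submodule.mem_sup_right (sum_mem fun n _ =>
      Submodule.smul_mem _ _ (Submodule.subset_span ⟨n, rfl⟩)))
  have hall : ∀ v : I → L, v ∈ V ⊔ W := by
    intro v
    choose c hc' using hJ
    have h1 : v = ∑ q, v q • ∑ i, (j.comp φ) (c q i) • e i := by
      funext q'
      have h2 : ∀ q, (∑ i, (j.comp φ) (c q i) • e i) q' = if q = q' then 1 else 0 := by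
        intro q
        have h3 := congrArg (j.comp φ) (hc' q q')
        rw [map_sum, apply_ite (j.comp φ), map_one, map_zero] at h3
        rw [← h3, Finset.sum_apply]
        exact Finset.sum_congr rfl fun i _ => (map_mul _ _ _).symm
      rw [Finset.sum_apply]
      simp only [Pi.smul_apply, h2, smul_eq_mul, mul_ite, mul_one, mul_zero, Finset.sum_ite_eq',
        Finset.mem_univ, if_true]
    rw [h1]
    exact sum_mem fun q _ => Submodule.smul_mem _ _ (sum_mem fun i _ =>
      Submodule.smul_mem _ _ (he i))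
  let τ : σ → (I → L) →ₗ[L] L := fun n =>
    ∑ q, j (pderiv F n (φ (X q))) • LinearMap.proj q
  have hτ : ∀ n g, τ n (fun q => (j.comp φ) (pderiv k q g)) = j (pderiv F n (φ g)) := by
    intro n g
    rw [hc, map_sum]
    simp only [τ, LinearMap.sum_apply, LinearMap.smul_apply, LinearMap.proj_apply, smul_eq_mul,
      map_mul, RingHom.comp_apply, mul_comm]
  have hτ0 : ∀ n g, (j.comp φ) g = 0 → τ n (fun q => (j.comp φ) (pderiv k q g)) = 0 := by
    intro n g hg
    have h1 : φ g = 0 := hj (by rw [map_zero]; exact hg)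
    rw [hτ, h1, map_zero, map_zero]
  have hVτ : ∀ n, V ≤ LinearMap.ker (τ n) := by
    intro n
    refine Submodule.span_le.2 ?_
    rintro _ ⟨g, -, hg, rfl⟩
    exact hτ0 n g hg
  obtain ⟨u, hu, z, hz, huz⟩ := Submodule.mem_sup.1 (hall fun q => (j.comp φ) (pderiv k q f))
  obtain ⟨w, rfl⟩ := (Submodule.mem_span_range_iff_exists_fun L).1 hz
  have hw : ∀ n, w n = 0 := by
    intro n
    have h1 := hτ0 n f hf
    have h2 : ∀ n', τ n (e (s n')) = if n = n' then 1 else 0 := by
      intro n'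
      rw [hτ n (x (s n')), hx, hθ.der, hd]
      split_ifs <;> simp
    rw [← huz, map_add, LinearMap.mem_ker.1 (hVτ n hu), zero_add, map_sum] at h1
    simpa [h2] using h1
  rw [← huz]
  simpa [hw] using hu

theorem pderiv_ren (i i' : Fin m) (l : ι) (f : PS ι k) :
    pderiv k (i', l) (rename (Prod.mk i) f : PS (Fin m × ι) k) =
      if i = i' then rename (Prod.mk i) (pderiv k l f) else 0 := by
  have hb : C0 fun l : ι => (X (i, l) : PS (Fin m × ι) k) := fun _ => constantCoeff_X _
  rw [rename_eq_sb, pderiv_sb hb]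
  split_ifs with h
  · subst h
    rw [Finset.sum_eq_single l, pderiv_X_self, mul_one, rename_eq_sb]
    · intro l' _ h'
      rw [pderiv_X_of_ne (fun e => h' (congrArg Prod.snd e)), mul_zero]
    · exact fun h' => absurd (Finset.mem_univ _) h'
  · refine Finset.sum_eq_zero fun l' _ => ?_
    rw [pderiv_X_of_ne (fun e => h (congrArg Prod.fst e)), mul_zero]

theorem ren_coe (i : Fin m) (Q : MvPolynomial ι k) :
    ((MvPolynomial.rename (Prod.mk i) Q : MvPolynomial (Fin m × ι) k) : PS (Fin m × ι) k) =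
      rename (Prod.mk i) (Q : PS ι k) := (rename_coe _ Q).symm

theorem jac_ren (Λ : Fin m → LD k ι β) (q : Fin m × ι) : ∃ c : Fin m × ι → PS (Fin m × ι) k,
    ∀ q', ∑ j, c j * pderiv k q' (rename (Prod.mk j.1) ((Λ j.1).x j.2)) =
      if q = q' then 1 else 0 := by
  obtain ⟨i, l⟩ := q
  refine ⟨fun j => if j.1 = i then rename (Prod.mk i) ((Λ i).K l j.2) else 0, ?_⟩
  rintro ⟨i', l'⟩
  rw [Fintype.sum_prod_type, Finset.sum_eq_single i]
  · simp only [if_true, pderiv_ren]
    by_cases h : i = i'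
    · subst h
      have h1 := congrFun (congrFun (Λ i).K_mul l) l'
      rw [Matrix.mul_apply, Matrix.one_apply] at h1
      have h2 := congrArg (rename (Prod.mk i) : PS ι k →ₐ[k] PS (Fin m × ι) k) h1
      rw [map_sum, apply_ite (rename (Prod.mk i) : PS ι k →ₐ[k] PS (Fin m × ι) k), map_one,
        map_zero] at h2
      simp only [if_true, Prod.mk.injEq, true_and, ← h2, map_mul]
      rfl
    · simp [h]
  · intro i'' _ h
    simp [h]
  · exact fun h => absurd (Finset.mem_univ _) h

/-! Part 2. -/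

private theorem se2_frac (S : Type) [CommRing S] [IsDomain S] :
    ∃ (L : Type) (_ : Field L) (j : S →+* L), Function.Injective j :=
  ⟨FractionRing S, _, _, IsFractionRing.injective S _⟩

private theorem se2_chain {I S : Type} [Fintype I] [DecidableEq I] [CommRing S] [Algebra k S]
    (φ : PS I k →+* S) (hC : ∀ c, φ (C c) = algebraMap k S c) (E : Derivation k S S)
    (Q : MvPolynomial I k) : E (φ Q) = ∑ q, φ (pderiv k q Q) * E (φ (X q)) := by
  have h1 : ∀ Q : MvPolynomial I k, φ Q = MvPolynomial.aeval (fun q => φ (X q)) Q := fun Q => by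
    rw [hom_coe, MvPolynomial.aeval_def]
    exact congrArg (MvPolynomial.eval₂ · _ Q) (RingHom.ext hC)
  simpa only [← h1, pderiv_coe] using se1_chain E (fun q => φ (X q)) Q

/-- The values of a derivation on the coordinates are killed by the polynomial conormal space. -/
private theorem se2_con {I S L : Type} [Fintype I] [DecidableEq I] [CommRing S] [Algebra k S]
    [Field L] (φ : PS I k →+* S) (hC : ∀ c, φ (C c) = algebraMap k S c) (j : S →+* L)
    (hj : Function.Injective j) (E : Derivation k S S) :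
    ∀ w ∈ Con (j.comp φ) (Set.range MvPolynomial.toMvPowerSeries),
      ∑ q, w q * j (E (φ (X q))) = 0 := by
  intro w hw
  induction hw using Submodule.span_induction with
  | mem w hw =>
    obtain ⟨_, ⟨Q, rfl⟩, h2, rfl⟩ := hw
    have h3 := se2_chain φ hC E Q
    rw [(map_eq_zero_iff j hj).1 h2, map_zero] at h3
    simpa only [map_sum, map_mul, map_zero, RingHom.comp_apply] using congrArg j h3.symm
  | zero => simp
  | add a b _ _ ha hb => simp only [Pi.add_apply, add_mul, Finset.sum_add_distrib, ha, hb, add_zero]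
  | smul c a _ ha => simp only [Pi.smul_apply, smul_eq_mul, mul_assoc, ← Finset.mul_sum, ha, mul_zero]

private theorem se2_alg {L : Type} [Field L] {Λ : Fin m → LD k ι β}
    {𝔄 : Subalgebra k (PS (Fin m × ι) k)} (h𝔄 : ∀ i j, rename (Prod.mk i) ((Λ i).x j) ∈ 𝔄)
    {a : Fin m × ι → F} {D : σ → Derivation k F F} {θ : F →+* PS σ F} (hθ : Tay D θ)
    {φ : PS (Fin m × ι) k →+* PS σ F} (φ1 : ∀ c, φ (C c) = C (algebraMap k F c))
    (hx : ∀ q : Fin m × ι, φ (rename (Prod.mk q.1) ((Λ q.1).x q.2)) = θ (a q))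
    {j : PS σ F →+* L} (hj : Function.Injective j) {y : F} (hy : y ∈ algS k a) :
    IsAlgebraic (𝔄.toSubring.map (j.comp φ)) (j (θ y)) := by
  have h1 : ∀ y ∈ Algebra.adjoin k (Set.range a),
      (j.comp θ) y ∈ 𝔄.toSubring.map (j.comp φ) := fun y hy => by
    induction hy using Algebra.adjoin_induction with
    | mem y h => obtain ⟨q, rfl⟩ := h; exact ⟨_, h𝔄 _ _, congrArg j (hx q)⟩
    | algebraMap c => exact ⟨_, 𝔄.algebraMap_mem c, congrArg j ((φ1 c).trans (hθ.alg c).symm)⟩
    | add _ _ _ _ a b => exact map_add (j.comp θ) _ _ ▸ add_mem a b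
    | mul _ _ _ _ a b => exact map_mul (j.comp θ) _ _ ▸ mul_mem a b
  exact (mem_algS.1 hy).ringHom_of_comp_eq (RingHom.codRestrict ((j.comp θ).comp
      (Subalgebra.val _).toRingHom) (𝔄.toSubring.map (j.comp φ)) fun y => h1 y y.2) (j.comp θ)
      (fun _ _ e => Subtype.ext (hθ.inj (hj (congrArg Subtype.val e)))) rfl

omit [CharZero k] in
/-- Independent vectors stay independent in the coordinates `x`. -/
private theorem se2_ind {L B : Type} [Field L] [Fintype B] (Λ : Fin m → LD k ι β)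
    (ψ : Fin m → PS ι k →+* L) {w : B → Fin m × ι → L} (hw : LinearIndependent L w) :
    LinearIndependent L fun b (q : Fin m × ι) =>
      ((jacS (Λ q.1).x).map (ψ q.1) *ᵥ fun l => w b (q.1, l)) q.2 := by
  refine Fintype.linearIndependent_iff.2 fun c hc =>
    Fintype.linearIndependent_iff.1 hw c (funext fun q => ?_)
  have h1 : (jacS (Λ q.1).x).map (ψ q.1) *ᵥ (∑ b, c b • fun l => w b (q.1, l)) = 0 := by
    rw [mulVec_sum]
    funext l
    simpa only [Finset.sum_apply, mulVec_smul, Pi.smul_apply, Pi.zero_apply] using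
      congrFun hc (q.1, l)
  have h2 := congrArg ((Λ q.1).K.map (ψ q.1) *ᵥ ·) h1
  simp only [mulVec_mulVec, ← Matrix.map_mul, (Λ q.1).K_mul, mulVec_zero] at h2
  rw [Matrix.map_one _ (map_zero _) (map_one _), one_mulVec] at h2
  simpa only [Finset.sum_apply, Pi.smul_apply, Pi.zero_apply] using congrFun h2 q.2

/-- The theorem of Ax and Schanuel. -/
theorem as_main (Λ : Fin m → LD k ι β) (𝔄 : Subalgebra k (PS (Fin m × ι) k))
    (h𝔄 : ∀ i j, rename (Prod.mk i) ((Λ i).x j) ∈ 𝔄) {𝔙 : Set (PS (Fin m × ι) k)} {r : ℕ}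
    (hG : GenV r 𝔄 𝔙) {z : Fin m → ι → PS Unit k} (h0 : ∀ i, C0 (z i)) (hz : ∀ i, z i ≠ 0)
    (hm : 0 < m) (h1 : Dep k r fun q : Fin m × ι => z q.1 q.2)
    (h𝔙 : ∀ f ∈ 𝔙, ∃ (i : Fin m) (g u : PS ι k) (N : ℕ), IsUnit u ∧ f = rename (Prod.mk i) g ∧
      g ^ (N + 1) * u ∈ algS k (Λ i).x ∧ sb (z i) g = 0) : False := by
  obtain ⟨δ, hP, hδ⟩ := pts_arc Λ h0
  have hA := fun c => (IsScalarTower.algebraMap_apply k (PS Unit k) (LF k) c).symm
  have hX : ∀ i l, arcE (h0 i) (X l) = algebraMap _ (LF k) (z i l) := fun i l => by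
    rw [arcE_apply, evx_X (h0 i).ev]
  have hl := fun i => Function.ne_iff.1 (hz i)
  obtain ⟨t, -, s, -, hs, hs'⟩ :=
    (dep_card (k := k) fun q : Fin m × ι => arcE (h0 q.1) ((Λ q.1).x q.2)).basis
  obtain ⟨D, D1, D2⟩ := exists_der_comm hs
  have : CharZero (LF k) := charZero_of_injective_algebraMap (algebraMap k _).injective
  obtain ⟨θ, θ1, θ2⟩ := exists_tay D D2
  have hθ : Tay D θ := ⟨θ1, θ2⟩
  obtain ⟨φ, φ1, φ2, hφ⟩ := exists_dfm Λ h0 θ1
  obtain ⟨ψ, hψ, hφ⟩ : ∃ ψ : Fin m → PS ι k →+* PS (Fin t) (LF k),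
      (∀ i f, φ (rename (Prod.mk i) f) = ψ i f) ∧ ∀ i, Dfm (Λ i) (arcE (h0 i)) θ (ψ i) :=
    ⟨_, fun _ _ => rfl, hφ⟩
  have hψX : ∀ q : Fin m × ι, φ (X q) = ψ q.1 (X q.2) := fun q => by rw [← hψ, rename_X]
  have φ3 := fun c => (φ1 c).trans (MvPowerSeries.algebraMap_apply (r := c)).symm
  obtain ⟨L, _, j, hj⟩ := se2_frac (PS (Fin t) (LF k))
  have hx := fun q : Fin m × ι => (hψ _ _).trans ((hφ q.1).hx q.2)
  obtain ⟨⟨d, u, hu, hd⟩, hG⟩ := hG L (j.comp φ) (fun i => (hl i).imp fun l h e => h (by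
      have h3 := (hφ i).const (X l)
      rw [← hψX (i, l), (map_eq_zero_iff j hj).1 e, map_zero, hX] at h3
      exact (map_eq_zero_iff _ (IsFractionRing.injective _ _)).1 h3.symm))
    (Submodule.span_le.2 (by
      rintro _ ⟨f, -, hf, rfl⟩
      exact alg_cond (fun q : Fin m × ι => rename (Prod.mk q.1) ((Λ q.1).x q.2)) (jac_ren Λ) hθ
        (a := fun q => arcE (h0 q.1) ((Λ q.1).x q.2)) hs hs' D1 φ φ1 hx φ2 j hj 𝔄
        (fun q => h𝔄 _ _) f hf))
    (fun f hf => by
      obtain ⟨i, g, u, N, h2, rfl, h3, h4⟩ := h𝔙 f hf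
      have h5 := (hφ i).alg hθ (hP.good i) h3
      rw [map_mul, map_mul, map_pow, map_pow, arcE_apply _ g, h4, map_zero, zero_pow N.succ_ne_zero,
        zero_mul, map_zero, (h2.map _).mul_left_eq_zero] at h5
      rw [RingHom.comp_apply, hψ, (pow_eq_zero_iff N.succ_ne_zero).1 h5, map_zero])
  let _ : Algebra k L := ((j.comp φ).comp C).toAlgebra
  have hC : ∀ c, (j.comp θ) (algebraMap k _ c) = algebraMap k L c := fun c =>
    congrArg j ((hθ.alg c).trans (φ1 c).symm)
  have hi : AlgebraicIndependent k fun a => (j.comp φ) (X (u a)) := algebraicIndependent_iff.2 hu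
  have ha : Dep k d fun q : Fin m × ι => arcE (h0 q.1) ((Λ q.1).x q.2) :=
    Dep.of_map ⟨j.comp θ, hC⟩ (hj.comp hθ.inj) (dep_iff.2 fun a => by
      obtain ⟨Q, h2, h3⟩ := hd fun n => ⟨_, h𝔄 (a n).1 (a n).2⟩
      exact ⟨Q, h2, (congrArg (MvPolynomial.eval₂ _ · Q)
        (funext fun n => congrArg j (hx _).symm)).trans h3⟩)
  obtain ⟨E, E1, -⟩ := exists_der_comm hi
  have hw : LinearIndependent L fun b (q : Fin m × ι) => E b ((j.comp φ) (X q)) :=
    Fintype.linearIndependent_iff.2 fun c hc b => by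
      simpa only [Finset.sum_apply, Pi.smul_apply, E1, smul_eq_mul, mul_ite, mul_one, mul_zero,
        Finset.sum_ite_eq', Finset.mem_univ, if_true, Pi.zero_apply] using congrFun hc (u b)
  obtain ⟨ω, ⟨b, hb⟩, ω1, ω2⟩ := hP.omega_ne (j.comp θ) (se2_ind Λ (fun i => j.comp (ψ i)) hw)
    (Fintype.card_fin _).ge
    (by simpa only [hX] using h1.map (RingHom.id k) (algebraMap _ (LF k)) hA) ha
    ⟨⟨0, hm⟩, (hl _).imp (hδ _)⟩
  let en := (Fintype.equivFin (Fin m × ι)).symm
  obtain ⟨P, Q, h2, h3, h4⟩ := (hG _ (fun a => ⟨_, h𝔄 (en a).1 (en a).2⟩)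
    (fun a => j (θ (ω (en a))))
    (fun q => j (((fun l => θ (ω (q.1, l))) ᵥ* (jacS (Λ q.1).x).map (ψ q.1)) q.2))
    (fun a => se2_alg h𝔄 hθ φ1 hx hj (ω1 _)) fun q => by
      rw [en.sum_comp fun p =>
          j (θ (ω p)) * (j.comp φ) (pderiv k q (rename (Prod.mk p.1) ((Λ p.1).x p.2))),
        Fintype.sum_prod_type, Finset.sum_eq_single q.1 (fun b _ hb => by
          simp [pderiv_ren b q.1 q.2, hb]) (by simp)]
      simp [pderiv_ren q.1 q.1 q.2, vecMul, dotProduct, jacS, hψ]).resolve_left fun h => hb (by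
    rw [← se2_con (j.comp φ) (fun _ => rfl) (RingHom.id L) Function.injective_id (E b) _ h,
      Fintype.sum_prod_type, Fintype.sum_prod_type]
    refine Finset.sum_congr rfl fun i _ => (dotProduct_mulVec (fun l => j (θ (ω (i, l))))
      ((jacS (Λ i).x).map (j.comp (ψ i))) fun l => E b ((j.comp φ) (X (i, l)))).trans
        (Finset.sum_congr rfl fun l _ => ?_)
    simp only [vecMul, dotProduct, map_sum, map_mul, map_apply, RingHom.id_apply,
      RingHom.comp_apply])
  have h5 : ∀ ξ ∈ holc Λ fun i => arcE (h0 i), ∑ q, (φ Q * φ (pderiv k q P) -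
      φ P * φ (pderiv k q Q)) * ψ q.1 ((Λ q.1).vP (ξ q.1) q.2) = 0 := fun ξ hξ => by
    have h6 : ∀ q : Fin m × ι, φ (MvPolynomial.rename (Prod.mk q.1) ((Λ q.1).vP (ξ q.1) q.2) :
        MvPolynomial (Fin m × ι) k) = ψ q.1 ((Λ q.1).vP (ξ q.1) q.2) := fun q => by
      rw [ren_coe, hψ]
    have h7 := h4 (fun q => MvPolynomial.rename (Prod.mk q.1) ((Λ q.1).vP (ξ q.1) q.2)) ?_
      fun w hw => ?_
    · simpa only [RingHom.comp_apply, h6, ← map_mul j, ← map_sub j, ← map_sum j,
        map_eq_zero_iff j hj] using h7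
    · obtain ⟨μ, h8, h9⟩ := hP.kill hθ hφ ω2 hξ
      simp only [RingHom.comp_apply, h6, ← map_mul, ← map_sum, map_eq_zero_iff j hj]
      rw [← h9, Fintype.sum_prod_type, Fintype.sum_prod_type]
      refine Finset.sum_congr rfl fun b _ => ?_
      simp only [← (h8 b).vv, ← LD.vv_const]
      exact (dotProduct_mulVec (fun l => θ (ω (b, l))) _ _).symm
    · obtain ⟨D', hD'⟩ := hξ
      obtain ⟨E', hE'⟩ := exists_tng (fun n => arcE (h0 (s n).1) ((Λ (s n).1).x (s n).2)) D'
      rw [← se2_con φ φ3 j hj E' w hw]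
      refine Finset.sum_congr rfl fun q _ => congrArg (fun y => w q * j y) ?_
      rw [h6, hψX, (hφ q.1).tan hθ (hP.good _) (fun l => hs' (q.1, l)) D1 hE', ← hD',
        ← LD.vv_const]
      exact congrArg ((Λ q.1).vv (ψ q.1) · q.2) (Matrix.ext fun _ _ => (hφ _).hC _)
  have hQ : IsUnit (φ Q) := (isUnit_iff_constantCoeff.2
    (isUnit_iff_ne_zero.2 fun h => h2 ((MvPolynomial.coeff_coe Q 0).symm.trans h))).map φ
  obtain ⟨y, hy⟩ := hQ.dvd (a := φ P)
  obtain ⟨a, h6, rfl⟩ := tng_alg hθ D1 (u := y) fun D' E' hE' => by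
    have h6 := hP.tan hθ D1 hφ (fun i l => hs' (i, l)) hE' h5
    simp only [← hψX, sub_mul, mul_assoc, Finset.sum_sub_distrib, ← Finset.mul_sum,
      ← se2_chain φ φ3] at h6
    rw [hy, Derivation.leibniz, smul_eq_mul, smul_eq_mul] at h6
    exact hQ.mul_right_eq_zero.1 (hQ.mul_right_eq_zero.1 (by linear_combination h6))
  refine h3 ?_
  rw [RingHom.comp_apply, RingHom.comp_apply, hy, map_mul, mul_div_cancel_left₀ _ (hQ.map j).ne_zero]
  exact se2_alg h𝔄 hθ φ1 hx hj (algS_le (fun n => self_mem_algS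
    (x := fun q : Fin m × ι => arcE (h0 q.1) ((Λ q.1).x q.2)) (s n)) h6)

end Pool.Agent.E7
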