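import Pool.Agent.Lib.MP_7e5527_ag.EA.SD

/-! The rank count and the fields tangent to the polynomial closure. -/

open MvPowerSeries Matrix

noncomputable section

namespace Pool.Agent.E7

variable {k ι β F σ : Type} [Field k] [CharZero k] [Fintype ι] [DecidableEq ι] [Fintype β]
  [DecidableEq β] [Field F] [Algebra k F] [Fintype σ] [DecidableEq σ] {m : ℕ}

/-! Part 1. -/

/-- As `exists_ann`, with preimages of a basis of the range. -/
theorem rank_lt {α κ : Type} [Fintype κ] {z : α → F} {t : ℕ} (hz : Dep k t z)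
    (μ : Derivation k F F →ₗ[F] κ → F)
    (h : ∀ D : Derivation k F F, (∀ a, D (z a) = 0) → μ D = 0) (δ : Derivation k F F)
    (h0 : μ δ = 0) (h1 : ∃ a, δ (z a) ≠ 0) : Module.finrank F (LinearMap.range μ) < t := by
  classical
  obtain ⟨t', ht', s, -, -, hs⟩ := hz.basis
  have h2 : ∀ D : Derivation k F F, (∀ i, D (z (s i)) = 0) → ∀ a, D (z a) = 0 := fun D hD a =>
    der_alg (x := fun i => z (s i)) D hD (hs a)
  let b := Module.finBasis F (LinearMap.range μ)
  choose E hE using fun j => (b j).2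
  have hb := Fintype.linearIndependent_iff.1
    (b.linearIndependent.map' (LinearMap.range μ).subtype (Submodule.ker_subtype _))
  have hli : LinearIndependent F fun (o : Option (Fin (Module.finrank F (LinearMap.range μ))))
      (i : Fin t') => (o.elim δ E) (z (s i)) := by
    refine Fintype.linearIndependent_iff.2 fun c hc => ?_
    have h3 : ∀ a, (∑ o : Option (Fin (Module.finrank F (LinearMap.range μ))),
        c o • o.elim δ E) (z a) = 0 := h2 _ fun i => by
      have h4 := congrFun hc i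
      rw [Finset.sum_apply] at h4
      exact (sb1_sum _ _).trans h4
    have h4 := h _ h3
    rw [map_sum, Fintype.sum_option] at h4
    simp only [Option.elim, map_smul, h0, smul_zero, zero_add, hE] at h4
    have h5 : ∀ j, c (some j) = 0 := hb _ h4
    rintro (_ | j)
    · obtain ⟨a, ha⟩ := h1
      have h6 := h3 a
      rw [Fintype.sum_option] at h6
      simpa [h5, ha] using h6
    · exact h5 j
  have h7 := hli.fintype_card_le_finrank
  rw [Fintype.card_option, Module.finrank_fin_fun, Fintype.card_fin] at h7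
  omega

/-- Each `w b` lies in the span over `L` of the image of a basis of `M`: expand the entries of
`w b` in a basis over `F`; the coefficient vectors lie in `M`. -/
theorem card_le_rank {L I B : Type} [Field L] [Fintype I] [Fintype B] (j : F →+* L)
    (M : Submodule F (I → F)) {w : B → I → L} (hw : LinearIndependent L w)
    (h : ∀ ω : I → F, (∀ v ∈ M, ω ⬝ᵥ v = 0) → ∀ b, ∑ q, j (ω q) * w b q = 0) :
    Fintype.card B ≤ Module.finrank F M := by
  classical
  let _ := j.toAlgebra
  have key : ∀ (lam : L →ₗ[F] F) b, (fun q => lam (w b q)) ∈ M := fun lam b => by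
    by_contra hn
    obtain ⟨f, hf, hle⟩ := Submodule.exists_le_ker_of_notMem hn
    have e : ∀ v : I → F, (fun i => f (Pi.single i 1)) ⬝ᵥ v = f v := fun v => by
      conv_rhs => rw [pi_eq_sum_univ' v, map_sum]
      exact Finset.sum_congr rfl fun i _ => by rw [map_smul, smul_eq_mul, mul_comm]
    have h1 := congrArg lam (h _ (fun v hv => (e v).trans (hle hv)) b)
    rw [map_sum, map_zero] at h1
    refine hf ((e _).symm.trans (Eq.trans (Finset.sum_congr rfl fun q _ => ?_) h1))
    exact (lam.map_smul _ _).symm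
  let bM := Module.finBasis F M
  let u : Fin (Module.finrank F M) → I → L := fun a q => j ((bM a).1 q)
  have h1 : ∀ v ∈ M, (fun q => j (v q)) ∈ Submodule.span L (Set.range u) := fun v hv => by
    have h2 := congrArg Subtype.val (bM.sum_repr ⟨v, hv⟩)
    have h3 : (fun q => j (v q)) = ∑ a, j (bM.repr ⟨v, hv⟩ a) • u a := funext fun q => by
      rw [Submodule.coe_sum] at h2
      have h4 := congrArg j (congrFun h2 q)
      rw [Finset.sum_apply, map_sum] at h4
      rw [Finset.sum_apply]
      exact h4.symm.trans (Finset.sum_congr rfl fun a _ => map_mul j _ _)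
    rw [h3]
    exact sum_mem fun a _ => Submodule.smul_mem _ _ (Submodule.subset_span ⟨a, rfl⟩)
  have h2 : Set.range w ≤ Submodule.span L (Set.range u) := by
    rintro _ ⟨b, rfl⟩
    let bL := Module.Basis.ofVectorSpace F L
    let S := Finset.univ.biUnion fun q => (bL.repr (w b q)).support
    have h3 : w b = ∑ a ∈ S, bL a • fun q => j (bL.coord a (w b q)) := funext fun q => by
      rw [Finset.sum_apply]
      refine (bL.linearCombination_repr (w b q)).symm.trans ?_
      rw [Finsupp.linearCombination_apply, Finsupp.sum_of_support_subset _ (s := S)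
        (Finset.subset_biUnion_of_mem (fun q => (bL.repr (w b q)).support) (Finset.mem_univ q))
        (fun i a => a • bL i) (fun _ _ => zero_smul _ _)]
      exact Finset.sum_congr rfl fun a _ => mul_comm _ _
    rw [h3]
    exact sum_mem fun a _ => Submodule.smul_mem _ _ (h1 _ (key _ b))
  exact (linearIndependent_le_span_aux' w hw _ h2).trans
    ((Fintype.card_range_le u).trans (Fintype.card_fin _).le)

/-- As `APts.omega`: the annihilator is spanned by its algebraic members. -/
theorem APts.omega_ne {Λ : Fin m → LD k ι β} {ε : Fin m → PS ι k →ₐ[k] F} {δ : Derivation k F F}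
    (h : APts Λ ε δ) {L B : Type} [Field L] [Fintype B] (j : F →+* L) {w : B → Fin m × ι → L}
    (hw : LinearIndependent L w) {r d : ℕ} (hd : r + d ≤ Fintype.card B)
    (hz : Dep k r fun q : Fin m × ι => ε q.1 (X q.2))
    (ha : Dep k d fun q : Fin m × ι => ε q.1 ((Λ q.1).x q.2)) (h1 : ∃ i l, δ (ε i (X l)) ≠ 0) :
    ∃ ω : Fin m × ι → F, (∃ b, ∑ q, j (ω q) * w b q ≠ 0) ∧
      (∀ q, ω q ∈ algS k fun q : Fin m × ι => ε q.1 ((Λ q.1).x q.2)) ∧
      ∀ D, ∑ q, ω q * (Λ q.1).mu (ε q.1) D q.2 = 0 := by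
  let μ : Derivation k F F →ₗ[F] Fin m × ι → F :=
    { toFun := fun D q => (Λ q.1).mu (ε q.1) D q.2
      map_add' := fun D D' => funext fun q => congrFun ((Λ q.1).mu_add (ε q.1) D D') q.2
      map_smul' := fun c D => funext fun q => congrFun ((Λ q.1).mu_smul (ε q.1) c D) q.2 }
  have h0 := rank_lt (hz.sum ha) μ
    (fun D hD => funext fun q => by
      have e1 : (fun l => D (ε q.1 (X l))) = 0 := funext fun l => hD (Sum.inl (q.1, l))
      have e2 : (fun j => D (ε q.1 ((Λ q.1).x j))) = 0 := funext fun j => hD (Sum.inr (q.1, j))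
      change (Λ q.1).mu (ε q.1) D q.2 = 0
      rw [LD.mu, e1, e2, mulVec_zero, sub_zero, Pi.zero_apply]) δ
    (funext fun q => congrFun ((Λ q.1).om_chain (ε q.1) (h.chain q.1)).2 q.2)
    (h1.elim fun i hi => hi.elim fun l hl => ⟨Sum.inl (i, l), hl⟩)
  let H : Submodule F (Fin m × ι → F) :=
    { carrier := {v | ∀ D, v ⬝ᵥ μ D = 0}
      add_mem' := fun ha hb D => by rw [add_dotProduct, ha D, hb D, add_zero]
      zero_mem' := fun D => zero_dotProduct _
      smul_mem' := fun c _ ha D => by rw [smul_dotProduct, ha D, smul_zero] }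
  have h2 : H ≤ _ := const_span {D | ∀ i j, D (ε i ((Λ i).x j)) = 0} H fun D' hD' v hv D => by
    obtain ⟨D'', h3⟩ := h.mu_der hD' D
    have h4 := congrArg D' (hv D)
    have h5 : ∀ q, D' (μ D q) = μ D'' q := fun q => h3 q.1 q.2
    simp only [dotProduct, map_sum, Derivation.leibniz, smul_eq_mul, map_zero, h5,
      Finset.sum_add_distrib] at h4
    rw [show ∑ q, v q * μ D'' q = 0 from hv D'', zero_add] at h4
    exact (dotProduct_comm _ _).trans h4
  by_contra hn
  refine ((hd.trans (card_le_rank j (LinearMap.range μ) hw fun ω hω b => ?_)).trans_lt h0).false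
  have h3 := h2 (show ω ∈ H from fun D => hω _ ⟨D, rfl⟩)
  clear hω
  induction h3 using Submodule.span_induction with
  | mem v hv =>
    by_contra h3
    exact hn ⟨v, ⟨b, h3⟩, fun q => alg_of_der fun D hD => hv.2 D (fun i j => hD (i, j)) q, hv.1⟩
  | zero => simp
  | add u v _ _ hu hv =>
    simp only [Pi.add_apply, map_add, add_mul, Finset.sum_add_distrib, hu, hv, add_zero]
  | smul c v _ hv =>
    simp only [Pi.smul_apply, smul_eq_mul, map_mul, mul_assoc, ← Finset.mul_sum, hv, mul_zero]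

/-! Part 2. -/

variable {d : σ → Derivation k F F} {θ : F →+* PS σ F} {s : σ → F}

/-- The derivation `E` acts as `D` on the coefficients, corrected so that it kills `θ s`. -/
structure Tng (s : σ → F) (D : Derivation k F F) (E : Derivation k (PS σ F) (PS σ F)) : Prop where
  const : ∀ f, constantCoeff (E f) =
    D (constantCoeff f) - ∑ n, D (s n) * constantCoeff (pderiv F n f)
  der : ∀ n f, pderiv F n (E f) = E (pderiv F n f)

omit [CharZero k] [DecidableEq σ] in
theorem exists_tng (s : σ → F) (D : Derivation k F F) : ∃ E, Tng s D E := by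
  obtain ⟨D', hD⟩ := exists_cder D σ
  have h1 : ∀ n f, pderiv F n (D' f) = D' (pderiv F n f) := fun n f => by
    ext ν
    rw [coeff_pderiv, hD, hD, coeff_pderiv, Derivation.leibniz, ← Nat.cast_succ,
      Derivation.map_natCast, smul_zero, zero_add, smul_eq_mul, mul_comm]
  let E : Derivation k (PS σ F) (PS σ F) :=
    D' - ∑ n, (C (D (s n)) : PS σ F) • (pderiv F n).restrictScalars k
  have h2 : ∀ f, E f = D' f - ∑ n, C (D (s n)) * pderiv F n f := fun f => by
    simp only [E, Derivation.sub_apply, sb1_sum, Derivation.smul_apply,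
      Derivation.restrictScalars_apply, smul_eq_mul]
  refine ⟨E, fun f => ?_, fun n f => ?_⟩
  · rw [h2, map_sub, map_sum, show constantCoeff (D' f) = D (constantCoeff f) from hD f 0]
    simp only [map_mul, constantCoeff_C]
  · rw [h2, h2, map_sub, map_sum, h1]
    simp only [Derivation.leibniz, pderiv_C, smul_eq_mul, mul_zero, add_zero, pderiv_comm' n]

theorem sf2_exp (hd : ∀ n n', d n (s n') = if n = n' then 1 else 0) (D : Derivation k F F) {a : F}
    (ha : a ∈ algS k s) : D a = ∑ n, D (s n) * d n a := by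
  have h := der_alg (D - ∑ n, D (s n) • d n) (fun n => by
    simp [sb1_sum, hd]) ha
  simpa only [Derivation.sub_apply, sb1_sum, Derivation.smul_apply, smul_eq_mul,
    sub_eq_zero] using h

omit [Fintype σ] in
theorem sf2_mem (hd : ∀ n n', d n (s n') = if n = n' then 1 else 0) (n : σ) {a : F}
    (ha : a ∈ algS k s) : d n a ∈ algS k s :=
  der_mem _ (fun n' => by
    rw [hd]
    split_ifs
    exacts [one_mem _, zero_mem _]) ha

theorem Tng.alg {D : Derivation k F F} {E : Derivation k (PS σ F) (PS σ F)} (h : Tng s D E)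
    (hθ : Tay d θ) (hd : ∀ n n', d n (s n') = if n = n' then 1 else 0) {a : F}
    (ha : a ∈ algS k s) : E (θ a) = 0 := by
  have := sd1_tf k F
  refine odeu (fun a : algS k s => E (θ a)) (fun a => ?_) (fun n a => ?_) ⟨a, ha⟩
  · rw [h.const, hθ.const, sf2_exp hd D a.2, sub_eq_zero]
    simp only [hθ.der, hθ.const]
  · rw [h.der, hθ.der]
    exact Ideal.subset_span ⟨⟨_, sf2_mem hd n a.2⟩, rfl⟩

theorem tng_fix {E : σ → Derivation k (PS σ F) (PS σ F)} (h : ∀ n, Tng s (d n) (E n))
    (hθ : Tay d θ) (hd : ∀ n n', d n (s n') = if n = n' then 1 else 0) {u : PS σ F}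
    (hu : ∀ n, E n u = 0) : u = θ (constantCoeff u) := by
  have := sd1_tf k F
  have h1 : ∀ n f, constantCoeff (E n f) =
      d n (constantCoeff f) - constantCoeff (pderiv F n f) := fun n f => by
    simp [(h n).const, hd]
  have h2 : ∀ n a, E n (θ a) = 0 := fun n => odeu _
    (fun a => by rw [h1, hθ.der, hθ.const, hθ.const, sub_self]) fun n' a => by
      rw [(h n).der, hθ.der]
      exact Ideal.subset_span ⟨_, rfl⟩
  refine sub_eq_zero.1 (odeu
    (fun y : {y : PS σ F // (∀ n, E n y = 0) ∧ constantCoeff y = 0} => y.1) (fun y => y.2.2)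
    (fun n y => Ideal.subset_span ⟨⟨_, fun n' => ?_, ?_⟩, rfl⟩) ⟨_, fun n => ?_, ?_⟩)
  · rw [← (h n').der, y.2.1, map_zero]
  · have h3 := h1 n y
    rwa [y.2.1, y.2.2, map_zero, map_zero, zero_sub, zero_eq_neg] at h3
  · rw [map_sub, hu, h2, sub_self]
  · rw [map_sub, hθ.const, sub_self]

theorem Dfm.tan {Λ : LD k ι β} {ε : PS ι k →ₐ[k] F} {φ : PS ι k →+* PS σ F} (h : Dfm Λ ε θ φ)
    (hθ : Tay d θ) (hg : Λ.Good ε) (hs : ∀ j, ε (Λ.x j) ∈ algS k s)
    (hd : ∀ n n', d n (s n') = if n = n' then 1 else 0) {D : Derivation k F F}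
    {E : Derivation k (PS σ F) (PS σ F)} (hE : Tng s D E) (l : ι) :
    E (φ (X l)) = Λ.vv φ ((Λ.Om ε D).map C) l := by
  have := sd1_tf k F
  have h1 : ∀ f ∈ algS k Λ.x, ε f ∈ algS k s := fun f hf => algS_le hs (alg_of_der fun D hD => by
    simp only [hg D f hf, hD, mul_zero, Finset.sum_const_zero])
  have h2 : ∀ n a b, pderiv F n (φ (Λ.W a b)) =
      ∑ c, θ (Λ.Af ε (d n) a c) * φ (Λ.W c b) := fun n a b => by
    have hA : ∀ j, Λ.D j (Λ.W a b) = ∑ c, Λ.A j a c * Λ.W c b := fun j =>
      congrFun (congrFun (Λ.hA j) a) b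
    simp only [map_apply, h.chain' hθ, hA, LD.Af, Matrix.sum_apply, Matrix.smul_apply,
      map_sum, map_mul, smul_eq_mul, Finset.sum_mul, h.alg hθ hg (Λ.aA ..)]
    rw [Finset.sum_comm]
    exact Finset.sum_congr rfl fun c _ => Finset.sum_congr rfl fun j _ => by ring
  have h3 : ∀ n a c, E (θ (Λ.Af ε (d n) a c)) = 0 := fun n a c => hE.alg hθ hd (by
    rw [LD.Af, Matrix.sum_apply]
    exact sum_mem fun j _ => mul_mem (sf2_mem hd n (hs j)) (h1 _ (Λ.aA j a c)))
  have h4 : Λ.Af ε D = ∑ n, D (s n) • Λ.Af ε (d n) := by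
    simp only [LD.Af, Finset.smul_sum, smul_smul]
    rw [Finset.sum_comm]
    exact Finset.sum_congr rfl fun j _ => by rw [sf2_exp hd D (hs j), Finset.sum_smul]
  have h5 : ∀ q : β × β, E (φ (Λ.W q.1 q.2)) - ∑ c, φ (Λ.W q.1 c) * C (Λ.Om ε D c q.2) = 0 := by
    refine odeu _ (fun q => ?_) fun n q => ?_
    · have h6 := congrFun (congrFun (Λ.om_spec ε D) q.1) q.2
      rw [h4, Matrix.sum_mul] at h6
      simp only [map_apply, Matrix.add_apply, Matrix.sum_apply, Matrix.smul_mul, Matrix.smul_apply,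
        mul_apply, smul_eq_mul] at h6
      simp only [map_sub, hE.const, h2, map_sum, map_mul, h.const, hθ.const, constantCoeff_C, h6]
      ring
    · have h6 : pderiv F n (E (φ (Λ.W q.1 q.2)) - ∑ c, φ (Λ.W q.1 c) * C (Λ.Om ε D c q.2)) =
          ∑ a, θ (Λ.Af ε (d n) q.1 a) *
            (E (φ (Λ.W a q.2)) - ∑ c, φ (Λ.W a c) * C (Λ.Om ε D c q.2)) := by
        simp only [map_sub, hE.der, h2, map_sum, Derivation.leibniz, h3, pderiv_C, smul_eq_mul,
          mul_zero, add_zero, zero_add, mul_sub, Finset.sum_sub_distrib, Finset.mul_sum]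
        rw [Finset.sum_comm]
        exact congrArg _ (Finset.sum_congr rfl fun _ _ => Finset.sum_congr rfl fun _ _ => by ring)
      rw [h6]
      exact sum_mem fun a _ => Ideal.mul_mem_left _ _ (Ideal.subset_span ⟨(a, q.2), rfl⟩)
  have h6 : ∀ b, E (φ Λ.e0 * Λ.pv φ b) = φ Λ.e0 * (Λ.pv φ ᵥ* (Λ.Om ε D).map C) b := fun b => by
    have h7 := LD.sa2_c0 (Λ := Λ) (ψ := φ)
    have h8 : ∀ a, E (φ (Λ.c0 a)) = 0 := fun a => by
      rw [h.alg hθ hg (Λ.ac a)]
      exact hE.alg hθ hd (h1 _ (Λ.ac a))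
    change E ((φ Λ.e0 • Λ.pv φ) b) = (φ Λ.e0 • Λ.pv φ ᵥ* (Λ.Om ε D).map C) b
    rw [← smul_vecMul, ← h7, vecMul_vecMul]
    simp only [vecMul, dotProduct, map_sum, Derivation.leibniz, h8, map_apply, smul_eq_mul,
      mul_zero, add_zero, mul_apply, fun a => sub_eq_zero.1 (h5 (a, b))]
  have h7 : ∀ c : β → k, E (φ Λ.e0 * (Λ.pv φ ⬝ᵥ fun b => φ (C (c b)))) =
      φ Λ.e0 * ((Λ.pv φ ᵥ* (Λ.Om ε D).map C) ⬝ᵥ fun b => φ (C (c b))) := fun c => by
    have h8 : ∀ b, E (φ (C (c b))) = 0 := fun b => by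
      rw [h.hC]
      exact (congrArg E (MvPowerSeries.algebraMap_apply (r := c b)).symm).trans
        (E.map_algebraMap _)
    simp only [dotProduct, Finset.mul_sum, ← mul_assoc, map_sum]
    refine Finset.sum_congr rfl fun b _ => ?_
    rw [Derivation.leibniz, h8, h6, smul_zero, zero_add, smul_eq_mul, mul_comm]
  have h8 := h7 Λ.p0
  have h9 := h7 (Λ.p1 l)
  rw [LD.pv_p0, mul_one] at h8
  rw [LD.pv_p1, Derivation.leibniz, h8, smul_eq_mul, smul_eq_mul] at h9
  rw [LD.sa2_vv]
  refine (Λ.he.map φ).mul_left_cancel ?_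
  linear_combination h9

/-- A series killed by all these derivations is an algebraic function. -/
theorem tng_alg (hθ : Tay d θ) (hd : ∀ n n', d n (s n') = if n = n' then 1 else 0) {u : PS σ F}
    (hu : ∀ (D : Derivation k F F) E, Tng s D E → E u = 0) : ∃ a ∈ algS k s, u = θ a := by
  choose E hE using fun D : Derivation k F F => exists_tng s D
  refine ⟨_, alg_of_der fun D hD => ?_, tng_fix (fun n => hE (d n)) hθ hd fun n => hu _ _ (hE _)⟩
  have h1 := (hE D).const u
  rw [hu _ _ (hE D), map_zero] at h1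
  simpa [hD] using h1.symm

/-- The derivation moves the deformed point along the holonomy algebra. -/
theorem APts.tan {Λ : Fin m → LD k ι β} {ε : Fin m → PS ι k →ₐ[k] F} {δ : Derivation k F F}
    (hP : APts Λ ε δ) (hθ : Tay d θ) (hd : ∀ n n', d n (s n') = if n = n' then 1 else 0)
    {ψ : Fin m → PS ι k →+* PS σ F} (hψ : ∀ i, Dfm (Λ i) (ε i) θ (ψ i))
    (hs : ∀ i j, ε i ((Λ i).x j) ∈ algS k s) {D : Derivation k F F}
    {E : Derivation k (PS σ F) (PS σ F)} (hE : Tng s D E) {u : Fin m × ι → PS σ F}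
    (h : ∀ ξ ∈ holc Λ ε, ∑ q, u q * ψ q.1 ((Λ q.1).vP (ξ q.1) q.2) = 0) :
    ∑ q, u q * E (ψ q.1 (X q.2)) = 0 := by
  obtain ⟨n, c, ξ, h4, h5⟩ := hP.span (η := fun i => (Λ i).Om (ε i) D) ⟨D, fun _ => rfl⟩
  have h1 : ∀ i l, E (ψ i (X l)) = ∑ a, C (c a) * ψ i ((Λ i).vP (ξ a i) l) := fun i l => by
    have h6 : ((Λ i).Om (ε i) D).map C =
        ∑ a, (C (c a) : PS σ F) • (ξ a i).map fun c => ψ i (C c) := by
      ext1 a b
      simp only [h5 i, map_apply, Matrix.sum_apply, Matrix.smul_apply, smul_eq_mul, map_sum,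
        map_mul, (hψ i).hC]
    rw [(hψ i).tan hθ (hP.good i) (hs i) hd hE, h6]
    simp only [← LD.vv_const, LD.vv, vecMul_sum, vecMul_smul, sum_dotProduct, smul_dotProduct,
      smul_eq_mul]
  simp only [h1, Finset.mul_sum, mul_left_comm _ (C _)]
  rw [Finset.sum_comm]
  exact Finset.sum_eq_zero fun a _ => by rw [← Finset.mul_sum, h _ (h4 a), mul_zero]

end Pool.Agent.E7
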