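import Pool.Agent.Lib.MP_7e5527_ag.EA.AO
import Pool.Agent.Lib.MP_7e5527_ag.EO.CEC

/-! Characters of the ring of integral series. -/

open MvPowerSeries Filter Topology Matrix

noncomputable section

namespace Pool.Agent.E7

variable {ι : Type} [Fintype ι] [DecidableEq ι] {p : ℕ} [Fact p.Prime] {Co : Cone ι} {R : Type}
  [CommRing R] {S : TW p Co R} {M W : Cl S} {E : Fr S}

variable {A A' : Type} [CommRing A] [CommRing A']

/-- Frobenius on integral series. -/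
def TW.frZ (S : TW p Co R) : S.ZR →+* S.ZR :=
  S.fr.restrict S.ZR S.ZR fun _ h => TW.Zi.isg TW.isg_fr h

/-- Class sums of integral series. -/
def TW.csZ (S : TW p Co R) (j : ℕ) (c : ι → ℤ) (F : S.ZR) : S.ZR :=
  ⟨S.cs (p ^ j) c F, TW.Zi.cs F.2 (pow_pos (Fact.out : p.Prime).pos j) c⟩

/-- Derivatives of integral series. -/
def TW.delZ (S : TW p Co R) (i : ι) (F : S.ZR) : S.ZR := ⟨S.del i F, TW.Zi.del F.2 i⟩

/-- The restriction of a bounded character. -/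
def TW.Ch.zr {ψ : R →+* ℂ_[p]} (h : S.Ch ψ) : S.ZR →+* OC p :=
  (ψ.comp S.ZR.subtype).codRestrict (𝓞_ℂ_[p]) fun F =>
    mem_OC.2 (h F 1 zero_le_one (TW.Zi.bd F.2))

theorem TW.Ch.coe_zr {ψ : R →+* ℂ_[p]} (h : S.Ch ψ) (F : S.ZR) : (h.zr F : ℂ_[p]) = ψ F := rfl

/-- The frame. -/
def Fr.z0 (E : Fr S) : S.ZR := ⟨E.e0, E.int0⟩

/-- The frame. -/
def Fr.z1 (E : Fr S) (i : ι) : S.ZR := ⟨E.e i, E.int i⟩

/-- The normalised value. -/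
def Fr.zn (E : Fr S) (ξ : S.ZR →+* A) (a : ℕ) (F : S.ZR) : A := ξ F * Ring.inverse (ξ E.z0) ^ a

/-- The coordinates. -/
def Fr.zx (E : Fr S) (ξ : S.ZR →+* A) : ι → A := fun i => E.zn ξ 1 (E.z1 i)

/-- The Jacobian matrix. -/
def Fr.zJ (E : Fr S) (ξ : S.ZR →+* A) : Matrix ι ι A := Matrix.of fun i l =>
  E.zn ξ 2 (E.z0 * S.delZ l (E.z1 i) - E.z1 i * S.delZ l E.z0)

/-- The values on the frame are units. -/
structure Fr.ZU (E : Fr S) (ξ : S.ZR →+* A) : Prop where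
  u0 : IsUnit (ξ E.z0)
  u1 : ∀ i, IsUnit (ξ (E.z1 i))

/-- The normalised values agree on the class. -/
def Cl.ZS (M : Cl S) (E : Fr S) (ξ1 ξ2 : S.ZR →+* A) : Prop :=
  ∀ a (F : S.ZR), (F : R) ∈ M.M a → E.zn ξ1 a F = E.zn ξ2 a F

variable {ξ ξ1 ξ2 ξ3 : S.ZR →+* A}

/-! Part 1. -/

theorem TW.zr_tf (y : S.ZR) (h : (p : S.ZR) * y = 0) : y = 0 :=
  Subtype.ext (S.p_cancel (congrArg Subtype.val h))

theorem TW.zr_dv {F : S.ZR} : S.Dv (F : R) ↔ (p : S.ZR) ∣ F := by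
  have hp : (p : ℂ_[p]) ≠ 0 := Nat.cast_ne_zero.2 (Fact.out : p.Prime).ne_zero
  refine ⟨fun h => ⟨⟨S.cst (p : ℂ_[p])⁻¹ * F, fun T => ?_⟩, Subtype.ext ?_⟩, ?_⟩
  · obtain ⟨n, hn⟩ := h T
    exact ⟨n, by rw [S.co_cst, hn, inv_mul_cancel_left₀ hp]⟩
  · change (F : R) = (p : R) * (S.cst (p : ℂ_[p])⁻¹ * F)
    rw [← map_natCast S.cst, ← mul_assoc, ← map_mul, mul_inv_cancel₀ hp, map_one, one_mul]
  · rintro ⟨G, rfl⟩
    exact TW.Zi.dv G.2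

theorem TW.frZ_sub (F : S.ZR) : (p : S.ZR) ∣ S.frZ F - F ^ p :=
  TW.zr_dv.1 (TW.fr_sub_pow F.2)

theorem TW.coe_frZ_pow (f : ℕ) (F : S.ZR) : ((S.frZ ^ f) F : R) = (S.fr ^ f) F := by
  induction f with
  | zero => rfl
  | succ f ih =>
    rw [pow_succ', pow_succ']
    exact congrArg S.fr ih

omit [Fact p.Prime] in
theorem za1_pn {x : A} (h : (p : A) ∣ x) : PN p x :=
  Ideal.le_radical (Ideal.mem_span_singleton.2 h)

theorem za1_dvd (ξ : S.ZR →+* A) {F : S.ZR} (h : S.Dv (F : R)) : (p : A) ∣ ξ F :=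
  map_natCast ξ p ▸ map_dvd ξ (TW.zr_dv.1 h)

theorem za1_fr [PC p A] {F : S.ZR} (h : IsUnit (ξ F)) (f : ℕ) : IsUnit (ξ ((S.frZ ^ f) F)) := by
  refine pc_unit p (h.pow (p ^ f)) (za1_pn ?_)
  rw [← map_pow, ← map_sub]
  refine za1_dvd ξ ?_
  have e : (((S.frZ ^ f) F - F ^ p ^ f : S.ZR) : R) = (S.fr ^ f) F - (F : R) ^ p ^ f := by
    rw [← TW.coe_frZ_pow]
    rfl
  rw [e]
  exact TW.fr_pow_sub_pow F.2 f

theorem za1_inv (c : Aˣ) (x y : A) (a : ℕ) :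
    (c : A) ^ a * x * Ring.inverse (c * y) ^ a = x * Ring.inverse y ^ a := by
  have e : ((c : A) * (c⁻¹ : Aˣ)) ^ a = 1 := by rw [Units.mul_inv, one_pow]
  rw [Ring.mul_inverse_rev, Ring.inverse_unit, mul_pow]
  rw [mul_pow] at e
  linear_combination x * Ring.inverse y ^ a * e

theorem Fr.zn_map (h : IsUnit (ξ E.z0)) (ρ : A →+* A') (a : ℕ) (F : S.ZR) :
    E.zn (ρ.comp ξ) a F = ρ (E.zn ξ a F) := by
  simp only [Fr.zn, RingHom.comp_apply, map_mul, map_pow, tx_inv_map h]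

theorem Fr.zx_map (h : IsUnit (ξ E.z0)) (ρ : A →+* A') (i : ι) :
    E.zx (ρ.comp ξ) i = ρ (E.zx ξ i) := Fr.zn_map h ρ 1 _

theorem Fr.zn_mul (ξ : S.ZR →+* A) (a b : ℕ) (F G : S.ZR) :
    E.zn ξ (a + b) (F * G) = E.zn ξ a F * E.zn ξ b G := by
  simp only [Fr.zn, map_mul, pow_add]
  ring

theorem Fr.zn_add (ξ : S.ZR →+* A) (a : ℕ) (F G : S.ZR) :
    E.zn ξ a (F + G) = E.zn ξ a F + E.zn ξ a G := by
  simp only [Fr.zn, map_add, add_mul]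

theorem Fr.zn_e0 (h : IsUnit (ξ E.z0)) (a n : ℕ) (F : S.ZR) :
    E.zn ξ (a + n) (F * E.z0 ^ n) = E.zn ξ a F := by
  rw [Fr.zn_mul, Fr.zn, Fr.zn, map_pow, ← mul_pow, Ring.mul_inverse_cancel _ h, one_pow, mul_one]

theorem Fr.ZU.map (h : E.ZU ξ) (ρ : A →+* A') : E.ZU (ρ.comp ξ) :=
  ⟨h.u0.map ρ, fun i => (h.u1 i).map ρ⟩

theorem Fr.ZU.zx (h : E.ZU ξ) (i : ι) : IsUnit (E.zx ξ i) :=
  (h.u1 i).mul ((isUnit_ringInverse.2 h.u0).pow 1)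

theorem Fr.ZU.fr [PC p A] (h : E.ZU ξ) (f : ℕ) : E.ZU (ξ.comp (S.frZ ^ f)) :=
  ⟨za1_fr h.u0 f, fun i => za1_fr (h.u1 i) f⟩

theorem za1_dv {c : ι → ℤ} {F : R} (hF : S.Zi F) (hc : S.Sup p c F) (l : ι) :
    S.Dv (S.del l F - (c l : R) * F) := fun T => by
  rw [map_sub, Pi.sub_apply, S.co_del, TW.co_int]
  by_cases h0 : S.co F T = 0
  · exact ⟨0, by simp [h0]⟩
  · obtain ⟨n, hn⟩ := hF T
    obtain ⟨m, hm⟩ := hc T h0 l
    refine ⟨m * n, ?_⟩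
    rw [← sub_mul, ← Int.cast_sub, hm, hn]
    push_cast
    ring

theorem za1_near (h : E.ZU ξ) (i l : ι) :
    (p : A) ∣ E.zJ ξ i l - Matrix.diagonal (E.zx ξ) i l := by
  obtain ⟨a, ha⟩ := za1_dvd ξ (F := S.delZ l (E.z1 i) - ((Pi.single i 1 : ι → ℤ) l : ℤ) * E.z1 i)
    (za1_dv (E.int i) (E.sup i) l)
  obtain ⟨b, hb⟩ := za1_dvd ξ (F := S.delZ l E.z0 - ((0 : ι → ℤ) l : ℤ) * E.z0)
    (za1_dv E.int0 E.sup0 l)
  have hu := Ring.mul_inverse_cancel _ h.u0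
  refine ⟨(ξ E.z0 * a - ξ (E.z1 i) * b) * Ring.inverse (ξ E.z0) ^ 2, ?_⟩
  simp only [map_sub, map_mul, map_intCast, Pi.zero_apply, Int.cast_zero, zero_mul,
    sub_zero] at ha hb
  simp only [Fr.zJ, Fr.zx, Fr.zn, Matrix.of_apply, map_sub, map_mul, Matrix.diagonal_apply]
  by_cases e : i = l
  · subst e
    simp only [if_true, Pi.single_eq_same, Int.cast_one] at ha ⊢
    linear_combination (ξ E.z0 * Ring.inverse (ξ E.z0) ^ 2) * ha -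
      (ξ (E.z1 i) * Ring.inverse (ξ E.z0) ^ 2) * hb +
      (ξ (E.z1 i) * Ring.inverse (ξ E.z0)) * hu
  · simp only [if_neg e, Pi.single_eq_of_ne (Ne.symm e), Int.cast_zero] at ha ⊢
    linear_combination (ξ E.z0 * Ring.inverse (ξ E.z0) ^ 2) * ha -
      (ξ (E.z1 i) * Ring.inverse (ξ E.z0) ^ 2) * hb

theorem Fr.ZU.zJ [PC p A] (h : E.ZU ξ) : IsUnit (E.zJ ξ).det := by
  have h1 : IsUnit (Matrix.diagonal (E.zx ξ)).det := by
    rw [Matrix.det_diagonal]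
    exact IsUnit.prod_univ_iff.2 h.zx
  refine pc_unit p h1 (Ideal.le_radical (Ideal.Quotient.eq.1 ?_))
  rw [RingHom.map_det, RingHom.map_det]
  refine congrArg Matrix.det (Matrix.ext fun i l => ?_)
  exact Ideal.Quotient.eq.2 (Ideal.mem_span_singleton.2 (za1_near h i l))

theorem Fr.ZU.not_dv [PC p A] [Nontrivial A] (h : E.ZU ξ) :
    ¬ S.Dv E.e0 ∧ ∀ i, ¬ S.Dv (E.e i) := by
  have k : ∀ F : S.ZR, IsUnit (ξ F) → ¬ S.Dv (F : R) := fun F hF hd =>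
    one_ne_zero (pc_sep p (y := (1 : A)) fun n =>
      ((isUnit_of_dvd_unit (za1_dvd ξ hd) hF).pow n).dvd)
  exact ⟨k E.z0 h.u0, fun i => k (E.z1 i) (h.u1 i)⟩

theorem Cl.ZS.refl (ξ : S.ZR →+* A) : M.ZS E ξ ξ := fun _ _ _ => rfl

theorem Cl.ZS.symm (h : M.ZS E ξ1 ξ2) : M.ZS E ξ2 ξ1 := fun a F hF => (h a F hF).symm

theorem Cl.ZS.trans (h : M.ZS E ξ1 ξ2) (h' : M.ZS E ξ2 ξ3) : M.ZS E ξ1 ξ3 :=
  fun a F hF => (h a F hF).trans (h' a F hF)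

theorem Cl.ZS.mono (h : W.ZS E ξ1 ξ2) (hs : ∀ a, M.M a ⊆ W.M a) : M.ZS E ξ1 ξ2 :=
  fun a F hF => h a F (hs a hF)

theorem Cl.ZS.map (h : M.ZS E ξ1 ξ2) (h1 : E.ZU ξ1) (h2 : E.ZU ξ2) (ρ : A →+* A') :
    M.ZS E (ρ.comp ξ1) (ρ.comp ξ2) := fun a F hF => by
  rw [Fr.zn_map h1.u0, Fr.zn_map h2.u0, h a F hF]

theorem Cl.ZS.zx (h : M.ZS E ξ1 ξ2) (hA : Ad M E) : E.zx ξ1 = E.zx ξ2 :=
  funext fun i => h 1 _ (hA.e i)

theorem Cl.ZS.exists_c (h : M.ZS E ξ1 ξ2) (h1 : E.ZU ξ1) (h2 : E.ZU ξ2) :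
    ∃ c : Aˣ, ξ1 E.z0 = c * ξ2 E.z0 ∧
      ∀ a (F : S.ZR), (F : R) ∈ M.M a → ξ1 F = (c : A) ^ a * ξ2 F := by
  obtain ⟨w1, e1⟩ := h1.u0
  obtain ⟨w2, e2⟩ := h2.u0
  refine ⟨w1 * w2⁻¹, ?_, fun a F hF => ?_⟩
  · rw [← e1, ← e2, Units.val_mul, Units.inv_mul_cancel_right]
  · have h3 := h a F hF
    have e : ((w1 : A) * (w1⁻¹ : Aˣ)) ^ a = 1 := by rw [Units.mul_inv, one_pow]
    rw [Fr.zn, Fr.zn, ← e1, ← e2, Ring.inverse_unit, Ring.inverse_unit] at h3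
    rw [mul_pow] at e
    rw [Units.val_mul, mul_pow]
    linear_combination (w1 : A) ^ a * h3 - ξ1 F * e

theorem Cl.zs_of_c (hA : Ad M E) (c : Aˣ)
    (h : ∀ a (F : S.ZR), (F : R) ∈ M.M a → ξ1 F = (c : A) ^ a * ξ2 F) : M.ZS E ξ1 ξ2 :=
  fun a F hF => by
    rw [Fr.zn, Fr.zn, h a F hF, h 1 E.z0 hA.e0, pow_one, za1_inv]

theorem Cl.ZS.zx_fr (h : M.ZS E ξ1 ξ2) (hA : Ad M E) (h1 : E.ZU ξ1) (h2 : E.ZU ξ2) :
    E.zx (ξ1.comp S.frZ) = E.zx (ξ2.comp S.frZ) := by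
  obtain ⟨c, -, hc⟩ := h.exists_c h1 h2
  funext i
  have e0 := hc 1 (S.frZ E.z0) hA.fr0
  rw [pow_one] at e0
  simp only [Fr.zx, Fr.zn, RingHom.comp_apply]
  rw [hc 1 (S.frZ (E.z1 i)) (hA.fre i), e0, za1_inv]

theorem Cl.ZS.fr (h : W.ZS E ξ1 ξ2) (hW : W.Tow) (hA : Ad W E) (h1 : E.ZU ξ1) (h2 : E.ZU ξ2)
    (f : ℕ) : W.ZS E (ξ1.comp (S.frZ ^ f)) (ξ2.comp (S.frZ ^ f)) := by
  obtain ⟨c, -, hc⟩ := h.exists_c h1 h2
  refine Cl.zs_of_c hA c fun a F hF => hc a _ ?_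
  rw [TW.coe_frZ_pow]
  exact hW.fr_pow f hF

section Cp

variable {ψ ψ1 ψ2 : R →+* ℂ_[p]}

theorem Fr.Gp.zu (h : E.Gp ψ) : E.ZU h.ch.zr :=
  ⟨oc_unit.2 ((isU_iff (h.ch _ 1 zero_le_one E.int0.bd)).1 h.un.1), fun i =>
    oc_unit.2 ((isU_iff (h.ch _ 1 zero_le_one (E.int i).bd)).1 (h.un.2 i))⟩

theorem Fr.Gp.coe_zn (h : E.Gp ψ) (a : ℕ) (F : S.ZR) :
    ((E.zn h.ch.zr a F : OC p) : ℂ_[p]) = E.nz ψ a F :=
  (Fr.zn_map h.zu.u0 (ov p) a F).symm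

theorem Fr.Gp.coe_zx (h : E.Gp ψ) (i : ι) :
    ((E.zx h.ch.zr i : OC p) : ℂ_[p]) = E.xc ψ i :=
  h.coe_zn 1 _

theorem Ad.zs_iff (hA : Ad M E) (h1 : E.Gp ψ1) (h2 : E.Gp ψ2) :
    M.ZS E h1.ch.zr h2.ch.zr ↔ M.Sim ψ1 ψ2 := by
  refine ⟨fun h => Cl.sim_of_nz h1.unit h2.unit fun a F hF => ?_, fun h a F hF => Subtype.ext ?_⟩
  · have h3 := congrArg Subtype.val (h a ⟨F, M.int a F hF⟩ hF)
    exact (h1.coe_zn a _).symm.trans (h3.trans (h2.coe_zn a _))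
  · exact (h1.coe_zn a F).trans ((h.nz hA.e0 h2.unit hF).trans (h2.coe_zn a F).symm)

theorem TW.Ch.zr_map (h : S.Ch ψ) {s : ℂ_[p] →+* ℂ_[p]} (hs : UAP.Iso s) (h' : S.Ch (s.comp ψ)) :
    h'.zr = (resO s hs).comp h.zr := rfl

theorem TW.Ch.zr_fr (h : S.Ch ψ) (f : ℕ) (h' : S.Ch (ψ.comp (S.fr ^ f))) :
    h'.zr = h.zr.comp (S.frZ ^ f) :=
  RingHom.ext fun F => Subtype.ext (congrArg ψ (TW.coe_frZ_pow f F).symm)

end Cp

/-! Part 2. -/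

/-- As `Ad.recur`. -/
theorem Ad.zrec (h : Ad M E) {a : ℕ} {F : S.ZR} (hF : (F : R) ∈ M.M a) :
    ∃ (b : (ι → Fin p) → ℕ) (G H : (ι → Fin p) → S.ZR),
      (∀ m, (G m : R) = E.car a m F ∧ b m = (p + 1) * (a + dgm m) ∧ (G m : R) ∈ M.M (b m) ∧
        (H m : R) ∈ M.M (p * b m)) ∧
      ∀ (B : Type) [CommRing B] (ξ : S.ZR →+* B), E.ZU ξ →
        E.zn ξ a F = ∑ m : ι → Fin p, (∏ i, Ring.inverse (E.zx ξ i) ^ (m i : ℕ)) *
          (E.zn ξ (b m) (G m) ^ p + p * E.zn ξ (p * b m) (H m)) := by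
  have hm : ∀ m, S.fr (S.up (F * E.em m)) * E.e0 ^ ((p * (p + 1) - 1) * (a + dgm m)) -
      E.car a m F ^ p ∈ M.M (p * ((p + 1) * (a + dgm m))) := fun m => by
    have h1 := M.mul _ _ _ (M.frup _ _ (M.mul _ _ _ hF _ (h.em_mem m))) _
      (M.pow h.e0 ((p * (p + 1) - 1) * (a + dgm m)))
    have h2 := M.pow (h.car_mem hF m) p
    rw [mul_one, crec_exp', mul_assoc p] at h1
    exact M.sub h1 h2
  choose G hG eG using fun m => M.div _ _ (hm m) (h.car_dv hF m)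
  refine ⟨fun m => (p + 1) * (a + dgm m), fun m => ⟨E.car a m F, M.int _ _ (h.car_mem hF m)⟩,
    fun m => ⟨G m, M.int _ _ (hG m)⟩, fun m => ⟨rfl, rfl, h.car_mem hF m, hG m⟩,
    fun B _ ψ hu => ?_⟩
  have u0 : ψ E.z0 * Ring.inverse (ψ E.z0) = 1 := Ring.mul_inverse_cancel _ hu.u0
  have ux : ∀ i, Ring.inverse (E.zx ψ i) * E.zx ψ i = 1 := fun i =>
    Ring.inverse_mul_cancel _ (hu.zx i)
  let cs : (ι → Fin p) → S.ZR := fun m =>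
    ⟨S.cs p (-rp m) F, TW.Zi.cs F.2 (Fact.out : p.Prime).pos _⟩
  have e0 : F = ∑ m, cs m := by
    refine Subtype.ext ?_
    rw [AddSubmonoidClass.coe_finsetSum]
    exact E.split F
  conv_lhs => rw [Fr.zn, e0, map_sum, Finset.sum_mul]
  refine Finset.sum_congr rfl fun m _ => ?_
  have e6 : cs m * (∏ i, E.z1 i ^ (m i : ℕ)) * E.z0 ^ ((p * (p + 1) - 1) * (a + dgm m)) -
      (⟨E.car a m F, M.int _ _ (h.car_mem hF m)⟩ : S.ZR) ^ p =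
      p * (⟨G m, M.int _ _ (hG m)⟩ : S.ZR) := by
    refine Subtype.ext (Eq.trans ?_ (eG m))
    rw [← E.cs_em]
    simp only [cs, Fr.em, Fr.z0, Fr.z1, AddSubgroupClass.coe_sub, MulMemClass.coe_mul,
      SubmonoidClass.coe_pow, SubmonoidClass.coe_finsetProd]
  have e1 := congrArg ψ e6
  rw [map_sub, map_mul, map_mul, map_mul, map_pow, map_pow, map_natCast] at e1
  have e2 : ∏ i, E.zx ψ i ^ (m i : ℕ) =
      ψ (∏ i, E.z1 i ^ (m i : ℕ)) * Ring.inverse (ψ E.z0) ^ dgm m := by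
    simp only [Fr.zx, Fr.zn, dgm, pow_one, mul_pow, Finset.prod_mul_distrib, map_prod,
      map_pow, Finset.prod_pow_eq_pow_sum]
  have e3 : (∏ i, Ring.inverse (E.zx ψ i) ^ (m i : ℕ)) * ∏ i, E.zx ψ i ^ (m i : ℕ) = 1 := by
    rw [← Finset.prod_mul_distrib]
    exact Finset.prod_eq_one fun i _ => by rw [← mul_pow, ux, one_pow]
  have e4 : E.zn ψ ((p + 1) * (a + dgm m)) ⟨E.car a m F, M.int _ _ (h.car_mem hF m)⟩ ^ p +
      p * E.zn ψ (p * ((p + 1) * (a + dgm m))) ⟨G m, M.int _ _ (hG m)⟩ =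
      (∏ i, E.zx ψ i ^ (m i : ℕ)) * (ψ (cs m) * Ring.inverse (ψ E.z0) ^ a) := by
    have e5 : ψ E.z0 ^ ((p * (p + 1) - 1) * (a + dgm m)) *
        Ring.inverse (ψ E.z0) ^ (p * (p + 1) * (a + dgm m)) =
        Ring.inverse (ψ E.z0) ^ a * Ring.inverse (ψ E.z0) ^ dgm m := by
      rw [← crec_exp', pow_add, mul_left_comm, ← mul_pow, u0, one_pow, mul_one, pow_add]
    rw [mul_assoc p] at e5
    rw [e2, Fr.zn, Fr.zn, mul_pow, ← pow_mul, mul_comm _ p]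
    linear_combination (-Ring.inverse (ψ E.z0) ^ (p * ((p + 1) * (a + dgm m)))) * e1 +
      ψ (cs m) * ψ (∏ i, E.z1 i ^ (m i : ℕ)) * e5
  rw [e4, ← mul_assoc, e3, one_mul]

theorem za2_pow {I J : Ideal A} (hp : (p : A) ∈ I) (hJ : J ≤ I) {x y : A} (h : x - y ∈ J) :
    x ^ p - y ^ p ∈ I * J := by
  have hq : p.Prime := Fact.out
  have e := add_pow_prime_eq hq y (x - y)
  rw [add_sub_cancel] at e
  rw [e, add_assoc, add_sub_cancel_left, ← pow_sub_one_mul hq.ne_zero (x - y)]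
  refine Ideal.add_mem _ (Ideal.mul_mem_mul (Ideal.pow_mem_of_mem _ (hJ h) _ ?_) h)
    (Ideal.mul_mem_right _ _ (Ideal.mul_mem_mul (Ideal.mul_mem_right _ _ hp) h))
  have := hq.two_le
  omega

theorem za2_inv {I : Ideal A} {x y : A} (hx : IsUnit x) (hy : IsUnit y) (h : x - y ∈ I) :
    Ring.inverse x - Ring.inverse y ∈ I := by
  have e : Ring.inverse x - Ring.inverse y = -(Ring.inverse x * Ring.inverse y) * (x - y) := by
    linear_combination (-Ring.inverse x) * Ring.inverse_mul_cancel y hy +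
      Ring.inverse y * Ring.inverse_mul_cancel x hx
  rw [e]
  exact I.mul_mem_left _ h

theorem za2_sub {a b : ℕ} {F G : S.ZR} (e : S.Dv ((F : R) * E.e0 ^ b - (G : R) * E.e0 ^ a))
    (hu : E.ZU ξ) : (p : A) ∣ E.zn ξ a F - E.zn ξ b G := by
  obtain ⟨H, hH⟩ := (TW.zr_dv (F := F * E.z0 ^ b - G * E.z0 ^ a)).1 e
  refine ⟨E.zn ξ (a + b) H, ?_⟩
  rw [← Fr.zn_e0 hu.u0 a b F, ← Fr.zn_e0 hu.u0 b a G, add_comm b a, Fr.zn, Fr.zn, Fr.zn,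
    ← sub_mul, ← map_sub, hH, map_mul, map_natCast, mul_assoc]

/-- One step of the recursion. -/
theorem Ad.zstep (h : Ad M E) (h1 : E.ZU ξ1) (h2 : E.ZU ξ2) {I J : Ideal A} (hp : (p : A) ∈ I)
    (hJ : J ≤ I) (hx : ∀ i, E.zx ξ1 i - E.zx ξ2 i ∈ I * J)
    (hn : ∀ a (F : S.ZR), (F : R) ∈ M.M a → E.zn ξ1 a F - E.zn ξ2 a F ∈ J)
    (a : ℕ) (F : S.ZR) (hF : (F : R) ∈ M.M a) : E.zn ξ1 a F - E.zn ξ2 a F ∈ I * J := by
  obtain ⟨b, G, H, hm, e⟩ := h.zrec hF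
  rw [← Ideal.Quotient.eq, e A ξ1 h1, e A ξ2 h2, map_sum, map_sum]
  refine Finset.sum_congr rfl fun m _ => ?_
  rw [map_mul, map_mul, map_add, map_add, map_prod, map_prod]
  refine congrArg₂ (· * ·) (Finset.prod_congr rfl fun i _ => ?_) (congrArg₂ (· + ·) ?_ ?_)
  · rw [map_pow, map_pow, Ideal.Quotient.eq.2 (za2_inv (h1.zx i) (h2.zx i) (hx i))]
  · exact Ideal.Quotient.eq.2 (za2_pow hp hJ (hn _ _ (hm m).2.2.1))
  · rw [Ideal.Quotient.eq, ← mul_sub]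
    exact Ideal.mul_mem_mul hp (hn _ _ (hm m).2.2.2)

theorem Ad.zuniq (h : Ad M E) (h1 : E.ZU ξ1) (h2 : E.ZU ξ2) (I : Ideal A) (hp : (p : A) ∈ I)
    (hI : ∀ y, (∀ N, y ∈ I ^ N) → y = 0) (hx : E.zx ξ1 = E.zx ξ2)
    (hn : ∀ a (F : S.ZR), (F : R) ∈ M.M a → E.zn ξ1 a F - E.zn ξ2 a F ∈ I) : M.ZS E ξ1 ξ2 := by
  have key : ∀ N a (F : S.ZR), (F : R) ∈ M.M a → E.zn ξ1 a F - E.zn ξ2 a F ∈ I ^ (N + 1) := by
    intro N
    induction N with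
    | zero => simpa using hn
    | succ N ih =>
      rw [pow_succ']
      exact h.zstep h1 h2 hp (Ideal.pow_le_self N.succ_ne_zero)
        (fun i => by rw [hx, sub_self]; exact Ideal.zero_mem _) ih
  exact fun a F hF => sub_eq_zero.1 (hI _ fun N => Ideal.pow_le_pow_right N.le_succ (key N a F hF))

theorem Ad.zuniq_ps [PC p A] {σ : Type} [Finite σ] (h : Ad M E) {ξ1 ξ2 : S.ZR →+* PS σ A}
    (h1 : E.ZU ξ1) (h2 : E.ZU ξ2) (hx : E.zx ξ1 = E.zx ξ2)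
    (hn : M.ZS E (constantCoeff.comp ξ1) (constantCoeff.comp ξ2)) : M.ZS E ξ1 ξ2 := by
  let x : Option σ → PS σ A := fun o => o.elim (p : PS σ A) X
  have hx' : Ev x := ev_ps p fun o => by
    cases o with
    | none =>
      change PN p (constantCoeff (p : PS σ A))
      rw [map_natCast]
      exact Ideal.le_radical (Ideal.mem_span_singleton_self _)
    | some i =>
      change PN p (constantCoeff (X i : PS σ A))
      rw [constantCoeff_X]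
      exact Ideal.zero_mem _
  refine h.zuniq h1 h2 (Ideal.span (Set.range x)) (Ideal.subset_span ⟨none, rfl⟩)
    (fun y hy => hx'.sep hy) hx fun a F hF => ?_
  have e := hn a F hF
  rw [Fr.zn_map h1.u0, Fr.zn_map h2.u0, ← sub_eq_zero, ← map_sub] at e
  have k : E.zn ξ1 a F - E.zn ξ2 a F ∈ Ideal.span (Set.range (X : σ → PS σ A)) ^ 1 :=
    mem_X_pow.2 fun ν hν => by
      have : ν = 0 := (Finsupp.degree_eq_zero_iff ν).1 (by omega)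
      rw [this, coeff_zero_eq_constantCoeff_apply, e]
  rw [pow_one] at k
  refine Ideal.span_mono ?_ k
  rintro _ ⟨i, rfl⟩
  exact ⟨some i, rfl⟩

/-- As `Ad.sim_of_xc`: on the finite system of `Ad.sys` the differences are divisible by `p`. -/
theorem Ad.zec (h : Ad M E) {ξ1 ξ2 : S.ZR →+* OC p} (h1 : E.ZU ξ1) (h2 : E.ZU ξ2)
    (hx : E.zx ξ1 = E.zx ξ2)
    (hn : M.ZS E ((red p).comp ξ1) ((red p).comp ξ2)) : M.ZS E ξ1 ξ2 := by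
  refine h.zuniq h1 h2 (Ideal.span {(p : OC p)}) (Ideal.mem_span_singleton_self _)
    (fun y hy => pc_sep p fun k => ?_) hx fun a F hF => ?_
  · have := hy k
    rwa [Ideal.span_singleton_pow, Ideal.mem_span_singleton] at this
  obtain ⟨τ, hτ, b, G, s0, nx, hG, k1, k2⟩ := h.sys h1.not_dv.1 h1.not_dv.2 hF
  let Gz : τ → S.ZR := fun s => ⟨G s, M.int _ _ (hG s)⟩
  set P : Ideal (OC p) := Ideal.span {(p : OC p)} with hP
  have hp : (p : OC p) ∈ P := Ideal.mem_span_singleton_self _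
  let d : τ → OC p := fun s => E.zn ξ1 (b s) (Gz s) - E.zn ξ2 (b s) (Gz s)
  set K : Ideal (OC p) := Ideal.span (Set.range d) with hK
  have k3 : K ≤ P.radical := Ideal.span_le.2 (by
    rintro _ ⟨s, rfl⟩
    have e := hn (b s) (Gz s) (hG s)
    rw [Fr.zn_map h1.u0, Fr.zn_map h2.u0, ← sub_eq_zero, ← map_sub, red_eq_zero] at e
    exact pn_iff.2 e)
  obtain ⟨N, hN⟩ := Ideal.exists_pow_le_of_le_radical_of_fg k3
    (Submodule.fg_span (Set.finite_range d))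
  have k4 : K ≤ K * K ⊔ P := Ideal.span_le.2 (by
    rintro _ ⟨s, rfl⟩
    obtain ⟨b', G', H, hm, e⟩ := h.zrec (F := Gz s) (hG s)
    have q0 : Ideal.Quotient.mk (K * K ⊔ P) (p : OC p) = 0 :=
      Ideal.Quotient.eq_zero_iff_mem.2 (Ideal.mem_sup_right hp)
    have q1 : ∀ ξ : S.ZR →+* OC p, E.ZU ξ → ∀ m,
        Ideal.Quotient.mk (K * K ⊔ P) (E.zn ξ (b' m) (G' m)) =
          Ideal.Quotient.mk (K * K ⊔ P) (E.zn ξ (b (nx s m)) (Gz (nx s m))) := fun ξ hu m =>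
      Ideal.Quotient.eq.2 (Ideal.mem_sup_right (Ideal.mem_span_singleton.2 (za2_sub (by
        rw [(hm m).1, (hm m).2.1]
        exact k2 s m) hu)))
    change _ - _ ∈ K * K ⊔ P
    rw [← Ideal.Quotient.eq, e _ ξ1 h1, e _ ξ2 h2, map_sum, map_sum, hx]
    refine Finset.sum_congr rfl fun m _ => ?_
    rw [map_mul, map_mul, map_add, map_add, map_mul, map_mul, q0, zero_mul, zero_mul, map_pow,
      map_pow, q1 _ h1, q1 _ h2, ← map_pow, ← map_pow]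
    refine congrArg (fun y => _ * (y + 0)) (Ideal.Quotient.eq.2 ?_)
    have q2 := za2_pow (p := p) (I := K ⊔ P) (J := K) (Ideal.mem_sup_right hp) le_sup_left
      (Ideal.subset_span ⟨nx s m, rfl⟩)
    rw [Ideal.sup_mul] at q2
    exact (sup_le_sup_left Ideal.mul_le_left (K * K) : K * K ⊔ P * K ≤ K * K ⊔ P) q2)
  have k5 : ∀ n, K ≤ K ^ (n + 1) ⊔ P := fun n => by
    induction n with
    | zero => simp
    | succ n ih =>
      refine k4.trans (sup_le ((Ideal.mul_mono_left ih).trans ?_) le_sup_right)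
      rw [Ideal.sup_mul, ← pow_succ]
      exact sup_le_sup_left Ideal.mul_le_left _
  have k6 : d s0 ∈ P := (sup_le ((Ideal.pow_le_pow_right N.le_succ).trans hN) le_rfl :
    K ^ (N + 1) ⊔ P ≤ P) (k5 N (Ideal.subset_span ⟨s0, rfl⟩))
  have k7 := fun (ξ : S.ZR →+* OC p) (hu : E.ZU ξ) =>
    Ideal.mem_span_singleton.2 (za2_sub (F := F) (G := Gz s0) k1 hu)
  have e : E.zn ξ1 a F - E.zn ξ2 a F = (E.zn ξ1 a F - E.zn ξ1 (b s0) (Gz s0)) + d s0 -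
      (E.zn ξ2 a F - E.zn ξ2 (b s0) (Gz s0)) := by
    simp only [d]
    ring
  rw [e]
  exact P.sub_mem (P.add_mem (k7 _ h1) k6) (k7 _ h2)

end Pool.Agent.E7
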