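import Pool.Agent.Lib.MP_7e5527_ag.EA.ZA
import Pool.Agent.Lib.MP_7e5527_ag.EA.AX

/-! The series of a character. -/

open MvPowerSeries Filter Topology Matrix

noncomputable section

namespace Pool.Agent.E7

variable {ι : Type} [Fintype ι] [DecidableEq ι] {p : ℕ} [Fact p.Prime] {Co : Cone ι} {R : Type}
  [CommRing R] {S : TW p Co R} {M W : Cl S} {E : Fr S}

variable {A A' : Type} [CommRing A] [CommRing A'] [PC p A] [PC p A']

/-- The sums that approximate the coefficients. -/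
def TW.ams (S : TW p Co R) (ξ : S.ZR →+* A) (G : S.ZR) (ν : ι →₀ ℕ) (j : ℕ) : A :=
  ∑ c : ι → Fin (p ^ j), ((∏ i, (c i : ℕ).choose (ν i) : ℕ) : A) * ξ (S.csZ j (rp c) G)

/-! Part 1. -/

section ZB1

variable {Q : Type} [CommRing Q]

/-- The twisted sums, additive in the series. -/
def zb1T (S : TW p Co R) (η : S.ZR →+* Q) (w : (ι → ℤ) → Q) (j : ℕ) : S.ZR →+ Q :=
  AddMonoidHom.mk' (fun G => ∑ c : ι → Fin (p ^ j), w (rp c) * η (S.csZ j (rp c) G)) fun F G => by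
    rw [← Finset.sum_add_distrib]
    refine Finset.sum_congr rfl fun c _ => ?_
    rw [← mul_add, ← map_add]
    congr 2
    exact Subtype.ext (TW.cs_add (pow_pos (Fact.out : p.Prime).pos j) _ _ _)

theorem zb1T_apply (η : S.ZR →+* Q) (w : (ι → ℤ) → Q) (j : ℕ) (G : S.ZR) :
    zb1T S η w j G = ∑ c : ι → Fin (p ^ j), w (rp c) * η (S.csZ j (rp c) G) := rfl

theorem zb1_sum (j : ℕ) (G : S.ZR) : ∑ c : ι → Fin (p ^ j), S.csZ j (rp c) G = G :=
  Subtype.ext (by
    rw [AddSubmonoidClass.coe_finsetSum]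
    exact TW.cs_sum (pow_pos (Fact.out : p.Prime).pos j) _)

theorem zb1_sup {η : S.ZR →+* Q} {u : ι → Qˣ} {j : ℕ} (hu : ∀ i, u i ^ p ^ j = 1) {d : ι → ℤ}
    {G : S.ZR} (h : S.Sup (p ^ j) d G) : zb1T S η (umon u) j G = umon u d * η G := by
  have hj := pow_pos (Fact.out : p.Prime).pos j
  obtain ⟨c₀, h0, h1⟩ := exists_rp hj d
  rw [zb1T_apply, Finset.sum_eq_single c₀ (fun c _ hc => ?_) (by simp), umon_cg hu h0]
  · congr 2
    exact Subtype.ext (TW.Sup.cs_eq hj fun T hT => (h T hT).trans h0)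
  · have : S.csZ j (rp c) G = 0 := Subtype.ext (TW.ext_co (S := S) fun T => by
      show S.co (S.cs _ _ _) T = S.co 0 T
      rw [S.co_cs _ _ _ _ hj, map_zero, Pi.zero_apply]
      split_ifs with h2
      · by_contra h3
        exact hc (h1 c ((h T h3).symm.trans h2))
      · rfl)
    rw [this, map_zero, mul_zero]

theorem zb1_ref {η : S.ZR →+* Q} {u : ι → Qˣ} {j j' : ℕ} (hu : ∀ i, u i ^ p ^ j = 1) (hj : j ≤ j')
    (G : S.ZR) : zb1T S η (umon u) j' G = zb1T S η (umon u) j G := by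
  conv_rhs => rw [← zb1_sum j' G, map_sum]
  rw [zb1T_apply]
  refine Finset.sum_congr rfl fun c _ => (zb1_sup hu fun T hT => ?_).symm
  exact (TW.Sup.cs (pow_pos (Fact.out : p.Prime).pos j') _ _ T hT).mono (pow_dvd_pow p hj)

theorem zb1_mul {η : S.ZR →+* Q} {u : ι → Qˣ} {j : ℕ} (hu : ∀ i, u i ^ p ^ j = 1) (F G : S.ZR) :
    zb1T S η (umon u) j (F * G) = zb1T S η (umon u) j F * zb1T S η (umon u) j G := by
  have hj := pow_pos (Fact.out : p.Prime).pos j
  conv_lhs => rw [← zb1_sum j F, ← zb1_sum j G, Finset.sum_mul_sum, map_sum]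
  rw [zb1T_apply η _ j F, zb1T_apply η _ j G, Finset.sum_mul_sum]
  refine Finset.sum_congr rfl fun a _ => ?_
  rw [map_sum]
  refine Finset.sum_congr rfl fun b _ => ?_
  rw [zb1_sup hu (d := rp a + rp b) ((TW.Sup.cs hj _ _).mul (TW.Sup.cs hj _ _)), umon_add, map_mul]
  exact mul_mul_mul_comm _ _ _ _

omit [Fact p.Prime] in
theorem zb1_nil {x : Q} (hp : IsNilpotent (p : Q)) (hx : IsNilpotent x) :
    ∀ᶠ j in atTop, (1 + x) ^ p ^ j = 1 := by
  let J : Ideal Q := Ideal.span {(p : Q), x}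
  have hJ : ∀ j, (1 + x) ^ p ^ j - 1 ∈ J ^ (j + 1) := by
    intro j
    induction j with
    | zero => simpa using Ideal.subset_span (by simp)
    | succ j ih =>
      have h1 : (1 + x) ^ p ^ j - 1 ∈ J := Ideal.pow_le_self (Nat.succ_ne_zero j) ih
      have h2 : ∑ i ∈ Finset.range p, ((1 + x) ^ p ^ j) ^ i ∈ J := by
        have h3 : ∑ i ∈ Finset.range p, ((1 + x) ^ p ^ j) ^ i =
            ∑ i ∈ Finset.range p, (((1 + x) ^ p ^ j) ^ i - 1) + p := by
          simp [Finset.sum_sub_distrib]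
        rw [h3]
        refine J.add_mem (J.sum_mem fun i _ => ?_) (Ideal.subset_span (by simp))
        obtain ⟨y, hy⟩ := sub_one_dvd_pow_sub_one ((1 + x) ^ p ^ j) i
        rw [hy]
        exact J.mul_mem_right _ h1
      rw [pow_succ p, pow_mul, ← mul_geom_sum, pow_succ J]
      exact Ideal.mul_mem_mul ih h2
  obtain ⟨n, hn⟩ : IsNilpotent J :=
    (Ideal.FG.isNilpotent_iff_le_nilradical (Submodule.fg_span (Set.toFinite _))).2
      (Ideal.span_le.2 (by
        rintro y (rfl | rfl)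
        exacts [hp, hx]))
  filter_upwards [eventually_ge_atTop n] with j hj
  have := Ideal.pow_le_pow_right (hj.trans (Nat.le_succ j)) (hJ j)
  rw [hn] at this
  exact sub_eq_zero.1 this

/-- Series whose coefficients of degree less than `N` are divisible by `p ^ k`. -/
def zb1I (p : ℕ) (ι A : Type) [DecidableEq ι] [CommRing A] (k N : ℕ) : Ideal (PS ι A) where
  carrier := {f | ∀ ν : ι →₀ ℕ, ν.degree < N → (p : A) ^ k ∣ coeff ν f}
  add_mem' hf hg ν hν := by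
    rw [map_add]
    exact (hf ν hν).add (hg ν hν)
  zero_mem' ν _ := by simp
  smul_mem' g f hf ν hν := by
    rw [smul_eq_mul, coeff_mul]
    refine Finset.dvd_sum fun x hx => (hf _ ?_).mul_left _
    rw [← Finset.HasAntidiagonal.mem_antidiagonal.1 hx, map_add] at hν
    omega

/-- The monomials in `1 + t`. -/
def zb1w (A : Type) [CommRing A] (T : ι → ℤ) : PS ι A := ∏ i, (1 + X i) ^ (T i).toNat

omit [PC p A] in
theorem zb1_coeff (ξ : S.ZR →+* A) (G : S.ZR) (ν : ι →₀ ℕ) (j : ℕ) :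
    coeff ν (zb1T S ((C : A →+* PS ι A).comp ξ) (zb1w A) j G) = S.ams ξ G ν j := by
  rw [zb1T_apply, map_sum]
  refine Finset.sum_congr rfl fun c _ => ?_
  rw [RingHom.comp_apply, coeff_mul_C]
  congr 1
  have h : zb1w A (rp c) = ((∏ i, (1 + MvPolynomial.X i) ^ (c i : ℕ) : MvPolynomial ι A) :
      PS ι A) := by
    rw [← MvPolynomial.coeToMvPowerSeries.ringHom_apply]
    simp [zb1w, rp, map_prod]
  rw [h, MvPolynomial.coeff_coe]
  simp only [add_comm (1 : MvPolynomial ι A), add_pow, one_pow, mul_one]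
  rw [Finset.prod_univ_sum, MvPolynomial.coeff_sum]
  simp only [Finset.prod_mul_distrib, ← map_natCast (MvPolynomial.C (σ := ι) (R := A)),
    ← map_prod (MvPolynomial.C (σ := ι) (R := A)), mul_comm _ (MvPolynomial.C _),
    MvPolynomial.coeff_C_mul, MvPolynomial.coeff_prod_X_pow, ← Nat.cast_prod]
  rw [Finset.sum_eq_single (⇑ν) (fun b _ hb => ?_) fun hb => ?_]
  · rw [if_pos (by ext i; simp), mul_one]
  · rw [if_neg (fun h => hb (by ext i; simp [h])), mul_zero]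
  · simp only [Fintype.mem_piFinset, Finset.mem_range, not_forall, not_lt] at hb
    obtain ⟨i, hi⟩ := hb
    rw [Finset.prod_eq_zero (Finset.mem_univ i) (Nat.choose_eq_zero_of_lt hi), Nat.cast_zero,
      zero_mul]

omit [PC p A] in
/-- Modulo `zb1I k N` the elements `1 + t` have finite order. -/
theorem zb1_quot (k N : ℕ) : ∃ u : ι → (PS ι A ⧸ zb1I p ι A k N)ˣ,
    (∀ᶠ j in atTop, ∀ i, u i ^ p ^ j = 1) ∧ ∀ (ξ : S.ZR →+* A) j G,
      Ideal.Quotient.mk (zb1I p ι A k N) (zb1T S ((C : A →+* PS ι A).comp ξ) (zb1w A) j G) =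
        zb1T S (((Ideal.Quotient.mk (zb1I p ι A k N)).comp C).comp ξ) (umon u) j G := by
  have hX : ∀ i, IsNilpotent (Ideal.Quotient.mk (zb1I p ι A k N) (X i)) := fun i =>
    ⟨N, by
      rw [← map_pow, Ideal.Quotient.eq_zero_iff_mem]
      intro ν hν
      rw [coeff_X_pow, if_neg]
      · exact dvd_zero _
      · rintro rfl
        simp at hν⟩
  have hp : IsNilpotent (p : PS ι A ⧸ zb1I p ι A k N) := ⟨k, by
    rw [← map_natCast (Ideal.Quotient.mk (zb1I p ι A k N)), ← map_pow,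
      Ideal.Quotient.eq_zero_iff_mem]
    intro ν _
    rw [← map_natCast (C : A →+* PS ι A), ← map_pow, ← mul_one (C _), coeff_C_mul]
    exact dvd_mul_right _ _⟩
  refine ⟨fun i => ((hX i).isUnit_one_add).unit, eventually_all.2 fun i =>
    (zb1_nil hp (hX i)).mono fun j hj => Units.ext (by simpa using hj), fun ξ j G => ?_⟩
  rw [zb1T_apply, zb1T_apply, map_sum]
  refine Finset.sum_congr rfl fun c _ => ?_
  rw [map_mul]
  congr 1
  simp [zb1w, umon, rp, map_prod]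

end ZB1

/-- The sums are the coefficients of `∑ c, (1 + t) ^ c * ξ (cs c G)`; modulo `p ^ k` and
`t ^ N` the series `(1 + t) ^ c` only depends on `c` modulo a power of `p`. -/
theorem TW.exists_am (S : TW p Co R) (ξ : S.ZR →+* A) : ∃ Φ : S.ZR →+* PS ι A,
    ∀ G ν k, ∀ᶠ j in atTop, (p : A) ^ k ∣ coeff ν (Φ G) - S.ams ξ G ν j := by
  let P := zb1T S ((C : A →+* PS ι A).comp ξ) (zb1w A)
  have hc : ∀ k N, ∃ j₀, ∀ j, j₀ ≤ j → ∀ G, P j G - P j₀ G ∈ zb1I p ι A k N := fun k N => by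
    obtain ⟨u, h1, h2⟩ := zb1_quot (S := S) (A := A) k N
    obtain ⟨j₀, h0⟩ := h1.exists
    exact ⟨j₀, fun j hj G => Ideal.Quotient.eq.1 (by rw [h2, h2, zb1_ref h0 hj])⟩
  have hl : ∀ G ν, ∃ y : A, ∀ k, ∀ᶠ j in atTop, (p : A) ^ k ∣ y - coeff ν (P j G) := by
    intro G ν
    choose j₀ h0 using fun k => hc k (ν.degree + 1)
    have h1 : ∀ k j j', j₀ k ≤ j → j₀ k ≤ j' → (p : A) ^ k ∣ coeff ν (P j G) - coeff ν (P j' G) :=
      fun k j j' hj hj' => by
        have := (h0 k j hj G ν (Nat.lt_succ_self _)).sub (h0 k j' hj' G ν (Nat.lt_succ_self _))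
        rwa [map_sub, map_sub, sub_sub_sub_cancel_right] at this
    let m : ℕ → ℕ := fun k => ∑ i ∈ Finset.range (k + 1), j₀ i
    have hm : ∀ k, j₀ k ≤ m k := fun k =>
      Finset.single_le_sum (fun _ _ => Nat.zero_le _) (Finset.self_mem_range_succ k)
    obtain ⟨y, hy⟩ := pc_lim p (fun k => coeff ν (P (m k) G)) fun k =>
      h1 k _ _ ((hm k).trans (by simp [m, Finset.sum_range_succ _ (k + 1)])) (hm k)
    refine ⟨y, fun k => (eventually_ge_atTop (j₀ k)).mono fun j hj => ?_⟩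
    have := (hy k).add (h1 k _ _ (hm k) hj)
    rwa [sub_add_sub_cancel] at this
  choose Φ hΦ using hl
  let Ψ : S.ZR → PS ι A := fun G ν => Φ G ν
  have h2 : ∀ G k N, ∀ᶠ j in atTop, Ψ G - P j G ∈ zb1I p ι A k N := fun G k N => by
    obtain ⟨j₀, h0⟩ := hc k N
    filter_upwards [eventually_ge_atTop j₀] with j hj ν hν
    obtain ⟨j', h3, h4⟩ := ((hΦ G ν k).and (eventually_ge_atTop j₀)).exists
    have := h3.add ((h0 j' h4 G ν hν).sub (h0 j hj G ν hν))
    rwa [map_sub, map_sub, sub_sub_sub_cancel_right, sub_add_sub_cancel] at this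
  have sep : ∀ f g : PS ι A, (∀ k N, Ideal.Quotient.mk (zb1I p ι A k N) f =
      Ideal.Quotient.mk (zb1I p ι A k N) g) → f = g := fun f g h => by
    ext ν
    exact sub_eq_zero.1 (pc_sep p fun k => by
      rw [← map_sub]
      exact Ideal.Quotient.eq.1 (h k (ν.degree + 1)) ν (Nat.lt_succ_self _))
  have key : ∀ k N, ∃ (u : ι → (PS ι A ⧸ zb1I p ι A k N)ˣ) (j : ℕ), (∀ i, u i ^ p ^ j = 1) ∧
      ∀ G, Ideal.Quotient.mk (zb1I p ι A k N) (Ψ G) =
        zb1T S (((Ideal.Quotient.mk (zb1I p ι A k N)).comp C).comp ξ) (umon u) j G := by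
    intro k N
    obtain ⟨u, h1, h3⟩ := zb1_quot (S := S) (A := A) k N
    obtain ⟨j₀, h0⟩ := h1.exists
    refine ⟨u, j₀, h0, fun G => ?_⟩
    obtain ⟨j, h4, h5⟩ := ((h2 G k N).and (eventually_ge_atTop j₀)).exists
    rw [Ideal.Quotient.eq.2 h4, h3, zb1_ref h0 h5]
  refine ⟨⟨⟨⟨Ψ, sep _ _ fun k N => ?_⟩, fun F G => sep _ _ fun k N => ?_⟩, sep _ _ fun k N => ?_,
    fun F G => sep _ _ fun k N => ?_⟩, fun G ν k => ?_⟩
  · obtain ⟨u, j, h0, h1⟩ := key k N
    rw [h1, zb1_sup h0 (TW.Sup.one _), umon_zero, map_one, map_one, one_mul]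
  · obtain ⟨u, j, h0, h1⟩ := key k N
    simp only [map_mul, h1, zb1_mul h0]
  · obtain ⟨u, j, h0, h1⟩ := key k N
    simp only [map_zero, h1]
  · obtain ⟨u, j, h0, h1⟩ := key k N
    simp only [map_add, h1]
  · exact (hΦ G ν k).mono fun j hj => by rwa [zb1_coeff] at hj

/-- The series of a character. -/
def TW.am (S : TW p Co R) (ξ : S.ZR →+* A) : S.ZR →+* PS ι A := (S.exists_am ξ).choose

theorem TW.am_spec (ξ : S.ZR →+* A) (G : S.ZR) (ν : ι →₀ ℕ) (k : ℕ) :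
    ∀ᶠ j in atTop, (p : A) ^ k ∣ coeff ν (S.am ξ G) - S.ams ξ G ν j :=
  (S.exists_am ξ).choose_spec G ν k

variable {ξ ξ1 ξ2 : S.ZR →+* A}

theorem TW.am_const (ξ : S.ZR →+* A) (G : S.ZR) : constantCoeff (S.am ξ G) = ξ G := by
  refine sub_eq_zero.1 (pc_sep p fun k => ?_)
  obtain ⟨j, hj⟩ := (TW.am_spec ξ G 0 k).exists
  simp only [TW.ams, Finsupp.coe_zero, Pi.zero_apply, Nat.choose_zero_right, Finset.prod_const_one,
    Nat.cast_one, one_mul, ← map_sum, zb1_sum] at hj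
  exact hj

theorem TW.am_map (ξ : S.ZR →+* A) (ρ : A →+* A') (G : S.ZR) :
    MvPowerSeries.map ρ (S.am ξ G) = S.am (ρ.comp ξ) G := by
  ext ν
  refine sub_eq_zero.1 (pc_sep p fun k => ?_)
  obtain ⟨j, h1, h2⟩ := ((TW.am_spec ξ G ν k).and (TW.am_spec (ρ.comp ξ) G ν k)).exists
  have h3 := map_dvd ρ h1
  have h4 : ρ (S.ams ξ G ν j) = S.ams (ρ.comp ξ) G ν j := by simp [TW.ams, map_sum]
  rw [map_pow, map_natCast, map_sub, h4] at h3
  have := h3.sub h2
  rwa [sub_sub_sub_cancel_right, ← coeff_map] at this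

theorem Cl.ZS.am (h : W.ZS E ξ1 ξ2) (hW : W.Tow) (hA : Ad W E) (h1 : E.ZU ξ1) (h2 : E.ZU ξ2) :
    W.ZS E (S.am ξ1) (S.am ξ2) := by
  obtain ⟨c, -, hc⟩ := h.exists_c h1 h2
  refine Cl.zs_of_c hA (Units.map (C : A →+* PS ι A).toMonoidHom c) fun a F hF => ?_
  ext ν
  refine sub_eq_zero.1 (pc_sep p fun k => ?_)
  obtain ⟨j, h3, h4⟩ := ((TW.am_spec ξ1 F ν k).and (TW.am_spec ξ2 F ν k)).exists
  have h5 : S.ams ξ1 F ν j = (c : A) ^ a * S.ams ξ2 F ν j := by
    rw [TW.ams, TW.ams, Finset.mul_sum]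
    refine Finset.sum_congr rfl fun d _ => ?_
    rw [hc a _ (hW.cs _ _ a (pow_pos (Fact.out : p.Prime).pos j) _ hF), mul_left_comm]
  have h6 := h3.sub (h4.mul_left ((c : A) ^ a))
  rw [h5, mul_sub, sub_sub_sub_cancel_right] at h6
  have h7 : ((Units.map (C : A →+* PS ι A).toMonoidHom c : (PS ι A)ˣ) : PS ι A) ^ a =
      C ((c : A) ^ a) := by simp
  rwa [h7, coeff_C_mul]

/-! Part 2. -/

theorem zb2_app (ξ : S.ZR →+* A) (G : S.ZR) (k N : ℕ) : ∀ᶠ j in atTop,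
    S.am ξ G - zb1T S ((C : A →+* PS ι A).comp ξ) (zb1w A) j G ∈ zb1I p ι A k N :=
  ((eventually_all_finite (Finsupp.finite_of_degree_lt (σ := ι) N)).2
    fun ν _ => TW.am_spec ξ G ν k).mono fun j hj ν hν => by
      rw [map_sub, zb1_coeff]
      exact hj ν hν

omit [Fact p.Prime] [PC p A] in
theorem zb2_hom {B : Type} [CommRing B] (E : PS ι A →+* B) {I : Ideal B} (hp : (p : B) ∈ I)
    (hX : ∀ i, E (X i) ∈ I) {N : ℕ} {f : PS ι A} (hf : f ∈ zb1I p ι A N N) : E f ∈ I ^ N := by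
  choose! g hg using hf
  let g' : PS ι A := g
  have h1 : f - C ((p : A) ^ N) * g' ∈ Ideal.span (Set.range (X : ι → PS ι A)) ^ N :=
    mem_X_pow.2 fun ν hν => by
      rw [map_sub, coeff_C_mul, hg ν hν]
      exact sub_self _
  have h2 := Ideal.mem_map_of_mem E h1
  rw [Ideal.map_pow] at h2
  have h3 : (Ideal.span (Set.range (X : ι → PS ι A))).map E ≤ I := by
    rw [Ideal.map_le_iff_le_comap, Ideal.span_le]
    rintro _ ⟨i, rfl⟩
    exact hX i
  rw [← sub_add_cancel f (C ((p : A) ^ N) * g'), map_add]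
  refine add_mem (Ideal.pow_right_mono h3 N h2) ?_
  rw [map_mul, map_pow, map_natCast, map_pow, map_natCast]
  exact Ideal.mul_mem_right _ _ (Ideal.pow_mem_pow hp N)

theorem zb2_dvd (l : ι) (G : S.ZR) (j : ℕ) (c : ι → ℤ) :
    (p : S.ZR) ^ j ∣ (c l : S.ZR) * S.csZ j c G - S.csZ j c (S.delZ l G) := by
  have hp : (p : ℂ_[p]) ^ j ≠ 0 := pow_ne_zero _ (Nat.cast_ne_zero.2 (Fact.out : p.Prime).ne_zero)
  have hj := pow_pos (Fact.out : p.Prime).pos j
  refine ⟨⟨S.cst ((p : ℂ_[p]) ^ j)⁻¹ *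
    (c l * S.cs (p ^ j) c G - S.cs (p ^ j) c (S.del l G)), fun T => ?_⟩, Subtype.ext ?_⟩
  · rw [S.co_cst, map_sub, Pi.sub_apply, TW.co_int, S.co_cs _ _ _ _ hj, S.co_cs _ _ _ _ hj,
      S.co_del]
    split_ifs with h
    · obtain ⟨n, hn⟩ := G.2 T
      obtain ⟨m, hm⟩ := h l
      refine ⟨-m * n, ?_⟩
      rw [hn, eq_add_of_sub_eq hm, inv_mul_eq_iff_eq_mul₀ hp]
      push_cast
      ring
    · exact ⟨0, by simp⟩
  · change _ = (p : R) ^ j * (S.cst ((p : ℂ_[p]) ^ j)⁻¹ * _)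
    rw [← map_natCast S.cst, ← map_pow, ← mul_assoc, ← map_mul, mul_inv_cancel₀ hp, map_one,
      one_mul]
    rfl

omit [PC p A] in
theorem zb2_w (l : ι) (T : ι → ℤ) :
    (1 + X l) * pderiv A l (zb1w A T) = ((T l).toNat : PS ι A) * zb1w A T := by
  have h0 : pderiv A l (∏ i ∈ Finset.univ.erase l, (1 + X i : PS ι A) ^ (T i).toNat) = 0 :=
    Finset.prod_induction _ (fun f => pderiv A l f = 0)
      (fun a b ha hb => by rw [Derivation.leibniz, ha, hb, smul_zero, smul_zero, add_zero])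
      pderiv_one fun i hi => by
        rw [Derivation.leibniz_pow, map_add, pderiv_one, pderiv_X_of_ne (Finset.ne_of_mem_erase hi),
          add_zero, smul_zero, smul_zero]
  rw [zb1w, ← Finset.mul_prod_erase _ _ (Finset.mem_univ l), Derivation.leibniz, h0,
    Derivation.leibniz_pow, map_add, pderiv_one, pderiv_X_self]
  rcases (T l).toNat with _ | n
  · simp
  · simp only [smul_eq_mul, nsmul_eq_mul, Nat.add_sub_cancel]
    ring

theorem TW.am_der (ξ : S.ZR →+* A) (l : ι) (G : S.ZR) :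
    (1 + X l) * pderiv A l (S.am ξ G) = S.am ξ (S.delZ l G) := by
  ext ν
  refine sub_eq_zero.1 (pc_sep p fun k => ?_)
  obtain ⟨j, ⟨h1, h2⟩, hj⟩ := (((zb2_app ξ G k (ν.degree + 1 + 1)).and
    (zb2_app ξ (S.delZ l G) k (ν.degree + 1))).and (eventually_ge_atTop k)).exists
  have h3 : pderiv A l (S.am ξ G - zb1T S ((C : A →+* PS ι A).comp ξ) (zb1w A) j G) ∈
      zb1I p ι A k (ν.degree + 1) := fun μ hμ => by
    rw [coeff_pderiv]
    refine (h1 _ ?_).mul_right _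
    rw [map_add, Finsupp.degree_single]
    omega
  have h4 : C ((p : A) ^ k) ∣
      (1 + X l) * pderiv A l (zb1T S ((C : A →+* PS ι A).comp ξ) (zb1w A) j G) -
        zb1T S ((C : A →+* PS ι A).comp ξ) (zb1w A) j (S.delZ l G) := by
    rw [zb1T_apply, zb1T_apply, map_sum, Finset.mul_sum, ← Finset.sum_sub_distrib]
    refine Finset.dvd_sum fun c _ => ?_
    have h5 := map_dvd ((C : A →+* PS ι A).comp ξ)
      ((pow_dvd_pow _ hj).trans (zb2_dvd l G j (rp c)))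
    rw [map_pow, map_natCast, map_sub, map_mul, map_intCast] at h5
    rw [map_pow, map_natCast, RingHom.comp_apply, Derivation.leibniz, pderiv_C, smul_zero, zero_add,
      smul_eq_mul, mul_left_comm, zb2_w, ← mul_assoc, mul_comm _ (zb1w A _), ← mul_sub, mul_comm (C _)]
    refine Dvd.dvd.mul_left ?_ _
    simpa [rp] using h5
  have h6 := (((Ideal.mul_mem_left _ (1 + X l) h3) ν (Nat.lt_succ_self _)).add
    (ps_dvd.1 h4 ν)).sub (h2 ν (Nat.lt_succ_self _))
  rw [map_sub (pderiv A l), mul_sub] at h6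
  simp only [map_sub] at h6
  rwa [sub_add_sub_cancel, sub_sub_sub_cancel_right] at h6

omit [PC p A] in
theorem zb2_fr (ξ : S.ZR →+* A) (G : S.ZR) (j : ℕ) :
    sb (fun i => ((1 + X i) ^ p - 1 : PS ι A))
      (zb1T S ((C : A →+* PS ι A).comp (ξ.comp S.frZ)) (zb1w A) j G) =
      zb1T S ((C : A →+* PS ι A).comp ξ) (zb1w A) (j + 1) (S.frZ G) := by
  have hp := (Fact.out : p.Prime).pos
  have hb : Ev fun i : ι => ((1 + X i) ^ p - 1 : PS ι A) := C0.ev fun i => by simp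
  let e : (ι → Fin (p ^ j)) → ι → Fin (p ^ (j + 1)) := fun a i =>
    ⟨p * a i, by rw [pow_succ']; exact Nat.mul_lt_mul_of_pos_left (a i).2 hp⟩
  rw [zb1T_apply, zb1T_apply, map_sum]
  refine Fintype.sum_of_injective e (fun a b h => funext fun i => Fin.ext
    (Nat.eq_of_mul_eq_mul_left hp (congrArg Fin.val (congrFun h i)))) _ _ (fun c hc => ?_)
    fun a => ?_
  · have : S.csZ (j + 1) (rp c) (S.frZ G) = 0 := Subtype.ext (TW.ext_co (S := S) fun T => by
      show S.co (S.cs _ _ (S.fr G)) T = S.co 0 T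
      rw [S.co_cs _ _ _ _ (pow_pos hp _), map_zero, Pi.zero_apply]
      split_ifs with h2
      · by_contra h3
        have h4 : ∀ i, p ∣ (c i : ℕ) := fun i => Int.natCast_dvd_natCast.1 (by
          simpa [rp] using ((h2.mono (dvd_pow_self p j.succ_ne_zero)).symm.trans
            (S.co_fr0 _ _ h3)) i)
        choose a ha using h4
        refine hc ⟨fun i => ⟨a i, Nat.lt_of_mul_lt_mul_left (a := p) ?_⟩,
          funext fun i => Fin.ext (ha i).symm⟩
        rw [← ha, ← pow_succ']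
        exact (c i).2
      · rfl)
    rw [this, map_zero, mul_zero]
  · have : S.csZ (j + 1) (rp (e a)) (S.frZ G) = S.frZ (S.csZ j (rp a) G) :=
      Subtype.ext (TW.ext_co (S := S) fun T => by
        show S.co (S.cs _ _ (S.fr G)) T = S.co (S.fr (S.cs _ _ G)) T
        rw [S.co_cs _ _ _ _ (pow_pos hp _)]
        by_cases h : Cg p T 0
        · obtain ⟨T', rfl⟩ := cg_zero_iff.1 h
          rw [S.co_fr, S.co_fr, S.co_cs _ _ _ _ (pow_pos hp _)]
          refine if_congr (forall_congr' fun i => ?_) rfl rfl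
          refine Iff.trans ?_ (mul_dvd_mul_iff_left (Int.natCast_ne_zero.2 hp.ne'))
          simp [rp, e, pow_succ', mul_sub]
        · have h0 : ∀ F, S.co (S.fr F) T = 0 := fun F => by_contra fun h1 => h (S.co_fr0 F T h1)
          rw [h0, h0, ite_self])
    rw [this, map_mul, RingHom.comp_apply, evx_C hb]
    congr 1
    simp only [zb1w, rp, e, map_prod, map_pow, map_add, map_one, evx_X hb, add_sub_cancel,
      Int.toNat_natCast, pow_mul]

theorem TW.am_fr (ξ : S.ZR →+* A) (G : S.ZR) : S.am ξ (S.frZ G) =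
    sb (fun i => ((1 + X i) ^ p - 1 : PS ι A)) (S.am (ξ.comp S.frZ) G) := by
  have hb : Ev fun i : ι => ((1 + X i) ^ p - 1 : PS ι A) := C0.ev fun i => by simp
  have hx : Ev fun o : Option ι => o.elim (p : PS ι A) X := ev_ps p fun o => by
    refine Ideal.le_radical ?_
    cases o <;> simp
  refine sub_eq_zero.1 (hx.sep fun N => ?_)
  obtain ⟨j, h1, h2⟩ := ((zb2_app (ξ.comp S.frZ) G N N).and
    ((tendsto_add_atTop_nat 1).eventually (zb2_app ξ (S.frZ G) N N))).exists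
  have hp : (p : PS ι A) ∈ Ideal.span (Set.range fun o : Option ι => o.elim (p : PS ι A) X) :=
    Ideal.subset_span ⟨none, rfl⟩
  have hX : ∀ i, (X i : PS ι A) ∈
      Ideal.span (Set.range fun o : Option ι => o.elim (p : PS ι A) X) :=
    fun i => Ideal.subset_span ⟨some i, rfl⟩
  have h3 := zb2_hom (sb fun i => ((1 + X i) ^ p - 1 : PS ι A)) hp (fun i => by
    rw [evx_X hb]
    exact Ideal.mem_of_dvd _
      ((add_sub_cancel_left 1 (X i)).symm.dvd.trans (sub_one_dvd_pow_sub_one _ p)) (hX i))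
    h1
  have h4 := sub_mem (zb2_hom (RingHom.id _) hp hX h2) h3
  rwa [map_sub (sb _), zb2_fr, RingHom.id_apply, sub_sub_sub_cancel_right] at h4

theorem TW.Ch.am_ev {ψ : R →+* ℂ_[p]} (h : S.Ch ψ) {u : ι → ℂ_[p]ˣ} (hu : Nr u) (G : S.ZR) :
    (evx (RingHom.id _) (fun i => uo u i - 1) (S.am h.zr G) : OC p) = (h.twc hu).zr G := by
  have he : Ev fun i => uo u i - 1 := hu.n1.e1
  obtain ⟨θ, h0, h1, h2⟩ := hu.theta p
  have h3 : 0 ≤ θ := le_trans (by positivity) h0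
  have h4 : ∀ j, ((evx (RingHom.id _) (fun i => uo u i - 1)
      (zb1T S ((C : OC p →+* PS ι (OC p)).comp h.zr) (zb1w (OC p)) j G) : OC p) : ℂ_[p]) =
      S.rs ψ (umon u) G j := fun j => by
    rw [zb1T_apply, map_sum, AddSubmonoidClass.coe_finsetSum]
    refine Finset.sum_congr rfl fun c _ => ?_
    rw [map_mul, RingHom.comp_apply, evx_C he, MulMemClass.coe_mul]
    congr 1
    simp [zb1w, umon, rp, evx_X he, hu.coe_uo]
  refine Subtype.ext ?_
  rw [TW.Ch.coe_zr, TW.twc_apply h hu]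
  refine tendsto_nhds_unique ?_ (TW.tendsto_rs h (UC.umon hu) G)
  refine Metric.tendsto_nhds.2 fun ε hε => ?_
  obtain ⟨N, hN⟩ := exists_pow_lt_of_lt_one hε h1
  filter_upwards [zb2_app h.zr G N N] with j hj
  have h5 := zb2_hom (evx (RingHom.id _) fun i => uo u i - 1)
    (I := Ideal.span (Set.range fun o : Option ι => o.elim (p : OC p) fun i => uo u i - 1))
    (Ideal.subset_span ⟨none, rfl⟩) (fun i => Ideal.subset_span ⟨some i, (evx_X he i).symm⟩) hj
  have h6 := span_pow_norm h3 (fun o => by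
    cases o with
    | none => exact (by simpa using (oc_pdvd (k := 1)).1 (pow_one (p : OC p)).dvd :
        ‖((p : OC p) : ℂ_[p])‖ ≤ (p : ℝ)⁻¹).trans h0
    | some i => simpa [hu.coe_uo] using h2 i) h5
  rw [map_sub, AddSubgroupClass.coe_sub, h4] at h6
  rw [dist_comm, dist_eq_norm]
  exact h6.trans_lt hN

/-! Part 3. -/

/-- The coordinates as series. -/
def Fr.XS (E : Fr S) (ξ : S.ZR →+* A) : ι → PS ι A := E.zx (S.am ξ)

private theorem zb3_c (ξ : S.ZR →+* A) : constantCoeff.comp (S.am ξ) = ξ :=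
  RingHom.ext (TW.am_const ξ)

theorem Fr.ZU.am (h : E.ZU ξ) : E.ZU (S.am ξ) :=
  ⟨isUnit_iff_constantCoeff.2 (by rw [TW.am_const]; exact h.u0),
    fun i => isUnit_iff_constantCoeff.2 (by rw [TW.am_const]; exact h.u1 i)⟩

theorem Fr.ZU.XS_const (h : E.ZU ξ) (i : ι) : constantCoeff (E.XS ξ i) = E.zx ξ i := by
  rw [Fr.XS, ← Fr.zx_map h.am.u0, zb3_c]

theorem Fr.ZU.XS_map (h : E.ZU ξ) (ρ : A →+* A') (i : ι) :
    MvPowerSeries.map ρ (E.XS ξ i) = E.XS (ρ.comp ξ) i := by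
  rw [Fr.XS, ← Fr.zx_map h.am.u0, Fr.XS,
    show (MvPowerSeries.map ρ).comp (S.am ξ) = S.am (ρ.comp ξ) from RingHom.ext (TW.am_map ξ ρ)]

private theorem zb3_der (h : E.ZU ξ) (i l : ι) :
    (1 + X l) * pderiv A l (E.XS ξ i) = E.zJ (S.am ξ) i l := by
  have e := Ring.mul_inverse_cancel _ h.am.u0
  have e1 := (pderiv A l).leibniz_of_mul_eq_one ((mul_comm _ _).trans e)
  simp only [Fr.XS, Fr.zx, Fr.zJ, Fr.zn, Matrix.of_apply, pow_one, Derivation.leibniz, e1, map_sub,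
    map_mul, ← TW.am_der, smul_eq_mul]
  linear_combination (-(1 + X l) * pderiv A l (S.am ξ (E.z1 i)) * Ring.inverse (S.am ξ E.z0)) * e

theorem Fr.ZU.XS_jac0 (h : E.ZU ξ) : (jacS (E.XS ξ)).map constantCoeff = E.zJ ξ := by
  ext i l
  have e := congrArg constantCoeff (zb3_der h i l)
  rw [map_mul, map_add, map_one, constantCoeff_X, add_zero, one_mul, Fr.zJ, Matrix.of_apply,
    ← Fr.zn_map h.am.u0, zb3_c] at e
  exact e

theorem Fr.ZU.XS_jac (h : E.ZU ξ) : IsUnit (jacS (E.XS ξ)).det :=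
  isUnit_det_ps.2 (by rw [h.XS_jac0]; exact h.zJ)

theorem Cl.ZS.XS (h : W.ZS E ξ1 ξ2) (hW : W.Tow) (hA : Ad W E) (h1 : E.ZU ξ1) (h2 : E.ZU ξ2) :
    E.XS ξ1 = E.XS ξ2 := (h.am hW hA h1 h2).zx hA

/-- The character in the coordinates `x - x ξ`. -/
theorem Fr.ZU.exists_zeta (h : E.ZU ξ) : ∃ ζ : S.ZR →+* PS ι A,
    (∀ F, constantCoeff (ζ F) = ξ F) ∧ E.ZU ζ ∧ ∀ i, E.zx ζ i = C (E.zx ξ i) + X i := by
  have e : (fun j => C (E.zx ξ j) + X j - C (constantCoeff (E.XS ξ j)) : ι → PS ι A) = X :=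
    funext fun j => by rw [h.XS_const, add_sub_cancel_left]
  obtain ⟨y, -, h1, h2⟩ := evx_surj h.XS_jac (C : A →+* PS ι A)
    (z := fun j => C (E.zx ξ j) + X j) (by rw [e]; exact c0_X.ev)
  rw [e] at h2
  have h0 : C0 y := fun i => (Ideal.span_le (I := RingHom.ker constantCoeff)).2
    (by rintro _ ⟨j, rfl⟩; exact constantCoeff_X j) (h2 i)
  exact ⟨(sb y).comp (S.am ξ), fun F => (const_sb h0 _).trans (TW.am_const ξ F), h.am.map _,
    fun i => (Fr.zx_map h.am.u0 _ i).trans (h1 i)⟩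

theorem Fr.Gp.XS_ev {ψ : R →+* ℂ_[p]} (h : E.Gp ψ) {u : ι → ℂ_[p]ˣ} (hu : Nr u) (i : ι) :
    ((evx (RingHom.id _) (fun i => uo u i - 1) (E.XS h.ch.zr i) : OC p) : ℂ_[p]) =
      E.xc (S.twc ψ u) i := by
  rw [Fr.XS, ← Fr.zx_map h.zu.am.u0, ← (h.twc hu).coe_zx i,
    show (evx (RingHom.id _) fun i => uo u i - 1).comp (S.am h.ch.zr) = (h.twc hu).ch.zr from
      RingHom.ext (h.ch.am_ev hu)]

/-- The coordinates in the logarithmic parameter. -/
def Fr.Gp.XE {ψ : R →+* ℂ_[p]} (h : E.Gp ψ) (i : ι) : PS ι (OC p) :=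
  sb (exS p ι (OC p)) (E.XS h.ch.zr i)

theorem Fr.Gp.XE_ev {ψ : R →+* ℂ_[p]} (h : E.Gp ψ) {y : ι → OC p} (hy : Sm y) :
    ∃ u : ι → ℂ_[p]ˣ, Nr u ∧ (∀ i, uo u i = exo p (y i)) ∧
      (∀ i, lgv p u i = (p : ℂ_[p]) ^ 2 * y i) ∧
      ∀ i, ((evx (RingHom.id _) y (h.XE i) : OC p) : ℂ_[p]) = E.xc (S.twc ψ u) i := by
  have hn : N1 fun i => exo p (y i) := fun i =>
    (oc_dvd.1 ((dvd_mul_left _ _).trans
      (exo_sub_one (Sm.ev (y := fun _ : Unit => y i) fun _ => hy i)))).trans_lt (hy i)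
  obtain ⟨u, hu, e⟩ := hn.exists_nr
  refine ⟨u, hu, congrFun e, fun i => ?_, fun i => ?_⟩
  · rw [lgv, ← hu.coe_uo, e, lg_exo (hy i)]
  · rw [Fr.Gp.XE, evx_exS hy.ev, ← h.XS_ev hu i, e]

/-- The Taylor series of a character. -/
structure TW.Ts (S : TW p Co R) {K : Type} [CommRing K] (ψ : R →+* K) (τ : R →+* PS ι K) :
    Prop where
  const : ∀ F, constantCoeff (τ F) = ψ F
  der : ∀ l F, pderiv K l (τ F) = τ (S.del l F)

theorem TW.exists_ts (S : TW p Co R) {K : Type} [CommRing K] (ψ : R →+* K) :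
    ∃ τ, S.Ts ψ τ := by
  let : Algebra ℚ R := (S.cst.comp (algebraMap ℚ ℂ_[p])).toAlgebra
  obtain ⟨θ, h1, h2⟩ := exists_tay S.dD fun i j F => TW.ext_co (S := S) fun T => by
    simp only [TW.dD_apply, S.co_del, mul_left_comm]
  exact ⟨(MvPowerSeries.map ψ).comp θ,
    fun F => by rw [RingHom.comp_apply, constantCoeff_map, h1],
    fun l F => by rw [RingHom.comp_apply, pderiv_map', h2]; rfl⟩

theorem TW.Ts.map {K K' : Type} [CommRing K] [CommRing K'] {ψ : R →+* K} {τ : R →+* PS ι K}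
    (h : S.Ts ψ τ) (ρ : K →+* K') : S.Ts (ρ.comp ψ) ((MvPowerSeries.map ρ).comp τ) :=
  ⟨fun F => by rw [RingHom.comp_apply, constantCoeff_map, h.const]; rfl,
    fun l F => by rw [RingHom.comp_apply, pderiv_map', h.der]; rfl⟩

theorem Fr.Gp.XE_eq {ψ : R →+* ℂ_[p]} (h : E.Gp ψ) {τ : R →+* PS ι ℂ_[p]} (hτ : S.Ts ψ τ) (i : ι) :
    MvPowerSeries.map (ov p) (h.XE i) =
      sb (fun l => ((p : PS ι ℂ_[p]) ^ 2 * X l)) (E.xc τ i) := by
  have hb : C0 fun l => ((p : PS ι ℂ_[p]) ^ 2 * X l) := fun l => by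
    rw [map_mul, constantCoeff_X, mul_zero]
  let α : S.ZR →+* PS ι ℂ_[p] :=
    (MvPowerSeries.map (ov p)).comp ((sb (exS p ι (OC p))).comp (S.am h.ch.zr))
  let β : S.ZR →+* PS ι ℂ_[p] :=
    (sb fun l => ((p : PS ι ℂ_[p]) ^ 2 * X l)).comp (τ.comp S.ZR.subtype)
  have hα : ∀ l F, pderiv ℂ_[p] l (α F) = (p : PS ι ℂ_[p]) ^ 2 * α (S.delZ l F) := fun l F => by
    simp only [α, RingHom.comp_apply]
    rw [pderiv_map', pderiv_sb exS_c0, Finset.sum_eq_single l
      (fun j _ hj => by rw [exS_der, if_neg hj, mul_zero]) (fun hl => (hl (Finset.mem_univ l)).elim),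
      exS_der, if_pos rfl, ← TW.am_der, map_mul (sb _), map_add (sb _), map_one, evx_X exS_c0.ev]
    simp only [map_mul, map_pow, map_natCast]
    ring
  have hX : ∀ j l : ι, pderiv ℂ_[p] l ((p : PS ι ℂ_[p]) ^ 2 * X j) =
      if j = l then (p : PS ι ℂ_[p]) ^ 2 else 0 := fun j l => by
    rw [← Nat.cast_pow, ← nsmul_eq_mul, map_nsmul, pderiv_X, Pi.single_apply]
    split_ifs <;> simp
  have hβ : ∀ l F, pderiv ℂ_[p] l (β F) = (p : PS ι ℂ_[p]) ^ 2 * β (S.delZ l F) := fun l F => by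
    simp only [β, RingHom.comp_apply]
    rw [pderiv_sb hb, Finset.sum_eq_single l
      (fun j _ hj => by rw [hX, if_neg hj, mul_zero]) (fun hl => (hl (Finset.mem_univ l)).elim),
      hX, if_pos rfl, hτ.der, mul_comm]
    rfl
  have e : α = β := RingHom.ext fun F => sub_eq_zero.1 (odeu (fun F => α F - β F)
    (fun F => by
      simp only [α, β, RingHom.comp_apply]
      rw [map_sub, constantCoeff_map, const_sb exS_c0, const_sb hb, TW.am_const, hτ.const]
      exact sub_self _)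
    (fun l F => by
      rw [map_sub, hα, hβ, ← mul_sub]
      exact Ideal.mul_mem_left _ _ (Ideal.subset_span ⟨_, rfl⟩)) F)
  have hu : IsUnit (τ.comp S.ZR.subtype E.z0) :=
    isUnit_iff_constantCoeff.2 (by rw [RingHom.comp_apply, hτ.const]; exact h.unit)
  rw [Fr.Gp.XE, Fr.XS, ← Fr.zx_map h.zu.am.u0, ← Fr.zx_map (h.zu.am.map _).u0]
  exact (congrArg (fun γ => E.zx γ i) e).trans (Fr.zx_map hu _ i)

end Pool.Agent.E7
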