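import Pool.Agent.Lib.MP_7e5527_ag.EA.ZB
import Pool.Agent.Lib.MP_7e5527_ag.EA.AW

/-! Canonical lifts. -/

open MvPowerSeries Filter Topology Matrix

noncomputable section

namespace Pool.Agent.E7

variable {ι : Type} [Fintype ι] [DecidableEq ι] {p : ℕ} [Fact p.Prime] {Co : Cone ι} {R : Type}
  [CommRing R] {S : TW p Co R} {M W : Cl S} {E : Fr S}

theorem TW.exists_dw (S : TW p Co R) : ∃ s : S.ZR →+* WittVector p S.ZR,
    (∀ a, (s a).coeff 0 = a) ∧ ∀ a, s (S.frZ a) = WittVector.frobenius (s a) :=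
  dwork TW.zr_tf S.frZ TW.frZ_sub

/-- The canonical lift of a character. -/
def TW.can (S : TW p Co R) {B : Type} [CommRing B] (ξ : S.ZR →+* B) : S.ZR →+* WittVector p B :=
  (WittVector.map ξ).comp S.exists_dw.choose

section Basic

variable {B B' : Type} [CommRing B] [CommRing B']

theorem TW.can_coeff (ξ : S.ZR →+* B) (F : S.ZR) : (S.can ξ F).coeff 0 = ξ F :=
  (WittVector.map_coeff _ _ _).trans (congrArg ξ (S.exists_dw.choose_spec.1 F))

theorem TW.can_fr (ξ : S.ZR →+* B) (F : S.ZR) :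
    S.can ξ (S.frZ F) = WittVector.frobenius (S.can ξ F) :=
  (congrArg (WittVector.map ξ) (S.exists_dw.choose_spec.2 F)).trans (wv_map_fr _ _)

theorem TW.can_map (ξ : S.ZR →+* B) (ρ : B →+* B') :
    (WittVector.map ρ).comp (S.can ξ) = S.can (ρ.comp ξ) :=
  RingHom.ext fun _ => WittVector.ext fun _ => rfl

end Basic

variable {B : Type} [CommRing B] [CharP B p] [PerfectRing B p] {ξ ξ1 ξ2 : S.ZR →+* B}

/-! Part 1. -/

theorem TW.can_fr_pow (ξ : S.ZR →+* B) (f : ℕ) : (S.can ξ).comp (S.frZ ^ f) =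
    (WittVector.frobenius ^ f : WittVector p B →+* WittVector p B).comp (S.can ξ) := by
  induction f with
  | zero => rfl
  | succ f ih =>
    refine RingHom.ext fun F => ?_
    have e := RingHom.congr_fun ih (S.frZ F)
    rw [pow_succ, pow_succ]
    exact e.trans (congrArg (WittVector.frobenius ^ f : WittVector p B →+* WittVector p B)
      (TW.can_fr ξ F))

theorem Fr.ZU.can (h : E.ZU ξ) : E.ZU (S.can ξ) :=
  ⟨wv_unit.2 (by rw [TW.can_coeff]; exact h.u0),
    fun i => wv_unit.2 (by rw [TW.can_coeff]; exact h.u1 i)⟩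

theorem Fr.ZU.zn_can (h : E.ZU ξ) (a : ℕ) (F : S.ZR) :
    (E.zn (S.can ξ) a F).coeff 0 = E.zn ξ a F := by
  have e : (WittVector.constantCoeff : WittVector p B →+* B).comp (S.can ξ) = ξ :=
    RingHom.ext fun G => TW.can_coeff ξ G
  have e1 := Fr.zn_map h.can.u0 (WittVector.constantCoeff : WittVector p B →+* B) a F
  rw [e] at e1
  exact e1.symm

theorem zc1_rel (h : Ad M E) (i : ι) : ∃ G : S.ZR, (G : R) ∈ M.M (1 + p) ∧
    S.frZ (E.z1 i) * E.z0 ^ p - E.z1 i ^ p * S.frZ E.z0 = p * G := by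
  have h1 : ((S.frZ (E.z1 i) * E.z0 ^ p - E.z1 i ^ p * S.frZ E.z0 : S.ZR) : R) ∈ M.M (1 + p) := by
    have a1 := M.mul _ _ _ (h.fre i) _ (M.pow h.e0 p)
    have a2 := M.mul _ _ _ (M.pow (h.e i) p) _ h.fr0
    rw [mul_one] at a1 a2
    rw [add_comm] at a2
    exact M.sub a1 a2
  have h2 : (p : S.ZR) ∣ S.frZ (E.z1 i) * E.z0 ^ p - E.z1 i ^ p * S.frZ E.z0 := by
    have e : S.frZ (E.z1 i) * E.z0 ^ p - E.z1 i ^ p * S.frZ E.z0 =
        (S.frZ (E.z1 i) - E.z1 i ^ p) * E.z0 ^ p - E.z1 i ^ p * (S.frZ E.z0 - E.z0 ^ p) := by ring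
    rw [e]
    exact ((TW.frZ_sub _).mul_right _).sub ((TW.frZ_sub _).mul_left _)
  obtain ⟨G, hG, e⟩ := M.div _ _ h1 (TW.zr_dv.2 h2)
  exact ⟨⟨G, M.int _ _ hG⟩, hG, Subtype.ext (by rw [e]; simp)⟩

theorem zc1_eq {A : Type} [CommRing A] {y : S.ZR →+* A} (h : E.ZU y) {φ : A →+* A}
    (hφ : ∀ F, y (S.frZ F) = φ (y F)) {i : ι} {G : S.ZR}
    (e : S.frZ (E.z1 i) * E.z0 ^ p - E.z1 i ^ p * S.frZ E.z0 = p * G) :
    IsUnit (E.zn y 1 (S.frZ E.z0)) ∧ φ (E.zx y i) * E.zn y 1 (S.frZ E.z0) =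
      E.zx y i ^ p * E.zn y 1 (S.frZ E.z0) + p * E.zn y (1 + p) G := by
  have e1 := congrArg y e
  have e2 := Ring.mul_inverse_cancel _ h.u0
  have e3 := congrArg φ e2
  simp only [map_sub, map_mul, map_pow, map_natCast, hφ, map_one] at e1 e3
  simp only [Fr.zx, Fr.zn, pow_one, hφ, map_mul]
  refine ⟨(h.u0.map φ).mul h.u0.ringInverse, ?_⟩
  have e4 : y E.z0 ^ p * Ring.inverse (y E.z0) ^ p = 1 := by rw [← mul_pow, e2, one_pow]
  rw [pow_add, pow_one, mul_pow]
  generalize Ring.inverse (y E.z0) ^ p = t at e4 ⊢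
  linear_combination (Ring.inverse (y E.z0) * t) * e1 +
    (φ (y (E.z1 i)) * Ring.inverse (y E.z0)) * e3 - (φ (y (E.z1 i)) * Ring.inverse (y E.z0)) * e4

theorem zc1_sub {A : Type} [CommRing A] (x y : WittVector p A) :
    (x - y).coeff 0 = x.coeff 0 - y.coeff 0 := by
  rw [← WittVector.constantCoeff_apply, map_sub, WittVector.constantCoeff_apply,
    WittVector.constantCoeff_apply]

theorem zc1_pow {A : Type} [CommRing A] {n k : ℕ} {x y : A} (h : (n : A) ^ (k + 1) ∣ x - y) :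
    (n : A) ^ (k + 2) ∣ x ^ n - y ^ n := by
  rw [← geom_sum₂_mul, pow_succ' _ (k + 1)]
  exact mul_dvd_mul (dvd_geom_sum₂_self ((dvd_pow_self _ k.succ_ne_zero).trans h)) h

theorem zc1_alg {A : Type} [CommRing A] {n k : ℕ} {a1 a2 x1 x2 u1 u2 g1 g2 : A} (h1 : IsUnit u1)
    (h2 : IsUnit u2) (e1 : a1 * u1 = x1 ^ n * u1 + n * g1) (e2 : a2 * u2 = x2 ^ n * u2 + n * g2)
    (hx : (n : A) ^ (k + 1) ∣ x1 - x2) (hu : (n : A) ^ (k + 1) ∣ u1 - u2)
    (hg : (n : A) ^ (k + 1) ∣ g1 - g2) : (n : A) ^ (k + 2) ∣ a1 - a2 := by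
  refine (h1.mul h2).dvd_mul_right.1 ?_
  have e : (a1 - a2) * (u1 * u2) =
      (x1 ^ n - x2 ^ n) * (u1 * u2) + n * ((g1 - g2) * u2 - g2 * (u1 - u2)) := by
    linear_combination u2 * e1 - u1 * e2
  rw [e]
  refine ((zc1_pow hx).mul_right _).add ?_
  rw [pow_succ' _ (k + 1)]
  exact mul_dvd_mul_left _ ((hg.mul_right _).sub (hu.mul_left _))

/-- Induction modulo `p ^ k`: `fr (e i) * e0 ^ p - e i ^ p * fr e0 = p * G` with `G` in the class
determines the Frobenius of the coordinates; `wv_fr_dvd`, `zstep`. -/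
theorem Ad.zcan (h : Ad M E) (h1 : E.ZU ξ1) (h2 : E.ZU ξ2) (hs : M.ZS E ξ1 ξ2) :
    M.ZS E (S.can ξ1) (S.can ξ2) := by
  have key : ∀ k a (F : S.ZR), (F : R) ∈ M.M a → (p : WittVector p B) ^ (k + 1) ∣
      E.zn (S.can ξ1) a F - E.zn (S.can ξ2) a F := by
    intro k
    induction k with
    | zero =>
      intro a F hF
      rw [zero_add, pow_one, wv_dvd, zc1_sub, h1.zn_can, h2.zn_can, hs a F hF, sub_self]
    | succ k ih =>
      intro a F hF
      have hx : ∀ i, (p : WittVector p B) ^ (k + 2) ∣ E.zx (S.can ξ1) i - E.zx (S.can ξ2) i := by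
        intro i
        obtain ⟨G, hG, e⟩ := zc1_rel h i
        obtain ⟨u1, e1⟩ := zc1_eq h1.can (TW.can_fr ξ1) e
        obtain ⟨u2, e2⟩ := zc1_eq h2.can (TW.can_fr ξ2) e
        refine wv_fr_dvd ?_
        rw [map_sub]
        exact zc1_alg u1 u2 e1 e2 (ih 1 (E.z1 i) (h.e i)) (ih 1 (S.frZ E.z0) h.fr0) (ih _ G hG)
      have e : Ideal.span {(p : WittVector p B)} * Ideal.span {(p : WittVector p B) ^ (k + 1)} =
          Ideal.span {(p : WittVector p B) ^ (k + 2)} := by
        rw [Ideal.span_singleton_mul_span_singleton, ← pow_succ']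
      have := h.zstep h1.can h2.can (I := Ideal.span {(p : WittVector p B)})
        (J := Ideal.span {(p : WittVector p B) ^ (k + 1)}) (Ideal.mem_span_singleton_self _)
        (Ideal.span_singleton_le_span_singleton.2 (dvd_pow_self _ k.succ_ne_zero))
        (fun i => by rw [e]; exact Ideal.mem_span_singleton.2 (hx i))
        (fun a F hF => Ideal.mem_span_singleton.2 (ih a F hF)) a F hF
      rwa [e, Ideal.mem_span_singleton] at this
  intro a F hF
  exact sub_eq_zero.1 (pc_sep p fun k => (pow_dvd_pow _ k.le_succ).trans (key k a F hF))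

/-! Part 2. -/

/-- The lift of Frobenius on series over the Witt vectors. -/
def frS (p : ℕ) [Fact p.Prime] (ι B : Type) [CommRing B] :
    PS ι (WittVector p B) →+* PS ι (WittVector p B) :=
  (sb fun i => (1 + X i) ^ p - 1).comp (MvPowerSeries.map WittVector.frobenius)

section ZC2

variable {B : Type} [CommRing B]

omit [Fintype ι] [DecidableEq ι] [Fact p.Prime] in
theorem zc2_c0 {A : Type} [CommRing A] {b : ι → PS ι A} (h : C0 b) :
    C0 fun i => (1 + b i) ^ p - 1 := fun i => by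
  rw [map_sub, map_pow, map_add, h i, map_one, add_zero, one_pow, sub_self]

omit [Fintype ι] [DecidableEq ι] in
theorem zc2_apply (f : PS ι (WittVector p B)) : frS p ι B f =
    sb (fun i => (1 + X i) ^ p - 1) (MvPowerSeries.map WittVector.frobenius f) := rfl

theorem zc2_C (a : WittVector p B) : frS p ι B (C a) = C (WittVector.frobenius a) := by
  rw [zc2_apply, map_C, evx_C (zc2_c0 c0_X).ev]

theorem zc2_X (i : ι) : frS p ι B (X i) = (1 + X i) ^ p - 1 := by
  rw [zc2_apply, map_X, evx_X (zc2_c0 c0_X).ev]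

theorem zc2_const (f : PS ι (WittVector p B)) :
    constantCoeff (frS p ι B f) = WittVector.frobenius (constantCoeff f) := by
  rw [zc2_apply, const_sb (zc2_c0 c0_X), constantCoeff_map]

omit [Fintype ι] [DecidableEq ι] in
theorem zc2_unit {A : Type} [CommRing A] {f : PS ι A} (h : constantCoeff f = 0) :
    IsUnit (1 + f) := by
  rw [isUnit_iff_constantCoeff, map_add, h, map_one, add_zero]
  exact isUnit_one

theorem zc2_pow {A : Type} [CommRing A] (u : A) : u * u ^ (p - 1) = u ^ p := by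
  rw [← pow_succ', Nat.sub_add_cancel (Fact.out : p.Prime).pos]

theorem zc2_der (l : ι) (f : PS ι (WittVector p B)) :
    (1 + X l) * pderiv (WittVector p B) l (frS p ι B f) =
      (p : PS ι (WittVector p B)) * frS p ι B ((1 + X l) * pderiv (WittVector p B) l f) := by
  rw [zc2_apply, pderiv_sb (zc2_c0 c0_X), Finset.sum_eq_single l (fun i _ hi => by
    rw [map_sub, pderiv_pow, map_add, pderiv_one, pderiv_X_of_ne hi, add_zero, mul_zero, sub_zero,
      mul_zero]) (fun h => (h (Finset.mem_univ l)).elim), pderiv_map', ← zc2_apply, map_sub,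
    pderiv_pow, map_add, pderiv_one, pderiv_X_self, map_mul, map_add, map_one, zc2_X, add_sub_cancel,
    ← zc2_pow (p := p) (1 + X l : PS ι (WittVector p B))]
  ring

end ZC2

theorem frS_fix {η : PS ι (WittVector p B)} (h : frS p ι B η = η) :
    η = C (constantCoeff η) ∧ WittVector.frobenius (constantCoeff η) = constantCoeff η := by
  refine ⟨ps_const fun l => (zc2_unit (constantCoeff_X l)).mul_right_eq_zero.1
    (pc_sep p fun k => ?_), by rw [← zc2_const, h]⟩
  have e := zc2_der l η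
  rw [h] at e
  induction k with
  | zero => rw [pow_zero]; exact one_dvd _
  | succ k ih =>
    have h1 := map_dvd (frS p ι B) ih
    rw [map_pow, map_natCast] at h1
    rw [e, pow_succ']
    exact mul_dvd_mul_left _ h1

theorem frS_der (l : ι) (f : PS ι (WittVector p B)) :
    (1 + X l) * pderiv (WittVector p B) l (frS p ι B f) =
      (p : PS ι (WittVector p B)) * frS p ι B ((1 + X l) * pderiv (WittVector p B) l f) := by
  exact zc2_der l f

/-- The logarithmic derivatives are fixed by `frS`. -/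
theorem eq_tpw [IsDomain B] {b : ι → PS ι (WittVector p B)} (h0 : C0 b)
    (h : ∀ i, frS p ι B (b i) = (1 + b i) ^ p - 1) :
    ∃ κ : Matrix ι ι ℤ_[p], b = tpw (WittVector p B) κ := by
  have key : ∀ i l, ∃ z : ℤ_[p], (1 + X l) * pderiv (WittVector p B) l (b i) =
      C (zc p (WittVector p B) z) * (1 + b i) := by
    intro i l
    have hu := zc2_unit (h0 i)
    obtain ⟨v, hv⟩ := hu.exists_right_inv
    have e := zc2_der l (b i)
    rw [h i, map_sub, pderiv_pow, map_add, pderiv_one, zero_add, sub_zero] at e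
    generalize hD : (1 + X l) * pderiv (WittVector p B) l (b i) = D at e ⊢
    have e1 : frS p ι B D = (1 + b i) ^ (p - 1) * D := by
      refine sub_eq_zero.1 (MvPowerSeries.ext fun ν => wv_tf _ ?_)
      have e2 : (C (p : WittVector p B)) * (frS p ι B D - (1 + b i) ^ (p - 1) * D) = 0 := by
        rw [map_natCast, mul_sub, ← e, ← hD]
        ring
      rw [← coeff_C_mul, e2, map_zero]
    have e3 : frS p ι B v * (1 + b i) ^ p = 1 := by
      have e4 := congrArg (frS p ι B) hv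
      rwa [map_mul, map_add, map_one, h i, add_sub_cancel, mul_comm] at e4
    have e5 : frS p ι B (D * v) = D * v := by
      refine (hu.pow p).mul_right_cancel ?_
      rw [map_mul, mul_assoc, e3, e1, ← zc2_pow (p := p) (1 + b i)]
      linear_combination (-(1 + b i) ^ (p - 1) * D) * hv
    obtain ⟨e6, e7⟩ := frS_fix e5
    obtain ⟨z, hz⟩ := wv_fix e7
    refine ⟨z, ?_⟩
    rw [← hz, ← e6]
    linear_combination (-D) * hv
  choose κ hκ using key
  exact ⟨Matrix.of κ, tpw_unique _ h0 hκ⟩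

/-- The transition between two canonical lifts is a homomorphism of formal tori. -/
theorem Ad.ztor [IsDomain B] (h : Ad M E) (h1 : E.ZU ξ1) (h2 : E.ZU ξ2) (hs : M.ZS E ξ1 ξ2) :
    ∃ κ : Matrix ι ι ℤ_[p], IsUnit κ.det ∧
      ∀ i, E.XS (S.can ξ1) i = sb (tpw (WittVector p B) κ) (E.XS (S.can ξ2) i) := by
  have Z1 := h1.can
  have Z2 := h2.can
  have hc := h.zcan h1 h2 hs
  have c0 : C0 fun j => E.XS (S.can ξ1) j - C (constantCoeff (E.XS (S.can ξ2) j)) := fun j => by
    rw [map_sub, constantCoeff_C, Z1.XS_const, Z2.XS_const, hc.zx h, sub_self]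
  obtain ⟨b, hb, e1, e2⟩ := evx_surj Z2.XS_jac C c0.ev
  have b0 : C0 b := fun i => (Ideal.span_le (I := RingHom.ker constantCoeff)).2
    (by rintro _ ⟨j, rfl⟩; exact c0 j) (e2 i)
  have am : ∀ ξ : S.ZR →+* B, (S.am (S.can ξ)).comp S.frZ = (frS p ι B).comp (S.am (S.can ξ)) :=
    fun ξ => RingHom.ext fun G => by
      have e : (S.can ξ).comp S.frZ = WittVector.frobenius.comp (S.can ξ) :=
        RingHom.ext (TW.can_fr ξ)
      rw [RingHom.comp_apply, RingHom.comp_apply, TW.am_fr, e, ← TW.am_map, zc2_apply]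
  have zs : M.ZS E (S.am (S.can ξ1)) ((sb b).comp (S.am (S.can ξ2))) := by
    refine h.zuniq_ps Z1.am (Z2.am.map _) (funext fun i => ?_) ?_
    · rw [Fr.zx_map Z2.am.u0]
      exact (e1 i).symm
    · have k1 : constantCoeff.comp (S.am (S.can ξ1)) = S.can ξ1 := RingHom.ext (TW.am_const _)
      have k2 : constantCoeff.comp ((sb b).comp (S.am (S.can ξ2))) = S.can ξ2 :=
        RingHom.ext fun G => (const_sb b0 _).trans (TW.am_const _ G)
      rw [k1, k2]
      exact hc
  have e3 := zs.zx_fr h Z1.am (Z2.am.map _)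
  rw [RingHom.comp_assoc, am, am, ← RingHom.comp_assoc] at e3
  have f0 : C0 fun i => frS p ι B (b i) := fun i => by rw [zc2_const, b0 i, map_zero]
  have e4 : (fun i => frS p ι B (b i)) = fun i => (1 + b i) ^ p - 1 := by
    refine evx_inj Z2.XS_jac (φ := C.comp WittVector.frobenius) f0.ev (zc2_c0 b0).ev fun j => ?_
    have k1 := congrFun e3 j
    rw [Fr.zx_map Z1.am.u0, Fr.zx_map Z2.am.u0, RingHom.comp_apply] at k1
    change frS p ι B (E.XS (S.can ξ1) j) = sb b (frS p ι B (E.XS (S.can ξ2) j)) at k1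
    have k2 : (frS p ι B).comp C = C.comp WittVector.frobenius := RingHom.ext zc2_C
    have k3 : (fun i => evx C b ((1 + X i) ^ p - 1)) = fun i => (1 + b i) ^ p - 1 :=
      funext fun i => by rw [map_sub, map_pow, map_add, map_one, evx_X hb]
    rwa [← e1 j, evx_comp hb _ f0.ev, k2, zc2_apply,
      evx_sb hb (zc2_c0 c0_X).ev (k3 ▸ (zc2_c0 b0).ev), k3, evx_map (zc2_c0 b0).ev] at k1
  obtain ⟨κ, rfl⟩ := eq_tpw b0 (congrFun e4)
  refine ⟨κ, wv_zc_unit (B := B) ?_, fun i => (e1 i).symm⟩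
  have j1 : jacS (E.XS (S.can ξ1)) = (jacS (E.XS (S.can ξ2))).map (sb (tpw (WittVector p B) κ)) *
      jacS (tpw (WittVector p B) κ) := by
    refine Matrix.ext fun j l => ?_
    rw [jacS, Matrix.of_apply, ← e1 j, pderiv_sb b0]
    rfl
  have j2 := Z1.XS_jac
  rw [j1, Matrix.det_mul] at j2
  have j3 := isUnit_det_ps.1 (isUnit_of_mul_isUnit_right j2)
  have j4 : (jacS (tpw (WittVector p B) κ)).map constantCoeff = κ.map (zc p (WittVector p B)) := by
    refine Matrix.ext fun i l => ?_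
    have k1 := congrArg constantCoeff (tpw_der (A := WittVector p B) κ i l)
    rwa [map_mul, map_mul, map_add, map_add, constantCoeff_X, b0 i, map_one, add_zero, one_mul,
      mul_one, constantCoeff_C] at k1
  rwa [j4, ← RingHom.mapMatrix_apply, ← RingHom.map_det] at j3

end Pool.Agent.E7
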