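import Pool.Agent.Lib.MP_7e5527_ag.EA.ZB
import Pool.Agent.Lib.MP_7e5527_ag.EO.SH

/-! The number of sheets in characteristic `p`. -/

open MvPowerSeries Filter Topology Matrix

noncomputable section

namespace Pool.Agent.E7

variable {ι : Type} [Fintype ι] [DecidableEq ι] {p : ℕ} [Fact p.Prime] {Co : Cone ι} {R : Type}
  [CommRing R] {S : TW p Co R} {M W : Cl S} {E : Fr S}

theorem Fr.Rl.prim' {a : ℕ} {F : R} {P : Polynomial (MvPolynomial (Option ι) ℤ)}
    (h : E.Rl (Int.castRingHom R) a F P) : ∃ P', E.Rl (Int.castRingHom R) a F P' ∧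
      P'.natDegree ≤ P.natDegree ∧ ∃ j ν, ¬ (p : ℤ) ∣ (P'.coeff j).coeff ν := by
  obtain ⟨j, hj⟩ : ∃ j, P.coeff j ≠ 0 := by
    by_contra h1
    exact h.1 (Polynomial.ext fun j => by_contra fun h2 => h1 ⟨j, h2⟩)
  obtain ⟨ν, hν⟩ := MvPolynomial.ne_zero_iff.1 hj
  have hp : 1 < p := (Fact.out : p.Prime).one_lt
  clear hj
  generalize hn : ((P.coeff j).coeff ν).natAbs = n
  induction n using Nat.strong_induction_on generalizing P with
  | _ n ih =>
  by_cases h1 : ∃ j ν, ¬ (p : ℤ) ∣ (P.coeff j).coeff ν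
  · exact ⟨P, h, le_rfl, h1⟩
  have h2 : Polynomial.C (MvPolynomial.C (p : ℤ)) ∣ P :=
    (Polynomial.C_dvd_iff_dvd_coeff _ _).2 fun j => (MvPolynomial.C_dvd_iff_dvd_coeff _ _).2
      fun ν => by_contra fun h2 => h1 ⟨j, ν, h2⟩
  obtain ⟨Q, rfl⟩ := h2
  have h3 : ∀ j ν, ((Polynomial.C (MvPolynomial.C (p : ℤ)) * Q).coeff j).coeff ν =
      p * (Q.coeff j).coeff ν := fun j ν => by
    rw [Polynomial.coeff_C_mul, MvPolynomial.coeff_C_mul]
  have hp0 : (p : ℤ) ≠ 0 := by omega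
  rw [h3] at hν hn
  have h4 := right_ne_zero_of_mul hν
  rw [Polynomial.natDegree_C_mul (MvPolynomial.C_ne_zero.2 hp0)]
  refine ih _ ?_ (P := Q) ⟨right_ne_zero_of_mul h.1, ?_, ?_⟩ h4 rfl
  · rw [← hn, Int.natAbs_mul, Int.natAbs_natCast]
    exact lt_mul_of_one_lt_left (Int.natAbs_pos.2 h4) hp
  · obtain ⟨L, hL⟩ := h.2.1
    refine ⟨L, fun j hj => ?_⟩
    obtain ⟨μ, hμ⟩ := MvPolynomial.ne_zero_iff.1 hj
    obtain ⟨d, e, hd⟩ := hL j (MvPolynomial.ne_zero_iff.2 ⟨μ, by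
      rw [h3]; exact mul_ne_zero hp0 hμ⟩)
    exact ⟨d, e, fun μ hμ => hd (by rw [h3]; exact mul_ne_zero hp0 hμ)⟩
  · have h5 := h.2.2
    rw [Polynomial.eval₂_mul, Polynomial.eval₂_C, MvPolynomial.eval₂Hom_C, map_natCast] at h5
    exact csys_cancel S h5

theorem zs_map {σ B B' : Type} [CommRing B] [CommRing B'] (ρ : B →+* B') {y : σ → B} {z : σ → B'}
    (h : ∀ o, ρ (y o) = z o) : ρ.comp (MvPolynomial.eval₂Hom (Int.castRingHom B) y) =
      MvPolynomial.eval₂Hom (Int.castRingHom B') z :=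
  MvPolynomial.ringHom_ext' (RingHom.ext_int _ _) fun o => by simp [h]

theorem zs_hom {σ B : Type} [CommRing B] {Q : MvPolynomial σ ℤ} {d : ℕ} (hQ : Q.IsHomogeneous d)
    (y : σ → B) (t : B) : MvPolynomial.eval₂Hom (Int.castRingHom B) (fun o => y o * t) Q =
      MvPolynomial.eval₂Hom (Int.castRingHom B) y Q * t ^ d := by
  rw [MvPolynomial.coe_eval₂Hom, MvPolynomial.coe_eval₂Hom, MvPolynomial.eval₂_eq,
    MvPolynomial.eval₂_eq, Finset.sum_mul]
  refine Finset.sum_congr rfl fun m hm => ?_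
  simp only [mul_pow, Finset.prod_mul_distrib, Finset.prod_pow_eq_pow_sum, mul_assoc,
    hQ.degree_eq_sum_deg_support hm]

theorem Fr.Rl.zn {B : Type} [CommRing B] {ξ : S.ZR →+* B} (h : IsUnit (ξ E.z0)) {a : ℕ}
    {F : S.ZR} {P : Polynomial (MvPolynomial (Option ι) ℤ)}
    (hP : E.Rl (Int.castRingHom R) a (F : R) P) :
    P.eval₂ (MvPolynomial.eval₂Hom (Int.castRingHom B) fun o => o.elim 1 (E.zx ξ))
      (E.zn ξ a F) = 0 := by
  obtain ⟨-, ⟨L, hL⟩, h0⟩ := hP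
  let oz : Option ι → S.ZR := fun o => o.elim E.z0 E.z1
  have h1 : P.eval₂ (MvPolynomial.eval₂Hom (Int.castRingHom S.ZR) oz) F = 0 := by
    refine Subtype.ext ((Polynomial.hom_eval₂ P _ S.ZR.subtype F).trans ?_)
    rw [zs_map S.ZR.subtype (z := E.oe) fun o => by cases o <;> rfl]
    exact h0
  have h2 := congrArg (ξ · * Ring.inverse (ξ E.z0) ^ L) h1
  have e : (fun o => ξ (oz o) * Ring.inverse (ξ E.z0)) = fun o : Option ι => o.elim 1 (E.zx ξ) := by
    funext o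
    cases o with
    | none => exact Ring.mul_inverse_cancel _ h
    | some i => exact congrArg _ (pow_one _).symm
  simp only [map_zero, zero_mul] at h2
  rw [Polynomial.hom_eval₂, zs_map ξ fun _ => rfl] at h2
  rw [← h2, Polynomial.eval₂_eq_sum, Polynomial.eval₂_eq_sum, Polynomial.sum_def,
    Polynomial.sum_def, Finset.sum_mul]
  refine Finset.sum_congr rfl fun j hj => ?_
  obtain ⟨d, rfl, hd⟩ := hL j (Polynomial.mem_support_iff.1 hj)
  rw [← e, zs_hom hd, Fr.zn]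
  ring

section

variable {Ω : Type} [Field Ω]

omit [Fintype ι] [DecidableEq ι]

theorem zs_coe (x : ι → Ω) (i : ι) : MvPolynomial.coeToMvPowerSeries.ringHom
    (MvPolynomial.C (x i) + MvPolynomial.X i : MvPolynomial ι Ω) = C (x i) + X i := by
  simp

theorem zs_pow (x : ι → Ω) (i : ι) :
    Function.Injective fun k : ℕ => (C (x i) + X i : PS ι Ω) ^ k := fun k l h => by
  simp only [← zs_coe, ← map_pow] at h
  have h1 := congrArg (MvPolynomial.aeval fun j => Polynomial.X - Polynomial.C (x j))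
    (MvPolynomial.coe_injective _ _ h)
  simpa using congrArg Polynomial.natDegree h1

variable [CharP Ω p]

omit [Fact p.Prime] in
theorem zs_ne {Q : MvPolynomial (Option ι) ℤ} {d : ℕ} (hQ : Q.IsHomogeneous d) (x : ι → Ω)
    (h : MvPolynomial.eval₂Hom (Int.castRingHom (PS ι Ω))
      (fun o => o.elim 1 fun i => C (x i) + X i) Q = 0) (ν : Option ι →₀ ℕ) :
    (p : ℤ) ∣ Q.coeff ν := by
  rw [← zs_map MvPolynomial.coeToMvPowerSeries.ringHom
    (y := fun o => o.elim 1 fun i => MvPolynomial.C (x i) + MvPolynomial.X i)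
    fun o => by cases o; exacts [map_one _, zs_coe x _]] at h
  have h1 := MvPolynomial.coe_injective _ _ (h.trans MvPolynomial.coe_zero.symm)
  let a := algebraMap (MvPolynomial (Option ι) Ω) (FractionRing (MvPolynomial (Option ι) Ω))
  have ha : Function.Injective a := IsFractionRing.injective _ _
  have ht : a (MvPolynomial.X none) ≠ 0 := (map_ne_zero_iff _ ha).2 (MvPolynomial.X_ne_zero _)
  have h2 := congrArg (MvPolynomial.eval₂Hom (a.comp MvPolynomial.C) fun i =>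
    a (MvPolynomial.X (some i)) / a (MvPolynomial.X none) - a (MvPolynomial.C (x i))) h1
  rw [map_zero, ← RingHom.comp_apply, zs_map _
    (z := fun o => a (MvPolynomial.X o) / a (MvPolynomial.X none))
    fun o => by cases o <;> simp [ht]] at h2
  have h3 := zs_hom hQ (fun o => a (MvPolynomial.X o) / a (MvPolynomial.X none))
    (a (MvPolynomial.X none))
  simp only [div_mul_cancel₀ _ ht] at h3
  rw [h2, zero_mul, ← zs_map a fun _ => rfl, RingHom.comp_apply, map_eq_zero_iff _ ha] at h3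
  have h4 : MvPolynomial.map (Int.castRingHom Ω) Q = 0 := by
    rw [← h3]
    exact DFunLike.congr_fun (MvPolynomial.ringHom_ext' (RingHom.ext_int _ _) fun o => by simp) Q
  have h5 := congrArg (MvPolynomial.coeff ν) h4
  rw [MvPolynomial.coeff_map] at h5
  exact (CharP.intCast_eq_zero_iff Ω p _).1 h5

end

theorem zs_avoid {τ K : Type} [CommRing K] [NoZeroDivisors K] {y : ℕ → K}
    (hy : Function.Injective y) (T : Finset τ) (α β : τ → K) (h : ∀ q ∈ T, α q ≠ 0 ∨ β q ≠ 0) :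
    ∃ n, ∀ q ∈ T, α q + β q * y n ≠ 0 := by
  obtain ⟨n, hn⟩ := (T.finite_toSet.biUnion (t := fun q => {n | α q + β q * y n = 0})
    fun q hq => Set.Subsingleton.finite fun n h1 m h2 => by
      have h3 : β q ≠ 0 := fun e => (h q hq).elim (fun h4 => h4 (by simpa [e] using h1)) (· e)
      exact hy (mul_left_cancel₀ h3 (add_left_cancel (h1.trans h2.symm)))).exists_notMem
  exact ⟨n, fun q hq e => hn (Set.mem_biUnion hq e)⟩

/-- One member of the class separates all pairs. -/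
theorem zs_sep (hA : Ad M E) {τ K : Type} [Fintype τ] [CommRing K] [NoZeroDivisors K]
    {ψ : τ → S.ZR →+* K} (hψ : ∀ r, IsUnit (ψ r E.z0)) {i : ι} {y : K}
    (hy : Function.Injective fun k : ℕ => y ^ k) (hx : ∀ r, E.zx (ψ r) i = y)
    (hne : ∀ r r', r ≠ r' → ¬M.ZS E (ψ r) (ψ r')) :
    ∃ (a : ℕ) (F : S.ZR), (F : R) ∈ M.M a ∧ Function.Injective fun r => E.zn (ψ r) a F := by
  classical
  have hpow : ∀ {G : S.ZR}, (G : R) ∈ M.M 1 → ∀ n a (F : S.ZR), (F : R) ∈ M.M a →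
      ((F * G ^ n : S.ZR) : R) ∈ M.M (a + n) := fun hG n a F hF => by
    simpa using M.mul _ _ _ hF _ (M.pow hG n)
  have key : ∀ T : Finset (τ × τ), (∀ q ∈ T, q.1 ≠ q.2) → ∃ (a : ℕ) (F : S.ZR), (F : R) ∈ M.M a ∧
      ∀ q ∈ T, E.zn (ψ q.1) a F ≠ E.zn (ψ q.2) a F := fun T hT => by
    induction T using Finset.induction_on with
    | empty => exact ⟨0, 0, M.zero 0, by simp⟩
    | insert q T _ ih =>
      obtain ⟨a, F, hF, h1⟩ := ih fun r hr => hT r (Finset.mem_insert_of_mem hr)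
      have h2 := hne _ _ (hT q (Finset.mem_insert_self _ _))
      simp only [Cl.ZS, not_forall] at h2
      obtain ⟨b, G, hG, h2⟩ := h2
      obtain ⟨n, hn⟩ := zs_avoid hy (insert q T) (fun r => E.zn (ψ r.1) a F - E.zn (ψ r.2) a F)
        (fun r => E.zn (ψ r.1) b G - E.zn (ψ r.2) b G) fun r hr =>
          (Finset.mem_insert.1 hr).elim (fun e => .inr (e ▸ sub_ne_zero.2 h2))
            fun hr => .inl (sub_ne_zero.2 (h1 r hr))
      have e0 : a + (b + n) = b + n + a := add_comm _ _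
      have e : ∀ r, E.zn (ψ r) (a + (b + n)) (F * E.z0 ^ (b + n) + G * E.z1 i ^ n * E.z0 ^ a) =
          E.zn (ψ r) a F + E.zn (ψ r) b G * y ^ n := fun r => by
        rw [Fr.zn_add, Fr.zn_e0 (hψ r), e0, Fr.zn_e0 (hψ r), Fr.zn_mul, ← hx r]
        simp only [Fr.zx, Fr.zn, map_pow, mul_pow, pow_one]
      refine ⟨a + (b + n), F * E.z0 ^ (b + n) + G * E.z1 i ^ n * E.z0 ^ a,
        M.add _ _ (hpow (G := E.z0) hA.e0 _ a F hF) _ (e0 ▸ hpow (G := E.z0) hA.e0 a _ _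
          (hpow (G := E.z1 i) (hA.e i) n b G hG)), fun r hr e' => hn r hr ?_⟩
      rw [e, e] at e'
      linear_combination e'
  obtain ⟨a, F, hF, h1⟩ := key Finset.univ.offDiag fun q hq => (Finset.mem_offDiag.1 hq).2.2
  exact ⟨a, F, hF, fun r r' e => by_contra fun h2 => h1 (r, r') (by simpa using h2) e⟩

variable [Nonempty ι] {Ω : Type} [Field Ω] [CharP Ω p]

/-- Deform with `exists_zeta`; separate with the multipliers `(x i + X i) ^ k`. -/
theorem BDeg.zsheets (hb : BDeg M E) (hA : Ad M E) : ∃ D0 : ℕ,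
    ∀ (ξ : Fin (D0 + 1) → S.ZR →+* Ω) (x : ι → Ω), (∀ r, E.ZU (ξ r)) →
      (∀ r, E.zx (ξ r) = x) → ∃ r r', r ≠ r' ∧ M.ZS E (ξ r) (ξ r') := by
  obtain ⟨D0, hD⟩ := hb
  refine ⟨D0, fun ξ x hξ hx => by_contra fun hn => ?_⟩
  have := pc_char (A := Ω) p
  have : IsDomain (PS ι Ω) := NoZeroDivisors.to_isDomain _
  choose ζ h1 h2 h3 using fun r => (hξ r).exists_zeta
  simp only [hx] at h3
  obtain ⟨i⟩ := ‹Nonempty ι›
  obtain ⟨a, F, hF, hi⟩ := zs_sep hA (fun r => (h2 r).u0) (zs_pow x i) (fun r => h3 r i)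
    fun r r' hr h => hn ⟨r, r', hr, by
      have h4 := h.map (h2 r) (h2 r') constantCoeff
      rwa [RingHom.ext (f := constantCoeff.comp _) (h1 r),
        RingHom.ext (f := constantCoeff.comp _) (h1 r')] at h4⟩
  obtain ⟨P0, hP0, hd0⟩ := hD a F hF
  obtain ⟨P, hP, hd, j, ν, hj⟩ := hP0.prim'
  have h6 : P.map (MvPolynomial.eval₂Hom (Int.castRingHom (PS ι Ω))
      fun o => o.elim 1 fun i => C (x i) + X i) ≠ 0 := fun e => by
    obtain ⟨L, hL⟩ := hP.2.1
    obtain ⟨d, -, hQ⟩ := hL j fun h0 => hj (by simp [h0])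
    exact hj (zs_ne hQ x ((Polynomial.coeff_map _ j).symm.trans (congrArg (·.coeff j) e)) ν)
  have h7 := Polynomial.card_le_degree_of_subset_roots (Z := Finset.univ.map ⟨_, hi⟩) fun z hz => by
    obtain ⟨r, -, rfl⟩ := Finset.mem_map.1 (Finset.mem_def.2 hz)
    have h8 := hP.zn (h2 r).u0
    rw [funext (h3 r)] at h8
    exact (Polynomial.mem_roots h6).2 ((Polynomial.eval_map _ _).trans h8)
  have h8 := (h7.trans Polynomial.natDegree_map_le).trans (hd.trans hd0)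
  simp at h8

theorem BDeg.zsame (hb : BDeg M E) (hA : Ad M E) (U : Ultrafilter ℕ) {ξ : ℕ → S.ZR →+* Ω}
    {x : ι → Ω} (h : ∀ᶠ n in (U : Filter ℕ), E.ZU (ξ n) ∧ E.zx (ξ n) = x) :
    ∃ m, E.ZU (ξ m) ∧ ∀ᶠ n in (U : Filter ℕ), M.ZS E (ξ n) (ξ m) := by
  by_contra hn
  obtain ⟨D0, hD⟩ := hb.zsheets (Ω := Ω) hA
  obtain ⟨f, hf, h1⟩ := exists_seq_of_forall_finset_exists (fun n => E.ZU (ξ n) ∧ E.zx (ξ n) = x)
    (fun m n => ¬M.ZS E (ξ n) (ξ m)) fun T hT => (h.and ((eventually_all_finset T).2 fun m hm =>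
      Ultrafilter.eventually_not.2 fun h => hn ⟨m, (hT m hm).1, h⟩)).exists
  obtain ⟨r, r', h2, h3⟩ := hD (fun r => ξ (f r)) x (fun r => (hf r).1) fun r => (hf r).2
  rcases lt_or_gt_of_ne h2 with h5 | h5
  exacts [h1 _ _ h5 h3.symm, h1 _ _ h5 h3]

end Pool.Agent.E7
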