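import Pool.Agent.Lib.MP_7e5527_ag.EA.ZD
import Pool.Agent.Lib.MP_7e5527_ag.EA.ZS
import Pool.Agent.Lib.MP_7e5527_ag.EA.GF

/-! Generic vanishing for a sequence of points. -/

open MvPowerSeries Filter Topology Matrix

noncomputable section

namespace Pool.Agent.E7

variable {ι : Type} [Fintype ι] [DecidableEq ι] {p : ℕ} [Fact p.Prime] {Co : Cone ι} {R : Type}
  [CommRing R] {S : TW p Co R} {M W : Cl S} {E : Fr S}

variable {U : Ultrafilter ℕ}

theorem zg_eval {A A' : Type} [CommRing A] [CommRing A'] [PC p A] [PC p A'] (f : A →+* A')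
    (x : ι → A) (H : MvPolynomial ι ℤ_[p]) : f (MvPolynomial.eval₂ (zc p A) x H) =
      MvPolynomial.eval₂ (zc p A') (fun i => f (x i)) H := by
  rw [MvPolynomial.eval₂_comp_left, zc_unique (f.comp _) (zc p A')]
  rfl

theorem zg_can {B B' : Type} [CommRing B] [CharP B p] [PerfectRing B p] [CommRing B'] [CharP B' p]
    [PerfectRing B' p] {ξ : S.ZR →+* B} (h : E.ZU ξ) (ρ : B →+* B') (i : ι) :
    MvPowerSeries.map (WittVector.map ρ) (E.XS (S.can ξ) i) = E.XS (S.can (ρ.comp ξ)) i := by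
  rw [h.can.XS_map, TW.can_map]

/-- The deformations of the reductions have one generic point. -/
theorem exists_gen_pt [Nonempty ι] (hU : (U : Filter ℕ) ≤ cofinite) (hM : Ad M E) (hb : BDeg M E)
    {θ : ℕ → S.ZR →+* RF p} (hθ : ∀ n, E.ZU (θ n)) :
    ∃ (Ω : Type) (_ : Field Ω) (_ : CharP Ω p) (_ : PerfectRing Ω p) (B : ℕ → Type)
      (_ : ∀ n, CommRing (B n)) (_ : ∀ n, CharP (B n) p) (_ : ∀ n, PerfectRing (B n) p)
      (G : GBs p U Ω B) (P : ∀ n, GP E (θ n) (B n)) (x : ι → PS ι (WittVector p Ω))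
      (κ : ℕ → Matrix ι ι ℤ_[p]), (∀ n, (P n).c = G.cn n ∧ (P n).ev = G.ev n ∧ IsUnit (κ n).det) ∧
      ∀ᶠ n in (U : Filter ℕ), (∀ i, x i = MvPowerSeries.map (WittVector.map (G.i n))
          (sb (tpw (WittVector p (B n)) (κ n)) (E.XS (S.can (P n).ζ) i))) ∧
        ((∀ᶠ m in (U : Filter ℕ), E.zx (θ m) = E.zx (θ n)) ∨ (P n).Arc) := by
  obtain ⟨Ω, _, _, _, B, _, _, _, G, π, x, h1, h2, h3⟩ := exists_gb hU fun n => E.zx (θ n)
  choose ζ hc hu hx using fun n => (hθ n).exists_zeta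
  let P : ∀ n, GP E (θ n) (B n) := fun n =>
    { c := G.cn n
      ev := G.ev n
      ζ := (π n).comp (ζ n)
      zu := (hu n).map _
      evc := G.evc n
      evζ := fun F => (h2 n _).trans (hc n F) }
  obtain ⟨m, hm, hs⟩ := hb.zsame hM U (ξ := fun n => (G.i n).comp (P n).ζ) (x := x)
    (h3.mono fun n hn => ⟨(P n).zu.map _, funext fun l => by
      rw [Fr.zx_map (P n).zu.u0, ← hn.1 l, ← hx]
      exact congrArg _ (Fr.zx_map (hu n).u0 _ l)⟩)
  have h4 : ∀ n, ∃ κ : Matrix ι ι ℤ_[p], IsUnit κ.det ∧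
      (M.ZS E ((G.i n).comp (P n).ζ) ((G.i m).comp (P m).ζ) →
        ∀ i, E.XS (S.can ((G.i m).comp (P m).ζ)) i =
          sb (tpw (WittVector p Ω) κ) (E.XS (S.can ((G.i n).comp (P n).ζ)) i)) := fun n => by
    by_cases h : M.ZS E ((G.i n).comp (P n).ζ) ((G.i m).comp (P m).ζ)
    · exact (hM.ztor hm ((P n).zu.map _) h.symm).imp fun κ hκ => ⟨hκ.1, fun _ => hκ.2⟩
    · exact ⟨1, by simp, fun h' => absurd h' h⟩
  choose κ hκ hκ' using h4
  refine ⟨Ω, inferInstance, inferInstance, inferInstance, B, inferInstance, inferInstance,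
    inferInstance, G, P, E.XS (S.can ((G.i m).comp (P m).ζ)), κ,
    fun n => ⟨rfl, rfl, hκ n⟩, (h3.and hs).mono fun n hn => ⟨fun i => ?_, hn.1.2.imp id ?_⟩⟩
  · rw [hκ' n hn.2, map_sb (tpw_c0 _), zg_can (P n).zu]
    simp only [tpw_map]
  · rintro ⟨y, lam, y0, y1, hl⟩
    refine ⟨y, lam, (sb y).comp (ζ n), y0, y1, fun w => ?_, fun F => hl _,
      fun F => (const_sb y0 _).trans (hc n F), (hu n).map _, fun i => ?_⟩
    · exact ((congrArg lam (h1 n w).symm).trans (hl _)).trans (congrArg _ (evx_C y0.ev w))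
    · rw [Fr.zx_map (hu n).u0, hx, map_add, evx_C y0.ev, evx_X y0.ev]

/-- Generic vanishing along the sequence. -/
theorem gen_van [Nonempty ι] (hU : (U : Filter ℕ) ≤ cofinite) (hM : Ad M E) (hb : BDeg M E)
    (hW : W.Tow) (hA : Ad W E) {ψ y : ℕ → R →+* ℂ_[p]} {θ : ℕ → S.ZR →+* RF p}
    {u : ℕ → ι → ℂ_[p]ˣ} (h : ∀ n, Cn W E (ψ n) (θ n) (y n) (u n)) {K : Subfield ℂ_[p]}
    (hK : DVF K) (hμ : ∀ ξ : ℂ_[p], ξ ^ p ^ 2 = 1 → ξ ∈ K) {L : ι → ℂ_[p]} (hL : ∀ k, L k ∈ K)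
    (hl : ∀ n i, lgv p (u n) i ∈ Submodule.span ℚ_[p] (Set.range L))
    {𝓗 : Set (MvPolynomial ι ℤ_[p])} (hf : 𝓗.Finite) (hv : ∀ H ∈ 𝓗, ∀ᶠ n in (U : Filter ℕ),
      MvPolynomial.eval₂ (UAP.zp p) (E.xc (ψ n)) H = 0) :
    ∃ (τ : Finset ι) (r : ℝ), r < 1 ∧ (τ = ∅ → ∀ᶠ n in (U : Filter ℕ), ‖uv (u n) - 1‖ ≤ r) ∧
      ∀ᶠ n in (U : Filter ℕ), ∃ (B : Type) (_ : CommRing B) (_ : CharP B p) (_ : PerfectRing B p)
        (G : GP E (θ n) B) (μ : Matrix ι ι ℤ_[p]), IsUnit μ.det ∧ G.Van (u n) μ τ 𝓗 ∧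
          ((∀ᶠ m in (U : Filter ℕ), E.zx (θ m) = E.zx (θ n)) ∨ G.Arc) := by
  obtain ⟨Ω, _, _, _, B, _, _, _, G, P, x, κ, h1, h2⟩ := exists_gen_pt hU hM hb fun n => (h n).zu
  let v : ℕ → ι → OC p := fun n => mpw (uo (u n)) (κ n)⁻¹
  have hN : ∀ n, N1 (v n) := fun n => (h n).nr.n1.mpw _
  have hk : ∀ n, mpw (v n) (κ n) = uo (u n) := fun n => by
    rw [mpw_mpw (h n).nr.n1.e1, Matrix.mul_nonsing_inv _ (h1 n).2.2, mpw_one (h n).nr.n1.e1]
  obtain ⟨γ, ρ, r, hγ, hr, h3, h4⟩ := gv hU hK hμ hL hN fun n i => by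
    rw [lgo_mpw (h n).nr.n1, (h n).nr.lgo]
    refine sum_mem fun l _ => ?_
    have := Submodule.smul_mem _ (((κ n)⁻¹ i l : ℤ_[p]) : ℚ_[p]) (hl n l)
    rwa [Algebra.smul_def] at this
  refine ⟨ρ, r, hr, fun h0 => (h3 h0).mono fun n hn => ?_, ?_⟩
  · have h5 : 0 ≤ r := (norm_nonneg _).trans (hn (Classical.arbitrary ι))
    refine (pi_norm_le_iff_of_nonneg h5).2 fun i => ?_
    have h6 := norm_mpw (hN n) h5 hn (κ n) i
    rwa [hk, (h n).nr.coe_uo] at h6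
  have h5 := (Filter.eventually_all_finite hf).2 fun H hH =>
    h4 (WittVector p Ω) (fun n => WittVector p (B n)) G.gd (MvPolynomial.eval₂ (zc p _) x H)
      (fun n => MvPolynomial.eval₂ (zc p _)
        (fun i => sb (tpw (WittVector p (B n)) (κ n)) (E.XS (S.can (P n).ζ) i)) H)
      ((h2.and (hv H hH)).mono fun n hn => ⟨by
        rw [zg_eval, funext hn.1.1]
        rfl, Subtype.val_injective (by
        refine ((congrArg (ov p) (zg_eval _ _ H)).trans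
          (MvPolynomial.eval₂_comp_left (ov p) _ _ H)).trans (Eq.trans ?_ hn.2)
        congr 1
        · exact RingHom.ext zc_oc
        funext i
        have h6 := (h n).ev hW hA (h n).nr i
        rw [← (h n).eq, ← RingHom.ext (f := (P n).ev.comp (P n).ζ) (P n).evζ,
          ← zg_can (P n).zu, evx_map (h n).nr.n1.e1, (h1 n).2.1] at h6
        rw [Function.comp_apply, evx_tpw (hN n).e1, hk]
        exact h6)⟩)
  refine (h2.and h5).mono fun n hn => ⟨B n, inferInstance, inferInstance, inferInstance,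
    P n, κ n * γ, ?_, fun H hH Λ s hs hΛ z hz hρ => ?_, hn.1.2⟩
  · rw [Matrix.det_mul]
    exact (h1 n).2.2.mul hγ
  have h6 := hn.2 H hH Λ s hs (fun w => by rw [← hΛ w, (h1 n).1]; rfl) z hz hρ
  have h7 := ((hN n).res hs).mul (hz.mpw γ)
  have h8 : mpw ((fun i => resO s hs (v n i)) * mpw z γ) (κ n) =
      fun i => resO s hs (uo (u n) i) * mpw z (κ n * γ) i := by
    rw [mul_mpw (((hN n).res hs).e2 (hz.mpw γ)), mpw_mpw hz.e1]
    funext i
    rw [Pi.mul_apply, ← mpw_map (hN n).e1 _ ((hN n).res hs).e1, hk]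
  rw [zg_eval] at h6
  refine Eq.trans (congrArg (MvPolynomial.eval₂ _ · H) (funext fun j => ?_)) h6
  refine Eq.trans ?_ (evx_tpw h7.e1 Λ (κ n) _).symm
  rw [h8, ← (P n).zu.can.XS_map]
  exact evx_map (((h n).nr.n1.res hs).mul (hz.mpw _)).e1 Λ _

end Pool.Agent.E7
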